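import Pool.Agent.H29.CJ.LkS

/-!
# Uniqueness of addresses

Use only the STATEMENTS of `AtL` (and the definitions).

Letters of `Rec` words are in `{emp, br, row, bit}`: no `tau`.  The same for `Adr j k A`.
(1) `t = t'`: all letters of `[t+1, e)` are not `tau`, so `pre cTau w e = pre cTau w (t+1)` (`pre_eq_of_zero`), and the same for
 `t', e'`.  If `t < t'` then `pre cTau w (t'+1) = pre cTau w t' + 1 ≥ pre cTau w (t+1) + 1` (`pre_succ`, `pre_mono`), contradiction.
(2) For `s = t + 1` let `N q` be the number of letters `emp` or `br` in `[s, q)` (a weight function, `pre`).  If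
 `At w (pw Rec j) s q` then `N q = j` (each `Rec` contains exactly one letter `emp/br`, namely its first).  So if
 moreover `q` carries `emp` or `br`, then `q` is determined by `j` and `s` (two such positions `q < q'` would give
 `N q' ≥ N q + 1`).  This gives `adr_not_em`: the position of the `br` of the address and `e'` coincide, but carry
 different letters.
(3) `adr_uniq`: the position `q` of `br` is the same for both.  From `q + 1` on: `At w (pw Row k) (q+1) r` and `r` carries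
 `row`: the number of `row` letters in `[q+1, r)` is `k`, all letters of `[q+1, r)` are `row` or bits, so `r` is determined in
 the same way.  Then `e = r + 1 + A` (`at_pw_LC`).
-/

set_option autoImplicit false

namespace Pool.Agent.H29.CJ

open Lt

variable {w : List Lt}

/-- counts `emp` and `br` -/
def adrU_nE : Lt → ℤ | emp => 1 | br => 1 | _ => 0

/-- counts `row` -/
def adrU_nR : Lt → ℤ | row => 1 | _ => 0

theorem adrU_pw {f : Lt → ℤ} {c : ℤ} {L : Set (List Lt)}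
    (hL : ∀ s q, At w L s q → pre f w q = pre f w s + c) :
    ∀ (n s q : ℕ), At w (pw L n) s q → pre f w q = pre f w s + n * c := by
  intro n
  induction n with
  | zero =>
    intro s q h
    obtain ⟨rfl, _⟩ := at_eps.1 h
    simp
  | succ n ih =>
    intro s q h
    obtain ⟨k, h1, h2⟩ := at_pw_succ.1 h
    rw [ih k q h2, hL s k h1]
    push_cast
    ring

theorem adrU_LC {f : Lt → ℤ} {P : Lt → Prop} {c : ℤ} (hP : ∀ a, P a → f a = c) :
    ∀ s q, At w (LC P) s q → pre f w q = pre f w s + c := by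
  intro s q h
  obtain ⟨rfl, a, ha, hPa⟩ := at_LC.1 h
  rw [pre_succ ha, hP a hPa]

theorem adrU_ST {f : Lt → ℤ} {P : Lt → Prop} (hP : ∀ a, P a → f a = 0) :
    ∀ s q, At w (ST P) s q → pre f w q = pre f w s := by
  intro s q h
  obtain ⟨h1, h2, h3⟩ := at_ST.1 h
  exact pre_eq_of_zero h1 h2 (fun t ht1 ht2 => (h3 t ht1 ht2).mono hP)

theorem adrU_rec {f : Lt → ℤ} {c : ℤ} (he : f emp = c) (hb : f br = c)
    (h0 : ∀ a, isRB a → f a = 0) :
    ∀ s q, At w Rec s q → pre f w q = pre f w s + c := by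
  intro s q h
  rcases at_union.1 h with h | h
  · exact adrU_LC (fun a ha => by rw [ha]; exact he) s q h
  · obtain ⟨k, h1, h2⟩ := at_cat.1 h
    rw [adrU_ST h0 k q h2, adrU_LC (c := c) (fun a ha => by rw [ha]; exact hb) s k h1]

theorem adrU_row {f : Lt → ℤ} {c : ℤ} (hr : f row = c) (h0 : ∀ a, isBit a → f a = 0) :
    ∀ s q, At w Row s q → pre f w q = pre f w s + c := by
  intro s q h
  obtain ⟨k, h1, h2⟩ := at_cat.1 h
  rw [adrU_ST h0 k q h2, adrU_LC (c := c) (fun a ha => by rw [ha]; exact hr) s k h1]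

theorem adrU_uniq {f : Lt → ℤ} (hf : ∀ a, 0 ≤ f a) {P P' : Lt → Prop} {q q' : ℕ}
    (h : Is w q P) (h' : Is w q' P') (hP : ∀ a, P a → f a = 1) (hP' : ∀ a, P' a → f a = 1)
    (he : pre f w q = pre f w q') : q = q' := by
  obtain ⟨a, ha, hPa⟩ := h
  obtain ⟨b, hb, hPb⟩ := h'
  have h1 := pre_succ (f := f) ha
  have h2 := pre_succ (f := f) hb
  rw [hP a hPa] at h1
  rw [hP' b hPb] at h2
  rcases lt_trichotomy q q' with hlt | heq | hgt
  · have h3 := pre_mono (w := w) hf (by omega : q + 1 ≤ q')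
    omega
  · exact heq
  · have h3 := pre_mono (w := w) hf (by omega : q' + 1 ≤ q)
    omega

theorem adrU_cTau_nonneg (a : Lt) : 0 ≤ cTau a := by
  cases a <;> simp [cTau]

theorem adrU_nE_nonneg (a : Lt) : 0 ≤ adrU_nE a := by
  cases a <;> simp [adrU_nE]

theorem adrU_nR_nonneg (a : Lt) : 0 ≤ adrU_nR a := by
  cases a <;> simp [adrU_nR]

theorem adrU_bit0 (a : Lt) (h : isBit a) : cTau a = 0 ∧ adrU_nE a = 0 ∧ adrU_nR a = 0 := by
  obtain ⟨b, rfl⟩ := h
  exact ⟨rfl, rfl, rfl⟩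

theorem adrU_rb0 (a : Lt) (h : isRB a) : cTau a = 0 ∧ adrU_nE a = 0 := by
  rcases h with rfl | ⟨b, rfl⟩
  · exact ⟨rfl, rfl⟩
  · exact ⟨rfl, rfl⟩

theorem adrU_split {j k A s e : ℕ} (h : At w (Adr j k A) s e) :
    ∃ q r, At w (pw Rec j) s q ∧ Is w q (· = br) ∧ At w (pw Row k) (q + 1) r ∧
      Is w r (· = row) ∧ e = r + 1 + A ∧ pre cTau w e = pre cTau w s := by
  obtain ⟨q, h1, h2⟩ := at_cat.1 h
  obtain ⟨q1, h3, h4⟩ := at_cat.1 h2
  have h3' := h3
  obtain ⟨rfl, hq⟩ := at_LC.1 h3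
  obtain ⟨r, h5, h6⟩ := at_cat.1 h4
  obtain ⟨r1, h7, h8⟩ := at_cat.1 h6
  have h7' := h7
  obtain ⟨rfl, hr⟩ := at_LC.1 h7
  obtain ⟨h9, _, _⟩ := at_pw_LC.1 h8
  refine ⟨q, r, h1, hq, h5, hr, h9, ?_⟩
  have k1 := adrU_pw (adrU_rec (w := w) (f := cTau) (c := 0) rfl rfl
    (fun a ha => (adrU_rb0 a ha).1)) j s q h1
  have k2 := adrU_LC (w := w) (f := cTau) (c := 0) (P := (· = br))
    (fun a ha => by rw [ha]; rfl) _ _ h3'
  have k3 := adrU_pw (adrU_row (w := w) (f := cTau) (c := 0) rfl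
    (fun a ha => (adrU_bit0 a ha).1)) k _ _ h5
  have k4 := adrU_LC (w := w) (f := cTau) (c := 0) (P := (· = row))
    (fun a ha => by rw [ha]; rfl) _ _ h7'
  have k5 := adrU_pw (adrU_LC (w := w) (f := cTau) (c := 0) (P := isBit)
    (fun a ha => (adrU_bit0 a ha).1)) A _ _ h8
  rw [mul_zero] at k1 k3 k5
  omega

theorem adrU_tau_eq {t t' s s' : ℕ} (ht : Is w t (· = tau)) (ht' : Is w t' (· = tau))
    (hs : pre cTau w s = pre cTau w (t + 1)) (hs' : pre cTau w s' = pre cTau w (t' + 1))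
    (hc : pre cTau w s = pre cTau w s') : t = t' := by
  refine adrU_uniq adrU_cTau_nonneg ht ht' (fun a ha => by rw [ha]; rfl)
    (fun a ha => by rw [ha]; rfl) ?_
  obtain ⟨a, ha, hPa⟩ := ht
  obtain ⟨b, hb, hPb⟩ := ht'
  have h1 := pre_succ (f := cTau) ha
  have h2 := pre_succ (f := cTau) hb
  have h3 : cTau a = 1 := by rw [hPa]; rfl
  have h4 : cTau b = 1 := by rw [hPb]; rfl
  omega

theorem adr_uniq {j k A t t' e e' : ℕ} (ht : Is w t (· = tau)) (ht' : Is w t' (· = tau))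
    (h : At w (Adr j k A) (t + 1) e) (h' : At w (Adr j k A) (t' + 1) e')
    (hc : pre cTau w e = pre cTau w e') : e = e' := by
  obtain ⟨q, r, h1, hq, h2, hr, h3, h4⟩ := adrU_split h
  obtain ⟨q', r', h1', hq', h2', hr', h3', h4'⟩ := adrU_split h'
  obtain rfl : t = t' := adrU_tau_eq ht ht' h4 h4' hc
  have hE := adrU_rec (w := w) (f := adrU_nE) (c := 1) rfl rfl (fun a ha => (adrU_rb0 a ha).2)
  have hR := adrU_row (w := w) (f := adrU_nR) (c := 1) rfl (fun a ha => (adrU_bit0 a ha).2.2)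
  obtain rfl : q = q' := adrU_uniq adrU_nE_nonneg hq hq' (fun a ha => by rw [ha]; rfl)
    (fun a ha => by rw [ha]; rfl) (by rw [adrU_pw hE j _ _ h1, adrU_pw hE j _ _ h1'])
  obtain rfl : r = r' := adrU_uniq adrU_nR_nonneg hr hr' (fun a ha => by rw [ha]; rfl)
    (fun a ha => by rw [ha]; rfl) (by rw [adrU_pw hR k _ _ h2, adrU_pw hR k _ _ h2'])
  rw [h3, h3']

theorem adr_not_em {j k A t t' e e' : ℕ} (ht : Is w t (· = tau)) (ht' : Is w t' (· = tau))
    (h : At w (Adr j k A) (t + 1) e) (h' : At w (pw Rec j) (t' + 1) e')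
    (hc : pre cTau w e = pre cTau w e') (he : Is w e' (· = emp)) : False := by
  obtain ⟨q, r, h1, hq, h2, hr, h3, h4⟩ := adrU_split h
  have k1 := adrU_pw (adrU_rec (w := w) (f := cTau) (c := 0) rfl rfl
    (fun a ha => (adrU_rb0 a ha).1)) j _ _ h'
  rw [mul_zero, add_zero] at k1
  obtain rfl : t = t' := adrU_tau_eq ht ht' h4 k1 hc
  have hE := adrU_rec (w := w) (f := adrU_nE) (c := 1) rfl rfl (fun a ha => (adrU_rb0 a ha).2)
  obtain rfl : q = e' := adrU_uniq adrU_nE_nonneg hq he (fun a ha => by rw [ha]; rfl)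
    (fun a ha => by rw [ha]; rfl) (by rw [adrU_pw hE j _ _ h1, adrU_pw hE j _ _ h'])
  obtain ⟨a, _, ha1, ha2⟩ := hq.and he
  rw [ha1] at ha2
  cases ha2

end Pool.Agent.H29.CJ
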