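import Pool.Agent.H29.CJ.LfpB

/-!
# Library for segments `At w L i j`

All proofs are routine list manipulations.  `seg w i j = (w.take j).drop i`.
Key lemma: for `i ≤ k ≤ j`: `seg w i j = seg w i k ++ seg w k j`, and conversely if
`seg w i j = u ++ v` (with `i ≤ j ≤ w.length`) then `u = seg w i k`, `v = seg w k j` with `k = i + u.length`.
`Is w i P ↔ ∃ a, w[i]? = some a ∧ P a`.
-/

set_option autoImplicit false

namespace Pool.Agent.H29.CJ

variable {α β : Type} {w : List α} {i j k : ℕ}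

theorem seg_append (h : i ≤ k) (h' : k ≤ j) (w : List α) : seg w i j = seg w i k ++ seg w k j := by
  have e : w.take j = w.take k ++ (w.take j).drop k := by
    conv_lhs => rw [← List.take_append_drop k (w.take j)]
    rw [List.take_take, min_eq_left h']
  unfold seg
  conv_lhs => rw [e]
  rw [List.drop_append]
  congr 1
  rcases Nat.lt_or_ge w.length k with hk | hk
  · have : (w.take j).drop k = [] := by
      apply List.drop_eq_nil_of_le
      rw [List.length_take]
      omega
    rw [this, List.drop_nil]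
  · have : i - (w.take k).length = 0 := by
      rw [List.length_take]
      omega
    rw [this, List.drop_zero]

theorem length_seg (h : i ≤ j) (h' : j ≤ w.length) : (seg w i j).length = j - i := by
  unfold seg
  rw [List.length_drop, List.length_take]
  omega

theorem getElem?_seg (t : ℕ) : (seg w i j)[t]? = if i + t < j then w[i + t]? else none := by
  unfold seg
  rw [List.getElem?_drop, List.getElem?_take]

theorem seg_full (w : List α) : seg w 0 w.length = w := by
  simp [seg]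

theorem atl_seg_self (w : List α) (i : ℕ) : seg w i i = [] := by
  unfold seg
  apply List.drop_eq_nil_of_le
  rw [List.length_take]
  omega

theorem atl_seg_one {a : α} (h : w[i]? = some a) : seg w i (i + 1) = [a] := by
  apply List.ext_getElem?
  intro t
  rw [getElem?_seg]
  cases t with
  | zero => simp [h]
  | succ t =>
    rw [if_neg (by omega)]
    simp

/-- A factorisation of a segment is a factorisation at a position. -/
theorem atl_seg_split {u v : List α} (h : i ≤ j) (h' : j ≤ w.length) (e : seg w i j = u ++ v) :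
    i + u.length ≤ j ∧ seg w i (i + u.length) = u ∧ seg w (i + u.length) j = v := by
  have hl : u.length + v.length = j - i := by
    rw [← List.length_append, ← e, length_seg h h']
  have hk : i + u.length ≤ j := by omega
  refine ⟨hk, ?_⟩
  rw [seg_append (Nat.le_add_right i u.length) hk w] at e
  have hlen : (seg w i (i + u.length)).length = u.length := by
    rw [length_seg (by omega) (by omega)]
    omega
  exact List.append_inj e hlen

theorem At.le {L : Set (List α)} (h : At w L i j) : i ≤ j := h.1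

theorem At.le_length {L : Set (List α)} (h : At w L i j) : j ≤ w.length := h.2.1

theorem At.mono {L M : Set (List α)} (hLM : L ⊆ M) (h : At w L i j) : At w M i j :=
  ⟨h.1, h.2.1, hLM h.2.2⟩

theorem at_full {L : Set (List α)} : At w L 0 w.length ↔ w ∈ L := by
  simp [At, seg_full]

theorem at_univ : At w Set.univ i j ↔ i ≤ j ∧ j ≤ w.length := by
  simp [At]

theorem at_inter {L M : Set (List α)} : At w (L ∩ M) i j ↔ At w L i j ∧ At w M i j := by
  constructor
  · rintro ⟨h1, h2, h3, h4⟩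
    exact ⟨⟨h1, h2, h3⟩, ⟨h1, h2, h4⟩⟩
  · rintro ⟨⟨h1, h2, h3⟩, ⟨_, _, h4⟩⟩
    exact ⟨h1, h2, h3, h4⟩

theorem at_union {L M : Set (List α)} : At w (L ∪ M) i j ↔ At w L i j ∨ At w M i j := by
  constructor
  · rintro ⟨h1, h2, h3 | h4⟩
    · exact Or.inl ⟨h1, h2, h3⟩
    · exact Or.inr ⟨h1, h2, h4⟩
  · rintro (⟨h1, h2, h3⟩ | ⟨h1, h2, h4⟩)
    · exact ⟨h1, h2, Or.inl h3⟩
    · exact ⟨h1, h2, Or.inr h4⟩

theorem at_eps : At w {[]} i j ↔ i = j ∧ j ≤ w.length := by
  constructor
  · rintro ⟨h1, h2, h3⟩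
    have h4 : seg w i j = [] := h3
    have h5 : j - i = 0 := by rw [← length_seg h1 h2, h4, List.length_nil]
    exact ⟨by omega, h2⟩
  · rintro ⟨rfl, h2⟩
    exact ⟨le_rfl, h2, atl_seg_self w i⟩

theorem at_cat {L M : Set (List α)} :
    At w (cat L M) i j ↔ ∃ k, At w L i k ∧ At w M k j := by
  constructor
  · rintro ⟨h1, h2, u, hu, v, hv, e⟩
    obtain ⟨h3, h4, h5⟩ := atl_seg_split h1 h2 e
    refine ⟨i + u.length, ⟨by omega, by omega, ?_⟩, ⟨h3, h2, ?_⟩⟩
    · rw [h4]; exact hu
    · rw [h5]; exact hv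
  · rintro ⟨k, ⟨a1, a2, a3⟩, ⟨b1, b2, b3⟩⟩
    exact ⟨a1.trans b1, b2, seg w i k, a3, seg w k j, b3, seg_append a1 b1 w⟩

theorem Is.lt {P : α → Prop} (h : Is w i P) : i < w.length := by
  obtain ⟨a, ha, _⟩ := h
  obtain ⟨h, _⟩ := List.getElem?_eq_some_iff.1 ha
  exact h

theorem Is.mono {P Q : α → Prop} (hPQ : ∀ a, P a → Q a) (h : Is w i P) : Is w i Q := by
  obtain ⟨a, ha, hP⟩ := h
  exact ⟨a, ha, hPQ a hP⟩

theorem Is.and {P Q : α → Prop} (h : Is w i P) (h' : Is w i Q) : Is w i (fun a => P a ∧ Q a) := by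
  obtain ⟨a, ha, hP⟩ := h
  obtain ⟨b, hb, hQ⟩ := h'
  obtain rfl : a = b := by rw [ha] at hb; exact Option.some.inj hb
  exact ⟨a, ha, hP, hQ⟩

theorem at_LC {P : α → Prop} : At w (LC P) i j ↔ j = i + 1 ∧ Is w i P := by
  constructor
  · rintro ⟨h1, h2, a, hP, e⟩
    have h5 : j - i = 1 := by rw [← length_seg h1 h2, e, List.length_singleton]
    refine ⟨by omega, a, ?_, hP⟩
    have h6 := getElem?_seg (w := w) (i := i) (j := j) 0
    rw [e, if_pos (by omega)] at h6
    simpa using h6.symm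
  · rintro ⟨rfl, h⟩
    have hl := h.lt
    obtain ⟨a, ha, hP⟩ := h
    exact ⟨by omega, by omega, a, hP, atl_seg_one ha⟩

theorem at_ST {P : α → Prop} :
    At w (ST P) i j ↔ i ≤ j ∧ j ≤ w.length ∧ ∀ t, i ≤ t → t < j → Is w t P := by
  constructor
  · rintro ⟨h1, h2, h3⟩
    refine ⟨h1, h2, fun t ht1 ht2 => ?_⟩
    have hlt : t < w.length := by omega
    refine ⟨w[t], List.getElem?_eq_getElem hlt, h3 _ ?_⟩
    rw [List.mem_iff_getElem?]
    refine ⟨t - i, ?_⟩
    rw [getElem?_seg, if_pos (by omega), Nat.add_sub_cancel' ht1]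
    exact List.getElem?_eq_getElem hlt
  · rintro ⟨h1, h2, h3⟩
    refine ⟨h1, h2, fun a ha => ?_⟩
    obtain ⟨t, ht⟩ := List.mem_iff_getElem?.1 ha
    rw [getElem?_seg] at ht
    by_cases hc : i + t < j
    · rw [if_pos hc] at ht
      obtain ⟨b, hb, hP⟩ := h3 (i + t) (by omega) hc
      rw [ht] at hb
      obtain rfl : a = b := Option.some.inj hb
      exact hP
    · rw [if_neg hc] at ht
      cases ht

theorem atl_wt_append (f : α → ℤ) (u v : List α) : wt f (u ++ v) = wt f u + wt f v := by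
  simp [wt]

theorem atl_wt_seg (f : α → ℤ) (h : i ≤ j) (w : List α) : wt f (seg w i j) = pre f w j - pre f w i := by
  have h1 : seg w 0 j = seg w 0 i ++ seg w i j := seg_append (Nat.zero_le i) h w
  have h2 : w.take j = w.take i ++ seg w i j := h1
  unfold pre
  rw [h2, atl_wt_append]
  ring

theorem at_WT {f : α → ℤ} {c : ℤ} :
    At w (WT f c) i j ↔ i ≤ j ∧ j ≤ w.length ∧ pre f w j - pre f w i = c := by
  constructor
  · rintro ⟨h1, h2, h3⟩
    refine ⟨h1, h2, ?_⟩
    rw [← atl_wt_seg f h1 w]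
    exact h3
  · rintro ⟨h1, h2, h3⟩
    refine ⟨h1, h2, ?_⟩
    rw [← atl_wt_seg f h1 w] at h3
    exact h3

theorem at_pw {L : Set (List α)} {n : ℕ} :
    At w (pw L n) i j ↔ j ≤ w.length ∧
      ∃ p : ℕ → ℕ, p 0 = i ∧ p n = j ∧ ∀ t < n, At w L (p t) (p (t + 1)) := by
  induction n generalizing i with
  | zero =>
    constructor
    · intro h
      obtain ⟨rfl, h2⟩ := at_eps.1 h
      exact ⟨h2, fun _ => i, rfl, rfl, fun t ht => absurd ht (Nat.not_lt_zero t)⟩
    · rintro ⟨h2, p, p0, pn, _⟩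
      exact at_eps.2 ⟨p0.symm.trans pn, h2⟩
  | succ n ih =>
    constructor
    · intro h
      obtain ⟨k, h1, h2⟩ := at_cat.1 h
      obtain ⟨h3, p, p0, pn, hp⟩ := ih.1 h2
      refine ⟨h3, fun t => Nat.casesOn t i p, rfl, pn, fun t ht => ?_⟩
      cases t with
      | zero =>
        show At w L i (p 0)
        rw [p0]
        exact h1
      | succ t =>
        exact hp t (by omega)
    · rintro ⟨h3, p, p0, pn, hp⟩
      refine at_cat.2 ⟨p 1, ?_, ih.2 ⟨h3, fun t => p (t + 1), rfl, pn, fun t ht => ?_⟩⟩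
      · rw [← p0]
        exact hp 0 (by omega)
      · exact hp (t + 1) (by omega)

theorem at_pw_succ {L : Set (List α)} {n : ℕ} :
    At w (pw L (n + 1)) i j ↔ ∃ k, At w L i k ∧ At w (pw L n) k j := at_cat

theorem at_pw_succ' {L : Set (List α)} {n : ℕ} :
    At w (pw L (n + 1)) i j ↔ ∃ k, At w (pw L n) i k ∧ At w L k j := by
  constructor
  · intro h
    obtain ⟨h3, p, p0, pn, hp⟩ := at_pw.1 h
    have h4 := hp n (by omega)
    refine ⟨p n, at_pw.2 ⟨h4.le.trans h4.le_length, p, p0, rfl, fun t ht => hp t (by omega)⟩, ?_⟩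
    rw [← pn]
    exact h4
  · rintro ⟨k, h1, h2⟩
    obtain ⟨h3, p, p0, pn, hp⟩ := at_pw.1 h1
    refine at_pw.2 ⟨h2.le_length, fun t => if t ≤ n then p t else j, ?_, ?_, fun t ht => ?_⟩
    · show (if 0 ≤ n then p 0 else j) = i
      rw [if_pos (Nat.zero_le n)]
      exact p0
    · show (if n + 1 ≤ n then p (n + 1) else j) = j
      rw [if_neg (by omega)]
    · show At w L (if t ≤ n then p t else j) (if t + 1 ≤ n then p (t + 1) else j)
      rw [if_pos (by omega)]
      by_cases hc : t + 1 ≤ n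
      · rw [if_pos hc]
        exact hp t (by omega)
      · rw [if_neg hc]
        obtain rfl : t = n := by omega
        rw [pn]
        exact h2

theorem at_pw_LC {P : α → Prop} {n : ℕ} :
    At w (pw (LC P) n) i j ↔ j = i + n ∧ j ≤ w.length ∧ ∀ t, i ≤ t → t < j → Is w t P := by
  induction n generalizing i with
  | zero =>
    constructor
    · intro h
      obtain ⟨rfl, h2⟩ := at_eps.1 h
      exact ⟨rfl, h2, fun t h3 h4 => by omega⟩
    · rintro ⟨h1, h2, _⟩
      exact at_eps.2 ⟨h1.symm, h2⟩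
  | succ n ih =>
    constructor
    · intro h
      obtain ⟨k, h1, h2⟩ := at_cat.1 h
      obtain ⟨rfl, h4⟩ := at_LC.1 h1
      obtain ⟨h5, h6, h7⟩ := ih.1 h2
      refine ⟨by omega, h6, fun t ht1 ht2 => ?_⟩
      rcases Nat.eq_or_lt_of_le ht1 with rfl | hlt
      · exact h4
      · exact h7 t hlt ht2
    · rintro ⟨h1, h2, h3⟩
      exact at_cat.2 ⟨i + 1, at_LC.2 ⟨rfl, h3 i le_rfl (by omega)⟩,
        ih.2 ⟨by omega, h2, fun t ht1 ht2 => h3 t (by omega) ht2⟩⟩

theorem at_Sync {U Z V : Set (List α)} :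
    At w (Sync U Z V) i j ↔
      ∃ k i' j', At w (pw U k) i i' ∧ At w Z i' j' ∧ At w (pw V k) j' j := by
  constructor
  · rintro ⟨h1, h2, k, h3⟩
    have h4 : At w (cat (pw U k) (cat Z (pw V k))) i j := ⟨h1, h2, h3⟩
    obtain ⟨i', h5, h6⟩ := at_cat.1 h4
    obtain ⟨j', h7, h8⟩ := at_cat.1 h6
    exact ⟨k, i', j', h5, h7, h8⟩
  · rintro ⟨k, i', j', h5, h7, h8⟩
    obtain ⟨h1, h2, h3⟩ := at_cat.2 ⟨i', h5, at_cat.2 ⟨j', h7, h8⟩⟩
    exact ⟨h1, h2, k, h3⟩

theorem at_Sync_LC {P Q : α → Prop} {Z : Set (List α)} :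
    At w (Sync (LC P) Z (LC Q)) i j ↔
      ∃ k j', j = j' + k ∧ j ≤ w.length ∧ At w Z (i + k) j' ∧
        (∀ t, i ≤ t → t < i + k → Is w t P) ∧ (∀ t, j' ≤ t → t < j → Is w t Q) := by
  constructor
  · intro h
    obtain ⟨k, i', j', h1, h2, h3⟩ := at_Sync.1 h
    obtain ⟨rfl, h5, h6⟩ := at_pw_LC.1 h1
    obtain ⟨h7, h8, h9⟩ := at_pw_LC.1 h3
    exact ⟨k, j', h7, h8, h2, h6, h9⟩
  · rintro ⟨k, j', h7, h8, h2, h6, h9⟩
    exact at_Sync.2 ⟨k, i + k, j',
      at_pw_LC.2 ⟨rfl, h2.le.trans h2.le_length, h6⟩, h2, at_pw_LC.2 ⟨h7, h8, h9⟩⟩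

theorem atl_seg_cons {a : α} {t : ℕ} (h : w[t]? = some a) (h' : t < j) :
    seg w t j = a :: seg w (t + 1) j := by
  rw [seg_append (Nat.le_succ t) h' w, atl_seg_one h]
  rfl

theorem at_AllPre {P : α → Prop} {L : Set (List α)} :
    At w (AllPre P L) i j ↔ i ≤ j ∧ j ≤ w.length ∧
      ∀ t, i ≤ t → t < j → Is w t P → At w L i (t + 1) := by
  constructor
  · rintro ⟨h1, h2, h3⟩
    refine ⟨h1, h2, fun t ht1 ht2 hP => ?_⟩
    obtain ⟨a, ha, hPa⟩ := hP
    refine ⟨by omega, by omega, ?_⟩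
    rw [seg_append ht1 (Nat.le_succ t) w, atl_seg_one ha]
    refine h3 (seg w i t) a (seg w (t + 1) j) ?_ hPa
    rw [seg_append ht1 ht2.le w, atl_seg_cons ha ht2]
  · rintro ⟨h1, h2, h3⟩
    refine ⟨h1, h2, fun p a q e hPa => ?_⟩
    obtain ⟨g1, g2, g3⟩ := atl_seg_split h1 h2 e
    have e' : seg w i j = (p ++ [a]) ++ q := by
      rw [e, List.append_assoc]
      rfl
    obtain ⟨g4, g5, g6⟩ := atl_seg_split h1 h2 e'
    have hl : (p ++ [a]).length = p.length + 1 := by simp
    rw [hl] at g4 g5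
    have h6 := getElem?_seg (w := w) (i := i + p.length) (j := j) 0
    rw [g3, if_pos (by omega)] at h6
    have h7 : w[i + p.length]? = some a := by simpa using h6.symm
    have h8 := h3 (i + p.length) (by omega) (by omega) ⟨a, h7, hPa⟩
    have h9 := h8.2.2
    rw [Nat.add_assoc, g5] at h9
    exact h9

theorem at_AllSuf {P : α → Prop} {L : Set (List α)} :
    At w (AllSuf P L) i j ↔ i ≤ j ∧ j ≤ w.length ∧
      ∀ t, i ≤ t → t < j → (∀ s, i ≤ s → s < t → Is w s P) → At w L t j := by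
  constructor
  · rintro ⟨h1, h2, h3⟩
    refine ⟨h1, h2, fun t ht1 ht2 hP => ⟨ht2.le, h2, ?_⟩⟩
    have hlt : t < w.length := by omega
    have ha : w[t]? = some w[t] := List.getElem?_eq_getElem hlt
    rw [atl_seg_cons ha ht2]
    refine h3 (seg w i t) w[t] (seg w (t + 1) j) ?_ ?_
    · rw [seg_append ht1 ht2.le w, atl_seg_cons ha ht2]
    · exact (at_ST.2 ⟨ht1, hlt.le, hP⟩).2.2
  · rintro ⟨h1, h2, h3⟩
    refine ⟨h1, h2, fun p a q e hPa => ?_⟩
    obtain ⟨g1, g2, g3⟩ := atl_seg_split h1 h2 e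
    have hl : (a :: q).length = j - (i + p.length) := by
      rw [← g3, length_seg g1 h2]
    rw [List.length_cons] at hl
    have hST : At w (ST P) i (i + p.length) := by
      refine ⟨by omega, by omega, ?_⟩
      rw [g2]
      exact hPa
    have h8 := h3 (i + p.length) (by omega) (by omega) (at_ST.1 hST).2.2
    have h9 := h8.2.2
    rw [g3] at h9
    exact h9

theorem at_exL (l : List β) (L : β → Set (List α)) :
    At w {u | ∃ b ∈ l, u ∈ L b} i j ↔ ∃ b ∈ l, At w (L b) i j := by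
  constructor
  · rintro ⟨h1, h2, b, hb, h3⟩
    exact ⟨b, hb, h1, h2, h3⟩
  · rintro ⟨b, hb, h1, h2, h3⟩
    exact ⟨h1, h2, b, hb, h3⟩

theorem at_allL (l : List β) (L : β → Set (List α)) :
    At w {u | ∀ b ∈ l, u ∈ L b} i j ↔ i ≤ j ∧ j ≤ w.length ∧ ∀ b ∈ l, At w (L b) i j := by
  constructor
  · rintro ⟨h1, h2, h3⟩
    exact ⟨h1, h2, fun b hb => ⟨h1, h2, h3 b hb⟩⟩
  · rintro ⟨h1, h2, h3⟩
    exact ⟨h1, h2, fun b hb => (h3 b hb).2.2⟩

theorem at_ite (p : Prop) (L : Set (List α)) :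
    At w {u | p ∧ u ∈ L} i j ↔ p ∧ At w L i j := by
  constructor
  · rintro ⟨h1, h2, hp, h3⟩
    exact ⟨hp, h1, h2, h3⟩
  · rintro ⟨hp, h1, h2, h3⟩
    exact ⟨h1, h2, hp, h3⟩

/-- Introduction rule: explicit decomposition of the word. -/
theorem At.mk' {L : Set (List α)} {u : List α} (p q : List α) (h : w = p ++ u ++ q) (hu : u ∈ L) :
    At w L p.length (p.length + u.length) := by
  subst h
  refine ⟨by omega, by simp, ?_⟩
  have e : seg (p ++ u ++ q) p.length (p.length + u.length) = u := by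
    unfold seg
    rw [← List.length_append, List.take_left, List.drop_left]
  rw [e]
  exact hu

theorem pre_zero (f : α → ℤ) (w : List α) : pre f w 0 = 0 := by simp [pre, wt]

theorem pre_succ {f : α → ℤ} {a : α} (h : w[i]? = some a) : pre f w (i + 1) = pre f w i + f a := by
  unfold pre
  rw [List.take_add_one, h, atl_wt_append]
  simp [wt]

/-- `pre f w` is unchanged over letters of weight zero. -/
theorem pre_eq_of_zero {f : α → ℤ} (h : i ≤ j) (h' : j ≤ w.length)
    (hz : ∀ t, i ≤ t → t < j → Is w t (fun a => f a = 0)) : pre f w j = pre f w i := by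
  induction j, h using Nat.le_induction with
  | base => rfl
  | succ j hj ih =>
    obtain ⟨a, ha, h0⟩ := hz j hj (Nat.lt_succ_self j)
    have h0' : f a = 0 := h0
    rw [pre_succ ha, h0', add_zero]
    exact ih (by omega) (fun t ht1 ht2 => hz t ht1 (by omega))

/-- `pre f w` increases by `j - i` over letters of weight one. -/
theorem pre_eq_of_one {f : α → ℤ} (h : i ≤ j) (h' : j ≤ w.length)
    (hz : ∀ t, i ≤ t → t < j → Is w t (fun a => f a = 1)) :
    pre f w j = pre f w i + ((j : ℤ) - i) := by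
  induction j, h using Nat.le_induction with
  | base => simp
  | succ j hj ih =>
    obtain ⟨a, ha, h0⟩ := hz j hj (Nat.lt_succ_self j)
    have h0' : f a = 1 := h0
    rw [pre_succ ha, h0', ih (by omega) (fun t ht1 ht2 => hz t ht1 (by omega))]
    push_cast
    ring

theorem pre_mono {f : α → ℤ} (hf : ∀ a, 0 ≤ f a) (h : i ≤ j) : pre f w i ≤ pre f w j := by
  induction j, h using Nat.le_induction with
  | base => exact le_rfl
  | succ j hj ih =>
    refine ih.trans ?_
    rcases Nat.lt_or_ge j w.length with hl | hl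
    · have ha : w[j]? = some w[j] := List.getElem?_eq_getElem hl
      rw [pre_succ ha]
      have := hf w[j]
      omega
    · unfold pre
      rw [List.take_of_length_le hl, List.take_of_length_le (by omega)]

theorem pre_append (f : α → ℤ) (u v : List α) : pre f (u ++ v) (u.length) = wt f u := by
  unfold pre
  rw [List.take_left]

theorem atl_wt_add (f g : α → ℤ) (w : List α) : wt (fun a => f a + g a) w = wt f w + wt g w := by
  induction w with
  | nil => simp [wt]
  | cons a w ih =>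
    unfold wt at ih ⊢
    rw [List.map_cons, List.map_cons, List.map_cons, List.sum_cons, List.sum_cons, List.sum_cons, ih]
    ring

theorem pre_add (f g : α → ℤ) (w : List α) (i : ℕ) :
    pre (fun a => f a + g a) w i = pre f w i + pre g w i := by
  unfold pre
  exact atl_wt_add f g _

end Pool.Agent.H29.CJ
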