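import Pool.Agent.H29.CJ.Clo

/-!
# Binary normal form

Use only the definitions of `Core` and the lemmas of `LfpB`.

Let `L = Lfp (fun j X => (F j).ev X) i₀` with `F : Fin n → Ex α (Fin n)`; write `S = Lfp _`, `⟦e⟧ = e.ev S`.
Let `N` be the (finite) set of all expressions that are `var j` or a subexpression of some `F j`
(define `sub : Ex α ι → Finset/Set` of subexpressions, finite by induction; `N` as a subtype, `Finite`).
Closed under: `cat e f ∈ N → e, f ∈ N` (same for `inter`, `union`), `var j ∈ N`, `F j ∈ N`.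
Work classically.  For a set `P : Set (N × N)` (or `Set (Ex × Ex)`) and `a? : Option α` define inductively
`Der P a? : Ex α ι → Prop`:
  `sym a` if `a? = some a`; `var j` if `Der (F j)`; `union e f` if `Der e` or `Der f`;
  `inter e f` if both; `cat e f` if `[] ∈ ⟦e⟧ ∧ Der f`, or `[] ∈ ⟦f⟧ ∧ Der e`, or `(e, f) ∈ P`.
`Der` is monotone in `P`.  For a nonempty word `w` let `P w = {(e, f) | ∃ u v, u ≠ [], v ≠ [],
w = u ++ v, u ∈ ⟦e⟧, v ∈ ⟦f⟧}` and `l w = some a` if `w = [a]`, `none` otherwise.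
Claim: for `w ≠ []`: `w ∈ ⟦e⟧ ↔ Der (P w) (l w) e`.
(⇐) induction on `Der` (`var j`: `⟦F j⟧ ⊆ ⟦var j⟧ = S j` by closedness; `cat` with the empty word: `[] ++ w`).
(⇒) The family `X j = {w | w ∈ S j ∧ (w ≠ [] → Der (P w) (l w) (var j))}` is closed: by induction on `e`,
`e.ev X ⊆ {w | w ∈ ⟦e⟧ ∧ (w ≠ [] → Der (P w) (l w) e)}` (`X ≤ S` gives `e.ev X ⊆ ⟦e⟧` by `Ex.ev_mono`;
case `cat`: `w = u ++ v`; if `u = []` use `[] ∈ ⟦e⟧` and `Der` for `f`; if `v = []` symmetric; if both
are nonempty then `(e, f) ∈ P w`).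
The grammar: nonterminals `N`; `base e a := Der ∅ (some a) e`; `rules e` := all lists `ρ` enumerating (one
list for each) a nonempty finite set `Q ⊆ N × N` with `Der Q none e`.
Claim: `G.D e w ↔ w ≠ [] ∧ w ∈ ⟦e⟧`.
(⇒) induction on `D`.  `base`: `w = [a]`, `Der ∅ (some a) e`, monotone: `Der (P w) (l w) e`.  `rule`: all
pairs of `Q` lie in `P w` (the parts are nonempty by induction), so `Der (P w) none e`; as `Q ≠ ∅`, `w` has length `≥ 2`
and `l w = none`.
(⇐) strong induction on the length.  `w = [a]`: `P w = ∅`, so `Der ∅ (some a) e`.  Length `≥ 2`: `l w = none`;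
`Q := P w` restricted to `N × N` (all pairs used by `Der` starting from `e ∈ N` are in `N × N`: prove
`Der P a? e → e ∈ N → Der (P ∩ N × N) a? e`); it is nonempty because `Der ∅ none e` is impossible
(induction on `Der`); the rule with `Q` applies, all parts are shorter nonempty words.
Finally choose a bijection `N ≃ Fin (k + 1)` sending `var i₀` to `0` and transport the grammar
(`k + 1` = number of elements; `N` is nonempty).
-/

set_option autoImplicit false

namespace Pool.Agent.H29.CJ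

variable {α : Type}

/-- Subexpressions. -/
def Bnf_sub {ι : Type} : Ex α ι → Set (Ex α ι)
  | .nil => {.nil}
  | .eps => {.eps}
  | .sym a => {.sym a}
  | .var i => {.var i}
  | .cat e f => {.cat e f} ∪ (Bnf_sub e ∪ Bnf_sub f)
  | .inter e f => {.inter e f} ∪ (Bnf_sub e ∪ Bnf_sub f)
  | .union e f => {.union e f} ∪ (Bnf_sub e ∪ Bnf_sub f)

theorem Bnf_sub_self {ι : Type} (e : Ex α ι) : e ∈ Bnf_sub e := by
  cases e <;> simp [Bnf_sub]

theorem Bnf_sub_fin {ι : Type} (e : Ex α ι) : (Bnf_sub e).Finite := by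
  induction e with
  | nil => exact Set.finite_singleton _
  | eps => exact Set.finite_singleton _
  | sym a => exact Set.finite_singleton _
  | var i => exact Set.finite_singleton _
  | cat e f ih ih' => exact (Set.finite_singleton _).union (ih.union ih')
  | inter e f ih ih' => exact (Set.finite_singleton _).union (ih.union ih')
  | union e f ih ih' => exact (Set.finite_singleton _).union (ih.union ih')

theorem Bnf_sub_trans {ι : Type} {g : Ex α ι} : ∀ {e : Ex α ι}, g ∈ Bnf_sub e → Bnf_sub g ⊆ Bnf_sub e := by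
  intro e
  induction e with
  | nil => intro h; rw [Bnf_sub, Set.mem_singleton_iff] at h; subst h; exact subset_rfl
  | eps => intro h; rw [Bnf_sub, Set.mem_singleton_iff] at h; subst h; exact subset_rfl
  | sym a => intro h; rw [Bnf_sub, Set.mem_singleton_iff] at h; subst h; exact subset_rfl
  | var i => intro h; rw [Bnf_sub, Set.mem_singleton_iff] at h; subst h; exact subset_rfl
  | cat e f ih ih' =>
    intro h
    rw [Bnf_sub] at h
    rcases h with h | h | h
    · rw [Set.mem_singleton_iff] at h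
      subst h
      exact subset_rfl
    · exact (ih h).trans (fun x hx => Or.inr (Or.inl hx))
    · exact (ih' h).trans (fun x hx => Or.inr (Or.inr hx))
  | inter e f ih ih' =>
    intro h
    rw [Bnf_sub] at h
    rcases h with h | h | h
    · rw [Set.mem_singleton_iff] at h
      subst h
      exact subset_rfl
    · exact (ih h).trans (fun x hx => Or.inr (Or.inl hx))
    · exact (ih' h).trans (fun x hx => Or.inr (Or.inr hx))
  | union e f ih ih' =>
    intro h
    rw [Bnf_sub] at h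
    rcases h with h | h | h
    · rw [Set.mem_singleton_iff] at h
      subst h
      exact subset_rfl
    · exact (ih h).trans (fun x hx => Or.inr (Or.inl hx))
    · exact (ih' h).trans (fun x hx => Or.inr (Or.inr hx))

/-- The relevant expressions. -/
def Bnf_N {ι : Type} (F : ι → Ex α ι) : Set (Ex α ι) := {e | (∃ j, e = .var j) ∨ ∃ j, e ∈ Bnf_sub (F j)}

theorem Bnf_N_fin {ι : Type} [Finite ι] (F : ι → Ex α ι) : (Bnf_N F).Finite := by
  have h1 : (Set.range (fun j : ι => (Ex.var j : Ex α ι))).Finite := Set.finite_range _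
  have h2 : (⋃ j, Bnf_sub (F j)).Finite := Set.finite_iUnion fun j => Bnf_sub_fin (F j)
  refine (h1.union h2).subset ?_
  rintro e (⟨j, rfl⟩ | ⟨j, hj⟩)
  · exact Or.inl ⟨j, rfl⟩
  · exact Or.inr (Set.mem_iUnion.2 ⟨j, hj⟩)

theorem Bnf_N_step {ι : Type} {F : ι → Ex α ι} {e g : Ex α ι} (hg : g ∈ Bnf_N F) (hv : ∀ j, g ≠ .var j)
    (he : e ∈ Bnf_sub g) : e ∈ Bnf_N F := by
  rcases hg with ⟨j, hj⟩ | ⟨j, hj⟩
  · exact absurd hj (hv j)
  · exact Or.inr ⟨j, Bnf_sub_trans hj he⟩

/-- The derivability predicate. -/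
inductive Bnf_Der {ι : Type} (S : ι → Set (List α)) (F : ι → Ex α ι) (P : Set (Ex α ι × Ex α ι)) (l : Option α) :
    Ex α ι → Prop
  | sym {a : α} (h : l = some a) : Bnf_Der S F P l (.sym a)
  | var {j : ι} (h : Bnf_Der S F P l (F j)) : Bnf_Der S F P l (.var j)
  | inl {e f : Ex α ι} (h : Bnf_Der S F P l e) : Bnf_Der S F P l (.union e f)
  | inr {e f : Ex α ι} (h : Bnf_Der S F P l f) : Bnf_Der S F P l (.union e f)
  | inter {e f : Ex α ι} (h : Bnf_Der S F P l e) (h' : Bnf_Der S F P l f) : Bnf_Der S F P l (.inter e f)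
  | catl {e f : Ex α ι} (h : [] ∈ e.ev S) (h' : Bnf_Der S F P l f) : Bnf_Der S F P l (.cat e f)
  | catr {e f : Ex α ι} (h : [] ∈ f.ev S) (h' : Bnf_Der S F P l e) : Bnf_Der S F P l (.cat e f)
  | pair {e f : Ex α ι} (h : (e, f) ∈ P) : Bnf_Der S F P l (.cat e f)

section
variable {ι : Type} {S : ι → Set (List α)} {F : ι → Ex α ι}

theorem Bnf_Der.mono {P P' : Set (Ex α ι × Ex α ι)} (hP : P ⊆ P') {l : Option α} {e : Ex α ι}
    (h : Bnf_Der S F P l e) : Bnf_Der S F P' l e := by
  induction h with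
  | sym h => exact .sym h
  | var _ ih => exact .var ih
  | inl _ ih => exact .inl ih
  | inr _ ih => exact .inr ih
  | inter _ _ ih ih' => exact .inter ih ih'
  | catl h _ ih => exact .catl h ih
  | catr h _ ih => exact .catr h ih
  | pair h => exact .pair (hP h)

theorem Bnf_Der.restrict {P : Set (Ex α ι × Ex α ι)} {l : Option α} {e : Ex α ι}
    (h : Bnf_Der S F P l e) : e ∈ Bnf_N F →
    Bnf_Der S F {p | p ∈ P ∧ p.1 ∈ Bnf_N F ∧ p.2 ∈ Bnf_N F} l e := by
  induction h with
  | sym h => exact fun _ => .sym h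
  | @var j _ ih => exact fun _ => .var (ih (Or.inr ⟨j, Bnf_sub_self _⟩))
  | @inl e f _ ih =>
    exact fun hN => .inl (ih (Bnf_N_step hN (by simp) (Or.inr (Or.inl (Bnf_sub_self e)))))
  | @inr e f _ ih =>
    exact fun hN => .inr (ih (Bnf_N_step hN (by simp) (Or.inr (Or.inr (Bnf_sub_self f)))))
  | @inter e f _ _ ih ih' =>
    exact fun hN => .inter (ih (Bnf_N_step hN (by simp) (Or.inr (Or.inl (Bnf_sub_self e)))))
      (ih' (Bnf_N_step hN (by simp) (Or.inr (Or.inr (Bnf_sub_self f)))))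
  | @catl e f h _ ih =>
    exact fun hN => .catl h (ih (Bnf_N_step hN (by simp) (Or.inr (Or.inr (Bnf_sub_self f)))))
  | @catr e f h _ ih =>
    exact fun hN => .catr h (ih (Bnf_N_step hN (by simp) (Or.inr (Or.inl (Bnf_sub_self e)))))
  | @pair e f h =>
    exact fun hN => .pair ⟨h, Bnf_N_step hN (by simp) (Or.inr (Or.inl (Bnf_sub_self e))),
      Bnf_N_step hN (by simp) (Or.inr (Or.inr (Bnf_sub_self f)))⟩

theorem Bnf_Der.not_none {e : Ex α ι} {P : Set (Ex α ι × Ex α ι)} (hP : ∀ p, p ∉ P) {l : Option α} (hl : l = none)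
    (h : Bnf_Der S F P l e) : False := by
  induction h with
  | sym h => rw [hl] at h; exact absurd h (by simp)
  | var _ ih => exact ih
  | inl _ ih => exact ih
  | inr _ ih => exact ih
  | inter _ _ ih _ => exact ih
  | catl _ _ ih => exact ih
  | catr _ _ ih => exact ih
  | pair h => exact hP _ h

/-- The pairs matching a word. -/
def Bnf_P (S : ι → Set (List α)) (w : List α) : Set (Ex α ι × Ex α ι) :=
  {p | ∃ u v : List α, u ≠ [] ∧ v ≠ [] ∧ w = u ++ v ∧ u ∈ p.1.ev S ∧ v ∈ p.2.ev S}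

/-- The letter of a one-letter word. -/
def Bnf_l : List α → Option α
  | [a] => some a
  | _ => none

theorem Bnf_l_some {w : List α} {a : α} (h : Bnf_l w = some a) : w = [a] := by
  match w, h with
  | [], h => exact absurd h (by simp [Bnf_l])
  | [b], h => rw [Bnf_l, Option.some.injEq] at h; rw [h]
  | _ :: _ :: _, h => exact absurd h (by simp [Bnf_l])

theorem Bnf_l_none {w : List α} (h : 2 ≤ w.length) : Bnf_l w = none := by
  match w, h with
  | [], h => simp at h
  | [b], h => simp at h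
  | _ :: _ :: _, _ => rfl

theorem Bnf_A (hc : ∀ j, (F j).ev S ⊆ S j) {w : List α} {e : Ex α ι}
    (h : Bnf_Der S F (Bnf_P S w) (Bnf_l w) e) : w ∈ e.ev S := by
  induction h with
  | sym h => exact Bnf_l_some h
  | var _ ih => exact hc _ ih
  | inl _ ih => exact Or.inl ih
  | inr _ ih => exact Or.inr ih
  | inter _ _ ih ih' => exact ⟨ih, ih'⟩
  | catl h _ ih => exact ⟨[], h, w, ih, rfl⟩
  | catr h _ ih => exact ⟨w, ih, [], h, (List.append_nil w).symm⟩
  | pair h =>
    obtain ⟨u, v, _, _, h1, h2, h3⟩ := h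
    exact ⟨u, h2, v, h3, h1⟩

theorem Bnf_B0 {X : ι → Set (List α)} (hXS : ∀ j, X j ⊆ S j)
    (hX : ∀ j w, w ∈ X j → w ≠ [] → Bnf_Der S F (Bnf_P S w) (Bnf_l w) (.var j)) (e : Ex α ι) :
    ∀ w, w ∈ e.ev X → w ≠ [] → Bnf_Der S F (Bnf_P S w) (Bnf_l w) e := by
  induction e with
  | nil => intro w hw; exact absurd hw (Set.notMem_empty w)
  | eps => intro w hw hne; exact absurd hw hne
  | sym a =>
    intro w hw _
    have h1 : w = [a] := hw
    subst h1
    exact .sym rfl
  | var j => intro w hw hne; exact hX j w hw hne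
  | cat e f ih ih' =>
    intro w hw hne
    obtain ⟨u, hu, v, hv, rfl⟩ := hw
    by_cases h1 : u = []
    · subst h1
      rw [List.nil_append] at hne ⊢
      exact .catl (Ex.ev_mono hXS e hu) (ih' v hv hne)
    · by_cases h2 : v = []
      · subst h2
        rw [List.append_nil] at hne ⊢
        exact .catr (Ex.ev_mono hXS f hv) (ih u hu hne)
      · exact .pair ⟨u, v, h1, h2, rfl, Ex.ev_mono hXS e hu, Ex.ev_mono hXS f hv⟩
  | inter e f ih ih' => intro w hw hne; exact .inter (ih w hw.1 hne) (ih' w hw.2 hne)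
  | union e f ih ih' =>
    intro w hw hne
    rcases hw with hw | hw
    · exact .inl (ih w hw hne)
    · exact .inr (ih' w hw hne)

end

theorem Bnf_B {ι : Type} (F : ι → Ex α ι) (e : Ex α ι) {w : List α}
    (hw : w ∈ e.ev (Lfp (fun j X => (F j).ev X))) (hne : w ≠ []) :
    Bnf_Der (Lfp (fun j X => (F j).ev X)) F (Bnf_P (Lfp (fun j X => (F j).ev X)) w) (Bnf_l w) e := by
  set S : ι → Set (List α) := Lfp (fun j X => (F j).ev X) with hS
  have hc : ∀ j, (F j).ev S ⊆ S j := fun j =>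
    Lfp_closed (Φ := fun j X => (F j).ev X) (fun j X Y h => Ex.ev_mono h (F j)) j
  set X : ι → Set (List α) := fun j => {w | w ∈ S j ∧ (w ≠ [] → Bnf_Der S F (Bnf_P S w) (Bnf_l w) (.var j))} with hX
  have hXS : ∀ j, X j ⊆ S j := fun j x hx => hx.1
  have h0 := Bnf_B0 (S := S) (F := F) hXS (fun j w hw hne => hw.2 hne)
  have hSX : ∀ j, S j ⊆ X j := by
    intro j
    refine Lfp_least (Φ := fun j X => (F j).ev X) (fun j x hx => ?_) j
    exact ⟨hc j (Ex.ev_mono hXS (F j) hx), fun hne => .var (h0 (F j) x hx hne)⟩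
  exact h0 e w (Ex.ev_mono hSX e hw) hne

theorem Bnf_enum {ι : Type} [Finite ι] (F : ι → Ex α ι) (i₀ : ι) : ∃ (k : ℕ) (ex : Fin (k + 1) → Ex α ι),
    ex 0 = .var i₀ ∧ (∀ A, ex A ∈ Bnf_N F) ∧ ∀ e ∈ Bnf_N F, ∃ A, ex A = e := by
  classical
  have hf := Bnf_N_fin F
  refine ⟨hf.toFinset.toList.length, fun A => (Ex.var i₀ :: hf.toFinset.toList).get A, rfl, ?_, ?_⟩
  · intro A
    have h1 : (Ex.var i₀ :: hf.toFinset.toList).get A ∈ Ex.var i₀ :: hf.toFinset.toList := List.get_mem _ _
    rcases List.mem_cons.1 h1 with h | h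
    · show (Ex.var i₀ :: hf.toFinset.toList).get A ∈ Bnf_N F
      rw [h]
      exact Or.inl ⟨i₀, rfl⟩
    · exact hf.mem_toFinset.1 (Finset.mem_toList.1 h)
  · intro e he
    have h1 : e ∈ Ex.var i₀ :: hf.toFinset.toList :=
      List.mem_cons_of_mem _ (Finset.mem_toList.2 (hf.mem_toFinset.2 he))
    obtain ⟨A, hA⟩ := List.get_of_mem h1
    exact ⟨A, hA⟩

theorem IsConj.bnf {L : Set (List α)} (h : IsConj L) :
    ∃ (k : ℕ) (G : Gr α (k + 1)), ∀ w : List α, w ≠ [] → (G.D 0 w ↔ w ∈ L) := by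
  classical
  obtain ⟨n, F, i₀, rfl⟩ := h
  set S : Fin n → Set (List α) := Lfp (fun j X => (F j).ev X) with hS
  have hc : ∀ j, (F j).ev S ⊆ S j := fun j =>
    Lfp_closed (Φ := fun j X => (F j).ev X) (fun j X Y h => Ex.ev_mono h (F j)) j
  obtain ⟨k, ex, hex0, hexN, hexS⟩ := Bnf_enum F i₀
  set PQ : Finset (Fin (k + 1) × Fin (k + 1)) → Set (Ex α (Fin n) × Ex α (Fin n)) :=
    fun Q => {p | ∃ q ∈ Q, ex q.1 = p.1 ∧ ex q.2 = p.2} with hPQ
  have hrules : ∀ (A : Fin (k + 1)) (ρ : List (Fin (k + 1) × Fin (k + 1))),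
      ρ ∈ ((Finset.univ.filter fun Q : Finset (Fin (k + 1) × Fin (k + 1)) =>
        Q.Nonempty ∧ Bnf_Der S F (PQ Q) none (ex A)).toList.map fun Q => Q.toList) ↔
      ∃ Q : Finset (Fin (k + 1) × Fin (k + 1)), Q.Nonempty ∧ Bnf_Der S F (PQ Q) none (ex A) ∧ ρ = Q.toList := by
    intro A ρ
    rw [List.mem_map]
    constructor
    · rintro ⟨Q, hQ, rfl⟩
      have h1 := (Finset.mem_filter.1 (Finset.mem_toList.1 hQ)).2
      exact ⟨Q, h1.1, h1.2, rfl⟩
    · rintro ⟨Q, h1, h2, rfl⟩
      exact ⟨Q, Finset.mem_toList.2 (Finset.mem_filter.2 ⟨Finset.mem_univ _, h1, h2⟩), rfl⟩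
  let G : Gr α (k + 1) :=
    { base := fun A a => Bnf_Der S F ∅ (some a) (ex A)
      rules := fun A => ((Finset.univ.filter fun Q : Finset (Fin (k + 1) × Fin (k + 1)) =>
        Q.Nonempty ∧ Bnf_Der S F (PQ Q) none (ex A)).toList.map fun Q => Q.toList)
      ne := by
        intro A ρ hρ
        obtain ⟨Q, h1, _, rfl⟩ := (hrules A ρ).1 hρ
        exact fun h => h1.ne_empty (Finset.toList_eq_nil.1 h) }
  have hfw : ∀ (A : Fin (k + 1)) (w : List α), G.D A w → w ≠ [] ∧ w ∈ (ex A).ev S := by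
    intro A w hD
    induction hD with
    | @base A a h =>
      refine ⟨List.cons_ne_nil _ _, Bnf_A hc ?_⟩
      exact Bnf_Der.mono (Set.empty_subset _) h
    | @rule A ρ w u v h hw hu hv ihu ihv =>
      obtain ⟨Q, h1, h2, rfl⟩ := (hrules A ρ).1 h
      obtain ⟨q, hq⟩ := h1
      have hq' := Finset.mem_toList.2 hq
      have hlen : 2 ≤ w.length := by
        rw [hw q hq', List.length_append]
        have h3 := List.length_pos_iff.2 (ihu q hq').1
        have h4 := List.length_pos_iff.2 (ihv q hq').1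
        omega
      refine ⟨fun h => by rw [h] at hlen; simp at hlen, Bnf_A hc ?_⟩
      rw [Bnf_l_none hlen]
      refine Bnf_Der.mono ?_ h2
      rintro ⟨e, f⟩ ⟨q, hq, h3, h4⟩
      have hq' := Finset.mem_toList.2 hq
      simp only at h3 h4
      subst h3
      subst h4
      exact ⟨u q, v q, (ihu q hq').1, (ihv q hq').1, hw q hq', (ihu q hq').2, (ihv q hq').2⟩
  have hbw : ∀ (m : ℕ) (w : List α), w.length = m → ∀ A : Fin (k + 1), w ≠ [] → w ∈ (ex A).ev S → G.D A w := by
    intro m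
    induction m using Nat.strong_induction_on with
    | _ m ih =>
    intro w hm A hne hw
    have hD : Bnf_Der S F (Bnf_P S w) (Bnf_l w) (ex A) := Bnf_B F (ex A) hw hne
    by_cases hlen : 2 ≤ w.length
    · rw [Bnf_l_none hlen] at hD
      have hD' := hD.restrict (hexN A)
      set Q : Finset (Fin (k + 1) × Fin (k + 1)) :=
        Finset.univ.filter fun q => (ex q.1, ex q.2) ∈ Bnf_P S w with hQ
      have hsub : {p : Ex α (Fin n) × Ex α (Fin n) | p ∈ Bnf_P S w ∧ p.1 ∈ Bnf_N F ∧ p.2 ∈ Bnf_N F} ⊆ PQ Q := by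
        rintro ⟨e, f⟩ ⟨h1, h2, h3⟩
        obtain ⟨A1, hA1⟩ := hexS e h2
        obtain ⟨A2, hA2⟩ := hexS f h3
        refine ⟨(A1, A2), Finset.mem_filter.2 ⟨Finset.mem_univ _, ?_⟩, hA1, hA2⟩
        simp only
        rw [hA1, hA2]
        exact h1
      have hDQ : Bnf_Der S F (PQ Q) none (ex A) := Bnf_Der.mono hsub hD'
      have hQne : Q.Nonempty := by
        by_contra hcon
        rw [Finset.not_nonempty_iff_eq_empty] at hcon
        refine hDQ.not_none ?_ rfl
        rintro p ⟨q, hq, _⟩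
        rw [hcon] at hq
        exact absurd hq (Finset.notMem_empty q)
      have hch : ∀ q : Fin (k + 1) × Fin (k + 1), ∃ u v : List α, q ∈ Q →
          u ≠ [] ∧ v ≠ [] ∧ w = u ++ v ∧ u ∈ (ex q.1).ev S ∧ v ∈ (ex q.2).ev S := by
        intro q
        by_cases hq : q ∈ Q
        · obtain ⟨u, v, h1⟩ := (Finset.mem_filter.1 hq).2
          exact ⟨u, v, fun _ => h1⟩
        · exact ⟨[], [], fun h => absurd h hq⟩
      choose u v huv using hch
      refine Gr.D.rule (ρ := Q.toList) u v ((hrules A _).2 ⟨Q, hQne, hDQ, rfl⟩) ?_ ?_ ?_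
      · exact fun p hp => (huv p (Finset.mem_toList.1 hp)).2.2.1
      · intro p hp
        obtain ⟨h1, h2, h3, h4, h5⟩ := huv p (Finset.mem_toList.1 hp)
        refine ih (u p).length ?_ (u p) rfl p.1 h1 h4
        rw [← hm, h3, List.length_append]
        have := List.length_pos_iff.2 h2
        omega
      · intro p hp
        obtain ⟨h1, h2, h3, h4, h5⟩ := huv p (Finset.mem_toList.1 hp)
        refine ih (v p).length ?_ (v p) rfl p.2 h2 h5
        rw [← hm, h3, List.length_append]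
        have := List.length_pos_iff.2 h1
        omega
    · have h1 : w.length = 1 := by
        have := List.length_pos_iff.2 hne
        omega
      obtain ⟨a, rfl⟩ := List.length_eq_one_iff.1 h1
      refine Gr.D.base ?_
      show Bnf_Der S F ∅ (some a) (ex A)
      refine Bnf_Der.mono ?_ hD
      rintro p ⟨u, v, h2, h3, h4, _⟩
      have h5 := congrArg List.length h4
      rw [List.length_append] at h5
      have h6 := List.length_pos_iff.2 h2
      have h7 := List.length_pos_iff.2 h3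
      simp only [List.length_cons, List.length_nil] at h5
      omega
  refine ⟨k, G, fun w hne => ⟨fun hD => ?_, fun hw => ?_⟩⟩
  · have h1 := (hfw 0 w hD).2
    rw [hex0] at h1
    exact h1
  · refine hbw w.length w rfl 0 hne ?_
    rw [hex0]
    exact hw

end Pool.Agent.H29.CJ
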