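import Pool.Agent.H29.CJ.PolyC

/-!
# Closure properties of the conjunctive languages, first part

Use only the STATEMENTS of the imported `PolyC`.

`isConj_of_poly0`: apply `isConj_Lfp` with `ι := Unit` and the operator; if an operator `Φ` is constant
(`Φ X = L` for all `X`), then `Lfp (fun _ => Φ) () = L` (`Poly.Lfp_eq`).  So `cat`, `inter`, `union` of
conjunctive languages are conjunctive.  `∅`, `{[]}`, `{[a]}`: one equation `X = nil`, `X = eps`,
`X = sym a` directly from the definition of `IsConj` (`n = 1`).  Finite unions by induction on the list,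
`LC P` is the finite union of the `{[a]}`; `ST P` is the least solution of `X = {[]} ∪ (LC P) X`.

`isConj_of_sys`: the guarded principle.  `Lfp Φ i ⊆ X i` by `hc` and `Lfp_least`; `X i ⊆ Lfp Φ i` by strong
induction on (length of `w`, `μ i`) lexicographically: by `hm` `w ∈ Φ i (restricted X)`, the restricted
family is contained in `Lfp Φ` by induction, so `w ∈ Φ i (Lfp Φ) = Lfp Φ i` by monotonicity.
-/

set_option autoImplicit false

namespace Pool.Agent.H29.CJ

variable {α ι β : Type}

theorem Clo_const {Φ : (Unit → Set (List α)) → Set (List α)} (h : Poly Φ) {L : Set (List α)}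
    (hL : ∀ X, Φ X = L) : IsConj L := by
  have h1 := isConj_Lfp (ι := Unit) (Φ := fun _ => Φ) (fun _ => h) ()
  have h2 : Lfp (fun _ : Unit => Φ) () = Φ (Lfp (fun _ : Unit => Φ)) :=
    Poly.Lfp_eq (Φ := fun _ : Unit => Φ) (fun _ => h) ()
  rw [h2, hL] at h1
  exact h1

theorem Clo_one (e : Ex α (Fin 1)) {L : Set (List α)} (he : ∀ X, e.ev X = L) : IsConj L := by
  refine ⟨1, fun _ => e, 0, ?_⟩
  have h : Lfp (fun (_ : Fin 1) X => e.ev X) 0 = e.ev (Lfp (fun (_ : Fin 1) X => e.ev X)) :=
    Lfp_eq (Φ := fun (_ : Fin 1) X => e.ev X) (fun _ _ _ hXY => Ex.ev_mono hXY e) 0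
  rw [h, he]

theorem IsConj.cat {L M : Set (List α)} (h : IsConj L) (h' : IsConj M) : IsConj (cat L M) :=
  Clo_const (Poly.cat (Poly.cst L h) (Poly.cst M h')) fun _ => rfl

theorem IsConj.inter {L M : Set (List α)} (h : IsConj L) (h' : IsConj M) : IsConj (L ∩ M) :=
  Clo_const (Poly.inter (Poly.cst L h) (Poly.cst M h')) fun _ => rfl

theorem IsConj.union {L M : Set (List α)} (h : IsConj L) (h' : IsConj M) : IsConj (L ∪ M) :=
  Clo_const (Poly.union (Poly.cst L h) (Poly.cst M h')) fun _ => rfl

theorem isConj_empty : IsConj (∅ : Set (List α)) := Clo_one .nil fun _ => rfl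

theorem isConj_eps : IsConj ({[]} : Set (List α)) := Clo_one .eps fun _ => rfl

theorem isConj_sym (a : α) : IsConj ({[a]} : Set (List α)) := Clo_one (.sym a) fun _ => rfl

theorem IsConj.exL (l : List β) {L : β → Set (List α)} (h : ∀ b ∈ l, IsConj (L b)) :
    IsConj {w | ∃ b ∈ l, w ∈ L b} := by
  induction l with
  | nil =>
    have e : {w : List α | ∃ b ∈ ([] : List β), w ∈ L b} = ∅ := by
      ext w
      simp
    rw [e]
    exact isConj_empty
  | cons b0 l ih =>
    have e : {w : List α | ∃ b ∈ b0 :: l, w ∈ L b} = L b0 ∪ {w | ∃ b ∈ l, w ∈ L b} := by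
      ext w
      simp
    rw [e]
    exact (h b0 List.mem_cons_self).union (ih fun b hb => h b (List.mem_cons_of_mem _ hb))

theorem isConj_LC [Finite α] (P : α → Prop) : IsConj (LC P) := by
  classical
  obtain ⟨l, -, hl⟩ := Finite.exists_univ_list α
  have e : LC P = {w | ∃ b ∈ l.filter (fun a => decide (P a)), w ∈ ({[b]} : Set (List α))} := by
    ext w
    simp only [LC, Set.mem_ofPred_eq, List.mem_filter, decide_eq_true_eq, Set.mem_singleton_iff]
    constructor
    · rintro ⟨a, ha, rfl⟩
      exact ⟨a, ⟨hl a, ha⟩, rfl⟩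
    · rintro ⟨a, ⟨-, ha⟩, rfl⟩
      exact ⟨a, ha, rfl⟩
  rw [e]
  exact IsConj.exL _ fun b _ => isConj_sym b

theorem isConj_ST [Finite α] (P : α → Prop) : IsConj (ST P) := by
  have hP : ∀ _ : Unit, Poly (fun X : Unit → Set (List α) => {[]} ∪ CJ.cat (LC P) (X ())) := fun _ =>
    Poly.union (Poly.cst _ isConj_eps) (Poly.cat (Poly.cst _ (isConj_LC P)) (Poly.var ()))
  have h1 := isConj_Lfp hP ()
  have e : Lfp (fun (_ : Unit) X => {[]} ∪ CJ.cat (LC P) (X ())) () = ST P := by
    apply Set.Subset.antisymm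
    · refine Lfp_least (X := fun _ => ST P) ?_ ()
      intro _ w hw
      rcases hw with hw | ⟨u, ⟨a, ha, rfl⟩, v, hv, rfl⟩
      · rw [Set.mem_singleton_iff] at hw
        rw [hw]
        intro a ha
        simp at ha
      · intro b hb
        rcases List.mem_append.1 hb with hb | hb
        · rw [List.mem_singleton] at hb
          rw [hb]
          exact ha
        · exact hv b hb
    · intro w
      induction w with
      | nil =>
        intro _ X hX
        exact hX () (Or.inl rfl)
      | cons a w ih =>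
        intro hw X hX
        refine hX () (Or.inr ⟨[a], ⟨a, hw a List.mem_cons_self, rfl⟩, w, ?_, rfl⟩)
        exact ih (fun b hb => hw b (List.mem_cons_of_mem _ hb)) X hX
  rw [e] at h1
  exact h1

theorem isConj_univ [Finite α] : IsConj (Set.univ : Set (List α)) := by
  have e : (Set.univ : Set (List α)) = ST (fun _ => True) := by
    ext w
    simp [ST]
  rw [e]
  exact isConj_ST _

theorem IsConj.allL [Finite α] (l : List β) {L : β → Set (List α)} (h : ∀ b ∈ l, IsConj (L b)) :
    IsConj {w | ∀ b ∈ l, w ∈ L b} := by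
  induction l with
  | nil =>
    have e : {w : List α | ∀ b ∈ ([] : List β), w ∈ L b} = Set.univ := by
      ext w
      simp
    rw [e]
    exact isConj_univ
  | cons b0 l ih =>
    have e : {w : List α | ∀ b ∈ b0 :: l, w ∈ L b} = L b0 ∩ {w | ∀ b ∈ l, w ∈ L b} := by
      ext w
      simp
    rw [e]
    exact (h b0 List.mem_cons_self).inter (ih fun b hb => h b (List.mem_cons_of_mem _ hb))

theorem IsConj.exF [Finite β] {L : β → Set (List α)} (h : ∀ b, IsConj (L b)) :
    IsConj {w | ∃ b, w ∈ L b} := by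
  obtain ⟨l, -, hl⟩ := Finite.exists_univ_list β
  have e : {w : List α | ∃ b, w ∈ L b} = {w | ∃ b ∈ l, w ∈ L b} := by
    ext w
    simp [hl]
  rw [e]
  exact IsConj.exL l fun b _ => h b

theorem IsConj.allF [Finite α] [Finite β] {L : β → Set (List α)} (h : ∀ b, IsConj (L b)) :
    IsConj {w | ∀ b, w ∈ L b} := by
  obtain ⟨l, -, hl⟩ := Finite.exists_univ_list β
  have e : {w : List α | ∀ b, w ∈ L b} = {w | ∀ b ∈ l, w ∈ L b} := by
    ext w
    simp [hl]
  rw [e]
  exact IsConj.allL l fun b _ => h b

/-- A language that is a constant or empty according to a proposition. -/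
theorem IsConj.iteP {L : Set (List α)} (h : IsConj L) (p : Prop) : IsConj {w | p ∧ w ∈ L} := by
  by_cases hp : p
  · have e : {w | p ∧ w ∈ L} = L := by
      ext w
      simp [hp]
    rw [e]
    exact h
  · have e : {w | p ∧ w ∈ L} = ∅ := by
      ext w
      simp [hp]
    rw [e]
    exact isConj_empty

theorem Poly.exL (l : List β) {Φ : β → (ι → Set (List α)) → Set (List α)}
    (h : ∀ b ∈ l, Poly (Φ b)) : Poly (fun X => {w | ∃ b ∈ l, w ∈ Φ b X}) := by
  induction l with
  | nil =>
    have e : (fun X : ι → Set (List α) => {w : List α | ∃ b ∈ ([] : List β), w ∈ Φ b X}) = fun _ => ∅ := by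
      funext X
      ext w
      simp
    rw [e]
    exact Poly.cst _ isConj_empty
  | cons b0 l ih =>
    have e : (fun X : ι → Set (List α) => {w : List α | ∃ b ∈ b0 :: l, w ∈ Φ b X}) =
        fun X => Φ b0 X ∪ {w | ∃ b ∈ l, w ∈ Φ b X} := by
      funext X
      ext w
      simp
    rw [e]
    exact Poly.union (h b0 List.mem_cons_self) (ih fun b hb => h b (List.mem_cons_of_mem _ hb))

theorem Poly.allL [Finite α] (l : List β) {Φ : β → (ι → Set (List α)) → Set (List α)}
    (h : ∀ b ∈ l, Poly (Φ b)) : Poly (fun X => {w | ∀ b ∈ l, w ∈ Φ b X}) := by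
  induction l with
  | nil =>
    have e : (fun X : ι → Set (List α) => {w : List α | ∀ b ∈ ([] : List β), w ∈ Φ b X}) =
        fun _ => Set.univ := by
      funext X
      ext w
      simp
    rw [e]
    exact Poly.cst _ isConj_univ
  | cons b0 l ih =>
    have e : (fun X : ι → Set (List α) => {w : List α | ∀ b ∈ b0 :: l, w ∈ Φ b X}) =
        fun X => Φ b0 X ∩ {w | ∀ b ∈ l, w ∈ Φ b X} := by
      funext X
      ext w
      simp
    rw [e]
    exact Poly.inter (h b0 List.mem_cons_self) (ih fun b hb => h b (List.mem_cons_of_mem _ hb))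

theorem Poly.exF [Finite β] {Φ : β → (ι → Set (List α)) → Set (List α)}
    (h : ∀ b, Poly (Φ b)) : Poly (fun X => {w | ∃ b, w ∈ Φ b X}) := by
  obtain ⟨l, -, hl⟩ := Finite.exists_univ_list β
  have e : (fun X : ι → Set (List α) => {w : List α | ∃ b, w ∈ Φ b X}) =
      fun X => {w | ∃ b ∈ l, w ∈ Φ b X} := by
    funext X
    ext w
    simp [hl]
  rw [e]
  exact Poly.exL l fun b _ => h b

/-- Conditional constants: `{w | p ∧ w ∈ Φ X}`. -/
theorem Poly.iteP {Φ : (ι → Set (List α)) → Set (List α)} (h : Poly Φ) (p : Prop) :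
    Poly (fun X => {w | p ∧ w ∈ Φ X}) := by
  by_cases hp : p
  · have e : (fun X : ι → Set (List α) => {w | p ∧ w ∈ Φ X}) = Φ := by
      funext X
      ext w
      simp [hp]
    rw [e]
    exact h
  · have e : (fun X : ι → Set (List α) => {w | p ∧ w ∈ Φ X}) = fun _ => ∅ := by
      funext X
      ext w
      simp [hp]
    rw [e]
    exact Poly.cst _ isConj_empty

/-- The guarded principle: a family `X` solving a polynomial system in a guarded way is
conjunctive. -/
theorem isConj_of_sys [Finite ι] {Φ : ι → (ι → Set (List α)) → Set (List α)}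
    (hΦ : ∀ i, Poly (Φ i)) (X : ι → Set (List α)) (μ : ι → ℕ) (hc : ∀ i, Φ i X ⊆ X i)
    (hm : ∀ i, ∀ w ∈ X i, w ∈ Φ i (fun j =>
      {u | u ∈ X j ∧ (u.length < w.length ∨ (u.length = w.length ∧ μ j < μ i))})) :
    ∀ i, IsConj (X i) := by
  have key : ∀ n : ℕ, ∀ m : ℕ, ∀ i, μ i = m → ∀ w ∈ X i, w.length = n → w ∈ Lfp Φ i := by
    intro n
    induction n using Nat.strong_induction_on with
    | _ n ihn =>
      intro m
      induction m using Nat.strong_induction_on with
      | _ m ihm =>
        intro i hi w hw hwn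
        refine Poly.Lfp_closed hΦ i ?_
        refine (hΦ i).mono ?_ (hm i w hw)
        rintro j u ⟨hu, h | ⟨h, h'⟩⟩
        · exact ihn u.length (by omega) (μ j) j rfl u hu rfl
        · exact ihm (μ j) (by omega) j rfl u hu (by omega)
  intro i
  have e : Lfp Φ i = X i :=
    Set.Subset.antisymm (Lfp_least hc i) fun w hw => key _ _ i rfl w hw rfl
  have h1 := isConj_Lfp hΦ i
  rw [e] at h1
  exact h1

end Pool.Agent.H29.CJ
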