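import Pool.Agent.H29.CJ.Clo

/-!
# Closure properties of the conjunctive languages, second part

Use only the STATEMENTS of the imported files.

* `IsConj.star`-free part.  `Sync U Z V` is the least solution of `X = Z ∪ U X V`: it is closed, and
  `pw U k · Z · pw V k ⊆ Lfp` by induction on `k` (`pw V (k+1) = cat (pw V k) V`, an easy induction), so
  `Sync U Z V = Lfp` and `isConj_Lfp` applies.  (No guardedness is needed.)
* `AllPre P L` is the solution of `X = {[]} ∪ X (LC ¬P) ∪ (X (LC P) ∩ L)`: use `isConj_of_sys` with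
  `ι = Unit`, `μ = 0`; a nonempty word is `u ++ [a]` (`List.eq_nil_or_concat`), and
  `u ++ [a] ∈ AllPre P L ↔ u ∈ AllPre P L ∧ (P a → u ++ [a] ∈ L)`.
* `AllSuf P L` is the solution of `X = {[]} ∪ (L ∩ ((LC ¬P) univ ∪ (LC P) X))`:
  `a :: q ∈ AllSuf P L ↔ a :: q ∈ L ∧ (P a → q ∈ AllSuf P L)`.
* Star: `{w | ∃ n, w ∈ pw L n}` is the least solution of `X = {[]} ∪ L X`.
* Preimage under a letter map `f : α → β`, `α` finite: from `IsConj L`, `L = Lfp (F ·.ev) i` with
  `F : Fin n → Ex β (Fin n)`.  Claim: `{w | w.map f ∈ L}` is the least solution of the system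
  `Φ j X = ev' (F j) X`, where `ev'` is the value with `sym b` replaced by `LC (fun a => f a = b)`; every
  `ev' e` is `Poly` (induction on `e`, constants by `isConj_LC`).  Write
  `Y j = {w | w.map f ∈ Lfp j}`.  (a) `ev' e Y ⊆ {w | w.map f ∈ e.ev Lfp}` by induction on `e` (`List.map_append`),
  so `Y` is closed and `Lfp Φ ≤ Y`.  (b) For closed `X`: `Z j = {v | ∀ w, w.map f = v → w ∈ X j}` satisfies
  `e.ev Z ⊆ {v | ∀ w, w.map f = v → w ∈ ev' e X}` (for `cat`: `w.map f = u ++ v` splits `w`,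
  `List.map_eq_append_iff`), so `Z` is closed for `F` and `Lfp j ⊆ Z j`, that is `Y j ⊆ X j`.
-/

set_option autoImplicit false

namespace Pool.Agent.H29.CJ

variable {α β : Type}

theorem Clo2_cat_assoc (L M N : Set (List α)) : cat (cat L M) N = cat L (cat M N) := by
  ext w
  constructor
  · rintro ⟨_, ⟨u, hu, v, hv, rfl⟩, x, hx, rfl⟩
    exact ⟨u, hu, v ++ x, ⟨v, hv, x, hx, rfl⟩, by rw [List.append_assoc]⟩
  · rintro ⟨u, hu, _, ⟨v, hv, x, hx, rfl⟩, rfl⟩
    exact ⟨u ++ v, ⟨u, hu, v, hv, rfl⟩, x, hx, by rw [List.append_assoc]⟩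

theorem Clo2_cat_one (L : Set (List α)) : cat L {[]} = L := by
  ext w
  constructor
  · rintro ⟨u, hu, v, hv, rfl⟩
    rw [Set.mem_singleton_iff] at hv
    subst hv
    rwa [List.append_nil]
  · intro hw
    exact ⟨w, hw, [], rfl, by rw [List.append_nil]⟩

theorem Clo2_one_cat (L : Set (List α)) : cat {[]} L = L := by
  ext w
  constructor
  · rintro ⟨u, hu, v, hv, rfl⟩
    rw [Set.mem_singleton_iff] at hu
    subst hu
    rwa [List.nil_append]
  · intro hw
    exact ⟨[], rfl, w, hw, by rw [List.nil_append]⟩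

theorem Clo2_pw_succ (L : Set (List α)) (n : ℕ) : pw L (n + 1) = cat (pw L n) L := by
  induction n with
  | zero =>
    change cat L {[]} = cat {[]} L
    rw [Clo2_cat_one, Clo2_one_cat]
  | succ n ih =>
    change cat L (pw L (n + 1)) = cat (cat L (pw L n)) L
    rw [ih, Clo2_cat_assoc]

theorem IsConj.sync {U Z V : Set (List α)} (hU : IsConj U) (hZ : IsConj Z) (hV : IsConj V) :
    IsConj (Sync U Z V) := by
  have hP : ∀ i : Unit, Poly ((fun (_ : Unit) (X : Unit → Set (List α)) =>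
      Z ∪ CJ.cat U (CJ.cat (X ()) V)) i) := fun _ =>
    Poly.union (Poly.cst Z hZ) (Poly.cat (Poly.cst U hU) (Poly.cat (Poly.var ()) (Poly.cst V hV)))
  have h := isConj_Lfp hP ()
  have hcl := Poly.Lfp_closed hP ()
  have he : Sync U Z V = Lfp (fun (_ : Unit) (X : Unit → Set (List α)) =>
      Z ∪ CJ.cat U (CJ.cat (X ()) V)) () := by
    apply Set.Subset.antisymm
    · have key : ∀ k : ℕ, CJ.cat (pw U k) (CJ.cat Z (pw V k)) ⊆
          Lfp (fun (_ : Unit) (X : Unit → Set (List α)) =>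
            Z ∪ CJ.cat U (CJ.cat (X ()) V)) () := by
        intro k
        induction k with
        | zero =>
          change CJ.cat {[]} (CJ.cat Z {[]}) ⊆ _
          rw [Clo2_cat_one, Clo2_one_cat]
          exact fun w hw => hcl (Or.inl hw)
        | succ k ih =>
          rw [Clo2_pw_succ V k]
          change CJ.cat (CJ.cat U (pw U k)) _ ⊆ _
          rw [Clo2_cat_assoc, ← Clo2_cat_assoc Z, ← Clo2_cat_assoc (pw U k)]
          exact fun w hw => hcl (Or.inr (cat_mono subset_rfl (cat_mono ih subset_rfl) hw))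
      rintro w ⟨k, hw⟩
      exact key k hw
    · refine Lfp_least (X := fun _ => Sync U Z V) (fun _ w hw => ?_) ()
      rcases hw with hw | ⟨u, hu, _, ⟨x, ⟨k, a, ha, _, ⟨z, hz, b, hb, rfl⟩, rfl⟩, v, hv, rfl⟩, rfl⟩
      · exact ⟨0, [], rfl, w, ⟨w, hw, [], rfl, by rw [List.append_nil]⟩, by rw [List.nil_append]⟩
      · refine ⟨k + 1, u ++ a, ⟨u, hu, a, ha, rfl⟩, z ++ (b ++ v), ⟨z, hz, b ++ v, ?_, rfl⟩, ?_⟩
        · rw [Clo2_pw_succ]
          exact ⟨b, hb, v, hv, rfl⟩
        · simp only [List.append_assoc]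
  rw [he]
  exact h

theorem Clo2_pre {P : α → Prop} {L : Set (List α)} (u : List α) (a : α) :
    u ++ [a] ∈ AllPre P L ↔ u ∈ AllPre P L ∧ (P a → u ++ [a] ∈ L) := by
  constructor
  · intro h
    refine ⟨fun p b q hw hb => ?_, fun ha => h u a [] rfl ha⟩
    refine h p b (q ++ [a]) ?_ hb
    rw [hw]
    simp
  · rintro ⟨h1, h2⟩ p b q hw hb
    rcases List.eq_nil_or_concat q with rfl | ⟨q', c, rfl⟩
    · obtain ⟨rfl, h3⟩ := List.append_inj' hw rfl
      have h4 : a = b := List.singleton_inj.1 h3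
      subst h4
      exact h2 hb
    · have h3 : u ++ [a] = (p ++ b :: q') ++ [c] := by
        rw [hw]
        simp
      obtain ⟨rfl, -⟩ := List.append_inj' h3 rfl
      exact h1 p b q' rfl hb

theorem IsConj.allPre [Finite α] (P : α → Prop) {L : Set (List α)} (h : IsConj L) :
    IsConj (AllPre P L) := by
  have hP : ∀ i : Unit, Poly ((fun (_ : Unit) (X : Unit → Set (List α)) =>
      {[]} ∪ (CJ.cat (X ()) (LC fun a => ¬ P a) ∪ (CJ.cat (X ()) (LC P) ∩ L))) i) := fun _ =>
    Poly.union (Poly.cst _ isConj_eps) (Poly.union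
      (Poly.cat (Poly.var ()) (Poly.cst _ (isConj_LC _)))
      (Poly.inter (Poly.cat (Poly.var ()) (Poly.cst _ (isConj_LC _))) (Poly.cst _ h)))
  refine isConj_of_sys hP (fun _ => AllPre P L) (fun _ => 0) (fun _ w hw => ?_)
    (fun _ w hw => ?_) ()
  · rcases hw with hw | ⟨u, hu, _, ⟨a, ha, rfl⟩, rfl⟩ | ⟨⟨u, hu, _, ⟨a, ha, rfl⟩, rfl⟩, hL⟩
    · rw [Set.mem_singleton_iff] at hw
      subst hw
      intro p a q hw
      simp at hw
    · exact (Clo2_pre u a).2 ⟨hu, fun h => absurd h ha⟩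
    · exact (Clo2_pre u a).2 ⟨hu, fun _ => hL⟩
  · rcases List.eq_nil_or_concat w with rfl | ⟨u, a, rfl⟩
    · exact Or.inl rfl
    · rw [List.concat_eq_append] at hw ⊢
      obtain ⟨h1, h2⟩ := (Clo2_pre u a).1 hw
      have h3 : u.length < (u ++ [a]).length := by simp
      right
      by_cases ha : P a
      · exact Or.inr ⟨⟨u, ⟨h1, Or.inl h3⟩, [a], ⟨a, ha, rfl⟩, rfl⟩, h2 ha⟩
      · exact Or.inl ⟨u, ⟨h1, Or.inl h3⟩, [a], ⟨a, ha, rfl⟩, rfl⟩

theorem Clo2_suf {P : α → Prop} {L : Set (List α)} (a : α) (q : List α) :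
    a :: q ∈ AllSuf P L ↔ a :: q ∈ L ∧ (P a → q ∈ AllSuf P L) := by
  constructor
  · intro h
    refine ⟨h [] a q rfl (by simp), fun ha p b r hq hp => ?_⟩
    refine h (a :: p) b r (by rw [hq]; rfl) fun c hc => ?_
    rcases List.mem_cons.1 hc with rfl | hc
    · exact ha
    · exact hp c hc
  · rintro ⟨h1, h2⟩ p b r hw hp
    rcases p with _ | ⟨c, p⟩
    · rw [List.nil_append] at hw
      rw [← hw]
      exact h1
    · rw [List.cons_append] at hw
      obtain ⟨rfl, rfl⟩ := List.cons.inj hw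
      exact h2 (hp a (by simp)) p b r rfl fun d hd => hp d (by simp [hd])

theorem IsConj.allSuf [Finite α] (P : α → Prop) {L : Set (List α)} (h : IsConj L) :
    IsConj (AllSuf P L) := by
  have hP : ∀ i : Unit, Poly ((fun (_ : Unit) (X : Unit → Set (List α)) =>
      {[]} ∪ (L ∩ (CJ.cat (LC fun a => ¬ P a) Set.univ ∪ CJ.cat (LC P) (X ())))) i) := fun _ =>
    Poly.union (Poly.cst _ isConj_eps) (Poly.inter (Poly.cst _ h) (Poly.union
      (Poly.cat (Poly.cst _ (isConj_LC _)) (Poly.cst _ isConj_univ))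
      (Poly.cat (Poly.cst _ (isConj_LC _)) (Poly.var ()))))
  refine isConj_of_sys hP (fun _ => AllSuf P L) (fun _ => 0) (fun _ w hw => ?_)
    (fun _ w hw => ?_) ()
  · rcases hw with hw | ⟨hL, ⟨_, ⟨a, ha, rfl⟩, q, -, rfl⟩ | ⟨_, ⟨a, ha, rfl⟩, q, hq, rfl⟩⟩
    · rw [Set.mem_singleton_iff] at hw
      subst hw
      intro p a q hw
      simp at hw
    · exact (Clo2_suf a q).2 ⟨hL, fun h => absurd h ha⟩
    · exact (Clo2_suf a q).2 ⟨hL, fun _ => hq⟩
  · rcases w with _ | ⟨a, q⟩
    · exact Or.inl rfl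
    · obtain ⟨h1, h2⟩ := (Clo2_suf a q).1 hw
      right
      refine ⟨h1, ?_⟩
      by_cases ha : P a
      · exact Or.inr ⟨[a], ⟨a, ha, rfl⟩, q, ⟨h2 ha, Or.inl (by simp)⟩, rfl⟩
      · exact Or.inl ⟨[a], ⟨a, ha, rfl⟩, q, Set.mem_univ _, rfl⟩

theorem IsConj.star {L : Set (List α)} (h : IsConj L) : IsConj {w | ∃ n, w ∈ pw L n} := by
  have hP : ∀ i : Unit, Poly ((fun (_ : Unit) (X : Unit → Set (List α)) =>
      {[]} ∪ CJ.cat L (X ())) i) := fun _ =>
    Poly.union (Poly.cst _ isConj_eps) (Poly.cat (Poly.cst L h) (Poly.var ()))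
  have h1 := isConj_Lfp hP ()
  have hcl := Poly.Lfp_closed hP ()
  have he : {w | ∃ n, w ∈ pw L n} = Lfp (fun (_ : Unit) (X : Unit → Set (List α)) =>
      {[]} ∪ CJ.cat L (X ())) () := by
    apply Set.Subset.antisymm
    · have key : ∀ k : ℕ, pw L k ⊆ Lfp (fun (_ : Unit) (X : Unit → Set (List α)) =>
            {[]} ∪ CJ.cat L (X ())) () := by
        intro k
        induction k with
        | zero => exact fun w hw => hcl (Or.inl hw)
        | succ k ih => exact fun w hw => hcl (Or.inr (cat_mono subset_rfl ih hw))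
      rintro w ⟨k, hw⟩
      exact key k hw
    · refine Lfp_least (X := fun _ => {w | ∃ n, w ∈ pw L n}) (fun _ w hw => ?_) ()
      rcases hw with hw | ⟨u, hu, v, ⟨n, hv⟩, rfl⟩
      · exact ⟨0, hw⟩
      · exact ⟨n + 1, u, hu, v, hv, rfl⟩
  rw [he]
  exact h1

/-- Value of an expression over `β` in languages over `α`. -/
def Clo2_ev {ι : Type} (f : α → β) (X : ι → Set (List α)) : Ex β ι → Set (List α)
  | .nil => ∅
  | .eps => {[]}
  | .sym b => LC (fun a => f a = b)
  | .var i => X i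
  | .cat e g => CJ.cat (Clo2_ev f X e) (Clo2_ev f X g)
  | .inter e g => Clo2_ev f X e ∩ Clo2_ev f X g
  | .union e g => Clo2_ev f X e ∪ Clo2_ev f X g

theorem Clo2_ev_poly [Finite α] {ι : Type} (f : α → β) (e : Ex β ι) :
    Poly (fun X : ι → Set (List α) => Clo2_ev f X e) := by
  induction e with
  | nil => exact Poly.cst _ isConj_empty
  | eps => exact Poly.cst _ isConj_eps
  | sym b => exact Poly.cst _ (isConj_LC _)
  | var i => exact Poly.var i
  | cat e g ih ih' => exact Poly.cat ih ih'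
  | inter e g ih ih' => exact Poly.inter ih ih'
  | union e g ih ih' => exact Poly.union ih ih'

theorem Clo2_ev_sub {ι : Type} (f : α → β) (Y : ι → Set (List β)) (e : Ex β ι) :
    Clo2_ev f (fun j => {w : List α | w.map f ∈ Y j}) e ⊆ {w | w.map f ∈ e.ev Y} := by
  induction e with
  | nil => exact fun w hw => hw.elim
  | eps =>
    intro w hw
    have h1 : w = [] := hw
    subst h1
    exact rfl
  | sym b =>
    rintro w ⟨a, rfl, rfl⟩
    exact rfl
  | var i => exact fun w hw => hw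
  | cat e g ih ih' =>
    rintro w ⟨u, hu, v, hv, rfl⟩
    exact ⟨u.map f, ih hu, v.map f, ih' hv, List.map_append⟩
  | inter e g ih ih' => exact fun w hw => ⟨ih hw.1, ih' hw.2⟩
  | union e g ih ih' =>
    rintro w (hw | hw)
    · exact Or.inl (ih hw)
    · exact Or.inr (ih' hw)

theorem Clo2_ev_sup {ι : Type} (f : α → β) (X : ι → Set (List α)) (e : Ex β ι) :
    e.ev (fun j => {v : List β | ∀ w : List α, w.map f = v → w ∈ X j}) ⊆
      {v | ∀ w : List α, w.map f = v → w ∈ Clo2_ev f X e} := by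
  induction e with
  | nil => exact fun w hw => hw.elim
  | eps =>
    intro v hv w hw
    have h1 : v = [] := hv
    subst h1
    exact List.map_eq_nil_iff.1 hw
  | sym b =>
    intro v hv w hw
    have h1 : v = [b] := hv
    subst h1
    obtain ⟨a, rfl, h2⟩ := List.map_eq_singleton_iff.1 hw
    exact ⟨a, h2, rfl⟩
  | var i => exact fun v hv => hv
  | cat e g ih ih' =>
    rintro v ⟨u₁, h₁, u₂, h₂, rfl⟩ w hw
    obtain ⟨w₁, w₂, rfl, e₁, e₂⟩ := List.map_eq_append_iff.1 hw
    exact ⟨w₁, ih h₁ w₁ e₁, w₂, ih' h₂ w₂ e₂, rfl⟩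
  | inter e g ih ih' => exact fun v hv w hw => ⟨ih hv.1 w hw, ih' hv.2 w hw⟩
  | union e g ih ih' =>
    rintro v (hv | hv) w hw
    · exact Or.inl (ih hv w hw)
    · exact Or.inr (ih' hv w hw)

theorem IsConj.preimage [Finite α] (f : α → β) {L : Set (List β)} (h : IsConj L) :
    IsConj {w : List α | w.map f ∈ L} := by
  obtain ⟨n, F, i, rfl⟩ := h
  have hP : ∀ j : Fin n, Poly ((fun (j : Fin n) (X : Fin n → Set (List α)) =>
      Clo2_ev f X (F j)) j) := fun j => Clo2_ev_poly f (F j)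
  have h1 := isConj_Lfp hP i
  have he : {w : List α | w.map f ∈ Lfp (fun j X => (F j).ev X) i} =
      Lfp (fun (j : Fin n) (X : Fin n → Set (List α)) => Clo2_ev f X (F j)) i := by
    apply Set.Subset.antisymm
    · intro w hw X hX
      have h2 : ∀ j, Lfp (fun j X => (F j).ev X) j ⊆
          {v : List β | ∀ w : List α, w.map f = v → w ∈ X j} := by
        refine Lfp_least (X := fun j => {v : List β | ∀ w : List α, w.map f = v → w ∈ X j})
          fun j v hv w hw => ?_
        exact hX j (Clo2_ev_sup f X (F j) hv w hw)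
      exact h2 i hw w rfl
    · refine Lfp_least (X := fun j => {w : List α | w.map f ∈ Lfp (fun j X => (F j).ev X) j})
        (fun j w hw => ?_) i
      have h3 := Clo2_ev_sub f (Lfp (fun j X => (F j).ev X)) (F j) hw
      exact Lfp_closed (Φ := fun j X => (F j).ev X)
        (fun j X Y hXY => Ex.ev_mono hXY (F j)) j h3
  rw [he]
  exact h1

end Pool.Agent.H29.CJ
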