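import Pool.Agent.H29.CJ.FroO

/-!
# Unfolding of `Gr.D` and unary grammars

`Gr.D_iff`: (→) cases; (←) choose functions `u v` classically (`if h : q ∈ ρ then ... else []`).
`Gr.toUSys`: `T A n := G.D A (List.replicate n 0)`, `base A := G.base A 0`, same rules.  `T0` is
`Gr.D_ne_nil`.  `Tiff` is `D_iff` for `w = replicate m 0`: `[a] = replicate m 0 ↔ m = 1` (as `a = 0` in
`Fin 1`, `Subsingleton.elim`), and `replicate m 0 = u ++ v` iff `u = replicate m₁ 0`, `v = replicate m₂ 0`,
`m₁ + m₂ = m` (every list over `Fin 1` is `replicate` of its length).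
-/

set_option autoImplicit false

namespace Pool.Agent.H29.CJ


theorem Gr.D_iff {α : Type} {K : ℕ} (G : Gr α K) (A : Fin K) (w : List α) :
    G.D A w ↔ (∃ a, w = [a] ∧ G.base A a) ∨
      ∃ ρ ∈ G.rules A, ∀ p ∈ ρ, ∃ u v, w = u ++ v ∧ G.D p.1 u ∧ G.D p.2 v := by
  constructor
  · intro h
    cases h with
    | base h => exact Or.inl ⟨_, rfl, h⟩
    | rule u v h hw hu hv =>
      exact Or.inr ⟨_, h, fun p hp => ⟨u p, v p, hw p hp, hu p hp, hv p hp⟩⟩
  · rintro (⟨a, rfl, h⟩ | ⟨ρ, hρ, h⟩)
    · exact Gr.D.base h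
    · have key : ∀ p : Fin K × Fin K, ∃ u v : List α, p ∈ ρ → (w = u ++ v ∧ G.D p.1 u ∧ G.D p.2 v) := by
        intro p
        by_cases hp : p ∈ ρ
        · obtain ⟨u, v, huv⟩ := h p hp
          exact ⟨u, v, fun _ => huv⟩
        · exact ⟨[], [], fun hp' => absurd hp' hp⟩
      choose u v huv using key
      exact Gr.D.rule u v hρ (fun p hp => (huv p hp).1) (fun p hp => (huv p hp).2.1)
        (fun p hp => (huv p hp).2.2)

theorem GrU_rep (w : List (Fin 1)) : w = List.replicate w.length 0 := by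
  refine List.eq_replicate_of_mem fun b _ => ?_
  exact Subsingleton.elim b 0

theorem Gr.toUSys {K : ℕ} (G : Gr (Fin 1) K) :
    ∃ U : USys K, ∀ A n, U.T A n ↔ G.D A (List.replicate n 0) := by
  refine ⟨{ base := fun A => G.base A 0, rules := G.rules, ne := G.ne,
            T := fun A n => G.D A (List.replicate n 0), T0 := ?_, Tiff := ?_ }, fun A n => Iff.rfl⟩
  · intro A h
    exact Gr.D_ne_nil h rfl
  · intro A m
    rw [Gr.D_iff]
    constructor
    · rintro (⟨a, ha, hb⟩ | ⟨ρ, hρ, h⟩)
      · left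
        have h1 := congrArg List.length ha
        rw [List.length_replicate, List.length_singleton] at h1
        refine ⟨h1, ?_⟩
        have h2 : a = 0 := Subsingleton.elim a 0
        rw [h2] at hb
        exact hb
      · right
        refine ⟨ρ, hρ, fun p hp => ?_⟩
        obtain ⟨u, v, huv, hu, hv⟩ := h p hp
        refine ⟨u.length, v.length, ?_, ?_, ?_⟩
        · have h1 := congrArg List.length huv
          rw [List.length_replicate, List.length_append] at h1
          exact h1.symm
        · rw [← GrU_rep u]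
          exact hu
        · rw [← GrU_rep v]
          exact hv
    · rintro (⟨rfl, hb⟩ | ⟨ρ, hρ, h⟩)
      · exact Or.inl ⟨0, rfl, hb⟩
      · right
        refine ⟨ρ, hρ, fun p hp => ?_⟩
        obtain ⟨m₁, m₂, hm, h1, h2⟩ := h p hp
        refine ⟨List.replicate m₁ 0, List.replicate m₂ 0, ?_, h1, h2⟩
        rw [← hm, List.replicate_add]

end Pool.Agent.H29.CJ
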