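import Pool.Agent.H29.CJ.FroI
import Pool.Agent.H29.CJ.GrU
import Pool.Agent.H29.CJ.Clo2

/-!
# Consequence of the closure hypothesis: lengths of a conjunctive language

Use only the STATEMENTS of the imported files.

Let `e : α ≃ Fin m` (`Finite.equivFin`).  `L' = {w | w.map e.symm ∈ L}` is conjunctive (`IsConj.preimage`), so
`Fro L'` (`IsConj.fro`).  Apply the hypothesis with `k = 1`, `h = fun _ => [0]`: the language
`{w | ∃ x ∈ L', w = x.flatMap h}` of words over `Fin 1` is `Fro`, so conjunctive (`Fro.isConj`); `IsConj.bnf` gives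
`G : Gr (Fin 1) (k+1)`; `Gr.toUSys`.  For `n ≥ 1`: `replicate n 0 ≠ []`, and `replicate n 0 = x.flatMap h` iff
`x.length = n` (lists over `Fin 1` are equal iff their lengths are); `x.map e.symm` has the same length and
conversely `w ∈ L` gives `x = w.map e`.
-/

set_option autoImplicit false

namespace Pool.Agent.H29.CJ

private theorem flatMap_zero {β : Type} (x : List β) :
    x.flatMap (fun _ => [(0 : Fin 1)]) = List.replicate x.length (0 : Fin 1) := by
  induction x with
  | nil => rfl
  | cons a x ih => simp [List.replicate_succ, ih]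

theorem Closed.len {α : Type} [Finite α] (hC : Closed) {L : Set (List α)} (h : IsConj L) :
    ∃ (k : ℕ) (G : USys (k + 1)), ∀ n, 1 ≤ n → (G.T 0 n ↔ ∃ w ∈ L, w.length = n) := by
  obtain ⟨m, ⟨e⟩⟩ := Finite.exists_equiv_fin α
  have h1 : IsConj {w : List (Fin m) | w.map e.symm ∈ L} := IsConj.preimage e.symm h
  have h2 := hC m 1 (fun _ => [(0 : Fin 1)]) (fun _ => by simp) _ h1.fro
  obtain ⟨k, G, hG⟩ := h2.isConj.bnf
  obtain ⟨U, hU⟩ := G.toUSys
  refine ⟨k, U, fun n hn => ?_⟩
  have hne : List.replicate n (0 : Fin 1) ≠ [] := by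
    intro hh
    have := congrArg List.length hh
    simp at this
    omega
  rw [hU 0 n, hG _ hne]
  constructor
  · rintro ⟨x, hx, hxn⟩
    refine ⟨x.map e.symm, hx, ?_⟩
    rw [flatMap_zero] at hxn
    have := congrArg List.length hxn
    simp only [List.length_replicate] at this
    simp [this]
  · rintro ⟨w, hw, hwn⟩
    refine ⟨w.map e, ?_, ?_⟩
    · change (w.map e).map e.symm ∈ L
      have : (w.map e).map e.symm = w := by simp [List.map_map]
      rw [this]
      exact hw
    · rw [flatMap_zero]
      simp [hwn]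

end Pool.Agent.H29.CJ
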