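import Pool.Agent.H29.CJ.SpD
import Pool.Agent.H29.CJ.AtL

/-!
# Counts in well-formed words

Use only the STATEMENTS of the imported files.

* `pre_cZ`: induction on `i` with `pre_succ`: `(i+1)/Z = i/Z + 1` iff `Z ∣ i+1` (`Nat.succ_div`).
* `pre_cG`: same.
* linear relations: `pre f w i = wt f (w.take i)`, `wt` of a pointwise sum is the sum (induction on the list);
  check the pointwise identity by cases on the letter.
* `pre_zero_of_reg`: all positions `< i` carry letters of region `≤ reg c` (by `srt`), so weight zero.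
* `pre_tot_of_reg`: all positions `≥ i` carry letters of region `≥ reg c`, weight zero, so
  `pre f w i = pre f w w.length = wt f w`; the same for `i + 1`.
* `exists_sg`: `pre cSg w` starts with `0`, ends with `wt cSg w`, increases by `0` or `1`; take the least `i` with
  `pre cSg w i ≥ n`; then `i = s + 1` and `s` is an `sg` letter.
* Lo facts: `Lo Z x = Z * (x / Z + 1) - x`, i.e. `x + Lo Z x = Z * (x / Z + 1)`; `1 ≤ Lo ≤ Z`.
-/

set_option autoImplicit false

namespace Pool.Agent.H29.CJ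

open Lt

variable {w : List Lt} {Z b1 b2 ln : ℕ}

theorem CntL_is {i : ℕ} {c : Lt} {P : Lt → Prop} (h : w[i]? = some c) : Is w i P ↔ P c := by
  constructor
  · rintro ⟨b, hb, hP⟩
    rw [h] at hb
    obtain rfl : c = b := Option.some.inj hb
    exact hP
  · exact fun hP => ⟨c, h, hP⟩

theorem CntL_letter (h : FS w Z b1 b2 ln) {i : ℕ} (hi : i < ln) :
    ∃ z t g, w[i]? = some (Lt.a z t g) := by
  obtain ⟨c, hc, z, t, g, rfl⟩ := h.left i hi
  exact ⟨z, t, g, hc⟩

theorem CntL_isZ {i : ℕ} {z t g : Bool} (h : w[i]? = some (Lt.a z t g)) : Is w i isZ ↔ z = true := by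
  rw [CntL_is h]
  constructor
  · rintro ⟨t', g', h'⟩
    injection h'
  · rintro rfl
    exact ⟨t, g, rfl⟩

theorem CntL_isNZ {i : ℕ} {z t g : Bool} (h : w[i]? = some (Lt.a z t g)) : Is w i isNZ ↔ z = false := by
  rw [CntL_is h]
  constructor
  · rintro ⟨t', g', h'⟩
    injection h'
  · rintro rfl
    exact ⟨t, g, rfl⟩

theorem CntL_isG {i : ℕ} {z t g : Bool} (h : w[i]? = some (Lt.a z t g)) : Is w i isG ↔ g = true := by
  rw [CntL_is h]
  constructor
  · rintro ⟨z', t', h'⟩
    injection h'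
  · rintro rfl
    exact ⟨z, t, rfl⟩

theorem CntL_cZ (z t g : Bool) : cZ (Lt.a z t g) = if z = true then 1 else 0 := by
  cases z <;> rfl

theorem CntL_cG (z t g : Bool) : cG (Lt.a z t g) = if g = true then 1 else 0 := by
  cases g <;> rfl

theorem pre_cZ (h : FS w Z b1 b2 ln) {i : ℕ} (hi : i ≤ ln) : pre cZ w i = ((i / Z : ℕ) : ℤ) := by
  induction i with
  | zero => rw [pre_zero, Nat.zero_div, Nat.cast_zero]
  | succ i ih =>
    have hi' : i < ln := hi
    obtain ⟨z, t, g, hc⟩ := CntL_letter h hi'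
    have h1 := h.hz i hi'
    rw [CntL_isZ hc] at h1
    rw [pre_succ hc, ih hi'.le, CntL_cZ, Nat.succ_div]
    by_cases hz : z = true
    · rw [if_pos hz, if_pos (h1.1 hz)]
      push_cast
      rfl
    · rw [if_neg hz, if_neg (fun h2 => hz (h1.2 h2))]
      push_cast
      rfl

theorem pre_cG (h : FS w Z b1 b2 ln) {i : ℕ} (hi : i ≤ ln) :
    pre cG w i = ((i / b2 : ℕ) : ℤ) := by
  induction i with
  | zero => rw [pre_zero, Nat.zero_div, Nat.cast_zero]
  | succ i ih =>
    have hi' : i < ln := hi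
    obtain ⟨z, t, g, hc⟩ := CntL_letter h hi'
    have h1 := h.hg i hi'
    rw [CntL_isG hc] at h1
    rw [pre_succ hc, ih hi'.le, CntL_cG, Nat.succ_div]
    by_cases hz : g = true
    · rw [if_pos hz, if_pos (h1.1 hz)]
      push_cast
      rfl
    · rw [if_neg hz, if_neg (fun h2 => hz (h1.2 h2))]
      push_cast
      rfl

theorem CntL_wt {f g k l : Lt → ℤ} (H : ∀ a, f a = g a + k a - l a) (u : List Lt) :
    wt f u = wt g u + wt k u - wt l u := by
  induction u with
  | nil => simp [wt]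
  | cons a u ih =>
    unfold wt at ih ⊢
    rw [List.map_cons, List.map_cons, List.map_cons, List.map_cons, List.sum_cons, List.sum_cons, List.sum_cons,
      List.sum_cons, ih, H]
    ring

theorem CntL_wt_zero (u : List Lt) : wt (fun _ => (0 : ℤ)) u = 0 := by
  induction u with
  | nil => simp [wt]
  | cons a u ih =>
    unfold wt at ih ⊢
    rw [List.map_cons, List.sum_cons, ih, add_zero]

theorem CntL_sub {f g l : Lt → ℤ} (H : ∀ a, f a = g a - l a) (w : List Lt) (i : ℕ) :
    pre f w i = pre g w i - pre l w i := by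
  have h1 := CntL_wt (f := f) (g := g) (k := fun _ => (0 : ℤ)) (l := l)
    (fun a => by rw [H a]; ring) (w.take i)
  rw [CntL_wt_zero] at h1
  unfold pre
  rw [h1]
  ring

theorem CntL_add {f g l : Lt → ℤ} (H : ∀ a, f a = g a + l a) (w : List Lt) (i : ℕ) :
    pre f w i = pre g w i + pre l w i := by
  have h1 := CntL_wt (f := f) (g := g) (k := l) (l := fun _ => (0 : ℤ))
    (fun a => by rw [H a]; ring) (w.take i)
  rw [CntL_wt_zero] at h1
  unfold pre
  rw [h1]
  ring

theorem pre_wTM (w : List Lt) (i : ℕ) : pre wTM w i = pre cTau w i + pre cMu w i - pre cTh w i :=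
  CntL_wt (by decide) _

theorem pre_wTS (w : List Lt) (i : ℕ) : pre wTS w i = pre cTau w i + pre cSg w i - pre cTh w i :=
  CntL_wt (by decide) _

theorem pre_wRI (w : List Lt) (i : ℕ) : pre wRI w i = pre cMu w i - pre wC w i :=
  CntL_sub (by decide) w i

theorem pre_wRII (w : List Lt) (i : ℕ) :
    pre wRII w i = pre cMu w i + pre wC w i - pre wK w i :=
  CntL_wt (by decide) _

theorem pre_wJ1 (w : List Lt) (i : ℕ) : pre wJ1 w i = pre wZN w i + pre wI w i :=
  CntL_add (by decide) w i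

theorem pre_wJ2 (w : List Lt) (i : ℕ) :
    pre wJ2 w i = pre wMT w i + pre cSg w i - pre wI w i :=
  CntL_wt (by decide) _

theorem pre_wJ3 (w : List Lt) (i : ℕ) : pre wJ3 w i = pre wMT w i + pre cSg w i :=
  CntL_add (by decide) w i

theorem pre_wKM (w : List Lt) (i : ℕ) : pre wKM w i = pre wK w i - pre cMu w i :=
  CntL_sub (by decide) w i

theorem pre_wZN (w : List Lt) (i : ℕ) : pre wZN w i = pre cZ w i - pre cNu w i :=
  CntL_sub (by decide) w i

theorem pre_wMT (w : List Lt) (i : ℕ) : pre wMT w i = pre cMu w i - pre cTp w i :=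
  CntL_sub (by decide) w i

theorem CntL_lt {i : ℕ} {c : Lt} (h : w[i]? = some c) : i < w.length := by
  obtain ⟨h, _⟩ := List.getElem?_eq_some_iff.1 h
  exact h

theorem CntL_len (f : Lt → ℤ) (w : List Lt) : pre f w w.length = wt f w := by
  unfold pre
  rw [List.take_length]

theorem pre_zero_of_reg (h : FS w Z b1 b2 ln) {f : Lt → ℤ} {i : ℕ} {c : Lt}
    (hi : w[i]? = some c) (hf : ∀ a, reg a ≤ reg c → f a = 0) : pre f w i = 0 := by
  have hl := CntL_lt hi
  rw [pre_eq_of_zero (Nat.zero_le i) hl.le, pre_zero]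
  intro t _ ht
  have ht' : t < w.length := by omega
  exact ⟨w[t], List.getElem?_eq_getElem ht', hf _ (h.srt t i _ c ht.le (List.getElem?_eq_getElem ht') hi)⟩

theorem pre_tot_of_reg (h : FS w Z b1 b2 ln) {f : Lt → ℤ} {i : ℕ} {c : Lt}
    (hi : w[i]? = some c) (hf : ∀ a, reg c ≤ reg a → f a = 0) :
    pre f w i = wt f w ∧ pre f w (i + 1) = wt f w := by
  have hl := CntL_lt hi
  have h1 : pre f w i = wt f w := by
    rw [← CntL_len f w]
    refine (pre_eq_of_zero hl.le le_rfl ?_).symm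
    intro t ht ht'
    exact ⟨w[t], List.getElem?_eq_getElem ht', hf _ (h.srt i t c _ ht hi (List.getElem?_eq_getElem ht'))⟩
  refine ⟨h1, ?_⟩
  rw [pre_succ hi, h1, hf c le_rfl, add_zero]

/-- in the left region all weights of non-left letters vanish -/
theorem pre_left (h : FS w Z b1 b2 ln) {f : Lt → ℤ} {i : ℕ} (hi : i ≤ ln)
    (hf : ∀ a, isLeft a → f a = 0) : pre f w i = 0 := by
  rw [pre_eq_of_zero (Nat.zero_le i) (hi.trans h.lnle), pre_zero]
  intro t _ ht
  exact (h.left t (by omega)).mono hf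

theorem CntL_cSg (c : Lt) : (cSg c = 0 ∧ c ≠ sg) ∨ (cSg c = 1 ∧ c = sg) := by
  revert c
  decide

theorem exists_sg (w : List Lt) {n : ℕ} (h1 : 1 ≤ n) (hn : (n : ℤ) ≤ wt cSg w) :
    ∃ s, Is w s (· = sg) ∧ pre cSg w (s + 1) = n := by
  classical
  have hex : ∃ i, (n : ℤ) ≤ pre cSg w i := ⟨w.length, by rw [CntL_len]; exact hn⟩
  have hfind := Nat.find_spec hex
  have hmin := fun {m : ℕ} (hm : m < Nat.find hex) => Nat.find_min hex hm
  rcases Nat.eq_zero_or_pos (Nat.find hex) with h0 | h0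
  · rw [h0, pre_zero] at hfind
    omega
  · obtain ⟨s, hs⟩ := Nat.exists_eq_succ_of_ne_zero h0.ne'
    rw [hs] at hfind
    have h2 : ¬ (n : ℤ) ≤ pre cSg w s := hmin (by omega)
    rw [Nat.succ_eq_add_one] at hfind
    rcases Nat.lt_or_ge s w.length with hl | hl
    · have hc : w[s]? = some w[s] := List.getElem?_eq_getElem hl
      have h3 := pre_succ (f := cSg) hc
      rcases CntL_cSg w[s] with ⟨h4, _⟩ | ⟨h4, h5⟩
      · rw [h4] at h3
        omega
      · refine ⟨s, ⟨w[s], hc, h5⟩, ?_⟩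
        rw [h4] at h3
        omega
    · exfalso
      apply h2
      have h3 : pre cSg w (s + 1) = pre cSg w s := by
        unfold pre
        rw [List.take_of_length_le hl, List.take_of_length_le (by omega)]
      rw [← h3]
      exact hfind

theorem pre_le_wt {f : Lt → ℤ} (hf : ∀ a, 0 ≤ f a) (w : List Lt) (i : ℕ) : pre f w i ≤ wt f w := by
  rcases Nat.lt_or_ge w.length i with hl | hl
  · unfold pre
    rw [List.take_of_length_le hl.le]
  · rw [← CntL_len f w]
    exact pre_mono hf hl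

theorem add_Lo {Z : ℕ} (hZ : 0 < Z) (x : ℕ) : x + Lo Z x = Z * (x / Z + 1) := by
  have h1 := Nat.div_add_mod x Z
  have h2 := Nat.mod_lt x hZ
  have h3 : Z * (x / Z + 1) = Z * (x / Z) + Z := by ring
  unfold Lo
  rw [h3]
  omega

theorem Lo_pos {Z : ℕ} (hZ : 0 < Z) (x : ℕ) : 1 ≤ Lo Z x := by
  have h2 := Nat.mod_lt x hZ
  unfold Lo
  omega

theorem Lo_le (Z x : ℕ) : Lo Z x ≤ Z := Nat.sub_le _ _

theorem CntL_dvd {Z : ℕ} (hZ : 0 < Z) (x : ℕ) : Z ∣ x + 1 ↔ Lo Z x = 1 := by
  have h1 := add_Lo hZ x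
  constructor
  · intro h
    have h2 := Nat.div_add_mod x Z
    have h3 := Nat.mod_lt x hZ
    have h4 : x + 1 = Z * (x / Z) + (x % Z + 1) := by omega
    rw [h4] at h
    have h5 : Z ∣ x % Z + 1 := (Nat.dvd_add_right (Dvd.intro _ rfl)).1 h
    have h6 := Nat.le_of_dvd (Nat.succ_pos _) h5
    unfold Lo
    omega
  · intro h
    rw [h] at h1
    rw [h1]
    exact Dvd.intro _ rfl

/-- a left position is a `z` letter iff `Lo = 1` -/
theorem isZ_iff_Lo (h : FS w Z b1 b2 ln) {i : ℕ} (hi : i < ln) : Is w i isZ ↔ Lo Z i = 1 := by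
  rw [h.hz i hi, CntL_dvd h.Zpos]

/-- a left position is either a `z` letter or an `nz` letter -/
theorem isNZ_iff (h : FS w Z b1 b2 ln) {i : ℕ} (hi : i < ln) : Is w i isNZ ↔ ¬ Z ∣ i + 1 := by
  obtain ⟨z, t, g, hc⟩ := CntL_letter h hi
  rw [← h.hz i hi, CntL_isZ hc, CntL_isNZ hc]
  cases z <;> simp

/-- positions of left letters are below `ln` -/
theorem lt_ln (h : FS w Z b1 b2 ln) {i : ℕ} (hi : Is w i isLeft) : i < ln := by
  by_contra hcon
  obtain ⟨c, hc, hl⟩ := hi
  exact ((CntL_is hc).1 (h.nleft i (not_lt.1 hcon) (CntL_lt hc))) hl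

end Pool.Agent.H29.CJ
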