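import Mathlib

/-!
# MP_677abc: conjunctive languages, basic definitions

All languages are sets of lists.  `cat` is concatenation, `Ex` are the expressions of a system of
language equations, `Lfp` is the least solution, `IsConj` says that a language is conjunctive.
-/

set_option autoImplicit false

namespace Pool.Agent.H29.CJ

/-- Concatenation of languages. -/
def cat {α : Type} (L M : Set (List α)) : Set (List α) := {w | ∃ u ∈ L, ∃ v ∈ M, w = u ++ v}

/-- Expressions over variables `ι`: empty set, empty word, letter, variable, concatenation,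
intersection, union. -/
inductive Ex (α ι : Type) : Type
  | nil : Ex α ι
  | eps : Ex α ι
  | sym : α → Ex α ι
  | var : ι → Ex α ι
  | cat : Ex α ι → Ex α ι → Ex α ι
  | inter : Ex α ι → Ex α ι → Ex α ι
  | union : Ex α ι → Ex α ι → Ex α ι

/-- Value of an expression. -/
def Ex.ev {α ι : Type} (X : ι → Set (List α)) : Ex α ι → Set (List α)
  | .nil => ∅
  | .eps => {[]}
  | .sym a => {[a]}
  | .var i => X i
  | .cat e f => CJ.cat (e.ev X) (f.ev X)
  | .inter e f => e.ev X ∩ f.ev X
  | .union e f => e.ev X ∪ f.ev X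

/-- The least solution of the system `X i = Φ i X`. -/
def Lfp {α ι : Type} (Φ : ι → (ι → Set (List α)) → Set (List α)) (i : ι) : Set (List α) :=
  {w | ∀ X : ι → Set (List α), (∀ j, Φ j X ⊆ X j) → w ∈ X i}

/-- Conjunctive languages, by systems of language equations with finitely many unknowns. -/
def IsConj {α : Type} (L : Set (List α)) : Prop :=
  ∃ (n : ℕ) (F : Fin n → Ex α (Fin n)) (i : Fin n), L = Lfp (fun j X => (F j).ev X) i

/-- Polynomial operators whose constants are conjunctive languages. -/
inductive Poly {α ι : Type} : ((ι → Set (List α)) → Set (List α)) → Prop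
  | var (i : ι) : Poly (fun X => X i)
  | cst (L : Set (List α)) (h : IsConj L) : Poly (fun _ => L)
  | cat {Φ Ψ : (ι → Set (List α)) → Set (List α)} (h : Poly Φ) (h' : Poly Ψ) :
      Poly (fun X => CJ.cat (Φ X) (Ψ X))
  | inter {Φ Ψ : (ι → Set (List α)) → Set (List α)} (h : Poly Φ) (h' : Poly Ψ) :
      Poly (fun X => Φ X ∩ Ψ X)
  | union {Φ Ψ : (ι → Set (List α)) → Set (List α)} (h : Poly Φ) (h' : Poly Ψ) :
      Poly (fun X => Φ X ∪ Ψ X)

/-- The one-letter words whose letter satisfies `P`. -/
def LC {α : Type} (P : α → Prop) : Set (List α) := {w | ∃ a, P a ∧ w = [a]}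

/-- The words all of whose letters satisfy `P`. -/
def ST {α : Type} (P : α → Prop) : Set (List α) := {w | ∀ a ∈ w, P a}

/-- Weight of a word. -/
def wt {α : Type} (f : α → ℤ) (w : List α) : ℤ := (w.map f).sum

/-- The words of weight `k`. -/
def WT {α : Type} (f : α → ℤ) (k : ℤ) : Set (List α) := {w | wt f w = k}

/-- Powers of a language. -/
def pw {α : Type} (L : Set (List α)) : ℕ → Set (List α)
  | 0 => {[]}
  | n + 1 => cat L (pw L n)

/-- `⋃ₖ Uᵏ Z Vᵏ`. -/
def Sync {α : Type} (U Z V : Set (List α)) : Set (List α) :=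
  {w | ∃ k, w ∈ cat (pw U k) (cat Z (pw V k))}

/-- All prefixes whose last letter satisfies `P` belong to `L`. -/
def AllPre {α : Type} (P : α → Prop) (L : Set (List α)) : Set (List α) :=
  {w | ∀ p a q, w = p ++ a :: q → P a → p ++ [a] ∈ L}

/-- All nonempty suffixes preceded only by letters satisfying `P` belong to `L`. -/
def AllSuf {α : Type} (P : α → Prop) (L : Set (List α)) : Set (List α) :=
  {w | ∀ p a q, w = p ++ a :: q → (∀ b ∈ p, P b) → a :: q ∈ L}

/-- A conjunctive grammar in binary normal form with `K` nonterminals. -/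
structure Gr (α : Type) (K : ℕ) where
  base : Fin K → α → Prop
  rules : Fin K → List (List (Fin K × Fin K))
  ne : ∀ A, ∀ ρ ∈ rules A, ρ ≠ []

/-- The language of nonterminal `A`. -/
inductive Gr.D {α : Type} {K : ℕ} (G : Gr α K) : Fin K → List α → Prop
  | base {A : Fin K} {a : α} (h : G.base A a) : G.D A [a]
  | rule {A : Fin K} {ρ : List (Fin K × Fin K)} {w : List α}
      (u v : Fin K × Fin K → List α) (h : ρ ∈ G.rules A) (hw : ∀ p ∈ ρ, w = u p ++ v p)
      (hu : ∀ p ∈ ρ, G.D p.1 (u p)) (hv : ∀ p ∈ ρ, G.D p.2 (v p)) : G.D A w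

/-- A unary grammar in binary normal form, given by its truth table `T A m` (the word of length `m`
belongs to the language of `A`). -/
structure USys (K : ℕ) where
  base : Fin K → Prop
  rules : Fin K → List (List (Fin K × Fin K))
  ne : ∀ A, ∀ ρ ∈ rules A, ρ ≠ []
  T : Fin K → ℕ → Prop
  T0 : ∀ A, ¬ T A 0
  Tiff : ∀ A m, T A m ↔ (m = 1 ∧ base A) ∨
    ∃ ρ ∈ rules A, ∀ p ∈ ρ, ∃ m₁ m₂, m₁ + m₂ = m ∧ T p.1 m₁ ∧ T p.2 m₂

/-- The conjunctive languages in the format of the frozen statement. -/
def Fro {m : ℕ} (L : Set (List (Fin m))) : Prop :=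
  ∃ (p : ℕ) (S : Fin p) (R : List (Fin p × List (List (Symbol (Fin m) (Fin p))))),
    (∀ r ∈ R, r.2 ≠ []) ∧
    ∀ w : List (Fin m), w ∈ L ↔
      ∀ X : Fin p → Set (List (Fin m)),
        (∀ r ∈ R, ∀ u : List (Fin m),
          (∀ α ∈ r.2, ∃ ws : List (List (Fin m)), u = ws.flatten ∧
            List.Forall₂ (fun (s : Symbol (Fin m) (Fin p)) (v : List (Fin m)) =>
              (∀ t, s = Symbol.terminal t → v = [t]) ∧
              (∀ B, s = Symbol.nonterminal B → v ∈ X B)) α ws) →
          u ∈ X r.1) →
        w ∈ X S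

/-- The closure hypothesis refuted in the end: images of conjunctive languages under
nonerasing homomorphisms are conjunctive. -/
def Closed : Prop :=
  ∀ (m k : ℕ) (h : Fin m → List (Fin k)), (∀ a, h a ≠ []) → ∀ L : Set (List (Fin m)),
    Fro L → Fro {w : List (Fin k) | ∃ x ∈ L, w = x.flatMap h}

/-! ### Segments of a fixed word -/

/-- The segment of `w` from position `i` to position `j`. -/
def seg {α : Type} (w : List α) (i j : ℕ) : List α := (w.take j).drop i

/-- The segment `[i, j)` of `w` belongs to `L`. -/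
def At {α : Type} (w : List α) (L : Set (List α)) (i j : ℕ) : Prop :=
  i ≤ j ∧ j ≤ w.length ∧ seg w i j ∈ L

/-- Weight of the prefix of length `i`. -/
def pre {α : Type} (f : α → ℤ) (w : List α) (i : ℕ) : ℤ := wt f (w.take i)

/-- Position `i` of `w` carries a letter satisfying `P`. -/
def Is {α : Type} (w : List α) (i : ℕ) (P : α → Prop) : Prop := ∃ a, w[i]? = some a ∧ P a

end Pool.Agent.H29.CJ
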