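import Pool.Agent.H29.CJ.SpD

/-!
# The speed-up language: the certificate word and its interface

`Prm K` collects the parameters of a certificate, `word P` is the certificate, `Mdl P w` lists the facts about
positions in `w` used by the completeness proof (they hold for `w = word P`).
-/

set_option autoImplicit false

namespace Pool.Agent.H29.CJ

open Lt Classical

/-- Parameters: block length `Z`, number of tables `B`, group lengths `b1`, `b2`, number of left blocks `Nz`,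
filler `F`, truth table `TT`, nonempty records `Cm g j` of the tables and `Mn i j` of the menus. -/
structure Prm (K : ℕ) where
  Z : ℕ
  B : ℕ
  b1 : ℕ
  b2 : ℕ
  Nz : ℕ
  F : ℕ
  TT : Fin K → ℕ → Prop
  Cm : ℕ → ℕ → Prop
  Mn : ℕ → ℕ → Prop

/-- Arithmetic conditions on the parameters. -/
structure Prm.Good {K : ℕ} (P : Prm K) : Prop where
  Zpos : 0 < P.Z
  Bpos : 0 < P.B
  b1pos : 0 < P.b1
  b1Z : P.b1 ∣ P.Z
  b2pos : 0 < P.b2
  b2Z : 2 * P.b2 ∣ P.Z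
  Nzpos : 0 < P.Nz

noncomputable section

variable {K : ℕ} (P : Prm K)

/-- left letter number `i` -/
def lefL (i : ℕ) : Lt := a (decide (P.Z ∣ i + 1)) (decide (P.b1 ∣ i + 1)) (decide (P.b2 ∣ i + 1))

def leftW : List Lt := (List.range (P.Nz * P.Z)).map (lefL P)

def rowW (m : ℕ) : List Lt := row :: (List.finRange K).map (fun A => bit (decide (P.TT A m)))

def recW (g j : ℕ) : List Lt :=
  if P.Cm g j then br :: (List.range P.b1).flatMap (fun k => rowW P (P.Z * g + P.b1 * j + k + 1))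
  else [emp]

def tabW (g : ℕ) : List Lt := tau :: (List.range (P.Z / P.b1)).flatMap (recW P g)

def cenW : List Lt := (List.range P.B).flatMap (tabW P)

def mrecW (i j : ℕ) : List Lt :=
  if P.Mn i j then pp :: List.replicate (2 * P.b2) rr else [ee]

def grpW (i : ℕ) : List Lt := cc :: (List.range (P.Z / (2 * P.b2))).flatMap (mrecW P i)

def zoneW (g : ℕ) : List Lt :=
  List.replicate g ka ++ ((List.range g).flatMap (fun i => grpW P (i + 1)) ++
    (List.replicate g cb ++ (List.replicate g kb ++ [mu])))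

def mainW : List Lt := (List.range P.B).flatMap (zoneW P)

def szW : List Lt := List.replicate P.Nz io ++ (List.replicate P.Nz ib ++ [sg])

def stW : List Lt := (List.range P.B).flatMap (fun _ => szW P)

/-- the certificate -/
def word : List Lt :=
  leftW P ++ (List.replicate P.Nz nu ++ (List.replicate P.F fi ++ (cenW P ++
    (List.replicate P.B th ++ (mainW P ++ (List.replicate (P.B - 1) tp ++ stW P))))))

/-- position of the `tau` of table `g` -/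
def oTab (g : ℕ) : ℕ := P.Nz * P.Z + P.Nz + P.F + ((List.range g).flatMap (tabW P)).length
/-- start of record `j` of table `g` -/
def oRec (g j : ℕ) : ℕ := oTab P g + 1 + ((List.range j).flatMap (recW P g)).length
/-- start of row `k` of the (nonempty) record `j` of table `g` -/
def oRow (g j k : ℕ) : ℕ := oRec P g j + 1 + k * (K + 1)
/-- start of zone `g` of the main region -/
def oZone (g : ℕ) : ℕ := oTab P P.B + P.B + ((List.range g).flatMap (zoneW P)).length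
/-- position just after the `mu` of zone `g` -/
def oMu (g : ℕ) : ℕ := oZone P (g + 1)
/-- position of the `cc` of group `i + 1` of zone `g` (`i < g`) -/
def oGrp (g i : ℕ) : ℕ := oZone P g + g + ((List.range i).flatMap (fun i => grpW P (i + 1))).length
/-- start of menu record `j` of group `i + 1` of zone `g` -/
def oMr (g i j : ℕ) : ℕ := oGrp P g i + 1 + ((List.range j).flatMap (mrecW P (i + 1))).length
/-- start of start zone `g` -/
def oSz (g : ℕ) : ℕ := oZone P P.B + (P.B - 1) + g * (2 * P.Nz + 1)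
/-- position just after the `sg` of start zone `g` -/
def oSg (g : ℕ) : ℕ := oSz P (g + 1)
/-- a position of start zone `g` with `#io - #ib = k` -/
def oIo (g k : ℕ) : ℕ := oSz P g + (if k = 0 then 2 * P.Nz else k)

/-- Interface of the certificate word: the facts about the positions. -/
structure Mdl (w : List Lt) : Prop where
  left : ∀ i < P.Nz * P.Z, w[i]? = some (lefL P i)
  tau_at : ∀ g < P.B, 0 < oRec P g 0 ∧ Is w (oRec P g 0 - 1) (· = tau) ∧
    P.Nz * P.Z ≤ oRec P g 0 - 1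
  rec_step : ∀ g < P.B, ∀ j < P.Z / P.b1, At w Rec (oRec P g j) (oRec P g (j + 1))
  rec_emp : ∀ g < P.B, ∀ j < P.Z / P.b1, ¬ P.Cm g j → Is w (oRec P g j) (· = emp)
  rec_br : ∀ g < P.B, ∀ j < P.Z / P.b1, P.Cm g j → Is w (oRec P g j) (· = br)
  row_step : ∀ g < P.B, ∀ j < P.Z / P.b1, P.Cm g j → ∀ k < P.b1,
    At w Row (oRow P g j k) (oRow P g j (k + 1)) ∧ Is w (oRow P g j k) (· = row)
  row_bit : ∀ g < P.B, ∀ j < P.Z / P.b1, P.Cm g j → ∀ k < P.b1, ∀ A : Fin K,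
    w[oRow P g j k + 1 + A]? = some (bit (decide (P.TT A (P.Z * g + P.b1 * j + k + 1))))
  row_le : ∀ g < P.B, ∀ j < P.Z / P.b1, P.Cm g j → ∀ k < P.b1, ∀ A : Fin K, ∀ g' < P.B,
    oRow P g j k + 1 + A < oMu P g' - 1
  rec_le : ∀ g < P.B, ∀ j < P.Z / P.b1, ∀ g' < P.B, oRec P g j < oMu P g' - 1
  mu_at : ∀ g < P.B, 0 < oMu P g ∧ Is w (oMu P g - 1) (· = mu)
  mu_le : ∀ g i, g < P.B → i < P.B → i < g → ∀ i' < g, oMu P i ≤ oGrp P g i'
  grp_at : ∀ g < P.B, ∀ i < g, Is w (oGrp P g i) (· = cc) ∧ P.Nz * P.Z ≤ oGrp P g i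
  mr_step : ∀ g < P.B, ∀ i < g, ∀ j < P.Z / (2 * P.b2),
    At w Rec' (oMr P g i j) (oMr P g i (j + 1))
  mr_pp : ∀ g < P.B, ∀ i < g, ∀ j < P.Z / (2 * P.b2), P.Mn (i + 1) j →
    Is w (oMr P g i j) (· = pp) ∧ (∀ k < 2 * P.b2, Is w (oMr P g i j + 1 + k) (· = rr)) ∧
    oMr P g i j + 1 + 2 * P.b2 < oMu P g ∧
    (∀ t, oMr P g i j ≤ t → t < oMu P g - 1 → Is w t (· ≠ mu))
  mu_io : ∀ g < P.B, ∀ g' < P.B, ∀ k, oMu P g ≤ oIo P g' k
  io_at : ∀ g < P.B, ∀ k < P.Nz, 0 < oIo P g k ∧ Is w (oIo P g k - 1) isIO ∧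
    oIo P g k ≤ oSg P g - 1 ∧ (∀ t, oIo P g k ≤ t → t < oSg P g - 1 → Is w t (· ≠ sg))
  sg_at : ∀ g < P.B, 0 < oSg P g ∧ Is w (oSg P g - 1) (· = sg)
  sg_only : ∀ s, Is w s (· = sg) → ∃ g < P.B, s = oSg P g - 1
  sg_first : ∀ t < oSg P 0 - 1, Is w t (· ≠ sg)
  sg_last : oSg P (P.B - 1) = w.length
  -- weights
  TM_row : ∀ g < P.B, ∀ j < P.Z / P.b1, P.Cm g j → ∀ k < P.b1, ∀ A : Fin K,
    pre wTM w (oRow P g j k + 1 + A) = g + 1
  TS_row : ∀ g < P.B, ∀ j < P.Z / P.b1, P.Cm g j → ∀ k < P.b1, ∀ A : Fin K,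
    pre wTS w (oRow P g j k + 1 + A) = g + 1
  TS_rec : ∀ g < P.B, ∀ j < P.Z / P.b1, pre wTS w (oRec P g j) = g + 1
  TM_mu : ∀ g < P.B, pre wTM w (oMu P g) = g + 1
  TS_sg : ∀ g < P.B, pre wTS w (oSg P g) = g + 1
  RI_mu : ∀ g < P.B, pre wRI w (oMu P g) = g + 1
  RI_grp : ∀ g < P.B, ∀ i < g, pre wRI w (oMr P g i 0) = (g : ℤ) - (i + 1)
  RII_mu : ∀ g < P.B, pre wRII w (oMu P g) = g + 1
  RII_mr : ∀ g < P.B, ∀ i < g, ∀ j < P.Z / (2 * P.b2), P.Mn (i + 1) j → ∀ k < 2 * P.b2,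
    pre wRII w (oMr P g i j + 1 + k) = i + 1
  J1_left : ∀ y ≤ P.Nz * P.Z, pre wJ1 w y = ((y / P.Z : ℕ) : ℤ)
  J1_io : ∀ g < P.B, ∀ k < P.Nz, pre wJ1 w (oIo P g k) = k
  J2_mu : ∀ g < P.B, pre wJ2 w (oMu P g) = g + 1
  J2_io : ∀ g < P.B, ∀ k < P.Nz, pre wJ2 w (oIo P g k) = 1 + (g : ℤ) - k
  J3_mu : ∀ g < P.B, pre wJ3 w (oMu P g) = g + 1
  J3_sg : ∀ g < P.B, pre wJ3 w (oSg P g) = g + 2

/-- The record of a value is nonempty in the tables. -/
def CmV (m : ℕ) : Prop := P.Cm ((m - 1) / P.Z) ((m - 1) % P.Z / P.b1)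

/-- The record of a value is nonempty in the menus. -/
def MnV (m : ℕ) : Prop := P.Mn ((m - 1) / P.Z) ((m - 1) % P.Z / (2 * P.b2))

/-- The selection conditions linking the grammar `G` and the parameters. -/
structure Sel (G : USys K) (Y LY : ℕ) : Prop where
  good : P.Good
  TTeq : ∀ A m, P.TT A m ↔ G.T A m
  Y1 : 1 ≤ Y
  YLY : Y ≤ LY
  ZLY : P.Z < LY
  hY : ∀ m, 1 ≤ m → m ≤ P.Z * P.B → (m - 1) % P.Z + 1 ≤ Y → CmV P m
  hsel : ∀ p : Fin K × Fin K, ∀ m ≤ P.Z * P.B,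
    (∃ b c, b + c = m ∧ G.T p.1 b ∧ G.T p.2 c) →
    (∃ b c, b + c = m ∧ G.T p.1 b ∧ G.T p.2 c ∧ (b < Y ∨ c < Y)) ∨
    (∃ b c, b + c = m ∧ G.T p.1 b ∧ G.T p.2 c ∧ LY ≤ b ∧ LY ≤ c ∧ (MnV P b ∨ MnV P c)) ∨
    (CmV P m ∧ ∃ b c, b + c = m ∧ G.T p.1 b ∧ G.T p.2 c ∧ (b < LY ∨ c < LY))
  hNz : LY / P.Z + P.Z * P.B / LY + 4 ≤ P.Nz

end

end Pool.Agent.H29.CJ
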