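import Pool.Agent.H29.CJ.FlM

/-!
# The certificate word is well formed, first part: region order and left region

Use only the STATEMENTS of the imported files (`FlM`, `AtL`).

`Srt`: the parts of `word P` have constant region `0,1,2,3,4,5,6,7` in this order (`reg` of every letter of `leftW` is `0`, of `cenW` is `3`,
of `mainW` is `5`, ...).  So for a split `word P = p ++ x :: q` every letter of `p ++ [x]` has region `≤ reg x`: prove that the list is
sorted by region, e.g. `List.Pairwise (fun u v => reg u ≤ reg v) (word P)` by `List.pairwise_append`, with the bounds of each part.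
`LeftOK`: `leftW P = (first Nz Z - 1 letters) ++ [z letter]` (as `Nz, Z > 0`, `Z ∣ Nz Z`), the rest has no left letters.
`isZ → isT ∧ isG`: `Z ∣ i + 1` implies `b1 ∣ i + 1` and `b2 ∣ i + 1`.
`AllPre isZ (BlkPair isZ)` etc.: general lemma for a divisor `β > 0` and a predicate `Q` on letters such that position `i < Nz Z` satisfies `Q` iff
`β ∣ i + 1` and letters outside the left region do not satisfy `Q`: a flagged position `t`, `t + 1 = c β`.  `c = 1`: the initial segment of length
`t + 1` is in `cat (ST ¬Q) (LC Q)`.  `c ≥ 2`: it is `u ++ v` with `u` of length `(c - 2) β` (empty or ending with a flagged letter) and `v`: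
`β - 1` unflagged, flagged, `β - 1` unflagged, flagged.  Use `at_full`-style lemmas: `w ∈ AllPre Q L ↔ ∀ t, Is w t Q → At w L 0 (t+1)`
(`at_AllPre`), `at_cat`, `at_Sync_LC`, `at_ST`, `at_LC`, `at_union`, `at_eps`.
-/

set_option autoImplicit false

namespace Pool.Agent.H29.CJ

open Lt Classical

variable {K : ℕ} (P : Prm K)

private theorem cp1_rep {c x : Lt} {n : ℕ} (h : x ∈ List.replicate n c) : x = c :=
  List.eq_of_mem_replicate h

private theorem cp1_left {x : Lt} (h : x ∈ leftW P) : reg x = 0 := by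
  unfold leftW at h
  obtain ⟨i, _, rfl⟩ := List.mem_map.1 h
  rfl

private theorem cp1_row {m : ℕ} {x : Lt} (h : x ∈ rowW P m) : reg x = 3 := by
  unfold rowW at h
  rcases List.mem_cons.1 h with rfl | h
  · rfl
  · obtain ⟨A, _, rfl⟩ := List.mem_map.1 h
    rfl

private theorem cp1_rec {g j : ℕ} {x : Lt} (h : x ∈ recW P g j) : reg x = 3 := by
  unfold recW at h
  split_ifs at h with hc
  · rcases List.mem_cons.1 h with rfl | h
    · rfl
    · obtain ⟨k, _, h⟩ := List.mem_flatMap.1 h
      exact cp1_row P h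
  · rcases List.mem_cons.1 h with rfl | h
    · rfl
    · cases h

private theorem cp1_cen {x : Lt} (h : x ∈ cenW P) : reg x = 3 := by
  unfold cenW at h
  obtain ⟨g, _, h⟩ := List.mem_flatMap.1 h
  unfold tabW at h
  rcases List.mem_cons.1 h with rfl | h
  · rfl
  · obtain ⟨j, _, h⟩ := List.mem_flatMap.1 h
    exact cp1_rec P h

private theorem cp1_mrec {i j : ℕ} {x : Lt} (h : x ∈ mrecW P i j) : reg x = 5 := by
  unfold mrecW at h
  split_ifs at h with hc
  · rcases List.mem_cons.1 h with rfl | h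
    · rfl
    · rw [cp1_rep h]
      rfl
  · rcases List.mem_cons.1 h with rfl | h
    · rfl
    · cases h

private theorem cp1_grp {i : ℕ} {x : Lt} (h : x ∈ grpW P i) : reg x = 5 := by
  unfold grpW at h
  rcases List.mem_cons.1 h with rfl | h
  · rfl
  · obtain ⟨j, _, h⟩ := List.mem_flatMap.1 h
    exact cp1_mrec P h

private theorem cp1_main {x : Lt} (h : x ∈ mainW P) : reg x = 5 := by
  unfold mainW at h
  obtain ⟨g, _, h⟩ := List.mem_flatMap.1 h
  unfold zoneW at h
  rcases List.mem_append.1 h with h | h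
  · rw [cp1_rep h]
    rfl
  rcases List.mem_append.1 h with h | h
  · obtain ⟨j, _, h⟩ := List.mem_flatMap.1 h
    exact cp1_grp P h
  rcases List.mem_append.1 h with h | h
  · rw [cp1_rep h]
    rfl
  rcases List.mem_append.1 h with h | h
  · rw [cp1_rep h]
    rfl
  rcases List.mem_cons.1 h with rfl | h
  · rfl
  · cases h

private theorem cp1_st {x : Lt} (h : x ∈ stW P) : reg x = 7 := by
  unfold stW at h
  obtain ⟨g, _, h⟩ := List.mem_flatMap.1 h
  unfold szW at h
  rcases List.mem_append.1 h with h | h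
  · rw [cp1_rep h]
    rfl
  rcases List.mem_append.1 h with h | h
  · rw [cp1_rep h]
    rfl
  rcases List.mem_cons.1 h with rfl | h
  · rfl
  · cases h

/-- sorted by region, and all regions at least `c` -/
private def Cp1S (c : ℕ) (u : List Lt) : Prop :=
  List.Pairwise (fun x y => reg x ≤ reg y) u ∧ ∀ x ∈ u, c ≤ reg x

private theorem cp1S_const {c : ℕ} {u : List Lt} (h : ∀ x ∈ u, reg x = c) : Cp1S c u := by
  refine ⟨?_, fun x hx => (h x hx).ge⟩
  rw [List.pairwise_iff_forall_sublist]
  intro x y hxy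
  have hx : x ∈ u := hxy.subset (by simp)
  have hy : y ∈ u := hxy.subset (by simp)
  rw [h x hx, h y hy]

private theorem cp1S_append {c d : ℕ} {u v : List Lt} (h : ∀ x ∈ u, reg x = c) (hv : Cp1S d v)
    (hcd : c ≤ d) : Cp1S c (u ++ v) := by
  constructor
  · rw [List.pairwise_append]
    refine ⟨(cp1S_const h).1, hv.1, fun x hx y hy => ?_⟩
    rw [h x hx]
    exact hcd.trans (hv.2 y hy)
  · intro x hx
    rcases List.mem_append.1 hx with hx | hx
    · exact (h x hx).ge
    · exact hcd.trans (hv.2 x hx)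

private theorem cp1S_rest : Cp1S 1 (List.replicate P.Nz nu ++ (List.replicate P.F fi ++ (cenW P ++
    (List.replicate P.B th ++ (mainW P ++ (List.replicate (P.B - 1) tp ++ stW P)))))) := by
  have h7 : Cp1S 7 (stW P) := cp1S_const (fun x hx => cp1_st P hx)
  have h6 := cp1S_append (c := 6) (u := List.replicate (P.B - 1) tp)
    (fun x hx => by rw [cp1_rep hx]; rfl) h7 (by norm_num)
  have h5 := cp1S_append (c := 5) (u := mainW P) (fun x hx => cp1_main P hx) h6 (by norm_num)
  have h4 := cp1S_append (c := 4) (u := List.replicate P.B th)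
    (fun x hx => by rw [cp1_rep hx]; rfl) h5 (by norm_num)
  have h3 := cp1S_append (c := 3) (u := cenW P) (fun x hx => cp1_cen P hx) h4 (by norm_num)
  have h2 := cp1S_append (c := 2) (u := List.replicate P.F fi)
    (fun x hx => by rw [cp1_rep hx]; rfl) h3 (by norm_num)
  exact cp1S_append (c := 1) (u := List.replicate P.Nz nu)
    (fun x hx => by rw [cp1_rep hx]; rfl) h2 (by norm_num)

theorem word_Srt (hP : P.Good) : word P ∈ Srt := by
  have h0 : Cp1S 0 (word P) := cp1S_append (c := 0) (u := leftW P) (fun x hx => cp1_left P hx)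
    (cp1S_rest P) (by norm_num)
  intro r _ p x q e hx
  have hx' : reg x = r := hx
  intro y hy
  show reg y ≤ r
  rcases List.mem_append.1 hy with hy | hy
  · have h1 := h0.1
    rw [e, List.pairwise_append] at h1
    rw [← hx']
    exact h1.2.2 y hy x (by simp)
  · rcases List.mem_cons.1 hy with rfl | hy
    · exact hx'.le
    · cases hy

private theorem cp1_len : (leftW P).length = P.Nz * P.Z := by
  simp [leftW]

private theorem cp1_get {i : ℕ} (hi : i < P.Nz * P.Z) : (word P)[i]? = some (lefL P i) := by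
  unfold word
  rw [List.getElem?_append_left (by rw [cp1_len]; exact hi)]
  unfold leftW
  rw [List.getElem?_map, List.getElem?_range hi]
  rfl

private theorem cp1_len_le : P.Nz * P.Z ≤ (word P).length := by
  unfold word
  rw [List.length_append, cp1_len]
  omega

private theorem cp1_nleft {i : ℕ} (hi : P.Nz * P.Z ≤ i) (hi' : i < (word P).length) :
    Is (word P) i (fun x => ¬ isLeft x) := by
  refine ⟨(word P)[i], List.getElem?_eq_getElem hi', ?_⟩
  have h1 : (word P)[i]? = some (word P)[i] := List.getElem?_eq_getElem hi'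
  have h2 : (word P)[i]? = (List.replicate P.Nz nu ++ (List.replicate P.F fi ++ (cenW P ++
    (List.replicate P.B th ++ (mainW P ++ (List.replicate (P.B - 1) tp ++ stW P))))))[i - P.Nz * P.Z]? := by
    unfold word
    rw [List.getElem?_append_right (by rw [cp1_len]; exact hi), cp1_len]
  rw [h2] at h1
  have h3 := (cp1S_rest P).2 _ (List.mem_of_getElem? h1)
  rintro ⟨z, t, g, e⟩
  rw [e] at h3
  simp [reg] at h3

/-- the general flag lemma -/
private theorem cp1_blk {w : List Lt} {N β : ℕ} {Q : Lt → Prop} (hN : N ≤ w.length) (hβ : 0 < β)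
    (hQ : ∀ i < N, (Is w i Q ↔ β ∣ i + 1)) (hQ' : ∀ i, N ≤ i → ¬ Is w i Q) :
    w ∈ AllPre Q (BlkPair Q) := by
  have hn : ∀ i < N, ¬ β ∣ i + 1 → Is w i (fun x => ¬ Q x) := by
    intro i hi hd
    have hl : i < w.length := by omega
    refine ⟨w[i], List.getElem?_eq_getElem hl, fun hq => hd ?_⟩
    exact (hQ i hi).1 ⟨w[i], List.getElem?_eq_getElem hl, hq⟩
  rw [← at_full, at_AllPre]
  refine ⟨Nat.zero_le _, le_rfl, fun t _ ht hq => ?_⟩
  have htN : t < N := by
    by_contra hc
    exact hQ' t (by omega) hq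
  obtain ⟨c, hc⟩ := (hQ t htN).1 hq
  -- no multiples strictly between
  have hnm : ∀ m i, β * m ≤ i → i + 1 < β * (m + 1) → ¬ β ∣ i + 1 := by
    rintro m i h1 h2 ⟨d, hd⟩
    have h3 : m < d := by
      by_contra hcon
      have h4 : β * d ≤ β * m := Nat.mul_le_mul_left β (by omega)
      omega
    have h4 : β * (m + 1) ≤ β * d := Nat.mul_le_mul_left β h3
    omega
  unfold BlkPair
  rw [at_union]
  rcases c with _ | _ | c
  · omega
  · left
    refine at_cat.2 ⟨t, at_ST.2 ⟨Nat.zero_le _, ht.le, fun i _ hi => ?_⟩, at_LC.2 ⟨rfl, hq⟩⟩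
    refine hn i (by omega) (hnm 0 i (by omega) (by omega))
  · right
    have e1 : β * (c + 1 + 1) = β * c + β + β := by ring
    have e2 : β * (c + 1) = β * c + β := by ring
    refine at_cat.2 ⟨β * c, ?_, at_cat.2 ⟨t, ?_, at_LC.2 ⟨rfl, hq⟩⟩⟩
    · rw [at_union]
      rcases c with _ | c
      · left
        exact at_eps.2 ⟨by simp, by simp⟩
      · right
        have e3 : β * (c + 1) = β * c + β := by ring
        refine at_cat.2 ⟨β * (c + 1) - 1, at_univ.2 ⟨Nat.zero_le _, by omega⟩,
          at_LC.2 ⟨by omega, (hQ _ (by omega)).2 ?_⟩⟩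
        have e4 : β * (c + 1) - 1 + 1 = β * (c + 1) := by omega
        rw [e4]
        exact Dvd.intro _ rfl
    · rw [at_Sync_LC]
      refine ⟨β - 1, β * c + β, by omega, ht.le, at_LC.2 ⟨by omega, (hQ _ (by omega)).2 ?_⟩, ?_, ?_⟩
      · have e4 : β * c + (β - 1) + 1 = β * (c + 1) := by omega
        rw [e4]
        exact Dvd.intro _ rfl
      · intro i hi1 hi2
        exact hn i (by omega) (hnm c i (by omega) (by omega))
      · intro i hi1 hi2
        exact hn i (by omega) (hnm (c + 1) i (by omega) (by omega))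

private theorem cp1_isZ (i : ℕ) : isZ (lefL P i) ↔ P.Z ∣ i + 1 := by
  constructor
  · rintro ⟨t, g, e⟩
    unfold lefL at e
    injection e with e1 e2 e3
    exact of_decide_eq_true e1
  · intro h
    exact ⟨_, _, by unfold lefL; rw [decide_eq_true h]⟩

private theorem cp1_isT (i : ℕ) : isT (lefL P i) ↔ P.b1 ∣ i + 1 := by
  constructor
  · rintro ⟨t, g, e⟩
    unfold lefL at e
    injection e with e1 e2 e3
    exact of_decide_eq_true e2
  · intro h
    exact ⟨_, _, by unfold lefL; rw [decide_eq_true h]⟩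

private theorem cp1_isG (i : ℕ) : isG (lefL P i) ↔ P.b2 ∣ i + 1 := by
  constructor
  · rintro ⟨t, g, e⟩
    unfold lefL at e
    injection e with e1 e2 e3
    exact of_decide_eq_true e3
  · intro h
    exact ⟨_, _, by unfold lefL; rw [decide_eq_true h]⟩

private theorem cp1_Is {Q : Lt → Prop} {i : ℕ} (hi : i < P.Nz * P.Z) :
    Is (word P) i Q ↔ Q (lefL P i) := by
  constructor
  · rintro ⟨x, h1, h2⟩
    rw [cp1_get P hi] at h1
    rw [Option.some.inj h1]
    exact h2
  · intro h
    exact ⟨_, cp1_get P hi, h⟩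

private theorem cp1_nIs {Q : Lt → Prop} (hQ : ∀ x, Q x → isLeft x) {i : ℕ} (hi : P.Nz * P.Z ≤ i) :
    ¬ Is (word P) i Q := by
  intro h
  obtain ⟨x, h1, h2⟩ := cp1_nleft P hi h.lt
  obtain ⟨y, h3, h4⟩ := h
  rw [h3] at h1
  rw [← Option.some.inj h1] at h2
  exact h2 (hQ y h4)

theorem word_LeftOK (hP : P.Good) : word P ∈ LeftOK := by
  have hZl : ∀ x, isZ x → isLeft x := by
    rintro x ⟨t, g, rfl⟩
    exact ⟨_, _, _, rfl⟩
  have hTl : ∀ x, isT x → isLeft x := by
    rintro x ⟨t, g, rfl⟩
    exact ⟨_, _, _, rfl⟩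
  have hGl : ∀ x, isG x → isLeft x := by
    rintro x ⟨t, g, rfl⟩
    exact ⟨_, _, _, rfl⟩
  have hle := cp1_len_le P
  have hN : 0 < P.Nz * P.Z := Nat.mul_pos hP.Nzpos hP.Zpos
  have hb2Z : P.b2 ∣ P.Z := dvd_trans (Dvd.intro_left 2 rfl) hP.b2Z
  refine ⟨?_, ?_, ?_, ?_, ?_⟩
  · rw [← at_full]
    refine at_cat.2 ⟨P.Nz * P.Z, at_cat.2 ⟨P.Nz * P.Z - 1, ?_, ?_⟩, ?_⟩
    · refine at_ST.2 ⟨Nat.zero_le _, by omega, fun t _ ht => ?_⟩
      rw [cp1_Is P (by omega)]
      exact ⟨_, _, _, rfl⟩
    · refine at_LC.2 ⟨by omega, ?_⟩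
      rw [cp1_Is P (by omega), cp1_isZ]
      have : P.Nz * P.Z - 1 + 1 = P.Nz * P.Z := by omega
      rw [this]
      exact Dvd.intro_left _ rfl
    · exact at_ST.2 ⟨hle, le_rfl, fun t ht ht' => cp1_nleft P ht ht'⟩
  · rw [← at_full]
    refine at_ST.2 ⟨Nat.zero_le _, le_rfl, fun t _ ht => ?_⟩
    rcases Nat.lt_or_ge t (P.Nz * P.Z) with h1 | h1
    · rw [cp1_Is P h1, cp1_isZ, cp1_isT, cp1_isG]
      intro h2
      exact ⟨dvd_trans hP.b1Z h2, dvd_trans hb2Z h2⟩
    · exact (cp1_nleft P h1 ht).mono (fun x hx hz => absurd (hZl x hz) hx)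
  · refine cp1_blk hle hP.Zpos (fun i hi => ?_) (fun i hi => cp1_nIs P hZl hi)
    rw [cp1_Is P hi, cp1_isZ]
  · refine cp1_blk hle hP.b1pos (fun i hi => ?_) (fun i hi => cp1_nIs P hTl hi)
    rw [cp1_Is P hi, cp1_isT]
  · refine cp1_blk hle hP.b2pos (fun i hi => ?_) (fun i hi => cp1_nIs P hGl hi)
    rw [cp1_Is P hi, cp1_isG]

end Pool.Agent.H29.CJ
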