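import Pool.Agent.H29.CJ.FlM

/-!
# The certificate word is well formed, second part: weights

Use only the STATEMENTS of the imported files (`FlM`, `AtL`).

`word P = U ++ (mainW P ++ V)` with no letter `mu, rr, cc, cb, ka, kb` in `U` and `V`.
`mu`: a split `word P = p ++ mu :: q` cuts `mainW` at the end of some zone `g`: `p ++ [mu] = U ++ (range (g+1)).flatMap zoneW`, and every zone has
`wC`-weight `g - g = 0` and `wK`-weight `g - g = 0`.
`rr`: a split `word P = p ++ rr :: q` cuts inside a group of some zone `g`: `wKM = #ka - #kb - #mu` of `p ++ [rr]` is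
`(0 - g) + g = 0` (`g` full zones contribute `g - g - 1 = -1` each, then `ka^g` contributes `g`).
`sg`: `word P = U' ++ stW P`, `p ++ [sg] = U' ++ (range (g+1)).flatMap szW`; `wI` of a start zone is `Nz - Nz = 0`; `wZN = Nz - Nz = 0` (the left region
has exactly `Nz` letters `z`); `wMT = B - (B - 1) = 1`.
A convenient way: a general lemma: if `x ∈`-split of `(range n).flatMap f = p ++ x :: q` then there are `g < n`, `p', q'` with
`f g = p' ++ x :: q'`, `p = (range g).flatMap f ++ p'`.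
-/

set_option autoImplicit false

namespace Pool.Agent.H29.CJ

open Lt Classical

variable {K : ℕ} (P : Prm K)

section aux

variable {β : Type}

private theorem cpf2_wt_cons (f : β → ℤ) (a : β) (v : List β) : wt f (a :: v) = f a + wt f v := by
  simp [wt]

private theorem cpf2_app {u v p q : List β} {x : β} (h : u ++ v = p ++ x :: q) :
    (∃ q', u = p ++ x :: q') ∨ (∃ p', v = p' ++ x :: q ∧ p = u ++ p') := by
  rw [List.append_eq_append_iff] at h
  rcases h with ⟨as, h1, h2⟩ | ⟨bs, h1, h2⟩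
  · exact Or.inr ⟨as, h2, h1⟩
  · cases bs with
    | nil =>
      right
      refine ⟨[], ?_, ?_⟩
      · simpa using h2.symm
      · simpa using h1.symm
    | cons b bs =>
      left
      rw [List.cons_append, List.cons.injEq] at h2
      obtain ⟨rfl, h3⟩ := h2
      exact ⟨bs, h1⟩

private theorem cpf2_right {u v p q : List β} {x : β} (h : u ++ v = p ++ x :: q) (hx : x ∉ u) :
    ∃ p', v = p' ++ x :: q ∧ p = u ++ p' := by
  rcases cpf2_app h with ⟨q', h1⟩ | h1
  · exact absurd (by rw [h1]; simp) hx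
  · exact h1

private theorem cpf2_left {u v p q : List β} {x : β} (h : u ++ v = p ++ x :: q) (hx : x ∉ v) :
    ∃ q', u = p ++ x :: q' := by
  rcases cpf2_app h with h1 | ⟨p', h1, h2⟩
  · exact h1
  · exact absurd (by rw [h1]; simp) hx

private theorem cpf2_flat (f : ℕ → List β) (n : ℕ) {p q : List β} {x : β}
    (h : (List.range n).flatMap f = p ++ x :: q) :
    ∃ g < n, ∃ p' q', f g = p' ++ x :: q' ∧ p = (List.range g).flatMap f ++ p' := by
  induction n generalizing q with
  | zero => simp at h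
  | succ n ih =>
    rw [List.range_succ, List.flatMap_append] at h
    rcases cpf2_app h with ⟨q', h1⟩ | ⟨p', h1, h2⟩
    · obtain ⟨g, hg, p', q'', h3, h4⟩ := ih h1
      exact ⟨g, by omega, p', q'', h3, h4⟩
    · refine ⟨n, by omega, p', q, ?_, h2⟩
      simpa using h1

private theorem cpf2_last {u p q : List β} {x : β} (h : u ++ [x] = p ++ x :: q) (hx : x ∉ u) :
    p = u := by
  obtain ⟨p', h1, h2⟩ := cpf2_right h hx
  cases p' with
  | nil => simpa using h2
  | cons b p' => simp at h1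

end aux

private theorem cpf2_low : ∀ b : Lt, reg b ≤ 4 →
    wC b = 0 ∧ wK b = 0 ∧ wKM b = 0 ∧ wI b = 0 ∧ wMT b = 0 ∧ b ≠ mu ∧ b ≠ rr ∧ b ≠ sg := by
  decide

private theorem cpf2_high : ∀ b : Lt, 6 ≤ reg b → b ≠ mu ∧ b ≠ rr := by
  decide

private theorem cpf2_five : ∀ b : Lt, reg b = 5 → wI b = 0 ∧ wZN b = 0 ∧ b ≠ sg := by
  decide

private theorem cpf2_mid : ∀ b : Lt, 2 ≤ reg b → wZN b = 0 := by
  decide

private theorem cpf2_left_reg : ∀ b ∈ leftW P, reg b = 0 := by
  intro b hb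
  unfold leftW at hb
  rw [List.mem_map] at hb
  obtain ⟨i, _, rfl⟩ := hb
  rfl

private theorem cpf2_cen_reg : ∀ b ∈ cenW P, reg b = 3 := by
  intro b hb
  unfold cenW at hb
  rw [List.mem_flatMap] at hb
  obtain ⟨g, _, hb⟩ := hb
  unfold tabW at hb
  rw [List.mem_cons] at hb
  rcases hb with rfl | hb
  · rfl
  rw [List.mem_flatMap] at hb
  obtain ⟨j, _, hb⟩ := hb
  unfold recW at hb
  split_ifs at hb with hc
  · rw [List.mem_cons] at hb
    rcases hb with rfl | hb
    · rfl
    rw [List.mem_flatMap] at hb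
    obtain ⟨k, _, hb⟩ := hb
    unfold rowW at hb
    rw [List.mem_cons] at hb
    rcases hb with rfl | hb
    · rfl
    rw [List.mem_map] at hb
    obtain ⟨A, _, rfl⟩ := hb
    rfl
  · rw [List.mem_singleton] at hb
    rw [hb]
    rfl

/-- letters of a menu record -/
private theorem cpf2_mrec {i j : ℕ} : ∀ b ∈ mrecW P i j, b = pp ∨ b = rr ∨ b = ee := by
  intro b hb
  unfold mrecW at hb
  split_ifs at hb with hc
  · rw [List.mem_cons, List.mem_replicate] at hb
    rcases hb with rfl | ⟨_, rfl⟩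
    · exact Or.inl rfl
    · exact Or.inr (Or.inl rfl)
  · rw [List.mem_singleton] at hb
    exact Or.inr (Or.inr hb)

private theorem cpf2_grp {i : ℕ} : ∀ b ∈ grpW P i, b = cc ∨ b = pp ∨ b = rr ∨ b = ee := by
  intro b hb
  unfold grpW at hb
  rw [List.mem_cons] at hb
  rcases hb with rfl | hb
  · exact Or.inl rfl
  rw [List.mem_flatMap] at hb
  obtain ⟨j, _, hb⟩ := hb
  exact Or.inr (cpf2_mrec P b hb)

private theorem cpf2_grps {n : ℕ} : ∀ b ∈ (List.range n).flatMap (fun i => grpW P (i + 1)),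
    b = cc ∨ b = pp ∨ b = rr ∨ b = ee := by
  intro b hb
  rw [List.mem_flatMap] at hb
  obtain ⟨j, _, hb⟩ := hb
  exact cpf2_grp P b hb

private theorem cpf2_grp_wC (i : ℕ) : wt wC (grpW P i) = 1 := by
  unfold grpW
  rw [cpf2_wt_cons, wt_zero]
  · rfl
  · intro b hb
    rw [List.mem_flatMap] at hb
    obtain ⟨j, _, hb⟩ := hb
    rcases cpf2_mrec P b hb with rfl | rfl | rfl <;> rfl

private theorem cpf2_zone_reg {g : ℕ} : ∀ b ∈ zoneW P g, reg b = 5 := by
  intro b hb
  unfold zoneW at hb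
  rw [List.mem_append, List.mem_append, List.mem_append, List.mem_append, List.mem_replicate,
    List.mem_replicate, List.mem_replicate, List.mem_singleton] at hb
  rcases hb with ⟨_, rfl⟩ | hb | ⟨_, rfl⟩ | ⟨_, rfl⟩ | rfl
  · rfl
  · rcases cpf2_grps P b hb with rfl | rfl | rfl | rfl <;> rfl
  · rfl
  · rfl
  · rfl

private theorem cpf2_main_reg : ∀ b ∈ mainW P, reg b = 5 := by
  intro b hb
  unfold mainW at hb
  rw [List.mem_flatMap] at hb
  obtain ⟨g, _, hb⟩ := hb
  exact cpf2_zone_reg P b hb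

private theorem cpf2_sz_reg : ∀ b ∈ szW P, reg b = 7 := by
  intro b hb
  unfold szW at hb
  rw [List.mem_append, List.mem_append, List.mem_replicate,
    List.mem_replicate, List.mem_singleton] at hb
  rcases hb with ⟨_, rfl⟩ | ⟨_, rfl⟩ | rfl <;> rfl

private theorem cpf2_st_reg : ∀ b ∈ stW P, reg b = 7 := by
  intro b hb
  unfold stW at hb
  rw [List.mem_flatMap] at hb
  obtain ⟨g, _, hb⟩ := hb
  exact cpf2_sz_reg P b hb

/-- the part before the main region -/
private noncomputable def cpf2U : List Lt :=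
  leftW P ++ (List.replicate P.Nz nu ++ (List.replicate P.F fi ++ (cenW P ++ List.replicate P.B th)))

private theorem cpf2U_reg : ∀ b ∈ cpf2U P, reg b ≤ 4 := by
  intro b hb
  unfold cpf2U at hb
  rw [List.mem_append, List.mem_append, List.mem_append, List.mem_append, List.mem_replicate,
    List.mem_replicate, List.mem_replicate] at hb
  rcases hb with hb | ⟨_, rfl⟩ | ⟨_, rfl⟩ | hb | ⟨_, rfl⟩
  · rw [cpf2_left_reg P b hb]; omega
  · show (1 : ℕ) ≤ 4; omega
  · show (2 : ℕ) ≤ 4; omega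
  · rw [cpf2_cen_reg P b hb]; omega
  · show (4 : ℕ) ≤ 4; omega

/-- the part after the main region -/
private noncomputable def cpf2V : List Lt := List.replicate (P.B - 1) tp ++ stW P

private theorem cpf2V_reg : ∀ b ∈ cpf2V P, 6 ≤ reg b := by
  intro b hb
  unfold cpf2V at hb
  rw [List.mem_append, List.mem_replicate] at hb
  rcases hb with ⟨_, rfl⟩ | hb
  · show 6 ≤ 6; omega
  · rw [cpf2_st_reg P b hb]; omega

private theorem cpf2_word : word P = cpf2U P ++ (mainW P ++ cpf2V P) := by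
  unfold word cpf2U cpf2V
  simp only [List.append_assoc]

private theorem cpf2_wordS : word P =
    (cpf2U P ++ (mainW P ++ List.replicate (P.B - 1) tp)) ++ stW P := by
  unfold word cpf2U
  simp only [List.append_assoc]

/-- a zone without its last letter -/
private noncomputable def cpf2Z (g : ℕ) : List Lt :=
  List.replicate g ka ++ ((List.range g).flatMap (fun i => grpW P (i + 1)) ++
    (List.replicate g cb ++ List.replicate g kb))

private theorem cpf2_zone (g : ℕ) : zoneW P g = cpf2Z P g ++ [mu] := by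
  unfold zoneW cpf2Z
  simp only [List.append_assoc]

private theorem cpf2Z_mu (g : ℕ) : mu ∉ cpf2Z P g := by
  unfold cpf2Z
  intro hb
  rw [List.mem_append, List.mem_append, List.mem_append, List.mem_replicate,
    List.mem_replicate, List.mem_replicate] at hb
  rcases hb with ⟨_, h⟩ | hb | ⟨_, h⟩ | ⟨_, h⟩
  · cases h
  · rcases cpf2_grps P _ hb with h | h | h | h <;> cases h
  · cases h
  · cases h

private theorem cpf2Z_wC (g : ℕ) : wt wC (cpf2Z P g) = 0 := by
  unfold cpf2Z
  rw [atl_wt_append, atl_wt_append, atl_wt_append, wt_replicate, wt_replicate, wt_replicate,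
    wt_flatMap_const wC _ (c := 1) (fun j _ => cpf2_grp_wC P (j + 1))]
  show (g : ℤ) * 0 + (g * 1 + (g * (-1) + g * 0)) = 0
  ring

private theorem cpf2Z_wK (g : ℕ) : wt wK (cpf2Z P g) = 0 := by
  unfold cpf2Z
  rw [atl_wt_append, atl_wt_append, atl_wt_append, wt_replicate, wt_replicate, wt_replicate,
    wt_zero wK ((List.range g).flatMap (fun i => grpW P (i + 1)))
      (fun b hb => by rcases cpf2_grps P b hb with rfl | rfl | rfl | rfl <;> rfl)]
  show (g : ℤ) * 1 + (0 + (g * 0 + g * (-1))) = 0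
  ring

private theorem cpf2Z_wKM (g : ℕ) : wt wKM (cpf2Z P g) = 0 := by
  unfold cpf2Z
  rw [atl_wt_append, atl_wt_append, atl_wt_append, wt_replicate, wt_replicate, wt_replicate,
    wt_zero wKM ((List.range g).flatMap (fun i => grpW P (i + 1)))
      (fun b hb => by rcases cpf2_grps P b hb with rfl | rfl | rfl | rfl <;> rfl)]
  show (g : ℤ) * 1 + (0 + (g * 0 + g * (-1))) = 0
  ring

private theorem cpf2Z_wMT (g : ℕ) : wt wMT (cpf2Z P g) = 0 := by
  unfold cpf2Z
  rw [atl_wt_append, atl_wt_append, atl_wt_append, wt_replicate, wt_replicate, wt_replicate,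
    wt_zero wMT ((List.range g).flatMap (fun i => grpW P (i + 1)))
      (fun b hb => by rcases cpf2_grps P b hb with rfl | rfl | rfl | rfl <;> rfl)]
  show (g : ℤ) * 0 + (0 + (g * 0 + g * 0)) = 0
  ring

private theorem cpf2_one (f : Lt → ℤ) (b : Lt) : wt f [b] = f b := by
  simp [wt]

private theorem cpf2_zone_wC (g : ℕ) : wt wC (zoneW P g) = 0 := by
  rw [cpf2_zone, atl_wt_append, cpf2Z_wC, cpf2_one]
  rfl

private theorem cpf2_zone_wK (g : ℕ) : wt wK (zoneW P g) = 0 := by
  rw [cpf2_zone, atl_wt_append, cpf2Z_wK, cpf2_one]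
  rfl

private theorem cpf2_zone_wKM (g : ℕ) : wt wKM (zoneW P g) = -1 := by
  rw [cpf2_zone, atl_wt_append, cpf2Z_wKM, cpf2_one]
  rfl

private theorem cpf2_zone_wMT (g : ℕ) : wt wMT (zoneW P g) = 1 := by
  rw [cpf2_zone, atl_wt_append, cpf2Z_wMT, cpf2_one]
  rfl

private theorem cpf2_mu : word P ∈ AllPre (· = mu) (WT wC 0 ∩ WT wK 0) := by
  intro p x q h hx
  have hx' : x = mu := hx
  subst hx'
  rw [cpf2_word] at h
  obtain ⟨p1, h1, h2⟩ := cpf2_right h (fun hm => (cpf2_low mu (cpf2U_reg P _ hm)).2.2.2.2.2.1 rfl)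
  obtain ⟨q2, h3⟩ := cpf2_left h1 (fun hm => (cpf2_high mu (cpf2V_reg P _ hm)).1 rfl)
  obtain ⟨g, hg, p3, q3, h4, h5⟩ := cpf2_flat (zoneW P) P.B h3
  rw [cpf2_zone] at h4
  have h6 := cpf2_last (q := q3) (p := p3) h4 (cpf2Z_mu P g)
  rw [h2, h5, h6]
  constructor
  · show wt wC _ = 0
    rw [atl_wt_append, atl_wt_append, atl_wt_append, cpf2_one, cpf2Z_wC,
      wt_flatMap_const wC (zoneW P) (c := 0) (fun j _ => cpf2_zone_wC P j),
      wt_zero wC (cpf2U P) (fun b hb => (cpf2_low b (cpf2U_reg P b hb)).1)]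
    show (0 : ℤ) + ((g : ℤ) * 0 + 0) + 0 = 0
    ring
  · show wt wK _ = 0
    rw [atl_wt_append, atl_wt_append, atl_wt_append, cpf2_one, cpf2Z_wK,
      wt_flatMap_const wK (zoneW P) (c := 0) (fun j _ => cpf2_zone_wK P j),
      wt_zero wK (cpf2U P) (fun b hb => (cpf2_low b (cpf2U_reg P b hb)).2.1)]
    show (0 : ℤ) + ((g : ℤ) * 0 + 0) + 0 = 0
    ring

private theorem cpf2_rr : word P ∈ AllPre (· = rr) (WT wKM 0) := by
  intro p x q h hx
  have hx' : x = rr := hx
  subst hx'
  rw [cpf2_word] at h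
  obtain ⟨p1, h1, h2⟩ := cpf2_right h
    (fun hm => (cpf2_low rr (cpf2U_reg P _ hm)).2.2.2.2.2.2.1 rfl)
  obtain ⟨q2, h3⟩ := cpf2_left h1 (fun hm => (cpf2_high rr (cpf2V_reg P _ hm)).2 rfl)
  obtain ⟨g, hg, p3, q3, h4, h5⟩ := cpf2_flat (zoneW P) P.B h3
  unfold zoneW at h4
  obtain ⟨p4, h6, h7⟩ := cpf2_right h4 (fun hm => by
    rw [List.mem_replicate] at hm
    cases hm.2)
  obtain ⟨q5, h8⟩ := cpf2_left h6 (fun hm => by
    rw [List.mem_append, List.mem_append, List.mem_replicate, List.mem_replicate,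
      List.mem_singleton] at hm
    rcases hm with ⟨_, h⟩ | ⟨_, h⟩ | h <;> cases h)
  have h9 : wt wKM p4 = 0 := by
    apply wt_zero
    intro b hb
    have hb' : b ∈ (List.range g).flatMap (fun i => grpW P (i + 1)) := by
      rw [h8]
      exact List.mem_append_left _ hb
    rcases cpf2_grps P b hb' with rfl | rfl | rfl | rfl <;> rfl
  rw [h2, h5, h7]
  show wt wKM _ = 0
  rw [atl_wt_append, atl_wt_append, atl_wt_append, atl_wt_append, cpf2_one, h9, wt_replicate,
      wt_flatMap_const wKM (zoneW P) (c := -1) (fun j _ => cpf2_zone_wKM P j),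
      wt_zero wKM (cpf2U P) (fun b hb => (cpf2_low b (cpf2U_reg P b hb)).2.2.1)]
  show (0 : ℤ) + ((g : ℤ) * (-1) + ((g : ℤ) * 1 + 0)) + 0 = 0
  ring

/-- a start zone without its last letter -/
private noncomputable def cpf2S : List Lt := List.replicate P.Nz io ++ List.replicate P.Nz ib

private theorem cpf2_sz : szW P = cpf2S P ++ [sg] := by
  unfold szW cpf2S
  simp only [List.append_assoc]

private theorem cpf2S_mem : ∀ b ∈ cpf2S P, b = io ∨ b = ib := by
  intro b hb
  unfold cpf2S at hb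
  rw [List.mem_append, List.mem_replicate, List.mem_replicate] at hb
  rcases hb with ⟨_, rfl⟩ | ⟨_, rfl⟩
  · exact Or.inl rfl
  · exact Or.inr rfl

private theorem cpf2S_wI : wt wI (cpf2S P) = 0 := by
  unfold cpf2S
  rw [atl_wt_append, wt_replicate, wt_replicate]
  show (P.Nz : ℤ) * 1 + P.Nz * (-1) = 0
  ring

private theorem cpf2S_wZN : wt wZN (cpf2S P) = 0 :=
  wt_zero _ _ (fun b hb => by rcases cpf2S_mem P b hb with rfl | rfl <;> rfl)

private theorem cpf2S_wMT : wt wMT (cpf2S P) = 0 :=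
  wt_zero _ _ (fun b hb => by rcases cpf2S_mem P b hb with rfl | rfl <;> rfl)

private theorem cpf2_lef_wZN (y : ℕ) : wt wZN ((List.range y).map (lefL P)) = ((y / P.Z : ℕ) : ℤ) := by
  induction y with
  | zero => simp [wt]
  | succ y ih =>
    rw [List.range_succ, List.map_append, atl_wt_append, ih, List.map_singleton, cpf2_one,
      Nat.succ_div]
    by_cases hd : P.Z ∣ y + 1
    · rw [if_pos hd]
      have : wZN (lefL P y) = 1 := by
        unfold lefL
        rw [decide_eq_true hd]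
        rfl
      rw [this]
      push_cast
      ring
    · rw [if_neg hd]
      have : wZN (lefL P y) = 0 := by
        unfold lefL
        rw [decide_eq_false hd]
        rfl
      rw [this]
      push_cast
      ring

private theorem cpf2U_wZN (hP : P.Good) : wt wZN (cpf2U P) = 0 := by
  unfold cpf2U
  rw [atl_wt_append, atl_wt_append, atl_wt_append, atl_wt_append, wt_replicate, wt_replicate,
    wt_replicate, wt_zero wZN (cenW P)
      (fun b hb => cpf2_mid b (by rw [cpf2_cen_reg P b hb]; omega))]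
  unfold leftW
  rw [cpf2_lef_wZN, Nat.mul_div_cancel _ hP.Zpos]
  show (P.Nz : ℤ) + (P.Nz * (-1) + (P.F * 0 + (0 + P.B * 0))) = 0
  ring

private theorem cpf2_sg (hP : P.Good) : word P ∈ AllPre (· = sg) (WT wI 0 ∩ (WT wZN 0 ∩ WT wMT 1)) := by
  intro p x q h hx
  have hx' : x = sg := hx
  subst hx'
  rw [cpf2_wordS] at h
  obtain ⟨p1, h1, h2⟩ := cpf2_right h (fun hm => by
    rw [List.mem_append, List.mem_append, List.mem_replicate] at hm
    rcases hm with hm | hm | ⟨_, hm⟩
    · exact (cpf2_low sg (cpf2U_reg P _ hm)).2.2.2.2.2.2.2 rfl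
    · exact (cpf2_five sg (cpf2_main_reg P _ hm)).2.2 rfl
    · cases hm)
  obtain ⟨g, hg, p3, q3, h4, h5⟩ := cpf2_flat (fun _ => szW P) P.B h1
  have h4' : szW P = p3 ++ sg :: q3 := h4
  rw [cpf2_sz] at h4'
  have h6 := cpf2_last (q := q3) (p := p3) h4'
    (fun hm => by rcases cpf2S_mem P _ hm with h | h <;> cases h)
  rw [h2, h5, h6]
  refine ⟨?_, ?_, ?_⟩
  · show wt wI _ = 0
    rw [atl_wt_append, atl_wt_append, atl_wt_append, atl_wt_append, atl_wt_append, cpf2_one,
      cpf2S_wI, wt_replicate,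
      wt_flatMap_const wI (fun _ => szW P) (c := 0) (fun j _ => by
        rw [cpf2_sz, atl_wt_append, cpf2S_wI, cpf2_one]; rfl),
      wt_zero wI (mainW P) (fun b hb => (cpf2_five b (cpf2_main_reg P b hb)).1),
      wt_zero wI (cpf2U P) (fun b hb => (cpf2_low b (cpf2U_reg P b hb)).2.2.2.1)]
    show (0 : ℤ) + (0 + ((P.B - 1 : ℕ) : ℤ) * 0) + ((g : ℤ) * 0 + 0) + 0 = 0
    ring
  · show wt wZN _ = 0
    rw [atl_wt_append, atl_wt_append, atl_wt_append, atl_wt_append, atl_wt_append, cpf2_one,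
      cpf2S_wZN, wt_replicate,
      wt_flatMap_const wZN (fun _ => szW P) (c := 0) (fun j _ => by
        rw [cpf2_sz, atl_wt_append, cpf2S_wZN, cpf2_one]; rfl),
      wt_zero wZN (mainW P) (fun b hb => (cpf2_five b (cpf2_main_reg P b hb)).2.1),
      cpf2U_wZN P hP]
    show (0 : ℤ) + (0 + ((P.B - 1 : ℕ) : ℤ) * 0) + ((g : ℤ) * 0 + 0) + 0 = 0
    ring
  · show wt wMT _ = 1
    rw [atl_wt_append, atl_wt_append, atl_wt_append, atl_wt_append, atl_wt_append, cpf2_one,
      cpf2S_wMT, wt_replicate,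
      wt_flatMap_const wMT (fun _ => szW P) (c := 0) (fun j _ => by
        rw [cpf2_sz, atl_wt_append, cpf2S_wMT, cpf2_one]; rfl),
      wt_zero wMT (cpf2U P) (fun b hb => (cpf2_low b (cpf2U_reg P b hb)).2.2.2.2.1)]
    unfold mainW
    rw [wt_flatMap_const wMT (zoneW P) (c := 1) (fun j _ => cpf2_zone_wMT P j)]
    show (0 : ℤ) + ((P.B : ℤ) * 1 + ((P.B - 1 : ℕ) : ℤ) * (-1)) + ((g : ℤ) * 0 + 0) + 0 = 1
    have := hP.Bpos
    push_cast [Nat.cast_sub (show 1 ≤ P.B from this)]
    ring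

theorem word_WtOK (hP : P.Good) : word P ∈ WtOK :=
  ⟨cpf2_mu P, cpf2_rr P, cpf2_sg P hP⟩

end Pool.Agent.H29.CJ
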