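import Pool.Agent.H29.CJ.CpTr

/-!
# Completeness of the menu side

Use only the STATEMENTS of the imported files.

`univ` from `x` to `xc`.  `Load` at `[xc, r)`, `r = oMr g i j + 1 + k`: `k` letters `nz` from `xc` (the next `z` letter is at
`xc + Lo - 1 = xc + k + 2 b2 j`), `j` translations `Tr false` by `tr_complete` (quotients by `Z` stay equal up to `xc + k + 2 b2 j`), the `z` letter
at `xc + k + 2 b2 j`, `univ` up to the `cc` letter at `oGrp g i` (`grp_at`), `j` `Rec'`s from `oMr g i 0 = oGrp g i + 1` to `oMr g i j`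
(`mr_step`, `at_pw`), `pp` (`mr_pp`), `k` letters `rr`.
`RII` from `oMu gc = oMu (i + 1)` to `r`: `RII_mr - RII_mu = (i + 1) - (i + 2) = -1`; `oMu (i+1) ≤ oGrp g i ≤ r` by `mu_le` (`i + 1 < g`).
-/

set_option autoImplicit false

namespace Pool.Agent.H29.CJ

open Lt Classical

variable {K : ℕ} (G : USys K) {P : Prm K} {w : List Lt}

theorem cpII_len (M : Mdl P w) {t : ℕ} (ht : t < P.Nz * P.Z) : t < w.length := by
  have h := M.left t ht
  obtain ⟨h1, _⟩ := List.getElem?_eq_some_iff.1 h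
  exact h1

/-- Positions before the next `z` letter. -/
theorem cpII_mod (hP : P.Good) {xc s : ℕ} (hs : s < Lo P.Z xc) :
    (xc + s) / P.Z = xc / P.Z ∧ (xc + s) % P.Z = xc % P.Z + s := by
  have hZ := hP.Zpos
  unfold Lo at hs
  have h1 : xc % P.Z < P.Z := Nat.mod_lt _ hZ
  have h2 : xc % P.Z + s < P.Z := by omega
  have h3 := Nat.div_add_mod xc P.Z
  have h4 : xc + s = (xc % P.Z + s) + P.Z * (xc / P.Z) := by omega
  constructor
  · rw [h4, Nat.add_mul_div_left _ _ hZ, Nat.div_eq_of_lt h2, Nat.zero_add]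
  · rw [h4, Nat.add_mul_mod_self_left, Nat.mod_eq_of_lt h2]

theorem cpII_lt (hP : P.Good) {xc s : ℕ} (hx : xc < P.Nz * P.Z) (hs : s < Lo P.Z xc) :
    xc + s < P.Nz * P.Z := by
  have h1 := (cpII_mod hP hs).1
  have hZ := hP.Zpos
  have h2 : xc / P.Z < P.Nz := by
    rw [Nat.div_lt_iff_lt_mul hZ]
    exact hx
  have h3 : (xc + s) / P.Z < P.Nz := by rw [h1]; exact h2
  rw [Nat.div_lt_iff_lt_mul hZ] at h3
  exact h3

theorem cpII_nz (hP : P.Good) (M : Mdl P w) {xc s : ℕ} (hx : xc < P.Nz * P.Z)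
    (hs : s + 1 < Lo P.Z xc) : Is w (xc + s) isNZ := by
  have h0 := cpII_lt hP hx (s := s) (by omega)
  have h1 := M.left _ h0
  have h2 : ¬ P.Z ∣ xc + s + 1 := by
    intro h
    have h3 := (cpII_mod hP hs).2
    have h4 : (xc + (s + 1)) % P.Z = 0 := by
      rw [← Nat.add_assoc]
      exact Nat.mod_eq_zero_of_dvd h
    omega
  refine ⟨_, h1, ?_⟩
  unfold lefL isNZ
  rw [decide_eq_false h2]
  exact ⟨_, _, rfl⟩

theorem cpII_z (hP : P.Good) (M : Mdl P w) {xc s : ℕ} (hx : xc < P.Nz * P.Z)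
    (hs : s + 1 = Lo P.Z xc) : Is w (xc + s) isZ := by
  have h0 := cpII_lt hP hx (s := s) (by omega)
  have h1 := M.left _ h0
  have h2 : P.Z ∣ xc + s + 1 := by
    have h3 := Nat.div_add_mod xc P.Z
    have h4 : xc % P.Z < P.Z := Nat.mod_lt _ hP.Zpos
    unfold Lo at hs
    refine ⟨xc / P.Z + 1, ?_⟩
    rw [Nat.mul_add, Nat.mul_one]
    omega
  refine ⟨_, h1, ?_⟩
  unfold lefL isZ
  rw [decide_eq_true h2]
  exact ⟨_, _, rfl⟩

theorem cpII_mr0 (g i : ℕ) : oMr P g i 0 = oGrp P g i + 1 := by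
  unfold oMr
  simp

theorem cpII_mr_le (g i j : ℕ) : oGrp P g i + 1 ≤ oMr P g i j := by
  unfold oMr
  omega

theorem LII_complete (hP : P.Good) (M : Mdl P w) {C : Fin K} {x xc k j g i : ℕ}
    (hg : g < P.B) (hi : i + 1 < g) (hj : j < P.Z / (2 * P.b2)) (hk : k < 2 * P.b2)
    (hMn : P.Mn (i + 1) j) (hxc : x ≤ xc) (hx : xc < P.Nz * P.Z)
    (hLo : Lo P.Z xc = k + 2 * P.b2 * j + 1)
    (hmain : At w (Sl G (.main C)) xc (oMu P (i + 1))) :
    At w (LII (Sl G) C) x (oMr P g i j + 1 + k) := by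
  have hig : i < g := by omega
  have hpp := M.mr_pp g hg i hig j hj hMn
  obtain ⟨p1, p2, p3, p4⟩ := hpp
  have hlen : oMr P g i j + 1 + k ≤ w.length := by
    obtain ⟨m1, m2⟩ := M.mu_at g hg
    have := m2.lt
    omega
  have hle := M.mu_le g (i + 1) hg (by omega) hi i hig
  have hle2 := cpII_mr_le (P := P) g i j
  obtain ⟨g1, g2⟩ := M.grp_at g hg i hig
  refine at_cat.2 ⟨xc, at_univ.2 ⟨hxc, (cpII_len M hx).le⟩, at_inter.2 ⟨?_, ?_⟩⟩
  · -- Load
    refine at_Sync_LC.2 ⟨k, oMr P g i j + 1, rfl, hlen, ?_, ?_, ?_⟩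
    · refine at_cat.2 ⟨oMr P g i j, ?_, at_LC.2 ⟨rfl, p1⟩⟩
      have hi' : xc + (k + 2 * P.b2 * j) < P.Nz * P.Z := cpII_lt hP hx (by omega)
      refine at_Sync.2 ⟨j, xc + k + 2 * P.b2 * j, oMr P g i 0, ?_, ?_, ?_⟩
      · refine at_pw.2 ⟨?_, fun t => xc + k + 2 * P.b2 * t, by simp, rfl, fun t ht => ?_⟩
        · have := cpII_len M hi'
          omega
        · have hmul : 2 * P.b2 * (t + 1) ≤ 2 * P.b2 * j := Nat.mul_le_mul_left _ ht
          have hmul2 : 2 * P.b2 * (t + 1) = 2 * P.b2 * t + 2 * P.b2 := by ring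
          have e1 : xc + k + 2 * P.b2 * (t + 1) = xc + k + 2 * P.b2 * t + 2 * P.b2 := by omega
          show At w (Tr false) (xc + k + 2 * P.b2 * t) (xc + k + 2 * P.b2 * (t + 1))
          rw [e1]
          have q1 := cpII_mod hP (xc := xc) (s := k + 2 * P.b2 * t) (by omega)
          have q2 := cpII_mod hP (xc := xc) (s := k + 2 * P.b2 * t + 2 * P.b2) (by omega)
          have q3 := cpII_lt hP hx (s := k + 2 * P.b2 * t + 2 * P.b2) (by omega)
          refine tr_complete hP M ?_ ?_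
          · omega
          · have e2 : xc + k + 2 * P.b2 * t + 2 * P.b2 = xc + (k + 2 * P.b2 * t + 2 * P.b2) := by omega
            have e3 : xc + k + 2 * P.b2 * t = xc + (k + 2 * P.b2 * t) := by omega
            rw [e2, e3, q1.1, q2.1]
            simp
      · have hz := cpII_z hP M hx (s := k + 2 * P.b2 * j) hLo.symm
        have e4 : xc + k + 2 * P.b2 * j = xc + (k + 2 * P.b2 * j) := by omega
        refine at_cat.2 ⟨xc + k + 2 * P.b2 * j + 1, at_LC.2 ⟨rfl, by rw [e4]; exact hz⟩, ?_⟩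
        refine at_cat.2 ⟨oGrp P g i, at_univ.2 ⟨by omega, g1.lt.le⟩, at_LC.2 ⟨cpII_mr0 g i, g1⟩⟩
      · refine at_pw.2 ⟨by omega, fun t => oMr P g i t, rfl, rfl, fun t ht => ?_⟩
        exact M.mr_step g hg i hig t (by omega)
    · intro t h1 h2
      obtain ⟨s, rfl⟩ := Nat.exists_eq_add_of_le h1
      exact cpII_nz hP M hx (by omega)
    · intro t h1 h2
      obtain ⟨s, rfl⟩ := Nat.exists_eq_add_of_le h1
      exact p2 s (by omega)
  · refine at_cat.2 ⟨oMu P (i + 1), hmain, at_WT.2 ⟨by omega, hlen, ?_⟩⟩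
    rw [M.RII_mu (i + 1) (by omega), M.RII_mr g hg i hig j hj hMn k hk]
    push_cast
    ring

end Pool.Agent.H29.CJ
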