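import Pool.Agent.H29.CJ.FlM

/-!
# Length of the certificate word

Use only the STATEMENTS of the imported files (`FlM`).

Lengths: `leftW`: `Nz Z`; `nu`: `Nz`; filler `F`; table `g`: `1 + Σ_{j < Z/b1} |recW g j|`, `|recW g j| = 1` if the record is empty and
`1 + b1 (K+1)` otherwise, so `|cenW| = B + B (Z/b1) + b1 (K+1) nC` with `nC` = number of pairs `(g, j)`, `g < B`, `j < Z/b1`, `Cm g j`;
`th`: `B`; zone `g`: `3 g + 1 + Σ_{i<g} (1 + Σ_{j < Z/(2 b2)} |mrecW (i+1) j|)`, `|mrecW| = 1` or `1 + 2 b2`; so
`|zoneW g| ≤ 4 B + B (Z/(2 b2)) + 2 b2 nM` with `nM` = number of pairs `(i, j)`, `i ≤ B`, `j < Z/(2 b2)`, `Mn i j` (for each `g < B`: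
`3 g + 1 + g ≤ 4 B`); `tp`: `B - 1`; start: `B (2 Nz + 1)`.
Count with `Finset.card_filter` and sums over `Finset.range` (`List.length_flatMap`, `List.sum_range`...).
-/

set_option autoImplicit false

namespace Pool.Agent.H29.CJ

open Lt Classical

variable {K : ℕ} (P : Prm K)

noncomputable section

/-- number of nonempty records of the tables -/
def nC : ℕ :=
  ((Finset.range P.B ×ˢ Finset.range (P.Z / P.b1)).filter (fun q => P.Cm q.1 q.2)).card

/-- number of nonempty records of the menus -/
def nM : ℕ :=
  ((Finset.range (P.B + 1) ×ˢ Finset.range (P.Z / (2 * P.b2))).filter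
    (fun q => P.Mn q.1 q.2)).card

private theorem CpLen_fm {β : Type} (f : ℕ → List β) (n : ℕ) :
    ((List.range n).flatMap f).length = ∑ j ∈ Finset.range n, (f j).length := by
  induction n with
  | zero => simp
  | succ n ih => rw [length_flatMap_succ, Finset.sum_range_succ, ih]

private theorem CpLen_rec (g j : ℕ) :
    (recW P g j).length = 1 + P.b1 * (K + 1) * (if P.Cm g j then 1 else 0) := by
  unfold recW
  by_cases h : P.Cm g j
  · rw [if_pos h, if_pos h, List.length_cons, length_flatMap_const (c := K + 1)]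
    · ring
    · intro k _
      simp [rowW]
  · rw [if_neg h, if_neg h]
    simp

private theorem CpLen_mrec (i j : ℕ) :
    (mrecW P i j).length = 1 + 2 * P.b2 * (if P.Mn i j then 1 else 0) := by
  unfold mrecW
  by_cases h : P.Mn i j
  · rw [if_pos h, if_pos h, List.length_cons, List.length_replicate]
    ring
  · rw [if_neg h, if_neg h]
    simp

private theorem CpLen_tab (g : ℕ) :
    (tabW P g).length = 1 + P.Z / P.b1 +
      P.b1 * (K + 1) * ∑ j ∈ Finset.range (P.Z / P.b1), (if P.Cm g j then 1 else 0) := by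
  unfold tabW
  rw [List.length_cons, CpLen_fm, Finset.sum_congr rfl fun j _ => CpLen_rec P g j,
    Finset.sum_add_distrib, ← Finset.mul_sum, Finset.sum_const, Finset.card_range, smul_eq_mul]
  ring

private theorem CpLen_grp (i : ℕ) :
    (grpW P i).length = 1 + P.Z / (2 * P.b2) +
      2 * P.b2 * ∑ j ∈ Finset.range (P.Z / (2 * P.b2)), (if P.Mn i j then 1 else 0) := by
  unfold grpW
  rw [List.length_cons, CpLen_fm, Finset.sum_congr rfl fun j _ => CpLen_mrec P i j,
    Finset.sum_add_distrib, ← Finset.mul_sum, Finset.sum_const, Finset.card_range, smul_eq_mul]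
  ring

private theorem CpLen_cen :
    (cenW P).length = P.B + P.B * (P.Z / P.b1) + P.b1 * (K + 1) * nC P := by
  unfold cenW
  rw [CpLen_fm, Finset.sum_congr rfl fun g _ => CpLen_tab P g, Finset.sum_add_distrib,
    ← Finset.mul_sum, Finset.sum_const, Finset.card_range, smul_eq_mul]
  have h : nC P = ∑ g ∈ Finset.range P.B, ∑ j ∈ Finset.range (P.Z / P.b1),
      (if P.Cm g j then 1 else 0) := by
    unfold nC
    rw [Finset.card_filter, Finset.sum_product]
  rw [h]
  ring

private theorem CpLen_nM :
    nM P = ∑ i ∈ Finset.range (P.B + 1), ∑ j ∈ Finset.range (P.Z / (2 * P.b2)),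
      (if P.Mn i j then 1 else 0) := by
  unfold nM
  rw [Finset.card_filter, Finset.sum_product]

private theorem CpLen_zone {g : ℕ} (hg : g < P.B) :
    (zoneW P g).length ≤ 4 * P.B + P.B * (P.Z / (2 * P.b2)) + 2 * P.b2 * nM P := by
  have h1 : (zoneW P g).length = 3 * g + 1 +
      ∑ i ∈ Finset.range g, (grpW P (i + 1)).length := by
    unfold zoneW
    rw [List.length_append, List.length_append, List.length_append, List.length_append,
      List.length_replicate, List.length_replicate, List.length_replicate, CpLen_fm]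
    simp only [List.length_cons, List.length_nil]
    ring
  have h2 : ∑ i ∈ Finset.range g, (grpW P (i + 1)).length =
      g * (1 + P.Z / (2 * P.b2)) + 2 * P.b2 * ∑ i ∈ Finset.range g,
        ∑ j ∈ Finset.range (P.Z / (2 * P.b2)), (if P.Mn (i + 1) j then 1 else 0) := by
    rw [Finset.sum_congr rfl fun i _ => CpLen_grp P (i + 1), Finset.sum_add_distrib,
      ← Finset.mul_sum, Finset.sum_const, Finset.card_range, smul_eq_mul]
  have h3 : ∑ i ∈ Finset.range g, ∑ j ∈ Finset.range (P.Z / (2 * P.b2)),
      (if P.Mn (i + 1) j then 1 else 0) ≤ nM P := by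
    rw [CpLen_nM]
    have h4 := Finset.sum_range_succ' (fun i => ∑ j ∈ Finset.range (P.Z / (2 * P.b2)),
      (if P.Mn i j then 1 else 0)) g
    have h5 : ∑ i ∈ Finset.range (g + 1), ∑ j ∈ Finset.range (P.Z / (2 * P.b2)),
        (if P.Mn i j then 1 else 0) ≤ ∑ i ∈ Finset.range (P.B + 1),
          ∑ j ∈ Finset.range (P.Z / (2 * P.b2)), (if P.Mn i j then 1 else 0) :=
      Finset.sum_le_sum_of_subset (Finset.range_subset_range.2 (by omega))
    omega
  have h6 : g * (1 + P.Z / (2 * P.b2)) ≤ P.B * (1 + P.Z / (2 * P.b2)) - (1 + P.Z / (2 * P.b2)) := by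
    have h7 : (g + 1) * (1 + P.Z / (2 * P.b2)) ≤ P.B * (1 + P.Z / (2 * P.b2)) :=
      Nat.mul_le_mul_right _ hg
    rw [Nat.add_mul, Nat.one_mul] at h7
    omega
  have h8 := Nat.mul_le_mul_left (2 * P.b2) h3
  have h9 : P.B * (1 + P.Z / (2 * P.b2)) = P.B + P.B * (P.Z / (2 * P.b2)) := by ring
  rw [h1, h2]
  generalize P.Z / (2 * P.b2) = Q at *
  omega

private theorem CpLen_main :
    (mainW P).length ≤ P.B * (4 * P.B + P.B * (P.Z / (2 * P.b2)) + 2 * P.b2 * nM P) := by
  unfold mainW
  rw [CpLen_fm]
  have h := Finset.sum_le_card_nsmul (Finset.range P.B) (fun g => (zoneW P g).length)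
    (4 * P.B + P.B * (P.Z / (2 * P.b2)) + 2 * P.b2 * nM P)
    (fun g hg => CpLen_zone P (Finset.mem_range.1 hg))
  rw [Finset.card_range, smul_eq_mul] at h
  exact h

private theorem CpLen_st : (stW P).length = P.B * (2 * P.Nz + 1) := by
  unfold stW
  rw [length_flatMap_const (c := 2 * P.Nz + 1)]
  intro j _
  unfold szW
  rw [List.length_append, List.length_append, List.length_replicate, List.length_replicate]
  simp only [List.length_cons, List.length_nil]
  ring

theorem length_word_le (hP : P.Good) :
    ∃ n, (word P).length = n + P.F ∧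
      n ≤ P.Nz * P.Z + P.Nz + (P.B + P.B * (P.Z / P.b1) + P.b1 * (K + 1) * nC P) + P.B +
        P.B * (4 * P.B + P.B * (P.Z / (2 * P.b2)) + 2 * P.b2 * nM P) + P.B +
        P.B * (2 * P.Nz + 1) := by
  have _ := hP
  have h1 := CpLen_cen P
  have h2 := CpLen_main P
  have h3 := CpLen_st P
  have h4 : (leftW P).length = P.Nz * P.Z := by
    unfold leftW
    rw [List.length_map, List.length_range]
  have h5 : (word P).length = (leftW P).length + (P.Nz + (P.F + ((cenW P).length +
      (P.B + ((mainW P).length + ((P.B - 1) + (stW P).length)))))) := by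
    unfold word
    rw [List.length_append, List.length_append, List.length_append, List.length_append,
      List.length_append, List.length_append, List.length_append, List.length_replicate,
      List.length_replicate, List.length_replicate, List.length_replicate]
  refine ⟨(leftW P).length + P.Nz + (cenW P).length + P.B + (mainW P).length + (P.B - 1) +
    (stW P).length, by omega, by omega⟩

end

end Pool.Agent.H29.CJ
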