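import Pool.Agent.H29.CJ.CpQ
import Pool.Agent.H29.CJ.CpII

/-!
# Completeness of the large steps

Use only the STATEMENTS of the imported files.

Given `x < Nz Z` with `x/Z + 1 < Nz`, `m = Z g + Lo Z x`, `g < B`, `m = vb + vc` with `Z < vb`, `Z < vc`, the record of `vc` in the menus
nonempty, and main claims available for `vb` and `vc` at all admissible positions in the same or the next block.
Write `vb = Z gs + lb`, `vc = Z gc + lc` with `1 ≤ lb, lc ≤ Z` (`gs = (vb-1)/Z`, `lb = (vb-1)%Z + 1`), so `gs, gc ≥ 1`.  Put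
`i = gc - 1`, `j = (lc - 1)/(2 b2) < Z/(2 b2)`, `k = (lc - 1) % (2 b2)`; `MnV P vc` is `P.Mn gc j = P.Mn (i+1) j`.
`x + Lo Z x = Z (x/Z + 1)`.  From `Z gs + lb + Z gc + lc = Z g + Lo Z x` and the ranges of `lb, lc, Lo`: `gs + gc + c = g` with `c ∈ {0, 1}` and
`lb + lc = Lo Z x + Z c`.
`xb = x + lc = x + k + 2 b2 j + 1`: `xb + lb = x + Lo Z x + Z c = Z (x/Z + 1 + c)` and `1 ≤ lb ≤ Z`, so `xb/Z = x/Z + c`, `Lo Z xb = lb`,
`xb < Nz Z`.  Main claim of `B` at `(xb, oMu gs)` by `hB`.  `q1_complete` with `b = (c = 1)`.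
`xc = Z (x/Z + 2) - lc`: `xc/Z = x/Z + 1`, `Lo Z xc = lc`, `x ≤ xc < Nz Z`.  Main claim of `C` at `(xc, oMu gc)` by `hC`; `gc = i + 1 < g` as `gs ≥ 1`.
`LII_complete`.  Then the `rr` letter at `oMr g i j + 1 + k` (`mr_pp`), the non-`mu` letters up to `oMu g - 1`, and `mu` (`mu_at`).
-/

set_option autoImplicit false

namespace Pool.Agent.H29.CJ

open Lt Classical

/-- the point at distance `l` before the `z` letter of block `q` -/
private theorem cplg_pt {Z q l y : ℕ} (hl : 1 ≤ l) (hlZ : l ≤ Z) (h : y + l = Z * (q + 1)) :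
    y / Z = q ∧ Lo Z y = l := by
  have hZ : 0 < Z := by omega
  have e : y = Z - l + Z * q := by
    rw [Nat.mul_add, Nat.mul_one] at h
    omega
  have h1 : y / Z = q := by
    rw [e, Nat.add_mul_div_left _ _ hZ, Nat.div_eq_of_lt (by omega), Nat.zero_add]
  have h2 : y % Z = Z - l := by
    rw [e, Nat.add_mul_mod_self_left, Nat.mod_eq_of_lt (by omega)]
  refine ⟨h1, ?_⟩
  unfold Lo
  rw [h2]
  omega

private theorem cplg_Lo {Z x : ℕ} (hZ : 0 < Z) :
    1 ≤ Lo Z x ∧ Lo Z x ≤ Z ∧ x + Lo Z x = Z * (x / Z + 1) := by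
  have h1 := Nat.mod_lt x hZ
  have h2 := Nat.div_add_mod x Z
  unfold Lo
  refine ⟨by omega, by omega, ?_⟩
  rw [Nat.mul_add, Nat.mul_one]
  omega

/-- the carry -/
private theorem cplg_carry {Z g gs gc lb lc L : ℕ} (hZ : 0 < Z) (hb : 1 ≤ lb) (hb' : lb ≤ Z) (hc : 1 ≤ lc)
    (hc' : lc ≤ Z) (hL : 1 ≤ L) (hL' : L ≤ Z) (h : Z * gs + lb + (Z * gc + lc) = Z * g + L) :
    ∃ b : Bool, gs + gc + (if b then 1 else 0) = g ∧ lb + lc = L + Z * (if b then 1 else 0) := by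
  rcases Nat.lt_trichotomy (gs + gc) g with h1 | h1 | h1
  · obtain ⟨d, hd⟩ := Nat.exists_eq_add_of_lt h1
    have hd0 : d = 0 := by
      by_contra hne
      have h2 : 1 ≤ d := Nat.one_le_iff_ne_zero.2 hne
      have h3 : Z * g = Z * gs + Z * gc + Z * d + Z := by
        rw [hd]
        ring
      have h4 : Z * 1 ≤ Z * d := Nat.mul_le_mul_left _ h2
      rw [Nat.mul_one] at h4
      omega
    subst hd0
    refine ⟨true, by simp; omega, ?_⟩
    have h3 : Z * g = Z * gs + Z * gc + Z := by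
      rw [hd]
      ring
    simp
    omega
  · refine ⟨false, by simp; exact h1, ?_⟩
    have h3 : Z * g = Z * gs + Z * gc := by
      rw [← h1]
      ring
    simp
    omega
  · exfalso
    have h2 : g + 1 ≤ gs + gc := h1
    have h3 : Z * (g + 1) ≤ Z * (gs + gc) := Nat.mul_le_mul_left _ h2
    rw [Nat.mul_add, Nat.mul_add, Nat.mul_one] at h3
    omega

variable {K : ℕ} (G : USys K) {P : Prm K} {w : List Lt}

theorem Lg_complete (hP : P.Good) (M : Mdl P w) {B C : Fin K} {x g m vb vc : ℕ}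
    (hg : g < P.B) (hx : x < P.Nz * P.Z) (hx' : x / P.Z + 1 < P.Nz)
    (hm : m = P.Z * g + Lo P.Z x) (hv : vb + vc = m) (hvb : P.Z < vb) (hvc : P.Z < vc)
    (hMn : MnV P vc)
    (hB : ∀ y g', y < P.Nz * P.Z → y / P.Z ≤ x / P.Z + 1 → g' < P.B → vb = P.Z * g' + Lo P.Z y →
      At w (Sl G (.main B)) y (oMu P g'))
    (hC : ∀ y g', y < P.Nz * P.Z → y / P.Z ≤ x / P.Z + 1 → g' < P.B → vc = P.Z * g' + Lo P.Z y →
      At w (Sl G (.main C)) y (oMu P g')) :
    At w (Lg (Sl G) B C) x (oMu P g) := by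
  have hZ := hP.Zpos
  have hb2 := hP.b2pos
  have hb20 : 0 < 2 * P.b2 := by omega
  obtain ⟨hL1, hL2, hL3⟩ := cplg_Lo (x := x) hZ
  -- the decomposition of `vb` and `vc`
  have hvb1 := Nat.div_add_mod (vb - 1) P.Z
  have hvb2 := Nat.mod_lt (vb - 1) hZ
  have hvc1 := Nat.div_add_mod (vc - 1) P.Z
  have hvc2 := Nat.mod_lt (vc - 1) hZ
  have hgs1 : 1 ≤ (vb - 1) / P.Z := (Nat.one_le_div_iff hZ).2 (by omega)
  have hgc1 : 1 ≤ (vc - 1) / P.Z := (Nat.one_le_div_iff hZ).2 (by omega)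
  unfold MnV at hMn
  have hj : (vc - 1) % P.Z / (2 * P.b2) < P.Z / (2 * P.b2) := Nat.div_lt_div_of_lt_of_dvd hP.b2Z hvc2
  have hk := Nat.mod_lt ((vc - 1) % P.Z) hb20
  have hjk := Nat.div_add_mod ((vc - 1) % P.Z) (2 * P.b2)
  set gs := (vb - 1) / P.Z with hgs
  set gc := (vc - 1) / P.Z with hgc
  set rb := (vb - 1) % P.Z with hrb
  set rc := (vc - 1) % P.Z with hrc
  set j := rc / (2 * P.b2) with hjd
  set k := rc % (2 * P.b2) with hkd
  obtain ⟨i, hi⟩ : ∃ i, gc = i + 1 := ⟨gc - 1, by omega⟩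
  have hvb3 : vb = P.Z * gs + (rb + 1) := by omega
  have hvc3 : vc = P.Z * gc + (rc + 1) := by omega
  obtain ⟨b, hb1, hb3⟩ := cplg_carry (g := g) (gs := gs) (gc := gc) (lb := rb + 1) (lc := rc + 1) (L := Lo P.Z x)
    hZ (by omega) (by omega) (by omega) (by omega) hL1 hL2 (by omega)
  have hc1 : (if b then 1 else 0) ≤ 1 := by
    split_ifs <;> omega
  -- the position of `B`
  have hxb : x + (rc + 1) + (rb + 1) = P.Z * (x / P.Z + (if b then 1 else 0) + 1) := by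
    have h1 : P.Z * (x / P.Z + (if b then 1 else 0) + 1) = P.Z * (x / P.Z + 1) + P.Z * (if b then 1 else 0) := by
      ring
    rw [h1]
    omega
  obtain ⟨hxb1, hxb2⟩ := cplg_pt (by omega) (by omega) hxb
  have hNz : P.Z * (x / P.Z + 2) ≤ P.Nz * P.Z := by
    rw [Nat.mul_comm P.Nz]
    exact Nat.mul_le_mul_left _ (by omega)
  have hxb3 : x + (rc + 1) < P.Nz * P.Z := by
    have h1 : P.Z * (x / P.Z + (if b then 1 else 0) + 1) ≤ P.Z * (x / P.Z + 2) :=
      Nat.mul_le_mul_left _ (by omega)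
    omega
  have hmb := hB (x + (rc + 1)) gs hxb3 (by rw [hxb1]; omega) (by omega) (by rw [hxb2]; exact hvb3)
  rw [hi] at hMn
  have hq := q1_complete G hP M (B := B) (x := x) (xb := x + (rc + 1)) (k := k) (j := j) (g := g) (i := i)
    (gs := gs) (b := b) hg (by omega) hj hk hMn (by omega) hxb3 hxb1 (by omega) hmb
  -- the position of `C`
  have hZ2 : P.Z * (x / P.Z + 1 + 1) = P.Z * (x / P.Z + 1) + P.Z := by ring
  have hxc : P.Z * (x / P.Z + 1 + 1) - (rc + 1) + (rc + 1) = P.Z * (x / P.Z + 1 + 1) := by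
    omega
  obtain ⟨hxc1, hxc2⟩ := cplg_pt (by omega) (by omega) hxc
  have hxc3 : P.Z * (x / P.Z + 1 + 1) - (rc + 1) < P.Nz * P.Z := by
    have h1 : x / P.Z + 1 + 1 = x / P.Z + 2 := by omega
    rw [h1] at hZ2 ⊢
    omega
  have hxc4 : x ≤ P.Z * (x / P.Z + 1 + 1) - (rc + 1) := by omega
  have hmc := hC _ gc hxc3 (by rw [hxc1]) (by omega) (by rw [hxc2]; exact hvc3)
  rw [hi] at hmc
  have hl := LII_complete G hP M (C := C) (x := x) (k := k) (j := j) (g := g) (i := i) hg (by omega) hj hk hMn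
    hxc4 hxc3 (by rw [hxc2]; omega) hmc
  -- the right end
  obtain ⟨-, h2, h3, h4⟩ := M.mr_pp g hg i (by omega) j hj hMn
  obtain ⟨h5, h6⟩ := M.mu_at g hg
  refine at_cat.2 ⟨oMr P g i j + 1 + k, at_inter.2 ⟨hq, hl⟩, ?_⟩
  refine at_cat.2 ⟨oMr P g i j + 1 + k + 1, at_LC.2 ⟨rfl, h2 k hk⟩, ?_⟩
  refine at_cat.2 ⟨oMu P g - 1, at_ST.2 ⟨by omega, h6.lt.le, fun t ht1 ht2 => h4 t (by omega) ht2⟩, ?_⟩
  exact at_LC.2 ⟨by omega, h6⟩

end Pool.Agent.H29.CJ
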