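import Pool.Agent.H29.CJ.CpD
import Pool.Agent.H29.CJ.AtL

/-!
# Completeness of the lookups

Use only the STATEMENTS of `AtL` and the interface `Mdl`.

Notation: `Z = P.Z` etc.  Left letters: `M.left`: position `i < Nz Z` carries `a (Z ∣ i+1) (b1 ∣ i+1) (b2 ∣ i+1)`; as `b1 ∣ Z` a
`z` letter is a `zt` letter.  `Lo Z x = Z - x % Z`.
(0) `LkP`: let `y < Nz Z` with `Lo Z y = b1 j + 1`, `j < Z/b1`, `g < B`.  Then `At w LkP y (oRec g j)`.
 As `b1 ∣ Z` and `Z ∣ y + Lo Z y`, we get `b1 ∣ y + 1`: `y` is a `t` letter.  `j = 0`: `Lo = 1`, `y` is a `zt` letter, then `univ` from `y + 1` to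
 `oRec g 0 - 1` (`tau_at`), then `tau`.  `j = i + 1`: `y` is a `tt` letter (`Lo > 1`, not `z`); second alternative with `Sync` exponent `i`:
 from `y + 1` there are `i` steps `n* tt` of length `b1` each (for a position `q` with `b1 ∣ q`, `q + b1 < y + Lo Z y`: letters
 `q, ..., q + b1 - 2` are `n` letters, `q + b1 - 1` is `tt`), then `n* zt` up to `y + Lo Z y = y + 1 + b1 (i+1)`, then `univ` up to
 `oRec g 0 - 1`, `tau`, `Rec` from `oRec g 0` to `oRec g 1`, and `i` `Rec`s from `oRec g 1` to `oRec g (i+1)` (`rec_step`, `at_pw`).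
(1) `lkE_complete`: `Lo Z x = b1 j + k + 1`, `k < b1`: positions `x, ..., x + k - 1` are `n` letters, `y = x + k` has `Lo Z y = b1 j + 1`
 (no multiple of `b1` among `x + 1, ..., x + k`).  `k` may be `0`.
(2) `lkA_complete`: `Sync (LC isN) (LkP br) Row` with exponent `k`: `k` `n` letters, `LkP` from `x + k` to `oRec g j`, `br`, `k` rows from
 `oRow g j 0 = oRec g j + 1` to `oRow g j k`, then `row`, then `A` bits (`row_bit` for smaller indices).
(3) `mainLk_complete`: after the address, position `oRow g j k + 1 + A` carries `bit true` (`row_bit`), the segment up to `oMu g` ends with `mu`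
 (`mu_at`, `row_le`), weights `TM_row`, `TM_mu`.  `stLk_complete`: `bit false`, `sg_at`, `TS_row`, `TS_sg`; the inequality
 `oRow g j k + 1 + A < oSg g - 1` from `row_le`, `mu_io` and `io_at` (with `k = 0 < Nz`).
 `stEm_complete`: `rec_emp`, `rec_le`, `TS_rec`, `TS_sg`.
 Value: `m = Z g + Lo Z x = Z g + b1 j + k + 1`.
-/

set_option autoImplicit false

namespace Pool.Agent.H29.CJ

open Lt Classical

variable {K : ℕ} {P : Prm K} {w : List Lt}

private lemma cpk_Lo_pos {Z : ℕ} (hZ : 0 < Z) (x : ℕ) : 1 ≤ Lo Z x := by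
  have := Nat.mod_lt x hZ
  unfold Lo
  omega

private lemma cpk_Lo_le (Z x : ℕ) : Lo Z x ≤ Z := by
  unfold Lo
  omega

private lemma cpk_add_Lo {Z : ℕ} (hZ : 0 < Z) (x : ℕ) : x + Lo Z x = Z * (x / Z + 1) := by
  have h1 := Nat.mod_lt x hZ
  have h2 := Nat.div_add_mod x Z
  unfold Lo
  rw [Nat.mul_add, Nat.mul_one]
  omega

private lemma cpk_dvd {Z : ℕ} (hZ : 0 < Z) (x : ℕ) : Z ∣ x + Lo Z x := by
  rw [cpk_add_Lo hZ]
  exact Dvd.intro _ rfl

private lemma cpk_end {Z N x : ℕ} (hZ : 0 < Z) (hx : x < N * Z) : x + Lo Z x ≤ N * Z := by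
  rw [cpk_add_Lo hZ, Nat.mul_comm N Z]
  apply Nat.mul_le_mul_left
  exact (Nat.div_lt_iff_lt_mul hZ).2 hx

/-- a distance smaller than `b` from a multiple of `b` -/
private lemma cpk_not_dvd {b e q : ℕ} (he : b ∣ e) (h1 : q < e) (h2 : e < q + b) : ¬ b ∣ q := by
  intro h
  have h3 := Nat.dvd_sub he h
  have h4 := Nat.le_of_dvd (by omega) h3
  omega

private lemma cpk_not_dvd' {b e q : ℕ} (he : b ∣ e) (h1 : e < q) (h2 : q < e + b) : ¬ b ∣ q := by
  intro h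
  have h3 := Nat.dvd_sub h he
  have h4 := Nat.le_of_dvd (by omega) h3
  omega

private lemma cpk_Lo_add {Z x k : ℕ} (hZ : 0 < Z) (hk : k < Lo Z x) :
    Lo Z (x + k) = Lo Z x - k := by
  have h1 := Nat.mod_lt x hZ
  have h2 : (x + k) % Z = x % Z + k := by
    have h3 : x % Z + k < Z := by
      unfold Lo at hk
      omega
    rw [Nat.add_mod, Nat.mod_eq_of_lt (show k < Z by omega), Nat.mod_eq_of_lt h3]
  unfold Lo
  rw [h2]
  omega

private lemma cpk_isN (hP : P.Good) (M : Mdl P w) {i : ℕ} (hi : i < P.Nz * P.Z)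
    (h : ¬ P.b1 ∣ i + 1) : Is w i isN := by
  refine ⟨_, M.left i hi, ?_⟩
  have hZ : ¬ P.Z ∣ i + 1 := fun h' => h (hP.b1Z.trans h')
  refine ⟨decide (P.b2 ∣ i + 1), ?_⟩
  simp [lefL, h, hZ]

private lemma cpk_isTT (M : Mdl P w) {i : ℕ} (hi : i < P.Nz * P.Z)
    (h : P.b1 ∣ i + 1) (hZ : ¬ P.Z ∣ i + 1) : Is w i isTT := by
  refine ⟨_, M.left i hi, ?_⟩
  refine ⟨decide (P.b2 ∣ i + 1), ?_⟩
  simp [lefL, h, hZ]

private lemma cpk_isZT (hP : P.Good) (M : Mdl P w) {i : ℕ} (hi : i < P.Nz * P.Z)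
    (hZ : P.Z ∣ i + 1) : Is w i isZT := by
  refine ⟨_, M.left i hi, ?_⟩
  have h : P.b1 ∣ i + 1 := hP.b1Z.trans hZ
  refine ⟨decide (P.b2 ∣ i + 1), ?_⟩
  simp [lefL, h, hZ]

private lemma cpk_stN (hP : P.Good) (M : Mdl P w) {x y : ℕ} (hxy : x ≤ y)
    (hy : y ≤ P.Nz * P.Z) (h : ∀ t, x ≤ t → t < y → ¬ P.b1 ∣ t + 1) (hl : y ≤ w.length) :
    At w (ST isN) x y :=
  at_ST.2 ⟨hxy, hl, fun t h1 h2 => cpk_isN hP M (by omega) (h t h1 h2)⟩

private lemma cpk_len (M : Mdl P w) {g : ℕ} (hg : g < P.B) : P.Nz * P.Z ≤ w.length := by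
  obtain ⟨h1, h2, h3⟩ := M.tau_at g hg
  exact h3.trans h2.lt.le

private lemma cpk_tau (M : Mdl P w) {g y : ℕ} (hg : g < P.B) (hy : y ≤ P.Nz * P.Z) :
    At w (cat Set.univ (LC (· = tau))) y (oRec P g 0) := by
  obtain ⟨h1, h2, h3⟩ := M.tau_at g hg
  refine at_cat.2 ⟨oRec P g 0 - 1, at_univ.2 ⟨hy.trans h3, h2.lt.le⟩, at_LC.2 ⟨?_, h2⟩⟩
  omega

/-- the address of a record from a `t` letter -/
private lemma cpk_LkP (hP : P.Good) (M : Mdl P w) {y g j : ℕ} (hy : y < P.Nz * P.Z)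
    (hg : g < P.B) (hLo : Lo P.Z y = P.b1 * j + 1) :
    j < P.Z / P.b1 ∧ At w LkP y (oRec P g j) := by
  have hb := hP.b1pos
  have hZ := hP.Zpos
  have hle := cpk_Lo_le P.Z y
  have hend := cpk_end hZ hy
  have hdv := cpk_dvd hZ y
  have hj : j < P.Z / P.b1 := by
    obtain ⟨q, hq⟩ := hP.b1Z
    have hle' : P.b1 * j + 1 ≤ P.b1 * q := by rw [← hq, ← hLo]; exact hle
    rw [hq, Nat.mul_div_cancel_left q hb]
    by_contra hc
    have h1 : P.b1 * q ≤ P.b1 * j := Nat.mul_le_mul_left _ (by omega)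
    omega
  refine ⟨hj, ?_⟩
  have hdb : P.b1 ∣ y + Lo P.Z y := hP.b1Z.trans hdv
  have hyb : P.b1 ∣ y + 1 := by
    have e : y + Lo P.Z y = P.b1 * j + (y + 1) := by rw [hLo]; ring
    rw [e] at hdb
    exact (Nat.dvd_add_right (Dvd.intro _ rfl)).1 hdb
  have hlen := cpk_len M hg
  rcases j with _ | i
  · -- a z letter
    rw [Nat.mul_zero, Nat.zero_add] at hLo
    rw [hLo] at hdv hend
    refine at_union.2 (Or.inl (at_cat.2 ⟨y + 1, at_LC.2 ⟨rfl, cpk_isZT hP M hy hdv⟩, ?_⟩))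
    exact cpk_tau M hg hend
  · have he : y + Lo P.Z y = y + 1 + P.b1 * i + P.b1 := by rw [hLo]; ring
    have hnz : ∀ q, y ≤ q → q + 1 < y + Lo P.Z y → ¬ P.Z ∣ q + 1 := by
      intro q h1 h2
      refine cpk_not_dvd hdv h2 ?_
      omega
    refine at_union.2 (Or.inr (at_cat.2 ⟨y + 1, at_LC.2 ⟨rfl, cpk_isTT M hy hyb ?_⟩, ?_⟩))
    · apply hnz y le_rfl
      omega
    · refine at_Sync.2 ⟨i, y + 1 + P.b1 * i, oRec P g 1, ?_, ?_, ?_⟩
      · refine at_pw.2 ⟨by omega, fun t => y + 1 + P.b1 * t, by simp, rfl, ?_⟩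
        intro t ht
        have hti : P.b1 * (t + 1) ≤ P.b1 * i := Nat.mul_le_mul_left _ ht
        have e1 : P.b1 * (t + 1) = P.b1 * t + P.b1 := by ring
        have hq : P.b1 ∣ y + 1 + P.b1 * t := dvd_add hyb (Dvd.intro _ rfl)
        show At w (cat (ST isN) (LC isTT)) (y + 1 + P.b1 * t) (y + 1 + P.b1 * (t + 1))
        have e2 : y + 1 + P.b1 * (t + 1) = y + 1 + P.b1 * t + P.b1 := by rw [e1]; ring
        rw [e2]
        set q := y + 1 + P.b1 * t with hqd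
        refine at_cat.2 ⟨q + P.b1 - 1, ?_, at_LC.2 ⟨by omega, ?_⟩⟩
        · refine cpk_stN hP M (by omega) (by omega) ?_ (by omega)
          intro s h1 h2
          exact cpk_not_dvd' hq (by omega) (by omega)
        · apply cpk_isTT M (by omega)
          · have e3 : q + P.b1 - 1 + 1 = q + P.b1 := by omega
            rw [e3]
            exact dvd_add hq dvd_rfl
          · apply hnz
            · omega
            · omega
      · have hq : P.b1 ∣ y + 1 + P.b1 * i := dvd_add hyb (Dvd.intro _ rfl)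
        set q := y + 1 + P.b1 * i with hqd
        refine at_cat.2 ⟨q + P.b1 - 1, ?_, at_cat.2 ⟨q + P.b1, at_LC.2 ⟨by omega, ?_⟩, ?_⟩⟩
        · refine cpk_stN hP M (by omega) (by omega) ?_ (by omega)
          intro s h1 h2
          exact cpk_not_dvd' hq (by omega) (by omega)
        · apply cpk_isZT hP M (by omega)
          have e3 : q + P.b1 - 1 + 1 = q + P.b1 := by omega
          rw [e3, ← he]
          exact hdv
        · have h4 := cpk_tau M hg (show q + P.b1 ≤ P.Nz * P.Z by omega)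
          obtain ⟨k, h5, h6⟩ := at_cat.1 h4
          exact at_cat.2 ⟨k, h5, at_cat.2 ⟨oRec P g 0, h6, M.rec_step g hg 0 (by omega)⟩⟩
      · have hl : oRec P g (i + 1) ≤ w.length := (M.rec_step g hg i (by omega)).le_length
        refine at_pw.2 ⟨hl, fun t => oRec P g (t + 1), rfl, rfl, ?_⟩
        intro t ht
        exact M.rec_step g hg (t + 1) (by omega)

/-- the shift to the next `t` letter -/
private lemma cpk_shift (hP : P.Good) {x j k : ℕ} (hx : x < P.Nz * P.Z)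
    (hLo : Lo P.Z x = P.b1 * j + k + 1) (hk : k < P.b1) :
    x + k < P.Nz * P.Z ∧ Lo P.Z (x + k) = P.b1 * j + 1 ∧
      ∀ t, x ≤ t → t < x + k → ¬ P.b1 ∣ t + 1 := by
  have hZ := hP.Zpos
  have hend := cpk_end hZ hx
  refine ⟨by omega, ?_, ?_⟩
  · rw [cpk_Lo_add hZ (by omega)]
    omega
  · intro t h1 h2
    have hdb : P.b1 ∣ x + Lo P.Z x := hP.b1Z.trans (cpk_dvd hZ x)
    have e : x + Lo P.Z x = P.b1 * j + (x + k + 1) := by rw [hLo]; ring
    rw [e] at hdb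
    have hdk : P.b1 ∣ x + k + 1 := (Nat.dvd_add_right (Dvd.intro _ rfl)).1 hdb
    exact cpk_not_dvd hdk (by omega) (by omega)

theorem lkE_complete (hP : P.Good) (M : Mdl P w) {x g j k : ℕ} (hx : x < P.Nz * P.Z)
    (hg : g < P.B) (hLo : Lo P.Z x = P.b1 * j + k + 1) (hk : k < P.b1) :
    j < P.Z / P.b1 ∧ At w LkE x (oRec P g j) := by
  obtain ⟨h1, h2, h3⟩ := cpk_shift hP hx hLo hk
  obtain ⟨h4, h5⟩ := cpk_LkP hP M h1 hg h2
  refine ⟨h4, at_cat.2 ⟨x + k, ?_, h5⟩⟩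
  have hlen := cpk_len M hg
  exact cpk_stN hP M (by omega) h1.le h3 (by omega)

theorem lkA_complete (hP : P.Good) (M : Mdl P w) {x g j k : ℕ} (hx : x < P.Nz * P.Z)
    (hg : g < P.B) (hLo : Lo P.Z x = P.b1 * j + k + 1) (hk : k < P.b1) (hC : P.Cm g j)
    (A : Fin K) : At w (LkA A) x (oRow P g j k + 1 + A) := by
  obtain ⟨h1, h2, h3⟩ := cpk_shift hP hx hLo hk
  obtain ⟨h4, h5⟩ := cpk_LkP hP M h1 hg h2
  have hlen := cpk_len M hg
  have hr := M.row_step g hg j h4 hC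
  have hbit := M.row_bit g hg j h4 hC k hk
  have hrow := (hr k hk).2
  refine at_cat.2 ⟨oRow P g j k, ?_, ?_⟩
  · refine at_Sync.2 ⟨k, x + k, oRec P g j + 1, ?_, ?_, ?_⟩
    · refine at_pw_LC.2 ⟨rfl, by omega, fun t h6 h7 => ?_⟩
      exact cpk_isN hP M (by omega) (h3 t h6 h7)
    · exact at_cat.2 ⟨oRec P g j, h5, at_LC.2 ⟨rfl, M.rec_br g hg j h4 hC⟩⟩
    · refine at_pw.2 ⟨hrow.lt.le, fun t => oRow P g j t, ?_, rfl, ?_⟩
      · simp [oRow]
      · intro t ht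
        exact (hr t (by omega)).1
  · refine at_cat.2 ⟨oRow P g j k + 1, at_LC.2 ⟨rfl, hrow⟩, at_pw_LC.2 ⟨rfl, ?_, ?_⟩⟩
    · obtain ⟨h6, -⟩ := List.getElem?_eq_some_iff.1 (hbit A)
      exact h6.le
    · intro t h6 h7
      have hA := A.2
      have h8 := hbit ⟨t - (oRow P g j k + 1), by omega⟩
      have e : oRow P g j k + 1 + (t - (oRow P g j k + 1)) = t := by omega
      simp only [e] at h8
      exact ⟨_, h8, _, rfl⟩

/-- the coordinates of a value -/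
private lemma cpk_coord (hP : P.Good) {x g m : ℕ} (hm : m = P.Z * g + Lo P.Z x) :
    ∃ j k, Lo P.Z x = P.b1 * j + k + 1 ∧ k < P.b1 ∧ m = P.Z * g + P.b1 * j + k + 1 ∧
      (CmV P m ↔ P.Cm g j) := by
  have hZ := hP.Zpos
  have hL1 := cpk_Lo_pos hZ x
  have hL2 := cpk_Lo_le P.Z x
  have hd := Nat.div_add_mod (Lo P.Z x - 1) P.b1
  refine ⟨(Lo P.Z x - 1) / P.b1, (Lo P.Z x - 1) % P.b1, by omega,
    Nat.mod_lt _ hP.b1pos, by omega, ?_⟩
  have e1 : m - 1 = P.Z * g + (Lo P.Z x - 1) := by omega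
  have e2 : (m - 1) / P.Z = g := by
    rw [e1, Nat.mul_add_div hZ, Nat.div_eq_of_lt (by omega), Nat.add_zero]
  have e3 : (m - 1) % P.Z = Lo P.Z x - 1 := by
    rw [e1, Nat.mul_add_mod, Nat.mod_eq_of_lt (by omega)]
  unfold CmV
  rw [e2, e3]

/-- the last segment of a lookup -/
private lemma cpk_tail {c d : Lt} {f : Lt → ℤ} {q e : ℕ} (h1 : w[q]? = some c)
    (h2 : Is w (e - 1) (· = d)) (h3 : q < e - 1) (h4 : pre f w e = pre f w q) :
    At w ((cat (LC (· = c)) Set.univ ∩ cat Set.univ (LC (· = d))) ∩ WT f 0) q e := by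
  have h5 := h2.lt
  refine at_inter.2 ⟨at_inter.2 ⟨?_, ?_⟩, at_WT.2 ⟨by omega, by omega, by linarith⟩⟩
  · exact at_cat.2 ⟨q + 1, at_LC.2 ⟨rfl, c, h1, rfl⟩, at_univ.2 ⟨by omega, by omega⟩⟩
  · exact at_cat.2 ⟨e - 1, at_univ.2 ⟨by omega, by omega⟩, at_LC.2 ⟨by omega, h2⟩⟩

/-- a committed true value can be looked up -/
theorem mainLk_complete (hP : P.Good) (M : Mdl P w) {x g m : ℕ} (hx : x < P.Nz * P.Z)
    (hg : g < P.B) (hm : m = P.Z * g + Lo P.Z x) (hC : CmV P m) {A : Fin K} (hA : P.TT A m) :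
    At w (MainLk A) x (oMu P g) := by
  obtain ⟨j, k, h1, h2, h3, h4⟩ := cpk_coord hP hm
  have hC' := h4.1 hC
  have hj := (lkE_complete hP M hx hg h1 h2).1
  have hb := M.row_bit g hg j hj hC' k h2 A
  rw [← h3, decide_eq_true hA] at hb
  refine at_cat.2 ⟨_, lkA_complete hP M hx hg h1 h2 hC' A, ?_⟩
  refine cpk_tail hb (M.mu_at g hg).2 (M.row_le g hg j hj hC' k h2 A g hg) ?_
  rw [M.TM_mu g hg, M.TM_row g hg j hj hC' k h2 A]

private lemma cpk_mu_sg (hP : P.Good) (M : Mdl P w) {g : ℕ} (hg : g < P.B) :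
    oMu P g - 1 < oSg P g - 1 ∨ oMu P g ≤ oSg P g - 1 := by
  have h1 := M.mu_io g hg g hg 0
  have h2 := (M.io_at g hg 0 hP.Nzpos).2.2.1
  right
  omega

/-- a committed false value -/
theorem stLk_complete (hP : P.Good) (M : Mdl P w) {x g m : ℕ} (hx : x < P.Nz * P.Z)
    (hg : g < P.B) (hm : m = P.Z * g + Lo P.Z x) (hC : CmV P m) {A : Fin K} (hA : ¬ P.TT A m) :
    At w (StLk A) x (oSg P g) := by
  obtain ⟨j, k, h1, h2, h3, h4⟩ := cpk_coord hP hm
  have hC' := h4.1 hC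
  have hj := (lkE_complete hP M hx hg h1 h2).1
  have hb := M.row_bit g hg j hj hC' k h2 A
  rw [← h3, decide_eq_false hA] at hb
  refine at_cat.2 ⟨_, lkA_complete hP M hx hg h1 h2 hC' A, ?_⟩
  have h5 := M.row_le g hg j hj hC' k h2 A g hg
  have h6 := cpk_mu_sg hP M hg
  refine cpk_tail hb (M.sg_at g hg).2 (by omega) ?_
  rw [M.TS_sg g hg, M.TS_row g hg j hj hC' k h2 A]

/-- a value that is not committed -/
theorem stEm_complete (hP : P.Good) (M : Mdl P w) {x g m : ℕ} (hx : x < P.Nz * P.Z)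
    (hg : g < P.B) (hm : m = P.Z * g + Lo P.Z x) (hC : ¬ CmV P m) :
    At w StEm x (oSg P g) := by
  obtain ⟨j, k, h1, h2, h3, h4⟩ := cpk_coord hP hm
  have hC' : ¬ P.Cm g j := fun h => hC (h4.2 h)
  obtain ⟨hj, hE⟩ := lkE_complete hP M hx hg h1 h2
  refine at_cat.2 ⟨_, hE, ?_⟩
  have h5 := M.rec_le g hg j hj g hg
  have h6 := cpk_mu_sg hP M hg
  obtain ⟨c, hc, hce⟩ := M.rec_emp g hg j hj hC'
  have hce' : c = emp := hce
  rw [hce'] at hc
  refine cpk_tail hc (M.sg_at g hg).2 (by omega) ?_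
  rw [M.TS_sg g hg, M.TS_rec g hg j hj]

end Pool.Agent.H29.CJ
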