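import Pool.Agent.H29.CJ.CpLg
import Pool.Agent.H29.CJ.CpLk

/-!
# Completeness of the main claims

Use only the STATEMENTS of the imported files.

Strong induction on `m`.  If `CmV P m`: `mainLk_complete` (`S.TTeq`) and `sl_eq`.  Otherwise `Lo Z x > Y` by `S.hY`
(`m = Z g + Lo Z x`, so `(m-1) % Z + 1 = Lo Z x` and `m ≤ Z B`).  `G.Tiff`: the case `m = 1` would be committed
(`Lo Z x = 1 ≤ Y`).  So there is a rule `ρ`; for each `p ∈ ρ` we show `At w (Step G (Sl G) p) x (oMu g)` by `S.hsel p m`: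
 (i) `b + c = m`, `b < Y` (`T p.1 b`, `T p.2 c`): `0 < b` (`G.T0`), `b < Lo Z x`, so `y = x + b` is in the same block, `Lo Z y = Lo Z x - b`,
   no `z` letter in `[x, y)` (`M.left`: `z` iff `Z ∣ i + 1`), `c = Z g + Lo Z y`, main claim of `p.2` at `(y, oMu g)` by induction
   (`c / LY + 1 ≤ m / LY + 1 ≤ Nz - x/Z`).  This is `cat (UL G p.1 ∩ ST isNZ) (main p.2)`.  `c < Y` symmetric.
 (ii) `LY ≤ b`, `LY ≤ c`, `MnV P b ∨ MnV P c`: `Lg_complete` with `vb := b`, `vc := c` or the other way round; `LY > Z`; main claims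
   by induction: `b ≤ m - LY`, so `b / LY + 1 ≤ m / LY ≤ Nz - x/Z - 1 ≤ Nz - y/Z`; `x/Z + 1 < Nz` since `m / LY ≥ 2`.
 (iii) `CmV P m`: excluded.
-/

set_option autoImplicit false

namespace Pool.Agent.H29.CJ

open Lt Classical

variable {K : ℕ} (G : USys K) {P : Prm K} {w : List Lt}

/-- A short left factor inside the block. -/
private theorem CpMn_small (hP : P.Good) (M : Mdl P w) {C D : Fin K} {x g b : ℕ}
    (hx : x < P.Nz * P.Z) (hT : G.T D b) (hb : b < Lo P.Z x)
    (h : At w (Sl G (.main C)) (x + b) (oMu P g)) :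
    At w (cat (UL G D ∩ ST isNZ) (Sl G (.main C))) x (oMu P g) := by
  have hZ := hP.Zpos
  have hlo := add_Lo hZ x
  have hNz : x / P.Z + 1 ≤ P.Nz := (Nat.div_lt_iff_lt_mul hZ).2 hx
  have hle : P.Z * (x / P.Z + 1) ≤ P.Nz * P.Z := by
    rw [Nat.mul_comm P.Nz]
    exact Nat.mul_le_mul_left _ hNz
  have hxd : x / P.Z * P.Z ≤ x := Nat.div_mul_le_self x P.Z
  have hlen := h.le
  have hlen' := h.le_length
  have hleft : At w (ST isLeft) x (x + b) := by
    refine at_ST.2 ⟨by omega, by omega, fun t h1 h2 => ?_⟩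
    exact ⟨_, M.left t (by omega), _, _, _, rfl⟩
  refine at_cat.2 ⟨x + b, at_inter.2 ⟨⟨by omega, by omega, hleft.2.2, ?_⟩, ?_⟩, h⟩
  · rw [length_seg (by omega) (by omega), Nat.add_sub_cancel_left]
    exact hT
  · refine at_ST.2 ⟨by omega, by omega, fun t h1 h2 => ?_⟩
    refine ⟨_, M.left t (by omega), decide (P.b1 ∣ t + 1), decide (P.b2 ∣ t + 1), ?_⟩
    have hn : ¬ P.Z ∣ t + 1 := by
      rw [CntL_dvd hZ]
      have h3 := add_Lo hZ t
      have h4 : t / P.Z = x / P.Z := by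
        apply Nat.div_eq_of_lt_le
        · omega
        · rw [Nat.mul_comm]
          omega
      rw [h4] at h3
      omega
    unfold lefL
    rw [decide_eq_false hn]

/-- The next left position in the block. -/
private theorem CpMn_next (hP : P.Good) {x b : ℕ} (hx : x < P.Nz * P.Z) (hb : b < Lo P.Z x) :
    (x + b) / P.Z = x / P.Z ∧ Lo P.Z (x + b) = Lo P.Z x - b ∧ x + b < P.Nz * P.Z := by
  have hZ := hP.Zpos
  have hlo := add_Lo hZ x
  have hNz : x / P.Z + 1 ≤ P.Nz := (Nat.div_lt_iff_lt_mul hZ).2 hx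
  have hle : P.Z * (x / P.Z + 1) ≤ P.Nz * P.Z := by
    rw [Nat.mul_comm P.Nz]
    exact Nat.mul_le_mul_left _ hNz
  have hxd : x / P.Z * P.Z ≤ x := Nat.div_mul_le_self x P.Z
  have h4 : (x + b) / P.Z = x / P.Z := by
    apply Nat.div_eq_of_lt_le
    · omega
    · rw [Nat.mul_comm]
      omega
  have h3 := add_Lo hZ (x + b)
  rw [h4] at h3
  exact ⟨h4, by omega, by omega⟩

theorem main_complete {Y LY : ℕ} (S : Sel P G Y LY) (M : Mdl P w) (m : ℕ) :
    ∀ (A : Fin K) (x g : ℕ), G.T A m → m = P.Z * g + Lo P.Z x → g < P.B → x < P.Nz * P.Z →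
      m / LY + 1 ≤ P.Nz - x / P.Z → At w (Sl G (.main A)) x (oMu P g) := by
  induction m using Nat.strong_induction_on with
  | _ m ih =>
  intro A x g hT hm hg hx hN
  have hZ := S.good.Zpos
  have hLY : 0 < LY := lt_of_le_of_lt (Nat.zero_le _) S.ZLY
  have hlo1 := Lo_pos hZ x
  have hlo2 := Lo_le P.Z x
  rw [sl_eq]
  by_cases hC : CmV P m
  · exact at_union.2 (Or.inl (mainLk_complete S.good M hx hg hm hC ((S.TTeq A m).2 hT)))
  -- the value is not committed, so `Lo Z x > Y`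
  have hmB : m ≤ P.Z * P.B := by
    have h1 : P.Z * (g + 1) ≤ P.Z * P.B := Nat.mul_le_mul_left _ hg
    rw [Nat.mul_add, Nat.mul_one] at h1
    omega
  have hmod : (m - 1) % P.Z + 1 = Lo P.Z x := by
    have h1 : m - 1 = (Lo P.Z x - 1) + P.Z * g := by omega
    rw [h1, Nat.add_mul_mod_self_left, Nat.mod_eq_of_lt (by omega)]
    omega
  have hY : Y < Lo P.Z x := by
    by_contra hcon
    exact hC (S.hY m (by omega) hmB (by omega))
  have hY1 := S.Y1
  have hYLY := S.YLY
  have hZLY := S.ZLY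
  -- small steps
  have hsmall : ∀ C D : Fin K, ∀ b c, b + c = m → G.T D b → G.T C c → b < Y →
      At w (cat (UL G D ∩ ST isNZ) (Sl G (.main C))) x (oMu P g) := by
    intro C D b c hbc hb hc hbY
    have hb0 : 0 < b := by
      rcases Nat.eq_zero_or_pos b with h0 | h0
      · rw [h0] at hb
        exact absurd hb (G.T0 D)
      · exact h0
    obtain ⟨h1, h2, h3⟩ := CpMn_next S.good hx (show b < Lo P.Z x by omega)
    refine CpMn_small G S.good M hx hb (by omega) (ih c (by omega) C (x + b) g hc (by omega) hg h3 ?_)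
    rw [h1]
    have h4 : c / LY ≤ m / LY := Nat.div_le_div_right (by omega)
    omega
  -- large steps
  have hlarge : ∀ B C : Fin K, ∀ b c, b + c = m → G.T B b → G.T C c → LY ≤ b → LY ≤ c → MnV P c →
      At w (Lg (Sl G) B C) x (oMu P g) := by
    intro B C b c hbc hb hc hbL hcL hMn
    have hstep : ∀ d, d + LY ≤ m → d / LY + 1 ≤ m / LY := by
      intro d hd
      rw [← Nat.add_div_right d hLY]
      exact Nat.div_le_div_right hd
    have h2 : 2 ≤ m / LY := by
      rw [Nat.le_div_iff_mul_le hLY]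
      omega
    refine Lg_complete G S.good M hg hx (by omega) hm hbc (by omega) (by omega) hMn ?_ ?_
    · intro y g' hy hyx hg' hbv
      have h3 := hstep b (by omega)
      exact ih b (by omega) B y g' hb hbv hg' hy (by omega)
    · intro y g' hy hyx hg' hcv
      have h3 := hstep c (by omega)
      exact ih c (by omega) C y g' hc hcv hg' hy (by omega)
  rcases (G.Tiff A m).1 hT with ⟨h1, _⟩ | ⟨ρ, hρ, hall⟩
  · exfalso
    omega
  · refine at_union.2 (Or.inr ?_)
    have hall' : ∀ p ∈ ρ, At w (Step G (Sl G) p) x (oMu P g) := by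
      intro p hp
      obtain ⟨m₁, m₂, h1, h2, h3⟩ := hall p hp
      rcases S.hsel p m hmB ⟨m₁, m₂, h1, h2, h3⟩ with
        ⟨b, c, hbc, hb, hc, hY' | hY'⟩ | ⟨b, c, hbc, hb, hc, hbL, hcL, hMn | hMn⟩ | ⟨hcm, _⟩
      · exact at_union.2 (Or.inl (at_union.2 (Or.inr (hsmall p.2 p.1 b c hbc hb hc hY'))))
      · exact at_union.2 (Or.inl (at_union.2 (Or.inl
          (hsmall p.1 p.2 c b (by omega) hc hb hY'))))
      · exact at_union.2 (Or.inr (at_union.2 (Or.inr
          (hlarge p.2 p.1 c b (by omega) hc hb hcL hbL hMn))))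
      · exact at_union.2 (Or.inr (at_union.2 (Or.inl
          (hlarge p.1 p.2 b c hbc hb hc hbL hcL hMn))))
      · exact absurd hcm hC
    obtain ⟨p, hp⟩ := List.exists_mem_of_ne_nil ρ (G.ne A ρ hρ)
    have h1 := hall' p hp
    exact ⟨h1.1, h1.2.1, ρ, hρ, fun q hq => (hall' q hq).2.2⟩

end Pool.Agent.H29.CJ
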