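import Pool.Agent.H29.CJ.CntL

/-!
# Soundness of the table lookups

Use only the STATEMENTS of the imported files (`CntL`, `AtL`).

`Adr j k A`: record number `j`, row number `k`, bit number `A` of a table, read from just after its `tau`.

(0) `LkP`: if `At w LkP y e` then `y < ln`, `y` is a `t` letter, and for some `j, t`: `Lo Z y = b1 * j + 1`,
`Is w t tau`, `At w (pw Rec j) (t+1) e`.
 First alternative (`isZT` letter at `y`): `Lo Z y = 1` (`isZ_iff_Lo`), `j = 0`, `e = t + 1` (`pw Rec 0 = {[]}`, `at_eps`).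
 Second alternative: `y` is a `TT` letter, then by `at_Sync` there is `i` with: from `y + 1` a chain of `i` steps
 `n* tt` to `y₁`, then `n* zt` to `y₂` (so `y₂ - 1` is a `z` letter), then anything, `tau` at `t`, one `Rec`, and then `i`
 `Rec`s ending at `e`.  So `At w (pw Rec (i+1)) (t+1) e` (`pw_succ`).  A step `n* tt` (or `n* zt`) from a position `q` with
 `b1 ∣ q` leads to `q + b1`: the first `t` letter at or after `q` is at `q + b1 - 1` (`FS.ht`; all positions of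
 the step except the last are not `t` letters, and all positions are `< ln`).  So `y₁ = y + 1 + b1 i`,
 `y₂ = y + 1 + b1 (i+1)`, there is no `z` letter in `[y, y₂ - 1)`, and `y₂ - 1` is one, so
 `Lo Z y = y₂ - y = b1 (i + 1) + 1` (the next multiple of `Z` above `y` is `y₂`; use `FS.hz` and `add_Lo`).
(1) `LkE = n* LkP`: from `x` there are `k` letters `n` up to `y = x + k`, which is a `t` letter (so `y < ln`, hence `x < ln`); none of
 `x, ..., y - 1` is a `t` letter, `b1 ∣ y + 1`, so `k < b1`; no `z` letter in `[x, y)`, so `Lo Z x = k + Lo Z y`.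
(2) `LkA`: by `at_Sync` (`U = LC isN`, `V = Row`, `Z = LkP br`) there are `k` letters `n`, then `LkP` from `y = x + k` to the
 position of `br`, then `k` `Row`s, then `row`, then `A` bits.  Same computation as (1).
-/

set_option autoImplicit false

namespace Pool.Agent.H29.CJ

open Lt

/-- address of a bit, read from just after the `tau` of its table -/
def Adr (j k A : ℕ) : Set (List Lt) :=
  cat (pw Rec j) (cat (LC (· = br)) (cat (pw Row k) (cat (LC (· = row)) (pw (LC isBit) A))))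

variable {w : List Lt} {Z b1 b2 ln : ℕ}

private theorem lks_N (h : FS w Z b1 b2 ln) {i : ℕ} (hi : Is w i isN) :
    i < ln ∧ ¬ b1 ∣ i + 1 ∧ ¬ Z ∣ i + 1 := by
  have hl : i < ln := lt_ln h (hi.mono fun a ha => by
    obtain ⟨g, rfl⟩ := ha; exact ⟨_, _, _, rfl⟩)
  refine ⟨hl, ?_, ?_⟩
  · intro hd
    obtain ⟨a, _, ⟨g, h1⟩, ⟨z, g', h2⟩⟩ := hi.and ((h.ht i hl).2 hd)
    rw [h1] at h2
    injection h2 with e1 e2 e3
    exact Bool.false_ne_true e2
  · intro hd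
    obtain ⟨a, _, ⟨g, h1⟩, ⟨z, g', h2⟩⟩ := hi.and ((h.hz i hl).2 hd)
    rw [h1] at h2
    injection h2 with e1 e2 e3
    exact Bool.false_ne_true e1

private theorem lks_TT (h : FS w Z b1 b2 ln) {i : ℕ} (hi : Is w i isTT) :
    i < ln ∧ b1 ∣ i + 1 ∧ ¬ Z ∣ i + 1 := by
  have hl : i < ln := lt_ln h (hi.mono fun a ha => by
    obtain ⟨g, rfl⟩ := ha; exact ⟨_, _, _, rfl⟩)
  refine ⟨hl, ?_, ?_⟩
  · exact (h.ht i hl).1 (hi.mono fun a ha => by
      obtain ⟨g, rfl⟩ := ha; exact ⟨_, _, rfl⟩)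
  · intro hd
    obtain ⟨a, _, ⟨g, h1⟩, ⟨z, g', h2⟩⟩ := hi.and ((h.hz i hl).2 hd)
    rw [h1] at h2
    injection h2 with e1 e2 e3
    exact Bool.false_ne_true e1

private theorem lks_ZT (h : FS w Z b1 b2 ln) {i : ℕ} (hi : Is w i isZT) :
    i < ln ∧ b1 ∣ i + 1 ∧ Lo Z i = 1 := by
  have hl : i < ln := lt_ln h (hi.mono fun a ha => by
    obtain ⟨g, rfl⟩ := ha; exact ⟨_, _, _, rfl⟩)
  refine ⟨hl, ?_, ?_⟩
  · exact (h.ht i hl).1 (hi.mono fun a ha => by
      obtain ⟨g, rfl⟩ := ha; exact ⟨_, _, rfl⟩)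
  · exact (isZ_iff_Lo h hl).1 (hi.mono fun a ha => by
      obtain ⟨g, rfl⟩ := ha; exact ⟨_, _, rfl⟩)

private theorem lks_div {Z x y : ℕ} (hxy : x ≤ y) (hn : ∀ s, x ≤ s → s < y → ¬ Z ∣ s + 1) :
    y / Z = x / Z := by
  induction y, hxy using Nat.le_induction with
  | base => rfl
  | succ y hy ih =>
    rw [Nat.succ_div, if_neg (hn y hy (Nat.lt_succ_self y)), add_zero]
    exact ih (fun s h1 h2 => hn s h1 (by omega))

private theorem lks_Lo {Z x y : ℕ} (hZ : 0 < Z) (hxy : x ≤ y)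
    (hn : ∀ s, x ≤ s → s < y → ¬ Z ∣ s + 1) : Lo Z x = (y - x) + Lo Z y := by
  have h1 := add_Lo hZ x
  have h2 := add_Lo hZ y
  rw [lks_div hxy hn] at h2
  omega

/-- the first multiple of `b` after the multiple `q` -/
private theorem lks_next {b q y : ℕ} (hb : 0 < b) (hq : b ∣ q) (hqy : q ≤ y) (hy : b ∣ y + 1)
    (hn : ∀ s, q ≤ s → s < y → ¬ b ∣ s + 1) : y + 1 = q + b := by
  have h1 : b ∣ (y + 1) - q := Nat.dvd_sub hy hq
  have h2 : b ≤ (y + 1) - q := Nat.le_of_dvd (by omega) h1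
  rcases Nat.lt_or_ge (q + b) (y + 1) with h3 | h3
  · exfalso
    apply hn (q + b - 1) (by omega) (by omega)
    have h4 : q + b - 1 + 1 = q + b := by omega
    rw [h4]
    exact Nat.dvd_add hq (dvd_refl b)
  · omega

private theorem lks_step (h : FS w Z b1 b2 ln) {q q' : ℕ} (hq : b1 ∣ q)
    (hs : At w (cat (ST isN) (LC isTT)) q q') :
    q' = q + b1 ∧ ∀ s, q ≤ s → s < q' → ¬ Z ∣ s + 1 := by
  obtain ⟨y, h1, h2⟩ := at_cat.1 hs
  obtain ⟨h3, h4, h5⟩ := at_ST.1 h1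
  obtain ⟨rfl, h6⟩ := at_LC.1 h2
  obtain ⟨h7, h8, h9⟩ := lks_TT h h6
  refine ⟨lks_next h.b1pos hq h3 h8 (fun s h10 h11 => (lks_N h (h5 s h10 h11)).2.1), ?_⟩
  intro s h10 h11
  rcases Nat.lt_succ_iff_lt_or_eq.1 h11 with h12 | h12
  · exact (lks_N h (h5 s h10 h12)).2.2
  · rw [h12]; exact h9

private theorem lks_chain (h : FS w Z b1 b2 ln) (k : ℕ) : ∀ {q q' : ℕ}, b1 ∣ q →
    At w (pw (cat (ST isN) (LC isTT)) k) q q' →
    q' = q + b1 * k ∧ ∀ s, q ≤ s → s < q' → ¬ Z ∣ s + 1 := by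
  induction k with
  | zero =>
    intro q q' _ hs
    obtain ⟨rfl, _⟩ := at_eps.1 hs
    exact ⟨by simp, fun s h1 h2 => by omega⟩
  | succ k ih =>
    intro q q' hq hs
    obtain ⟨r, h1, h2⟩ := at_pw_succ.1 hs
    obtain ⟨h3, h4⟩ := lks_step h hq h1
    have hr : b1 ∣ r := by rw [h3]; exact Nat.dvd_add hq (dvd_refl b1)
    obtain ⟨h5, h6⟩ := ih hr h2
    refine ⟨by rw [h5, h3]; ring, ?_⟩
    intro s h7 h8
    rcases Nat.lt_or_ge s r with h9 | h9
    · exact h4 s h7 h9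
    · exact h6 s h9 h8

private theorem lks_P (h : FS w Z b1 b2 ln) {y e : ℕ} (hP : At w LkP y e) :
    y < ln ∧ b1 ∣ y + 1 ∧ ∃ t j, Lo Z y = b1 * j + 1 ∧ Is w t (· = tau) ∧
      At w (pw Rec j) (t + 1) e := by
  rcases at_union.1 hP with hP | hP
  · obtain ⟨k, h1, h2⟩ := at_cat.1 hP
    obtain ⟨rfl, h3⟩ := at_LC.1 h1
    obtain ⟨t, _, h5⟩ := at_cat.1 h2
    obtain ⟨rfl, h6⟩ := at_LC.1 h5
    obtain ⟨h7, h8, h9⟩ := lks_ZT h h3
    refine ⟨h7, h8, t, 0, by rw [h9]; simp, h6, ?_⟩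
    exact at_eps.2 ⟨rfl, hP.le_length⟩
  · obtain ⟨k, h1, h2⟩ := at_cat.1 hP
    obtain ⟨rfl, h3⟩ := at_LC.1 h1
    obtain ⟨h7, h8, h9⟩ := lks_TT h h3
    obtain ⟨i, i', j', h4, h5, h6⟩ := at_Sync.1 h2
    obtain ⟨h10, h11⟩ := lks_chain h i h8 h4
    obtain ⟨y3, h12, h13⟩ := at_cat.1 h5
    obtain ⟨h14, _, h15⟩ := at_ST.1 h12
    obtain ⟨y4, h16, h17⟩ := at_cat.1 h13
    obtain ⟨rfl, h18⟩ := at_LC.1 h16
    obtain ⟨t, _, h19⟩ := at_cat.1 h17
    obtain ⟨t', h20, h21⟩ := at_cat.1 h19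
    obtain ⟨rfl, h22⟩ := at_LC.1 h20
    obtain ⟨h23, h24, h25⟩ := lks_ZT h h18
    have hi' : b1 ∣ i' := by
      rw [h10]; exact Nat.dvd_add h8 (Nat.dvd_mul_right b1 i)
    have h26 : y3 + 1 = i' + b1 :=
      lks_next h.b1pos hi' h14 h24 (fun s h27 h28 => (lks_N h (h15 s h27 h28)).2.1)
    have hy3 : y ≤ y3 := by omega
    have h27 : Lo Z y = (y3 - y) + Lo Z y3 := by
      refine lks_Lo h.Zpos hy3 ?_
      intro s h28 h29
      rcases Nat.lt_or_ge s (y + 1) with h30 | h30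
      · have : s = y := by omega
        rw [this]; exact h9
      · rcases Nat.lt_or_ge s i' with h31 | h31
        · exact h11 s h30 h31
        · exact (lks_N h (h15 s h31 h29)).2.2
    refine ⟨h7, h8, t, i + 1, ?_, h22, at_pw_succ.2 ⟨j', h21, h6⟩⟩
    rw [h27, h25]
    have h32 : b1 * (i + 1) = b1 * i + b1 := by ring
    rw [h32]
    omega

/-- the number of `n` letters before the `t` letter at `y` is less than `b1` -/
private theorem lks_k (h : FS w Z b1 b2 ln) {x y : ℕ} (hxy : x ≤ y) (hy : b1 ∣ y + 1)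
    (hn : ∀ s, x ≤ s → s < y → Is w s isN) : y - x < b1 := by
  by_contra hc
  have hb := h.b1pos
  have h1 := (lks_N h (hn (y - b1) (by omega) (by omega))).2.1
  apply h1
  have h2 : y - b1 + 1 = (y + 1) - b1 := by omega
  rw [h2]
  exact Nat.dvd_sub hy (dvd_refl b1)

theorem lkE_sound (h : FS w Z b1 b2 ln) {x e : ℕ} (hE : At w LkE x e) :
    x < ln ∧ ∃ t j k, Lo Z x = b1 * j + k + 1 ∧ k < b1 ∧ Is w t (· = tau) ∧
      At w (pw Rec j) (t + 1) e := by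
  obtain ⟨y, h1, h2⟩ := at_cat.1 hE
  obtain ⟨h3, _, h5⟩ := at_ST.1 h1
  obtain ⟨h6, h7, t, j, h8, h9, h10⟩ := lks_P h h2
  have h11 := lks_Lo h.Zpos h3 (fun s h12 h13 => (lks_N h (h5 s h12 h13)).2.2)
  refine ⟨by omega, t, j, y - x, ?_, lks_k h h3 h7 h5, h9, h10⟩
  rw [h11, h8]
  ring

theorem lkA_sound (h : FS w Z b1 b2 ln) {A x e : ℕ} (hA : At w (LkA A) x e) :
    x < ln ∧ ∃ t j k, Lo Z x = b1 * j + k + 1 ∧ k < b1 ∧ Is w t (· = tau) ∧
      At w (Adr j k A) (t + 1) e := by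
  obtain ⟨p, h1, h2⟩ := at_cat.1 hA
  obtain ⟨k, y, j', h3, h4, h5⟩ := at_Sync.1 h1
  obtain ⟨rfl, _, h7⟩ := at_pw_LC.1 h3
  obtain ⟨q, h8, h9⟩ := at_cat.1 h4
  obtain ⟨h10, h11, t, j, h12, h13, h14⟩ := lks_P h h8
  have h15 := lks_Lo h.Zpos (Nat.le_add_right x k)
    (fun s h16 h17 => (lks_N h (h7 s h16 h17)).2.2)
  have h16 := lks_k h (Nat.le_add_right x k) h11 h7
  refine ⟨by omega, t, j, k, ?_, by omega, h13, ?_⟩
  · rw [h15, h12]
    have : x + k - x = k := by omega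
    rw [this]
    ring
  · exact at_cat.2 ⟨q, h14, at_cat.2 ⟨j', h9, at_cat.2 ⟨p, h5, h2⟩⟩⟩

end Pool.Agent.H29.CJ
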