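import Pool.Agent.H29.CJ.TrS
import Pool.Agent.H29.CJ.LkS

/-!
# The main system: unfolding and shape

Use only the STATEMENTS of the imported files.

* `phi_mono`: cases on `v`, `cat_mono`, unions, intersections.
* `sl_eq`: `Lfp_eq` with `phi_mono`.
* `q_shape` / `main_shape`: for `At w (Sl G v) x e` we show `x < ln`, `x < e` and, for `v = main A`, that `e - 1` is a `mu`
  letter.  Strong induction on `e - x`, then on the rank `main, q1, q2, q3 ↦ 0, 2, 1, 0`... : unfold once by `sl_eq`: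
  `main A`: `MainLk A`: `x < ln` by `lkA_sound`, and the second factor ends with `mu` (so `x < e`).  Rule: pick `p ∈ ρ`
  (`G.ne`): in `Step`, `UL G _` words are nonempty (`G.T0`), their first letter is a left letter (`lt_ln`), and the rest is
  a shorter `main` segment; `Lg`: the first factor is in `q1` (a shorter segment: it is followed by at least `rr` and `mu`)
  and the word ends with `mu`.
  `q1`: first letter left and at least one letter; or `q2` on a shorter segment.  `q2`: `Tr` (`tr_sound`) or `q3` on the same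
  segment.  `q3`: first letter `nz` or `z`.
-/

set_option autoImplicit false

namespace Pool.Agent.H29.CJ

open Lt

variable {K : ℕ} (G : USys K) {w : List Lt} {Z b1 b2 ln : ℕ}

theorem phi_mono (v : Vr K) (X Y : Vr K → Set (List Lt)) (hXY : ∀ i, X i ⊆ Y i) :
    Phi G v X ⊆ Phi G v Y := by
  have hLg : ∀ B C, Lg X B C ⊆ Lg Y B C := fun B C =>
    cat_mono (Set.inter_subset_inter (hXY _)
      (cat_mono subset_rfl (Set.inter_subset_inter subset_rfl (cat_mono (hXY _) subset_rfl))))
      subset_rfl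
  have hStep : ∀ p, Step G X p ⊆ Step G Y p := fun p =>
    Set.union_subset_union
      (Set.union_subset_union (cat_mono subset_rfl (hXY _)) (cat_mono subset_rfl (hXY _)))
      (Set.union_subset_union (hLg _ _) (hLg _ _))
  cases v with
  | main A =>
    apply Set.union_subset_union subset_rfl
    rintro u ⟨ρ, hρ, hu⟩
    exact ⟨ρ, hρ, fun p hp => hStep p (hu p hp)⟩
  | q1 B f =>
    apply Set.union_subset_union
    · apply Set.union_subset_union (cat_mono subset_rfl (cat_mono (hXY _) subset_rfl))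
      rintro u ⟨hf, hu⟩
      exact ⟨hf, cat_mono subset_rfl (cat_mono (hXY _) subset_rfl) hu⟩
    · exact cat_mono (hXY _) subset_rfl
  | q2 B f =>
    apply Set.union_subset_union
    · apply Set.union_subset_union (cat_mono subset_rfl (cat_mono (hXY _) subset_rfl))
      rintro u ⟨hf, hu⟩
      exact ⟨hf, cat_mono subset_rfl (cat_mono (hXY _) subset_rfl) hu⟩
    · exact hXY _
  | q3 B f =>
    apply Set.union_subset_union (cat_mono subset_rfl (cat_mono (hXY _) subset_rfl))
    rintro u ⟨hf, hu⟩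
    exact ⟨hf, cat_mono subset_rfl (cat_mono (hXY _) subset_rfl) hu⟩

theorem sl_eq (v : Vr K) : Sl G v = Phi G v (Sl G) := Lfp_eq (phi_mono G) v

private theorem msh_nz (h : FS w Z b1 b2 ln) {M : Set (List Lt)} {x e : ℕ}
    (hA : At w (cat (LC isNZ) M) x e) : x < ln ∧ x < e := by
  obtain ⟨k, h1, h2⟩ := at_cat.1 hA
  obtain ⟨rfl, h3⟩ := at_LC.1 h1
  refine ⟨lt_ln h (h3.mono ?_), h2.le⟩
  rintro a ⟨t, g, rfl⟩
  exact ⟨_, _, _, rfl⟩

private theorem msh_z (h : FS w Z b1 b2 ln) {M : Set (List Lt)} {x e : ℕ}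
    (hA : At w (cat (LC isZ) M) x e) : x < ln ∧ x < e := by
  obtain ⟨k, h1, h2⟩ := at_cat.1 hA
  obtain ⟨rfl, h3⟩ := at_LC.1 h1
  refine ⟨lt_ln h (h3.mono ?_), h2.le⟩
  rintro a ⟨t, g, rfl⟩
  exact ⟨_, _, _, rfl⟩

private theorem msh_tr (h : FS w Z b1 b2 ln) {M : Set (List Lt)} {f : Bool} {x e : ℕ}
    (hA : At w (cat (Tr f) M) x e) : x < ln ∧ x < e := by
  obtain ⟨k, h1, h2⟩ := at_cat.1 hA
  obtain ⟨h3, _, h5, _⟩ := tr_sound h h1
  have := h2.le
  have := h.b2pos
  exact ⟨h3, by omega⟩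

private theorem msh_q3 (h : FS w Z b1 b2 ln) {B : Fin K} {f : Bool} {x e : ℕ}
    (hA : At w (Sl G (.q3 B f)) x e) : x < ln ∧ x < e := by
  rw [sl_eq] at hA
  rcases at_union.1 hA with hA | hA
  · exact msh_nz h hA
  · exact msh_z h ((at_ite _ _).1 hA).2

private theorem msh_q2 (h : FS w Z b1 b2 ln) {B : Fin K} {f : Bool} {x e : ℕ}
    (hA : At w (Sl G (.q2 B f)) x e) : x < ln ∧ x < e := by
  rw [sl_eq] at hA
  rcases at_union.1 hA with hA | hA
  · rcases at_union.1 hA with hA | hA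
    · exact msh_tr h hA
    · exact msh_tr h ((at_ite _ _).1 hA).2
  · exact msh_q3 G h hA

private theorem msh_q1 (h : FS w Z b1 b2 ln) {B : Fin K} {f : Bool} {x e : ℕ}
    (hA : At w (Sl G (.q1 B f)) x e) : x < ln ∧ x < e := by
  rw [sl_eq] at hA
  rcases at_union.1 hA with hA | hA
  · rcases at_union.1 hA with hA | hA
    · exact msh_nz h hA
    · exact msh_z h ((at_ite _ _).1 hA).2
  · obtain ⟨k, h1, h2⟩ := at_cat.1 hA
    obtain ⟨h3, h4⟩ := msh_q2 G h h1
    have := h2.le
    exact ⟨h3, by omega⟩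

private theorem msh_lg (h : FS w Z b1 b2 ln) {B C : Fin K} {x e : ℕ}
    (hA : At w (Lg (Sl G) B C) x e) : x < ln ∧ x < e ∧ Is w (e - 1) (· = mu) := by
  obtain ⟨k, h1, h2⟩ := at_cat.1 hA
  obtain ⟨h3, h4⟩ := msh_q1 G h (at_inter.1 h1).1
  have h5 := h2.le
  obtain ⟨l, h6, h7⟩ := at_cat.1 h2
  obtain ⟨m, h8, h9⟩ := at_cat.1 h7
  obtain ⟨rfl, h10⟩ := at_LC.1 h9
  exact ⟨h3, by omega, by simpa using h10⟩

private theorem msh_ul (h : FS w Z b1 b2 ln) {A : Fin K} {S : Set (List Lt)} {x k : ℕ}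
    (hA : At w (UL G A ∩ S) x k) : x < ln ∧ x < k := by
  obtain ⟨h1, h2, h3, h4⟩ := (at_inter.1 hA).1
  have hlt : x < k := by
    rcases h1.lt_or_eq with hlt | rfl
    · exact hlt
    · exfalso
      rw [atl_seg_self] at h4
      exact G.T0 A h4
  refine ⟨?_, hlt⟩
  have h5 : At w (ST isLeft) x k := ⟨h1, h2, h3⟩
  exact lt_ln h ((at_ST.1 h5).2.2 x le_rfl hlt)

private theorem msh_main (h : FS w Z b1 b2 ln) (n : ℕ) : ∀ (A : Fin K) (x e : ℕ), e - x ≤ n →
    At w (Sl G (.main A)) x e → x < ln ∧ x < e ∧ Is w (e - 1) (· = mu) := by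
  induction n with
  | zero =>
    intro A x e hn hA
    have hxe : x = e := by have := hA.le; omega
    subst hxe
    exfalso
    rw [sl_eq] at hA
    rcases at_union.1 hA with hA | hA
    · obtain ⟨k, h1, h2⟩ := at_cat.1 hA
      obtain ⟨l, h3, h4⟩ := at_cat.1 (at_inter.1 (at_inter.1 h2).1).1
      obtain ⟨rfl, -⟩ := at_LC.1 h3
      have := h1.le
      have := h4.le
      omega
    · obtain ⟨h1, h2, ρ, hρ, h3⟩ := hA
      obtain ⟨p, hp⟩ := List.exists_mem_of_ne_nil ρ (G.ne A ρ hρ)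
      have h4 : At w (Step G (Sl G) p) x x := ⟨h1, h2, h3 p hp⟩
      rcases at_union.1 h4 with h4 | h4
      · rcases at_union.1 h4 with h4 | h4
        · obtain ⟨k, h5, h6⟩ := at_cat.1 h4
          have := (msh_ul G h h5).2
          have := h6.le
          omega
        · obtain ⟨k, h5, h6⟩ := at_cat.1 h4
          have := (msh_ul G h h5).2
          have := h6.le
          omega
      · rcases at_union.1 h4 with h4 | h4
        · have := (msh_lg G h h4).2.1
          omega
        · have := (msh_lg G h h4).2.1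
          omega
  | succ n ih =>
    intro A x e hn hA
    rw [sl_eq] at hA
    rcases at_union.1 hA with hA | hA
    · obtain ⟨k, h1, h2⟩ := at_cat.1 hA
      obtain ⟨h3, -⟩ := lkA_sound h h1
      have hk := h1.le
      obtain ⟨l, h5, h6⟩ := at_cat.1 (at_inter.1 (at_inter.1 h2).1).2
      obtain ⟨rfl, h7⟩ := at_LC.1 h6
      have := h5.le
      exact ⟨h3, by omega, by simpa using h7⟩
    · obtain ⟨h1, h2, ρ, hρ, h3⟩ := hA
      obtain ⟨p, hp⟩ := List.exists_mem_of_ne_nil ρ (G.ne A ρ hρ)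
      have h4 : At w (Step G (Sl G) p) x e := ⟨h1, h2, h3 p hp⟩
      rcases at_union.1 h4 with h4 | h4
      · rcases at_union.1 h4 with h4 | h4
        · obtain ⟨k, h5, h6⟩ := at_cat.1 h4
          obtain ⟨h7, h8⟩ := msh_ul G h h5
          obtain ⟨-, h9, h10⟩ := ih _ k e (by omega) h6
          exact ⟨h7, by omega, h10⟩
        · obtain ⟨k, h5, h6⟩ := at_cat.1 h4
          obtain ⟨h7, h8⟩ := msh_ul G h h5
          obtain ⟨-, h9, h10⟩ := ih _ k e (by omega) h6
          exact ⟨h7, by omega, h10⟩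
      · rcases at_union.1 h4 with h4 | h4
        · exact msh_lg G h h4
        · exact msh_lg G h h4

theorem main_shape (h : FS w Z b1 b2 ln) {A : Fin K} {x e : ℕ}
    (hA : At w (Sl G (.main A)) x e) : x < ln ∧ x < e ∧ Is w (e - 1) (· = mu) :=
  msh_main G h (e - x) A x e le_rfl hA

theorem q_shape (h : FS w Z b1 b2 ln) {v : Vr K} {x e : ℕ} (hA : At w (Sl G v) x e) :
    x < ln ∧ x < e := by
  cases v with
  | main A => exact ⟨(main_shape G h hA).1, (main_shape G h hA).2.1⟩
  | q1 B f => exact msh_q1 G h hA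
  | q2 B f => exact msh_q2 G h hA
  | q3 B f => exact msh_q3 G h hA

end Pool.Agent.H29.CJ
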