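import Pool.Agent.H29.CJ.CpTr
import Pool.Agent.H29.CJ.MSh

/-!
# Completeness of the peeling nonterminals

Use only the STATEMENTS of the imported files (`CpTr`, `MSh.sl_eq`, `AtL`).

Fix `B, gs, i, g, b` with `i < g < P.B`, `gs + (i + 1) + [b] = g` and the main claim at `(xb, oMu gs)`.
`RI b` holds from `oMu gs` to `oMr g i 0 = oGrp g i + 1`: it ends with the `cc` letter at `oGrp g i` (`grp_at`, and `oMu gs ≤ oGrp g i`
by `mu_le`, as `gs < g`), weight `RI_grp - RI_mu = g - (i+1) - (gs + 1) = [b] - 1`.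
Say that `(x, f)` is compatible with `(xb, b)` if: `f = true → b = true ∧ xb/Z = x/Z` and `f = false → xb/Z = x/Z + [b]`.
(q3) if `xb = x + 1`, compatible: `At (q3 B f) x (oMr g i 0)`: letter `x` is `nz` (if `xb/Z = x/Z`) or `z` (if `xb/Z = x/Z + 1`; then
 `f = false`, `b = true`), then main, then `RI b`.  In the `nz` case with `f = false`, `b = false`: `RI false`; with `f = true`: `b = true`, `RI true = RI f`.
 So in the `nz` case `b = f`.
(q2) if `xb = x + 2 b2 j + 1`, compatible, `j ≤ Z/(2 b2)`: `At (q2 B f) x (oMr g i j)`, induction on `j`: `j + 1`: `x' = x + 2 b2`; `x'/Z` is `x/Z` or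
 `x/Z + 1` (monotone, `x ≤ x' ≤ xb`, `xb/Z ≤ x/Z + 1`); use `Tr false` (flag stays) or `Tr true` (`f = false`, new flag `true`) by
 `tr_complete`, then `q2` from `x'`, then `Rec'` (`mr_step`).
(q1) if `xb = x + k + 2 b2 j + 1`, compatible, `k ≤ 2 b2`: `At (q1 B f) x (oMr g i j + 1 + k)`, induction on `k`: `k = 0`: `q2` and the `pp` letter
 (`mr_pp`); `k + 1`: first letter `nz` or `z` at `x`, `q1` from `x + 1`, and the `rr` letter at `oMr g i j + 1 + k`.
All left positions used are `< xb < Nz Z`.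
-/

set_option autoImplicit false

namespace Pool.Agent.H29.CJ

open Lt Classical

variable {K : ℕ} (G : USys K) {P : Prm K} {w : List Lt}

private def CpQ_c (Z xb : ℕ) (b : Bool) (x : ℕ) (f : Bool) : Prop :=
  (f = true → b = true ∧ xb / Z = x / Z) ∧ (f = false → xb / Z = x / Z + (if b then 1 else 0))

private theorem CpQ_step {Z xb x x' : ℕ} {b f : Bool} (h : CpQ_c Z xb b x f) (h1 : x ≤ x')
    (h2 : x' ≤ xb) : (x' / Z = x / Z ∧ CpQ_c Z xb b x' f) ∨
      (x' / Z = x / Z + 1 ∧ f = false ∧ CpQ_c Z xb b x' true) := by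
  have h3 := Nat.div_le_div_right (c := Z) h1
  have h4 := Nat.div_le_div_right (c := Z) h2
  obtain ⟨h5, h6⟩ := h
  unfold CpQ_c
  generalize x / Z = X at *
  generalize x' / Z = X' at *
  generalize xb / Z = Xb at *
  cases f <;> cases b <;> simp at h5 h6 ⊢ <;> omega

private theorem CpQ_z (M : Mdl P w) {x : ℕ} (hx : x < P.Nz * P.Z) (h : P.Z ∣ x + 1) :
    Is w x isZ := by
  refine ⟨_, M.left x hx, decide (P.b1 ∣ x + 1), decide (P.b2 ∣ x + 1), ?_⟩
  unfold lefL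
  rw [decide_eq_true h]

private theorem CpQ_nz (M : Mdl P w) {x : ℕ} (hx : x < P.Nz * P.Z) (h : ¬ P.Z ∣ x + 1) :
    Is w x isNZ := by
  refine ⟨_, M.left x hx, decide (P.b1 ∣ x + 1), decide (P.b2 ∣ x + 1), ?_⟩
  unfold lefL
  rw [decide_eq_false h]

private theorem CpQ_RI (M : Mdl P w) {g i gs : ℕ} {b : Bool} (hg : g < P.B) (hi : i < g)
    (hgs : gs + (i + 1) + (if b then 1 else 0) = g) : At w (RI b) (oMu P gs) (oMr P g i 0) := by
  have hgs' : gs < g := by
    cases b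
    · simp at hgs
      omega
    · simp at hgs
      omega
  have e : oMr P g i 0 = oGrp P g i + 1 := by
    unfold oMr
    simp
  obtain ⟨h1, h2⟩ := M.grp_at g hg i hi
  have h3 := M.mu_le g gs hg (by omega) hgs' i hi
  have h4 := h1.lt
  refine at_inter.2 ⟨at_cat.2 ⟨oGrp P g i, at_univ.2 ⟨h3, h4.le⟩, at_LC.2 ⟨e, h1⟩⟩,
    at_WT.2 ⟨by omega, by omega, ?_⟩⟩
  rw [M.RI_grp g hg i hi, M.RI_mu gs (by omega)]
  cases b
  · simp at hgs ⊢
    omega
  · simp at hgs ⊢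
    omega

private theorem CpQ_q3 (M : Mdl P w) {B : Fin K} {x xb g i gs : ℕ} {b f : Bool}
    (hg : g < P.B) (hi : i < g) (hxb : xb = x + 1) (hx : xb < P.Nz * P.Z)
    (hc : CpQ_c P.Z xb b x f)
    (hgs : gs + (i + 1) + (if b then 1 else 0) = g)
    (hmain : At w (Sl G (.main B)) xb (oMu P gs)) :
    At w (Sl G (.q3 B f)) x (oMr P g i 0) := by
  have hRI := CpQ_RI M hg hi hgs
  have hx' : x < P.Nz * P.Z := by omega
  have hsd := Nat.succ_div (a := x) (b := P.Z)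
  rw [sl_eq]
  by_cases hd : P.Z ∣ x + 1
  · rw [if_pos hd] at hsd
    have hb : f = false ∧ b = true := by
      obtain ⟨h5, h6⟩ := hc
      rw [hxb] at h5 h6
      rw [hsd] at h5 h6
      cases f <;> cases b <;> simp at h5 h6 ⊢
    refine at_union.2 (Or.inr ((at_ite _ _).2 ⟨hb.1, at_cat.2 ⟨x + 1, at_LC.2 ⟨rfl, CpQ_z M hx' hd⟩,
      at_cat.2 ⟨oMu P gs, ?_, ?_⟩⟩⟩))
    · rw [← hxb]
      exact hmain
    · rw [hb.2] at hRI
      exact hRI
  · rw [if_neg hd] at hsd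
    have hb : b = f := by
      obtain ⟨h5, h6⟩ := hc
      rw [hxb] at h5 h6
      rw [hsd] at h5 h6
      cases f <;> cases b <;> simp at h5 h6 ⊢
    refine at_union.2 (Or.inl (at_cat.2 ⟨x + 1, at_LC.2 ⟨rfl, CpQ_nz M hx' hd⟩,
      at_cat.2 ⟨oMu P gs, ?_, ?_⟩⟩))
    · rw [← hxb]
      exact hmain
    · rw [hb] at hRI
      exact hRI

private theorem CpQ_q2 (hP : P.Good) (M : Mdl P w) {B : Fin K} {xb g i gs : ℕ} {b : Bool}
    (hg : g < P.B) (hi : i < g) (hx : xb < P.Nz * P.Z)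
    (hgs : gs + (i + 1) + (if b then 1 else 0) = g)
    (hmain : At w (Sl G (.main B)) xb (oMu P gs)) (j : ℕ) :
    ∀ (x : ℕ) (f : Bool), j ≤ P.Z / (2 * P.b2) → xb = x + 2 * P.b2 * j + 1 →
      CpQ_c P.Z xb b x f → At w (Sl G (.q2 B f)) x (oMr P g i j) := by
  induction j with
  | zero =>
    intro x f _ hxb hc
    rw [sl_eq]
    exact at_union.2 (Or.inr (CpQ_q3 G M hg hi (by simpa using hxb) hx hc hgs hmain))
  | succ j ih =>
    intro x f hj hxb hc
    have hxb' : xb = (x + 2 * P.b2) + 2 * P.b2 * j + 1 := by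
      rw [hxb]
      ring
    have hle : x + 2 * P.b2 ≤ xb := by
      rw [hxb', Nat.add_assoc]
      exact Nat.le_add_right _ _
    have hstep := M.mr_step g hg i hi j (by omega)
    have hxl : x + 2 * P.b2 ≤ P.Nz * P.Z := by omega
    rw [sl_eq]
    rcases CpQ_step hc (Nat.le_add_right x (2 * P.b2)) hle with ⟨h1, h2⟩ | ⟨h1, h2, h3⟩
    · have hT := tr_complete (f := false) hP M hxl (by simpa using h1)
      exact at_union.2 (Or.inl (at_union.2 (Or.inl (at_cat.2 ⟨_, hT,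
        at_cat.2 ⟨_, ih _ f (by omega) hxb' h2, hstep⟩⟩))))
    · have hT := tr_complete (f := true) hP M hxl (by simpa using h1)
      exact at_union.2 (Or.inl (at_union.2 (Or.inr ((at_ite _ _).2 ⟨h2, at_cat.2 ⟨_, hT,
        at_cat.2 ⟨_, ih _ true (by omega) hxb' h3, hstep⟩⟩⟩))))

private theorem CpQ_q1 (hP : P.Good) (M : Mdl P w) {B : Fin K} {xb g i gs j : ℕ} {b : Bool}
    (hg : g < P.B) (hi : i < g) (hx : xb < P.Nz * P.Z)
    (hgs : gs + (i + 1) + (if b then 1 else 0) = g)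
    (hmain : At w (Sl G (.main B)) xb (oMu P gs)) (hj : j < P.Z / (2 * P.b2))
    (hMn : P.Mn (i + 1) j) (k : ℕ) :
    ∀ (x : ℕ) (f : Bool), k ≤ 2 * P.b2 → xb = x + k + 2 * P.b2 * j + 1 →
      CpQ_c P.Z xb b x f → At w (Sl G (.q1 B f)) x (oMr P g i j + 1 + k) := by
  obtain ⟨hpp, hrr, -, -⟩ := M.mr_pp g hg i hi j hj hMn
  induction k with
  | zero =>
    intro x f _ hxb hc
    rw [sl_eq]
    exact at_union.2 (Or.inr (at_cat.2 ⟨_, CpQ_q2 G hP M hg hi hx hgs hmain j x f hj.le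
      (by simpa using hxb) hc, at_LC.2 ⟨rfl, hpp⟩⟩))
  | succ k ih =>
    intro x f hk hxb hc
    have hxb' : xb = (x + 1) + k + 2 * P.b2 * j + 1 := by
      rw [hxb]
      ring
    have hle : x + 1 ≤ xb := by
      rw [hxb', Nat.add_assoc, Nat.add_assoc]
      exact Nat.le_add_right _ _
    have hxl : x < P.Nz * P.Z := by omega
    have hsd := Nat.succ_div (a := x) (b := P.Z)
    have hlast := hrr k (by omega)
    rw [sl_eq]
    rcases CpQ_step hc (Nat.le_add_right x 1) hle with ⟨h1, h2⟩ | ⟨h1, h2, h3⟩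
    · have hd : ¬ P.Z ∣ x + 1 := by
        intro hd
        rw [if_pos hd] at hsd
        omega
      exact at_union.2 (Or.inl (at_union.2 (Or.inl (at_cat.2 ⟨_, at_LC.2 ⟨rfl, CpQ_nz M hxl hd⟩,
        at_cat.2 ⟨_, ih _ f (by omega) hxb' h2, at_LC.2 ⟨rfl, hlast⟩⟩⟩))))
    · have hd : P.Z ∣ x + 1 := by
        by_contra hd
        rw [if_neg hd] at hsd
        omega
      exact at_union.2 (Or.inl (at_union.2 (Or.inr ((at_ite _ _).2 ⟨h2, at_cat.2 ⟨_,
        at_LC.2 ⟨rfl, CpQ_z M hxl hd⟩,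
        at_cat.2 ⟨_, ih _ true (by omega) hxb' h3, at_LC.2 ⟨rfl, hlast⟩⟩⟩⟩))))

theorem q1_complete (hP : P.Good) (M : Mdl P w) {B : Fin K} {x xb k j g i gs : ℕ} {b : Bool}
    (hg : g < P.B) (hi : i < g) (hj : j < P.Z / (2 * P.b2)) (hk : k < 2 * P.b2)
    (hMn : P.Mn (i + 1) j) (hxb : xb = x + k + 2 * P.b2 * j + 1) (hx : xb < P.Nz * P.Z)
    (hb : xb / P.Z = x / P.Z + (if b then 1 else 0))
    (hgs : gs + (i + 1) + (if b then 1 else 0) = g)
    (hmain : At w (Sl G (.main B)) xb (oMu P gs)) :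
    At w (Sl G (.q1 B false)) x (oMr P g i j + 1 + k) := by
  refine CpQ_q1 G hP M hg hi hx hgs hmain hj hMn k x false hk.le hxb ⟨?_, fun _ => hb⟩
  intro h
  exact absurd h (by decide)

end Pool.Agent.H29.CJ
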