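import Pool.Agent.H29.CJ.CpMn

/-!
# Completeness of the start claims

Use only the STATEMENTS of the imported files.

`x < Z`, `m = Z g + Lo Z x`, `Lo Z x = Z - x`, so `m + x = Z (g + 1)`.  `G.Tiff`:
* `m = 1`, base: `g = 0`, `Lo Z x = 1`, `x` is the `z` letter `Z - 1` (`M.left`), then no `sg` up to `oSg 0 - 1` (`sg_first`), `sg` (`sg_at`).
* rule `ρ`, `p ∈ ρ`: `S.hsel p m`: in cases (i) and (iii) there are `b + c = m` with `b < LY` or `c < LY` (`Y ≤ LY`); case (ii) large.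
 - `b < LY`, `T p.1 b`, `0 < b`: `y = x + b < Z + LY`, `k = y/Z ≤ LY/Z + 1`, so `k < Nz` and `y < Nz Z`; all letters of `[x, y)` are left letters, so
   `UL G p.1` at `[x, y)`.  `c = m - b = Z (g + 1) - y = Z (g - k) + Lo Z y` (`y + Lo Z y = Z (k+1)`; `c ≥ 1` gives `k ≤ g`).
   `main_complete` for `p.2` at `(y, oMu (g - k))`: `c / LY + 1 ≤ Z B / LY + 1 ≤ Nz - k` by `S.hNz`.
   `Gam`: with `q = oIo g k`: `RJ1` on `[y, q)`: `J1_io - J1_left = k - k = 0`; `RJ2` on `[oMu (g-k), q)`: ends with an `isIO` letter (`io_at`),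
   `J2_io - J2_mu = 1 + g - k - (g - k + 1) = 0`; order by `mu_io`; then non-`sg` letters up to `oSg g - 1` and `sg`.
   This is `cat (UL G p.1) (Gam G p.2)`.  The case `c < LY` is symmetric.
 - large: `Lg_complete` (main claims by `main_complete`: `b / LY + 1 ≤ Z B / LY + 1 ≤ Nz - (x/Z + 1) ≤ Nz - y/Z`) gives `Lg` on `[x, oMu g)`, then `RJ3` on
   `[oMu g, oSg g)`: ends with `sg`, `J3_sg - J3_mu = 1`.
-/

set_option autoImplicit false

namespace Pool.Agent.H29.CJ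

open Lt Classical

variable {K : ℕ} (G : USys K) {P : Prm K} {w : List Lt}

/-- the filler up to the next `sg` letter -/
private theorem CpSt_tail (M : Mdl P w) {g q : ℕ} (hg : g < P.B) (hq : q ≤ oSg P g - 1)
    (hn : ∀ t, q ≤ t → t < oSg P g - 1 → Is w t (· ≠ sg)) :
    At w (cat (ST (· ≠ sg)) (LC (· = sg))) q (oSg P g) := by
  obtain ⟨h1, h2⟩ := M.sg_at g hg
  refine at_cat.2 ⟨oSg P g - 1, at_ST.2 ⟨hq, h2.lt.le, hn⟩, at_LC.2 ⟨by omega, h2⟩⟩

/-- the left region lies before all `mu` letters -/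
private theorem CpSt_left (hP : P.Good) (M : Mdl P w) {g : ℕ} (hg : g < P.B) :
    P.Nz * P.Z < oMu P g := by
  have hz : 0 < P.Z / P.b1 := Nat.div_pos (Nat.le_of_dvd hP.Zpos hP.b1Z) hP.b1pos
  obtain ⟨h1, -, h3⟩ := M.tau_at g hg
  have h4 := M.rec_le g hg 0 hz g hg
  omega

private theorem CpSt_isLeft (M : Mdl P w) {t : ℕ} (ht : t < P.Nz * P.Z) : Is w t isLeft :=
  ⟨lefL P t, M.left t ht, _, _, _, rfl⟩

/-- the small steps -/
private theorem CpSt_small {Y LY : ℕ} (S : Sel P G Y LY) (M : Mdl P w) {B C : Fin K}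
    {b c m x g : ℕ} (hb : G.T B b) (hc : G.T C c) (hbc : b + c = m) (hbL : b < LY)
    (hm : m = P.Z * g + Lo P.Z x) (hg : g < P.B) (hx : x < P.Z) :
    At w (cat (UL G B) (Gam G C)) x (oSg P g) := by
  have hP := S.good
  have hZ := hP.Zpos
  have hb0 : 0 < b := Nat.pos_of_ne_zero (fun h => G.T0 B (h ▸ hb))
  have hc0 : 0 < c := Nat.pos_of_ne_zero (fun h => G.T0 C (h ▸ hc))
  obtain ⟨u, hu⟩ : ∃ u, u = LY / P.Z := ⟨_, rfl⟩
  obtain ⟨v, hv⟩ : ∃ v, v = P.Z * P.B / LY := ⟨_, rfl⟩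
  have hN := S.hNz
  rw [← hu, ← hv] at hN
  have hLo : Lo P.Z x = P.Z - x := by unfold Lo; rw [Nat.mod_eq_of_lt hx]
  obtain ⟨y, hy⟩ : ∃ y, y = x + b := ⟨_, rfl⟩
  obtain ⟨k, hk⟩ : ∃ k, k = y / P.Z := ⟨_, rfl⟩
  have hk1 : k ≤ u + 1 := by
    rw [hk, hu, ← Nat.add_div_right _ hZ]
    exact Nat.div_le_div_right (by omega)
  have hkN : k < P.Nz := by omega
  have hyN : y < P.Nz * P.Z := (Nat.div_lt_iff_lt_mul hZ).1 (hk ▸ hkN)
  have hdm : P.Z * k + y % P.Z = y := by rw [hk]; exact Nat.div_add_mod y P.Z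
  have hmod : y % P.Z < P.Z := Nat.mod_lt _ hZ
  have hsum : y + c = P.Z * g + P.Z := by omega
  have hkg : k ≤ g := by
    by_contra hcon
    have h1 : g + 1 ≤ k := by omega
    have h2 : P.Z * (g + 1) ≤ P.Z * k := Nat.mul_le_mul_left _ h1
    have h3 : P.Z * (g + 1) = P.Z * g + P.Z := by ring
    omega
  have hsub : P.Z * (g - k) = P.Z * g - P.Z * k := Nat.mul_sub _ _ _
  have hle : P.Z * k ≤ P.Z * g := Nat.mul_le_mul_left _ hkg
  have hcv : c = P.Z * (g - k) + Lo P.Z y := by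
    unfold Lo
    omega
  have hmB : P.Z * g + P.Z ≤ P.Z * P.B := by
    have h1 : P.Z * (g + 1) ≤ P.Z * P.B := Nat.mul_le_mul_left _ hg
    have h3 : P.Z * (g + 1) = P.Z * g + P.Z := by ring
    omega
  have hcL : c / LY ≤ v := hv ▸ Nat.div_le_div_right (by omega)
  have hmain := main_complete G S M c C y (g - k) hc hcv (by omega) hyN (by rw [← hk]; clear hu hv; omega)
  have hylen : y < w.length := (CpSt_isLeft M hyN).lt
  have hST : At w (ST isLeft) x y :=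
    at_ST.2 ⟨by omega, hylen.le, fun t _ ht2 => CpSt_isLeft M (by omega)⟩
  have hUL : At w (UL G B) x y := by
    refine ⟨by omega, hylen.le, hST.2.2, ?_⟩
    rw [length_seg (by omega) hylen.le]
    have : y - x = b := by omega
    rw [this]
    exact hb
  have hmu := CpSt_left hP M hg
  obtain ⟨i1, i2, i3, i4⟩ := M.io_at g hg k hkN
  obtain ⟨s1, s2⟩ := M.sg_at g hg
  have hslen := s2.lt
  have m1 := M.mu_io g hg g hg k
  have m2 := M.mu_io (g - k) (by omega) g hg k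
  have m3 : oMu P (g - k) ≤ oIo P g k - 1 := by
    by_contra hcon
    have h1 : oMu P (g - k) = oIo P g k := by omega
    obtain ⟨-, h2⟩ := M.mu_at (g - k) (by omega)
    rw [h1] at h2
    obtain ⟨a, -, h3, h4⟩ := h2.and i2
    rcases h4 with h4 | h4 <;>
    · rw [h3] at h4
      cases h4
  refine at_cat.2 ⟨y, hUL, at_cat.2 ⟨oIo P g k, at_inter.2 ⟨?_, at_cat.2 ⟨oMu P (g - k), hmain, ?_⟩⟩,
    CpSt_tail M hg i3 i4⟩⟩
  · refine at_WT.2 ⟨by omega, by omega, ?_⟩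
    rw [M.J1_io g hg k hkN, M.J1_left y hyN.le, ← hk]
    ring
  · refine at_inter.2 ⟨at_cat.2 ⟨oIo P g k - 1, at_univ.2 ⟨m3, by omega⟩,
      at_LC.2 ⟨by omega, i2⟩⟩, at_WT.2 ⟨m2, by omega, ?_⟩⟩
    rw [M.J2_io g hg k hkN, M.J2_mu (g - k) (by omega)]
    push_cast [hkg]
    ring

/-- the large steps -/
private theorem CpSt_large {Y LY : ℕ} (S : Sel P G Y LY) (M : Mdl P w) {B C : Fin K}
    {b c m x g : ℕ} (hb : G.T B b) (hc : G.T C c) (hbc : b + c = m) (hbL : LY ≤ b)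
    (hcL : LY ≤ c) (hMn : MnV P c) (hm : m = P.Z * g + Lo P.Z x) (hg : g < P.B)
    (hx : x < P.Z) : At w (cat (Lg (Sl G) B C) RJ3) x (oSg P g) := by
  have hP := S.good
  have hZ := hP.Zpos
  obtain ⟨u, hu⟩ : ∃ u, u = LY / P.Z := ⟨_, rfl⟩
  obtain ⟨v, hv⟩ : ∃ v, v = P.Z * P.B / LY := ⟨_, rfl⟩
  have hN := S.hNz
  rw [← hu, ← hv] at hN
  have hZL := S.ZLY
  have hLo : Lo P.Z x = P.Z - x := by unfold Lo; rw [Nat.mod_eq_of_lt hx]
  have hx0 : x / P.Z = 0 := Nat.div_eq_of_lt hx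
  have hmB : P.Z * g + P.Z ≤ P.Z * P.B := by
    have h1 : P.Z * (g + 1) ≤ P.Z * P.B := Nat.mul_le_mul_left _ hg
    have h3 : P.Z * (g + 1) = P.Z * g + P.Z := by ring
    omega
  have hbB : b / LY ≤ v := hv ▸ Nat.div_le_div_right (by omega)
  have hcB : c / LY ≤ v := hv ▸ Nat.div_le_div_right (by omega)
  have hxN : x < P.Nz * P.Z := by
    have : 1 * P.Z ≤ P.Nz * P.Z := Nat.mul_le_mul_right _ (by omega)
    omega
  have hLg : At w (Lg (Sl G) B C) x (oMu P g) := by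
    refine Lg_complete G hP M hg hxN (by omega) hm hbc (by omega) (by omega) hMn ?_ ?_
    · intro y g' hy hyx hg' hv
      exact main_complete G S M b B y g' hb hv hg' hy (by omega)
    · intro y g' hy hyx hg' hv
      exact main_complete G S M c C y g' hc hv hg' hy (by omega)
  obtain ⟨i1, i2, i3, i4⟩ := M.io_at g hg 0 hP.Nzpos
  obtain ⟨s1, s2⟩ := M.sg_at g hg
  have hslen := s2.lt
  have m1 := M.mu_io g hg g hg 0
  refine at_cat.2 ⟨oMu P g, hLg, at_inter.2 ⟨at_cat.2 ⟨oSg P g - 1, at_univ.2 ⟨by omega, by omega⟩,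
    at_LC.2 ⟨by omega, s2⟩⟩, at_WT.2 ⟨by omega, by omega, ?_⟩⟩⟩
  rw [M.J3_sg g hg, M.J3_mu g hg]
  ring

theorem sta_complete {Y LY : ℕ} (S : Sel P G Y LY) (M : Mdl P w) {A : Fin K} {m x g : ℕ}
    (hT : G.T A m) (hm : m = P.Z * g + Lo P.Z x) (hg : g < P.B) (hx : x < P.Z) :
    At w (Sta G A) x (oSg P g) := by
  have hP := S.good
  have hZ := hP.Zpos
  have hN : 4 ≤ P.Nz := (Nat.le_add_left 4 _).trans S.hNz
  have hLo : Lo P.Z x = P.Z - x := by unfold Lo; rw [Nat.mod_eq_of_lt hx]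
  have hmB : P.Z * g + P.Z ≤ P.Z * P.B := by
    have h1 : P.Z * (g + 1) ≤ P.Z * P.B := Nat.mul_le_mul_left _ hg
    have h3 : P.Z * (g + 1) = P.Z * g + P.Z := by ring
    omega
  have hxN : x < P.Nz * P.Z := by
    have : 1 * P.Z ≤ P.Nz * P.Z := Nat.mul_le_mul_right _ (by omega)
    omega
  rcases (G.Tiff A m).1 hT with ⟨h1, hbase⟩ | ⟨ρ, hρ, hp⟩
  · -- base case
    have hg0 : g = 0 := by
      by_contra hcon
      have : P.Z * 1 ≤ P.Z * g := Nat.mul_le_mul_left _ (by omega)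
      omega
    subst hg0
    have hx1 : x + 1 = P.Z := by
      rw [Nat.mul_zero] at hm
      omega
    have hisZ : Is w x isZ := by
      refine ⟨lefL P x, M.left x hxN, decide (P.b1 ∣ x + 1), decide (P.b2 ∣ x + 1), ?_⟩
      unfold lefL
      rw [decide_eq_true (show P.Z ∣ x + 1 by rw [hx1])]
    have hmu := CpSt_left hP M hg
    obtain ⟨i1, i2, i3, i4⟩ := M.io_at 0 hg 0 hP.Nzpos
    have m1 := M.mu_io 0 hg 0 hg 0
    have hcat : At w (cat (LC isZ) (cat (ST (· ≠ sg)) (LC (· = sg)))) x (oSg P 0) :=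
      at_cat.2 ⟨x + 1, at_LC.2 ⟨rfl, hisZ⟩, CpSt_tail M hg (by omega)
        (fun t _ ht => M.sg_first t ht)⟩
    exact ⟨hcat.1, hcat.2.1, Or.inl ⟨hbase, hcat.2.2⟩⟩
  · -- rules
    have key : ∀ p ∈ ρ, At w (StStep G p) x (oSg P g) := by
      intro p hpρ
      rcases S.hsel p m (by omega) (hp p hpρ) with ⟨b, c, e1, e2, e3, e4⟩ |
        ⟨b, c, e1, e2, e3, e4, e5, e6⟩ | ⟨-, b, c, e1, e2, e3, e4⟩
      · have hY := S.YLY
        rcases e4 with e4 | e4
        · exact at_union.2 (Or.inl (at_union.2 (Or.inr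
            (CpSt_small G S M e2 e3 e1 (by omega) hm hg hx))))
        · exact at_union.2 (Or.inl (at_union.2 (Or.inl
            (CpSt_small G S M e3 e2 (by omega) (by omega) hm hg hx))))
      · rcases e6 with e6 | e6
        · have h := CpSt_large G S M e3 e2 (by omega) e5 e4 e6 hm hg hx
          exact at_union.2 (Or.inr (h.mono (cat_mono Set.subset_union_right subset_rfl)))
        · have h := CpSt_large G S M e2 e3 e1 e4 e5 e6 hm hg hx
          exact at_union.2 (Or.inr (h.mono (cat_mono Set.subset_union_left subset_rfl)))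
      · rcases e4 with e4 | e4
        · exact at_union.2 (Or.inl (at_union.2 (Or.inr
            (CpSt_small G S M e2 e3 e1 e4 hm hg hx))))
        · exact at_union.2 (Or.inl (at_union.2 (Or.inl
            (CpSt_small G S M e3 e2 (by omega) e4 hm hg hx))))
    obtain ⟨p0, hp0⟩ := List.exists_mem_of_ne_nil ρ (G.ne A ρ hρ)
    have h0 := key p0 hp0
    exact ⟨h0.1, h0.2.1, Or.inr ⟨ρ, hρ, fun p hpρ => (key p hpρ).2.2⟩⟩

end Pool.Agent.H29.CJ
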