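import Pool.Agent.H29.CJ.CpD
import Pool.Agent.H29.CJ.AtL

/-!
# Completeness of the exact translations

Use only the STATEMENTS of `AtL` and the interface `Mdl`.

Let `β = b2`, `y = x + 2β ≤ Nz Z`.  All letters of `[x, y)` are left letters (`M.left`).  The number of `g` letters (`β ∣ i + 1`) in
`[x, x + 2β)` is `2` and the number of `z` letters is `y/Z - x/Z` (counting multiples: `pre cG w i = i/β`, `pre cZ w i = i/Z` for
`i ≤ Nz Z`, by induction with `pre_succ` and `Nat.succ_div`).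
`cat EqG EqG`: let `r = β - x % β` (`1 ≤ r ≤ β`), so `β ∣ x + r`, position `x + r - 1` is a `g` letter.  First part `[x, x + 2r)`: `EqG` with
exponent `r - 1`: `r - 1` left letters, the `g` letter, `r - 1` left letters, one left letter (`at_Sync_LC`).  Second part
`[x + 2r, x + 2β)`: if `r = β` empty; otherwise exponent `β - r - 1`: position `x + 2r + (β - r) - 1 = x + r + β - 1` is a `g` letter.
-/

set_option autoImplicit false

namespace Pool.Agent.H29.CJ

open Lt Classical

variable {K : ℕ} {P : Prm K} {w : List Lt}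

private theorem CpTr_left (M : Mdl P w) {i : ℕ} (hi : i < P.Nz * P.Z) : Is w i isLeft :=
  ⟨lefL P i, M.left i hi, _, _, _, rfl⟩

private theorem CpTr_len (M : Mdl P w) {y : ℕ} (hy : y ≤ P.Nz * P.Z) : y ≤ w.length := by
  rcases Nat.eq_zero_or_pos y with h | h
  · omega
  · have := (CpTr_left M (show y - 1 < P.Nz * P.Z by omega)).lt
    omega

private theorem CpTr_g (M : Mdl P w) {i : ℕ} (hi : i < P.Nz * P.Z) (h : P.b2 ∣ i + 1) :
    Is w i isG := by
  refine ⟨lefL P i, M.left i hi, decide (P.Z ∣ i + 1), decide (P.b1 ∣ i + 1), ?_⟩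
  unfold lefL
  rw [decide_eq_true h]

private theorem CpTr_preG (M : Mdl P w) {i : ℕ} (hi : i ≤ P.Nz * P.Z) :
    pre cG w i = ((i / P.b2 : ℕ) : ℤ) := by
  induction i with
  | zero => rw [pre_zero, Nat.zero_div]; rfl
  | succ i ih =>
    rw [pre_succ (M.left i (by omega)), ih (by omega), Nat.succ_div]
    by_cases h : P.b2 ∣ i + 1
    · rw [if_pos h]
      have : cG (lefL P i) = 1 := by
        unfold lefL
        rw [decide_eq_true h]
        rfl
      rw [this]
      push_cast
      ring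
    · rw [if_neg h]
      have : cG (lefL P i) = 0 := by
        unfold lefL
        rw [decide_eq_false h]
        rfl
      rw [this]
      push_cast
      ring

private theorem CpTr_preZ (M : Mdl P w) {i : ℕ} (hi : i ≤ P.Nz * P.Z) :
    pre cZ w i = ((i / P.Z : ℕ) : ℤ) := by
  induction i with
  | zero => rw [pre_zero, Nat.zero_div]; rfl
  | succ i ih =>
    rw [pre_succ (M.left i (by omega)), ih (by omega), Nat.succ_div]
    by_cases h : P.Z ∣ i + 1
    · rw [if_pos h]
      have : cZ (lefL P i) = 1 := by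
        unfold lefL
        rw [decide_eq_true h]
        rfl
      rw [this]
      push_cast
      ring
    · rw [if_neg h]
      have : cZ (lefL P i) = 0 := by
        unfold lefL
        rw [decide_eq_false h]
        rfl
      rw [this]
      push_cast
      ring

private theorem CpTr_eq0 (M : Mdl P w) {p : ℕ} (hp : p ≤ P.Nz * P.Z) : At w EqG p p :=
  at_union.2 (Or.inl (at_eps.2 ⟨rfl, CpTr_len M hp⟩))

private theorem CpTr_eq1 (M : Mdl P w) {p a : ℕ} (hp : p + 2 * (a + 1) ≤ P.Nz * P.Z)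
    (hd : P.b2 ∣ p + a + 1) : At w EqG p (p + 2 * (a + 1)) := by
  have hlen := CpTr_len M hp
  refine at_union.2 (Or.inr (at_cat.2 ⟨p + 2 * a + 1, at_Sync_LC.2
    ⟨a, p + a + 1, by omega, by omega, at_LC.2 ⟨rfl, CpTr_g M (by omega) hd⟩,
      fun t _ ht => CpTr_left M (by omega), fun t _ ht => CpTr_left M (by omega)⟩,
    at_LC.2 ⟨by omega, CpTr_left M (by omega)⟩⟩))

theorem tr_complete (hP : P.Good) (M : Mdl P w) {x : ℕ} {f : Bool}
    (hx : x + 2 * P.b2 ≤ P.Nz * P.Z)
    (hf : (x + 2 * P.b2) / P.Z = x / P.Z + (if f then 1 else 0)) :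
    At w (Tr f) x (x + 2 * P.b2) := by
  have hβ := hP.b2pos
  have hlen := CpTr_len M hx
  have hcat : At w (cat EqG EqG) x (x + 2 * P.b2) := by
    have hm := Nat.mod_lt x hβ
    have hdm := Nat.div_add_mod x P.b2
    obtain ⟨r, hr⟩ : ∃ r, r = P.b2 - x % P.b2 := ⟨_, rfl⟩
    have hd : P.b2 ∣ x + r := by
      refine ⟨x / P.b2 + 1, ?_⟩
      rw [Nat.mul_add, Nat.mul_one]
      omega
    obtain ⟨s, rfl⟩ : ∃ s, r = s + 1 := ⟨r - 1, by omega⟩
    refine at_cat.2 ⟨x + 2 * (s + 1), CpTr_eq1 M (by omega) hd, ?_⟩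
    rcases Nat.eq_or_lt_of_le (show s + 1 ≤ P.b2 by omega) with h | h
    · rw [h]
      exact CpTr_eq0 M hx
    · obtain ⟨t, ht⟩ : ∃ t, P.b2 = s + 1 + (t + 1) := ⟨P.b2 - (s + 1) - 1, by omega⟩
      have hd2 : P.b2 ∣ x + 2 * (s + 1) + t + 1 := by
        have e : x + 2 * (s + 1) + t + 1 = (x + (s + 1)) + P.b2 := by omega
        rw [e]
        exact Dvd.dvd.add hd (dvd_refl _)
      have h3 := CpTr_eq1 M (p := x + 2 * (s + 1)) (a := t) (by omega) hd2
      have e : x + 2 * (s + 1) + 2 * (t + 1) = x + 2 * P.b2 := by omega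
      rw [e] at h3
      exact h3
  refine at_inter.2 ⟨at_inter.2 ⟨hcat, at_ST.2 ⟨by omega, hlen, fun t _ ht => CpTr_left M (by omega)⟩⟩,
    at_inter.2 ⟨at_WT.2 ⟨by omega, hlen, ?_⟩, at_WT.2 ⟨by omega, hlen, ?_⟩⟩⟩
  · rw [CpTr_preG M hx, CpTr_preG M (by omega), Nat.add_mul_div_right _ _ hβ]
    push_cast
    ring
  · rw [CpTr_preZ M hx, CpTr_preZ M (by omega), hf]
    cases f
    · simp
    · simp

end Pool.Agent.H29.CJ
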