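import Pool.Agent.H29.CJ.CpSt

/-!
# The certificate word belongs to the language

Use only the STATEMENTS of the imported files.

`AllSuf`: `at_full`, `at_AllSuf`, `at_AllPre`: let `t < w.length` be a position such that all positions before it are `nz` letters, and `s ≥ t`
an `sg` letter; then `t < Z` (position `Z - 1` is a `z` letter), `s = oSg g - 1` with `g < B` (`sg_only`), and we need `At w (OK G A) t (oSg g)` for
all `A`: with `m = Z g + Lo Z t`: if `G.T A m` use `sta_complete`; otherwise `stLk_complete` or `stEm_complete` according to `CmV P m`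
(`S.TTeq`).  The set `{w | ∀ A, w ∈ OK G A}` at a segment: unfold `At` (for the empty index set `K = 0` nothing to do; here `K = k + 1`).
`Sta G 0` on the whole word: `sta_complete` with `x = 0`, `g = B - 1`, `m = Z (B - 1) + Z = Z B`, `sg_last`.
-/

set_option autoImplicit false

namespace Pool.Agent.H29.CJ

open Lt Classical

variable {k : ℕ} (G : USys (k + 1)) {P : Prm (k + 1)} {w : List Lt}

theorem WG_complete {Y LY : ℕ} (S : Sel P G Y LY) (M : Mdl P w) (hF : w ∈ Fmt)
    (hT : G.T 0 (P.Z * P.B)) : w ∈ WG G := by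
  have hZ := S.good.Zpos
  have hB := S.good.Bpos
  have hN := S.good.Nzpos
  have hZN : P.Z ≤ P.Nz * P.Z := Nat.le_mul_of_pos_left _ hN
  refine ⟨hF, ?_, ?_⟩
  · refine at_full.1 (at_AllSuf.2 ⟨Nat.zero_le _, le_rfl, fun t _ ht2 hnz => ?_⟩)
    refine at_AllPre.2 ⟨ht2.le, le_rfl, fun s hs1 hs2 hsg => ?_⟩
    -- `t < Z`
    have htZ : t < P.Z := by
      by_contra hc
      obtain ⟨a, ha, z1, z2, hz⟩ := hnz (P.Z - 1) (Nat.zero_le _) (by omega)
      have h1 := M.left (P.Z - 1) (by omega)
      rw [ha, hz] at h1
      have h2 := Option.some.inj h1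
      have h3 : P.Z - 1 + 1 = P.Z := by omega
      unfold lefL at h2
      rw [h3] at h2
      simp at h2
    have htN : t < P.Nz * P.Z := by omega
    obtain ⟨g, hg, hs⟩ := M.sg_only s hsg
    have hpos := (M.sg_at g hg).1
    have hs' : s + 1 = oSg P g := by omega
    rw [hs']
    have key : ∀ A, At w (OK G A) t (oSg P g) := by
      intro A
      by_cases hA : G.T A (P.Z * g + Lo P.Z t)
      · exact (sta_complete G S M hA rfl hg htZ).mono (fun _ hu => Or.inl hu)
      · by_cases hC : CmV P (P.Z * g + Lo P.Z t)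
        · exact (stLk_complete S.good M (A := A) htN hg rfl hC
            (fun h => hA ((S.TTeq A _).1 h))).mono (fun _ hu => Or.inr (Or.inl hu))
        · exact (stEm_complete S.good M htN hg rfl hC).mono (fun _ hu => Or.inr (Or.inr hu))
    exact ⟨(key 0).1, (key 0).2.1, fun A => (key A).2.2⟩
  · have h1 : P.Z * P.B = P.Z * (P.B - 1) + Lo P.Z 0 := by
      unfold Lo
      rw [Nat.zero_mod, Nat.sub_zero, ← Nat.mul_succ]
      congr 1
      omega
    have h2 := sta_complete G S M (x := 0) (g := P.B - 1) hT h1 (by omega) hZ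
    rw [M.sg_last] at h2
    exact at_full.1 h2

end Pool.Agent.H29.CJ
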