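import Pool.Agent.H29.CJ.FlM

/-!
# The measure of the certificate word

Use only the STATEMENTS of the imported files (`FlM`, `AtL`).

`leftW P = (List.range (Nz Z)).map (lefL P)`; split at `Z - 1 < Nz Z`: `p` = the first `Z - 1` letters (`nz` letters: `Z ∣ i + 1` fails for
`i + 1 < Z`), then the `z` letter `lefL P (Z - 1)`.  `count sg`: only `stW P` contains `sg`, each `szW P` once: `B`
(`List.count_append`, `List.count_flatMap`).
-/

set_option autoImplicit false

namespace Pool.Agent.H29.CJ

open Lt Classical

private theorem cpz_left {K : ℕ} (P : Prm K) : Lt.sg ∉ leftW P := by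
  intro h
  obtain ⟨i, -, hi⟩ := List.mem_map.1 h
  simp [lefL] at hi

private theorem cpz_rec {K : ℕ} (P : Prm K) (g j : ℕ) : Lt.sg ∉ recW P g j := by
  unfold recW
  split
  · simp [rowW]
  · simp

private theorem cpz_cen {K : ℕ} (P : Prm K) : Lt.sg ∉ cenW P := by
  intro h
  obtain ⟨g, -, hg⟩ := List.mem_flatMap.1 h
  unfold tabW at hg
  rcases List.mem_cons.1 hg with hg | hg
  · simp at hg
  · obtain ⟨j, -, hj⟩ := List.mem_flatMap.1 hg
    exact cpz_rec P g j hj

private theorem cpz_mrec {K : ℕ} (P : Prm K) (i j : ℕ) : Lt.sg ∉ mrecW P i j := by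
  unfold mrecW
  split
  · simp [List.mem_replicate]
  · simp

private theorem cpz_grp {K : ℕ} (P : Prm K) (i : ℕ) : Lt.sg ∉ grpW P i := by
  intro hg
  unfold grpW at hg
  rcases List.mem_cons.1 hg with hg | hg
  · simp at hg
  · obtain ⟨j, -, hj⟩ := List.mem_flatMap.1 hg
    exact cpz_mrec P i j hj

private theorem cpz_main {K : ℕ} (P : Prm K) : Lt.sg ∉ mainW P := by
  intro h
  obtain ⟨g, -, hg⟩ := List.mem_flatMap.1 h
  unfold zoneW at hg
  simp only [List.mem_append, List.mem_replicate, List.mem_flatMap, List.mem_singleton] at hg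
  rcases hg with ⟨-, h1⟩ | ⟨i, -, h1⟩ | ⟨-, h1⟩ | ⟨-, h1⟩ | h1
  · simp at h1
  · exact cpz_grp P _ h1
  · simp at h1
  · simp at h1
  · simp at h1

private theorem cpz_st {K : ℕ} (P : Prm K) : (stW P).count Lt.sg = P.B := by
  have h1 : (szW P).count Lt.sg = 1 := by
    unfold szW
    rw [List.count_append, List.count_append, List.count_replicate, List.count_replicate,
      List.count_singleton]
    simp
  unfold stW
  rw [List.count_flatMap]
  have h2 : (List.map (List.count Lt.sg ∘ fun _ => szW P) (List.range P.B))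
      = List.replicate P.B 1 := by
    rw [List.eq_replicate_iff]
    refine ⟨by simp, ?_⟩
    intro b hb
    obtain ⟨i, -, hi⟩ := List.mem_map.1 hb
    rw [← hi]
    exact h1
  rw [h2, List.sum_replicate]
  simp

theorem word_measure {K : ℕ} (P : Prm K) (hP : P.Good) :
    (∃ p x q, word P = p ++ x :: q ∧ (∀ b ∈ p, isNZ b) ∧ isZ x ∧ p.length + 1 = P.Z) ∧
      (word P).count Lt.sg = P.B := by
  constructor
  · have hZ := hP.Zpos
    have hN := hP.Nzpos
    obtain ⟨t, ht⟩ : ∃ t, P.Nz * P.Z = (P.Z - 1) + (t + 1) := by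
      have : P.Z ≤ P.Nz * P.Z := Nat.le_mul_of_pos_left _ hN
      exact ⟨P.Nz * P.Z - P.Z, by omega⟩
    have hl : leftW P = (List.range (P.Z - 1)).map (lefL P) ++ lefL P (P.Z - 1) ::
        (List.range t).map (fun i => lefL P (P.Z - 1 + (i + 1))) := by
      unfold leftW
      rw [ht, List.range_add, List.range_succ_eq_map, List.map_append, List.map_map, List.map_cons,
        List.map_map]
      rfl
    refine ⟨(List.range (P.Z - 1)).map (lefL P), lefL P (P.Z - 1),
      (List.range t).map (fun i => lefL P (P.Z - 1 + (i + 1))) ++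
      (List.replicate P.Nz nu ++ (List.replicate P.F fi ++ (cenW P ++
    (List.replicate P.B th ++ (mainW P ++ (List.replicate (P.B - 1) tp ++ stW P)))))), ?_, ?_, ?_, ?_⟩
    · unfold word
      rw [hl]
      simp only [List.append_assoc, List.cons_append]
    · intro b hb
      obtain ⟨i, hi, rfl⟩ := List.mem_map.1 hb
      rw [List.mem_range] at hi
      have h1 : ¬ P.Z ∣ i + 1 := fun h => by
        have := Nat.le_of_dvd (Nat.succ_pos i) h
        omega
      refine ⟨decide (P.b1 ∣ i + 1), decide (P.b2 ∣ i + 1), ?_⟩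
      unfold lefL
      rw [decide_eq_false h1]
    · have h1 : P.Z ∣ P.Z - 1 + 1 := by
        rw [Nat.sub_add_cancel hZ]
      refine ⟨decide (P.b1 ∣ P.Z - 1 + 1), decide (P.b2 ∣ P.Z - 1 + 1), ?_⟩
      unfold lefL
      rw [decide_eq_true h1]
    · rw [List.length_map, List.length_range]
      omega
  · unfold word
    rw [List.count_append, List.count_append, List.count_append, List.count_append, List.count_append,
      List.count_append, List.count_append, cpz_st, List.count_eq_zero_of_not_mem (cpz_left P),
      List.count_eq_zero_of_not_mem (cpz_cen P), List.count_eq_zero_of_not_mem (cpz_main P),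
      List.count_replicate, List.count_replicate, List.count_replicate, List.count_replicate]
    simp

end Pool.Agent.H29.CJ
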