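import Pool.Agent.H29.CJ.Grid

/-!
# Facts about well-formed words

Use only the STATEMENTS of the imported files.

`h` gives `w ∈ Srt`, `w ∈ LeftOK`, `w ∈ WtOK`.
* `ln`: `w ∈ cat (cat (ST isLeft) (LC isZ)) (ST ¬isLeft)`: `at_full` and `at_cat` give a cut at `ln ≥ 1`: all
  positions below are left letters (`isZ x → isLeft x`), position `ln - 1` is a `z` letter, all positions from
  `ln` on are not left.
* `Z`: `grid_of_AllPre` for `isZ` gives `Z > 0, r`; position `ln - 1` is flagged, so `Z ∣ ln` and `ln ≤ Z r`; hence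
  for `i < ln` the bound `i + 1 ≤ Z r` is automatic.
* `b1`: `grid_of_AllPre` for `isT`; every `z` letter is a `t` letter (`ST (isZ → isT ∧ isG)`), so `ln - 1` is a `t` letter,
  `ln ≤ b1 r'`, and position `Z - 1 < ln` is a `z` letter, so a `t` letter, so `b1 ∣ Z`.
* `b2`: the same for `isG`.
* `srt`: for `r = reg b` (`reg b ≤ 7`), `w ∈ AllPre (reg = r) (ST (reg ≤ r))`: by `at_AllPre`, `at_ST` all positions
  `≤ j` carry letters of region `≤ r`.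
* `cmu, crr, csg`: `at_AllPre`, `at_inter`, `at_WT` with `pre_zero`.
-/

set_option autoImplicit false

namespace Pool.Agent.H29.CJ

open Lt

theorem FmtF_notleft {w : List Lt} {i : ℕ} (h : Is w i isLeft) (h' : Is w i (fun x => ¬ isLeft x)) :
    False := by
  obtain ⟨a, ha, h1, h2⟩ := h.and h'
  exact h2 h1

theorem FmtF_isZ_left (x : Lt) (h : isZ x) : isLeft x := by
  obtain ⟨t, g, rfl⟩ := h
  exact ⟨true, t, g, rfl⟩

theorem FmtF_reg_le (x : Lt) : reg x < 8 := by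
  cases x <;> simp [reg]

theorem fs_of_fmt {w : List Lt} (h : w ∈ Fmt) :
    ∃ Z b1 b2 ln : ℕ, FS w Z b1 b2 ln := by
  obtain ⟨hS, ⟨hL, hI, hZ, hT, hG⟩, hM, hR, hSg⟩ := h
  obtain ⟨ln, hA, hB⟩ := at_cat.1 (at_full.2 hL)
  obtain ⟨k, hA1, hA2⟩ := at_cat.1 hA
  obtain ⟨-, hk, hleft⟩ := at_ST.1 hA1
  obtain ⟨rfl, hz0⟩ := at_LC.1 hA2
  obtain ⟨hB1, -, hnl⟩ := at_ST.1 hB
  obtain ⟨Z, r, Zpos, hZ'⟩ := grid_of_AllPre hZ
  obtain ⟨b1, r1, b1pos, hT'⟩ := grid_of_AllPre hT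
  obtain ⟨b2, r2, b2pos, hG'⟩ := grid_of_AllPre hG
  obtain ⟨-, -, hI'⟩ := at_ST.1 (at_full.2 hI)
  have hzt : ∀ i, Is w i isZ → Is w i isT ∧ Is w i isG := by
    intro i hi
    obtain ⟨a, ha, h1, h2⟩ := hi.and (hI' i (Nat.zero_le i) hi.lt)
    exact ⟨⟨a, ha, (h2 h1).1⟩, ⟨a, ha, (h2 h1).2⟩⟩
  have hkl : k + 1 ≤ w.length := hB1
  have hl0 : ∀ i, i < k + 1 → Is w i isLeft := by
    intro i hi
    rcases Nat.lt_or_ge i k with h1 | h1
    · exact hleft i (Nat.zero_le i) h1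
    · obtain rfl : i = k := by omega
      exact hz0.mono FmtF_isZ_left
  have hzk := (hZ' k hkl).1 hz0
  have hZle : Z ≤ k + 1 := Nat.le_of_dvd (Nat.succ_pos k) hzk.1
  have hzz : ∀ i, i < k + 1 → (Is w i isZ ↔ Z ∣ i + 1) := by
    intro i hi
    rw [hZ' i (by omega)]
    exact ⟨fun h => h.1, fun h => ⟨h, by omega⟩⟩
  have htk := (hT' k hkl).1 (hzt k hz0).1
  have hgk := (hG' k hkl).1 (hzt k hz0).2
  have hZZ : Is w (Z - 1) isZ := by
    rw [hzz (Z - 1) (by omega)]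
    rw [Nat.sub_add_cancel Zpos]
  have htt : ∀ i, i < k + 1 → (Is w i isT ↔ b1 ∣ i + 1) := by
    intro i hi
    rw [hT' i (by omega)]
    exact ⟨fun h => h.1, fun h => ⟨h, by omega⟩⟩
  have hgg : ∀ i, i < k + 1 → (Is w i isG ↔ b2 ∣ i + 1) := by
    intro i hi
    rw [hG' i (by omega)]
    exact ⟨fun h => h.1, fun h => ⟨h, by omega⟩⟩
  refine ⟨Z, b1, b2, k + 1, ⟨hkl, hl0, ?_, Zpos, hzk.1, Nat.succ_pos k, hzz, b1pos, ?_, htt,
    b2pos, ?_, hgg, ?_, ?_, ?_, ?_⟩⟩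
  · intro i h1 h2
    exact hnl i h1 h2
  · have h1 := (htt (Z - 1) (by omega)).1 (hzt _ hZZ).1
    rwa [Nat.sub_add_cancel Zpos] at h1
  · have h1 := (hgg (Z - 1) (by omega)).1 (hzt _ hZZ).2
    rwa [Nat.sub_add_cancel Zpos] at h1
  · intro i j a b hij ha hb
    have h1 := hS (reg b) (List.mem_range.2 (FmtF_reg_le b))
    obtain ⟨-, -, h2⟩ := at_AllPre.1 (at_full.2 h1)
    have hj : Is w j (fun x => reg x = reg b) := ⟨b, hb, rfl⟩
    obtain ⟨-, -, h3⟩ := at_ST.1 (h2 j (Nat.zero_le j) hj.lt hj)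
    obtain ⟨c, hc, h4⟩ := h3 i (Nat.zero_le i) (by omega)
    rw [ha] at hc
    obtain rfl : a = c := Option.some.inj hc
    exact h4
  · intro i hi
    obtain ⟨-, -, h2⟩ := at_AllPre.1 (at_full.2 hM)
    obtain ⟨h3, h4⟩ := at_inter.1 (h2 i (Nat.zero_le i) hi.lt hi)
    obtain ⟨-, -, h5⟩ := at_WT.1 h3
    obtain ⟨-, -, h6⟩ := at_WT.1 h4
    rw [pre_zero, sub_zero] at h5 h6
    exact ⟨h5, h6⟩
  · intro i hi
    obtain ⟨-, -, h2⟩ := at_AllPre.1 (at_full.2 hR)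
    obtain ⟨-, -, h5⟩ := at_WT.1 (h2 i (Nat.zero_le i) hi.lt hi)
    rw [pre_zero, sub_zero] at h5
    exact h5
  · intro i hi
    obtain ⟨-, -, h2⟩ := at_AllPre.1 (at_full.2 hSg)
    obtain ⟨h3, h4⟩ := at_inter.1 (h2 i (Nat.zero_le i) hi.lt hi)
    obtain ⟨h4, h5⟩ := at_inter.1 h4
    obtain ⟨-, -, h6⟩ := at_WT.1 h3
    obtain ⟨-, -, h7⟩ := at_WT.1 h4
    obtain ⟨-, -, h8⟩ := at_WT.1 h5
    rw [pre_zero, sub_zero] at h6 h7 h8
    exact ⟨h6, h7, h8⟩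

end Pool.Agent.H29.CJ
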