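import Pool.Agent.H29.CJ.AdrU

/-!
# Soundness of the table

Use only the STATEMENTS of the imported files.

`At w (MainLk A) x e`: there is `q` with `At w (LkA A) x q`, position `q` carries `bit true`, `e - 1` carries `mu`, and
`pre wTM w e = pre wTM w q`.  `lkA_sound`: `Lo Z x = b1 j + k + 1`, `k < b1`, `tau` at `t`, `At w (Adr j k A) (t+1) q`.
`exists_sg` gives `s` with an `sg` letter and `pre cSg w (s+1) = n`.  Let `x0 = Z - Lo Z x < Z` (`Lo_pos`, `Lo_le`), `Lo Z x0 = Lo Z x`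
(definition of `Lo`, `x0 % Z = x0`).  By `hOK`, `At w (OK G A) x0 (s+1)`; three cases (`at_union`).
* `Sta`: done.
* `StLk A`: there is `q'` with `At w (LkA A) x0 q'`, `bit false` at `q'`, `pre wTS w (s+1) = pre wTS w q'`.  `lkA_sound` with the
  same `Lo`: `j' = j`, `k' = k` (division with remainder), `At w (Adr j k A) (t'+1) q'`.
  Counts (`pre_wTM`, `pre_wTS`, `pre_zero_of_reg`, `pre_tot_of_reg`): at `q` and `q'` (region 3): `cMu = cSg = cTh = 0`.  At `e`
  (letter `mu` at `e - 1`, region 5): `cTau, cTh` are total.  At `s + 1`: `cTau, cTh` are total.  So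
  `cTau(q) = tauTot + n - thTot` and `cTau(q') = tauTot + n - thTot`.  `adr_uniq`: `q = q'`, contradiction.
* `StEm`: there is `q'` with `At w LkE x0 q'`, `emp` at `q'`, same weight equation; `lkE_sound`, `adr_not_em`.
-/

set_option autoImplicit false

namespace Pool.Agent.H29.CJ

open Lt

variable {K : ℕ} (G : USys K) {w : List Lt} {Z b1 b2 ln : ℕ}

private lemma tsd_div {b j k j' k' : ℕ} (hk : k < b) (hk' : k' < b)
    (h : b * j + k + 1 = b * j' + k' + 1) : j = j' ∧ k = k' := by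
  have h1 : b * j + k = b * j' + k' := by omega
  have hb : 0 < b := by omega
  have hj : j = j' := by
    have e1 : (b * j + k) / b = j := by
      rw [Nat.mul_add_div hb, Nat.div_eq_of_lt hk, Nat.add_zero]
    have e2 : (b * j' + k') / b = j' := by
      rw [Nat.mul_add_div hb, Nat.div_eq_of_lt hk', Nat.add_zero]
    rw [← e1, ← e2, h1]
  subst hj
  exact ⟨rfl, by omega⟩

private lemma tsd_reg3 {a c : Lt} (hc : reg c ≤ 3) (h : reg a ≤ reg c) :
    cMu a = 0 ∧ cTh a = 0 ∧ cSg a = 0 := by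
  cases a <;> simp_all [reg, cMu, cTh, cSg] <;> omega

private lemma tsd_reg5 {a c : Lt} (hc : 5 ≤ reg c) (h : reg c ≤ reg a) :
    cTau a = 0 ∧ cTh a = 0 := by
  cases a <;> simp_all [reg, cTau, cTh] <;> omega

/-- the cut of a lookup -/
private lemma tsd_split {L : Set (List Lt)} {c d : Lt} {f : Lt → ℤ} {x e : ℕ}
    (h : At w (cat L ((cat (LC (· = c)) Set.univ ∩ cat Set.univ (LC (· = d))) ∩ WT f 0)) x e) :
    ∃ q k, At w L x q ∧ w[q]? = some c ∧ e = k + 1 ∧ w[k]? = some d ∧ pre f w e = pre f w q := by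
  obtain ⟨q, hq, h2⟩ := at_cat.1 h
  obtain ⟨h3, h4⟩ := at_inter.1 h2
  obtain ⟨h5, h6⟩ := at_inter.1 h3
  obtain ⟨k1, h7, -⟩ := at_cat.1 h5
  obtain ⟨k, -, h8⟩ := at_cat.1 h6
  obtain ⟨-, a, ha, hac⟩ := at_LC.1 h7
  obtain ⟨he, b, hb, hbd⟩ := at_LC.1 h8
  have h9 := (at_WT.1 h4).2.2
  exact ⟨q, k, hq, by rw [ha, hac], he, by rw [hb, hbd], by linarith⟩

theorem tab_sound (h : FS w Z b1 b2 ln)
    (hOK : ∀ x0 < Z, ∀ s, Is w s (· = sg) → ∀ A, At w (OK G A) x0 (s + 1))
    {A : Fin K} {x e n : ℕ} (hM : At w (MainLk A) x e) (hn : pre cMu w e = n) (h1 : 1 ≤ n)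
    (hle : (n : ℤ) ≤ wt cSg w) :
    ∃ x0 < Z, Lo Z x0 = Lo Z x ∧ ∃ s, Is w s (· = sg) ∧ pre cSg w (s + 1) = n ∧
      At w (Sta G A) x0 (s + 1) := by
  obtain ⟨q, km, hq, hqb, he, hkm, hw⟩ := tsd_split hM
  obtain ⟨-, t, j, k, hLo, hk, ht, hadr⟩ := lkA_sound h hq
  obtain ⟨s, hs, hsn⟩ := exists_sg w h1 hle
  have hL1 := Lo_pos h.Zpos x
  have hL2 := Lo_le Z x
  have hx0 : Z - Lo Z x < Z := by omega
  have hLx0 : Lo Z (Z - Lo Z x) = Lo Z x := by
    have : (Z - Lo Z x) % Z = Z - Lo Z x := Nat.mod_eq_of_lt hx0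
    show Z - (Z - Lo Z x) % Z = Lo Z x
    rw [this]
    omega
  -- count at `q`
  have hcq : pre cTau w q = wt cTau w + n - wt cTh w := by
    have e1 := pre_wTM w q
    have e2 := pre_wTM w e
    have z1 : pre cMu w q = 0 := pre_zero_of_reg h hqb fun a ha => (tsd_reg3 (by simp [reg]) ha).1
    have z2 : pre cTh w q = 0 := pre_zero_of_reg h hqb fun a ha => (tsd_reg3 (by simp [reg]) ha).2.1
    have z3 : pre cTau w e = wt cTau w := by
      rw [he]
      exact (pre_tot_of_reg h hkm fun a ha => (tsd_reg5 (by simp [reg]) ha).1).2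
    have z4 : pre cTh w e = wt cTh w := by
      rw [he]
      exact (pre_tot_of_reg h hkm fun a ha => (tsd_reg5 (by simp [reg]) ha).2).2
    linarith
  -- count at the other lookup
  have hcq' : ∀ {c : Lt} {q' : ℕ}, reg c = 3 → w[q']? = some c → pre wTS w (s + 1) = pre wTS w q' →
      pre cTau w q' = wt cTau w + n - wt cTh w := by
    intro c q' hc hq' hw'
    obtain ⟨a0, ha0, ha0'⟩ := hs
    have hs' : w[s]? = some sg := by rw [ha0, ha0']
    have e1 := pre_wTS w q'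
    have e2 := pre_wTS w (s + 1)
    have z1 : pre cSg w q' = 0 := pre_zero_of_reg h hq' fun a ha => (tsd_reg3 hc.le ha).2.2
    have z2 : pre cTh w q' = 0 := pre_zero_of_reg h hq' fun a ha => (tsd_reg3 hc.le ha).2.1
    have z3 : pre cTau w (s + 1) = wt cTau w :=
      (pre_tot_of_reg h hs' fun a ha => (tsd_reg5 (by simp [reg]) ha).1).2
    have z4 : pre cTh w (s + 1) = wt cTh w :=
      (pre_tot_of_reg h hs' fun a ha => (tsd_reg5 (by simp [reg]) ha).2).2
    linarith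
  refine ⟨Z - Lo Z x, hx0, hLx0, s, hs, hsn, ?_⟩
  rcases at_union.1 (hOK _ hx0 s hs A) with h2 | h2
  · exact h2
  · exfalso
    rcases at_union.1 h2 with h3 | h3
    · obtain ⟨q', k', hq', hqb', -, -, hw'⟩ := tsd_split h3
      obtain ⟨-, t', j', k'', hLo', hk'', ht', hadr'⟩ := lkA_sound h hq'
      rw [hLx0, hLo] at hLo'
      obtain ⟨rfl, rfl⟩ := tsd_div hk hk'' hLo'
      have hc' := hcq' rfl hqb' hw'
      have := adr_uniq ht ht' hadr hadr' (by rw [hcq, hc'])
      subst this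
      rw [hqb] at hqb'
      simp at hqb'
    · obtain ⟨q', k', hq', hqb', -, -, hw'⟩ := tsd_split h3
      obtain ⟨-, t', j', k'', hLo', hk'', ht', hadr'⟩ := lkE_sound h hq'
      rw [hLx0, hLo] at hLo'
      obtain ⟨rfl, rfl⟩ := tsd_div hk hk'' hLo'
      have hc' := hcq' rfl hqb' hw'
      exact adr_not_em ht ht' hadr hadr' (by rw [hcq, hc']) ⟨_, hqb', rfl⟩

end Pool.Agent.H29.CJ
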