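import Pool.Agent.H29.CJ.StS
import Pool.Agent.H29.CJ.TSd
import Pool.Agent.H29.CJ.FmtF

/-!
# Soundness of the speed-up language

Use only the STATEMENTS of the imported files.

(1) `main_sound`: `MSound w Z G m` for all `m`, by strong induction.  `At w (main A) x e`, unfold by `sl_eq`.
 `MainLk A`: `tab_sound` gives `x0, s`; `sta_sound` with the induction hypothesis (values `< m`) and the same value
 (`Lo Z x0 = Lo Z x`).  Rule `ρ`: by `G.Tiff` find `m₁, m₂` for each `p ∈ ρ`; `Step` cases: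
 - `cat (UL G p.2 ∩ ST isNZ) (main p.1)`: `y` with `G.T p.2 (y - x)`, `y > x`, all letters of `[x, y)` are `nz`; `y < ln` (`main_shape`);
   no multiple of `Z` among `x + 1, ..., y` (`isNZ_iff`), so `y / Z = x / Z` and `Lo Z y + (y - x) = Lo Z x` (`add_Lo`).
   The main claim `(y, e)` has value `m - (y - x) < m`.
 - symmetric; - `Lg p.1 p.2`, `Lg p.2 p.1`: `Lg_sound`, both values `≥ 1` so `< m`, counts `≤ n`.
(2) `WG_sound`: `fs_of_fmt` gives `Z ...`; `Z = p.length + 1`: position `p.length` is the first `z` letter (`isZ` at `i < ln` iff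
 `Z ∣ i + 1`; position `Z - 1 < ln` is a `z` letter since `Z ∣ ln`, `0 < ln`; positions before `p.length` are `nz`).
 `hOK`: from `w ∈ AllSuf isNZ (AllPre sg ...)`: `at_full`, `at_AllSuf`, `at_AllPre`: for `x0 < Z` all positions below `x0` are `nz`
 letters; then for an `sg` letter at `s` (`s ≥ ln > x0`, as `sg` is not left) `At w _ x0 (s+1)`; intersect over `A`.
 The whole word is in `Sta G 0` at `[0, w.length)`, `sta_end`: the last letter is `sg`.  `pre cSg w w.length = wt cSg w = w.count sg`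
 (induction on the list).  `sta_sound` with `x = 0`, `Lo Z 0 = Z`, `n = w.count sg ≥ 1`: value `Z (n-1) + Z = Z n`.
-/

set_option autoImplicit false

namespace Pool.Agent.H29.CJ

open Lt

variable {w : List Lt} {Z b1 b2 ln : ℕ}

theorem MnS_div {Z : ℕ} (hZ : 0 < Z) {x y : ℕ} (hxy : x ≤ y)
    (hno : ∀ t, x ≤ t → t < y → ¬ Z ∣ t + 1) : y / Z = x / Z := by
  have h1 : x / Z ≤ y / Z := Nat.div_le_div_right hxy
  by_contra hne
  have h2 : x / Z + 1 ≤ y / Z := by omega
  have h3 : Z * (x / Z + 1) ≤ y := by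
    calc Z * (x / Z + 1) ≤ Z * (y / Z) := Nat.mul_le_mul_left _ h2
      _ ≤ y := Nat.mul_div_le y Z
  have h4 : x < Z * (x / Z + 1) := by
    have := Nat.lt_mul_div_succ x hZ
    exact this
  have h5 : Z * (x / Z + 1) - 1 + 1 = Z * (x / Z + 1) := by omega
  refine hno (Z * (x / Z + 1) - 1) (by omega) (by omega) ?_
  rw [h5]
  exact Dvd.intro _ rfl

theorem MnS_nz {K : ℕ} (G : USys K) (h : FS w Z b1 b2 ln) {A B : Fin K} {x e m n : ℕ}
    (IH : ∀ m' < m, MSound w Z G m')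
    (hA : At w (cat (UL G B ∩ ST isNZ) (Sl G (.main A))) x e) (hn : pre cMu w e = n)
    (h1 : 1 ≤ n) (hle : (n : ℤ) ≤ wt cSg w) (hm : Z * (n - 1) + Lo Z x = m) :
    ∃ m1 m2, m1 + m2 = m ∧ G.T A m1 ∧ G.T B m2 := by
  obtain ⟨y, hxy, hye⟩ := at_cat.1 hA
  obtain ⟨hU, hS⟩ := at_inter.1 hxy
  have hle1 : x ≤ y := hU.1
  have hle2 : y ≤ w.length := hU.2.1
  have hT : G.T B (y - x) := by
    have := hU.2.2.2
    rwa [length_seg hle1 hle2] at this
  have hlt : 0 < y - x := by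
    rcases Nat.eq_zero_or_pos (y - x) with h0 | h0
    · rw [h0] at hT
      exact absurd hT (G.T0 B)
    · exact h0
  obtain ⟨-, -, hS3⟩ := at_ST.1 hS
  have hyl : y < ln := (main_shape G h hye).1
  have hdiv : y / Z = x / Z := MnS_div h.Zpos hle1 (fun t h1 h2 =>
    (isNZ_iff h (by omega)).1 (hS3 t h1 h2))
  have e1 := add_Lo h.Zpos x
  have e2 := add_Lo h.Zpos y
  rw [hdiv, ← e1] at e2
  have hlt2 : Z * (n - 1) + Lo Z y < m := by omega
  have hT1 := IH _ hlt2 A y e n hye hn h1 hle rfl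
  exact ⟨Z * (n - 1) + Lo Z y, y - x, by omega, hT1, hT⟩

theorem MnS_lg {K : ℕ} (G : USys K) (h : FS w Z b1 b2 ln) {B C : Fin K} {x e m n : ℕ}
    (IH : ∀ m' < m, MSound w Z G m')
    (hA : At w (Lg (Sl G) B C) x e) (hn : pre cMu w e = n)
    (hle : (n : ℤ) ≤ wt cSg w) (hm : Z * (n - 1) + Lo Z x = m) :
    ∃ m1 m2, m1 + m2 = m ∧ G.T B m1 ∧ G.T C m2 := by
  obtain ⟨xb, eb, xc, ec, nb, nc, n', hb, hc, hnb, hnc, hn', hb1, hb2, hc1, hc2, -, -, hval⟩ :=
    Lg_sound G h hA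
  have hnn : n' = n := by
    have : (n' : ℤ) = n := by rw [← hn', ← hn]
    exact_mod_cast this
  subst hnn
  have p1 := Lo_pos h.Zpos xb
  have p2 := Lo_pos h.Zpos xc
  have hT1 := IH (Z * (nb - 1) + Lo Z xb) (by omega) B xb eb nb hb hnb hb1 (by omega) rfl
  have hT2 := IH (Z * (nc - 1) + Lo Z xc) (by omega) C xc ec nc hc hnc hc1 (by omega) rfl
  exact ⟨_, _, by omega, hT1, hT2⟩

theorem main_sound {K : ℕ} (G : USys K) (h : FS w Z b1 b2 ln)
    (hOK : ∀ x0 < Z, ∀ s, Is w s (· = sg) → ∀ A, At w (OK G A) x0 (s + 1)) (m : ℕ) :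
    MSound w Z G m := by
  induction m using Nat.strong_induction_on with
  | _ m IH =>
  intro A x e n hA hn h1 hle hm
  rw [sl_eq] at hA
  rcases at_union.1 hA with hM | hR
  · obtain ⟨x0, hx0, hLo, s, hs, hs2, hSt⟩ := tab_sound G h hOK hM hn h1 hle
    exact sta_sound G h IH hSt hx0 hs2 (by rw [hLo]; exact hm)
  · obtain ⟨ρ, hρ, hR1⟩ := (at_exL (G.rules A)
      (fun ρ => {u | ∀ p ∈ ρ, u ∈ Step G (Sl G) p})).1 hR
    obtain ⟨-, -, hR2⟩ := (at_allL ρ (fun p => Step G (Sl G) p)).1 hR1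
    refine (G.Tiff A m).2 (Or.inr ⟨ρ, hρ, fun p hp => ?_⟩)
    rcases at_union.1 (hR2 p hp) with h2 | h2
    · rcases at_union.1 h2 with h3 | h3
      · exact MnS_nz G h IH h3 hn h1 hle hm
      · obtain ⟨m1, m2, e1, e2, e3⟩ := MnS_nz G h IH h3 hn h1 hle hm
        exact ⟨m2, m1, by omega, e3, e2⟩
    · rcases at_union.1 h2 with h3 | h3
      · exact MnS_lg G h IH h3 hn hle hm
      · obtain ⟨m1, m2, e1, e2, e3⟩ := MnS_lg G h IH h3 hn hle hm
        exact ⟨m2, m1, by omega, e3, e2⟩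

theorem MnS_wt (u : List Lt) : wt cSg u = (u.count Lt.sg : ℤ) := by
  induction u with
  | nil => simp [wt]
  | cons a u ih =>
    unfold wt at ih ⊢
    rw [List.map_cons, List.sum_cons, ih, List.count_cons]
    by_cases ha : a = Lt.sg
    · subst ha
      simp [cSg]
      ring
    · have h1 : cSg a = 0 := by
        cases a <;> first | rfl | exact absurd rfl ha
      simp [h1, ha]

theorem WG_sound {k : ℕ} (G : USys (k + 1)) {w : List Lt} (hw : w ∈ WG G) {p q : List Lt}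
    {x : Lt} (hpx : w = p ++ x :: q) (hp : ∀ b ∈ p, isNZ b) (hx : isZ x) :
    G.T 0 ((p.length + 1) * w.count Lt.sg) := by
  obtain ⟨hF, hSuf, hSta⟩ := hw
  obtain ⟨Z, b1, b2, ln, h⟩ := fs_of_fmt hF
  have hx1 : w[p.length]? = some x := by
    rw [hpx]
    simp
  have hxl : isLeft x := by
    obtain ⟨t, g, e⟩ := hx
    exact ⟨true, t, g, e⟩
  have hpl : p.length < ln := lt_ln h ⟨x, hx1, hxl⟩
  have hd : Z ∣ p.length + 1 := (h.hz _ hpl).1 ⟨x, hx1, hx⟩
  have hpn : ∀ i, i < p.length → ¬ Z ∣ i + 1 := by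
    intro i hi
    refine (isNZ_iff h (by omega)).1 ⟨p[i], ?_, hp _ (List.getElem_mem hi)⟩
    rw [hpx, List.getElem?_append_left hi, List.getElem?_eq_getElem hi]
  have hZ : Z = p.length + 1 := by
    have h1 : Z ≤ p.length + 1 := Nat.le_of_dvd (Nat.succ_pos _) hd
    rcases Nat.lt_or_ge Z (p.length + 1) with h2 | h2
    · have h3 := h.Zpos
      exfalso
      refine hpn (Z - 1) (by omega) ?_
      rw [Nat.sub_add_cancel h3]
    · omega
  have hZl : Z ≤ ln := Nat.le_of_dvd h.lnpos h.Zln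
  have hlnw := h.lnle
  have hOK : ∀ x0 < Z, ∀ s, Is w s (· = sg) → ∀ A, At w (OK G A) x0 (s + 1) := by
    intro x0 hx0 s hs A
    have h1 := (at_AllSuf.1 (at_full.2 hSuf)).2.2 x0 (Nat.zero_le _) (by omega) (by
      intro t _ ht
      refine (isNZ_iff h (by omega)).2 (fun hdt => ?_)
      have := Nat.le_of_dvd (Nat.succ_pos _) hdt
      omega)
    have hsl : ln ≤ s := by
      by_contra hcon
      push Not at hcon
      obtain ⟨b, hb, z, t, g, hb2⟩ := h.left s hcon
      obtain ⟨c, hc, hc2⟩ := hs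
      rw [hb] at hc
      have hc3 : c = sg := hc2
      have : b = c := Option.some.inj hc
      rw [hb2, hc3] at this
      cases this
    have h2 := (at_AllPre.1 h1).2.2 s (by omega) hs.lt hs
    exact ⟨h2.1, h2.2.1, h2.2.2 A⟩
  have hS : At w (Sta G 0) 0 w.length := at_full.2 hSta
  obtain ⟨hw0, hlast⟩ := sta_end G h hS
  have hcnt : pre cSg w w.length = (w.count Lt.sg : ℤ) := by
    unfold pre
    rw [List.take_length, MnS_wt]
  have hpos : 1 ≤ w.count Lt.sg := by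
    obtain ⟨b, hb, hb2⟩ := hlast
    have hb3 : b = Lt.sg := hb2
    subst hb3
    exact List.count_pos_iff.2 (List.mem_of_getElem? hb)
  have hfin := sta_sound G h (m := Z * w.count Lt.sg) (fun m' _ => main_sound G h hOK m') hS h.Zpos
    hcnt (by
      have e1 : Lo Z 0 = Z := by simp [Lo]
      rw [e1]
      obtain ⟨c, hc⟩ : ∃ c, w.count Lt.sg = c + 1 := ⟨w.count Lt.sg - 1, by omega⟩
      rw [hc, Nat.add_sub_cancel]
      ring)
  rw [← hZ]
  exact hfin

end Pool.Agent.H29.CJ
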