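import Pool.Agent.H29.CJ.Clo

/-!
# Weight languages are conjunctive

Use only the STATEMENTS of the imported files.

`f : α → ℤ` has all values in `{-1, 0, 1}`.
(1) `E = WT f 0` solves, in a guarded way (`isConj_of_sys` with `ι = Unit`, `μ = 0`), the equation
`X = {[]} ∪ O X ∪ P X M X ∪ M X P X` with `O = LC (f = 0)`, `P = LC (f = 1)`, `M = LC (f = -1)`.
Closedness is additivity of `wt`.  Conversely let `w = a :: w'` have weight `0`.  If `f a = 0` then
`w' ∈ E`.  If `f a = 1` then `wt w' = -1`; the partial sums of `w'` start with `0`, end with `-1` and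
change by at most one, so there is a first split `w' = u ++ b :: v` with `wt u = 0` and `f b = -1`
(first position where the partial sum becomes `-1`; lemma `exists_first`, proved by induction: a list
`w'` with `wt w' < 0` has a split `u ++ b :: v` with `wt u = 0`, `f b = -1`: generalise the statement to
`wt w' + c < 0`, `0 ≤ c`, giving `wt u + c = 0`).  Then `wt v = 0`.  The case `f a = -1` is symmetric
(apply the lemma to `-f`).
(2) For `k : ℕ`: `WT f (k+1) = WT f k · P · WT f 0`: a word of weight `k + 1 > 0` has a split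
`u ++ b :: v` with `wt u = k`, `f b = 1` and `wt v = 0`: use the lemma for `-f` with the last (or first)
passage; simplest: first passage through level `1`: `w = u ++ b :: v` with `wt u = 0`, `f b = 1`,
`wt v = k`, so `WT f (k+1) = WT f 0 · P · WT f k`.  Symmetrically for negative `k` (or apply the
positive case to `-f`: `WT f (-k) = WT (-f) k`).
-/

set_option autoImplicit false

namespace Pool.Agent.H29.CJ

variable {α : Type}

theorem wt_append (f : α → ℤ) (u v : List α) : wt f (u ++ v) = wt f u + wt f v := by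
  simp [wt]

theorem Wts_cons (f : α → ℤ) (a : α) (v : List α) : wt f (a :: v) = f a + wt f v := by
  simp [wt]

theorem Wts_nil (f : α → ℤ) : wt f ([] : List α) = 0 := by
  simp [wt]

theorem Wts_neg (f : α → ℤ) (w : List α) : wt (fun a => - f a) w = - wt f w := by
  induction w with
  | nil => simp [wt]
  | cons a w ih => rw [Wts_cons, Wts_cons, ih]; ring

theorem Wts_first (f : α → ℤ) (hf : ∀ a, f a = -1 ∨ f a = 0 ∨ f a = 1) (w : List α) :
    ∀ c : ℤ, 0 ≤ c → wt f w + c < 0 →
      ∃ (u : List α) (b : α) (v : List α), w = u ++ b :: v ∧ wt f u + c = 0 ∧ f b = -1 := by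
  induction w with
  | nil =>
    intro c hc h
    rw [Wts_nil] at h
    omega
  | cons a w ih =>
    intro c hc h
    rw [Wts_cons] at h
    by_cases h0 : c = 0 ∧ f a = -1
    · refine ⟨[], a, w, rfl, ?_, h0.2⟩
      rw [Wts_nil, h0.1]
      rfl
    · have hc' : 0 ≤ c + f a := by
        rcases hf a with h1 | h1 | h1
        · have : c ≠ 0 := fun h2 => h0 ⟨h2, h1⟩
          omega
        · omega
        · omega
      obtain ⟨u, b, v, h1, h2, h3⟩ := ih (c + f a) hc' (by omega)
      refine ⟨a :: u, b, v, by rw [h1]; rfl, ?_, h3⟩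
      rw [Wts_cons]
      omega

theorem Wts_firstP (f : α → ℤ) (hf : ∀ a, f a = -1 ∨ f a = 0 ∨ f a = 1) (w : List α)
    (h : 0 < wt f w) :
    ∃ (u : List α) (b : α) (v : List α), w = u ++ b :: v ∧ wt f u = 0 ∧ f b = 1 := by
  obtain ⟨u, b, v, h1, h2, h3⟩ := Wts_first (fun a => - f a)
    (fun a => by rcases hf a with h | h | h <;> simp [h]) w 0 le_rfl
    (by rw [Wts_neg]; omega)
  refine ⟨u, b, v, h1, ?_, by omega⟩
  rw [Wts_neg] at h2
  omega

theorem Wts_firstN (f : α → ℤ) (hf : ∀ a, f a = -1 ∨ f a = 0 ∨ f a = 1) (w : List α)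
    (h : wt f w < 0) :
    ∃ (u : List α) (b : α) (v : List α), w = u ++ b :: v ∧ wt f u = 0 ∧ f b = -1 := by
  obtain ⟨u, b, v, h1, h2, h3⟩ := Wts_first f hf w 0 le_rfl (by omega)
  exact ⟨u, b, v, h1, by omega, h3⟩

theorem Wts_zero [Finite α] (f : α → ℤ) (hf : ∀ a, f a = -1 ∨ f a = 0 ∨ f a = 1) :
    IsConj (WT f 0) := by
  have key := isConj_of_sys (α := α) (ι := Unit)
    (Φ := fun _ X => (({[]} ∪ cat (LC (fun a => f a = 0)) (X ())) ∪
      cat (LC (fun a => f a = 1)) (cat (X ()) (cat (LC (fun a => f a = -1)) (X ())))) ∪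
      cat (LC (fun a => f a = -1)) (cat (X ()) (cat (LC (fun a => f a = 1)) (X ()))))
    (fun _ => ((((Poly.cst _ isConj_eps).union ((Poly.cst _ (isConj_LC _)).cat (Poly.var ()))).union
      ((Poly.cst _ (isConj_LC _)).cat ((Poly.var ()).cat ((Poly.cst _ (isConj_LC _)).cat (Poly.var ()))))).union
      ((Poly.cst _ (isConj_LC _)).cat ((Poly.var ()).cat ((Poly.cst _ (isConj_LC _)).cat (Poly.var ()))))))
    (fun _ => WT f 0) (fun _ => 0) ?_ ?_
  · exact key ()
  · intro _ w hw
    rcases hw with ((hw | hw) | hw) | hw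
    · have h1 : w = [] := hw
      rw [h1]
      exact Wts_nil f
    · obtain ⟨u, ⟨a, ha, rfl⟩, v, hv, rfl⟩ := hw
      have hv' : wt f v = 0 := hv
      show wt f ([a] ++ v) = 0
      rw [wt_append, Wts_cons, Wts_nil, hv', ha]
      rfl
    · obtain ⟨u, ⟨a, ha, rfl⟩, v, ⟨x, hx, y, ⟨z, ⟨b, hb, rfl⟩, t, ht, rfl⟩, rfl⟩, rfl⟩ := hw
      have hx' : wt f x = 0 := hx
      have ht' : wt f t = 0 := ht
      show wt f ([a] ++ (x ++ ([b] ++ t))) = 0
      rw [wt_append, wt_append, wt_append, Wts_cons, Wts_nil, Wts_cons, Wts_nil, hx', ht', ha, hb]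
      rfl
    · obtain ⟨u, ⟨a, ha, rfl⟩, v, ⟨x, hx, y, ⟨z, ⟨b, hb, rfl⟩, t, ht, rfl⟩, rfl⟩, rfl⟩ := hw
      have hx' : wt f x = 0 := hx
      have ht' : wt f t = 0 := ht
      show wt f ([a] ++ (x ++ ([b] ++ t))) = 0
      rw [wt_append, wt_append, wt_append, Wts_cons, Wts_nil, Wts_cons, Wts_nil, hx', ht', ha, hb]
      rfl
  · intro _ w hw
    have hw' : wt f w = 0 := hw
    cases w with
    | nil => exact Or.inl (Or.inl (Or.inl rfl))
    | cons a w =>
      rw [Wts_cons] at hw'
      rcases hf a with ha | ha | ha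
      · obtain ⟨u, b, v, h1, h2, h3⟩ := Wts_firstP f hf w (by omega)
        have h4 : wt f v = 0 := by
          rw [h1, wt_append, Wts_cons] at hw'
          omega
        refine Or.inr ⟨[a], ⟨a, ha, rfl⟩, u ++ ([b] ++ v), ⟨u, ⟨h2, Or.inl ?_⟩, [b] ++ v,
          ⟨[b], ⟨b, h3, rfl⟩, v, ⟨h4, Or.inl ?_⟩, rfl⟩, rfl⟩, ?_⟩
        · rw [h1]
          simp only [List.length_cons, List.length_append]
          omega
        · rw [h1]
          simp only [List.length_cons, List.length_append]
          omega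
        · rw [h1]
          rfl
      · exact Or.inl (Or.inl (Or.inr ⟨[a], ⟨a, ha, rfl⟩, w, ⟨by show wt f w = 0; omega,
          Or.inl (by simp)⟩, rfl⟩))
      · obtain ⟨u, b, v, h1, h2, h3⟩ := Wts_firstN f hf w (by omega)
        have h4 : wt f v = 0 := by
          rw [h1, wt_append, Wts_cons] at hw'
          omega
        refine Or.inl (Or.inr ⟨[a], ⟨a, ha, rfl⟩, u ++ ([b] ++ v), ⟨u, ⟨h2, Or.inl ?_⟩, [b] ++ v,
          ⟨[b], ⟨b, h3, rfl⟩, v, ⟨h4, Or.inl ?_⟩, rfl⟩, rfl⟩, ?_⟩)
        · rw [h1]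
          simp only [List.length_cons, List.length_append]
          omega
        · rw [h1]
          simp only [List.length_cons, List.length_append]
          omega
        · rw [h1]
          rfl

theorem Wts_nat [Finite α] (f : α → ℤ) (hf : ∀ a, f a = -1 ∨ f a = 0 ∨ f a = 1) (n : ℕ) :
    IsConj (WT f n) := by
  induction n with
  | zero => exact Wts_zero f hf
  | succ n ih =>
    have h1 : WT f ((n + 1 : ℕ) : ℤ) = cat (WT f 0) (cat (LC (fun a => f a = 1)) (WT f n)) := by
      ext w
      constructor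
      · intro hw
        have hw' : wt f w = ((n + 1 : ℕ) : ℤ) := hw
        obtain ⟨u, b, v, h1, h2, h3⟩ := Wts_firstP f hf w (by rw [hw']; positivity)
        refine ⟨u, h2, [b] ++ v, ⟨[b], ⟨b, h3, rfl⟩, v, ?_, rfl⟩, h1⟩
        show wt f v = n
        rw [h1, wt_append, Wts_cons, h2, h3] at hw'
        push_cast at hw'
        omega
      · rintro ⟨u, hu, x, ⟨y, ⟨b, hb, rfl⟩, v, hv, rfl⟩, rfl⟩
        have hu' : wt f u = 0 := hu
        have hv' : wt f v = n := hv
        show wt f (u ++ ([b] ++ v)) = ((n + 1 : ℕ) : ℤ)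
        rw [wt_append, wt_append, Wts_cons, Wts_nil, hu', hv', hb]
        push_cast
        ring
    rw [h1]
    exact (Wts_zero f hf).cat ((isConj_LC _).cat ih)

theorem isConj_WT [Finite α] (f : α → ℤ) (hf : ∀ a, f a = -1 ∨ f a = 0 ∨ f a = 1) (k : ℤ) :
    IsConj (WT f k) := by
  rcases Int.eq_nat_or_neg k with ⟨n, h | h⟩
  · rw [h]
    exact Wts_nat f hf n
  · have h1 : WT f k = WT (fun a => - f a) (n : ℤ) := by
      ext w
      show wt f w = k ↔ wt (fun a => - f a) w = n
      rw [Wts_neg, h]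
      constructor <;> intro h2 <;> omega
    rw [h1]
    exact Wts_nat _ (fun a => by rcases hf a with h | h | h <;> simp [h]) n

end Pool.Agent.H29.CJ
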