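import Pool.Agent.H29.CJ.SpD
import Pool.Agent.H29.CJ.Clo2
import Pool.Agent.H29.CJ.Wts

/-!
# The speed-up language is conjunctive

Use only the STATEMENTS of the imported files (`Clo`, `Clo2`, `Wts`, `PolyC`).

* `Finite (Vr K)`: e.g. injection into `Fin K ⊕ (Fin 3 × Fin K × Bool)`, or a surjection from it.
* `isConj_UL`: the family `A ↦ UL G A` solves, in a guarded way (`isConj_of_sys`, `μ = 0`), the system
  `X A = {w | G.base A ∧ w ∈ LC isLeft} ∪ {w | ∃ ρ ∈ G.rules A, ∀ p ∈ ρ, w ∈ cat (X p.1) (X p.2)}`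
  (`Poly.iteP`, `Poly.exL`, `Poly.allL`): use `G.Tiff` for the length of `w` (split `w` at `m₁` with
  `take/drop`), and `G.T0` for `0 < m₁, m₂` (so both parts are shorter).
* all the constants `Rec, Row, Rec', LkP, LkE, LkA, MainLk, StLk, StEm, EqG, Tr, RI, RII, RJ1, RJ2, RJ3,
  Load, BlkPair, Srt, LeftOK, WtOK, Fmt` are conjunctive by the closure lemmas (`pw L n` by induction on `n`;
  weight functions have values in `{-1,0,1}`: `isConj_WT _ (by intro a; cases a <;> simp [..])`, for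
  `a z t g` also case on the flags).
* `Poly (Phi G v)` for every `v`, hence `IsConj (Sl G v)` by `isConj_Lfp`; then `Gam`, `Lg (Sl G)`, `StStep`,
  `Sta`, `OK`, `WG` are conjunctive (`IsConj.exL`, `IsConj.allL`, `IsConj.allF`, `IsConj.iteP`,
  `IsConj.allPre`, `IsConj.allSuf`).
-/

set_option autoImplicit false

namespace Pool.Agent.H29.CJ

open Lt

instance SpC_finite (K : ℕ) : Finite (Vr K) := by
  let f : Fin K ⊕ (Fin 3 × Fin K × Bool) → Vr K := fun x =>
    match x with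
    | Sum.inl A => .main A
    | Sum.inr (0, B, b) => .q1 B b
    | Sum.inr (1, B, b) => .q2 B b
    | Sum.inr (2, B, b) => .q3 B b
  refine Finite.of_surjective f ?_
  intro v
  cases v with
  | main A => exact ⟨Sum.inl A, rfl⟩
  | q1 B b => exact ⟨Sum.inr (0, B, b), rfl⟩
  | q2 B b => exact ⟨Sum.inr (1, B, b), rfl⟩
  | q3 B b => exact ⟨Sum.inr (2, B, b), rfl⟩

theorem isConj_UL {K : ℕ} (G : USys K) (A : Fin K) : IsConj (UL G A) := by
  have key := isConj_of_sys (α := Lt) (ι := Fin K)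
    (Φ := fun A X => {w | G.base A ∧ w ∈ LC isLeft} ∪
      {w | ∃ ρ ∈ G.rules A, ∀ p ∈ ρ, w ∈ cat (X p.1) (X p.2)})
    (fun A => Poly.union (Poly.cst _ ((isConj_LC isLeft).iteP (G.base A)))
      (Poly.exL (G.rules A) (Φ := fun ρ X => {w | ∀ p ∈ ρ, w ∈ cat (X p.1) (X p.2)})
        (fun ρ _ => Poly.allL ρ (Φ := fun p X => cat (X p.1) (X p.2))
          (fun p _ => Poly.cat (Poly.var p.1) (Poly.var p.2)))))
    (fun A => UL G A) (fun _ => 0) ?_ ?_
  · exact key A
  · intro A w hw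
    rcases hw with ⟨hb, a, ha, rfl⟩ | ⟨ρ, hρ, hp⟩
    · refine ⟨fun x hx => ?_, (G.Tiff A 1).2 (Or.inl ⟨rfl, hb⟩)⟩
      rw [List.mem_singleton] at hx
      rw [hx]
      exact ha
    · constructor
      · obtain ⟨p, hpρ⟩ := List.exists_mem_of_ne_nil ρ (G.ne A ρ hρ)
        obtain ⟨u, hu, v, hv, rfl⟩ := hp p hpρ
        intro x hx
        rcases List.mem_append.1 hx with h | h
        · exact hu.1 x h
        · exact hv.1 x h
      · refine (G.Tiff A _).2 (Or.inr ⟨ρ, hρ, fun p hpρ => ?_⟩)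
        obtain ⟨u, hu, v, hv, rfl⟩ := hp p hpρ
        exact ⟨u.length, v.length, (List.length_append).symm, hu.2, hv.2⟩
  · intro A w hw
    obtain ⟨hl, hT⟩ := hw
    rcases (G.Tiff A _).1 hT with ⟨h1, hb⟩ | ⟨ρ, hρ, hp⟩
    · obtain ⟨a, rfl⟩ := List.length_eq_one_iff.1 h1
      exact Or.inl ⟨hb, a, hl a (List.mem_singleton.2 rfl), rfl⟩
    · refine Or.inr ⟨ρ, hρ, fun p hpρ => ?_⟩
      obtain ⟨m₁, m₂, hm, h₁, h₂⟩ := hp p hpρ
      have hm₁ : 0 < m₁ := Nat.pos_of_ne_zero fun h => G.T0 p.1 (h ▸ h₁)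
      have hm₂ : 0 < m₂ := Nat.pos_of_ne_zero fun h => G.T0 p.2 (h ▸ h₂)
      have hl₁ : (w.take m₁).length = m₁ := by
        rw [List.length_take]
        omega
      have hl₂ : (w.drop m₁).length = m₂ := by
        rw [List.length_drop]
        omega
      refine ⟨w.take m₁, ⟨⟨fun x hx => hl x (List.mem_of_mem_take hx), ?_⟩, Or.inl ?_⟩,
        w.drop m₁, ⟨⟨fun x hx => hl x (List.mem_of_mem_drop hx), ?_⟩, Or.inl ?_⟩,
        (List.take_append_drop m₁ w).symm⟩
      · rw [hl₁]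
        exact h₁
      · rw [hl₁]
        omega
      · rw [hl₂]
        exact h₂
      · rw [hl₂]
        omega

theorem SpC_pw {L : Set (List Lt)} (h : IsConj L) (n : ℕ) : IsConj (pw L n) := by
  induction n with
  | zero => exact isConj_eps
  | succ n ih => exact h.cat ih

theorem SpC_Rec : IsConj Rec := (isConj_LC _).union ((isConj_LC _).cat (isConj_ST _))

theorem SpC_Row : IsConj Row := (isConj_LC _).cat (isConj_ST _)

theorem SpC_Rec' : IsConj Rec' := (isConj_LC _).union ((isConj_LC _).cat (isConj_ST _))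

theorem SpC_LkP : IsConj LkP :=
  ((isConj_LC _).cat (isConj_univ.cat (isConj_LC _))).union
    ((isConj_LC _).cat (IsConj.sync ((isConj_ST _).cat (isConj_LC _))
      ((isConj_ST _).cat ((isConj_LC _).cat (isConj_univ.cat ((isConj_LC _).cat SpC_Rec)))) SpC_Rec))

theorem SpC_LkE : IsConj LkE := (isConj_ST _).cat SpC_LkP

theorem SpC_LkA (A : ℕ) : IsConj (LkA A) :=
  (IsConj.sync (isConj_LC _) (SpC_LkP.cat (isConj_LC _)) SpC_Row).cat
    ((isConj_LC _).cat (SpC_pw (isConj_LC _) A))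

theorem SpC_MainLk (A : ℕ) : IsConj (MainLk A) :=
  (SpC_LkA A).cat ((((isConj_LC _).cat isConj_univ).inter (isConj_univ.cat (isConj_LC _))).inter
    (isConj_WT wTM (by decide) 0))

theorem SpC_StLk (A : ℕ) : IsConj (StLk A) :=
  (SpC_LkA A).cat ((((isConj_LC _).cat isConj_univ).inter (isConj_univ.cat (isConj_LC _))).inter
    (isConj_WT wTS (by decide) 0))

theorem SpC_StEm : IsConj StEm :=
  SpC_LkE.cat ((((isConj_LC _).cat isConj_univ).inter (isConj_univ.cat (isConj_LC _))).inter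
    (isConj_WT wTS (by decide) 0))

theorem SpC_EqG : IsConj EqG :=
  isConj_eps.union ((IsConj.sync (isConj_LC _) (isConj_LC _) (isConj_LC _)).cat (isConj_LC _))

theorem SpC_Tr (f : Bool) : IsConj (Tr f) :=
  ((SpC_EqG.cat SpC_EqG).inter (isConj_ST _)).inter
    ((isConj_WT cG (by decide) 2).inter (isConj_WT cZ (by decide) _))

theorem SpC_RI (b : Bool) : IsConj (RI b) :=
  (isConj_univ.cat (isConj_LC _)).inter (isConj_WT wRI (by decide) _)

theorem SpC_RII : IsConj RII := isConj_WT wRII (by decide) _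

theorem SpC_RJ1 : IsConj RJ1 := isConj_WT wJ1 (by decide) _

theorem SpC_RJ2 : IsConj RJ2 :=
  (isConj_univ.cat (isConj_LC _)).inter (isConj_WT wJ2 (by decide) _)

theorem SpC_RJ3 : IsConj RJ3 :=
  (isConj_univ.cat (isConj_LC _)).inter (isConj_WT wJ3 (by decide) _)

theorem SpC_Load : IsConj Load :=
  IsConj.sync (isConj_LC _)
    ((IsConj.sync (SpC_Tr false) ((isConj_LC _).cat (isConj_univ.cat (isConj_LC _))) SpC_Rec').cat
      (isConj_LC _)) (isConj_LC _)

section
variable {K : ℕ} (G : USys K)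

theorem SpC_LII (C : Fin K) : Poly (fun X : Vr K → Set (List Lt) => LII X C) :=
  Poly.cat (Poly.cst _ isConj_univ) (Poly.inter (Poly.cst _ SpC_Load)
    (Poly.cat (Poly.var (Vr.main C)) (Poly.cst _ SpC_RII)))

theorem SpC_Lg (B C : Fin K) : Poly (fun X : Vr K → Set (List Lt) => Lg X B C) :=
  Poly.cat (Poly.inter (Poly.var (Vr.q1 B false)) (SpC_LII C))
    (Poly.cst _ ((isConj_LC _).cat ((isConj_ST _).cat (isConj_LC _))))

theorem SpC_Step (p : Fin K × Fin K) : Poly (fun X : Vr K → Set (List Lt) => Step G X p) :=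
  Poly.union
    (Poly.union (Poly.cat (Poly.cst _ ((isConj_UL G p.2).inter (isConj_ST _))) (Poly.var (Vr.main p.1)))
      (Poly.cat (Poly.cst _ ((isConj_UL G p.1).inter (isConj_ST _))) (Poly.var (Vr.main p.2))))
    (Poly.union (SpC_Lg p.1 p.2) (SpC_Lg p.2 p.1))

theorem SpC_Phi (v : Vr K) : Poly (Phi G v) := by
  cases v with
  | main A =>
    exact Poly.union (Poly.cst _ (SpC_MainLk A))
      (Poly.exL (G.rules A) (Φ := fun ρ X => {w | ∀ p ∈ ρ, w ∈ Step G X p})
        (fun ρ _ => Poly.allL ρ (Φ := fun p X => Step G X p) (fun p _ => SpC_Step G p)))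
  | q1 B f =>
    exact Poly.union (Poly.union
      (Poly.cat (Poly.cst _ (isConj_LC _)) (Poly.cat (Poly.var (Vr.q1 B f)) (Poly.cst _ (isConj_LC _))))
      (Poly.iteP (Poly.cat (Poly.cst _ (isConj_LC _))
        (Poly.cat (Poly.var (Vr.q1 B true)) (Poly.cst _ (isConj_LC _)))) (f = false)))
      (Poly.cat (Poly.var (Vr.q2 B f)) (Poly.cst _ (isConj_LC _)))
  | q2 B f =>
    exact Poly.union (Poly.union
      (Poly.cat (Poly.cst _ (SpC_Tr false)) (Poly.cat (Poly.var (Vr.q2 B f)) (Poly.cst _ SpC_Rec')))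
      (Poly.iteP (Poly.cat (Poly.cst _ (SpC_Tr true))
        (Poly.cat (Poly.var (Vr.q2 B true)) (Poly.cst _ SpC_Rec'))) (f = false)))
      (Poly.var (Vr.q3 B f))
  | q3 B f =>
    exact Poly.union
      (Poly.cat (Poly.cst _ (isConj_LC _)) (Poly.cat (Poly.var (Vr.main B)) (Poly.cst _ (SpC_RI f))))
      (Poly.iteP (Poly.cat (Poly.cst _ (isConj_LC _))
        (Poly.cat (Poly.var (Vr.main B)) (Poly.cst _ (SpC_RI true)))) (f = false))

theorem SpC_Sl (v : Vr K) : IsConj (Sl G v) := isConj_Lfp (SpC_Phi G) v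

theorem SpC_LgS (B C : Fin K) : IsConj (Lg (Sl G) B C) :=
  ((SpC_Sl G _).inter (isConj_univ.cat (SpC_Load.inter ((SpC_Sl G _).cat SpC_RII)))).cat
    ((isConj_LC _).cat ((isConj_ST _).cat (isConj_LC _)))

theorem SpC_Gam (B : Fin K) : IsConj (Gam G B) :=
  (SpC_RJ1.inter ((SpC_Sl G _).cat SpC_RJ2)).cat ((isConj_ST _).cat (isConj_LC _))

theorem SpC_StStep (p : Fin K × Fin K) : IsConj (StStep G p) :=
  (((isConj_UL G p.2).cat (SpC_Gam G p.1)).union ((isConj_UL G p.1).cat (SpC_Gam G p.2))).union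
    (((SpC_LgS G p.1 p.2).union (SpC_LgS G p.2 p.1)).cat SpC_RJ3)

theorem SpC_Sta (A : Fin K) : IsConj (Sta G A) :=
  (IsConj.iteP ((isConj_LC _).cat ((isConj_ST _).cat (isConj_LC _))) (G.base A)).union
    (IsConj.exL (G.rules A) (L := fun ρ => {w | ∀ p ∈ ρ, w ∈ StStep G p})
      (fun ρ _ => IsConj.allL ρ (fun p _ => SpC_StStep G p)))

theorem SpC_OK (A : Fin K) : IsConj (OK G A) :=
  (SpC_Sta G A).union ((SpC_StLk A).union SpC_StEm)

end

theorem SpC_Blk (P : Lt → Prop) : IsConj (BlkPair P) :=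
  ((isConj_ST _).cat (isConj_LC _)).union
    ((isConj_eps.union (isConj_univ.cat (isConj_LC _))).cat
      ((IsConj.sync (isConj_LC _) (isConj_LC _) (isConj_LC _)).cat (isConj_LC _)))

theorem SpC_Srt : IsConj Srt :=
  IsConj.allL (List.range 8) (L := fun r => AllPre (fun x => reg x = r) (ST (fun x => reg x ≤ r)))
    (fun _ _ => IsConj.allPre _ (isConj_ST _))

theorem SpC_LeftOK : IsConj LeftOK :=
  (((isConj_ST _).cat (isConj_LC _)).cat (isConj_ST _)).inter
    ((isConj_ST _).inter ((IsConj.allPre _ (SpC_Blk _)).inter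
      ((IsConj.allPre _ (SpC_Blk _)).inter (IsConj.allPre _ (SpC_Blk _)))))

theorem SpC_WtOK : IsConj WtOK :=
  (IsConj.allPre _ ((isConj_WT wC (by decide) 0).inter (isConj_WT wK (by decide) 0))).inter
    ((IsConj.allPre _ (isConj_WT wKM (by decide) 0)).inter
      (IsConj.allPre _ ((isConj_WT wI (by decide) 0).inter
        ((isConj_WT wZN (by decide) 0).inter (isConj_WT wMT (by decide) 1)))))

theorem isConj_WG {k : ℕ} (G : USys (k + 1)) : IsConj (WG G) :=
  (SpC_Srt.inter (SpC_LeftOK.inter SpC_WtOK)).inter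
    ((IsConj.allSuf _ (IsConj.allPre _ (IsConj.allF (fun A => SpC_OK G A)))).inter (SpC_Sta G 0))

end Pool.Agent.H29.CJ
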