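import Pool.Agent.H29.CJ.FlM

/-!
# Positions of the certificate word: main region

Use only the STATEMENTS of the imported files (`FlM`, `AtL`).

Write `word P = U ++ ((List.range B).flatMap (zoneW P) ++ V)` with `U.length = oTab P B + B = oZone P 0`.  Zone `g` is
`ka^g ++ ((range g).flatMap (fun i => grpW (i+1)) ++ (cb^g ++ (kb^g ++ [mu])))` and occupies `[oZone g, oZone (g+1))`; its last
letter is `mu` (`mu_at`).  Inside: `word P = U' ++ ((range g).flatMap (fun i => grpW (i+1)) ++ V')` with `U'.length = oZone g + g`;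
group `i` starts at `oGrp g i` with the letter `cc`; then `(range (Z/(2 b2))).flatMap (mrecW (i+1))` starts at `oGrp g i + 1`, record
`j` at `oMr g i j`.  A nonempty record is `pp rr^(2 b2)`.  After it, still in zone `g`, there are at least `cb^g kb^g mu` with
`g ≥ 1` letters `cb`, so `oMr g i j + 1 + 2 b2 < oMu g`.  The only `mu` of zone `g` is its last letter (`oMu g - 1`).
-/

set_option autoImplicit false

namespace Pool.Agent.H29.CJ

open Lt Classical

variable {K : ℕ} (P : Prm K)

private def mdbS (w : List Lt) (s : ℕ) (u : List Lt) : Prop := ∀ t < u.length, w[s + t]? = u[t]?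

private theorem mdbS_left {w u v : List Lt} {s : ℕ} (h : mdbS w s (u ++ v)) : mdbS w s u := by
  intro t ht
  rw [h t (by rw [List.length_append]; omega), List.getElem?_append_left ht]

private theorem mdbS_right {w u v : List Lt} {s : ℕ} (h : mdbS w s (u ++ v)) :
    mdbS w (s + u.length) v := by
  intro t ht
  have h1 := h (u.length + t) (by rw [List.length_append]; omega)
  rw [List.getElem?_append_right (by omega), Nat.add_sub_cancel_left] at h1
  rw [Nat.add_assoc]
  exact h1

private theorem mdbS_flat {w : List Lt} {s : ℕ} (f : ℕ → List Lt) {j n : ℕ} (hj : j < n)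
    (h : mdbS w s ((List.range n).flatMap f)) :
    mdbS w (s + ((List.range j).flatMap f).length) (f j) := by
  obtain ⟨r, hr⟩ := range_flatMap_split f hj
  rw [hr] at h
  exact mdbS_left (mdbS_right h)

private theorem mdbS_at {w u : List Lt} {s : ℕ} {L : Set (List Lt)} (h : mdbS w s u)
    (hu : u ∈ L) (h0 : 0 < u.length) : At w L s (s + u.length) := by
  have h1 := h (u.length - 1) (by omega)
  rw [List.getElem?_eq_getElem (by omega : u.length - 1 < u.length)] at h1
  obtain ⟨h2, _⟩ := List.getElem?_eq_some_iff.1 h1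
  refine ⟨by omega, by omega, ?_⟩
  have e : seg w s (s + u.length) = u := by
    apply List.ext_getElem?
    intro t
    rw [getElem?_seg]
    by_cases ht : t < u.length
    · rw [if_pos (by omega)]
      exact h t ht
    · rw [if_neg (by omega), List.getElem?_eq_none (by omega)]
  rw [e]
  exact hu

private theorem mdb_main : mdbS (word P) (oTab P P.B + P.B) ((List.range P.B).flatMap (zoneW P)) := by
  have h0 : mdbS (word P) 0 (word P) := fun t _ => by rw [Nat.zero_add]
  have h1 : mdbS (word P) (0 + (leftW P).length) _ := mdbS_right h0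
  have h2 := mdbS_right h1
  have h3 := mdbS_right h2
  have h4 := mdbS_right h3
  have h5 := mdbS_right h4
  have h6 := mdbS_left h5
  have e : 0 + (leftW P).length + (List.replicate P.Nz nu).length + (List.replicate P.F fi).length +
      (cenW P).length + (List.replicate P.B th).length = oTab P P.B + P.B := by
    unfold oTab leftW cenW
    simp only [List.length_map, List.length_range, List.length_replicate]
    omega
  rw [e] at h6
  exact h6

private theorem mdb_zone {g : ℕ} (hg : g < P.B) : mdbS (word P) (oZone P g) (zoneW P g) :=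
  mdbS_flat (zoneW P) hg (mdb_main P)

private theorem mdb_mu (g : ℕ) : oMu P g = oZone P g + (zoneW P g).length := by
  unfold oMu oZone
  rw [length_flatMap_succ]
  omega

private theorem mdb_zone_mono {i g : ℕ} (h : i ≤ g) : oZone P i ≤ oZone P g := by
  have := length_flatMap_mono (zoneW P) h
  unfold oZone
  omega

private noncomputable def mdbX (g : ℕ) : List Lt :=
  List.replicate g ka ++ ((List.range g).flatMap (fun i => grpW P (i + 1)) ++
    (List.replicate g cb ++ List.replicate g kb))

private theorem mdb_zone_eq (g : ℕ) : zoneW P g = mdbX P g ++ [mu] := by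
  unfold zoneW mdbX
  simp only [List.append_assoc]

private theorem mdbX_ne (g : ℕ) : ∀ x ∈ mdbX P g, x ≠ mu := by
  intro x hx
  unfold mdbX at hx
  rw [List.mem_append, List.mem_append, List.mem_append] at hx
  rcases hx with hx | hx | hx | hx
  · rw [(List.mem_replicate.1 hx).2]; decide
  · obtain ⟨i, _, hi⟩ := List.mem_flatMap.1 hx
    unfold grpW at hi
    rcases List.mem_cons.1 hi with rfl | hi
    · decide
    · obtain ⟨j, _, hj⟩ := List.mem_flatMap.1 hi
      unfold mrecW at hj
      split_ifs at hj with hc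
      · rcases List.mem_cons.1 hj with rfl | hj
        · decide
        · rw [(List.mem_replicate.1 hj).2]; decide
      · rw [List.mem_singleton.1 hj]; decide
  · rw [(List.mem_replicate.1 hx).2]; decide
  · rw [(List.mem_replicate.1 hx).2]; decide

private theorem mdb_zone_len (g : ℕ) : (zoneW P g).length =
    g + ((List.range g).flatMap (fun i => grpW P (i + 1))).length + g + g + 1 := by
  unfold zoneW
  simp only [List.length_append, List.length_replicate, List.length_singleton]
  omega

private theorem mdb_grp {g i : ℕ} (hg : g < P.B) (hi : i < g) :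
    mdbS (word P) (oGrp P g i) (grpW P (i + 1)) := by
  have h := mdb_zone P hg
  unfold zoneW at h
  have h1 := mdbS_left (mdbS_right h)
  rw [List.length_replicate] at h1
  exact mdbS_flat (fun i => grpW P (i + 1)) hi h1

private theorem mdb_grp_end {g i : ℕ} (hi : i < g) :
    oGrp P g i + (grpW P (i + 1)).length < oMu P g := by
  have h1 := length_flatMap_succ (fun i => grpW P (i + 1)) i
  have h2 := length_flatMap_mono (fun i => grpW P (i + 1)) (Nat.succ_le_of_lt hi)
  rw [mdb_mu, mdb_zone_len]
  unfold oGrp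
  simp only [Nat.succ_eq_add_one] at h2
  omega

private theorem mdb_mr {g i j : ℕ} (hg : g < P.B) (hi : i < g) (hj : j < P.Z / (2 * P.b2)) :
    mdbS (word P) (oMr P g i j) (mrecW P (i + 1) j) := by
  have h := mdb_grp P hg hi
  have h1 : mdbS (word P) (oGrp P g i) ([cc] ++ (List.range (P.Z / (2 * P.b2))).flatMap (mrecW P (i + 1))) := h
  have h2 := mdbS_right h1
  exact mdbS_flat (mrecW P (i + 1)) hj h2

private theorem mdb_mr_succ (g i j : ℕ) :
    oMr P g i (j + 1) = oMr P g i j + (mrecW P (i + 1) j).length := by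
  unfold oMr
  rw [length_flatMap_succ]
  omega

private theorem mdb_mr_end {g i j : ℕ} (hj : j < P.Z / (2 * P.b2)) :
    oMr P g i j + (mrecW P (i + 1) j).length ≤ oGrp P g i + (grpW P (i + 1)).length := by
  have h2 := length_flatMap_mono (mrecW P (i + 1)) (Nat.succ_le_of_lt hj)
  have h3 : (grpW P (i + 1)).length =
      ((List.range (P.Z / (2 * P.b2))).flatMap (mrecW P (i + 1))).length + 1 := rfl
  rw [← mdb_mr_succ, h3]
  unfold oMr
  simp only [Nat.succ_eq_add_one] at h2
  omega

theorem mdl_mu_at (hP : P.Good) :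
    ∀ g < P.B, 0 < oMu P g ∧ Is (word P) (oMu P g - 1) (· = mu) := by
  intro g hg
  have h := mdb_zone P hg
  rw [mdb_zone_eq] at h
  have h1 := mdbS_right h 0 (by simp)
  have h2 : oMu P g = oZone P g + (mdbX P g).length + 1 := by
    rw [mdb_mu, mdb_zone_eq, List.length_append, List.length_singleton]
    omega
  rw [h2]
  refine ⟨by omega, mu, ?_, rfl⟩
  rw [Nat.add_sub_cancel]
  simpa using h1

theorem mdl_mu_le (hP : P.Good) :
    ∀ g i, g < P.B → i < P.B → i < g → ∀ i' < g, oMu P i ≤ oGrp P g i' := by
  intro g i _ _ hi i' _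
  have h := mdb_zone_mono P (Nat.succ_le_of_lt hi)
  have h1 : oZone P g ≤ oGrp P g i' := by unfold oGrp; omega
  exact le_trans h h1

theorem mdl_grp_at (hP : P.Good) :
    ∀ g < P.B, ∀ i < g, Is (word P) (oGrp P g i) (· = cc) ∧ P.Nz * P.Z ≤ oGrp P g i := by
  intro g hg i hi
  have h := mdb_grp P hg hi 0 (by simp [grpW])
  refine ⟨⟨cc, ?_, rfl⟩, ?_⟩
  · rw [Nat.add_zero] at h
    rw [h]
    rfl
  · unfold oGrp oZone oTab
    omega

theorem mdl_mr_step (hP : P.Good) :
    ∀ g < P.B, ∀ i < g, ∀ j < P.Z / (2 * P.b2),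
    At (word P) Rec' (oMr P g i j) (oMr P g i (j + 1)) := by
  intro g hg i hi j hj
  rw [mdb_mr_succ]
  refine mdbS_at (mdb_mr P hg hi hj) ?_ ?_
  · unfold mrecW
    split_ifs with hc
    · refine Or.inr ⟨[pp], ⟨pp, rfl, rfl⟩, List.replicate (2 * P.b2) rr, ?_, rfl⟩
      intro x hx
      exact (List.mem_replicate.1 hx).2
    · exact Or.inl ⟨ee, rfl, rfl⟩
  · unfold mrecW
    split_ifs <;> simp

theorem mdl_mr_pp (hP : P.Good) :
    ∀ g < P.B, ∀ i < g, ∀ j < P.Z / (2 * P.b2), P.Mn (i + 1) j →
    Is (word P) (oMr P g i j) (· = pp) ∧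
    (∀ k < 2 * P.b2, Is (word P) (oMr P g i j + 1 + k) (· = rr)) ∧
    oMr P g i j + 1 + 2 * P.b2 < oMu P g ∧
    (∀ t, oMr P g i j ≤ t → t < oMu P g - 1 → Is (word P) t (· ≠ mu)) := by
  intro g hg i hi j hj hM
  have h := mdb_mr P hg hi hj
  have e : mrecW P (i + 1) j = pp :: List.replicate (2 * P.b2) rr := by
    unfold mrecW
    rw [if_pos hM]
  have h1 := mdb_mr_end P (g := g) (i := i) hj
  have h2 := mdb_grp_end P hi
  rw [e] at h h1
  have hl : (pp :: List.replicate (2 * P.b2) rr).length = 2 * P.b2 + 1 := by simp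
  rw [hl] at h1
  refine ⟨⟨pp, ?_, rfl⟩, ?_, by omega, ?_⟩
  · have h3 := h 0 (by omega)
    rw [Nat.add_zero] at h3
    rw [h3]
    rfl
  · intro k hk
    refine ⟨rr, ?_, rfl⟩
    have h3 := h (1 + k) (by omega)
    rw [← Nat.add_assoc] at h3
    rw [h3, Nat.add_comm 1 k, List.getElem?_cons_succ, List.getElem?_replicate, if_pos hk]
  · intro t ht1 ht2
    have h4 := mdb_zone P hg
    rw [mdb_zone_eq] at h4
    have h5 := mdbS_left h4
    have h6 : oMu P g = oZone P g + (mdbX P g).length + 1 := by
      rw [mdb_mu, mdb_zone_eq, List.length_append, List.length_singleton]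
      omega
    have h7 : oZone P g ≤ oMr P g i j := by
      unfold oMr oGrp
      omega
    obtain ⟨s, rfl⟩ : ∃ s, t = oZone P g + s := ⟨t - oZone P g, by omega⟩
    have hs : s < (mdbX P g).length := by omega
    have h8 := h5 s hs
    rw [List.getElem?_eq_getElem hs] at h8
    exact ⟨_, h8, mdbX_ne P g _ (List.getElem_mem hs)⟩

end Pool.Agent.H29.CJ
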