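import Pool.Agent.H29.CJ.FlM

/-!
# Positions of the certificate word: start region

Use only the STATEMENTS of the imported files (`FlM`, `AtL`).

`word P = U ++ (List.range B).flatMap (fun _ => szW P)` with `U.length = oZone P B + (B - 1) = oSz P 0`, and `szW P` has length
`2 Nz + 1`: `io^Nz ib^Nz sg`.  Zone `g` occupies `[oSz g, oSz (g+1))`, `oSg g = oSz (g+1)`.  `oIo g k = oSz g + k` for `0 < k < Nz`
(the letter before is `io`), `oIo g 0 = oSz g + 2 Nz` (the letter before is `ib`, as `Nz > 0`).  No letter of `U` is `sg` (membership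
in each part), so the `sg` letters are exactly the last letters of the zones.  `mu_io`: `oMu g = oZone (g+1) ≤ oZone B`
(`length_flatMap_mono`).
-/

set_option autoImplicit false

namespace Pool.Agent.H29.CJ

open Lt Classical

variable {K : ℕ} (P : Prm K)

private noncomputable def MdC_U : List Lt :=
  leftW P ++ (List.replicate P.Nz nu ++ (List.replicate P.F fi ++ (cenW P ++
    (List.replicate P.B th ++ (mainW P ++ List.replicate (P.B - 1) tp)))))

private theorem MdC_word : word P = MdC_U P ++ (stW P ++ []) := by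
  unfold word MdC_U
  simp only [List.append_assoc, List.append_nil]

private theorem MdC_Ulen : (MdC_U P).length = oSz P 0 := by
  unfold MdC_U oSz oZone oTab
  simp only [List.length_append, List.length_replicate, leftW, List.length_map, List.length_range,
    cenW, mainW]
  ring

private theorem MdC_szlen : (szW P).length = 2 * P.Nz + 1 := by
  unfold szW
  simp only [List.length_append, List.length_replicate, List.length_singleton]
  ring

private theorem MdC_stlen (g : ℕ) : ((List.range g).flatMap (fun _ => szW P)).length =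
    g * (2 * P.Nz + 1) :=
  length_flatMap_const _ (fun _ _ => MdC_szlen P)

private theorem MdC_oSz (g : ℕ) : oSz P g = (MdC_U P).length + g * (2 * P.Nz + 1) := by
  rw [MdC_Ulen]
  unfold oSz
  ring

private theorem MdC_get {g t : ℕ} (hg : g < P.B) (ht : t < 2 * P.Nz + 1) :
    (word P)[oSz P g + t]? = (szW P)[t]? := by
  have h := getElem?_flatMap (fun _ => szW P) (j := g) (n := P.B) (t := t) hg
    (by rw [MdC_szlen]; exact ht) (MdC_U P) []
  rw [MdC_stlen, ← MdC_oSz] at h
  rw [MdC_word]
  exact h

private theorem MdC_sz_lt {t : ℕ} (ht : t < 2 * P.Nz) :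
    ∃ x, (szW P)[t]? = some x ∧ isIO x := by
  unfold szW
  rcases Nat.lt_or_ge t P.Nz with h | h
  · refine ⟨io, ?_, Or.inl rfl⟩
    rw [List.getElem?_append_left (by rw [List.length_replicate]; exact h),
      List.getElem?_replicate_of_lt h]
  · refine ⟨ib, ?_, Or.inr rfl⟩
    rw [List.getElem?_append_right (by rw [List.length_replicate]; exact h), List.length_replicate,
      List.getElem?_append_left (by rw [List.length_replicate]; omega),
      List.getElem?_replicate_of_lt (by omega)]

private theorem MdC_sz_last : (szW P)[2 * P.Nz]? = some sg := by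
  unfold szW
  rw [List.getElem?_append_right (by rw [List.length_replicate]; omega), List.length_replicate,
    List.getElem?_append_right (by rw [List.length_replicate]; omega), List.length_replicate]
  have : 2 * P.Nz - P.Nz - P.Nz = 0 := by omega
  rw [this]
  rfl

private theorem MdC_io {g t : ℕ} (hg : g < P.B) (ht : t < 2 * P.Nz) :
    Is (word P) (oSz P g + t) isIO := by
  obtain ⟨x, hx, hio⟩ := MdC_sz_lt P ht
  exact ⟨x, (MdC_get P hg (by omega)).trans hx, hio⟩

private theorem MdC_sg {g : ℕ} (hg : g < P.B) : Is (word P) (oSz P g + 2 * P.Nz) (· = sg) :=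
  ⟨sg, (MdC_get P hg (by omega)).trans (MdC_sz_last P), rfl⟩

private theorem MdC_ne {x : Lt} (h : isIO x) : x ≠ sg := by
  rcases h with rfl | rfl <;> simp

private theorem MdC_oSg (g : ℕ) : oSg P g - 1 = oSz P g + 2 * P.Nz := by
  unfold oSg oSz
  have : (g + 1) * (2 * P.Nz + 1) = g * (2 * P.Nz + 1) + (2 * P.Nz + 1) := by ring
  omega

private theorem MdC_U_ne : ∀ x ∈ MdC_U P, x ≠ sg := by
  intro x hx
  unfold MdC_U at hx
  simp only [List.mem_append] at hx
  rcases hx with h | h | h | h | h | h | h
  · unfold leftW at h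
    obtain ⟨i, -, rfl⟩ := List.mem_map.1 h
    unfold lefL
    simp
  · rw [(List.mem_replicate.1 h).2]
    simp
  · rw [(List.mem_replicate.1 h).2]
    simp
  · unfold cenW at h
    obtain ⟨g, -, h⟩ := List.mem_flatMap.1 h
    unfold tabW at h
    rcases List.mem_cons.1 h with rfl | h
    · simp
    obtain ⟨j, -, h⟩ := List.mem_flatMap.1 h
    unfold recW at h
    split_ifs at h with hc
    · rcases List.mem_cons.1 h with rfl | h
      · simp
      obtain ⟨k, -, h⟩ := List.mem_flatMap.1 h
      unfold rowW at h
      rcases List.mem_cons.1 h with rfl | h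
      · simp
      obtain ⟨A, -, rfl⟩ := List.mem_map.1 h
      simp
    · rw [List.mem_singleton.1 h]
      simp
  · rw [(List.mem_replicate.1 h).2]
    simp
  · unfold mainW at h
    obtain ⟨g, -, h⟩ := List.mem_flatMap.1 h
    unfold zoneW at h
    simp only [List.mem_append] at h
    rcases h with h | h | h | h | h
    · rw [(List.mem_replicate.1 h).2]
      simp
    · obtain ⟨i, -, h⟩ := List.mem_flatMap.1 h
      unfold grpW at h
      rcases List.mem_cons.1 h with rfl | h
      · simp
      obtain ⟨j, -, h⟩ := List.mem_flatMap.1 h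
      unfold mrecW at h
      split_ifs at h with hc
      · rcases List.mem_cons.1 h with rfl | h
        · simp
        rw [(List.mem_replicate.1 h).2]
        simp
      · rw [List.mem_singleton.1 h]
        simp
    · rw [(List.mem_replicate.1 h).2]
      simp
    · rw [(List.mem_replicate.1 h).2]
      simp
    · rw [List.mem_singleton.1 h]
      simp
  · rw [(List.mem_replicate.1 h).2]
    simp

private theorem MdC_U_Is {t : ℕ} (ht : t < (MdC_U P).length) : Is (word P) t (· ≠ sg) := by
  refine ⟨(MdC_U P)[t], ?_, MdC_U_ne P _ (List.getElem_mem ht)⟩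
  rw [MdC_word, List.getElem?_append_left ht, List.getElem?_eq_getElem ht]

theorem mdl_mu_io (hP : P.Good) :
    ∀ g < P.B, ∀ g' < P.B, ∀ k, oMu P g ≤ oIo P g' k := by
  intro g hg g' _ k
  have h1 : oMu P g ≤ oZone P P.B := by
    unfold oMu oZone
    have := length_flatMap_mono (zoneW P) (i := g + 1) (j := P.B) (by omega)
    omega
  have h2 : oZone P P.B ≤ oSz P g' := by
    unfold oSz
    omega
  have h3 : oSz P g' ≤ oIo P g' k := by
    unfold oIo
    omega
  omega

theorem mdl_io_at (hP : P.Good) :
    ∀ g < P.B, ∀ k < P.Nz, 0 < oIo P g k ∧ Is (word P) (oIo P g k - 1) isIO ∧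
    oIo P g k ≤ oSg P g - 1 ∧ (∀ t, oIo P g k ≤ t → t < oSg P g - 1 → Is (word P) t (· ≠ sg)) := by
  intro g hg k hk
  have hNz := hP.Nzpos
  have h1 : oSz P g < oIo P g k ∧ oIo P g k ≤ oSz P g + 2 * P.Nz := by
    unfold oIo
    split_ifs with h <;> omega
  rw [MdC_oSg]
  refine ⟨by omega, ?_, h1.2, fun t h2 h3 => ?_⟩
  · have h4 := MdC_io P hg (t := oIo P g k - 1 - oSz P g) (by omega)
    have e : oSz P g + (oIo P g k - 1 - oSz P g) = oIo P g k - 1 := by omega
    rw [e] at h4
    exact h4
  · have h4 := MdC_io P hg (t := t - oSz P g) (by omega)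
    have e : oSz P g + (t - oSz P g) = t := by omega
    rw [e] at h4
    exact h4.mono (fun x hx => MdC_ne hx)

theorem mdl_sg_at (hP : P.Good) :
    ∀ g < P.B, 0 < oSg P g ∧ Is (word P) (oSg P g - 1) (· = sg) := by
  intro g hg
  rw [MdC_oSg]
  refine ⟨?_, MdC_sg P hg⟩
  unfold oSg oSz
  have : (g + 1) * (2 * P.Nz + 1) = g * (2 * P.Nz + 1) + (2 * P.Nz + 1) := by ring
  omega

theorem mdl_sg_only (hP : P.Good) :
    ∀ s, Is (word P) s (· = sg) → ∃ g < P.B, s = oSg P g - 1 := by
  intro s hs
  have hlen := hs.lt
  obtain ⟨x, hx, rfl⟩ := hs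
  have hlt : (word P).length = (MdC_U P).length + P.B * (2 * P.Nz + 1) := by
    rw [MdC_word, List.append_nil, List.length_append]
    unfold stW
    rw [MdC_stlen]
  rcases Nat.lt_or_ge s (MdC_U P).length with h | h
  · exfalso
    obtain ⟨y, hy, hne⟩ := MdC_U_Is P h
    rw [hx] at hy
    exact hne (Option.some.inj hy).symm
  · have hc : 0 < 2 * P.Nz + 1 := by omega
    set c := 2 * P.Nz + 1 with hcd
    set r := s - (MdC_U P).length with hr
    have hrB : r < P.B * c := by omega
    have hg : r / c < P.B := (Nat.div_lt_iff_lt_mul hc).2 hrB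
    have hm : r % c < c := Nat.mod_lt _ hc
    have hdm : r / c * c + r % c = r := by
      have := Nat.div_add_mod r c
      rw [Nat.mul_comm] at this
      exact this
    have hs' : s = oSz P (r / c) + r % c := by
      rw [MdC_oSz, ← hcd]
      omega
    refine ⟨r / c, hg, ?_⟩
    rw [MdC_oSg]
    rcases Nat.lt_or_ge (r % c) (2 * P.Nz) with h2 | h2
    · exfalso
      obtain ⟨y, hy, hio⟩ := MdC_io P hg h2
      rw [← hs', hx] at hy
      exact MdC_ne hio (Option.some.inj hy).symm
    · omega

theorem mdl_sg_first (hP : P.Good) :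
    ∀ t < oSg P 0 - 1, Is (word P) t (· ≠ sg) := by
  intro t ht
  rw [MdC_oSg] at ht
  rcases Nat.lt_or_ge t (MdC_U P).length with h | h
  · exact MdC_U_Is P h
  · rw [MdC_Ulen] at h
    have h4 := MdC_io P hP.Bpos (t := t - oSz P 0) (by omega)
    have e : oSz P 0 + (t - oSz P 0) = t := by omega
    rw [e] at h4
    exact h4.mono (fun x hx => MdC_ne hx)

theorem mdl_sg_last (hP : P.Good) :
    oSg P (P.B - 1) = (word P).length := by
  have hB := hP.Bpos
  have hlt : (word P).length = (MdC_U P).length + P.B * (2 * P.Nz + 1) := by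
    rw [MdC_word, List.append_nil, List.length_append]
    unfold stW
    rw [MdC_stlen]
  rw [hlt]
  unfold oSg
  rw [MdC_oSz, Nat.sub_add_cancel hB]

end Pool.Agent.H29.CJ
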