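import Pool.Agent.H29.CJ.FlM

/-!
# Weights of the certificate word, second part

Use only the STATEMENTS of the imported files (`FlM`, `AtL`).

As in the first part: `pre f w i = wt f u` when `w = u ++ v`, `i = u.length` (`pre_cut`); add up the weights of the parts.
`wRI = #mu - #cc + #cb`: `zoneW g` has weight `1` (`g` letters `cc`, one per group, and `g` letters `cb`), everything outside the
main region `0`.  At `oMr g i 0 = oGrp g i + 1`: `g` full zones, `ka^g`, `i + 1` letters `cc`: `g - (i + 1)`.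
`wRII = #mu + #cc - #cb - #ka + #kb`: `zoneW g` has weight `1`; inside zone `g` after `ka^g` and `i + 1` letters `cc` (and letters
`ee, pp, rr` of weight `0`): `g - g + (i + 1)`.
`wJ1 = #z + #io - #ib - #nu`: in the left region `y / Z` letters `z` among the first `y` (induction on `y`, `Nat.succ_div`); the whole left
region has `Nz`, cancelled by `nu^Nz`; a start zone has weight `0`; inside after `k` letters `io` it is `k`, at the end of `ib^Nz` it is `0`.
`wJ2 = #mu + #sg - #io + #ib - #tp`, `wJ3 = #mu + #sg - #tp`: main region `B`, `tp^(B-1)`: `-(B-1)` (`B ≥ 1`), each start zone `1`.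
-/

set_option autoImplicit false

namespace Pool.Agent.H29.CJ

open Lt Classical

variable {K : ℕ} (P : Prm K)

/-- the word before the main region -/
private noncomputable def MdU_hd : List Lt :=
  leftW P ++ (List.replicate P.Nz nu ++ (List.replicate P.F fi ++ (cenW P ++ List.replicate P.B th)))

private theorem MdU_word :
    word P = MdU_hd P ++ (mainW P ++ (List.replicate (P.B - 1) tp ++ stW P)) := by
  simp [word, MdU_hd, List.append_assoc]

private theorem MdU_len : (MdU_hd P).length = oTab P P.B + P.B := by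
  simp only [MdU_hd, List.length_append, List.length_replicate, oTab, cenW, leftW, List.length_map,
    List.length_range]
  ring

private theorem MdU_reg_cen : ∀ b ∈ cenW P, reg b = 3 := by
  intro b hb
  unfold cenW at hb
  rw [List.mem_flatMap] at hb
  obtain ⟨g, -, hb⟩ := hb
  unfold tabW at hb
  rw [List.mem_cons] at hb
  rcases hb with rfl | hb
  · rfl
  rw [List.mem_flatMap] at hb
  obtain ⟨j, -, hb⟩ := hb
  unfold recW at hb
  split_ifs at hb
  · rw [List.mem_cons] at hb
    rcases hb with rfl | hb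
    · rfl
    rw [List.mem_flatMap] at hb
    obtain ⟨k, -, hb⟩ := hb
    unfold rowW at hb
    rw [List.mem_cons] at hb
    rcases hb with rfl | hb
    · rfl
    rw [List.mem_map] at hb
    obtain ⟨A, -, rfl⟩ := hb
    rfl
  · rw [List.mem_singleton] at hb
    rw [hb]
    rfl

private theorem MdU_hd_zero (f : Lt → ℤ) (hf : ∀ b, reg b ≤ 4 → f b = 0) :
    wt f (MdU_hd P) = 0 := by
  apply wt_zero
  intro b hb
  apply hf
  unfold MdU_hd at hb
  rw [List.mem_append, List.mem_append, List.mem_append, List.mem_append] at hb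
  rcases hb with hb | hb | hb | hb | hb
  · unfold leftW at hb
    rw [List.mem_map] at hb
    obtain ⟨i, -, rfl⟩ := hb
    exact Nat.zero_le _
  · rw [List.eq_of_mem_replicate hb]; decide
  · rw [List.eq_of_mem_replicate hb]; decide
  · rw [MdU_reg_cen P b hb]; decide
  · rw [List.eq_of_mem_replicate hb]; decide

/-- prefix ending in zone `g` -/
private theorem MdU_zone (f : Lt → ℤ) {g : ℕ} (hg : g < P.B) (u v : List Lt)
    (h : zoneW P g = u ++ v) {i : ℕ} (hi : i = oZone P g + u.length) :
    pre f (word P) i =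
      wt f (MdU_hd P) + wt f ((List.range g).flatMap (zoneW P)) + wt f u := by
  obtain ⟨r, hr⟩ := range_flatMap_split (zoneW P) hg
  have e : word P = (MdU_hd P ++ ((List.range g).flatMap (zoneW P) ++ u)) ++
      (v ++ (r ++ (List.replicate (P.B - 1) tp ++ stW P))) := by
    rw [MdU_word, mainW, hr, h]
    simp only [List.append_assoc]
  rw [e, pre_cut f _ _ (i := i), atl_wt_append, atl_wt_append, add_assoc]
  rw [hi, List.length_append, List.length_append, MdU_len, oZone]
  ring

private theorem MdU_mu (f : Lt → ℤ) {c : ℤ} {g : ℕ} (hg : g < P.B)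
    (h : ∀ j < P.B, wt f (zoneW P j) = c) :
    pre f (word P) (oMu P g) = wt f (MdU_hd P) + ((g : ℤ) + 1) * c := by
  have h1 := MdU_zone P f hg (zoneW P g) [] (by simp) (i := oMu P g) (by
    rw [oMu, oZone, oZone, length_flatMap_succ]
    ring)
  rw [h1, wt_flatMap_const f (zoneW P) (c := c) (fun j hj => h j (by omega)), h g hg]
  ring

private theorem MdU_cons (f : Lt → ℤ) (b : Lt) (u : List Lt) : wt f (b :: u) = f b + wt f u := by
  simp [wt]

private theorem MdU_nil (f : Lt → ℤ) : wt f ([] : List Lt) = 0 := by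
  simp [wt]

private theorem MdU_mrec (f : Lt → ℤ) (h1 : f pp = 0) (h2 : f rr = 0) (h3 : f ee = 0) (i j : ℕ) :
    wt f (mrecW P i j) = 0 := by
  unfold mrecW
  split_ifs
  · rw [MdU_cons, wt_replicate, h1, h2]; ring
  · rw [MdU_cons, MdU_nil, h3]; ring

private theorem MdU_grp (f : Lt → ℤ) (h1 : f pp = 0) (h2 : f rr = 0) (h3 : f ee = 0) (i : ℕ) :
    wt f (grpW P i) = f cc := by
  unfold grpW
  rw [MdU_cons, wt_flatMap_const f (mrecW P i) (c := 0) (fun j _ => MdU_mrec P f h1 h2 h3 i j)]
  ring

private theorem MdU_zoneW (f : Lt → ℤ) (h1 : f pp = 0) (h2 : f rr = 0) (h3 : f ee = 0) (g : ℕ) :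
    wt f (zoneW P g) = g * (f ka + f cc + f cb + f kb) + f mu := by
  unfold zoneW
  rw [atl_wt_append, atl_wt_append, atl_wt_append, atl_wt_append, wt_replicate, wt_replicate,
    wt_replicate, MdU_cons, MdU_nil,
    wt_flatMap_const f (fun i => grpW P (i + 1)) (c := f cc)
      (fun j _ => MdU_grp P f h1 h2 h3 (j + 1))]
  ring

private theorem MdU_RI0 : ∀ b, reg b ≤ 4 → wRI b = 0 := by
  intro b hb
  cases b <;> simp_all [reg, wRI]

private theorem MdU_RII0 : ∀ b, reg b ≤ 4 → wRII b = 0 := by
  intro b hb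
  cases b <;> simp_all [reg, wRII]

private theorem MdU_J20 : ∀ b, reg b ≤ 4 → wJ2 b = 0 := by
  intro b hb
  cases b <;> simp_all [reg, wJ2]

private theorem MdU_J30 : ∀ b, reg b ≤ 4 → wJ3 b = 0 := by
  intro b hb
  cases b <;> simp_all [reg, wJ3]

/-- The first part of zone `g`, up to the `cc` of group `i + 1`. -/
private theorem MdU_grpcut {g i : ℕ} (hi : i < g) :
    ∃ r : List Lt, zoneW P g =
      (List.replicate g ka ++ (List.range i).flatMap (fun i => grpW P (i + 1))) ++
        (grpW P (i + 1) ++ r) := by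
  obtain ⟨r, hr⟩ := range_flatMap_split (fun i => grpW P (i + 1)) hi
  refine ⟨r ++ (List.replicate g cb ++ (List.replicate g kb ++ [mu])), ?_⟩
  unfold zoneW
  rw [hr]
  simp only [List.append_assoc]

private theorem MdU_grpwt (f : Lt → ℤ) (h1 : f pp = 0) (h2 : f rr = 0) (h3 : f ee = 0) (g i : ℕ) :
    wt f (List.replicate g ka ++ (List.range i).flatMap (fun i => grpW P (i + 1))) =
      g * f ka + i * f cc := by
  rw [atl_wt_append, wt_replicate,
    wt_flatMap_const f (fun i => grpW P (i + 1)) (c := f cc)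
      (fun j _ => MdU_grp P f h1 h2 h3 (j + 1))]

private theorem MdU_zones (f : Lt → ℤ) {c : ℤ} (h : ∀ j, wt f (zoneW P j) = c) (g : ℕ) :
    wt f ((List.range g).flatMap (zoneW P)) = g * c :=
  wt_flatMap_const f (zoneW P) (c := c) (fun j _ => h j)

private theorem MdU_zRI (j : ℕ) : wt wRI (zoneW P j) = 1 := by
  rw [MdU_zoneW P wRI rfl rfl rfl j]
  simp [wRI]

private theorem MdU_zRII (j : ℕ) : wt wRII (zoneW P j) = 1 := by
  rw [MdU_zoneW P wRII rfl rfl rfl j]
  simp [wRII]

private theorem MdU_zJ1 (j : ℕ) : wt wJ1 (zoneW P j) = 0 := by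
  rw [MdU_zoneW P wJ1 rfl rfl rfl j]
  simp [wJ1]

private theorem MdU_zJ2 (j : ℕ) : wt wJ2 (zoneW P j) = 1 := by
  rw [MdU_zoneW P wJ2 rfl rfl rfl j]
  simp [wJ2]

private theorem MdU_zJ3 (j : ℕ) : wt wJ3 (zoneW P j) = 1 := by
  rw [MdU_zoneW P wJ3 rfl rfl rfl j]
  simp [wJ3]

theorem mdl_RI_mu (hP : P.Good) :
    ∀ g < P.B, pre wRI (word P) (oMu P g) = g + 1 := by
  intro g hg
  rw [MdU_mu P wRI (c := 1) hg (fun j _ => MdU_zRI P j), MdU_hd_zero P wRI MdU_RI0]
  ring

theorem mdl_RI_grp (hP : P.Good) :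
    ∀ g < P.B, ∀ i < g, pre wRI (word P) (oMr P g i 0) = (g : ℤ) - (i + 1) := by
  intro g hg i hi
  obtain ⟨r, hr⟩ := MdU_grpcut P hi
  have h1 := MdU_zone P wRI hg
    ((List.replicate g ka ++ (List.range i).flatMap (fun i => grpW P (i + 1))) ++ [cc])
    ((List.range (P.Z / (2 * P.b2))).flatMap (mrecW P (i + 1)) ++ r) (by
      rw [hr]
      unfold grpW
      simp only [List.append_assoc, List.cons_append, List.nil_append]) (i := oMr P g i 0) (by
      rw [oMr, oGrp]
      simp only [List.length_append, List.length_replicate, List.range_zero, List.flatMap_nil,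
        List.length_nil, List.length_cons]
      ring)
  rw [h1, MdU_hd_zero P wRI MdU_RI0, MdU_zones P wRI (MdU_zRI P), atl_wt_append,
    MdU_grpwt P wRI rfl rfl rfl, MdU_cons, MdU_nil]
  simp only [wRI]
  ring

theorem mdl_RII_mu (hP : P.Good) :
    ∀ g < P.B, pre wRII (word P) (oMu P g) = g + 1 := by
  intro g hg
  rw [MdU_mu P wRII (c := 1) hg (fun j _ => MdU_zRII P j), MdU_hd_zero P wRII MdU_RII0]
  ring

theorem mdl_RII_mr (hP : P.Good) :
    ∀ g < P.B, ∀ i < g, ∀ j < P.Z / (2 * P.b2), P.Mn (i + 1) j → ∀ k < 2 * P.b2,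
    pre wRII (word P) (oMr P g i j + 1 + k) = i + 1 := by
  intro g hg i hi j hj hM k hk
  obtain ⟨r, hr⟩ := MdU_grpcut P hi
  obtain ⟨r', hr'⟩ := range_flatMap_split (mrecW P (i + 1)) hj
  have hrr : List.replicate (2 * P.b2) rr =
      List.replicate k rr ++ List.replicate (2 * P.b2 - k) rr := by
    rw [← List.replicate_add]
    congr 1
    omega
  have hmr : mrecW P (i + 1) j = [pp] ++ (List.replicate k rr ++ List.replicate (2 * P.b2 - k) rr) := by
    unfold mrecW
    rw [if_pos hM, hrr]
    rfl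
  have h1 := MdU_zone P wRII hg
    ((List.replicate g ka ++ (List.range i).flatMap (fun i => grpW P (i + 1))) ++ ([cc] ++
      ((List.range j).flatMap (mrecW P (i + 1)) ++ ([pp] ++ List.replicate k rr))))
    (List.replicate (2 * P.b2 - k) rr ++ (r' ++ r)) (by
      rw [hr]
      unfold grpW
      rw [hr', hmr]
      simp only [List.append_assoc, List.cons_append, List.nil_append])
    (i := oMr P g i j + 1 + k) (by
      rw [oMr, oGrp]
      simp only [List.length_append, List.length_replicate,
        List.length_nil, List.length_cons]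
      ring)
  rw [h1, MdU_hd_zero P wRII MdU_RII0, MdU_zones P wRII (MdU_zRII P), atl_wt_append,
    MdU_grpwt P wRII rfl rfl rfl, atl_wt_append, atl_wt_append, atl_wt_append, MdU_cons, MdU_nil,
    MdU_cons, MdU_nil, wt_replicate,
    wt_flatMap_const wRII (mrecW P (i + 1)) (c := 0)
      (fun j _ => MdU_mrec P wRII rfl rfl rfl (i + 1) j)]
  simp only [wRII]
  ring

private theorem MdU_leftlen : (leftW P).length = P.Nz * P.Z := by
  simp [leftW]

theorem mdl_J1_left (hP : P.Good) :
    ∀ y ≤ P.Nz * P.Z, pre wJ1 (word P) y = ((y / P.Z : ℕ) : ℤ) := by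
  intro y
  induction y with
  | zero => intro _; rw [pre_zero]; simp
  | succ y ih =>
    intro hy
    have h1 : (word P)[y]? = some (lefL P y) := by
      have h2 : y < (leftW P).length := by rw [MdU_leftlen]; omega
      unfold word
      rw [List.getElem?_append_left h2]
      unfold leftW
      rw [List.getElem?_map, List.getElem?_range (by omega)]
      rfl
    rw [pre_succ h1, ih (by omega), Nat.succ_div]
    by_cases hd : P.Z ∣ y + 1
    · rw [if_pos hd]
      have h3 : wJ1 (lefL P y) = 1 := by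
        unfold lefL
        rw [decide_eq_true hd]
        rfl
      rw [h3]
      push_cast
      ring
    · rw [if_neg hd]
      have h3 : wJ1 (lefL P y) = 0 := by
        unfold lefL
        rw [decide_eq_false hd]
        rfl
      rw [h3]
      simp

private theorem MdU_hdJ1 (hP : P.Good) : wt wJ1 (MdU_hd P) = 0 := by
  have h1 : wt wJ1 (leftW P) = P.Nz := by
    have h2 := mdl_J1_left P hP (P.Nz * P.Z) le_rfl
    have h3 : word P = leftW P ++ (List.replicate P.Nz nu ++ (List.replicate P.F fi ++ (cenW P ++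
      (List.replicate P.B th ++ (mainW P ++ (List.replicate (P.B - 1) tp ++ stW P)))))) := rfl
    rw [h3, pre_cut wJ1 _ _ (MdU_leftlen P).symm] at h2
    rw [h2, Nat.mul_div_cancel _ hP.Zpos]
  unfold MdU_hd
  rw [atl_wt_append, atl_wt_append, atl_wt_append, atl_wt_append, wt_replicate, wt_replicate,
    wt_replicate, h1, wt_zero wJ1 (cenW P)]
  · simp [wJ1]
  · intro b hb
    have := MdU_reg_cen P b hb
    cases b <;> simp_all [reg, wJ1]

private theorem MdU_szlen : (szW P).length = 2 * P.Nz + 1 := by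
  simp [szW]
  ring

/-- prefix ending in start zone `g` -/
private theorem MdU_st (f : Lt → ℤ) {g : ℕ} (hg : g < P.B) (u v : List Lt)
    (h : szW P = u ++ v) {i : ℕ} (hi : i = oSz P g + u.length) :
    pre f (word P) i =
      wt f (MdU_hd P) + wt f (mainW P) + (P.B - 1 : ℕ) * f tp + g * wt f (szW P) + wt f u := by
  obtain ⟨r, hr⟩ := range_flatMap_split (fun _ : ℕ => szW P) hg
  have e : word P = (MdU_hd P ++ (mainW P ++ (List.replicate (P.B - 1) tp ++
      ((List.range g).flatMap (fun _ : ℕ => szW P) ++ u)))) ++ (v ++ r) := by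
    rw [MdU_word, stW, hr, h]
    simp only [List.append_assoc]
  rw [e, pre_cut f _ _ (i := i), atl_wt_append, atl_wt_append, atl_wt_append, atl_wt_append,
    wt_replicate, wt_flatMap_const f (fun _ : ℕ => szW P) (c := wt f (szW P)) (fun _ _ => rfl)]
  · ring
  · rw [hi]
    simp only [List.length_append, List.length_replicate]
    rw [MdU_len, length_flatMap_const (fun _ : ℕ => szW P) (c := 2 * P.Nz + 1)
      (fun _ _ => MdU_szlen P), oSz, oZone, mainW]
    ring

private theorem MdU_szwt (f : Lt → ℤ) :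
    wt f (szW P) = P.Nz * f io + P.Nz * f ib + f sg := by
  unfold szW
  rw [atl_wt_append, atl_wt_append, wt_replicate, wt_replicate, MdU_cons, MdU_nil]
  ring

/-- prefix ending at `oIo g k` -/
private theorem MdU_io (f : Lt → ℤ) {g k : ℕ} (hg : g < P.B) (hk : k < P.Nz)
    (hf : f io + f ib = 0) :
    pre f (word P) (oIo P g k) =
      wt f (MdU_hd P) + wt f (mainW P) + (P.B - 1 : ℕ) * f tp + g * wt f (szW P) + k * f io := by
  by_cases h0 : k = 0
  · rw [MdU_st P f hg (List.replicate P.Nz io ++ List.replicate P.Nz ib) [sg]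
      (by simp [szW]) (i := oIo P g k) (by
        rw [oIo, if_pos h0]
        simp only [List.length_append, List.length_replicate]
        ring), atl_wt_append, wt_replicate, wt_replicate, h0]
    have h1 : (P.Nz : ℤ) * f io + P.Nz * f ib = 0 := by
      rw [← mul_add, hf, mul_zero]
    rw [h1]
    push_cast
    ring
  · have hs : List.replicate P.Nz io = List.replicate k io ++ List.replicate (P.Nz - k) io := by
      rw [← List.replicate_add]
      congr 1
      omega
    rw [MdU_st P f hg (List.replicate k io)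
      (List.replicate (P.Nz - k) io ++ (List.replicate P.Nz ib ++ [sg]))
      (by rw [szW, hs]; simp only [List.append_assoc]) (i := oIo P g k) (by
        rw [oIo, if_neg h0]
        simp only [List.length_replicate]), wt_replicate]

private theorem MdU_main (f : Lt → ℤ) {c : ℤ} (h : ∀ j, wt f (zoneW P j) = c) :
    wt f (mainW P) = P.B * c := by
  unfold mainW
  exact MdU_zones P f h P.B

theorem mdl_J1_io (hP : P.Good) :
    ∀ g < P.B, ∀ k < P.Nz, pre wJ1 (word P) (oIo P g k) = k := by
  intro g hg k hk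
  rw [MdU_io P wJ1 hg hk (by rfl), MdU_hdJ1 P hP, MdU_main P wJ1 (MdU_zJ1 P), MdU_szwt]
  simp only [wJ1]
  ring

theorem mdl_J2_mu (hP : P.Good) :
    ∀ g < P.B, pre wJ2 (word P) (oMu P g) = g + 1 := by
  intro g hg
  rw [MdU_mu P wJ2 (c := 1) hg (fun j _ => MdU_zJ2 P j), MdU_hd_zero P wJ2 MdU_J20]
  ring

theorem mdl_J2_io (hP : P.Good) :
    ∀ g < P.B, ∀ k < P.Nz, pre wJ2 (word P) (oIo P g k) = 1 + (g : ℤ) - k := by
  intro g hg k hk
  have hB : 1 ≤ P.B := hP.Bpos
  rw [MdU_io P wJ2 hg hk (by rfl), MdU_hd_zero P wJ2 MdU_J20, MdU_main P wJ2 (MdU_zJ2 P), MdU_szwt]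
  simp only [wJ2]
  rw [Nat.cast_sub hB]
  push_cast
  ring

theorem mdl_J3_mu (hP : P.Good) :
    ∀ g < P.B, pre wJ3 (word P) (oMu P g) = g + 1 := by
  intro g hg
  rw [MdU_mu P wJ3 (c := 1) hg (fun j _ => MdU_zJ3 P j), MdU_hd_zero P wJ3 MdU_J30]
  ring

theorem mdl_J3_sg (hP : P.Good) :
    ∀ g < P.B, pre wJ3 (word P) (oSg P g) = g + 2 := by
  intro g hg
  have hB : 1 ≤ P.B := hP.Bpos
  rw [MdU_st P wJ3 hg (szW P) [] (by simp) (i := oSg P g) (by
      rw [oSg, oSz, oSz, MdU_szlen]
      ring), MdU_hd_zero P wJ3 MdU_J30, MdU_main P wJ3 (MdU_zJ3 P), MdU_szwt]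
  simp only [wJ3]
  rw [Nat.cast_sub hB]
  push_cast
  ring

end Pool.Agent.H29.CJ
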