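import Pool.Agent.H29.CJ.FlM

/-!
# Weights of the certificate word, first part

Use only the STATEMENTS of the imported files (`FlM`, `AtL`).

`pre f w i = wt f u` when `w = u ++ v`, `i = u.length` (`pre_cut`).  For each position write `word P` as `u ++ v` with the obvious `u`
(`range_flatMap_split`, `range_flatMap_le`) and add up (`wt_append`, `wt_flatMap_const`, `wt_replicate`, `wt_zero`).
Weights of the parts for `wTM = #tau + #mu - #th` and `wTS = #tau + #sg - #th`: `leftW, nu, fi, tp, io, ib`: `0`; `tabW g`: `1`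
(records contain only `emp, br, row, bit`); `th^B`: `-B`; `zoneW g`: `1` for `wTM`, `0` for `wTS`; `szW`: `0` for `wTM`, `1` for `wTS`.
At `oRow g j k + 1 + A` and `oRec g j`: `g` full tables, one `tau`, and then only letters of weight `0`: `g + 1`.
-/

set_option autoImplicit false

namespace Pool.Agent.H29.CJ

open Lt Classical

variable {K : ℕ} (P : Prm K)

theorem MdV_cons (f : Lt → ℤ) (x : Lt) (u : List Lt) : wt f (x :: u) = f x + wt f u := by
  simp [wt]

theorem MdV_nil (f : Lt → ℤ) : wt f [] = 0 := by simp [wt]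

/-- the letters of weight zero -/
structure MdV_Z (f : Lt → ℤ) : Prop where
  ha : ∀ x y z, f (Lt.a x y z) = 0
  hnu : f Lt.nu = 0
  hfi : f Lt.fi = 0
  htau : f Lt.tau = 1
  hemp : f Lt.emp = 0
  hbr : f Lt.br = 0
  hrow : f Lt.row = 0
  hbit : ∀ b, f (Lt.bit b) = 0
  hth : f Lt.th = -1
  hka : f Lt.ka = 0
  hkb : f Lt.kb = 0
  hcc : f Lt.cc = 0
  hcb : f Lt.cb = 0
  hee : f Lt.ee = 0
  hpp : f Lt.pp = 0
  hrr : f Lt.rr = 0
  htp : f Lt.tp = 0
  hio : f Lt.io = 0
  hib : f Lt.ib = 0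

theorem MdV_TM : MdV_Z wTM :=
  ⟨fun _ _ _ => rfl, rfl, rfl, rfl, rfl, rfl, rfl, fun _ => rfl, rfl, rfl, rfl, rfl, rfl, rfl, rfl, rfl, rfl,
    rfl, rfl⟩

theorem MdV_TS : MdV_Z wTS :=
  ⟨fun _ _ _ => rfl, rfl, rfl, rfl, rfl, rfl, rfl, fun _ => rfl, rfl, rfl, rfl, rfl, rfl, rfl, rfl, rfl, rfl,
    rfl, rfl⟩

/-- the part before the tables -/
noncomputable def MdV_U : List Lt := leftW P ++ (List.replicate P.Nz nu ++ List.replicate P.F fi)

theorem MdV_Ulen : (MdV_U P).length = P.Nz * P.Z + P.Nz + P.F := by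
  unfold MdV_U leftW
  simp only [List.length_append, List.length_replicate, List.length_map, List.length_range]
  omega

variable {f : Lt → ℤ}

theorem MdV_Uwt (hf : MdV_Z f) : wt f (MdV_U P) = 0 := by
  unfold MdV_U
  rw [atl_wt_append, atl_wt_append, wt_replicate, wt_replicate, hf.hnu, hf.hfi, mul_zero, mul_zero, add_zero,
    add_zero]
  refine wt_zero f _ fun b hb => ?_
  unfold leftW at hb
  obtain ⟨i, _, rfl⟩ := List.mem_map.1 hb
  exact hf.ha _ _ _

/-- the bits of a row -/
noncomputable def MdV_bits (m : ℕ) : List Lt := (List.finRange K).map (fun A => bit (decide (P.TT A m)))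

theorem MdV_bitslen (m : ℕ) : (MdV_bits P m).length = K := by
  unfold MdV_bits
  rw [List.length_map, List.length_finRange]

theorem MdV_bits0 (hf : MdV_Z f) (m : ℕ) : ∀ b ∈ MdV_bits P m, f b = 0 := by
  intro b hb
  unfold MdV_bits at hb
  obtain ⟨i, _, rfl⟩ := List.mem_map.1 hb
  exact hf.hbit _

theorem MdV_row (m : ℕ) : rowW P m = row :: MdV_bits P m := rfl

theorem MdV_rowlen (m : ℕ) : (rowW P m).length = K + 1 := by
  rw [MdV_row, List.length_cons, MdV_bitslen]

theorem MdV_rowwt (hf : MdV_Z f) (m : ℕ) : wt f (rowW P m) = 0 := by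
  rw [MdV_row, MdV_cons, hf.hrow, wt_zero f _ (MdV_bits0 P hf m), add_zero]

theorem MdV_recwt (hf : MdV_Z f) (g j : ℕ) : wt f (recW P g j) = 0 := by
  unfold recW
  split_ifs
  · rw [MdV_cons, hf.hbr, wt_flatMap_const f _ (c := 0) fun k _ => MdV_rowwt P hf _, mul_zero, add_zero]
  · rw [MdV_cons, MdV_nil, hf.hemp, add_zero]

theorem MdV_tabwt (hf : MdV_Z f) (g : ℕ) : wt f (tabW P g) = 1 := by
  unfold tabW
  rw [MdV_cons, hf.htau, wt_flatMap_const f _ (c := 0) fun k _ => MdV_recwt P hf g _, mul_zero, add_zero]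

theorem MdV_mrecwt (hf : MdV_Z f) (i j : ℕ) : wt f (mrecW P i j) = 0 := by
  unfold mrecW
  split_ifs
  · rw [MdV_cons, hf.hpp, wt_replicate, hf.hrr, mul_zero, add_zero]
  · rw [MdV_cons, MdV_nil, hf.hee, add_zero]

theorem MdV_grpwt (hf : MdV_Z f) (i : ℕ) : wt f (grpW P i) = 0 := by
  unfold grpW
  rw [MdV_cons, hf.hcc, wt_flatMap_const f _ (c := 0) fun k _ => MdV_mrecwt P hf i _, mul_zero, add_zero]

theorem MdV_zonewt (hf : MdV_Z f) (g : ℕ) : wt f (zoneW P g) = f mu := by
  unfold zoneW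
  rw [atl_wt_append, atl_wt_append, atl_wt_append, atl_wt_append, wt_replicate, wt_replicate, wt_replicate,
    wt_flatMap_const f _ (c := 0) fun k _ => MdV_grpwt P hf _, MdV_cons, MdV_nil, hf.hka, hf.hkb, hf.hcb]
  ring

theorem MdV_szwt (hf : MdV_Z f) : wt f (szW P) = f sg := by
  unfold szW
  rw [atl_wt_append, atl_wt_append, wt_replicate, wt_replicate, MdV_cons, MdV_nil, hf.hio, hf.hib]
  ring

theorem MdV_szlen : (szW P).length = 2 * P.Nz + 1 := by
  unfold szW
  simp only [List.length_append, List.length_replicate, List.length_singleton]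
  omega

/-- the part before record `j` of table `g` -/
noncomputable def MdV_V (g j : ℕ) : List Lt :=
  MdV_U P ++ ((List.range g).flatMap (tabW P) ++ (tau :: (List.range j).flatMap (recW P g)))

theorem MdV_Vlen (g j : ℕ) : (MdV_V P g j).length = oRec P g j := by
  unfold MdV_V oRec oTab
  simp only [List.length_append, List.length_cons, MdV_Ulen]
  omega

theorem MdV_Vwt (hf : MdV_Z f) (g j : ℕ) : wt f (MdV_V P g j) = g + 1 := by
  unfold MdV_V
  rw [atl_wt_append, atl_wt_append, MdV_cons, hf.htau, MdV_Uwt P hf,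
    wt_flatMap_const f (tabW P) (c := 1) fun i _ => MdV_tabwt P hf i,
    wt_flatMap_const f (recW P g) (c := 0) fun i _ => MdV_recwt P hf g i]
  ring

theorem MdV_Vword {g j : ℕ} (hg : g < P.B) (hj : j < P.Z / P.b1) :
    ∃ v, word P = MdV_V P g j ++ (recW P g j ++ v) := by
  obtain ⟨r, hr⟩ := range_flatMap_split (tabW P) hg
  obtain ⟨r', hr'⟩ := range_flatMap_split (recW P g) hj
  have ht : tabW P g = tau :: ((List.range j).flatMap (recW P g) ++ (recW P g j ++ r')) := by
    rw [← hr']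
    rfl
  rw [ht] at hr
  refine ⟨r' ++ (r ++ (List.replicate P.B th ++ (mainW P ++ (List.replicate (P.B - 1) tp ++ stW P)))), ?_⟩
  unfold word cenW MdV_V MdV_U
  rw [hr]
  simp only [List.append_assoc, List.cons_append]

theorem MdV_rec (hf : MdV_Z f) :
    ∀ g < P.B, ∀ j < P.Z / P.b1, pre f (word P) (oRec P g j) = g + 1 := by
  intro g hg j hj
  obtain ⟨v, hv⟩ := MdV_Vword P hg hj
  rw [hv, pre_cut f _ _ (MdV_Vlen P g j).symm, MdV_Vwt P hf]

theorem MdV_rowpre (hf : MdV_Z f) :
    ∀ g < P.B, ∀ j < P.Z / P.b1, P.Cm g j → ∀ k < P.b1, ∀ A : Fin K,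
    pre f (word P) (oRow P g j k + 1 + A) = g + 1 := by
  intro g hg j hj hC k hk A
  obtain ⟨v, hv⟩ := MdV_Vword P hg hj
  obtain ⟨rf, hrf⟩ : ∃ rf : ℕ → List Lt, rf = fun k => rowW P (P.Z * g + P.b1 * j + k + 1) := ⟨_, rfl⟩
  have hr : recW P g j = br :: (List.range P.b1).flatMap rf := by
    unfold recW
    rw [if_pos hC, hrf]
  obtain ⟨r, hs⟩ := range_flatMap_split rf hk
  obtain ⟨bb, hbb⟩ : ∃ bb : List Lt, bb = MdV_bits P (P.Z * g + P.b1 * j + k + 1) := ⟨_, rfl⟩
  have hbl : bb.length = K := by rw [hbb, MdV_bitslen]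
  have hrk : rf k = row :: (bb.take A ++ bb.drop A) := by
    rw [List.take_append_drop, hbb, hrf]
    rfl
  have hw : word P = (MdV_V P g j ++ (br :: ((List.range k).flatMap rf ++ (row :: bb.take A)))) ++
      (bb.drop A ++ (r ++ v)) := by
    rw [hv, hr, hs, hrk]
    simp only [List.append_assoc, List.cons_append]
  have hlen : oRow P g j k + 1 + A =
      (MdV_V P g j ++ (br :: ((List.range k).flatMap rf ++ (row :: bb.take A)))).length := by
    have h1 : ((List.range k).flatMap rf).length = k * (K + 1) :=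
      length_flatMap_const rf fun i _ => by rw [hrf]; exact MdV_rowlen P _
    have h2 : (bb.take A).length = A := by
      rw [List.length_take, hbl]
      exact min_eq_left A.2.le
    simp only [List.length_append, List.length_cons, h1, h2, MdV_Vlen]
    unfold oRow
    omega
  rw [hw, pre_cut f _ _ hlen, atl_wt_append, MdV_cons, atl_wt_append, MdV_cons, MdV_Vwt P hf, hf.hbr, hf.hrow,
    wt_flatMap_const f rf (c := 0) fun i _ => by rw [hrf]; exact MdV_rowwt P hf _,
    wt_zero f (bb.take A) fun b hb => MdV_bits0 P hf _ b (by rw [← hbb]; exact List.mem_of_mem_take hb)]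
  ring

/-- the part before zone `n` of the main region -/
noncomputable def MdV_M (n : ℕ) : List Lt :=
  MdV_U P ++ (cenW P ++ (List.replicate P.B th ++ (List.range n).flatMap (zoneW P)))

theorem MdV_Mlen (n : ℕ) : (MdV_M P n).length = oZone P n := by
  unfold MdV_M oZone oTab cenW
  simp only [List.length_append, List.length_replicate, MdV_Ulen]
  omega

theorem MdV_Mwt (hf : MdV_Z f) (n : ℕ) : wt f (MdV_M P n) = n * f mu := by
  unfold MdV_M cenW
  rw [atl_wt_append, atl_wt_append, atl_wt_append, MdV_Uwt P hf, wt_replicate, hf.hth,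
    wt_flatMap_const f (tabW P) (c := 1) fun i _ => MdV_tabwt P hf i,
    wt_flatMap_const f (zoneW P) (c := f mu) fun i _ => MdV_zonewt P hf i]
  ring

theorem MdV_Mpre (hf : MdV_Z f) {n : ℕ} (hn : n ≤ P.B) : pre f (word P) (oZone P n) = n * f mu := by
  obtain ⟨r, hr⟩ := range_flatMap_le (zoneW P) hn
  have hw : word P = MdV_M P n ++ (r ++ (List.replicate (P.B - 1) tp ++ stW P)) := by
    unfold word MdV_M MdV_U mainW
    rw [hr]
    simp only [List.append_assoc]
  rw [hw, pre_cut f _ _ (MdV_Mlen P n).symm, MdV_Mwt P hf]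

theorem MdV_Spre (hf : MdV_Z f) {n : ℕ} (hn : n ≤ P.B) :
    pre f (word P) (oSz P n) = P.B * f mu + n * f sg := by
  obtain ⟨r, hr⟩ := range_flatMap_le (fun _ => szW P) hn
  have hw : word P = (MdV_M P P.B ++ (List.replicate (P.B - 1) tp ++ (List.range n).flatMap (fun _ => szW P))) ++
      r := by
    unfold word MdV_M MdV_U mainW stW
    rw [hr]
    simp only [List.append_assoc]
  have hlen : oSz P n =
      (MdV_M P P.B ++ (List.replicate (P.B - 1) tp ++ (List.range n).flatMap (fun _ => szW P))).length := by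
    have h1 : ((List.range n).flatMap (fun _ => szW P)).length = n * (2 * P.Nz + 1) :=
      length_flatMap_const _ fun i _ => MdV_szlen P
    simp only [List.length_append, List.length_replicate, h1, MdV_Mlen]
    unfold oSz
    omega
  rw [hw, pre_cut f _ _ hlen, atl_wt_append, atl_wt_append, MdV_Mwt P hf, wt_replicate, hf.htp,
    wt_flatMap_const f (fun _ => szW P) (c := f sg) fun i _ => MdV_szwt P hf]
  ring

theorem mdl_TM_row (hP : P.Good) :
    ∀ g < P.B, ∀ j < P.Z / P.b1, P.Cm g j → ∀ k < P.b1, ∀ A : Fin K,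
    pre wTM (word P) (oRow P g j k + 1 + A) = g + 1 :=
  MdV_rowpre P MdV_TM

theorem mdl_TS_row (hP : P.Good) :
    ∀ g < P.B, ∀ j < P.Z / P.b1, P.Cm g j → ∀ k < P.b1, ∀ A : Fin K,
    pre wTS (word P) (oRow P g j k + 1 + A) = g + 1 :=
  MdV_rowpre P MdV_TS

theorem mdl_TS_rec (hP : P.Good) :
    ∀ g < P.B, ∀ j < P.Z / P.b1, pre wTS (word P) (oRec P g j) = g + 1 :=
  MdV_rec P MdV_TS

theorem mdl_TM_mu (hP : P.Good) :
    ∀ g < P.B, pre wTM (word P) (oMu P g) = g + 1 := by
  intro g hg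
  unfold oMu
  rw [MdV_Mpre P MdV_TM (Nat.succ_le_of_lt hg)]
  have h : wTM mu = 1 := rfl
  rw [h]
  push_cast
  ring

theorem mdl_TS_sg (hP : P.Good) :
    ∀ g < P.B, pre wTS (word P) (oSg P g) = g + 1 := by
  intro g hg
  unfold oSg
  rw [MdV_Spre P MdV_TS (Nat.succ_le_of_lt hg)]
  have h : wTS mu = 0 := rfl
  have h' : wTS sg = 1 := rfl
  rw [h, h']
  push_cast
  ring

end Pool.Agent.H29.CJ
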