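import Pool.Agent.H29.CJ.MdA
import Pool.Agent.H29.CJ.MdB
import Pool.Agent.H29.CJ.MdC
import Pool.Agent.H29.CJ.MdV
import Pool.Agent.H29.CJ.MdU

/-!
# The certificate word satisfies the interface
-/

set_option autoImplicit false

namespace Pool.Agent.H29.CJ

open Lt Classical

theorem mdl_word {K : ℕ} (P : Prm K) (hP : P.Good) : Mdl P (word P) where
  left := mdl_left P hP
  tau_at := mdl_tau_at P hP
  rec_step := mdl_rec_step P hP
  rec_emp := mdl_rec_emp P hP
  rec_br := mdl_rec_br P hP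
  row_step := mdl_row_step P hP
  row_bit := mdl_row_bit P hP
  row_le := mdl_row_le P hP
  rec_le := mdl_rec_le P hP
  mu_at := mdl_mu_at P hP
  mu_le := mdl_mu_le P hP
  grp_at := mdl_grp_at P hP
  mr_step := mdl_mr_step P hP
  mr_pp := mdl_mr_pp P hP
  mu_io := mdl_mu_io P hP
  io_at := mdl_io_at P hP
  sg_at := mdl_sg_at P hP
  sg_only := mdl_sg_only P hP
  sg_first := mdl_sg_first P hP
  sg_last := mdl_sg_last P hP
  TM_row := mdl_TM_row P hP
  TS_row := mdl_TS_row P hP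
  TS_rec := mdl_TS_rec P hP
  TM_mu := mdl_TM_mu P hP
  TS_sg := mdl_TS_sg P hP
  RI_mu := mdl_RI_mu P hP
  RI_grp := mdl_RI_grp P hP
  RII_mu := mdl_RII_mu P hP
  RII_mr := mdl_RII_mr P hP
  J1_left := mdl_J1_left P hP
  J1_io := mdl_J1_io P hP
  J2_mu := mdl_J2_mu P hP
  J2_io := mdl_J2_io P hP
  J3_mu := mdl_J3_mu P hP
  J3_sg := mdl_J3_sg P hP

end Pool.Agent.H29.CJ
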