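import Pool.Agent.H29.CJ.ParB

/-!
# The parameters of the certificate: length

Use only the STATEMENTS of the imported files.

Notation as in `ParB`: `M = N^(2r) Y`, `Z = N Y`, `B = N^(2r-1)`, `Z B = M`, `b1 = N`, `N ∣ Y` (from `N^(2r+1) ∣ M`).
(1) `nC ≤ B (Y / N) + #mid`: a pair `(g, j)` with `g < B` and `Cm g j`: if the witness `m` satisfies `(m-1)%Z + 1 ≤ Y` then
 `j = (m-1)%Z / N < Y / N` (as `(m-1)%Z < Y`, `N ∣ Y`), so at most `B (Y/N)` pairs; otherwise the pair is the image of a `Mid` value `m`.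
 `#mid ≤ M / N²` by `hmid` (`N^2 * #mid ≤ M`).  `B Y = M / N`, so `B (Y/N) = M / N²`.  So `N² nC ≤ 2 M`.
(2) `nM ≤ |S|` (a pair is the image of an element of `S`), and `N^(...) |S| ≤ M`: `hS : 2 * b2 * N^(2r-1) * N * S.card ≤ M`.
(3) Multiply the bound of `length_word_le` by `N`:
 `N · Nz Z = N (N + N^(2r-2) + 4) Z ≤ M + ...`: `N^(2r-2) Z N = M`; `N (N + 4) Z ≤ N^3 · Z·... ≤ M` (`N ≥ 2`: `N (N+4) ≤ 3 N² ≤ N^4`, and `N^4 Z ≤ N^(2r-1) Z = M`
 since `2 r - 1 ≥ 5`).  So `N Nz Z ≤ 2 M`.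
 `N · B (Z/b1) = N B Y = M`.  `N · b1 (K+1) nC = (K+1) N² nC ≤ 2 (K+1) M`.
 `N · B · B (Z/(2 b2)) ≤ M`: `B Z = M`, `hb2 : N * N^(2r-1) ≤ b2`.  `N · B · 2 b2 nM ≤ M` by (2).
 The rest `Nz + B + B + 4 B² + B + B (2 Nz + 1)` times `N` is `≤ M` by `hbig` (all powers of `N` at most `N^(4r+4)`):
 `N (N + N^(2r-2) + 4) + 4 N B + 4 N B² + 2 N B Nz ≤ 20 N^(4r) ≤ N^(4r+5) ≤ M` (`20 ≤ N^5` for `N ≥ 2`; check with `nlinarith`/`gcongr` or bound each term by
 `4 N^(4r)`).
 Sum: `N n ≤ (2 + 1 + 2 (K+1) + 1 + 1 + 1) M = (2 K + 8) M`.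
-/

set_option autoImplicit false

namespace Pool.Agent.H29.CJ

open Classical

variable {K : ℕ}

private theorem parC_q {N t : ℕ} (hN : 2 ≤ N) (ht : 4 ≤ t) : N + 4 ≤ N ^ t := by
  have h1 : N ^ 4 ≤ N ^ t := Nat.pow_le_pow_right (by omega) ht
  have h2 : 2 ^ 3 * N ≤ N ^ 3 * N := Nat.mul_le_mul_right _ (Nat.pow_le_pow_left hN 3)
  have h3 : N ^ 4 = N ^ 3 * N := by ring
  omega

private theorem parC_f {N q Nz : ℕ} (hN : 2 ≤ N) (hq : 1 ≤ q) (hNz : Nz ≤ 2 * q) :
    N * (Nz + 4 * (N * q) + 4 * (N * q) ^ 2 + 2 * (N * q) * Nz) ≤ N ^ 9 * q ^ 2 := by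
  have hqq : q ≤ q ^ 2 := by nlinarith
  have h1 : 2 * (N * q) * Nz ≤ 2 * (N * q) * (2 * q) := Nat.mul_le_mul_left _ hNz
  have h2 : Nz + 4 * (N * q) + 4 * (N * q) ^ 2 + 2 * (N * q) * Nz ≤
      2 * q ^ 2 + 4 * N * q ^ 2 + 4 * N ^ 2 * q ^ 2 + 4 * N * q ^ 2 := by
    have h3 : 2 * (N * q) * (2 * q) = 4 * N * q ^ 2 := by ring
    have h4 : 4 * (N * q) ^ 2 = 4 * N ^ 2 * q ^ 2 := by ring
    have h5 : 4 * (N * q) ≤ 4 * N * q ^ 2 := by
      have : 4 * (N * q) = 4 * N * q := by ring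
      rw [this]
      exact Nat.mul_le_mul_left _ hqq
    omega
  have h6 : 2 * q ^ 2 + 4 * N * q ^ 2 + 4 * N ^ 2 * q ^ 2 + 4 * N * q ^ 2 ≤ N ^ 8 * q ^ 2 := by
    have h7 : 2 * q ^ 2 + 4 * N * q ^ 2 + 4 * N ^ 2 * q ^ 2 + 4 * N * q ^ 2 = (2 + 8 * N + 4 * N ^ 2) * q ^ 2 := by ring
    rw [h7]
    refine Nat.mul_le_mul_right _ ?_
    have h8 : 2 ^ 6 * N ^ 2 ≤ N ^ 6 * N ^ 2 := Nat.mul_le_mul_right _ (Nat.pow_le_pow_left hN 6)
    have h9 : N ^ 8 = N ^ 6 * N ^ 2 := by ring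
    nlinarith
  calc N * (Nz + 4 * (N * q) + 4 * (N * q) ^ 2 + 2 * (N * q) * Nz)
      ≤ N * (N ^ 8 * q ^ 2) := Nat.mul_le_mul_left _ (h2.trans h6)
    _ = N ^ 9 * q ^ 2 := by ring

/-- the total -/
private theorem parC_sum {K N q y M nC nM b2 e cS : ℕ} (hN : 2 ≤ N) (hq : N + 4 ≤ q)
    (hM : M = N ^ 3 * q * y) (hbig : N ^ 9 * q ^ 2 ≤ M) (he : N ^ 2 * y = 2 * b2 * e)
    (hb2 : N * (N * q) ≤ b2) (hnC : N ^ 2 * nC ≤ 2 * M) (hnM : nM ≤ cS)
    (hS : 2 * b2 * (N * q) * N * cS ≤ M) :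
    N * ((N + q + 4) * (N ^ 2 * y) + (N + q + 4) + ((N * q) + (N * q) * (N * y) + N * (K + 1) * nC) + (N * q) +
        (N * q) * (4 * (N * q) + (N * q) * e + 2 * b2 * nM) + (N * q) +
        (N * q) * (2 * (N + q + 4) + 1)) ≤ (2 * K + 8) * M := by
  have ha : N * ((N + q + 4) * (N ^ 2 * y)) ≤ 2 * M := by
    have h1 : N * ((N + q + 4) * (N ^ 2 * y)) = N ^ 3 * q * y + (N + 4) * (N ^ 3 * y) := by ring
    have h2 : (N + 4) * (N ^ 3 * y) ≤ q * (N ^ 3 * y) := Nat.mul_le_mul_right _ hq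
    have h3 : q * (N ^ 3 * y) = N ^ 3 * q * y := by ring
    rw [h1, hM]
    omega
  have hb : N * ((N * q) * (N * y)) = M := by
    rw [hM]
    ring
  have hc : N * (N * (K + 1) * nC) ≤ (K + 1) * (2 * M) := by
    have h1 : N * (N * (K + 1) * nC) = (K + 1) * (N ^ 2 * nC) := by ring
    rw [h1]
    exact Nat.mul_le_mul_left _ hnC
  have hd : N * ((N * q) * ((N * q) * e)) ≤ M := by
    have h1 : N * ((N * q) * ((N * q) * e)) = (N * (N * q)) * ((N * q) * e) := by ring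
    have h2 : (N * (N * q)) * ((N * q) * e) ≤ b2 * ((N * q) * e) := Nat.mul_le_mul_right _ hb2
    have h3 : M = 2 * (b2 * ((N * q) * e)) := by
      calc M = (N * q) * (N ^ 2 * y) := by rw [hM]; ring
        _ = 2 * (b2 * ((N * q) * e)) := by rw [he]; ring
    rw [h1]
    omega
  have hee : N * ((N * q) * (2 * b2 * nM)) ≤ M := by
    have h1 : N * ((N * q) * (2 * b2 * nM)) = 2 * b2 * (N * q) * N * nM := by ring
    rw [h1]
    exact (Nat.mul_le_mul_left _ hnM).trans hS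
  have hf : N * ((N + q + 4) + 4 * (N * q) + 4 * (N * q) ^ 2 + 2 * (N * q) * (N + q + 4)) ≤ M :=
    (parC_f hN (by omega) (by omega)).trans hbig
  have e1 : N * ((N + q + 4) * (N ^ 2 * y) + (N + q + 4) + ((N * q) + (N * q) * (N * y) + N * (K + 1) * nC) + (N * q) +
        (N * q) * (4 * (N * q) + (N * q) * e + 2 * b2 * nM) + (N * q) +
        (N * q) * (2 * (N + q + 4) + 1)) =
      N * ((N + q + 4) * (N ^ 2 * y)) + N * ((N * q) * (N * y)) + N * (N * (K + 1) * nC) +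
        N * ((N * q) * ((N * q) * e)) + N * ((N * q) * (2 * b2 * nM)) +
        N * ((N + q + 4) + 4 * (N * q) + 4 * (N * q) ^ 2 + 2 * (N * q) * (N + q + 4)) := by ring
  rw [e1]
  have e2 : (2 * K + 8) * M = 2 * M + M + (K + 1) * (2 * M) + M + M + M := by ring
  rw [e2]
  omega

/-- counting the records of the tables -/
private theorem parC_nC (G : USys K) {M N r b2 F : ℕ} {S : Finset ℕ} {y q : ℕ} (hN : 2 ≤ N)
    (hB : N ^ (2 * r - 1) = N * q) (hY : M / N ^ (2 * r) = N * y) (hM : M = N ^ 3 * q * y)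
    (hmid : N ^ 2 * ((Finset.Icc 1 M).filter
        (fun m => ∃ p, Mid G M (M / N ^ (2 * r)) (M / N ^ (2 * r - 2)) p m)).card ≤ M) :
    N ^ 2 * nC (mkP G M N r b2 F S) ≤ 2 * M := by
  set Md := (Finset.Icc 1 M).filter (fun m => ∃ p, Mid G M (M / N ^ (2 * r)) (M / N ^ (2 * r - 2)) p m) with hMd
  have h1 : nC (mkP G M N r b2 F S) ≤ (N * q) * y + Md.card := by
    unfold nC
    have hsub : ((Finset.range (mkP G M N r b2 F S).B ×ˢ
        Finset.range ((mkP G M N r b2 F S).Z / (mkP G M N r b2 F S).b1)).filter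
        (fun a => (mkP G M N r b2 F S).Cm a.1 a.2)) ⊆
        (Finset.range (N * q) ×ˢ Finset.range y) ∪
          Md.image (fun m => ((m - 1) / (M / N ^ (2 * r - 1)), (m - 1) % (M / N ^ (2 * r - 1)) / N)) := by
      rintro ⟨g, j⟩ h
      rw [Finset.mem_filter, Finset.mem_product, Finset.mem_range, Finset.mem_range] at h
      obtain ⟨⟨h2, -⟩, m, h3, h4, h5, h6, h7⟩ := h
      have h2' : g < N * q := by
        rw [← hB]
        exact h2
      have h5' : (m - 1) / (M / N ^ (2 * r - 1)) = g := h5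
      have h6' : (m - 1) % (M / N ^ (2 * r - 1)) / N = j := h6
      rw [Finset.mem_union]
      rcases h7 with h7 | h7
      · left
        rw [Finset.mem_product, Finset.mem_range, Finset.mem_range]
        refine ⟨h2', ?_⟩
        show j < y
        rw [← h6']
        rw [hY] at h7
        exact Nat.div_lt_of_lt_mul (by omega)
      · right
        rw [Finset.mem_image]
        refine ⟨m, ?_, ?_⟩
        · rw [hMd, Finset.mem_filter, Finset.mem_Icc]
          exact ⟨⟨h3, h4⟩, h7⟩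
        · rw [h5', h6']
    refine (Finset.card_le_card hsub).trans ((Finset.card_union_le _ _).trans ?_)
    rw [Finset.card_product, Finset.card_range, Finset.card_range]
    exact Nat.add_le_add_left Finset.card_image_le _
  calc N ^ 2 * nC (mkP G M N r b2 F S) ≤ N ^ 2 * ((N * q) * y + Md.card) := Nat.mul_le_mul_left _ h1
    _ = N ^ 3 * q * y + N ^ 2 * Md.card := by ring
    _ ≤ 2 * M := by
        rw [← hM]
        omega

/-- counting the records of the menus -/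
private theorem parC_nM (G : USys K) {M N r b2 F : ℕ} {S : Finset ℕ} : nM (mkP G M N r b2 F S) ≤ S.card := by
  unfold nM
  have hsub : ((Finset.range ((mkP G M N r b2 F S).B + 1) ×ˢ
      Finset.range ((mkP G M N r b2 F S).Z / (2 * (mkP G M N r b2 F S).b2))).filter
      (fun a => (mkP G M N r b2 F S).Mn a.1 a.2)) ⊆
      S.image (fun s => ((s - 1) / (M / N ^ (2 * r - 1)), (s - 1) % (M / N ^ (2 * r - 1)) / (2 * b2))) := by
    rintro ⟨i, j⟩ h
    rw [Finset.mem_filter] at h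
    obtain ⟨-, s, h3, h4, h5⟩ := h
    have h4' : (s - 1) / (M / N ^ (2 * r - 1)) = i := h4
    have h5' : (s - 1) % (M / N ^ (2 * r - 1)) / (2 * b2) = j := h5
    rw [Finset.mem_image]
    exact ⟨s, h3, by rw [h4', h5']⟩
  exact (Finset.card_le_card hsub).trans Finset.card_image_le

/-- the filler is added -/
private theorem parC_F (G : USys K) (M N r b2 F : ℕ) (S : Finset ℕ) :
    (word (mkP G M N r b2 F S)).length = (word (mkP G M N r b2 0 S)).length + F := by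
  have h5 : ∀ P : Prm K, (word P).length = (leftW P).length + (P.Nz + (P.F + ((cenW P).length +
      (P.B + ((mainW P).length + ((P.B - 1) + (stW P).length)))))) := by
    intro P
    unfold word
    rw [List.length_append, List.length_append, List.length_append, List.length_append,
      List.length_append, List.length_append, List.length_append, List.length_replicate,
      List.length_replicate, List.length_replicate, List.length_replicate]
  have e1 : (leftW (mkP G M N r b2 F S)).length = (leftW (mkP G M N r b2 0 S)).length := rfl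
  have e2 : (cenW (mkP G M N r b2 F S)).length = (cenW (mkP G M N r b2 0 S)).length := rfl
  have e3 : (mainW (mkP G M N r b2 F S)).length = (mainW (mkP G M N r b2 0 S)).length := rfl
  have e4 : (stW (mkP G M N r b2 F S)).length = (stW (mkP G M N r b2 0 S)).length := rfl
  have e5 : (mkP G M N r b2 F S).Nz = (mkP G M N r b2 0 S).Nz := rfl
  have e6 : (mkP G M N r b2 F S).B = (mkP G M N r b2 0 S).B := rfl
  have e7 : (mkP G M N r b2 F S).F = F := rfl
  have e8 : (mkP G M N r b2 0 S).F = 0 := rfl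
  rw [h5, h5, e1, e2, e3, e4, e5, e6, e7, e8]
  omega

theorem mkP_len (G : USys K) {M N r b2 : ℕ} {S : Finset ℕ} (hN : 2 ≤ N) (hr : 3 ≤ r)
    (hM : 0 < M) (hd : N ^ (2 * r + 1) ∣ M) (hd' : 2 * b2 ∣ M / N ^ (2 * r - 1))
    (hb2 : N * N ^ (2 * r - 1) ≤ b2)
    (hmid : N ^ 2 * ((Finset.Icc 1 M).filter
        (fun m => ∃ p, Mid G M (M / N ^ (2 * r)) (M / N ^ (2 * r - 2)) p m)).card ≤ M)
    (hS : 2 * b2 * N ^ (2 * r - 1) * N * S.card ≤ M) (hbig : N ^ (4 * r + 5) ≤ M) :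
    ∃ n, N * n ≤ (2 * K + 8) * M ∧
      ∀ F, (word (mkP G M N r b2 F S)).length = n + F := by
  have hN0 : 0 < N := by omega
  have hb20 : 0 < b2 := lt_of_lt_of_le (Nat.mul_pos hN0 (Nat.pow_pos hN0)) hb2
  obtain ⟨q, hqd⟩ : ∃ q, q = N ^ (2 * r - 2) := ⟨_, rfl⟩
  have hq0 : 0 < q := by
    rw [hqd]
    exact Nat.pow_pos hN0
  have hqN : N + 4 ≤ q := by
    rw [hqd]
    exact parC_q hN (by omega)
  have hB : N ^ (2 * r - 1) = N * q := by
    rw [hqd, ← pow_succ']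
    congr 1
    omega
  have hN2 : N ^ (2 * r) = N ^ 2 * q := by
    rw [hqd, ← pow_add]
    congr 1
    omega
  have hN3 : N ^ (2 * r + 1) = N ^ 3 * q := by
    rw [hqd, ← pow_add]
    congr 1
    omega
  have hN9 : N ^ (4 * r + 5) = N ^ 9 * q ^ 2 := by
    rw [hqd, ← pow_mul, ← pow_add]
    congr 1
    omega
  obtain ⟨y, hy⟩ := hd
  rw [hN3] at hy
  have hZ : M / N ^ (2 * r - 1) = N ^ 2 * y := by
    rw [hB]
    refine Nat.div_eq_of_eq_mul_right (Nat.mul_pos hN0 hq0) ?_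
    rw [hy]
    ring
  have hY : M / N ^ (2 * r) = N * y := by
    rw [hN2]
    refine Nat.div_eq_of_eq_mul_right (Nat.mul_pos (Nat.pow_pos hN0) hq0) ?_
    rw [hy]
    ring
  obtain ⟨e, he⟩ := hd'
  have hgood := mkP_good G (F := 0) (S := S) hN hr hM
    ((pow_dvd_pow N (by omega : 2 * r ≤ 2 * r + 1)).trans (by rw [hN3, hy]; exact Dvd.intro _ rfl)) hb20
    (by rw [he]; exact Dvd.intro _ rfl)
  obtain ⟨n, hn1, hn2⟩ := length_word_le _ hgood
  have e0 : (mkP G M N r b2 0 S).F = 0 := rfl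
  rw [e0, Nat.add_zero] at hn1
  refine ⟨n, ?_, fun F => by rw [parC_F, hn1]⟩
  have e1 : (mkP G M N r b2 0 S).Nz = N + q + 4 := by
    rw [hqd]
    rfl
  have e2 : (mkP G M N r b2 0 S).Z = N ^ 2 * y := hZ
  have e3 : (mkP G M N r b2 0 S).B = N * q := hB
  have e4 : (mkP G M N r b2 0 S).b1 = N := rfl
  have e5 : (mkP G M N r b2 0 S).b2 = b2 := rfl
  have e6 : N ^ 2 * y / N = N * y := by
    refine Nat.div_eq_of_eq_mul_right hN0 ?_
    ring
  have he' : N ^ 2 * y = 2 * b2 * e := by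
    rw [← hZ]
    exact he
  have e7 : N ^ 2 * y / (2 * b2) = e := Nat.div_eq_of_eq_mul_right (by omega) he'
  rw [e1, e2, e3, e4, e5, e6, e7] at hn2
  rw [hB] at hb2 hS
  rw [hN9] at hbig
  have hnC := parC_nC G (b2 := b2) (F := 0) (S := S) hN hB hY hy hmid
  have hnM := parC_nM G (M := M) (N := N) (r := r) (b2 := b2) (F := 0) (S := S)
  exact (Nat.mul_le_mul_left _ hn2).trans
    (parC_sum hN hqN hy hbig he' hb2 hnC hnM hS)

end Pool.Agent.H29.CJ
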