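import Mathlib

/-!
# Greedy hitting sets

Mathlib only.

(1) `greedy`: let `U` be a finite set, `I` a finite index set, `F i ⊆ U` for `i ∈ I` with `|F i| ≥ δ n`, where `|U| ≤ n`, `0 ≤ δ ≤ 1`, `0 < n`.  For every `t` there is
`S ⊆ U` with `|S| ≤ t` and at most `(1 - δ)^t |I|` indices `i ∈ I` with `F i ∩ S = ∅`.  Induction on `t`: let `I'` be the set of indices missed by
`S`.  `Σ_{u ∈ U} #{i ∈ I' | u ∈ F i} = Σ_{i ∈ I'} |F i| ≥ δ n |I'|` (double counting, `Finset.sum_card_bipartiteAbove_eq_sum_card_bipartiteBelow`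
or `Finset.sum_comm`), so if `I'` is nonempty some `u ∈ U` is in at least `δ |I'|` of the `F i` (`|U| ≤ n`; if all `u` had less than `δ|I'|` the sum
would be `< δ n |I'|`; `U` is nonempty if `δ > 0` and `I' ≠ ∅`; the case `δ = 0` or `I' = ∅` is trivial); add it to `S`.
(2) `hitting`: given `ε, δ > 0` there is `M₀` such that for `n ≥ M₀`, `|U| ≤ n`, `|I| ≤ n`, `|F i| ≥ δ n`: some `S ⊆ U` with `|S| ≤ ε n` meets all `F i`.
Take `t = ⌊ε n⌋`; `(1 - δ)^t n < 1` for large `n`: if `δ ≥ 1` then `(1-δ)^t n`: replace `δ` by `min δ (1/2)` first.  `(1-δ)^t ≤ exp(-δ t)`,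
`t ≥ ε n - 1`, so `n (1-δ)^t ≤ e^δ n exp(-δ ε n) → 0` (`Real.tendsto_pow_mul_exp_neg_atTop_nhds_zero` or `x ≤ exp x` type bounds:
`exp(x) ≥ x²/2`).  A number of missed indices `< 1` is `0`.
-/

set_option autoImplicit false

namespace Pool.Agent.H29.CJ

theorem HitG_greedy (U I : Finset ℕ) (F : ℕ → Finset ℕ) (n : ℕ) (hn : 0 < n) (δ : ℝ) (hδ : 0 < δ)
    (hδ1 : δ ≤ 1) (hU : U.card ≤ n) (hF : ∀ i ∈ I, F i ⊆ U ∧ δ * n ≤ ((F i).card : ℝ)) (t : ℕ) :
    ∃ S : Finset ℕ, S ⊆ U ∧ S.card ≤ t ∧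
      ((I.filter (fun i => Disjoint (F i) S)).card : ℝ) ≤ (1 - δ) ^ t * I.card := by
  induction t with
  | zero =>
    refine ⟨∅, Finset.empty_subset _, le_rfl, ?_⟩
    rw [pow_zero, one_mul]
    exact_mod_cast Finset.card_filter_le _ _
  | succ t ih =>
    obtain ⟨S, hSU, hSc, hS⟩ := ih
    set I' := I.filter (fun i => Disjoint (F i) S) with hI'
    have h1δ : 0 ≤ 1 - δ := by linarith
    rcases I'.eq_empty_or_nonempty with hE | hne
    · refine ⟨S, hSU, hSc.trans (Nat.le_succ t), ?_⟩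
      rw [← hI', hE, Finset.card_empty, Nat.cast_zero]
      positivity
    · have hn' : (0 : ℝ) < n := by exact_mod_cast hn
      have hIc : (0 : ℝ) < I'.card := by exact_mod_cast hne.card_pos
      have hUne : U.Nonempty := by
        obtain ⟨i, hi⟩ := hne
        have h2 := hF i (Finset.mem_filter.1 hi).1
        have h3 : (0 : ℝ) < (F i).card := lt_of_lt_of_le (mul_pos hδ hn') h2.2
        have h4 : 0 < (F i).card := by exact_mod_cast h3
        exact (Finset.card_pos.1 h4).mono h2.1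
      have hex : ∃ u ∈ U, δ * I'.card ≤ ((I'.filter (fun i => u ∈ F i)).card : ℝ) := by
        by_contra hcon
        push Not at hcon
        have h5 : ∑ u ∈ U, ((I'.filter (fun i => u ∈ F i)).card : ℝ) < ∑ u ∈ U, δ * (I'.card : ℝ) :=
          Finset.sum_lt_sum_of_nonempty hUne hcon
        have h6 : ∑ u ∈ U, ((I'.filter (fun i => u ∈ F i)).card : ℝ) = ∑ i ∈ I', ((F i).card : ℝ) := by
          have h7 : ∀ u, ((I'.filter (fun i => u ∈ F i)).card : ℝ) =
              ∑ i ∈ I', if u ∈ F i then (1 : ℝ) else 0 := by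
            intro u
            rw [Finset.card_filter]
            push_cast
            rfl
          rw [Finset.sum_congr rfl (fun u _ => h7 u), Finset.sum_comm]
          refine Finset.sum_congr rfl (fun i hi => ?_)
          have h8 := (hF i (Finset.mem_filter.1 hi).1).1
          rw [← Finset.sum_filter, Finset.sum_const, nsmul_eq_mul, mul_one]
          have h9 : U.filter (fun u => u ∈ F i) = F i := by
            ext u
            rw [Finset.mem_filter]
            exact ⟨fun h => h.2, fun h => ⟨h8 h, h⟩⟩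
          rw [h9]
        have h10 : ∑ i ∈ I', δ * (n : ℝ) ≤ ∑ i ∈ I', ((F i).card : ℝ) :=
          Finset.sum_le_sum (fun i hi => (hF i (Finset.mem_filter.1 hi).1).2)
        rw [Finset.sum_const, nsmul_eq_mul] at h5 h10
        have h11 : (U.card : ℝ) ≤ n := by exact_mod_cast hU
        have h12 : (U.card : ℝ) * (δ * I'.card) ≤ n * (δ * I'.card) :=
          mul_le_mul_of_nonneg_right h11 (by positivity)
        rw [h6] at h5
        nlinarith
      obtain ⟨u, huU, hu⟩ := hex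
      refine ⟨insert u S, Finset.insert_subset huU hSU,
        (Finset.card_insert_le _ _).trans (Nat.succ_le_succ hSc), ?_⟩
      have e1 : I.filter (fun i => Disjoint (F i) (insert u S)) = I'.filter (fun i => ¬ u ∈ F i) := by
        rw [hI', Finset.filter_filter]
        refine Finset.filter_congr (fun i _ => ?_)
        rw [Finset.disjoint_insert_right]
        exact and_comm
      have e2 := Finset.card_filter_add_card_filter_not (s := I') (fun i => u ∈ F i)
      have e3 : ((I'.filter (fun i => u ∈ F i)).card : ℝ) +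
          ((I'.filter (fun i => ¬ u ∈ F i)).card : ℝ) = I'.card := by
        exact_mod_cast e2
      rw [e1]
      calc ((I'.filter (fun i => ¬ u ∈ F i)).card : ℝ) ≤ (1 - δ) * I'.card := by linarith
        _ ≤ (1 - δ) * ((1 - δ) ^ t * I.card) := mul_le_mul_of_nonneg_left hS h1δ
        _ = (1 - δ) ^ (t + 1) * I.card := by ring

theorem HitG_small (ε δ : ℝ) (hε : 0 < ε) (hδ : 0 < δ) (hδ1 : δ ≤ 1 / 2) (n : ℕ)
    (hn : 6 / (δ * ε) ^ 2 < n) : (1 - δ) ^ ⌊ε * n⌋₊ * (n : ℝ) < 1 := by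
  have hc : 0 < δ * ε := mul_pos hδ hε
  have hn0 : (0 : ℝ) < n := lt_trans (by positivity) hn
  set t := ⌊ε * n⌋₊ with ht
  have ht1 : ε * n < t + 1 := Nat.lt_floor_add_one _
  have h1 : (1 - δ) ^ t ≤ Real.exp (-(δ * t)) := by
    have h2 : 1 - δ ≤ Real.exp (-δ) := Real.one_sub_le_exp_neg δ
    calc (1 - δ) ^ t ≤ (Real.exp (-δ)) ^ t := pow_le_pow_left₀ (by linarith) h2 t
      _ = Real.exp (-(δ * t)) := by
        rw [← Real.exp_nat_mul]
        congr 1
        ring
  have h3 : Real.exp (-(δ * t)) ≤ Real.exp (1 - δ * ε * n) := by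
    apply Real.exp_le_exp.2
    nlinarith
  have h4 : (δ * ε * n) ^ 2 / 2 < Real.exp (δ * ε * n) := by
    have h5 := Real.quadratic_le_exp_of_nonneg (x := δ * ε * n) (by positivity)
    have h6 : 0 ≤ δ * ε * n := by positivity
    linarith
  have h7 : 3 * (n : ℝ) < (δ * ε * n) ^ 2 / 2 := by
    rw [div_lt_iff₀ (by positivity)] at hn
    nlinarith
  have h8 : Real.exp 1 < 3 := by
    have := Real.exp_one_lt_d9
    linarith
  have h9 : Real.exp (1 - δ * ε * n) = Real.exp 1 / Real.exp (δ * ε * n) := Real.exp_sub _ _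
  have h10 : 0 < Real.exp (δ * ε * n) := Real.exp_pos _
  calc (1 - δ) ^ t * (n : ℝ) ≤ Real.exp (1 - δ * ε * n) * n :=
        mul_le_mul_of_nonneg_right (h1.trans h3) hn0.le
    _ = Real.exp 1 * n / Real.exp (δ * ε * n) := by rw [h9]; ring
    _ < 1 := by
      rw [div_lt_one h10]
      nlinarith

theorem hitting (ε δ : ℝ) (hε : 0 < ε) (hδ : 0 < δ) : ∃ M₀ : ℕ, ∀ n : ℕ, M₀ ≤ n →
    ∀ (U I : Finset ℕ) (F : ℕ → Finset ℕ), U.card ≤ n → I.card ≤ n →
      (∀ i ∈ I, F i ⊆ U ∧ δ * n ≤ ((F i).card : ℝ)) →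
      ∃ S : Finset ℕ, S ⊆ U ∧ (S.card : ℝ) ≤ ε * n ∧ ∀ i ∈ I, ∃ u ∈ F i, u ∈ S := by
  set δ' := min δ (1 / 2) with hδ'
  have h1 : 0 < δ' := lt_min hδ (by norm_num)
  have h2 : δ' ≤ 1 / 2 := min_le_right _ _
  have h3 : δ' ≤ δ := min_le_left _ _
  refine ⟨⌊6 / (δ' * ε) ^ 2⌋₊ + 1, ?_⟩
  intro n hn U I F hU hI hF
  have hn1 : 6 / (δ' * ε) ^ 2 < n := by
    have h4 := Nat.lt_floor_add_one (6 / (δ' * ε) ^ 2)
    have h5 : ((⌊6 / (δ' * ε) ^ 2⌋₊ : ℝ) + 1) ≤ n := by exact_mod_cast hn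
    linarith
  have hn0 : 0 < n := by omega
  have hF' : ∀ i ∈ I, F i ⊆ U ∧ δ' * n ≤ ((F i).card : ℝ) := fun i hi =>
    ⟨(hF i hi).1, (mul_le_mul_of_nonneg_right h3 (Nat.cast_nonneg n)).trans (hF i hi).2⟩
  obtain ⟨S, hSU, hSc, hS⟩ := HitG_greedy U I F n hn0 δ' h1 (by linarith) hU hF' ⌊ε * n⌋₊
  have h6 := HitG_small ε δ' hε h1 h2 n hn1
  refine ⟨S, hSU, ?_, ?_⟩
  · have h7 : (S.card : ℝ) ≤ (⌊ε * n⌋₊ : ℝ) := by exact_mod_cast hSc
    exact h7.trans (Nat.floor_le (by positivity))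
  · have h8 : ((I.filter (fun i => Disjoint (F i) S)).card : ℝ) < 1 := by
      have h9 : (I.card : ℝ) ≤ n := by exact_mod_cast hI
      have h10 : 0 ≤ (1 - δ') ^ ⌊ε * n⌋₊ := pow_nonneg (by linarith) _
      exact lt_of_le_of_lt (hS.trans (mul_le_mul_of_nonneg_left h9 h10)) h6
    have h11 : (I.filter (fun i => Disjoint (F i) S)).card = 0 := by
      have : (I.filter (fun i => Disjoint (F i) S)).card < 1 := by exact_mod_cast h8
      omega
    rw [Finset.card_eq_zero, Finset.filter_eq_empty_iff] at h11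
    intro i hi
    have h12 := h11 hi
    rw [Finset.not_disjoint_iff] at h12
    exact h12

end Pool.Agent.H29.CJ
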