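import Pool.Agent.H29.CJ.TriA
import Pool.Agent.H29.CJ.HitG

/-!
# Small sets meeting a representation of every sum

Use only the STATEMENTS of `TriA` and `HitG`.

Let `ε = 1 / (8 N)` (`N ≥ 1`), `δ` from `removal_sums ε`, `M₀` from `hitting ε δ`.  Let `n ≥ max M₀ 1`; put `A' = {b ∈ [1,n] | A b}`,
`B' = {c ∈ [1, n] | B c}` (classical filters).  For `m ∈ [1, n]` let `F m = {b ∈ A' | b < m ∧ m - b ∈ B'}`; the pairs `(b, c) ∈ A' × B'` with
`b + c = m` correspond to `b ∈ F m`.  Popular: `|F m| ≥ δ n`; let `I` be the set of popular `m ≤ n`, `U` the set of the other `m ∈ [1, n]`.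
The number of pairs with `b + c ∈ U` is `Σ_{m ∈ U} |F m| ≤ n · δ n`.  `hitting` (with `U := [1, n]`) gives `S₁` meeting all `F m`, `m ∈ I`.
`removal_sums` gives `SA, SB, SU`.  For `m ∈ SU` that has a representation `b + c = m` (`b ∈ A'`, `c ∈ B'`) choose one `b = f m` (classical choice);
`W = SU.image f`.  `S = S₁ ∪ SA ∪ SB ∪ W`, `|S| ≤ 4 ε n ≤ n / (2 N)`, so `N |S| ≤ n`.
Let `m ≤ n` have a representation with `b, c ≥ 1`.  If `m ∈ I`: some `b ∈ F m ∩ S₁`.  If `m ∈ U` and `m ∈ SU`: the chosen one.  Otherwise the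
given representation has `b ∈ SA` or `c ∈ SB`.
-/

set_option autoImplicit false

namespace Pool.Agent.H29.CJ

theorem small_rep (N : ℕ) (hN : 1 ≤ N) : ∃ M₀ : ℕ, ∀ n : ℕ, M₀ ≤ n → ∀ A B : ℕ → Prop,
    ∃ S : Finset ℕ, N * S.card ≤ n ∧
      ∀ m ≤ n, (∃ b c, 1 ≤ b ∧ 1 ≤ c ∧ b + c = m ∧ A b ∧ B c) →
        ∃ b c, 1 ≤ b ∧ 1 ≤ c ∧ b + c = m ∧ A b ∧ B c ∧ (b ∈ S ∨ c ∈ S) := by
  classical
  have hN0 : (0 : ℝ) < N := by exact_mod_cast hN
  have hε : (0 : ℝ) < 1 / (8 * N) := by positivity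
  obtain ⟨δ, hδ, hR⟩ := removal_sums (1 / (8 * N)) hε
  obtain ⟨M₀, hH⟩ := hitting (1 / (8 * N)) δ hε hδ
  refine ⟨max M₀ 1, fun n hn A B => ?_⟩
  have hn1 : 1 ≤ n := (le_max_right _ _).trans hn
  obtain ⟨A', hA'⟩ : ∃ A' : Finset ℕ, A' = (Finset.Icc 1 n).filter A := ⟨_, rfl⟩
  obtain ⟨B', hB'⟩ : ∃ B' : Finset ℕ, B' = (Finset.Icc 1 n).filter B := ⟨_, rfl⟩
  have memA : ∀ b, b ∈ A' ↔ (1 ≤ b ∧ b ≤ n) ∧ A b := by
    intro b
    rw [hA', Finset.mem_filter, Finset.mem_Icc]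
  have memB : ∀ b, b ∈ B' ↔ (1 ≤ b ∧ b ≤ n) ∧ B b := by
    intro b
    rw [hB', Finset.mem_filter, Finset.mem_Icc]
  obtain ⟨F, hF⟩ : ∃ F : ℕ → Finset ℕ, F = fun m => A'.filter (fun b => b < m ∧ m - b ∈ B') := ⟨_, rfl⟩
  have memF : ∀ m b, b ∈ F m ↔ b ∈ A' ∧ b < m ∧ m - b ∈ B' := by
    intro m b
    rw [hF, Finset.mem_filter]
  obtain ⟨I, hI⟩ : ∃ I : Finset ℕ, I = (Finset.Icc 1 n).filter (fun m => δ * n ≤ ((F m).card : ℝ)) := ⟨_, rfl⟩
  obtain ⟨U, hU⟩ : ∃ U : Finset ℕ, U = (Finset.Icc 1 n).filter (fun m => ¬ δ * n ≤ ((F m).card : ℝ)) := ⟨_, rfl⟩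
  have memI : ∀ m, m ∈ I ↔ (1 ≤ m ∧ m ≤ n) ∧ δ * n ≤ ((F m).card : ℝ) := by
    intro m
    rw [hI, Finset.mem_filter, Finset.mem_Icc]
  have memU : ∀ m, m ∈ U ↔ (1 ≤ m ∧ m ≤ n) ∧ ¬ δ * n ≤ ((F m).card : ℝ) := by
    intro m
    rw [hU, Finset.mem_filter, Finset.mem_Icc]
  have hcard : (Finset.Icc 1 n).card = n := by simp
  have hIc : I.card ≤ n := by
    rw [hI]
    exact (Finset.card_filter_le _ _).trans hcard.le
  have hUc : U.card ≤ n := by
    rw [hU]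
    exact (Finset.card_filter_le _ _).trans hcard.le
  obtain ⟨S₁, -, hS₁, hS₁'⟩ := hH n ((le_max_left _ _).trans hn) (Finset.Icc 1 n) I F hcard.le hIc (by
    intro i hi
    refine ⟨fun b hb => ?_, ((memI i).1 hi).2⟩
    rw [Finset.mem_Icc]
    exact ((memA b).1 ((memF i b).1 hb).1).1)
  obtain ⟨SA, SB, SU, hSA, hSB, hSU, hcov⟩ := hR n hn1 A' B' U (fun b hb => ((memA b).1 hb).1)
    (fun b hb => ((memB b).1 hb).1) (fun b hb => ((memU b).1 hb).1) (by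
      have h1 : ((A' ×ˢ B').filter (fun q => q.1 + q.2 ∈ U)).card =
          ∑ m ∈ U, (((A' ×ˢ B').filter (fun q => q.1 + q.2 ∈ U)).filter (fun q => q.1 + q.2 = m)).card := by
        refine Finset.card_eq_sum_card_fiberwise fun q hq => ?_
        exact (Finset.mem_filter.1 hq).2
      have h2 : ∀ m ∈ U, ((((A' ×ˢ B').filter (fun q => q.1 + q.2 ∈ U)).filter (fun q => q.1 + q.2 = m)).card : ℝ) ≤
          δ * n := by
        intro m hm
        have h3 : (((A' ×ˢ B').filter (fun q => q.1 + q.2 ∈ U)).filter (fun q => q.1 + q.2 = m)).card ≤ (F m).card := by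
          refine Finset.card_le_card_of_injOn (fun q => q.1) ?_ ?_
          · intro q hq
            have hq1 := Finset.mem_filter.1 hq
            have hq2 := Finset.mem_product.1 (Finset.mem_filter.1 hq1.1).1
            have h4 := ((memB _).1 hq2.2).1.1
            have h8 : q.1 + q.2 = m := hq1.2
            have h5 : m - q.1 = q.2 := by omega
            have h9 : q.1 < m := by omega
            have h10 : q.1 ∈ F m := (memF m q.1).2 ⟨hq2.1, h9, by rw [h5]; exact hq2.2⟩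
            exact h10
          · intro q hq q' hq' h
            have h5 := (Finset.mem_filter.1 hq).2
            have h6 := (Finset.mem_filter.1 hq').2
            have h7 : q.1 = q'.1 := h
            have h8 : q.2 = q'.2 := by omega
            exact Prod.ext h7 h8
        have h4 := ((memU m).1 hm).2
        have h5 : ((((A' ×ˢ B').filter (fun q => q.1 + q.2 ∈ U)).filter (fun q => q.1 + q.2 = m)).card : ℝ) ≤
            ((F m).card : ℝ) := by exact_mod_cast h3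
        linarith [not_le.1 h4]
      rw [h1]
      push_cast
      refine (Finset.sum_le_card_nsmul _ _ _ h2).trans ?_
      rw [nsmul_eq_mul]
      have h6 : (U.card : ℝ) ≤ n := by exact_mod_cast hUc
      have h7 : 0 ≤ δ * n := by positivity
      nlinarith)
  obtain ⟨f, hf⟩ : ∃ f : ℕ → ℕ, ∀ m, (∃ b c, 1 ≤ b ∧ 1 ≤ c ∧ b + c = m ∧ A b ∧ B c) →
      ∃ c, 1 ≤ f m ∧ 1 ≤ c ∧ f m + c = m ∧ A (f m) ∧ B c := by
    have h1 : ∀ m, ∃ b, (∃ b c, 1 ≤ b ∧ 1 ≤ c ∧ b + c = m ∧ A b ∧ B c) →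
        ∃ c, 1 ≤ b ∧ 1 ≤ c ∧ b + c = m ∧ A b ∧ B c := by
      intro m
      by_cases h : ∃ b c, 1 ≤ b ∧ 1 ≤ c ∧ b + c = m ∧ A b ∧ B c
      · obtain ⟨b, c, hbc⟩ := h
        exact ⟨b, fun _ => ⟨c, hbc⟩⟩
      · exact ⟨0, fun h' => absurd h' h⟩
    choose f hf using h1
    exact ⟨f, hf⟩
  refine ⟨S₁ ∪ SA ∪ SB ∪ SU.image f, ?_, ?_⟩
  · have h1 : (S₁ ∪ SA ∪ SB ∪ SU.image f).card ≤ S₁.card + SA.card + SB.card + SU.card := by
      refine (Finset.card_union_le _ _).trans (add_le_add ?_ Finset.card_image_le)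
      refine (Finset.card_union_le _ _).trans (add_le_add ?_ le_rfl)
      exact Finset.card_union_le _ _
    have h2 : ((S₁ ∪ SA ∪ SB ∪ SU.image f).card : ℝ) ≤ 4 * (1 / (8 * N) * n) := by
      have h3 : ((S₁ ∪ SA ∪ SB ∪ SU.image f).card : ℝ) ≤ S₁.card + SA.card + SB.card + SU.card := by exact_mod_cast h1
      linarith
    have h3 : (N : ℝ) * ((S₁ ∪ SA ∪ SB ∪ SU.image f).card : ℝ) ≤ n := by
      have h4 := mul_le_mul_of_nonneg_left h2 hN0.le
      have h5 : (N : ℝ) * (4 * (1 / (8 * N) * n)) = n / 2 := by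
        field_simp
        norm_num
      rw [h5] at h4
      have h6 : (0 : ℝ) ≤ n := Nat.cast_nonneg n
      linarith
    exact_mod_cast h3
  · rintro m hm ⟨b, c, hb, hc, hbc, hAb, hBc⟩
    have hbA : b ∈ A' := (memA b).2 ⟨⟨hb, by omega⟩, hAb⟩
    have hcB : c ∈ B' := (memB c).2 ⟨⟨hc, by omega⟩, hBc⟩
    have hm1 : 1 ≤ m := by omega
    by_cases hmI : δ * n ≤ ((F m).card : ℝ)
    · obtain ⟨u, hu, huS⟩ := hS₁' m ((memI m).2 ⟨⟨hm1, hm⟩, hmI⟩)
      obtain ⟨h1, h2, h3⟩ := (memF m u).1 hu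
      obtain ⟨⟨h4, _⟩, h5⟩ := (memA u).1 h1
      obtain ⟨⟨h6, _⟩, h7⟩ := (memB _).1 h3
      exact ⟨u, m - u, h4, h6, by omega, h5, h7, Or.inl (by simp [huS])⟩
    · have hmU : b + c ∈ U := by
        rw [hbc]
        exact (memU m).2 ⟨⟨hm1, hm⟩, hmI⟩
      rcases hcov b hbA c hcB hmU with h | h | h
      · exact ⟨b, c, hb, hc, hbc, hAb, hBc, Or.inl (by simp [h])⟩
      · exact ⟨b, c, hb, hc, hbc, hAb, hBc, Or.inr (by simp [h])⟩
      · rw [hbc] at h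
        obtain ⟨c', h1, h2, h3, h4, h5⟩ := hf m ⟨b, c, hb, hc, hbc, hAb, hBc⟩
        refine ⟨f m, c', h1, h2, h3, h4, h5, Or.inl ?_⟩
        rw [Finset.mem_union]
        exact Or.inr (Finset.mem_image_of_mem f h)

end Pool.Agent.H29.CJ
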