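import Pool.Agent.H29.CJ.CpW
import Pool.Agent.H29.CJ.CpF1
import Pool.Agent.H29.CJ.CpF2
import Pool.Agent.H29.CJ.CpZ
import Pool.Agent.H29.CJ.ParC
import Pool.Agent.H29.CJ.SSp
import Pool.Agent.H29.CJ.Mdl

/-!
# Completeness of the speed-up language

Use only the STATEMENTS of the imported files.

Let `K = k + 1`, choose `a` with `N := 2^a ≥ 2^d (2 K + 8)` and `N ≥ 2` and `N ≥ K` (e.g. `a = d + 2 K + 8`).  `Q := N^4`, so
`K² N² ≤ Q`.  `b2 := N^(2 Q + 6)` (a power of two, at least `N · N^(2r-1)` for `r ≤ Q + 2`).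
`N1 := 2 K² N^(4 Q + 12)`; `M₁` from `small_rep N1` (applied to each pair `p`: for all `A, B` at once).
`e0` := something larger than `M₁`, `a (4 Q + 20) + 1` and `N^(4 (Q + 3) + 5)` (so `e0 ≤ M` makes `M` large and `2^e0 ∣ M` gives
`2 N^(4 Q + 20) ∣ M`).
For `M ≥ e0`, `2^e0 ∣ M`, `G.T 0 M` (so `M > 0`): `exists_level` gives `r`, `3 ≤ r ≤ Q + 2`, with `Q # mid ≤ K² M`, so `N² # mid ≤ M`.
`small_rep N1` for `A b := G.T p.1 b`, `B c := G.T p.2 c` gives `S_p` with `N1 |S_p| ≤ M`; `S = ⋃_p S_p`: `N1 |S| ≤ K² M`, so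
`2 b2 N^(2r-1) N |S| ≤ M` since `2 b2 N^(2r-1) N · K² ≤ N1`: `N^(2Q+6) N^(2Q+3) N = N^(4Q+10)`.  (`K ≥ 1`.)
`mkP_len` (divisibility: `N^(2r+1) ∣ M`; `2 b2 ∣ M / N^(2r-1)` because `2 b2 N^(2r-1) ∣ M`: `2 N^(2Q+6+2Q+3) ∣ M`): `n` with
`N n ≤ (2K+8) M`, so `2^d n ≤ M` (`2^d (2K+8) ≤ N`).  `2^d ∣ M`; `F := M / 2^d - n`.
`P := mkP G M N r b2 F S`, `w = word P`: `2^d w.length = M`.  `mkP_sel`, `mkP_good`, `mdl_word`, `word_Srt`, `word_LeftOK`, `word_WtOK`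
(`Fmt = Srt ∩ (LeftOK ∩ WtOK)`), `WG_complete` (with `P.Z * P.B = M`), `word_measure`.
-/

set_option autoImplicit false

namespace Pool.Agent.H29.CJ

open Lt

open Classical in
/-- the construction for one value, all numbers abstract -/
private theorem SpF_one {k : ℕ} (G : USys (k + 1)) {d N Q b2 N1 M : ℕ} (hN2 : 2 ≤ N)
    (hNK : k + 1 ≤ N) (hNd : 2 ^ d * (2 * (k + 1) + 8) ≤ N) (hQ : Q = N ^ 4)
    (hb2 : b2 = N ^ (2 * Q + 6)) (hN1 : N1 = 2 * (k + 1) ^ 2 * N ^ (4 * Q + 12))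
    (hM : 0 < M) (hdv : 2 * N ^ (4 * Q + 20) ∣ M) (hdd : 2 ^ d ∣ M)
    (hbig : N ^ (4 * (Q + 3) + 5) ≤ M) (hT : G.T 0 M)
    (hrep : ∀ A B : ℕ → Prop,
      ∃ S : Finset ℕ, N1 * S.card ≤ M ∧
        ∀ m ≤ M, (∃ b c, 1 ≤ b ∧ 1 ≤ c ∧ b + c = m ∧ A b ∧ B c) →
          ∃ b c, 1 ≤ b ∧ 1 ≤ c ∧ b + c = m ∧ A b ∧ B c ∧ (b ∈ S ∨ c ∈ S)) :
    ∃ w ∈ WG G, 2 ^ d * w.length = M ∧
        ∃ p x q, w = p ++ x :: q ∧ (∀ b ∈ p, isNZ b) ∧ isZ x ∧
          (p.length + 1) * w.count Lt.sg = M ∧ 2 * (p.length + 1) ≤ w.length := by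
  have hNpos : 0 < N := by omega
  have hQpos : 0 < Q := by rw [hQ]; positivity
  have hb2pos : 0 < b2 := by rw [hb2]; positivity
  have hKpos : 0 < (k + 1) ^ 2 := by positivity
  obtain ⟨r, hr3, hrQ, hmid0⟩ := exists_level G (M := M) hQpos hN2
  have hmid : N ^ 2 * ((Finset.Icc 1 M).filter
      (fun m => ∃ p, Mid G M (M / N ^ (2 * r)) (M / N ^ (2 * r - 2)) p m)).card ≤ M := by
    have h1 : (k + 1) ^ 2 * N ^ 2 ≤ Q := by
      rw [hQ]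
      calc (k + 1) ^ 2 * N ^ 2 ≤ N ^ 2 * N ^ 2 :=
            Nat.mul_le_mul_right _ (Nat.pow_le_pow_left hNK 2)
        _ = N ^ 4 := by ring
    have h2 := (Nat.mul_le_mul_right ((Finset.Icc 1 M).filter
      (fun m => ∃ p, Mid G M (M / N ^ (2 * r)) (M / N ^ (2 * r - 2)) p m)).card h1).trans hmid0
    rw [Nat.mul_assoc] at h2
    exact Nat.le_of_mul_le_mul_left h2 hKpos
  choose S0 hS0 hS0' using fun p : Fin (k + 1) × Fin (k + 1) => hrep (G.T p.1) (G.T p.2)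
  obtain ⟨S, hSdef⟩ : ∃ S : Finset ℕ, S = Finset.univ.biUnion S0 := ⟨_, rfl⟩
  have hScard : 2 * N ^ (4 * Q + 12) * S.card ≤ M := by
    have h1 : N1 * S.card ≤ (k + 1) ^ 2 * M := by
      calc N1 * S.card ≤ N1 * ∑ p : Fin (k + 1) × Fin (k + 1), (S0 p).card := by
            rw [hSdef]
            exact Nat.mul_le_mul_left _ Finset.card_biUnion_le
        _ = ∑ p : Fin (k + 1) × Fin (k + 1), N1 * (S0 p).card := Finset.mul_sum _ _ _
        _ ≤ ∑ _p : Fin (k + 1) × Fin (k + 1), M := Finset.sum_le_sum fun p _ => hS0 p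
        _ = (k + 1) ^ 2 * M := by
            rw [Finset.sum_const, Finset.card_univ, Fintype.card_prod, Fintype.card_fin,
              smul_eq_mul]
            ring
    have h2 : (k + 1) ^ 2 * (2 * N ^ (4 * Q + 12) * S.card) ≤ (k + 1) ^ 2 * M := by
      calc (k + 1) ^ 2 * (2 * N ^ (4 * Q + 12) * S.card) = N1 * S.card := by
            rw [hN1]
            ring
        _ ≤ _ := h1
    exact Nat.le_of_mul_le_mul_left h2 hKpos
  have hdvN : ∀ e, e ≤ 4 * Q + 20 → 2 * N ^ e ∣ M := fun e he =>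
    (Nat.mul_dvd_mul_left 2 (pow_dvd_pow N he)).trans hdv
  have hdvN' : ∀ e, e ≤ 4 * Q + 20 → N ^ e ∣ M := fun e he =>
    (Dvd.intro_left 2 rfl).trans (hdvN e he)
  have hd1 : N ^ (2 * r) ∣ M := hdvN' _ (by omega)
  have hd2 : N ^ (2 * r + 1) ∣ M := hdvN' _ (by omega)
  have hd' : 2 * b2 ∣ M / N ^ (2 * r - 1) := by
    apply Nat.dvd_div_of_mul_dvd
    have e : N ^ (2 * r - 1) * (2 * b2) = 2 * N ^ (2 * r - 1 + (2 * Q + 6)) := by
      rw [hb2, pow_add]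
      ring
    rw [e]
    exact hdvN _ (by omega)
  have hb2' : N * N ^ (2 * r - 1) ≤ b2 := by
    rw [hb2, ← pow_succ']
    exact Nat.pow_le_pow_right hNpos (by omega)
  have hS : 2 * b2 * N ^ (2 * r - 1) * N * S.card ≤ M := by
    refine le_trans (Nat.mul_le_mul_right _ ?_) hScard
    have e : 2 * b2 * N ^ (2 * r - 1) * N = 2 * N ^ (2 * Q + 6 + (2 * r - 1) + 1) := by
      rw [hb2, pow_succ, pow_add]
      ring
    rw [e]
    exact Nat.mul_le_mul_left 2 (Nat.pow_le_pow_right hNpos (by omega))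
  have hbig' : N ^ (4 * r + 5) ≤ M :=
    (Nat.pow_le_pow_right hNpos (by omega)).trans hbig
  obtain ⟨n, hn, hlen⟩ := mkP_len G (S := S) hN2 hr3 hM hd2 hd' hb2' hmid hS hbig'
  have hn' : 2 ^ d * n ≤ M := by
    have h1 : (2 * (k + 1) + 8) * (2 ^ d * n) ≤ (2 * (k + 1) + 8) * M := by
      calc (2 * (k + 1) + 8) * (2 ^ d * n) = 2 ^ d * (2 * (k + 1) + 8) * n := by ring
        _ ≤ N * n := Nat.mul_le_mul_right _ hNd
        _ ≤ _ := hn
    exact Nat.le_of_mul_le_mul_left h1 (by omega)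
  obtain ⟨c, hc⟩ := hdd
  have hnc : n ≤ c := by
    rw [hc] at hn'
    exact Nat.le_of_mul_le_mul_left hn' (by positivity)
  have hrep' : ∀ p m, m ≤ M → (∃ b c, Rp G p m b c) →
      ∃ b c, Rp G p m b c ∧ (b ∈ S ∨ c ∈ S) := by
    rintro p m hm ⟨b, c, hbc, h1, h2⟩
    have hb1 : 1 ≤ b := by
      rcases Nat.eq_zero_or_pos b with h3 | h3
      · rw [h3] at h1
        exact absurd h1 (G.T0 _)
      · exact h3
    have hc1 : 1 ≤ c := by
      rcases Nat.eq_zero_or_pos c with h3 | h3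
      · rw [h3] at h2
        exact absurd h2 (G.T0 _)
      · exact h3
    obtain ⟨b', c', -, -, e1, e2, e3, e4⟩ := hS0' p m hm ⟨b, c, hb1, hc1, hbc, h1, h2⟩
    refine ⟨b', c', ⟨e1, e2, e3⟩, ?_⟩
    rw [hSdef]
    rcases e4 with e4 | e4
    · exact Or.inl (Finset.mem_biUnion.2 ⟨p, Finset.mem_univ _, e4⟩)
    · exact Or.inr (Finset.mem_biUnion.2 ⟨p, Finset.mem_univ _, e4⟩)
  have hgood := mkP_good G (F := c - n) (S := S) hN2 hr3 hM hd1 hb2pos hd'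
  obtain ⟨hsel, hZB⟩ := mkP_sel G (F := c - n) hN2 hr3 hM hd1 hb2pos hd' hrep'
  have hF : word (mkP G M N r b2 (c - n) S) ∈ Fmt :=
    ⟨word_Srt _ hgood, word_LeftOK _ hgood, word_WtOK _ hgood⟩
  obtain ⟨⟨p, x, q, e, hp, hx, hpl⟩, hcount⟩ := word_measure _ hgood
  refine ⟨word (mkP G M N r b2 (c - n) S), WG_complete G hsel (mdl_word _ hgood) hF ?_, ?_,
    p, x, q, e, hp, hx, ?_, ?_⟩
  · rw [hZB]
    exact hT
  · rw [hlen, hc]
    congr 1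
    omega
  · rw [hpl, hcount]
    exact hZB
  · rw [hpl]
    have hZ := hgood.Zpos
    have hNz : 2 ≤ (mkP G M N r b2 (c - n) S).Nz := by
      show 2 ≤ N + N ^ (2 * r - 2) + 4
      omega
    have h1 : 2 * (mkP G M N r b2 (c - n) S).Z ≤
        (mkP G M N r b2 (c - n) S).Nz * (mkP G M N r b2 (c - n) S).Z :=
      Nat.mul_le_mul_right _ hNz
    refine h1.trans ?_
    by_contra hlt
    push_neg at hlt
    have h2 := (mdl_word _ hgood).left _ hlt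
    simp at h2

theorem WG_speedup {k : ℕ} (G : USys (k + 1)) (d : ℕ) :
    ∃ e0 : ℕ, ∀ M, e0 ≤ M → 2 ^ e0 ∣ M → G.T 0 M →
      ∃ w ∈ WG G, 2 ^ d * w.length = M ∧
        ∃ p x q, w = p ++ x :: q ∧ (∀ b ∈ p, isNZ b) ∧ isZ x ∧
          (p.length + 1) * w.count Lt.sg = M ∧ 2 * (p.length + 1) ≤ w.length := by
  obtain ⟨a, ha⟩ : ∃ a, a = d + (2 * (k + 1) + 8) := ⟨_, rfl⟩
  obtain ⟨N, hN⟩ : ∃ N, N = 2 ^ a := ⟨_, rfl⟩
  obtain ⟨Q, hQ⟩ : ∃ Q, Q = N ^ 4 := ⟨_, rfl⟩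
  obtain ⟨N1, hN1⟩ : ∃ N1, N1 = 2 * (k + 1) ^ 2 * N ^ (4 * Q + 12) := ⟨_, rfl⟩
  have hNpos : 0 < N := by
    rw [hN]
    positivity
  have hN1pos : 1 ≤ N1 := by
    rw [hN1]
    have : 0 < 2 * (k + 1) ^ 2 * N ^ (4 * Q + 12) := by positivity
    exact this
  have hNd : 2 ^ d * (2 * (k + 1) + 8) ≤ N := by
    rw [hN, ha, pow_add]
    exact Nat.mul_le_mul_left _ Nat.lt_two_pow_self.le
  have h2d : 1 ≤ 2 ^ d := Nat.one_le_two_pow
  have hN8 : 2 * (k + 1) + 8 ≤ N := by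
    have h1 : 1 * (2 * (k + 1) + 8) ≤ 2 ^ d * (2 * (k + 1) + 8) := Nat.mul_le_mul_right _ h2d
    omega
  obtain ⟨M₁, hM₁⟩ := small_rep N1 hN1pos
  refine ⟨M₁ + (a * (4 * Q + 20) + 1) + N ^ (4 * (Q + 3) + 5), fun M hM hdv hT => ?_⟩
  have hMpos : 0 < M := by
    rcases Nat.eq_zero_or_pos M with h0 | h0
    · rw [h0] at hT
      exact absurd hT (G.T0 _)
    · exact h0
  refine SpF_one G (by omega) (by omega) hNd hQ rfl hN1 hMpos ?_ ?_ (by omega) hT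
    (hM₁ M (by omega))
  · have e : 2 * N ^ (4 * Q + 20) = 2 ^ (a * (4 * Q + 20) + 1) := by
      rw [hN, ← pow_mul, pow_succ]
      ring
    rw [e]
    exact (pow_dvd_pow 2 (by omega)).trans hdv
  · refine (pow_dvd_pow 2 ?_).trans hdv
    have h1 : a * 1 ≤ a * (4 * Q + 20) := Nat.mul_le_mul_left _ (by omega)
    omega

end Pool.Agent.H29.CJ
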