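import Pool.Agent.H29.CJ.Clos

/-!
# Under the closure hypothesis complements of unary conjunctive languages are conjunctive

Use only the STATEMENTS of the imported files.

Let `G : USys (k+1)`, `K = k + 1`, letters `β = Fin K → Bool` (finite).  Work classically.
The table words: `Tb = {w : List β | ∀ t (h : t < w.length) A, (w[t] A = true ↔ G.T A (t + 1))}`.
For nonterminals `B, C`:
 `Cv B C = {u | ∃ i j, i + j + 1 = u.length ∧ u[i]? has B-bit true ∧ u[j]? has C-bit true}`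
 (0-indexed: positions `i, j` correspond to lengths `i+1, j+1` with `(i+1) + (j+1) = u.length + 1`), and its
complement `Nc B C`.
(1) `Cv` is conjunctive: guarded solution (`isConj_of_sys`, `ι = Unit`) of
 `X = LC (B ∧ C) ∪ ⋃_{a b with (a B ∧ b C) ∨ (b B ∧ a C)} {[a]} univ {[b]} ∪ univ1 X univ1`, `univ1 = LC True`
 (finite unions over letters by `Poly.exF`/`IsConj.exF` or write the middle term as
 `LC(B-bit) univ LC(C-bit) ∪ LC(C-bit) univ LC(B-bit)`).
(2) `Nc` is conjunctive: guarded solution of `X = {[]} ∪ LC ¬(B ∧ C) ∪ ⋃_{(a,b) allowed} {[a]} X {[b]}`, allowed: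
 `¬(a B ∧ b C) ∧ ¬(b B ∧ a C)`; finite union over `β × β` with `Poly.exF` and `Poly.iteP`.
 For both: decompose a word of length `≥ 2` as `a :: (u ++ [b])`; the pair `(i, j)` with `i + j + 1 = length`
 is either an outer pair `(0, last)`/`(last, 0)` or an inner pair shifted by one.
(3) For `v : β` let `Ok v = {u | ∀ A, (v A = true ↔ (u = [] ∧ G.base A) ∨ ∃ ρ ∈ G.rules A, ∀ p ∈ ρ, u ∈ Cv p.1 p.2)}`.
 It is conjunctive: `IsConj.allF` over `A`; if `v A = true` the condition is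
 `{[]}`-part (`IsConj.iteP isConj_eps`) `∪ exL allL Cv`; if `v A = false` it is the complement:
 `(nonempty word or ¬ base) ∩ allL exL Nc` (nonempty words: `cat (LC True) univ`).
(4) `Tb` is conjunctive: guarded solution of `X = {[]} ∪ {w | ∃ v, w ∈ cat (X ∩ Ok v) {[v]}}` (`Poly.exF`).
 For `w = u ++ [v]`: `w ∈ Tb ↔ u ∈ Tb ∧ ∀ A, (v A ↔ G.T A (u.length + 1))`; and for `u ∈ Tb`:
 `G.T A (u.length+1) ↔ (u = [] ∧ base A) ∨ ∃ ρ ∈ rules A, ∀ p ∈ ρ, u ∈ Cv p.1 p.2` by `G.Tiff`, `G.T0`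
 (`m₁, m₂ ≥ 1`, `i = m₁ - 1`, `j = m₂ - 1`).
(5) `L = Tb ∩ cat univ (LC (fun v => v 0 = false))` is conjunctive, and it has a word of length `n ≥ 1` iff
 `¬ G.T 0 n` (the table word of length `n` exists and is unique: `List.ofFn`/`List.map` over `range n`).
 Apply `Closed.len`.
-/

set_option autoImplicit false

namespace Pool.Agent.H29.CJ

open Classical in
/-- The convolution language. -/
private def CV {β : Type} (P Q : β → Prop) : Set (List β) :=
  {u | ∃ i j, i + j + 1 = u.length ∧ Is u i P ∧ Is u j Q}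

private lemma Is_zero {β : Type} (a : β) (v : List β) (P : β → Prop) : Is (a :: v) 0 P ↔ P a := by
  simp [Is]

private lemma Is_succ {β : Type} (a b : β) (v : List β) (i : ℕ) (hi : i < v.length) (P : β → Prop) :
    Is (a :: (v ++ [b])) (i + 1) P ↔ Is v i P := by
  simp only [Is, List.getElem?_cons_succ]
  rw [List.getElem?_append_left hi]

private lemma Is_last {β : Type} (a b : β) (v : List β) (P : β → Prop) :
    Is (a :: (v ++ [b])) (v.length + 1) P ↔ P b := by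
  simp only [Is, List.getElem?_cons_succ]
  rw [List.getElem?_append_right le_rfl]
  simp

private lemma Is_lt {β : Type} {w : List β} {i : ℕ} {P : β → Prop} (h : Is w i P) : i < w.length := by
  obtain ⟨a, ha, -⟩ := h
  exact (List.getElem?_eq_some_iff.1 ha).1

private lemma CV_nil {β : Type} (P Q : β → Prop) : [] ∉ CV P Q := by
  rintro ⟨i, j, h, -⟩
  simp at h

private lemma CV_one {β : Type} (P Q : β → Prop) (a : β) : [a] ∈ CV P Q ↔ (P a ∧ Q a) := by
  constructor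
  · rintro ⟨i, j, h, h1, h2⟩
    have hi : i = 0 := by simp at h; omega
    have hj : j = 0 := by simp at h; omega
    subst hi; subst hj
    exact ⟨(Is_zero a [] P).1 h1, (Is_zero a [] Q).1 h2⟩
  · rintro ⟨h1, h2⟩
    exact ⟨0, 0, by simp, (Is_zero a [] P).2 h1, (Is_zero a [] Q).2 h2⟩

private lemma CV_two {β : Type} (P Q : β → Prop) (a b : β) (v : List β) :
    a :: (v ++ [b]) ∈ CV P Q ↔ ((P a ∧ Q b) ∨ (Q a ∧ P b) ∨ v ∈ CV P Q) := by
  constructor
  · rintro ⟨i, j, h, h1, h2⟩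
    simp only [List.length_cons, List.length_append, List.length_nil] at h
    rcases Nat.eq_zero_or_pos i with hi | hi
    · subst hi
      have hj : j = v.length + 1 := by omega
      subst hj
      exact Or.inl ⟨(Is_zero _ _ _).1 h1, (Is_last _ _ _ _).1 h2⟩
    · rcases Nat.eq_zero_or_pos j with hj | hj
      · subst hj
        have hi' : i = v.length + 1 := by omega
        subst hi'
        exact Or.inr (Or.inl ⟨(Is_zero _ _ _).1 h2, (Is_last _ _ _ _).1 h1⟩)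
      · obtain ⟨i, rfl⟩ := Nat.exists_eq_succ_of_ne_zero hi.ne'
        obtain ⟨j, rfl⟩ := Nat.exists_eq_succ_of_ne_zero hj.ne'
        refine Or.inr (Or.inr ⟨i, j, by omega, ?_, ?_⟩)
        · exact (Is_succ _ _ _ _ (by omega) _).1 h1
        · exact (Is_succ _ _ _ _ (by omega) _).1 h2
  · rintro (⟨h1, h2⟩ | ⟨h1, h2⟩ | ⟨i, j, h, h1, h2⟩)
    · exact ⟨0, v.length + 1, by simp, (Is_zero _ _ _).2 h1, (Is_last _ _ _ _).2 h2⟩
    · exact ⟨v.length + 1, 0, by simp, (Is_last _ _ _ _).2 h2, (Is_zero _ _ _).2 h1⟩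
    · refine ⟨i + 1, j + 1, by simp; omega, ?_, ?_⟩
      · exact (Is_succ _ _ _ _ (Is_lt h1) _).2 h1
      · exact (Is_succ _ _ _ _ (Is_lt h2) _).2 h2

private lemma word_cases {β : Type} (w : List β) :
    w = [] ∨ (∃ a, w = [a]) ∨ ∃ a v b, w = a :: (v ++ [b]) := by
  rcases w with _ | ⟨a, w⟩
  · exact Or.inl rfl
  · rcases List.eq_nil_or_concat w with rfl | ⟨v, b, rfl⟩
    · exact Or.inr (Or.inl ⟨a, rfl⟩)
    · exact Or.inr (Or.inr ⟨a, v, b, by simp⟩)

private lemma mem_LC1 {β : Type} (P : β → Prop) (a : β) : [a] ∈ LC P ↔ P a := by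
  constructor
  · rintro ⟨b, hb, h⟩
    simp at h
    exact h ▸ hb
  · intro h
    exact ⟨a, h, rfl⟩

private lemma isConj_CV {β : Type} [Finite β] (P Q : β → Prop) : IsConj (CV P Q) := by
  let Φ : Unit → (Unit → Set (List β)) → Set (List β) := fun _ X =>
    LC (fun a => P a ∧ Q a) ∪ (cat (LC P) (cat Set.univ (LC Q)) ∪ (cat (LC Q) (cat Set.univ (LC P)) ∪
      cat (LC fun _ => True) (cat (X ()) (LC fun _ => True))))
  have hΦ : ∀ i, Poly (Φ i) := fun _ =>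
    Poly.union (Poly.cst _ (isConj_LC _)) (Poly.union (Poly.cst _ ((isConj_LC _).cat (isConj_univ.cat (isConj_LC _))))
      (Poly.union (Poly.cst _ ((isConj_LC _).cat (isConj_univ.cat (isConj_LC _))))
        (Poly.cat (Poly.cst _ (isConj_LC _)) (Poly.cat (Poly.var ()) (Poly.cst _ (isConj_LC _))))))
  refine isConj_of_sys hΦ (fun _ => CV P Q) (fun _ => 0) ?_ ?_ ()
  · rintro - w (⟨a, h, rfl⟩ | ⟨_, ⟨a, ha, rfl⟩, _, ⟨v, -, _, ⟨b, hb, rfl⟩, rfl⟩, rfl⟩ |
      ⟨_, ⟨a, ha, rfl⟩, _, ⟨v, -, _, ⟨b, hb, rfl⟩, rfl⟩, rfl⟩ |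
      ⟨_, ⟨a, -, rfl⟩, _, ⟨v, hv, _, ⟨b, -, rfl⟩, rfl⟩, rfl⟩)
    · exact (CV_one P Q a).2 h
    · exact (CV_two P Q a b v).2 (Or.inl ⟨ha, hb⟩)
    · exact (CV_two P Q a b v).2 (Or.inr (Or.inl ⟨ha, hb⟩))
    · exact (CV_two P Q a b v).2 (Or.inr (Or.inr hv))
  · rintro - w hw
    rcases word_cases w with rfl | ⟨a, rfl⟩ | ⟨a, v, b, rfl⟩
    · exact absurd hw (CV_nil P Q)
    · exact Or.inl ⟨a, (CV_one P Q a).1 hw, rfl⟩
    · rcases (CV_two P Q a b v).1 hw with ⟨h1, h2⟩ | ⟨h1, h2⟩ | h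
      · exact Or.inr (Or.inl ⟨[a], ⟨a, h1, rfl⟩, v ++ [b], ⟨v, Set.mem_univ _, [b], ⟨b, h2, rfl⟩, rfl⟩, rfl⟩)
      · exact Or.inr (Or.inr (Or.inl
          ⟨[a], ⟨a, h1, rfl⟩, v ++ [b], ⟨v, Set.mem_univ _, [b], ⟨b, h2, rfl⟩, rfl⟩, rfl⟩))
      · exact Or.inr (Or.inr (Or.inr
          ⟨[a], ⟨a, trivial, rfl⟩, v ++ [b], ⟨v, ⟨h, Or.inl (by simp)⟩, [b], ⟨b, trivial, rfl⟩, rfl⟩, rfl⟩))

private lemma isConj_NCV {β : Type} [Finite β] (P Q : β → Prop) : IsConj {w | w ∉ CV P Q} := by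
  let Φ : Unit → (Unit → Set (List β)) → Set (List β) := fun _ X =>
    {[]} ∪ (LC (fun a => ¬ (P a ∧ Q a)) ∪
      {w | ∃ c : β × β, w ∈ {w | (¬ (P c.1 ∧ Q c.2) ∧ ¬ (Q c.1 ∧ P c.2)) ∧ w ∈ cat {[c.1]} (cat (X ()) {[c.2]})}})
  have hΦ : ∀ i, Poly (Φ i) := fun _ =>
    Poly.union (Poly.cst _ isConj_eps) (Poly.union (Poly.cst _ (isConj_LC _))
      (Poly.exF fun c => Poly.iteP (Poly.cat (Poly.cst _ (isConj_sym _)) (Poly.cat (Poly.var ()) (Poly.cst _ (isConj_sym _)))) _))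
  refine isConj_of_sys hΦ (fun _ => {w | w ∉ CV P Q}) (fun _ => 0) ?_ ?_ ()
  · rintro - w (h | ⟨a, h, rfl⟩ | ⟨⟨a, b⟩, ⟨h1, h2⟩, _, rfl, _, ⟨v, hv, _, rfl, rfl⟩, rfl⟩)
    · have : w = [] := h
      subst this
      exact CV_nil P Q
    · exact fun h' => h ((CV_one P Q a).1 h')
    · intro h'
      rcases (CV_two P Q a b v).1 h' with h3 | h3 | h3
      · exact h1 h3
      · exact h2 h3
      · exact hv h3
  · rintro - w hw
    rcases word_cases w with rfl | ⟨a, rfl⟩ | ⟨a, v, b, rfl⟩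
    · exact Or.inl rfl
    · exact Or.inr (Or.inl ⟨a, fun h => hw ((CV_one P Q a).2 h), rfl⟩)
    · refine Or.inr (Or.inr ⟨(a, b), ⟨⟨fun h => hw ((CV_two P Q a b v).2 (Or.inl h)),
        fun h => hw ((CV_two P Q a b v).2 (Or.inr (Or.inl h)))⟩, [a], rfl, v ++ [b],
        ⟨v, ⟨fun h => hw ((CV_two P Q a b v).2 (Or.inr (Or.inr h))), Or.inl (by simp)⟩, [b], rfl, rfl⟩, rfl⟩⟩)

section Tab

variable {k : ℕ} (G : USys (k + 1))

private def Bt (B : Fin (k + 1)) : (Fin (k + 1) → Bool) → Prop := fun v => v B = true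

private def RA (A : Fin (k + 1)) : Set (List (Fin (k + 1) → Bool)) :=
  {u | (u = [] ∧ G.base A) ∨ ∃ ρ ∈ G.rules A, ∀ p ∈ ρ, u ∈ CV (Bt p.1) (Bt p.2)}

private lemma isConj_RA (A : Fin (k + 1)) : IsConj (RA G A) := by
  have h1 : IsConj {w : List (Fin (k + 1) → Bool) | G.base A ∧ w ∈ ({[]} : Set _)} := isConj_eps.iteP _
  have h2 : IsConj {w : List (Fin (k + 1) → Bool) | ∃ ρ ∈ G.rules A, w ∈ {w | ∀ p ∈ ρ, w ∈ CV (Bt p.1) (Bt p.2)}} :=
    IsConj.exL _ fun ρ _ => IsConj.allL _ fun p _ => isConj_CV _ _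
  have h3 : RA G A = {w : List (Fin (k + 1) → Bool) | G.base A ∧ w ∈ ({[]} : Set _)} ∪
      {w : List (Fin (k + 1) → Bool) | ∃ ρ ∈ G.rules A, w ∈ {w | ∀ p ∈ ρ, w ∈ CV (Bt p.1) (Bt p.2)}} := by
    ext w
    simp only [RA, Set.mem_ofPred_eq, Set.mem_union, Set.mem_singleton_iff]
    rw [and_comm (a := w = [])]
  rw [h3]
  exact h1.union h2

private lemma isConj_NRA (A : Fin (k + 1)) : IsConj {w | w ∉ RA G A} := by
  have h1 : IsConj {w : List (Fin (k + 1) → Bool) | ¬ G.base A ∧ w ∈ (Set.univ : Set _)} := isConj_univ.iteP _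
  have h1' : IsConj (cat (LC fun _ : Fin (k + 1) → Bool => True) Set.univ) := (isConj_LC _).cat isConj_univ
  have h2 : IsConj {w : List (Fin (k + 1) → Bool) | ∀ ρ ∈ G.rules A, w ∈ {w | ∃ p ∈ ρ, w ∈ {w | w ∉ CV (Bt p.1) (Bt p.2)}}} :=
    IsConj.allL _ fun ρ _ => IsConj.exL _ fun p _ => isConj_NCV _ _
  have h3 : {w | w ∉ RA G A} = ({w : List (Fin (k + 1) → Bool) | ¬ G.base A ∧ w ∈ (Set.univ : Set _)} ∪
      cat (LC fun _ : Fin (k + 1) → Bool => True) Set.univ) ∩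
      {w : List (Fin (k + 1) → Bool) | ∀ ρ ∈ G.rules A, w ∈ {w | ∃ p ∈ ρ, w ∈ {w | w ∉ CV (Bt p.1) (Bt p.2)}}} := by
    ext w
    have hne : w ∈ cat (LC fun _ : Fin (k + 1) → Bool => True) Set.univ ↔ w ≠ [] := by
      constructor
      · rintro ⟨_, ⟨a, -, rfl⟩, v, -, rfl⟩
        simp
      · intro h
        rcases w with _ | ⟨a, w⟩
        · exact absurd rfl h
        · exact ⟨[a], ⟨a, trivial, rfl⟩, w, Set.mem_univ _, rfl⟩
    rw [Set.mem_inter_iff, Set.mem_union, hne]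
    simp only [RA, Set.mem_ofPred_eq, Set.mem_univ, and_true, not_or, not_and, not_exists, not_forall]
    constructor
    · rintro ⟨h1, h2⟩
      refine ⟨?_, fun ρ hρ => ?_⟩
      · by_cases hw : w = []
        · exact Or.inl (h1 hw)
        · exact Or.inr hw
      · obtain ⟨p, hp, h⟩ := h2 ρ hρ
        exact ⟨p, hp, h⟩
    · rintro ⟨h1, h2⟩
      refine ⟨fun hw => ?_, fun ρ hρ => ?_⟩
      · rcases h1 with h | h
        · exact h
        · exact absurd hw h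
      · obtain ⟨p, hp, h⟩ := h2 ρ hρ
        exact ⟨p, hp, h⟩
  rw [h3]
  exact (h1.union h1').inter h2

private def Okv (v : Fin (k + 1) → Bool) : Set (List (Fin (k + 1) → Bool)) :=
  {u | ∀ A, (v A = true ↔ u ∈ RA G A)}

private lemma isConj_Okv (v : Fin (k + 1) → Bool) : IsConj (Okv G v) := by
  refine IsConj.allF (L := fun A => {u | v A = true ↔ u ∈ RA G A}) fun A => ?_
  by_cases h : v A = true
  · have : {u | v A = true ↔ u ∈ RA G A} = RA G A := by
      ext u; simp [h]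
    rw [this]
    exact isConj_RA G A
  · have : {u | v A = true ↔ u ∈ RA G A} = {u | u ∉ RA G A} := by
      ext u; simp [h]
    rw [this]
    exact isConj_NRA G A

private def Tb : Set (List (Fin (k + 1) → Bool)) :=
  {w | ∀ t a, w[t]? = some a → ∀ A, (a A = true ↔ G.T A (t + 1))}

private lemma Tb_Is {u : List (Fin (k + 1) → Bool)} (hu : u ∈ Tb G) {i : ℕ} (hi : i < u.length)
    (B : Fin (k + 1)) : Is u i (Bt B) ↔ G.T B (i + 1) := by
  have h1 : u[i]? = some u[i] := List.getElem?_eq_getElem hi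
  have h2 := hu i _ h1 B
  constructor
  · rintro ⟨a, ha, hB⟩
    rw [h1] at ha
    injection ha with ha
    subst ha
    exact h2.1 hB
  · intro h
    exact ⟨_, h1, h2.2 h⟩

private lemma Tb_RA {u : List (Fin (k + 1) → Bool)} (hu : u ∈ Tb G) (A : Fin (k + 1)) :
    G.T A (u.length + 1) ↔ u ∈ RA G A := by
  rw [G.Tiff]
  have e1 : (u.length + 1 = 1 ∧ G.base A) ↔ (u = [] ∧ G.base A) := by
    simp
  have e2 : ∀ p : Fin (k + 1) × Fin (k + 1),
      (∃ m₁ m₂, m₁ + m₂ = u.length + 1 ∧ G.T p.1 m₁ ∧ G.T p.2 m₂) ↔ u ∈ CV (Bt p.1) (Bt p.2) := by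
    intro p
    constructor
    · rintro ⟨m₁, m₂, h, h1, h2⟩
      have hm1 : m₁ ≠ 0 := fun h0 => G.T0 _ (h0 ▸ h1)
      have hm2 : m₂ ≠ 0 := fun h0 => G.T0 _ (h0 ▸ h2)
      obtain ⟨i, rfl⟩ := Nat.exists_eq_succ_of_ne_zero hm1
      obtain ⟨j, rfl⟩ := Nat.exists_eq_succ_of_ne_zero hm2
      exact ⟨i, j, by omega, (Tb_Is G hu (by omega) _).2 h1, (Tb_Is G hu (by omega) _).2 h2⟩
    · rintro ⟨i, j, h, h1, h2⟩
      exact ⟨i + 1, j + 1, by omega, (Tb_Is G hu (Is_lt h1) _).1 h1, (Tb_Is G hu (Is_lt h2) _).1 h2⟩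
  rw [e1]
  simp only [e2]
  rfl

private lemma Tb_snoc (u : List (Fin (k + 1) → Bool)) (v : Fin (k + 1) → Bool) :
    u ++ [v] ∈ Tb G ↔ u ∈ Tb G ∧ ∀ A, (v A = true ↔ G.T A (u.length + 1)) := by
  constructor
  · intro h
    refine ⟨fun t a ha A => ?_, fun A => ?_⟩
    · have hlt : t < u.length := (List.getElem?_eq_some_iff.1 ha).1
      exact h t a (by rw [List.getElem?_append_left hlt]; exact ha) A
    · exact h u.length v (by simp) A
  · rintro ⟨h1, h2⟩ t a ha A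
    rcases lt_trichotomy t u.length with hlt | rfl | hgt
    · rw [List.getElem?_append_left hlt] at ha
      exact h1 t a ha A
    · simp at ha
      subst ha
      exact h2 A
    · have := (List.getElem?_eq_some_iff.1 ha).1
      simp at this
      omega

private lemma Tb_snoc' (u : List (Fin (k + 1) → Bool)) (v : Fin (k + 1) → Bool) :
    u ++ [v] ∈ Tb G ↔ u ∈ Tb G ∧ u ∈ Okv G v := by
  rw [Tb_snoc]
  constructor
  · rintro ⟨h1, h2⟩
    exact ⟨h1, fun A => (h2 A).trans (Tb_RA G h1 A)⟩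
  · rintro ⟨h1, h2⟩
    exact ⟨h1, fun A => (h2 A).trans (Tb_RA G h1 A).symm⟩

private lemma Tb_nil : [] ∈ Tb G := by
  intro t a h
  simp at h

private lemma isConj_Tb : IsConj (Tb G) := by
  let Φ : Unit → (Unit → Set (List (Fin (k + 1) → Bool))) → Set (List (Fin (k + 1) → Bool)) := fun _ X =>
    {[]} ∪ {w | ∃ v : Fin (k + 1) → Bool, w ∈ cat (X () ∩ Okv G v) {[v]}}
  have hΦ : ∀ i, Poly (Φ i) := fun _ =>
    Poly.union (Poly.cst _ isConj_eps) (Poly.exF fun v =>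
      Poly.cat (Poly.inter (Poly.var ()) (Poly.cst _ (isConj_Okv G v))) (Poly.cst _ (isConj_sym v)))
  refine isConj_of_sys hΦ (fun _ => Tb G) (fun _ => 0) ?_ ?_ ()
  · rintro - w (h | ⟨v, u, ⟨h1, h2⟩, _, rfl, rfl⟩)
    · have : w = [] := h
      subst this
      exact Tb_nil G
    · exact (Tb_snoc' G u v).2 ⟨h1, h2⟩
  · rintro - w hw
    rcases List.eq_nil_or_concat w with rfl | ⟨u, v, rfl⟩
    · exact Or.inl rfl
    · rw [List.concat_eq_append] at hw ⊢
      have h := (Tb_snoc' G u v).1 hw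
      exact Or.inr ⟨v, u, ⟨⟨h.1, Or.inl (by simp)⟩, h.2⟩, [v], rfl, rfl⟩

open Classical in
private noncomputable def tw : ℕ → List (Fin (k + 1) → Bool)
  | 0 => []
  | n + 1 => tw n ++ [fun A => decide (G.T A (n + 1))]

private lemma tw_len (n : ℕ) : (tw G n).length = n := by
  induction n with
  | zero => rfl
  | succ n ih => simp [tw, ih]

private lemma tw_mem (n : ℕ) : tw G n ∈ Tb G := by
  induction n with
  | zero => exact Tb_nil G
  | succ n ih =>
    rw [tw, Tb_snoc]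
    refine ⟨ih, fun A => ?_⟩
    rw [tw_len]
    simp

end Tab

theorem USys.compl (hC : Closed) {k : ℕ} (G : USys (k + 1)) :
    ∃ (k' : ℕ) (G' : USys (k' + 1)), ∀ n, 1 ≤ n → (G'.T 0 n ↔ ¬ G.T 0 n) := by
  have hL : IsConj (Tb G ∩ cat Set.univ (LC fun v : Fin (k + 1) → Bool => v 0 = false)) :=
    (isConj_Tb G).inter (isConj_univ.cat (isConj_LC _))
  obtain ⟨k', G', h⟩ := hC.len hL
  refine ⟨k', G', fun n hn => (h n hn).trans ?_⟩
  constructor
  · rintro ⟨_, ⟨hw, u, -, _, ⟨v, hv, rfl⟩, rfl⟩, rfl⟩ hT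
    have h1 := ((Tb_snoc G u v).1 hw).2 0
    simp only [List.length_append, List.length_cons, List.length_nil, zero_add] at hT
    have h2 := h1.2 hT
    rw [hv] at h2
    exact Bool.false_ne_true h2
  · intro hT
    obtain ⟨m, rfl⟩ := Nat.exists_eq_succ_of_ne_zero (by omega : n ≠ 0)
    refine ⟨tw G (m + 1), ⟨tw_mem G (m + 1), tw G m, Set.mem_univ _, _, ⟨_, ?_, rfl⟩, rfl⟩, tw_len G (m + 1)⟩
    simpa using hT

end Pool.Agent.H29.CJ
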