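import Pool.Agent.H29.CJ.UnD
import Pool.Agent.H29.CJ.Clo2

/-!
# The universal language is conjunctive

Use only the STATEMENTS of the imported files.

`Finite (Ct α)`: surjection from `Fin 8 ⊕ α ⊕ α` or `Finite.of_injective` into it.  All constants by the closure lemmas (`isConj_LC`, `isConj_ST`,
`IsConj.cat`, `IsConj.sync`, `IsConj.exF` for `BaseL, BaseR`).  `Poly (PhiU v)`; `isConj_Lfp`.
-/

set_option autoImplicit false

namespace Pool.Agent.H29.CJ

open Ct

/-- the code of a letter -/
def UnCj_c {α : Type} : Ct α → Fin 8 ⊕ (α ⊕ α)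
  | .S => .inl 0
  | .E => .inl 1
  | .o => .inl 2
  | .l => .inl 3
  | .m => .inl 4
  | .R => .inl 5
  | .I => .inl 6
  | .p => .inl 7
  | .b a => .inr (.inl a)
  | .x a => .inr (.inr a)

/-- its inverse -/
def UnCj_d {α : Type} : Fin 8 ⊕ (α ⊕ α) → Ct α
  | .inl i => if i = 0 then S else if i = 1 then E else if i = 2 then o else if i = 3 then l
      else if i = 4 then m else if i = 5 then R else if i = 6 then I else p
  | .inr (.inl a) => b a
  | .inr (.inr a) => x a

instance finite_Ct {α : Type} [Finite α] : Finite (Ct α) := by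
  refine Finite.of_injective (UnCj_c (α := α)) (Function.LeftInverse.injective (g := UnCj_d) ?_)
  intro c
  cases c <;> simp [UnCj_c, UnCj_d]

section

variable {α : Type} [Finite α]

theorem UnCj_BaseL : IsConj (BaseL : Set (List (Ct α))) :=
  IsConj.exF fun _ => (isConj_ST _).cat ((isConj_LC _).cat ((isConj_ST _).cat (isConj_LC _)))

theorem UnCj_BaseR : IsConj (BaseR : Set (List (Ct α))) :=
  IsConj.exF fun _ => (isConj_LC _).cat ((isConj_ST _).cat ((isConj_LC _).cat (isConj_ST _)))

theorem UnCj_nmS : IsConj (nmS : Set (List (Ct α))) :=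
  (isConj_LC _).cat ((isConj_ST _).cat (isConj_LC _))

theorem UnCj_nmE : IsConj (nmE : Set (List (Ct α))) :=
  (isConj_LC _).cat ((isConj_ST _).cat (isConj_LC _))

theorem UnCj_ItT : IsConj (ItT : Set (List (Ct α))) :=
  (isConj_LC _).cat ((isConj_ST _).cat ((isConj_LC _).cat ((isConj_ST _).cat (isConj_LC _))))

theorem UnCj_MB : IsConj (MB : Set (List (Ct α))) :=
  (isConj_LC _).cat (((isConj_LC _).sync ((isConj_LC _).cat (isConj_univ.cat (isConj_LC _)))
    (isConj_LC _)).cat (isConj_LC _))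

theorem UnCj_MC : IsConj (MC : Set (List (Ct α))) :=
  (isConj_LC _).cat ((isConj_ST _).cat ((isConj_LC _).cat
    (((isConj_LC _).sync ((isConj_LC _).cat (isConj_univ.cat (isConj_LC _)))
      (isConj_LC _)).cat (isConj_LC _))))

theorem UnCj_GapL : IsConj (GapL : Set (List (Ct α))) :=
  (isConj_ST _).cat ((isConj_LC _).cat ((isConj_ST _).cat UnCj_nmS))

theorem UnCj_GapR : IsConj (GapR : Set (List (Ct α))) :=
  (isConj_ST _).cat ((isConj_LC _).cat (isConj_ST _))

theorem UnCj_MBR : IsConj (MBR : Set (List (Ct α))) :=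
  (isConj_LC _).cat (((isConj_LC _).sync ((isConj_LC _).cat (isConj_univ.cat (isConj_LC _)))
    (isConj_LC _)).cat ((isConj_LC _).cat ((isConj_ST _).cat (isConj_LC _))))

theorem UnCj_MCR : IsConj (MCR : Set (List (Ct α))) :=
  (isConj_LC _).cat (((isConj_LC _).sync ((isConj_LC _).cat (isConj_univ.cat (isConj_LC _)))
    (isConj_LC _)).cat (isConj_LC _))

theorem UnCj_poly (v : Vu) : Poly (PhiU v : (Vu → Set (List (Ct α))) → Set (List (Ct α))) := by
  cases v
  · exact Poly.union (Poly.cst _ UnCj_BaseL) (Poly.cat (Poly.cst _ (isConj_ST _))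
      (Poly.cat (Poly.cst _ (isConj_LC _)) (Poly.var Vu.IL)))
  · exact Poly.union (Poly.cst _ UnCj_BaseR) (Poly.cat (Poly.var Vu.IR)
      (Poly.union (Poly.cst _ isConj_eps) (Poly.cat (Poly.cst _ (isConj_LC _))
        (Poly.cst _ (isConj_ST _)))))
  · exact Poly.union (Poly.cat (Poly.cst _ (isConj_LC _)) (Poly.cst _ isConj_univ))
      (Poly.inter
        (Poly.cat (Poly.inter (Poly.cst _ UnCj_MC) (Poly.cat (Poly.inter (Poly.cst _ UnCj_MB)
          (Poly.cat (Poly.cst _ (isConj_ST _)) (Poly.cat (Poly.var Vu.RL)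
            (Poly.cst _ UnCj_nmE)))) (Poly.cst _ UnCj_GapL))) (Poly.var Vu.LL))
        (Poly.cat (Poly.cst _ UnCj_ItT) (Poly.var Vu.IL)))
  · exact Poly.union (Poly.cat (Poly.cst _ isConj_univ) (Poly.cst _ (isConj_LC _)))
      (Poly.inter
        (Poly.cat (Poly.var Vu.RL) (Poly.inter (Poly.cst _ UnCj_MBR)
          (Poly.cat (Poly.cst _ UnCj_nmE) (Poly.cat (Poly.cst _ UnCj_GapR)
            (Poly.inter (Poly.cst _ UnCj_MCR) (Poly.cat (Poly.cst _ UnCj_nmS)
              (Poly.cat (Poly.var Vu.LL) (Poly.cst _ (isConj_ST _)))))))))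
        (Poly.cat (Poly.var Vu.IR) (Poly.cst _ UnCj_ItT)))

end

theorem isConj_LU {α : Type} [Finite α] : IsConj (LU : Set (List (Ct α))) :=
  (isConj_ST _).cat ((isConj_LC _).cat ((isConj_LC _).cat ((isConj_LC _).cat
    (isConj_Lfp UnCj_poly Vu.LL))))

theorem UnCj_mono {α : Type} (v : Vu) (X Y : Vu → Set (List (Ct α))) (h : ∀ i, X i ⊆ Y i) :
    PhiU v X ⊆ PhiU v Y := by
  cases v
  · exact Set.union_subset_union subset_rfl (cat_mono subset_rfl (cat_mono subset_rfl (h _)))
  · exact Set.union_subset_union subset_rfl (cat_mono (h _) subset_rfl)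
  · exact Set.union_subset_union subset_rfl (Set.inter_subset_inter
      (cat_mono (Set.inter_subset_inter subset_rfl (cat_mono (Set.inter_subset_inter subset_rfl
        (cat_mono subset_rfl (cat_mono (h _) subset_rfl))) subset_rfl)) (h _))
      (cat_mono subset_rfl (h _)))
  · exact Set.union_subset_union subset_rfl (Set.inter_subset_inter
      (cat_mono (h _) (Set.inter_subset_inter subset_rfl (cat_mono subset_rfl
        (cat_mono subset_rfl (Set.inter_subset_inter subset_rfl (cat_mono subset_rfl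
          (cat_mono (h _) subset_rfl)))))))
      (cat_mono (h _) subset_rfl))

theorem sU_eq {α : Type} (v : Vu) : (SU v : Set (List (Ct α))) = PhiU v SU :=
  Lfp_eq UnCj_mono v

end Pool.Agent.H29.CJ
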