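import Pool.Agent.H29.CJ.UnF

/-!
# Reading the content of a section

Use only the STATEMENTS of the imported files.

By `enc_sect` and `Rd.append_left/right` the word reads from `posC c i A`: `cont G A ++ (o :: (l^A ++ [E]))`, and just before `posC` the leading name
`S l^A o`.  `cont = bas ++ rls`, `bas` consists of the letters `b a` with `G.base A a` (`Finset.mem_toList`), `rls = (G.rules A).flatMap rul`,
`rul ρ = R :: ρ.flatMap itm`; letters of `itm` are `I, l, o`.
Tool for `rls`: if position `t` of `rls` carries `R` then there is a split `G.rules A = ρs ++ ρ :: ρs'` with `t = (ρs.flatMap rul).length` (induction on the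
list of rules), so the word reads from there `rul ρ` and then `ρs'.flatMap rul ++ (o :: ...)`, whose first letter is `R` or `o`, not `I`.
* `cont_R`: all positions in `[posC, r)` carry `inner` letters, so `r ≤ posE + A` (position `posE + A + 1` carries `E`; if `r` were beyond it, it would be
  an `inner` position; if `r` is it, its letter is not `R`).  As `r` carries `R`: it is not in the trailing name (`o, l`), not in `bas`.
* `cont_b`: all positions in `[posC, r)` carry `b` letters and `r` carries `b a`: then `r` is inside `bas` (the first letter after `bas` is `R` or `o`).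
* `back_b`: `r < posE` carries `b a`, positions between `r` and `posE` are `inner`.  If `r < posC`: the position `secS` carries `S`, not inner, so
  `secS ≤ r < posC`, but these positions carry `S, l, o`, not `b`.  So `r ≥ posC`, it lies in `bas` (`rls` has no `b` letters).
* `back_R`: `z = posE`: if `G.rules A` is nonempty with last rule `ρ`: `z0 = z - |rul ρ|`; if it is empty: `cont = bas`, and the previous letter is the last
  letter of `bas` (a `b` letter) or `bas` is empty, `z = posC`, and the leading name is read before `z`.  `z < posE` carrying `R` with `inner` letters in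
  between: as in `back_b`, `z ≥ posC`, and `z` is the head of a rule in the split `ρs ++ ρ :: ρs'`; if `ρs` is nonempty take its last element; if it is
  empty, `z = posC + |bas|`, and the same two cases as before.
* `fwd_R`, `fwd_b`: from `ρ ∈ G.rules A` (`List.append_of_mem`) and `a` with `G.base A a`.
-/

set_option autoImplicit false

namespace Pool.Agent.H29.CJ

open Ct

variable {α : Type} [Fintype α] {K : ℕ} (G : Gr α K) (pd : ℕ) (w : List α)

theorem UnH_is {β : Type} {w : List β} {P : β → Prop} {t : ℕ} {c : β} (h : Is w t P) (hc : w[t]? = some c) :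
    P c := by
  obtain ⟨a, ha, hP⟩ := h
  rw [hc] at ha
  cases ha
  exact hP

theorem UnH_sect (A : Fin K) : sect G A =
    (S :: (List.replicate A l ++ [o])) ++ (cont G A ++ (o :: (List.replicate A l ++ [E]))) := by
  unfold sect
  simp only [List.cons_append, List.append_assoc, List.nil_append]

theorem UnH_nl (A : Fin K) : ((S : Ct α) :: (List.replicate A l ++ [o])).length = A + 2 := by simp

theorem UnH_name {c : Bool} {i : ℕ} {A : Fin K} (hi : i < w.length) :
    Rd (enc G pd w) (secS G pd c i A) (S :: (List.replicate A l ++ [o])) := by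
  have h := enc_sect G pd w hi c A
  rw [UnH_sect] at h
  exact h.append_left

theorem UnH_tail {c : Bool} {i : ℕ} {A : Fin K} (hi : i < w.length) :
    Rd (enc G pd w) (posC G pd c i A) (cont G A ++ (o :: (List.replicate A l ++ [E]))) := by
  have h := enc_sect G pd w hi c A
  rw [UnH_sect] at h
  have h2 := h.append_right
  rw [UnH_nl] at h2
  have h3 : secS G pd c i A + (A + 2) = posC G pd c i A := by
    unfold posC
    omega
  rw [h3] at h2
  exact h2

theorem UnH_get {c : Bool} {i s : ℕ} {A : Fin K} (hi : i < w.length) (hs : s < (cont G A).length) :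
    (enc G pd w)[posC G pd c i A + s]? = (cont G A)[s]? := by
  have h := UnH_tail G pd w (c := c) (A := A) hi
  rw [h.get (by rw [List.length_append]; omega), List.getElem?_append_left hs]

theorem UnH_end {c : Bool} {i : ℕ} {A : Fin K} (hi : i < w.length) :
    Rd (enc G pd w) (posE G pd c i A) ([o] ++ (List.replicate A l ++ [E])) :=
  (UnH_tail G pd w (c := c) (A := A) hi).append_right

theorem UnH_o {c : Bool} {i : ℕ} {A : Fin K} (hi : i < w.length) :
    (enc G pd w)[posE G pd c i A]? = some o := by
  have h := (UnH_end G pd w (c := c) (A := A) hi).get (t := 0) (by simp)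
  simpa using h

theorem UnH_l {c : Bool} {i t : ℕ} {A : Fin K} (hi : i < w.length) (ht : t < A) :
    (enc G pd w)[posE G pd c i A + 1 + t]? = some l := by
  have h := (UnH_end G pd w (c := c) (A := A) hi).append_right
  have h2 := h.get (t := t) (by rw [List.length_append, List.length_replicate]; omega)
  rw [List.getElem?_append_left (by rw [List.length_replicate]; exact ht), List.getElem?_replicate,
    if_pos ht] at h2
  exact h2

theorem UnH_E {c : Bool} {i : ℕ} {A : Fin K} (hi : i < w.length) :
    (enc G pd w)[posE G pd c i A + 1 + A]? = some E := by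
  have h := (UnH_end G pd w (c := c) (A := A) hi).append_right
  have h2 := h.get (t := A) (by rw [List.length_append, List.length_replicate, List.length_singleton]; omega)
  rw [List.getElem?_append_right (by rw [List.length_replicate]), List.length_replicate, Nat.sub_self] at h2
  exact h2

/-- letters of the leading name -/
theorem UnH_lead {c : Bool} {i t : ℕ} {A : Fin K} (hi : i < w.length) (ht : t < A + 2) :
    ∃ ch, (enc G pd w)[secS G pd c i A + t]? = some ch ∧ (ch = S ∨ ch = l ∨ ch = o) := by
  have h := (UnH_name G pd w (c := c) (A := A) hi).get (t := t) (by rw [UnH_nl]; exact ht)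
  have h1 : t < ((S : Ct α) :: (List.replicate A l ++ [o])).length := by rw [UnH_nl]; exact ht
  rw [List.getElem?_eq_getElem h1] at h
  refine ⟨_, h, ?_⟩
  have h2 := List.getElem_mem h1
  simp only [List.mem_cons, List.mem_append, List.mem_replicate, List.not_mem_nil, or_false] at h2
  rcases h2 with h2 | h2 | h2
  · exact Or.inl h2
  · exact Or.inr (Or.inl h2.2)
  · exact Or.inr (Or.inr h2)

theorem UnH_S {c : Bool} {i : ℕ} {A : Fin K} (hi : i < w.length) :
    (enc G pd w)[secS G pd c i A]? = some S := by
  have h := (UnH_name G pd w (c := c) (A := A) hi).get (t := 0) (by simp)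
  simpa using h

theorem UnH_itm (q : Fin K × Fin K) : ∀ ch ∈ itm (α := α) q, ch = I ∨ ch = l ∨ ch = o := by
  intro ch h
  unfold itm at h
  simp only [List.mem_cons, List.mem_append, List.mem_replicate, List.not_mem_nil, or_false] at h
  rcases h with h | h | h | h | h
  · exact Or.inl h
  · exact Or.inr (Or.inl h.2)
  · exact Or.inr (Or.inr h)
  · exact Or.inr (Or.inl h.2)
  · exact Or.inr (Or.inr h)

theorem UnH_its (ρ : List (Fin K × Fin K)) : ∀ ch ∈ ρ.flatMap (itm (α := α)), ch = I ∨ ch = l ∨ ch = o := by
  intro ch h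
  obtain ⟨q, _, hq⟩ := List.mem_flatMap.1 h
  exact UnH_itm q ch hq

theorem UnH_rul (ρ : List (Fin K × Fin K)) : ∀ ch ∈ rul (α := α) ρ, ch = R ∨ ch = I ∨ ch = l ∨ ch = o := by
  intro ch h
  unfold rul at h
  rcases List.mem_cons.1 h with h | h
  · exact Or.inl h
  · exact Or.inr (UnH_its ρ ch h)

theorem UnH_rls (A : Fin K) : ∀ ch ∈ rls G A, ch = R ∨ ch = I ∨ ch = l ∨ ch = o := by
  intro ch h
  unfold rls at h
  obtain ⟨q, _, hq⟩ := List.mem_flatMap.1 h
  exact UnH_rul q ch hq

theorem UnH_bas (A : Fin K) : ∀ ch ∈ bas G A, ∃ a, ch = b a ∧ G.base A a := by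
  intro ch h
  unfold bas at h
  obtain ⟨a, ha, rfl⟩ := List.mem_map.1 h
  refine ⟨a, rfl, ?_⟩
  have := Finset.mem_toList.1 ha
  simpa using this

theorem UnH_bmem {A : Fin K} {a : α} (ha : G.base A a) : b a ∈ bas G A := by
  unfold bas
  refine List.mem_map.2 ⟨a, Finset.mem_toList.2 ?_, rfl⟩
  simpa using ha

theorem UnH_cont (A : Fin K) : ∀ ch ∈ cont G A, inner ch := by
  intro ch h
  unfold cont at h
  rcases List.mem_append.1 h with h | h
  · obtain ⟨a, rfl, _⟩ := UnH_bas G A ch h
    exact Or.inr (Or.inr (Or.inr (Or.inr ⟨a, rfl⟩)))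
  · rcases UnH_rls G A ch h with h | h | h | h
    · exact Or.inr (Or.inr (Or.inl h))
    · exact Or.inr (Or.inr (Or.inr (Or.inl h)))
    · exact Or.inl h
    · exact Or.inr (Or.inl h)

theorem UnH_split (L : List (List (Fin K × Fin K))) : ∀ t : ℕ, (L.flatMap (rul (α := α)))[t]? = some R →
    ∃ ρs ρ ρs', L = ρs ++ ρ :: ρs' ∧ t = (ρs.flatMap (rul (α := α))).length := by
  induction L with
  | nil =>
    intro t h
    simp at h
  | cons ρ L ih =>
    intro t h
    rw [List.flatMap_cons] at h
    rcases Nat.lt_or_ge t (rul (α := α) ρ).length with ht | ht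
    · rw [List.getElem?_append_left ht] at h
      cases t with
      | zero => exact ⟨[], ρ, L, rfl, rfl⟩
      | succ t =>
        exfalso
        unfold rul at h
        rw [List.getElem?_cons_succ] at h
        have h2 := UnH_its ρ R (List.mem_of_getElem? h)
        rcases h2 with h2 | h2 | h2 <;> cases h2
    · rw [List.getElem?_append_right ht] at h
      obtain ⟨ρs, ρ', ρs', h1, h2⟩ := ih _ h
      refine ⟨ρ :: ρs, ρ', ρs', by rw [h1]; rfl, ?_⟩
      rw [List.flatMap_cons, List.length_append, ← h2]
      omega

/-- reading from the start of a rule -/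
theorem UnH_rd {c : Bool} {i : ℕ} {A : Fin K} (hi : i < w.length) {ρs ρs' : List (List (Fin K × Fin K))}
    (h : G.rules A = ρs ++ ρs') :
    Rd (enc G pd w) (posC G pd c i A + (bas G A).length + (ρs.flatMap (rul (α := α))).length)
      (ρs'.flatMap rul ++ (o :: (List.replicate A l ++ [E]))) := by
  have h1 := UnH_tail G pd w (c := c) (A := A) hi
  have h2 : cont G A ++ (o :: (List.replicate A l ++ [E])) =
      bas G A ++ (ρs.flatMap rul ++ (ρs'.flatMap rul ++ (o :: (List.replicate A l ++ [E])))) := by
    unfold cont rls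
    rw [h, List.flatMap_append, List.append_assoc, List.append_assoc]
  rw [h2] at h1
  exact h1.append_right.append_right

theorem UnH_len {A : Fin K} {ρs ρs' : List (List (Fin K × Fin K))} (h : G.rules A = ρs ++ ρs') :
    (cont G A).length = (bas G A).length + (ρs.flatMap (rul (α := α))).length +
      (ρs'.flatMap (rul (α := α))).length := by
  unfold cont rls
  rw [h, List.flatMap_append, List.length_append, List.length_append, Nat.add_assoc]

theorem UnH_R {c : Bool} {i r : ℕ} {A : Fin K} (hi : i < w.length) (h1 : posC G pd c i A ≤ r)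
    (h2 : r < posE G pd c i A) (h3 : (enc G pd w)[r]? = some R) :
    ∃ ρs ρ ρs', G.rules A = ρs ++ ρ :: ρs' ∧
      r = posC G pd c i A + (bas G A).length + (ρs.flatMap (rul (α := α))).length := by
  obtain ⟨s, rfl⟩ := Nat.exists_eq_add_of_le h1
  have hs : s < (cont G A).length := by
    unfold posE at h2
    omega
  rw [UnH_get G pd w hi hs] at h3
  unfold cont at h3
  rcases Nat.lt_or_ge s (bas G A).length with hb | hb
  · exfalso
    rw [List.getElem?_append_left hb] at h3
    obtain ⟨a, ha, _⟩ := UnH_bas G A R (List.mem_of_getElem? h3)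
    cases ha
  · rw [List.getElem?_append_right hb] at h3
    unfold rls at h3
    obtain ⟨ρs, ρ, ρs', h4, h5⟩ := UnH_split _ _ h3
    exact ⟨ρs, ρ, ρs', h4, by omega⟩

theorem UnH_b {c : Bool} {i r : ℕ} {A : Fin K} {a : α} (hi : i < w.length) (h1 : posC G pd c i A ≤ r)
    (h2 : r < posE G pd c i A) (h3 : (enc G pd w)[r]? = some (b a)) : G.base A a := by
  obtain ⟨s, rfl⟩ := Nat.exists_eq_add_of_le h1
  have hs : s < (cont G A).length := by
    unfold posE at h2
    omega
  rw [UnH_get G pd w hi hs] at h3
  have h4 := List.mem_of_getElem? h3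
  unfold cont at h4
  rcases List.mem_append.1 h4 with h4 | h4
  · obtain ⟨a', ha, hb⟩ := UnH_bas G A _ h4
    cases ha
    exact hb
  · exfalso
    rcases UnH_rls G A _ h4 with h | h | h | h <;> cases h

/-- a position before `posE` with only inner letters in between is in the content if its letter is not in a name -/
theorem UnH_ge {c : Bool} {i r : ℕ} {A : Fin K} {ch : Ct α} (hi : i < w.length)
    (h2 : ∀ t, r < t → t < posE G pd c i A → Is (enc G pd w) t inner)
    (h3 : (enc G pd w)[r]? = some ch) (hS : ch ≠ S) (hl : ch ≠ l) (ho : ch ≠ o) :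
    posC G pd c i A ≤ r := by
  by_contra hcon
  push Not at hcon
  have hC : posC G pd c i A = secS G pd c i A + A + 2 := rfl
  have hE : posE G pd c i A = posC G pd c i A + (cont G A).length := rfl
  rcases Nat.lt_or_ge r (secS G pd c i A) with hr | hr
  · have h4 := UnH_is (h2 _ hr (by omega)) (UnH_S G pd w hi)
    rcases h4 with h | h | h | h | ⟨a, h⟩ <;> cases h
  · obtain ⟨t, rfl⟩ := Nat.exists_eq_add_of_le hr
    obtain ⟨ch', h5, h6⟩ := UnH_lead G pd w (c := c) (A := A) (t := t) hi (by omega)
    rw [h3] at h5
    cases h5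
    rcases h6 with h | h | h
    · exact hS h
    · exact hl h
    · exact ho h

theorem cont_inner {c : Bool} {i t : ℕ} {A : Fin K} (hi : i < w.length)
    (h1 : posC G pd c i A ≤ t) (h2 : t < posE G pd c i A) : Is (enc G pd w) t inner := by
  obtain ⟨s, rfl⟩ := Nat.exists_eq_add_of_le h1
  have hs : s < (cont G A).length := by
    unfold posE at h2
    omega
  refine ⟨(cont G A)[s], ?_, UnH_cont G A _ (List.getElem_mem hs)⟩
  rw [UnH_get G pd w hi hs, List.getElem?_eq_getElem hs]

/-- the letter at the end of the content is `o` -/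
theorem posE_o {c : Bool} {i : ℕ} {A : Fin K} (hi : i < w.length) :
    Is (enc G pd w) (posE G pd c i A) (· = o) :=
  ⟨o, UnH_o G pd w hi, rfl⟩

theorem cont_R {c : Bool} {i r : ℕ} {A : Fin K} (hi : i < w.length) (h1 : posC G pd c i A ≤ r)
    (h2 : ∀ t, posC G pd c i A ≤ t → t < r → Is (enc G pd w) t inner)
    (h3 : Is (enc G pd w) r (· = R)) :
    r < posE G pd c i A ∧ ∃ ρ ∈ G.rules A, ∃ ch, ch ≠ I ∧
      r + 1 + (ρ.flatMap (itm (α := α))).length ≤ posE G pd c i A ∧
      Rd (enc G pd w) (r + 1) (ρ.flatMap itm ++ [ch]) := by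
  have hE : posE G pd c i A = posC G pd c i A + (cont G A).length := rfl
  obtain ⟨ch0, h4, h5⟩ := h3
  have h5' : ch0 = R := h5
  rw [h5'] at h4
  have hr : r < posE G pd c i A := by
    by_contra hcon
    push Not at hcon
    rcases Nat.lt_or_ge (posE G pd c i A + 1 + A) r with g | g
    · have h6 := UnH_is (h2 _ (by omega) g) (UnH_E G pd w hi)
      rcases h6 with h | h | h | h | ⟨a, h⟩ <;> cases h
    · rcases Nat.eq_or_lt_of_le g with g | g
      · rw [g, UnH_E G pd w hi] at h4
        cases h4
      · rcases Nat.eq_or_lt_of_le hcon with g' | g'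
        · rw [← g', UnH_o G pd w hi] at h4
          cases h4
        · obtain ⟨t, ht⟩ := Nat.exists_eq_add_of_le (Nat.succ_le_of_lt g')
          have ht' : r = posE G pd c i A + 1 + t := by omega
          rw [ht', UnH_l G pd w hi (by omega)] at h4
          cases h4
  refine ⟨hr, ?_⟩
  obtain ⟨ρs, ρ, ρs', h6, h7⟩ := UnH_R G pd w hi h1 hr h4
  have h8 := UnH_rd G pd w (c := c) hi h6
  have h9 := UnH_len G h6
  rw [← h7, List.flatMap_cons] at h8
  rw [List.flatMap_cons, List.length_append] at h9
  have hrl : (rul (α := α) ρ).length = (ρ.flatMap (itm (α := α))).length + 1 := by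
    unfold rul
    rw [List.length_cons]
  have h10 : rul ρ ++ ρs'.flatMap rul ++ (o :: (List.replicate A l ++ [E])) =
      [R] ++ (ρ.flatMap (itm (α := α)) ++ (ρs'.flatMap rul ++ (o :: (List.replicate A l ++ [E])))) := by
    show (R :: ρ.flatMap itm) ++ ρs'.flatMap rul ++ (o :: (List.replicate A l ++ [E])) = _
    simp only [List.cons_append, List.append_assoc, List.nil_append]
  rw [h10] at h8
  have h11 := h8.append_right
  obtain ⟨ch, v, hv, hch⟩ : ∃ ch v, ρs'.flatMap (rul (α := α)) ++ (o :: (List.replicate A l ++ [E])) = ch :: v ∧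
      ch ≠ I := by
    cases ρs' with
    | nil => exact ⟨o, _, rfl, by intro h; cases h⟩
    | cons ρ' ρs' => exact ⟨R, _, rfl, by intro h; cases h⟩
  rw [hv] at h11
  have h12 : ρ.flatMap (itm (α := α)) ++ ch :: v = (ρ.flatMap itm ++ [ch]) ++ v := by
    rw [List.append_assoc]
    rfl
  rw [h12] at h11
  refine ⟨ρ, by rw [h6]; simp, ch, hch, by omega, h11.append_left⟩

theorem cont_b {c : Bool} {i r : ℕ} {A : Fin K} {a : α} (hi : i < w.length)
    (h1 : posC G pd c i A ≤ r)
    (h2 : ∀ t, posC G pd c i A ≤ t → t < r → Is (enc G pd w) t isb)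
    (h3 : (enc G pd w)[r]? = some (b a)) : r < posE G pd c i A ∧ G.base A a := by
  have hE : posE G pd c i A = posC G pd c i A + (cont G A).length := rfl
  have hr : r < posE G pd c i A := by
    by_contra hcon
    push Not at hcon
    rcases Nat.eq_or_lt_of_le hcon with g | g
    · rw [← g, UnH_o G pd w hi] at h3
      cases h3
    · obtain ⟨a', h⟩ := UnH_is (h2 _ (by omega) g) (UnH_o G pd w hi)
      cases h
  exact ⟨hr, UnH_b G pd w hi h1 hr h3⟩

theorem back_b {c : Bool} {i r : ℕ} {A : Fin K} {a : α} (hi : i < w.length)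
    (h1 : r < posE G pd c i A)
    (h2 : ∀ t, r < t → t < posE G pd c i A → Is (enc G pd w) t inner)
    (h3 : (enc G pd w)[r]? = some (b a)) : posC G pd c i A ≤ r ∧ G.base A a := by
  have h4 : posC G pd c i A ≤ r := UnH_ge G pd w hi h2 h3 (by intro h; cases h) (by intro h; cases h)
    (by intro h; cases h)
  exact ⟨h4, UnH_b G pd w hi h4 h1 h3⟩

theorem UnH_back {c : Bool} {i z : ℕ} {A : Fin K} (hi : i < w.length) {ρs ρs' : List (List (Fin K × Fin K))}
    (h : G.rules A = ρs ++ ρs')
    (hz : z = posC G pd c i A + (bas G A).length + (ρs.flatMap (rul (α := α))).length) :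
    (∃ ρ ∈ G.rules A, ∃ z0, posC G pd c i A ≤ z0 ∧
      z = z0 + (rul (α := α) ρ).length ∧ Rd (enc G pd w) z0 (rul ρ)) ∨
    (0 < z ∧ Is (enc G pd w) (z - 1) isb) ∨
    (A.val + 2 ≤ z ∧ Rd (enc G pd w) (z - (A.val + 2)) (S :: (List.replicate A l ++ [o]))) := by
  have hC : posC G pd c i A = secS G pd c i A + A + 2 := rfl
  rcases List.eq_nil_or_concat' ρs with rfl | ⟨L, ρ, rfl⟩
  · rw [List.flatMap_nil, List.length_nil, Nat.add_zero] at hz
    rcases Nat.eq_zero_or_pos (bas G A).length with g | g
    · rw [g, Nat.add_zero] at hz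
      refine Or.inr (Or.inr ⟨by omega, ?_⟩)
      have e : z - (A.val + 2) = secS G pd c i A := by omega
      rw [e]
      exact UnH_name G pd w hi
    · refine Or.inr (Or.inl ⟨by omega, ?_⟩)
      have e : z - 1 = posC G pd c i A + ((bas G A).length - 1) := by omega
      have hlt : (bas G A).length - 1 < (bas G A).length := by omega
      have hcl : (bas G A).length ≤ (cont G A).length := by
        unfold cont
        rw [List.length_append]
        omega
      have h1 := UnH_get G pd w (c := c) (A := A) (s := (bas G A).length - 1) hi (by omega)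
      rw [← e] at h1
      unfold cont at h1
      rw [List.getElem?_append_left hlt, List.getElem?_eq_getElem hlt] at h1
      obtain ⟨a, ha, _⟩ := UnH_bas G A _ (List.getElem_mem hlt)
      exact ⟨_, h1, a, ha⟩
  · left
    have h' : G.rules A = L ++ (ρ :: ρs') := by
      rw [h, List.append_assoc]
      rfl
    have h8 := UnH_rd G pd w (c := c) hi h'
    rw [List.flatMap_cons, List.append_assoc] at h8
    refine ⟨ρ, by rw [h']; simp, _, ?_, ?_, h8.append_left⟩
    · omega
    · rw [hz, List.flatMap_append, List.length_append, List.flatMap_cons, List.flatMap_nil, List.append_nil]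
      omega

theorem back_R {c : Bool} {i z : ℕ} {A : Fin K} (hi : i < w.length)
    (h : z = posE G pd c i A ∨ (z < posE G pd c i A ∧ Is (enc G pd w) z (· = R) ∧
      ∀ t, z < t → t < posE G pd c i A → Is (enc G pd w) t inner)) :
    (∃ ρ ∈ G.rules A, ∃ z0, posC G pd c i A ≤ z0 ∧
      z = z0 + (rul (α := α) ρ).length ∧ Rd (enc G pd w) z0 (rul ρ)) ∨
    (0 < z ∧ Is (enc G pd w) (z - 1) isb) ∨
    (A.val + 2 ≤ z ∧ Rd (enc G pd w) (z - (A.val + 2)) (S :: (List.replicate A l ++ [o]))) := by
  rcases h with h | ⟨h1, ⟨ch, h2, h2'⟩, h3⟩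
  · have h4 : G.rules A = G.rules A ++ [] := (List.append_nil _).symm
    refine UnH_back G pd w (c := c) hi h4 ?_
    have h5 := UnH_len G h4
    rw [List.flatMap_nil, List.length_nil] at h5
    rw [h]
    unfold posE
    omega
  · have h6 : ch = R := h2'
    rw [h6] at h2
    have h4 : posC G pd c i A ≤ z := UnH_ge G pd w hi h3 h2 (by intro h; cases h) (by intro h; cases h)
      (by intro h; cases h)
    obtain ⟨ρs, ρ, ρs', h7, h8⟩ := UnH_R G pd w hi h4 h1 h2
    exact UnH_back G pd w (c := c) hi h7 h8

theorem fwd_R {c : Bool} {i : ℕ} {A : Fin K} (hi : i < w.length)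
    {ρ : List (Fin K × Fin K)} (hρ : ρ ∈ G.rules A) :
    ∃ r, posC G pd c i A ≤ r ∧ r + (rul (α := α) ρ).length ≤ posE G pd c i A ∧
      Rd (enc G pd w) r (rul ρ) ∧
      (r + (rul (α := α) ρ).length = posE G pd c i A ∨
        Is (enc G pd w) (r + (rul (α := α) ρ).length) (· = R)) := by
  obtain ⟨ρs, ρs', h⟩ := List.append_of_mem hρ
  have hE : posE G pd c i A = posC G pd c i A + (cont G A).length := rfl
  have h8 := UnH_rd G pd w (c := c) hi h
  have h9 := UnH_len G h
  rw [List.flatMap_cons, List.append_assoc] at h8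
  rw [List.flatMap_cons, List.length_append] at h9
  refine ⟨_, by omega, by omega, h8.append_left, ?_⟩
  cases ρs' with
  | nil =>
    left
    rw [List.flatMap_nil, List.length_nil] at h9
    omega
  | cons ρ' ρs' =>
    right
    have h10 := h8.append_right
    have h11 := h10.get (t := 0) (by rw [List.length_append, List.length_cons]; omega)
    exact ⟨R, h11, rfl⟩

theorem fwd_b {c : Bool} {i : ℕ} {A : Fin K} (hi : i < w.length) {a : α} (ha : G.base A a) :
    ∃ r, posC G pd c i A ≤ r ∧ r < posE G pd c i A ∧ (enc G pd w)[r]? = some (b a) ∧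
      ∀ t, posC G pd c i A ≤ t → t < r → Is (enc G pd w) t isb := by
  have hE : posE G pd c i A = posC G pd c i A + (cont G A).length := rfl
  have hcl : (bas G A).length ≤ (cont G A).length := by
    unfold cont
    rw [List.length_append]
    omega
  obtain ⟨s, hs, hsa⟩ := List.getElem_of_mem (UnH_bmem G ha)
  have key : ∀ t < (bas G A).length, (enc G pd w)[posC G pd c i A + t]? = (bas G A)[t]? := by
    intro t ht
    rw [UnH_get G pd w hi (by omega)]
    unfold cont
    rw [List.getElem?_append_left ht]
  refine ⟨posC G pd c i A + s, by omega, by omega, ?_, ?_⟩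
  · rw [key s hs, List.getElem?_eq_getElem hs, hsa]
  · intro t ht1 ht2
    obtain ⟨u, rfl⟩ := Nat.exists_eq_add_of_le ht1
    have hu : u < (bas G A).length := by omega
    obtain ⟨a', ha', _⟩ := UnH_bas G A _ (List.getElem_mem hu)
    exact ⟨_, by rw [key u hu, List.getElem?_eq_getElem hu], a', ha'⟩

end Pool.Agent.H29.CJ
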