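import Pool.Agent.H29.CJ.UnI
import Pool.Agent.H29.CJ.UnH
import Pool.Agent.H29.CJ.UnCj
import Pool.Agent.H29.CJ.GrU

/-!
# Universal language: completeness

Use only the STATEMENTS of the imported files (also `Gr.D_iff` of `GrU`).

Strong induction on `j - i`.  `seg w i j` has length `j - i ≥ 1`.  `Gr.D_iff`:
* `seg w i j = [a]`, `G.base A a`: `j = i + 1`, `w[i]? = some a`.  `fwd_b` gives `r`.
  `LL`: `BaseL`: `ST isb` on `[posC, r)`, `b a`, `ST tok` on `[r + 1, posx i)`, `x a` at `posx i` (`enc_x`), `posx i + 1 = (i+1) D`.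
  `RL` (if `j < n`): `BaseR` on `[posx i, posE false j A)`: `x a`, `ST tokm` on `[posx i + 1, r')` (`posx i + 1 = j D`; first copy of chunk `j`), `b a` at `r'`
  (`fwd_b` with `c = false`, chunk `j`), `ST inner` up to `posE` (`cont_inner`).
* rule `ρ`: for each `p ∈ ρ` a split `seg w i j = u ++ v`, i.e. `k` with `u = seg w i k`, `v = seg w k j`; `i < k < j` as `u, v ≠ []` (`Gr.D_ne_nil`).
  By induction `RL` on `[posx i, posE false k p.1)` (`k < j ≤ n`) and `LL` on `[posC true k p.2, j D)`.
  `LL` for `A`: `fwd_R` (`c = true`, chunk `i`) gives `r`; `ST inner` on `[posC, r)` (`cont_inner`), `R` at `r`, and `IL` on `[r + 1, j D)`.  For `IL` show by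
  induction on a final part `ρ'` of `ρ` (`ρ = ρ₀ ++ ρ'`) that `At IL (r + 1 + |ρ₀.flatMap itm|) (j D)`: `ρ' = []`: the letter there is not `I` (`R`, or `o` by
  `posE_o`), then `univ`; `ρ' = p :: ρ''`: `itemL_complete` and `cat ItT IL` (`itm p ∈ ItT`).
  `RL` for `A` (if `j < n`): `fwd_R` (`c = false`, chunk `j`) gives `r`; show by induction on an initial part `ρ₀` of `ρ` that
  `At IR (posx i) (r + 1 + |ρ₀.flatMap itm|)`: `ρ₀ = []`: `cat univ (LC R)`; `ρ₀ ++ [p]`: `itemR_complete` and `cat IR ItT`.  For `ρ₀ = ρ` the end is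
  `z = r + |rul ρ|`; then `{[]}` if `z = posE`, otherwise `R` and `ST inner` up to `posE`.
-/

set_option autoImplicit false

namespace Pool.Agent.H29.CJ

open Ct

variable {α : Type} [Fintype α] {K : ℕ} (G : Gr α K) (pd : ℕ) (w : List α)

omit [Fintype α] in
theorem UnJ_itm (p : Fin K × Fin K) : itm (α := α) p ∈ (ItT : Set (List (Ct α))) := by
  have hr : ∀ n : ℕ, (List.replicate n l : List (Ct α)) ∈ ST (· = l) := by
    intro n c hc
    exact List.eq_of_mem_replicate hc
  refine ⟨[I], ⟨I, rfl, rfl⟩, List.replicate p.1 l ++ (o :: (List.replicate p.2 l ++ [o])), ?_, rfl⟩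
  refine ⟨List.replicate p.1 l, hr _, o :: (List.replicate p.2 l ++ [o]), ?_, rfl⟩
  refine ⟨[o], ⟨o, rfl, rfl⟩, List.replicate p.2 l ++ [o], ?_, rfl⟩
  exact ⟨List.replicate p.2 l, hr _, [o], ⟨o, rfl, rfl⟩, rfl⟩

omit [Fintype α] in
theorem UnJ_rul (ρ : List (Fin K × Fin K)) :
    (rul (α := α) ρ).length = 1 + (ρ.flatMap (itm (α := α))).length := by
  unfold rul
  rw [List.length_cons]
  omega

omit [Fintype α] in
/-- reading one item of a rule -/
theorem UnJ_rd {T : List (Ct α)} {r : ℕ} {ρ0 ρ' : List (Fin K × Fin K)} {p : Fin K × Fin K}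
    (h : Rd T r (rul (α := α) (ρ0 ++ p :: ρ'))) :
    Rd T (r + 1 + (ρ0.flatMap (itm (α := α))).length) (itm p) := by
  have e : rul (α := α) (ρ0 ++ p :: ρ') =
      [R] ++ (ρ0.flatMap itm ++ (itm p ++ ρ'.flatMap itm)) := by
    unfold rul
    rw [List.flatMap_append, List.flatMap_cons]
    rfl
  rw [e] at h
  exact h.append_right.append_right.append_left

omit [Fintype α] in
theorem UnJ_R {T : List (Ct α)} {r : ℕ} {ρ : List (Fin K × Fin K)}
    (h : Rd T r (rul (α := α) ρ)) : Is T r (· = R) := by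
  have h1 := h.get (t := 0) (by rw [UnJ_rul]; omega)
  exact ⟨R, by simpa [rul] using h1, rfl⟩

theorem UnJ_base {i : ℕ} {A : Fin K} {a : α} (hi : i < w.length) (hwa : w[i] = a)
    (ha : G.base A a) :
    At (enc G pd w) (SU .LL) (posC G pd true i A) ((i + 1) * dD G pd) ∧
      (i + 1 < w.length →
        At (enc G pd w) (SU .RL) (posx G pd i) (posE G pd false (i + 1) A)) := by
  have hlen := enc_length G pd w
  obtain ⟨o1, o2, o3, o4, o5, o6, o7⟩ := pos_order G pd i A
  have hx : Is (enc G pd w) (posx G pd i) (· = x a) := ⟨x a, by rw [enc_x G pd w hi, hwa], rfl⟩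
  have hxl := hx.lt
  constructor
  · rw [sU_eq Vu.LL]
    obtain ⟨r, r1, r2, r3, r4⟩ := fwd_b G pd w (c := true) hi ha
    have hsec : secS G pd true i A ≤ posC G pd true i A := by unfold posC; omega
    have hrl : r < (enc G pd w).length := by
      obtain ⟨h, _⟩ := List.getElem?_eq_some_iff.1 r3
      exact h
    have hmain : At (enc G pd w) (cat (ST isb) (cat (LC (· = b a)) (cat (ST tok) (LC (· = x a)))))
        (posC G pd true i A) ((i + 1) * dD G pd) := by
      refine at_cat.2 ⟨r, at_ST.2 ⟨r1, hrl.le, r4⟩, at_cat.2 ⟨r + 1, at_LC.2 ⟨rfl, b a, r3, rfl⟩,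
        at_cat.2 ⟨posx G pd i, at_ST.2 ⟨by omega, hxl.le, fun t t1 t2 => ?_⟩,
          at_LC.2 ⟨o5.symm, hx⟩⟩⟩⟩
      exact enc_tok G pd w (by omega) (no_x_between G pd (by omega) t2)
    exact at_union.2 (Or.inl ⟨hmain.1, hmain.2.1, a, hmain.2.2⟩)
  · intro hj
    rw [sU_eq Vu.RL]
    obtain ⟨r, r1, r2, r3, -⟩ := fwd_b G pd w (c := false) hj ha
    obtain ⟨q1, q2, q3, q4, q5, q6, q7⟩ := pos_order G pd (i + 1) A
    have hxj := (enc_m G pd w hj).lt
    have hsec : secS G pd false (i + 1) A ≤ posC G pd false (i + 1) A := by unfold posC; omega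
    have hmain : At (enc G pd w)
        (cat (LC (· = x a)) (cat (ST tokm) (cat (LC (· = b a)) (ST inner))))
        (posx G pd i) (posE G pd false (i + 1) A) := by
      refine at_cat.2 ⟨posx G pd i + 1, at_LC.2 ⟨rfl, hx⟩, at_cat.2 ⟨r,
        at_ST.2 ⟨by omega, by omega, fun t t1 t2 => ?_⟩, at_cat.2 ⟨r + 1,
          at_LC.2 ⟨rfl, b a, r3, rfl⟩, at_ST.2 ⟨by omega, by omega, fun t t1 t2 => ?_⟩⟩⟩⟩
      · exact enc_tokm G pd w (by omega) (no_x_between G pd (i := i + 1) (by omega) (by omega))
          (no_m_first G pd (i := i + 1) (by omega) (by omega))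
      · exact cont_inner G pd w hj (by omega) t2
    exact at_union.2 (Or.inl ⟨hmain.1, hmain.2.1, a, hmain.2.2⟩)

theorem UnJ_LL {i j : ℕ} {A : Fin K} (hij : i < j) (hj : j ≤ w.length)
    {ρ : List (Fin K × Fin K)} (hρ : ρ ∈ G.rules A)
    (H : ∀ p ∈ ρ, ∃ k, i < k ∧ k < j ∧
      At (enc G pd w) (SU .RL) (posx G pd i) (posE G pd false k p.1) ∧
      At (enc G pd w) (SU .LL) (posC G pd true k p.2) (j * dD G pd)) :
    At (enc G pd w) (SU .LL) (posC G pd true i A) (j * dD G pd) := by
  have hi : i < w.length := by omega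
  have hlen := enc_length G pd w
  obtain ⟨o1, o2, o3, o4, o5, o6, o7⟩ := pos_order G pd i A
  obtain ⟨r, r1, r2, r3, r4⟩ := fwd_R G pd w (c := true) hi hρ
  have hjD : (i + 1) * dD G pd ≤ j * dD G pd := Nat.mul_le_mul_right _ (by omega)
  have hjl : j * dD G pd ≤ (enc G pd w).length := by
    rw [hlen]
    exact Nat.mul_le_mul_right _ hj
  have hsec : secS G pd true i A ≤ posC G pd true i A := by unfold posC; omega
  have hrl := UnJ_rul (α := α) ρ
  have key : ∀ ρ' ρ0 : List (Fin K × Fin K), ρ = ρ0 ++ ρ' →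
      At (enc G pd w) (SU .IL) (r + 1 + (ρ0.flatMap (itm (α := α))).length) (j * dD G pd) := by
    intro ρ'
    induction ρ' with
    | nil =>
      intro ρ0 he
      rw [List.append_nil] at he
      subst he
      have hz : r + 1 + (ρ.flatMap (itm (α := α))).length = r + (rul (α := α) ρ).length := by
        omega
      rw [hz, sU_eq Vu.IL]
      have hne : Is (enc G pd w) (r + (rul (α := α) ρ).length) (· ≠ I) := by
        rcases r4 with h | h
        · rw [h]
          exact (posE_o G pd w hi).mono (fun c hc => by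
            have hc' : c = o := hc
            rw [hc']
            exact fun h => by cases h)
        · exact h.mono (fun c hc => by
            have hc' : c = R := hc
            rw [hc']
            exact fun h => by cases h)
      exact at_union.2 (Or.inl (at_cat.2 ⟨r + (rul (α := α) ρ).length + 1, at_LC.2 ⟨rfl, hne⟩,
        at_univ.2 ⟨by omega, hjl⟩⟩))
    | cons p ρ'' ih =>
      intro ρ0 he
      subst he
      have hrd := UnJ_rd r3
      obtain ⟨k, k1, k2, k3, k4⟩ := H p (by simp)
      have ih' := ih (ρ0 ++ [p]) (by simp)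
      have hl1 : ((ρ0 ++ [p]).flatMap (itm (α := α))).length =
          (ρ0.flatMap (itm (α := α))).length + (itm (α := α) p).length := by
        rw [List.flatMap_append, List.length_append, List.flatMap_singleton]
      have hl2 : ((ρ0 ++ p :: ρ'').flatMap (itm (α := α))).length =
          (ρ0.flatMap (itm (α := α))).length + ((itm (α := α) p).length +
            (ρ''.flatMap (itm (α := α))).length) := by
        rw [List.flatMap_append, List.length_append, List.flatMap_cons, List.length_append]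
      rw [hl1, ← Nat.add_assoc] at ih'
      have hit := itemL_complete G pd w k1 k2 hj
        (q := r + 1 + (ρ0.flatMap (itm (α := α))).length) (by omega) (by omega) hrd k3 k4
      rw [sU_eq Vu.IL]
      exact at_union.2 (Or.inr (at_inter.2 ⟨hit, at_cat.2 ⟨_, hrd.at (UnJ_itm p), ih'⟩⟩))
  have hIL := key ρ [] rfl
  rw [sU_eq Vu.LL]
  have hrR := UnJ_R r3
  refine at_union.2 (Or.inr (at_cat.2 ⟨r, at_ST.2 ⟨r1, hrR.lt.le, fun t t1 t2 => ?_⟩,
    at_cat.2 ⟨r + 1, at_LC.2 ⟨rfl, hrR⟩, hIL⟩⟩))
  exact cont_inner G pd w hi t1 (by omega)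

theorem UnJ_RL {i j : ℕ} {A : Fin K} (hij : i < j) (hj : j < w.length)
    {ρ : List (Fin K × Fin K)} (hρ : ρ ∈ G.rules A)
    (H : ∀ p ∈ ρ, ∃ k, i < k ∧ k < j ∧
      At (enc G pd w) (SU .RL) (posx G pd i) (posE G pd false k p.1) ∧
      At (enc G pd w) (SU .LL) (posC G pd true k p.2) (j * dD G pd)) :
    At (enc G pd w) (SU .RL) (posx G pd i) (posE G pd false j A) := by
  have hi : i < w.length := by omega
  have hlen := enc_length G pd w
  obtain ⟨o1, o2, o3, o4, o5, o6, o7⟩ := pos_order G pd i A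
  obtain ⟨q1, q2, q3, q4, q5, q6, q7⟩ := pos_order G pd j A
  obtain ⟨r, r1, r2, r3, r4⟩ := fwd_R G pd w (c := false) hj hρ
  have hjD : (i + 1) * dD G pd ≤ j * dD G pd := Nat.mul_le_mul_right _ (by omega)
  have hml := (enc_m G pd w hj).lt
  have hsec : secS G pd false j A ≤ posC G pd false j A := by unfold posC; omega
  have hrl := UnJ_rul (α := α) ρ
  have hrR := UnJ_R r3
  have key : ∀ ρ0 ρ' : List (Fin K × Fin K), ρ = ρ0 ++ ρ' →
      At (enc G pd w) (SU .IR) (posx G pd i) (r + 1 + (ρ0.flatMap (itm (α := α))).length) := by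
    intro ρ0
    induction ρ0 using List.reverseRecOn with
    | nil =>
      intro ρ' _
      rw [sU_eq Vu.IR]
      exact at_union.2 (Or.inl (at_cat.2 ⟨r, at_univ.2 ⟨by omega, hrR.lt.le⟩,
        at_LC.2 ⟨rfl, hrR⟩⟩))
    | append_singleton ρ0 p ih =>
      intro ρ' he
      rw [List.append_assoc, List.singleton_append] at he
      subst he
      have hrd := UnJ_rd r3
      obtain ⟨k, k1, k2, k3, k4⟩ := H p (by simp)
      have ih' := ih (p :: ρ') rfl
      have hl1 : ((ρ0 ++ [p]).flatMap (itm (α := α))).length =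
          (ρ0.flatMap (itm (α := α))).length + (itm (α := α) p).length := by
        rw [List.flatMap_append, List.length_append, List.flatMap_singleton]
      have hl2 : ((ρ0 ++ p :: ρ').flatMap (itm (α := α))).length =
          (ρ0.flatMap (itm (α := α))).length + ((itm (α := α) p).length +
            (ρ'.flatMap (itm (α := α))).length) := by
        rw [List.flatMap_append, List.length_append, List.flatMap_cons, List.length_append]
      rw [hl1, ← Nat.add_assoc]
      have hit := itemR_complete G pd w k1 k2 hj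
        (z0 := r + 1 + (ρ0.flatMap (itm (α := α))).length) (by omega) (by omega) hrd k3 k4
      rw [sU_eq Vu.IR]
      exact at_union.2 (Or.inr (at_inter.2 ⟨hit, at_cat.2 ⟨_, ih', hrd.at (UnJ_itm p)⟩⟩))
  have hIR := key ρ [] (by simp)
  have hz : r + 1 + (ρ.flatMap (itm (α := α))).length = r + (rul (α := α) ρ).length := by omega
  rw [hz] at hIR
  rw [sU_eq Vu.RL]
  refine at_union.2 (Or.inr (at_cat.2 ⟨_, hIR, ?_⟩))
  by_cases hzE : r + (rul (α := α) ρ).length = posE G pd false j A
  · exact at_union.2 (Or.inl (at_eps.2 ⟨hzE, by omega⟩))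
  · have hR : Is (enc G pd w) (r + (rul (α := α) ρ).length) (· = R) := by
      rcases r4 with h | h
      · exact absurd h hzE
      · exact h
    refine at_union.2 (Or.inr (at_cat.2 ⟨_, at_LC.2 ⟨rfl, hR⟩,
      at_ST.2 ⟨by omega, by omega, fun t t1 t2 => ?_⟩⟩))
    exact cont_inner G pd w hj (by omega) t2

theorem un_complete {i j : ℕ} {A : Fin K} (hij : i < j) (hj : j ≤ w.length)
    (h : G.D A (seg w i j)) :
    At (enc G pd w) (SU .LL) (posC G pd true i A) (j * dD G pd) ∧
      (j < w.length → At (enc G pd w) (SU .RL) (posx G pd i) (posE G pd false j A)) := by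
  obtain ⟨n, hn⟩ : ∃ n, n = j - i := ⟨_, rfl⟩
  induction n using Nat.strong_induction_on generalizing i j A with
  | _ n IH =>
  subst hn
  rcases (Gr.D_iff G A _).1 h with ⟨a, ha, hb⟩ | ⟨ρ, hρ, hsp⟩
  · have hl := length_seg hij.le hj (w := w)
    rw [ha, List.length_singleton] at hl
    have hji : j = i + 1 := by omega
    subst hji
    have hi : i < w.length := by omega
    have h1 := getElem?_seg (w := w) (i := i) (j := i + 1) 0
    rw [ha, if_pos (by omega)] at h1
    have h2 : w[i]? = some a := by simpa using h1.symm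
    have h3 : w[i] = a := by
      rw [List.getElem?_eq_getElem hi] at h2
      exact Option.some.inj h2
    exact UnJ_base G pd w hi h3 hb
  · have H : ∀ p ∈ ρ, ∃ k, i < k ∧ k < j ∧
        At (enc G pd w) (SU .RL) (posx G pd i) (posE G pd false k p.1) ∧
        At (enc G pd w) (SU .LL) (posC G pd true k p.2) (j * dD G pd) := by
      intro p hp
      obtain ⟨u, v, huv, hu, hv⟩ := hsp p hp
      obtain ⟨s1, s2, s3⟩ := atl_seg_split hij.le hj huv
      have hu0 : 0 < u.length := List.length_pos_iff.2 (Gr.D_ne_nil hu)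
      have hkj : i + u.length < j := by
        rcases Nat.eq_or_lt_of_le s1 with he | hlt
        · rw [he, atl_seg_self] at s3
          exact absurd s3.symm (Gr.D_ne_nil hv)
        · exact hlt
      rw [← s2] at hu
      rw [← s3] at hv
      have i1 := IH (i + u.length - i) (by omega) (by omega) (by omega) hu rfl
      have i2 := IH (j - (i + u.length)) (by omega) hkj hj hv rfl
      exact ⟨i + u.length, by omega, hkj, i1.2 (by omega), i2.1⟩
    exact ⟨UnJ_LL G pd w hij hj hρ H, fun hj' => UnJ_RL G pd w hij hj' hρ H⟩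

end Pool.Agent.H29.CJ
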