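import Pool.Agent.H29.CJ.UnSS
import Pool.Agent.H29.CJ.UnJ

/-!
# The universal language

Use only the STATEMENTS of the imported files.

(←) `un_complete` with `i = 0`, `j = w.length`: `LL` on `[posC true 0 0, w.length D)`.  `posC true 0 0 = posm 0 + 1 + 0 + 2` as `oS G 0 = 0`
(`take 0`).  `ST tokm` on `[0, posm 0)`, `m` at `posm 0`, and `enc_sect`: `S, o` at `posm 0 + 1, posm 0 + 2`.  `at_full`.
(→) `at_full` and `at_cat`: `ST tokm` on `[0, r)`, `m` at `r`, `S` at `r + 1`, `o` at `r + 2`, `LL` on `[r + 3, length)`.  `enc_ism`: `r = posm i`; if `i > 0` then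
`posm 0` would be in `[0, r)`; so `r = posm 0` and `r + 3 = posC true 0 0`.  `un_sound` (`N` large): `length = j D`, so `j = w.length` (`enc_length`, `dD_pos`), and
`seg w 0 w.length = w`.
-/

set_option autoImplicit false

namespace Pool.Agent.H29.CJ

open Ct

private theorem UnT_secS {α : Type} [Fintype α] {k : ℕ} (G : Gr α (k + 1)) (pd : ℕ) :
    secS G pd true 0 0 = posm G pd 0 + 1 := by
  have h1 : oS G (0 : Fin (k + 1)) = 0 := by
    simp [oS]
  unfold secS posm
  rw [h1]
  simp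

private theorem UnT_posC {α : Type} [Fintype α] {k : ℕ} (G : Gr α (k + 1)) (pd : ℕ) :
    posC G pd true 0 0 = posm G pd 0 + 3 := by
  unfold posC
  rw [UnT_secS]
  simp

theorem LU_iff {α : Type} [Fintype α] {k : ℕ} (G : Gr α (k + 1)) (pd : ℕ) {w : List α}
    (hw : w ≠ []) : enc G pd w ∈ LU ↔ G.D 0 w := by
  have hpos : 0 < w.length := List.length_pos_iff.2 hw
  have hD := dD_pos G pd
  have hlen := enc_length G pd w
  have hord := pos_order G pd 0 (0 : Fin (k + 1))
  have hle : 1 * dD G pd ≤ w.length * dD G pd := Nat.mul_le_mul_right _ hpos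
  have hsect := enc_sect G pd w hpos true (0 : Fin (k + 1))
  rw [UnT_secS] at hsect
  constructor
  · intro h
    obtain ⟨r, h1, h2⟩ := at_cat.1 (at_full.2 h)
    obtain ⟨r1, h3, h4⟩ := at_cat.1 h2
    obtain ⟨r2, h5, h6⟩ := at_cat.1 h4
    obtain ⟨r3, h7, h8⟩ := at_cat.1 h6
    obtain ⟨rfl, hm⟩ := at_LC.1 h3
    obtain ⟨rfl, -⟩ := at_LC.1 h5
    obtain ⟨rfl, -⟩ := at_LC.1 h7
    obtain ⟨i, hi, hr⟩ := enc_ism G pd w hm
    have hi0 : i = 0 := by
      by_contra hne
      have h9 : dD G pd ≤ i * dD G pd := Nat.le_mul_of_pos_left _ (Nat.pos_of_ne_zero hne)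
      have h10 : posm G pd 0 < r := by
        rw [hr]
        unfold posm
        omega
      obtain ⟨-, -, h11⟩ := at_ST.1 h1
      obtain ⟨a, -, h12, h13⟩ := (h11 _ (Nat.zero_le _) h10).and (enc_m G pd w hpos)
      exact h12.2 h13
    subst hi0
    rw [hr] at h8
    have h9 : posm G pd 0 + 1 + 1 + 1 = posC G pd true 0 0 := by rw [UnT_posC]
    rw [h9] at h8
    obtain ⟨j, hj0, hj, hy, hG⟩ := (un_sound G pd w ((enc G pd w).length + 1)).2
      (posC G pd true 0 0) (enc G pd w).length (by omega) 0 0 hpos rfl h8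
    rw [hlen] at hy
    have hjw : w.length = j := Nat.eq_of_mul_eq_mul_right hD hy
    rw [← hjw, seg_full] at hG
    exact hG
  · intro h
    have hc := (un_complete G pd w (i := 0) (j := w.length) (A := 0) hpos le_rfl
      (by rw [seg_full]; exact h)).1
    have hS : Is (enc G pd w) (posm G pd 0 + 1) (· = S) := by
      refine ⟨S, ?_, rfl⟩
      have h1 := hsect.get (t := 0) (by simp [sect])
      have h2 : posm G pd 0 + 1 + 0 = posm G pd 0 + 1 := Nat.add_zero _
      rw [h2] at h1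
      rw [h1]
      simp [sect]
    have ho : Is (enc G pd w) (posm G pd 0 + 1 + 1) (· = o) := by
      refine ⟨o, ?_, rfl⟩
      have h1 := hsect.get (t := 1) (by simp [sect])
      rw [h1]
      simp [sect]
    apply at_full.1
    have hposx : posx G pd 0 < w.length * dD G pd := by
      have h1 := hord.2.2.2.2.1
      have h2 : (0 + 1) * dD G pd = 1 * dD G pd := by rw [Nat.zero_add]
      omega
    refine at_cat.2 ⟨posm G pd 0, at_ST.2 ⟨Nat.zero_le _, ?_, ?_⟩,
      at_cat.2 ⟨posm G pd 0 + 1, at_LC.2 ⟨rfl, enc_m G pd w hpos⟩,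
      at_cat.2 ⟨posm G pd 0 + 1 + 1, at_LC.2 ⟨rfl, hS⟩,
      at_cat.2 ⟨posm G pd 0 + 1 + 1 + 1, at_LC.2 ⟨rfl, ho⟩, ?_⟩⟩⟩⟩
    · rw [hlen]
      omega
    · intro t _ ht
      have h0 : 0 * dD G pd ≤ t := by rw [Nat.zero_mul]; exact Nat.zero_le _
      exact enc_tokm G pd w (by omega)
        (fun j => no_x_between G pd h0 (by omega) j)
        (fun j => no_m_first G pd h0 ht j)
    · have h9 : posm G pd 0 + 1 + 1 + 1 = posC G pd true 0 0 := by rw [UnT_posC]
      rw [h9, hlen]
      exact hc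

end Pool.Agent.H29.CJ
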