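import Pool.Agent.H29.CJ.WrD
import Pool.Agent.H29.CJ.AtL

/-!
# The arithmetic marks

Use only the STATEMENTS of `AtL`.

`val (l ++ [v]) = 2 * val l + [v]` (`List.foldl_append`), `val [] = 1`.
Let `r` be a marked position (`mrk ≠ no`) of `ω`, `u = ω.take (r + 1)`.  Claim (strong induction on `r`):
 `mrk ∈ {st, b _}`: `r + 1 = val (mseq u)`;  `mrk = xx`: `r + 1 = val (mseq u ++ [true])`;  `mrk = dd`: `r + 1 = val (mseq u ++ [true]) * 2^j` for some `j`.
From `W3`: position `0` carries `st` and no other position does; there is a position `e` carrying `xx`, positions `< e` carry neither `xx` nor `dd`, positions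
`> e` carry `no` or `dd`.  `AllPre` (`at_full`, `at_AllPre`, `at_cat`, `at_Sync_LC`, `at_LC`): for `mrk = b false` or `dd` at `r` there is `k` with `r + 1 = 2 (k + 1)`,
position `k` marked, positions `k+1, ..., r-1` unmarked; for `mrk = b true` or `xx` at `r`: `r + 1 = 2 (k+1) + 1`, position `k` marked, positions `k+1, ..., r-1`
unmarked (`k + 1 ≤ r - 1` included).  `mseq (ω.take (r+1)) = mseq (ω.take (k+1)) ++ mseq [letter r]`.
 `st`: `r = 0`, `mseq = []`.  `b v`: `r < e`, so `k < e` carries `st` or `b _`; use the claim for `k`.  `xx`: `r = e`, `k < e`, the same.  `dd`: `r > e`; `k ≥ e` because `e` is marked and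
 `e < r`; so `k` carries `xx` or `dd`; `mseq` unchanged; `j` increases by one (`xx`: `j = 0`).
Finally the last position of `ω` is marked (`W3`, third factor) and is `≥ e`, so it carries `xx` or `dd`; `ω.take (last + 1) = ω`.
-/

set_option autoImplicit false

namespace Pool.Agent.H29.CJ

theorem wrA_val_append (l : List Bool) (v : Bool) :
    val (l ++ [v]) = 2 * val l + (if v then 1 else 0) := by
  unfold val
  rw [List.foldl_append]
  rfl

theorem wrA_mseq_append (u v : List Om) : mseq (u ++ v) = mseq u ++ mseq v := by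
  unfold mseq
  rw [List.filterMap_append]

theorem wrA_mseq_b {a : Om} {v : Bool} (h : mrk a = .b v) : mseq [a] = [v] := by
  simp [mseq, h]

theorem wrA_mseq_no {a : Om} (h : ∀ v, mrk a ≠ .b v) : mseq [a] = [] := by
  unfold mseq
  cases e : mrk a with
  | b v => exact absurd e (h v)
  | no => simp [e]
  | st => simp [e]
  | xx => simp [e]
  | dd => simp [e]

theorem wrA_take_succ {ω : List Om} {r : ℕ} {a : Om} (h : ω[r]? = some a) :
    mseq (ω.take (r + 1)) = mseq (ω.take r) ++ mseq [a] := by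
  rw [List.take_add_one, h, wrA_mseq_append]
  rfl

theorem wrA_take_no {ω : List Om} {i j : ℕ} (hij : i ≤ j)
    (h : ∀ t, i ≤ t → t < j → Is ω t (fun a => mrk a = .no)) :
    mseq (ω.take j) = mseq (ω.take i) := by
  induction j, hij using Nat.le_induction with
  | base => rfl
  | succ j hj ih =>
    obtain ⟨a, ha, h0⟩ := h j hj (Nat.lt_succ_self j)
    have h0' : mrk a = .no := h0
    rw [wrA_take_succ ha, ih (fun t h1 h2 => h t h1 (by omega)),
      wrA_mseq_no (fun v e => by rw [h0'] at e; cases e), List.append_nil]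

/-- the facts contained in `W3` -/
structure WrAF (ω : List Om) (e : ℕ) : Prop where
  st0 : ∀ t a, ω[t]? = some a → mrk a = .st → t = 0
  lt : ∀ t a, ω[t]? = some a → t < e → mrk a ≠ .xx ∧ mrk a ≠ .dd
  eq : ∃ a, ω[e]? = some a ∧ mrk a = .xx
  gt : ∀ t a, ω[t]? = some a → e < t → mrk a = .no ∨ mrk a = .dd
  d0 : ∀ r a, ω[r]? = some a → (mrk a = .b false ∨ mrk a = .dd) →
    ∃ k, r = 2 * k + 1 ∧ (∃ a', ω[k]? = some a' ∧ mrk a' ≠ .no) ∧
      ∀ s, k + 1 ≤ s → s < r → Is ω s (fun a => mrk a = .no)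
  d1 : ∀ r a, ω[r]? = some a → (mrk a = .b true ∨ mrk a = .xx) →
    ∃ k, r = 2 * k + 2 ∧ (∃ a', ω[k]? = some a' ∧ mrk a' ≠ .no) ∧
      ∀ s, k + 1 ≤ s → s < r → Is ω s (fun a => mrk a = .no)
  last : ∃ k a, ω.length = k + 1 ∧ ω[k]? = some a ∧ mrk a ≠ .no

theorem wrA_dbl0 {ω : List Om} {r : ℕ} (h : At ω Dbl0 0 (r + 1)) :
    ∃ k, r = 2 * k + 1 ∧ (∃ a', ω[k]? = some a' ∧ mrk a' ≠ .no) ∧
      ∀ s, k + 1 ≤ s → s < r → Is ω s (fun a => mrk a = .no) := by
  obtain ⟨q, h1, h2⟩ := at_cat.1 h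
  obtain ⟨e, -⟩ := at_LC.1 h2
  obtain rfl : q = r := by omega
  obtain ⟨k, j', h3, -, h5, -, h7⟩ := at_Sync_LC.1 h1
  obtain ⟨h8, h9⟩ := at_LC.1 h5
  rw [Nat.zero_add] at h8 h9
  refine ⟨k, by omega, h9, fun s hs1 hs2 => h7 s (by omega) hs2⟩

theorem wrA_dbl1 {ω : List Om} {r : ℕ} (h : At ω Dbl1 0 (r + 1)) :
    ∃ k, r = 2 * k + 2 ∧ (∃ a', ω[k]? = some a' ∧ mrk a' ≠ .no) ∧
      ∀ s, k + 1 ≤ s → s < r → Is ω s (fun a => mrk a = .no) := by
  obtain ⟨q, h1, h2⟩ := at_cat.1 h
  obtain ⟨e, -⟩ := at_LC.1 h2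
  obtain rfl : q = r := by omega
  obtain ⟨k, j', h3, -, h5, -, h7⟩ := at_Sync_LC.1 h1
  obtain ⟨q', h8, h9⟩ := at_cat.1 h5
  obtain ⟨h10, h11⟩ := at_LC.1 h8
  obtain ⟨h12, h13⟩ := at_LC.1 h9
  rw [Nat.zero_add] at h10 h11
  subst h10
  refine ⟨k, by omega, h11, fun s hs1 hs2 => ?_⟩
  rcases Nat.lt_or_ge s j' with hs | hs
  · obtain rfl : s = k + 1 := by omega
    exact h13
  · exact h7 s hs hs2

theorem wrA_facts {ω : List Om} (h3 : ω ∈ W3) : ∃ e, WrAF ω e := by
  obtain ⟨⟨hA, hB, hC⟩, hD, hE⟩ := h3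
  obtain ⟨k1, a1, a2⟩ := at_cat.1 (at_full.2 hA)
  obtain ⟨a3, -⟩ := at_LC.1 a1
  obtain ⟨-, -, a4⟩ := at_ST.1 a2
  obtain ⟨e, b1, b2⟩ := at_cat.1 (at_full.2 hB)
  obtain ⟨-, -, b3⟩ := at_ST.1 b1
  obtain ⟨k2, b4, b5⟩ := at_cat.1 b2
  obtain ⟨b6, b7⟩ := at_LC.1 b4
  obtain ⟨-, -, b8⟩ := at_ST.1 b5
  obtain ⟨k3, c1, c2⟩ := at_cat.1 (at_full.2 hC)
  obtain ⟨c3, c4⟩ := at_LC.1 c2
  obtain ⟨-, -, d1⟩ := at_AllPre.1 (at_full.2 hD)
  obtain ⟨-, -, e1⟩ := at_AllPre.1 (at_full.2 hE)
  have lt_of : ∀ t (a : Om), ω[t]? = some a → t < ω.length := by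
    intro t a h
    obtain ⟨h, _⟩ := List.getElem?_eq_some_iff.1 h
    exact h
  refine ⟨e, ?_, ?_, b7, ?_, ?_, ?_, ?_⟩
  · intro t a ha hs
    by_contra hne
    obtain ⟨a', ha', hn⟩ := a4 t (by omega) (lt_of t a ha)
    rw [ha] at ha'
    obtain rfl : a = a' := Option.some.inj ha'
    exact hn hs
  · intro t a ha ht
    obtain ⟨a', ha', hn⟩ := b3 t (Nat.zero_le t) ht
    rw [ha] at ha'
    obtain rfl : a = a' := Option.some.inj ha'
    exact hn
  · intro t a ha ht
    obtain ⟨a', ha', hn⟩ := b8 t (by omega) (lt_of t a ha)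
    rw [ha] at ha'
    obtain rfl : a = a' := Option.some.inj ha'
    exact hn
  · intro r a ha hm
    exact wrA_dbl0 (d1 r (Nat.zero_le r) (lt_of r a ha) ⟨a, ha, hm⟩)
  · intro r a ha hm
    exact wrA_dbl1 (e1 r (Nat.zero_le r) (lt_of r a ha) ⟨a, ha, hm⟩)
  · obtain ⟨a, ha, hn⟩ := c4
    exact ⟨k3, a, c3, ha, hn⟩

theorem wrA_claim {ω : List Om} {e : ℕ} (F : WrAF ω e) (r : ℕ) :
    ∀ a, ω[r]? = some a →
      ((mrk a = .st ∨ ∃ v, mrk a = .b v) → r + 1 = val (mseq (ω.take (r + 1)))) ∧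
      (mrk a = .xx → r + 1 = val (mseq (ω.take (r + 1)) ++ [true])) ∧
      (mrk a = .dd → ∃ j, r + 1 = val (mseq (ω.take (r + 1)) ++ [true]) * 2 ^ j) := by
  induction r using Nat.strong_induction_on with
  | _ r ih =>
  intro a ha
  -- the mark at `e`
  obtain ⟨ae, hae, hxe⟩ := F.eq
  have hre : ∀ {m : Mk}, mrk a = m → m ≠ .no → m ≠ .dd → m ≠ .xx → r < e := by
    intro m hm h1 h2 h3
    rcases lt_trichotomy r e with h | h | h
    · exact h
    · subst h
      rw [ha] at hae
      obtain rfl : a = ae := Option.some.inj hae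
      rw [hm] at hxe
      exact absurd hxe h3
    · rcases F.gt r a ha h with h | h
      · rw [hm] at h
        exact absurd h h1
      · rw [hm] at h
        exact absurd h h2
  -- the value at a marked position before `e`
  have hk : ∀ k < r, k < e → (∃ a', ω[k]? = some a' ∧ mrk a' ≠ .no) →
      k + 1 = val (mseq (ω.take (k + 1))) := by
    rintro k hkr hke ⟨a', ha', hn⟩
    refine (ih k hkr a' ha').1 ?_
    obtain ⟨h1, h2⟩ := F.lt k a' ha' hke
    cases e : mrk a' with
    | no => exact absurd e hn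
    | st => exact Or.inl rfl
    | b v => exact Or.inr ⟨v, rfl⟩
    | xx => exact absurd e h1
    | dd => exact absurd e h2
  have hseq : ∀ k < r, (∀ s, k + 1 ≤ s → s < r → Is ω s (fun a => mrk a = .no)) →
      mseq (ω.take (r + 1)) = mseq (ω.take (k + 1)) ++ mseq [a] := by
    intro k hkr hno
    rw [wrA_take_succ ha, wrA_take_no (show k + 1 ≤ r from hkr) hno]
  refine ⟨?_, ?_, ?_⟩
  · rintro (h | ⟨v, h⟩)
    · obtain rfl := F.st0 r a ha h
      rw [wrA_take_succ ha, wrA_mseq_no (fun v e => by rw [h] at e; cases e)]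
      simp [mseq, val]
    · have hr : r < e := hre h (by intro h; cases h) (by intro h; cases h) (by intro h; cases h)
      cases v with
      | false =>
        obtain ⟨k, h1, h2, h3⟩ := F.d0 r a ha (Or.inl h)
        rw [hseq k (by omega) h3, wrA_mseq_b h, wrA_val_append, ← hk k (by omega) (by omega) h2]
        simp
        omega
      | true =>
        obtain ⟨k, h1, h2, h3⟩ := F.d1 r a ha (Or.inl h)
        rw [hseq k (by omega) h3, wrA_mseq_b h, wrA_val_append, ← hk k (by omega) (by omega) h2]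
        simp
        omega
  · intro h
    have hr : r ≤ e := by
      by_contra hgt
      rcases F.gt r a ha (by omega) with h' | h' <;> rw [h] at h' <;> cases h'
    obtain ⟨k, h1, h2, h3⟩ := F.d1 r a ha (Or.inr h)
    rw [hseq k (by omega) h3, wrA_mseq_no (fun v e => by rw [h] at e; cases e), List.append_nil,
      wrA_val_append, ← hk k (by omega) (by omega) h2]
    simp
    omega
  · intro h
    have hr : e < r := by
      by_contra hgt
      rcases Nat.lt_or_ge r e with h' | h'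
      · exact (F.lt r a ha h').2 h
      · obtain rfl : r = e := by omega
        rw [ha] at hae
        obtain rfl : a = ae := Option.some.inj hae
        rw [h] at hxe
        cases hxe
    obtain ⟨k, h1, ⟨a', ha', hn⟩, h3⟩ := F.d0 r a ha (Or.inr h)
    have hke : e ≤ k := by
      by_contra hlt
      obtain ⟨a'', ha'', hno⟩ := h3 e (by omega) hr
      have hno' : mrk a'' = .no := hno
      rw [hae] at ha''
      obtain rfl : ae = a'' := Option.some.inj ha''
      rw [hxe] at hno'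
      cases hno'
    rw [hseq k (by omega) h3, wrA_mseq_no (fun v e => by rw [h] at e; cases e), List.append_nil]
    rcases Nat.eq_or_lt_of_le hke with he | he
    · subst he
      have hx : mrk a' = .xx := by
        rw [hae] at ha'
        obtain rfl : ae = a' := Option.some.inj ha'
        exact hxe
      refine ⟨1, ?_⟩
      rw [← (ih e (by omega) a' ha').2.1 hx]
      omega
    · have hd : mrk a' = .dd := by
        rcases F.gt k a' ha' he with h' | h'
        · exact absurd h' hn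
        · exact h'
      obtain ⟨j, hj⟩ := (ih k (by omega) a' ha').2.2 hd
      refine ⟨j + 1, ?_⟩
      rw [pow_succ, ← mul_assoc, ← hj]
      omega

theorem arith_sound {ω : List Om} (h3 : ω ∈ W3) :
    ∃ h : ℕ, ω.length = val (mseq ω ++ [true]) * 2 ^ h := by
  obtain ⟨e, F⟩ := wrA_facts h3
  obtain ⟨k, a, h1, h2, h4⟩ := F.last
  obtain ⟨ae, hae, hxe⟩ := F.eq
  have hek : e ≤ k := by
    obtain ⟨h, _⟩ := List.getElem?_eq_some_iff.1 hae
    omega
  have ht : ω.take (k + 1) = ω := by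
    rw [← h1, List.take_length]
  obtain ⟨-, c2, c3⟩ := wrA_claim F k a h2
  rw [ht] at c2 c3
  rcases Nat.eq_or_lt_of_le hek with he | he
  · subst he
    rw [hae] at h2
    obtain rfl : ae = a := Option.some.inj h2
    refine ⟨0, ?_⟩
    rw [h1, pow_zero, mul_one]
    exact c2 hxe
  · rcases F.gt k a h2 he with h' | h'
    · exact absurd h' h4
    · obtain ⟨j, hj⟩ := c3 h'
      exact ⟨j, by rw [h1]; exact hj⟩

end Pool.Agent.H29.CJ
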