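import Pool.Agent.H29.CJ.WrD
import Pool.Agent.H29.CJ.AtL

/-!
# The link: the marked bits are the code of the text

`ω ∈ W4`: `ω = a₀ :: ((g ++ (c ++ v)) ++ a₁ :: r)` with `mrk a₀ = st`, `g ∈ GpL s`, `c ∈ Core0`, `v.map aux = s.reverse`, no `isX` letter in `v`, `isX a₁`.
* `s = t`: `c` ends with an `isX` letter, `v` has none, then `a₁`: so `v` is exactly a text segment: with `D = t.length + 1`, by `Chk.con_eq` the `isX` positions of
  `ω` are exactly the positions `i D + t.length`; so the start of `v` is `i D` with `i ≥ 1` and `v.length = t.length`, `v.map aux = seg (ω.map aux) (i D) (i D + t.length) =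
  t.reverse` (`Chk.aux_eq`; `i < w'.length`).  Hence `s.reverse = t.reverse`.
* `mseq ω = s.flatMap codeT`: `mseq` is additive over `++`.  `mseq [a₀] = []`.  `mseq g = s.flatMap codeT` (for `BitsL l`: induction on `l`; unmarked letters
  contribute nothing).  `c = c₁ ++ (e :: c₂)` with `c₁` unmarked, `mrk e = xx`.  From `ω ∈ W3` (second factor): `ω = p ++ e' :: q` with no `xx` in `p`, `mrk e' = xx`, `q` only marks
  `no, dd`.  So there is only one `xx` letter, `e = e'` at the same position, and everything after `e` has marks `no, dd`: contributes nothing.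
-/

set_option autoImplicit false

namespace Pool.Agent.H29.CJ

theorem mseq_append (u v : List Om) : mseq (u ++ v) = mseq u ++ mseq v := by
  simp [mseq]

private theorem WrB_mseq_bits (l : List Bool) (g : List Om) (h : g ∈ BitsL l) : mseq g = l := by
  induction l generalizing g with
  | nil =>
    have h1 : g = [] := h
    subst h1
    rfl
  | cons b l ih =>
    obtain ⟨u, hu, w, hw, rfl⟩ := h
    obtain ⟨x, hx, y, hy, rfl⟩ := hw
    obtain ⟨a, ha, rfl⟩ := hx
    rw [mseq_append, mseq_append, ih y hy]
    have h1 : mseq u = [] := by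
      unfold mseq
      rw [List.filterMap_eq_nil_iff]
      intro c hc
      rw [hu c hc]
    have h2 : mseq [a] = [b] := by
      simp [mseq, ha]
    rw [h1, h2]
    rfl

private theorem WrB_isx (t : List (Ct Lt)) (ht : ∀ c ∈ t, tok c) (w' : List Lt) (k : ℕ) (c : Ct Lt)
    (h : (w'.flatMap (fun a => t ++ [Ct.x a]))[k]? = some c) :
    isx c ↔ k % (t.length + 1) = t.length := by
  induction w' generalizing k with
  | nil => simp at h
  | cons a w' ih =>
    rw [List.flatMap_cons] at h
    rcases Nat.lt_or_ge k (t.length + 1) with hk | hk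
    · rw [List.getElem?_append_left (by simpa using hk)] at h
      rw [Nat.mod_eq_of_lt hk]
      rcases Nat.lt_or_ge k t.length with hk2 | hk2
      · rw [List.getElem?_append_left hk2] at h
        have hc : c ∈ t := List.mem_of_getElem? h
        have h2 : ¬ isx c := ht c hc
        exact ⟨fun h3 => absurd h3 h2, fun h3 => absurd h3 (by omega)⟩
      · have hk3 : k = t.length := by omega
        subst hk3
        rw [List.getElem?_append_right (le_refl _)] at h
        simp at h
        exact ⟨fun _ => rfl, fun _ => ⟨a, h.symm⟩⟩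
    · rw [List.getElem?_append_right (by simpa using hk)] at h
      have h2 := ih (k - (t ++ [Ct.x a]).length) h
      rw [h2]
      have e : (t ++ [Ct.x a]).length = t.length + 1 := by simp
      rw [e, ← Nat.mod_eq_sub_mod hk]

private theorem WrB_len (t : List (Ct Lt)) (w' : List Lt) :
    (w'.flatMap (fun a => t ++ [Ct.x a])).length = w'.length * (t.length + 1) := by
  induction w' with
  | nil => simp
  | cons a w' ih =>
    rw [List.flatMap_cons, List.length_append, ih]
    simp
    ring

private theorem WrB_arith {T pf V : ℕ} (h1 : pf % (T + 1) = T) (h2 : (pf + 1 + V) % (T + 1) = T)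
    (h3 : ∀ j < V, (pf + 1 + j) % (T + 1) ≠ T) :
    V = T ∧ pf + 1 = (pf / (T + 1) + 1) * (T + 1) := by
  have e1 := Nat.div_add_mod pf (T + 1)
  rw [h1] at e1
  have e2 := Nat.div_add_mod (pf + 1 + V) (T + 1)
  rw [h2] at e2
  set q := pf / (T + 1) with hq
  set q' := (pf + 1 + V) / (T + 1) with hq'
  have hVT : V ≤ T := by
    by_contra hcon
    push Not at hcon
    apply h3 T hcon
    have e3 : pf + 1 + T = T + (T + 1) * (q + 1) := by
      rw [Nat.mul_add, mul_one]
      omega
    rw [e3, Nat.add_mul_mod_self_left]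
    exact Nat.mod_eq_of_lt (by omega)
  have e4 : (T + 1) * q' = (T + 1) * q + 1 + V := by omega
  have hlt : q < q' := by
    by_contra hcon
    push Not at hcon
    have := Nat.mul_le_mul_left (T + 1) hcon
    omega
  have hge : (T + 1) * (q + 1) ≤ (T + 1) * q' := Nat.mul_le_mul_left _ hlt
  rw [Nat.mul_add, mul_one] at hge
  refine ⟨by omega, ?_⟩
  rw [Nat.add_mul, one_mul, mul_comm q]
  omega

theorem link_sound {ω : List Om} {t : List (Ct Lt)} {w' : List Lt} (hc : Chk ω t w')
    (h3 : ω ∈ W3) (h4 : ω ∈ W4) : mseq ω = t.flatMap codeT := by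
  obtain ⟨u0, ⟨a0, ha0, rfl⟩, v0, ⟨lk, hlk, r0, ⟨x1, ⟨a1, ha1, rfl⟩, r, _, rfl⟩, rfl⟩, hω⟩ := h4
  obtain ⟨s, g, c, v, rfl, hg, hcc, hvs, hvx⟩ := hlk
  obtain ⟨c1, hc1, y1, ⟨y2, ⟨e, he, rfl⟩, y3, ⟨c2, _, y4, ⟨f, hf, rfl⟩, rfl⟩, rfl⟩, rfl⟩ := hcc
  -- the only mark xx
  obtain ⟨⟨_, ⟨p, hp, z1, ⟨z2, ⟨e', he', rfl⟩, q, hq, rfl⟩, hω2⟩, _⟩, _⟩ := h3
  set P : List Om := [a0] ++ (g ++ c1) with hP
  set Q : List Om := c2 ++ ([f] ++ (v ++ ([a1] ++ r))) with hQ
  have hω3 : ω = P ++ ([e] ++ Q) := by
    rw [hω, hP, hQ]
    simp only [List.append_assoc]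
  have hget : ω[P.length]? = some e := by
    rw [hω3, List.getElem?_append_right (le_refl _)]
    simp
  have hlen : P.length = p.length := by
    rcases lt_trichotomy P.length p.length with h | h | h
    · exfalso
      rw [hω2, List.getElem?_append_left h] at hget
      have := hp e (List.mem_of_getElem? hget)
      exact this.1 he
    · exact h
    · exfalso
      rw [hω2, List.getElem?_append_right h.le] at hget
      obtain ⟨n, hn⟩ : ∃ n, P.length - p.length = n + 1 := ⟨P.length - p.length - 1, by omega⟩
      rw [hn] at hget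
      have hget2 : q[n]? = some e := by simpa using hget
      have h5 : mrk e = Mk.no ∨ mrk e = Mk.dd := hq e (List.mem_of_getElem? hget2)
      rw [he] at h5
      rcases h5 with h5 | h5 <;> cases h5
  have hQq : Q = q := by
    have h5 : P ++ ([e] ++ Q) = p ++ ([e'] ++ q) := by rw [← hω3, hω2]
    have h6 := List.append_inj_right h5 hlen
    have h7 : e :: Q = e' :: q := h6
    exact (List.cons.inj h7).2
  have hmQ : mseq Q = [] := by
    unfold mseq
    rw [List.filterMap_eq_nil_iff]
    intro b hb
    rw [hQq] at hb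
    rcases hq b hb with h5 | h5 <;> rw [h5]
  have hmc1 : mseq c1 = [] := by
    unfold mseq
    rw [List.filterMap_eq_nil_iff]
    intro b hb
    rw [hc1 b hb]
  have hma0 : mseq [a0] = [] := by simp [mseq, ha0]
  have hme : mseq [e] = [] := by simp [mseq, he]
  have hmseq : mseq ω = s.flatMap codeT := by
    rw [hω3, hP, mseq_append, mseq_append, mseq_append, mseq_append, hmQ, hmc1, hma0, hme,
      WrB_mseq_bits _ g hg]
    simp
  -- the text
  set U : List Om := [a0] ++ (g ++ (c1 ++ ([e] ++ c2))) with hU
  have hω4 : ω = U ++ ([f] ++ (v ++ ([a1] ++ r))) := by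
    rw [hω, hU]
    simp only [List.append_assoc]
  have hX : ∀ (k : ℕ) (b : Om), ω[k]? = some b → (isX b ↔ k % (t.length + 1) = t.length) := by
    intro k b hb
    have h5 : (ω.map con)[k]? = some (con b) := by rw [List.getElem?_map, hb]; rfl
    rw [hc.con_eq] at h5
    exact WrB_isx t hc.tk w' k (con b) h5
  have hgf : ω[U.length]? = some f := by
    rw [hω4, List.getElem?_append_right (le_refl _)]
    simp
  have hga : ω[U.length + 1 + v.length]? = some a1 := by
    rw [hω4, List.getElem?_append_right (by omega)]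
    have e5 : U.length + 1 + v.length - U.length = v.length + 1 := by omega
    rw [e5]
    simp
  have hgv : ∀ j < v.length, ∃ b ∈ v, ω[U.length + 1 + j]? = some b := by
    intro j hj
    refine ⟨v[j], List.getElem_mem hj, ?_⟩
    rw [hω4, List.getElem?_append_right (by omega)]
    have e5 : U.length + 1 + j - U.length = j + 1 := by omega
    rw [e5]
    simp [List.getElem?_append_left hj]
  obtain ⟨hvt, hpos⟩ := WrB_arith (T := t.length) (pf := U.length) (V := v.length)
    ((hX _ f hgf).1 hf) ((hX _ a1 hga).1 ha1) (by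
      intro j hj hcon
      obtain ⟨b, hb, hb2⟩ := hgv j hj
      exact hvx b hb ((hX _ b hb2).2 hcon))
  have hlenω : ω.length = w'.length * (t.length + 1) := by
    have h5 : (ω.map con).length = w'.length * (t.length + 1) := by
      rw [hc.con_eq, WrB_len]
    rwa [List.length_map] at h5
  have hi : U.length / (t.length + 1) + 1 < w'.length := by
    have h5 : U.length + 1 + v.length < ω.length := by
      obtain ⟨h6, _⟩ := List.getElem?_eq_some_iff.1 hga
      exact h6
    rw [hlenω, hpos] at h5
    exact Nat.lt_of_mul_lt_mul_right (a := t.length + 1) (by omega)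
  have hseg := hc.aux_eq _ hi
  rw [← hpos] at hseg
  have hseg2 : seg (ω.map aux) (U.length + 1) (U.length + 1 + t.length) = v.map aux := by
    have e6 : ω.map aux = (U ++ [f]).map aux ++ (v.map aux ++ ([a1] ++ r).map aux) := by
      rw [hω4]
      simp [List.map_append]
    have e7 : U.length + 1 = ((U ++ [f]).map aux).length := by simp
    have e8 : t.length = (v.map aux).length := by rw [List.length_map, hvt]
    rw [e6, e8, e7]
    unfold seg
    rw [← List.append_assoc, ← List.length_append, List.take_left, List.drop_left]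
  rw [hseg2, hvs] at hseg
  have hst : s = t := List.reverse_injective hseg
  rw [hmseq, hst]

end Pool.Agent.H29.CJ
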