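import Pool.Agent.H29.CJ.WrD
import Pool.Agent.H29.CJ.AtL

/-!
# Construction of words of the diagonal language: tracks, text conditions

`exists_om`: let `cl = w'.flatMap (fun a => t ++ [x a])`, `al = w'.flatMap (fun a => t.reverse ++ [x a])`, both of length `w'.length * (t.length + 1)`;
`ω = (List.range n).map (fun r => (cl.getD r p, al.getD r p, mF r, dF r))` (or `List.zip`s).  `ω.map con = cl`, `ω.map aux = al`.  `aux_eq`: `seg` of chunk `i` of `al`
(position arithmetic for a `flatMap` with pieces of constant length; induction on `w'`).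
`W2_complete`: `ω` ends with an `isX` letter (last chunk).  For an `isX` position `r = i D + t.length` the initial segment of length `r + 1` consists of `i + 1` chunks.
`i = 0`: `u ++ [a]` with `u ∈ PalT`: no `isX` in `u`; `u.map con = t`, `u.map aux = t.reverse`.  `i ≥ 1`: `cat ({[]} ∪ cat univ (LC isX)) (cat Adj (LC isX))`: first part = the first
`i - 1` chunks, `Adj`: `u = ` text of chunk `i - 1`, its letter, `v = ` text of chunk `i`: `u.map con = t = (t.reverse).reverse = (v.map aux).reverse`.
`cat (cat univ (LC isX)) (cat PalT (LC isX))`: first part = the first `i` chunks.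
-/

set_option autoImplicit false

namespace Pool.Agent.H29.CJ

private theorem WrE_get {α β : Type} {D : ℕ} (f : α → List β) (hf : ∀ a, (f a).length = D)
    (v : List α) : ∀ (i s : ℕ), s < D →
      (v.flatMap f)[i * D + s]? = (v[i]?).bind (fun a => (f a)[s]?) := by
  induction v with
  | nil =>
    intro i s hs
    simp
  | cons a v ih =>
    intro i s hs
    rw [List.flatMap_cons]
    cases i with
    | zero =>
      rw [List.getElem?_append_left (by rw [hf]; omega)]
      simp
    | succ i =>
      have e : (i + 1) * D + s = (f a).length + (i * D + s) := by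
        rw [hf]
        ring
      rw [e, List.getElem?_append_right (by omega), Nat.add_sub_cancel_left, ih i s hs,
        List.getElem?_cons_succ]

private theorem WrE_len {α β : Type} {D : ℕ} (f : α → List β) (hf : ∀ a, (f a).length = D)
    (v : List α) : (v.flatMap f).length = D * v.length := by
  induction v with
  | nil => simp
  | cons a v ih =>
    rw [List.flatMap_cons, List.length_append, hf, ih, List.length_cons]
    ring

private theorem WrE_seg {α β : Type} (t' : List β) (c : α → β) (v : List α) {i : ℕ}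
    (hi : i < v.length) :
    seg (v.flatMap (fun a => t' ++ [c a])) (i * (t'.length + 1))
      (i * (t'.length + 1) + t'.length) = t' := by
  apply List.ext_getElem?
  intro s
  rw [getElem?_seg]
  by_cases hs : s < t'.length
  · rw [if_pos (by omega), WrE_get (D := t'.length + 1) _ (fun a => by simp) v i s (by omega),
      List.getElem?_eq_getElem hi, Option.bind_some, List.getElem?_append_left hs]
  · rw [if_neg (by omega), List.getElem?_eq_none (by omega)]

private theorem WrE_mapseg {α β : Type} (f : α → β) (ω : List α) (i j : ℕ) :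
    (seg ω i j).map f = seg (ω.map f) i j := by
  unfold seg
  rw [List.map_drop, List.map_take]

private theorem WrE_range {β : Type} (l : List β) (d : β) :
    (List.range l.length).map (fun r => l.getD r d) = l := by
  apply List.ext_getElem?
  intro r
  rw [List.getElem?_map]
  by_cases hr : r < l.length
  · rw [List.getElem?_range hr, Option.map_some, List.getElem?_eq_getElem hr]
    simp [List.getD, hr]
  · rw [List.getElem?_eq_none (by simpa using hr), List.getElem?_eq_none (by omega)]
    rfl

theorem exists_om (t : List (Ct Lt)) (w' : List Lt) (ht : ∀ c ∈ t, tok c) (hw : w' ≠ [])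
    (mF : ℕ → Mk) (dF : ℕ → Bool) :
    ∃ ω : List Om, Chk ω t w' ∧ ω.length = (t.length + 1) * w'.length ∧
      ∀ r a, ω[r]? = some a → mrk a = mF r ∧ a.2.2.2 = dF r := by
  obtain ⟨cl, hcl⟩ : ∃ cl, cl = w'.flatMap (fun a => t ++ [Ct.x a]) := ⟨_, rfl⟩
  obtain ⟨al, hal⟩ : ∃ al, al = w'.flatMap (fun a => t.reverse ++ [Ct.x a]) := ⟨_, rfl⟩
  have hl1 : cl.length = (t.length + 1) * w'.length := by
    rw [hcl]
    exact WrE_len (D := t.length + 1) _ (fun a => by simp) w'
  have hl2 : al.length = (t.length + 1) * w'.length := by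
    rw [hal]
    exact WrE_len (D := t.length + 1) _ (fun a => by simp) w'
  obtain ⟨n, hn⟩ : ∃ n, n = (t.length + 1) * w'.length := ⟨_, rfl⟩
  rw [← hn] at hl1 hl2
  obtain ⟨ω, hω⟩ : ∃ ω : List Om, ω = (List.range n).map
    (fun r => ((cl.getD r Ct.p, al.getD r Ct.p, mF r, dF r) : Om)) := ⟨_, rfl⟩
  have hcon : ω.map con = cl := by
    rw [hω, List.map_map]
    have h1 := WrE_range cl Ct.p
    rw [hl1] at h1
    exact h1
  have haux : ω.map aux = al := by
    rw [hω, List.map_map]
    have h1 := WrE_range al Ct.p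
    rw [hl2] at h1
    exact h1
  refine ⟨ω, ⟨hw, ht, ?_, ?_⟩, ?_, ?_⟩
  · rw [hcon, hcl]
  · intro i hi
    rw [haux, hal]
    have h1 := WrE_seg t.reverse (fun a : Lt => Ct.x a) w' hi
    rw [List.length_reverse] at h1
    exact h1
  · rw [hω, List.length_map, List.length_range, hn]
  · intro r a hr
    rw [hω, List.getElem?_map] at hr
    by_cases hrn : r < n
    · rw [List.getElem?_range hrn, Option.map_some] at hr
      obtain rfl := Option.some.inj hr
      exact ⟨rfl, rfl⟩
    · rw [List.getElem?_eq_none (by simpa using hrn)] at hr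
      cases hr

section
variable {ω : List Om} {t : List (Ct Lt)} {w' : List Lt}

private theorem WrE_con (hc : Chk ω t w') {i s : ℕ} (hi : i < w'.length)
    (hs : s < t.length + 1) :
    (ω[i * (t.length + 1) + s]?).map con = (t ++ [Ct.x w'[i]])[s]? := by
  rw [← List.getElem?_map, hc.con_eq,
    WrE_get (D := t.length + 1) _ (fun a => by simp) w' i s hs, List.getElem?_eq_getElem hi,
    Option.bind_some]

private theorem WrE_x (hc : Chk ω t w') {i : ℕ} (hi : i < w'.length) :
    Is ω (i * (t.length + 1) + t.length) isX := by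
  have h := WrE_con hc hi (s := t.length) (by omega)
  rw [List.getElem?_append_right le_rfl, Nat.sub_self] at h
  obtain ⟨a, ha, hx⟩ := Option.map_eq_some_iff.1 h
  exact ⟨a, ha, w'[i], hx⟩

private theorem WrE_nx (hc : Chk ω t w') {i s : ℕ} (hi : i < w'.length) (hs : s < t.length) :
    Is ω (i * (t.length + 1) + s) (fun a => ¬ isX a) := by
  have h := WrE_con hc hi (s := s) (by omega)
  rw [List.getElem?_append_left hs, List.getElem?_eq_getElem hs] at h
  obtain ⟨a, ha, hx⟩ := Option.map_eq_some_iff.1 h
  refine ⟨a, ha, fun hX => hc.tk _ (List.getElem_mem hs) ?_⟩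
  rw [← hx]
  exact hX

private theorem WrE_st (hc : Chk ω t w') {i : ℕ} (hi : i < w'.length) :
    At ω (ST (fun a => ¬ isX a)) (i * (t.length + 1)) (i * (t.length + 1) + t.length) := by
  refine at_ST.2 ⟨by omega, (WrE_x hc hi).lt.le, fun r h1 h2 => ?_⟩
  obtain ⟨s, rfl⟩ := Nat.exists_eq_add_of_le h1
  exact WrE_nx hc hi (by omega)

private theorem WrE_segc (hc : Chk ω t w') {i : ℕ} (hi : i < w'.length) :
    (seg ω (i * (t.length + 1)) (i * (t.length + 1) + t.length)).map con = t := by
  rw [WrE_mapseg, hc.con_eq]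
  exact WrE_seg t (fun a : Lt => Ct.x a) w' hi

private theorem WrE_sega (hc : Chk ω t w') {i : ℕ} (hi : i < w'.length) :
    (seg ω (i * (t.length + 1)) (i * (t.length + 1) + t.length)).map aux = t.reverse := by
  rw [WrE_mapseg]
  exact hc.aux_eq i hi

private theorem WrE_pal (hc : Chk ω t w') {i : ℕ} (hi : i < w'.length) :
    At ω PalT (i * (t.length + 1)) (i * (t.length + 1) + t.length) := by
  have h := WrE_st hc hi
  refine ⟨h.1, h.2.1, h.2.2, ?_⟩
  rw [WrE_segc hc hi, WrE_sega hc hi, List.reverse_reverse]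

private theorem WrE_adj (hc : Chk ω t w') {i : ℕ} (hi : i + 1 < w'.length) :
    At ω Adj (i * (t.length + 1)) ((i + 1) * (t.length + 1) + t.length) := by
  have e : (i + 1) * (t.length + 1) = i * (t.length + 1) + t.length + 1 := by ring
  have h1 := WrE_st hc (i := i) (by omega)
  have h2 := WrE_st hc hi
  obtain ⟨a, ha, hX⟩ := WrE_x hc (i := i) (by omega)
  refine ⟨by rw [e]; omega, h2.2.1, seg ω (i * (t.length + 1)) (i * (t.length + 1) + t.length),
    a, seg ω ((i + 1) * (t.length + 1)) ((i + 1) * (t.length + 1) + t.length), ?_, hX, h1.2.2,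
    h2.2.2, ?_⟩
  · rw [seg_append (k := i * (t.length + 1) + t.length) (by omega) (by rw [e]; omega) ω,
      atl_seg_cons ha (by rw [e]; omega), e]
  · rw [WrE_segc hc (by omega), WrE_sega hc hi, List.reverse_reverse]

end

theorem W2_complete {ω : List Om} {t : List (Ct Lt)} {w' : List Lt} (hc : Chk ω t w') :
    ω ∈ W2 := by
  have hlen : ω.length = (t.length + 1) * w'.length := by
    have h1 := congrArg List.length hc.con_eq
    rw [List.length_map] at h1
    rw [h1]
    exact WrE_len (D := t.length + 1) _ (fun a => by simp) w'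
  have hw : 0 < w'.length := List.length_pos_iff.2 hc.ne
  rw [← at_full (w := ω)]
  refine at_inter.2 ⟨?_, ?_⟩
  · have h1 := WrE_x hc (i := w'.length - 1) (by omega)
    have h2 : (w'.length - 1) * (t.length + 1) + t.length + 1 = ω.length := by
      rw [hlen]
      obtain ⟨m, hm⟩ : ∃ m, w'.length = m + 1 := ⟨w'.length - 1, by omega⟩
      rw [hm, Nat.add_sub_cancel]
      ring
    exact at_cat.2 ⟨(w'.length - 1) * (t.length + 1) + t.length,
      at_univ.2 ⟨Nat.zero_le _, h1.lt.le⟩, at_LC.2 ⟨h2.symm, h1⟩⟩
  · refine at_AllPre.2 ⟨Nat.zero_le _, le_rfl, fun r _ hr hX => ?_⟩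
    obtain ⟨i, hi⟩ : ∃ i, i = r / (t.length + 1) := ⟨_, rfl⟩
    obtain ⟨s, hs⟩ : ∃ s, s = r % (t.length + 1) := ⟨_, rfl⟩
    have hr' : r = i * (t.length + 1) + s := by
      rw [hi, hs, Nat.mul_comm]
      exact (Nat.div_add_mod r (t.length + 1)).symm
    have hsl : s < t.length + 1 := by
      rw [hs]
      exact Nat.mod_lt _ (Nat.succ_pos _)
    have hil : i < w'.length := by
      rw [hi]
      rw [hlen] at hr
      exact Nat.div_lt_of_lt_mul hr
    have hsT : s = t.length := by
      by_contra hne
      obtain ⟨a, ha, hna⟩ := WrE_nx hc hil (s := s) (by omega)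
      obtain ⟨b, hb, hXb⟩ := hX
      rw [hr', ha] at hb
      obtain rfl := Option.some.inj hb
      exact hna hXb
    subst hsT
    rw [hr']
    have hLC : At ω (LC isX) (i * (t.length + 1) + t.length) (i * (t.length + 1) + t.length + 1) :=
      at_LC.2 ⟨rfl, WrE_x hc hil⟩
    cases i with
    | zero =>
      have h1 := WrE_pal hc hil
      rw [Nat.zero_mul] at h1 hLC ⊢
      exact at_union.2 (Or.inl (at_cat.2 ⟨_, h1, hLC⟩))
    | succ i =>
      have e : (i + 1) * (t.length + 1) = i * (t.length + 1) + t.length + 1 := by ring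
      have hx1 := WrE_x hc (i := i) (by omega)
      refine at_union.2 (Or.inr (at_inter.2 ⟨at_cat.2 ⟨i * (t.length + 1), ?_,
        at_cat.2 ⟨_, WrE_adj hc hil, hLC⟩⟩, at_cat.2 ⟨(i + 1) * (t.length + 1), ?_,
        at_cat.2 ⟨_, WrE_pal hc hil, hLC⟩⟩⟩))
      · cases i with
        | zero =>
          rw [Nat.zero_mul]
          exact at_union.2 (Or.inl (at_eps.2 ⟨rfl, Nat.zero_le _⟩))
        | succ i =>
          have e' : (i + 1) * (t.length + 1) = i * (t.length + 1) + t.length + 1 := by ring
          have hx2 := WrE_x hc (i := i) (by omega)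
          exact at_union.2 (Or.inr (at_cat.2 ⟨i * (t.length + 1) + t.length,
            at_univ.2 ⟨Nat.zero_le _, hx2.lt.le⟩, at_LC.2 ⟨e', hx2⟩⟩))
      · exact at_cat.2 ⟨i * (t.length + 1) + t.length,
          at_univ.2 ⟨Nat.zero_le _, hx1.lt.le⟩, at_LC.2 ⟨e, hx1⟩⟩

end Pool.Agent.H29.CJ
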