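import Pool.Agent.H29.CJ.WrF

/-!
# Construction of words of the diagonal language: link

Use only the STATEMENTS of the imported files.

Let `D = t.length + 1`, `c = valC t`, `n = ω.length = w'.length * D`.  Choose `i` with `i D ≥ c + 1`, `i D ≤ c + D` (`i = (c + D) / D`); then `(i + 1) D ≤ c + 2 D ≤ n`, so
`i < w'.length`, `i ≥ 1`.  Decompose (`at_full`, `at_cat`): position `0` carries `st` (`marks_tail`); `LnkC` on `[1, i D + t.length)`, `isX` at `i D + t.length`, `univ`.
`LnkC`: `s = t`; `g = seg ω 1 (val bs)` with `bs = t.flatMap codeT` (`bits_seg`), `c = seg ω (val bs) (i D) ∈ Core0`: unmarked up to `c - 1`, `xx` at `c - 1` (`marks_tail`), `univ`, and the `isX`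
letter at `i D - 1 ≥ c` (chunk `i - 1` ends there); `v = seg ω (i D) (i D + t.length)`: `v.map aux = t.reverse` (`Chk.aux_eq`, `seg` commutes with `map`), no `isX` letter.
-/

set_option autoImplicit false

namespace Pool.Agent.H29.CJ

private theorem wrg_len (t : List (Ct Lt)) (w' : List Lt) :
    (w'.flatMap (fun a => t ++ [Ct.x a])).length = w'.length * (t.length + 1) := by
  induction w' with
  | nil => simp
  | cons a l ih =>
    rw [List.flatMap_cons, List.length_append, ih, List.length_append, List.length_singleton, List.length_cons]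
    ring

private theorem wrg_get (t : List (Ct Lt)) (w' : List Lt) : ∀ (i : ℕ) (hi : i < w'.length) (j : ℕ),
    j < t.length + 1 → (w'.flatMap (fun a => t ++ [Ct.x a]))[i * (t.length + 1) + j]? =
      (t ++ [Ct.x w'[i]])[j]? := by
  induction w' with
  | nil =>
    intro i hi
    simp at hi
  | cons a l ih =>
    intro i hi j hj
    have hl : (t ++ [Ct.x a]).length = t.length + 1 := by simp
    rw [List.flatMap_cons]
    cases i with
    | zero =>
      rw [Nat.zero_mul, Nat.zero_add, List.getElem?_append_left (by rw [hl]; exact hj)]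
      rfl
    | succ i =>
      have e : (i + 1) * (t.length + 1) + j = (t.length + 1) + (i * (t.length + 1) + j) := by ring
      rw [e, List.getElem?_append_right (by rw [hl]; omega), hl, Nat.add_sub_cancel_left]
      have hi' : i < l.length := by
        rw [List.length_cons] at hi
        omega
      rw [ih i hi' j hj]
      rfl

private theorem wrg_seg_map {α β : Type} (f : α → β) (w : List α) (i j : ℕ) :
    seg (w.map f) i j = (seg w i j).map f := by
  unfold seg
  rw [← List.map_take, ← List.map_drop]

theorem W4_complete {ω : List Om} {t : List (Ct Lt)} {w' : List Lt} (hc : Chk ω t w')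
    (hm : ∀ r a, ω[r]? = some a → mrk a = mF (t.flatMap codeT) r)
    (hbig : valC t + 2 * (t.length + 1) ≤ ω.length) : ω ∈ W4 := by
  set bs := t.flatMap codeT with hbs
  set D := t.length + 1 with hD
  have hD0 : 0 < D := by omega
  have hcv : valC t = 2 * val bs + 1 := by
    unfold valC
    rw [val_append]
    rfl
  have hcv' : val (bs ++ [true]) = 2 * val bs + 1 := by
    rw [val_append]
    rfl
  have hvp := val_pos bs
  have hn : ω.length = w'.length * D := by
    have h1 := congrArg List.length hc.con_eq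
    rw [List.length_map, wrg_len] at h1
    exact h1
  have hlen : val (bs ++ [true]) ≤ ω.length := by omega
  obtain ⟨hno, hxx, hst⟩ := marks_tail hlen hm
  -- the chunk
  obtain ⟨i, hi⟩ : ∃ i, i = (valC t + D) / D := ⟨_, rfl⟩
  have hi1 : i * D ≤ valC t + D := by
    rw [hi]
    exact Nat.div_mul_le_self _ _
  have hi2 : valC t + 1 ≤ i * D := by
    have h1 := Nat.lt_div_mul_add (a := valC t + D) hD0
    rw [← hi] at h1
    omega
  have hi3 : i < w'.length := by
    have h1 : (i + 1) * D ≤ w'.length * D := by
      rw [← hn, Nat.add_mul, Nat.one_mul]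
      omega
    exact Nat.le_of_mul_le_mul_right h1 hD0
  have hi4 : 1 ≤ i := by
    by_contra hc0
    have : i = 0 := by omega
    rw [this, Nat.zero_mul] at hi2
    omega
  -- contents
  have hcon : ∀ (k : ℕ) (hk : k < w'.length) (j : ℕ), j < D → ∃ a, ω[k * D + j]? = some a ∧
      (t ++ [Ct.x w'[k]])[j]? = some (con a) := by
    intro k hk j hj
    have h1 := wrg_get t w' k hk j hj
    rw [← hc.con_eq, List.getElem?_map] at h1
    have h2 : k * D + j < ω.length := by
      have h3 : (k + 1) * D ≤ w'.length * D := Nat.mul_le_mul_right _ hk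
      rw [Nat.add_mul, Nat.one_mul] at h3
      omega
    refine ⟨ω[k * D + j], List.getElem?_eq_getElem h2, ?_⟩
    rw [← h1, List.getElem?_eq_getElem h2]
    rfl
  have hX : ∀ (k : ℕ) (hk : k < w'.length), Is ω (k * D + t.length) isX := by
    intro k hk
    obtain ⟨a, ha, h1⟩ := hcon k hk t.length (by omega)
    refine ⟨a, ha, w'[k], ?_⟩
    rw [List.getElem?_append_right le_rfl, Nat.sub_self] at h1
    have h2 : Ct.x w'[k] = con a := Option.some.inj h1
    exact h2.symm
  have hn2 : i * D + t.length < ω.length := (hX i hi3).lt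
  rw [← at_full]
  refine at_cat.2 ⟨1, at_LC.2 ⟨rfl, hst⟩, at_cat.2 ⟨i * D + t.length, ?_, at_cat.2 ⟨i * D + t.length + 1,
    at_LC.2 ⟨rfl, hX i hi3⟩, at_univ.2 ⟨by omega, le_rfl⟩⟩⟩⟩
  refine ⟨by omega, by omega, t, seg ω 1 (val bs), seg ω (val bs) (i * D), seg ω (i * D) (i * D + t.length),
    ?_, ?_, ?_, ?_, ?_⟩
  · rw [← seg_append (by omega) (by omega), ← seg_append (by omega) (by omega)]
  · exact (bits_seg hlen hm).2.2
  · have h1 : At ω Core0 (val bs) (i * D) := by
      refine at_cat.2 ⟨val (bs ++ [true]) - 1, at_ST.2 ⟨by omega, by omega, fun s hs1 hs2 => hno s hs1 (by omega)⟩, ?_⟩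
      refine at_cat.2 ⟨val (bs ++ [true]), at_LC.2 ⟨by omega, hxx⟩, ?_⟩
      refine at_cat.2 ⟨i * D - 1, at_univ.2 ⟨by omega, by omega⟩, at_LC.2 ⟨by omega, ?_⟩⟩
      have h2 := hX (i - 1) (by omega)
      have h3 : (i - 1) * D + t.length = i * D - 1 := by
        obtain ⟨k, rfl⟩ : ∃ k, i = k + 1 := ⟨i - 1, by omega⟩
        rw [Nat.add_sub_cancel, Nat.add_mul, Nat.one_mul]
        omega
      rw [h3] at h2
      exact h2
    exact h1.2.2
  · rw [← wrg_seg_map]
    exact hc.aux_eq i hi3
  · have h1 : At ω (ST (fun b => ¬ isX b)) (i * D) (i * D + t.length) := by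
      refine at_ST.2 ⟨by omega, by omega, fun s hs1 hs2 => ?_⟩
      obtain ⟨j, rfl⟩ := Nat.exists_eq_add_of_le hs1
      have hj : j < t.length := by omega
      obtain ⟨a, ha, h2⟩ := hcon i hi3 j (by omega)
      refine ⟨a, ha, ?_⟩
      rw [List.getElem?_append_left hj] at h2
      exact hc.tk (con a) (List.mem_of_getElem? h2)
    exact h1.2.2

end Pool.Agent.H29.CJ
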