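import Pool.Agent.H29.CJ.WrD
import Pool.Agent.H29.CJ.AtL

/-!
# Construction of words of the diagonal language: product relation

Use only the STATEMENTS of `AtL`.

Let `Z = p.length + 1`, `D = t.length + 1 ≥ 2`, `n = ω.length = w'.length * D = Z * w'.count sg`.  Flagged positions: `Z ∣ r + 1`.
* `AllPre del (BlkG del)`: a flagged `r`, `r + 1 = c Z`: `c = 1`: first alternative (`r` unflagged letters, a flagged one); `c ≥ 2`: the first `(c-2) Z` letters (empty or ending
  with a flagged letter), then `Z - 1` unflagged, flagged, `Z - 1` unflagged, flagged (`at_full`-style with `at_AllPre`, `at_Sync_LC`).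
* the last position is flagged as `Z ∣ n`; `n > 0`.
* `wt wD ω = (number of flags) - (number of letters with content x sg) = n / Z - w'.count sg = 0`.
* last factor: `Sync` exponent `p.length`: the first `p.length` chunks have `nz` letters, then chunk `p.length` has a `z` letter (it ends at `Z D`), then `univ` up to the flagged
  position `(D + 1) Z - 1 ≥ Z D` (as `Z ≥ 1`), then `Z - 1` unflagged letters, then the flagged position `(D + 2) Z - 1`, and the rest.
  `(D + 2) Z ≤ n`: `n = w'.length * D ≥ 2 Z D ≥ (D + 2) Z`.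
  (`at_pw` for `k` chunks: positions `i D`.)
-/

set_option autoImplicit false

namespace Pool.Agent.H29.CJ

theorem WrH_flat {α β : Type} (f : α → List β) (D : ℕ) (hf : ∀ a, (f a).length = D) :
    ∀ (w : List α) (i s : ℕ) (a : α), w[i]? = some a → s < D →
      (w.flatMap f)[i * D + s]? = (f a)[s]? := by
  intro w
  induction w with
  | nil =>
    intro i s a h _
    simp at h
  | cons b w ih =>
    intro i s a h hs
    rw [List.flatMap_cons]
    cases i with
    | zero =>
      rw [List.getElem?_cons_zero] at h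
      obtain rfl := Option.some.inj h
      rw [Nat.zero_mul, Nat.zero_add, List.getElem?_append_left (by rw [hf]; exact hs)]
    | succ i =>
      rw [List.getElem?_cons_succ] at h
      have e : (i + 1) * D + s = D + (i * D + s) := by ring
      rw [e, List.getElem?_append_right (by rw [hf]; omega), hf, Nat.add_sub_cancel_left]
      exact ih i s a h hs

theorem WrH_flatlen {α β : Type} (f : α → List β) (D : ℕ) (hf : ∀ a, (f a).length = D)
    (w : List α) : (w.flatMap f).length = w.length * D := by
  induction w with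
  | nil => simp
  | cons b w ih =>
    rw [List.flatMap_cons, List.length_append, hf, ih, List.length_cons]
    ring

open Classical in
theorem WrH_wt (t : List (Ct Lt)) (ht : ∀ c ∈ t, tok c) (w' : List Lt) :
    wt (fun c : Ct Lt => if c = Ct.x Lt.sg then (1 : ℤ) else 0)
      (w'.flatMap (fun a => t ++ [Ct.x a])) = w'.count Lt.sg := by
  have h0 : wt (fun c : Ct Lt => if c = Ct.x Lt.sg then (1 : ℤ) else 0) t = 0 := by
    unfold wt
    apply List.sum_eq_zero
    intro y hy
    rw [List.mem_map] at hy
    obtain ⟨c, hc, rfl⟩ := hy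
    rw [if_neg]
    rintro rfl
    exact ht _ hc ⟨_, rfl⟩
  induction w' with
  | nil => simp [wt]
  | cons b w ih =>
    rw [List.flatMap_cons, atl_wt_append, atl_wt_append, h0, ih]
    by_cases hb : b = Lt.sg
    · subst hb
      simp [wt]
      ring
    · rw [List.count_cons_of_ne hb]
      have h1 : ¬ (Ct.x b = Ct.x Lt.sg) := fun h => hb (Ct.x.inj h)
      simp [wt, h1]

theorem WrH_nd {Z a j : ℕ} (h : j + 1 < Z) : ¬ Z ∣ a * Z + j + 1 := by
  intro hd
  have h1 : Z ∣ (a * Z + j + 1) - a * Z := Nat.dvd_sub hd ⟨a, by ring⟩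
  have h2 : (a * Z + j + 1) - a * Z = j + 1 := by omega
  rw [h2] at h1
  have := Nat.le_of_dvd (by omega) h1
  omega

theorem W5_complete {ω : List Om} {t : List (Ct Lt)} {w' : List Lt} (hc : Chk ω t w')
    {p q : List Lt} {x : Lt} (hw' : w' = p ++ x :: q) (hp : ∀ b ∈ p, Lt.isNZ b) (hx : Lt.isZ x)
    (hd : ∀ r a, ω[r]? = some a → (del a ↔ (p.length + 1) ∣ r + 1))
    (hlen : ω.length = (p.length + 1) * w'.count Lt.sg)
    (hbig : 2 * (p.length + 1) ≤ w'.length) (ht : 1 ≤ t.length) : ω ∈ W5 := by
  classical
  obtain ⟨hne, htk, hcon, -⟩ := hc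
  set Z : ℕ := p.length + 1 with hZ
  set D : ℕ := t.length + 1 with hD
  have hD2 : 2 ≤ D := by omega
  have hZ1 : 1 ≤ Z := by omega
  have hfl : ∀ a : Lt, (t ++ [Ct.x a]).length = D := by
    intro a
    simp [hD]
  have hn : ω.length = w'.length * D := by
    have h1 := congrArg List.length hcon
    rw [List.length_map, WrH_flatlen _ D hfl] at h1
    exact h1
  have hn' : ω.length = w'.count Lt.sg * Z := by
    rw [hlen]
    ring
  -- flags
  have hfl1 : ∀ r, r < ω.length → Z ∣ r + 1 → Is ω r del := fun r hr h =>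
    ⟨ω[r], List.getElem?_eq_getElem hr, (hd r _ (List.getElem?_eq_getElem hr)).2 h⟩
  have hfl0 : ∀ r, r < ω.length → ¬ Z ∣ r + 1 → Is ω r (fun a => ¬ del a) := fun r hr h =>
    ⟨ω[r], List.getElem?_eq_getElem hr, fun h' => h ((hd r _ (List.getElem?_eq_getElem hr)).1 h')⟩
  have hfl0' : ∀ a r, a * Z ≤ r → r + 1 < a * Z + Z → r < ω.length →
      Is ω r (fun a => ¬ del a) := by
    intro a r h1 h2 h3
    apply hfl0 r h3
    have e : r + 1 = a * Z + (r - a * Z) + 1 := by omega
    rw [e]
    exact WrH_nd (by omega)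
  have hfl1' : ∀ a, (a + 1) * Z ≤ ω.length → Is ω ((a + 1) * Z - 1) del := by
    intro a h1
    have h2 : 1 ≤ (a + 1) * Z := Nat.mul_pos (Nat.succ_pos _) hZ1
    apply hfl1 _ (by omega)
    rw [Nat.sub_add_cancel h2]
    exact Dvd.intro_left _ rfl
  -- contents
  have hcon1 : ∀ i y s c, w'[i]? = some y → (t ++ [Ct.x y])[s]? = some c → s < D →
      Is ω (i * D + s) (fun a => con a = c) := by
    intro i y s c hy hcs hs
    have h1 : (ω.map con)[i * D + s]? = some c := by
      rw [hcon, WrH_flat _ D hfl w' i s y hy hs, hcs]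
    rw [List.getElem?_map] at h1
    obtain ⟨a, ha, hac⟩ := Option.map_eq_some_iff.1 h1
    exact ⟨a, ha, hac⟩
  have hconX : ∀ i y, w'[i]? = some y → Is ω (i * D + t.length) (fun a => con a = Ct.x y) := by
    intro i y hy
    exact hcon1 i y t.length (Ct.x y) hy (by simp) (by omega)
  have hconT : ∀ i y s, w'[i]? = some y → s < t.length →
      Is ω (i * D + s) (fun a => ¬ isX a) := by
    intro i y s hy hs
    have h1 := hcon1 i y s t[s] hy (by rw [List.getElem?_append_left hs]; simp [hs]) (by omega)
    refine h1.mono fun a ha => ?_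
    intro hX
    have h2 : tok t[s] := htk _ (List.getElem_mem hs)
    unfold isX at hX
    unfold con at ha
    rw [ha] at hX
    exact h2 hX
  have hpos : 0 < ω.length := by
    rw [hn]
    exact Nat.mul_pos (List.length_pos_iff.2 hne) (by omega)
  have hcnt : 0 < w'.count Lt.sg := by
    rcases Nat.eq_zero_or_pos (w'.count Lt.sg) with h | h
    · rw [h, Nat.zero_mul] at hn'
      omega
    · exact h
  -- the parts
  have A1 : At ω (AllPre del (BlkG del)) 0 ω.length := by
    rw [at_AllPre]
    refine ⟨Nat.zero_le _, le_rfl, fun r _ hr hdr => ?_⟩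
    obtain ⟨a, ha, hda⟩ := hdr
    obtain ⟨c, hcr⟩ := (hd r a ha).1 hda
    unfold BlkG
    rw [at_union]
    have hc0 : c ≠ 0 := by
      rintro rfl
      omega
    obtain ⟨c, rfl⟩ := Nat.exists_eq_succ_of_ne_zero hc0
    rcases Nat.eq_zero_or_pos c with rfl | hc1
    · left
      rw [at_cat]
      refine ⟨r, at_ST.2 ⟨Nat.zero_le _, by omega, fun u _ hu => ?_⟩, at_LC.2 ⟨rfl, a, ha, hda⟩⟩
      exact hfl0' 0 u (by omega) (by omega) (by omega)
    · right
      obtain ⟨c, rfl⟩ := Nat.exists_eq_succ_of_ne_zero hc1.ne'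
      have e1 : r + 1 = c * Z + Z + Z := by
        rw [hcr]
        simp only [Nat.succ_eq_add_one]
        ring
      rw [at_cat]
      refine ⟨c * Z, ?_, ?_⟩
      · rw [at_union]
        rcases Nat.eq_zero_or_pos c with rfl | hc2
        · left
          rw [at_eps]
          exact ⟨by omega, by omega⟩
        · right
          obtain ⟨c', rfl⟩ := Nat.exists_eq_succ_of_ne_zero hc2.ne'
          rw [at_cat]
          have h2 : 1 ≤ (c' + 1) * Z := Nat.mul_pos (Nat.succ_pos _) hZ1
          have h3 : (c' + 1) * Z ≤ ω.length := by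
            simp only [Nat.succ_eq_add_one] at e1
            omega
          exact ⟨(c' + 1) * Z - 1, at_univ.2 ⟨Nat.zero_le _, by omega⟩,
            at_LC.2 ⟨(Nat.sub_add_cancel h2).symm, hfl1' c' h3⟩⟩
      · rw [at_cat]
        refine ⟨r, at_Sync_LC.2 ⟨Z - 1, c * Z + Z, by omega, by omega, at_LC.2 ⟨by omega, ?_⟩,
          fun u h1 h2 => ?_, fun u h1 h2 => ?_⟩, at_LC.2 ⟨rfl, a, ha, hda⟩⟩
        · apply hfl1 _ (by omega)
          have e2 : c * Z + (Z - 1) + 1 = (c + 1) * Z := by
            rw [Nat.add_mul]
            omega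
          rw [e2]
          exact Dvd.intro_left _ rfl
        · exact hfl0' c u h1 (by omega) (by omega)
        · have e3 : (c + 1) * Z = c * Z + Z := by ring
          exact hfl0' (c + 1) u (by omega) (by omega) (by omega)
  have A2 : At ω (cat Set.univ (LC del)) 0 ω.length := by
    rw [at_cat]
    refine ⟨ω.length - 1, at_univ.2 ⟨Nat.zero_le _, by omega⟩, at_LC.2 ⟨by omega, ?_⟩⟩
    apply hfl1 _ (by omega)
    rw [Nat.sub_add_cancel hpos, hn']
    exact Dvd.intro_left _ rfl
  have A3 : ω ∈ WT wD 0 := by
    have h1 : ∀ c, c * Z ≤ ω.length →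
        pre (fun a : Om => if del a then (1 : ℤ) else 0) ω (c * Z) = c := by
      intro c
      induction c with
      | zero =>
        intro _
        rw [Nat.zero_mul, pre_zero]
        rfl
      | succ c ih =>
        intro hle
        have e : (c + 1) * Z = c * Z + Z := by ring
        rw [e] at hle ⊢
        have h2 := ih (by omega)
        have h3 := pre_eq_of_zero (f := fun a : Om => if del a then (1 : ℤ) else 0) (w := ω)
          (i := c * Z) (j := c * Z + (Z - 1)) (by omega) (by omega) (fun u h1 h2 =>
            (hfl0' c u h1 (by omega) (by omega)).mono fun a ha => if_neg ha)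
        obtain ⟨a, ha, hda⟩ := hfl1' c (by omega)
        have e2 : (c + 1) * Z - 1 = c * Z + (Z - 1) := by omega
        rw [e2] at ha
        have h4 := pre_succ (f := fun a : Om => if del a then (1 : ℤ) else 0) ha
        have e3 : c * Z + (Z - 1) + 1 = c * Z + Z := by omega
        rw [e3, h3, h2] at h4
        rw [h4]
        simp only [if_pos hda]
        push_cast
        ring
    have h2 := h1 (w'.count Lt.sg) hn'.ge
    have h3 : wt (fun a : Om => if del a then (1 : ℤ) else 0) ω = w'.count Lt.sg := by
      rw [← hn'] at h2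
      unfold pre at h2
      rwa [List.take_length] at h2
    have h4 : wt (fun a : Om => if con a = Ct.x Lt.sg then (1 : ℤ) else 0) ω =
        w'.count Lt.sg := by
      rw [← WrH_wt t htk w', ← hcon]
      unfold wt
      rw [List.map_map]
      rfl
    have h5 : ∀ l : List Om, wt wD l = wt (fun a : Om => if del a then (1 : ℤ) else 0) l -
        wt (fun a : Om => if con a = Ct.x Lt.sg then (1 : ℤ) else 0) l := by
      intro l
      induction l with
      | nil => simp [wt]
      | cons a l ih =>
        unfold wt at ih ⊢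
        rw [List.map_cons, List.map_cons, List.map_cons, List.sum_cons, List.sum_cons,
          List.sum_cons, ih]
        unfold wD
        ring
    change wt wD ω = 0
    rw [h5, h3, h4]
    ring
  have hwx : w'[p.length]? = some x := by
    rw [hw', List.getElem?_append_right le_rfl, Nat.sub_self, List.getElem?_cons_zero]
  have hbig2 : (D + 2) * Z ≤ ω.length := by
    rw [hn]
    calc (D + 2) * Z ≤ (D + D) * Z := Nat.mul_le_mul_right _ (by omega)
      _ = (2 * Z) * D := by ring
      _ ≤ w'.length * D := Nat.mul_le_mul_right _ hbig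
  have hDZ : D * Z = p.length * D + D := by
    rw [hZ]
    ring
  have e1 : (D + 1) * Z = D * Z + Z := by ring
  have e2 : (D + 2) * Z = D * Z + Z + Z := by ring
  have hpl : p.length < w'.length := by omega
  have A4 : At ω (cat (Sync ChN (cat ChZ (cat Set.univ (LC del))) (LC (fun a => ¬ del a)))
      (cat (LC del) Set.univ)) 0 ω.length := by
    rw [at_cat]
    refine ⟨D * Z + Z + Z - 1, at_Sync.2 ⟨p.length, p.length * D, D * Z + Z, ?_, ?_, ?_⟩, ?_⟩
    · rw [at_pw]
      refine ⟨by omega, fun i => i * D, Nat.zero_mul _, rfl, fun i hi => ?_⟩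
      have hpi : w'[i]? = some p[i] := by
        rw [hw', List.getElem?_append_left hi]
        exact List.getElem?_eq_getElem hi
      have hiD : i * D + D ≤ ω.length := by
        rw [hn]
        calc i * D + D = (i + 1) * D := by ring
          _ ≤ w'.length * D := Nat.mul_le_mul_right _ (by omega)
      have e : (i + 1) * D = i * D + D := by ring
      change At ω ChN (i * D) ((i + 1) * D)
      rw [e]
      unfold ChN
      rw [at_cat]
      refine ⟨i * D + t.length, at_ST.2 ⟨by omega, by omega, fun u h1 h2 => ?_⟩,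
        at_LC.2 ⟨by omega, ?_⟩⟩
      · have h3 := hconT i p[i] (u - i * D) hpi (by omega)
        rwa [Nat.add_sub_cancel' h1] at h3
      · exact (hconX i p[i] hpi).mono fun a ha => ⟨p[i], ha, hp _ (List.getElem_mem hi)⟩
    · rw [at_cat]
      refine ⟨D * Z, ?_, ?_⟩
      · unfold ChZ
        rw [at_cat]
        refine ⟨p.length * D + t.length, at_ST.2 ⟨by omega, by omega, fun u h1 h2 => ?_⟩,
          at_LC.2 ⟨by omega, ?_⟩⟩
        · have h3 := hconT p.length x (u - p.length * D) hwx (by omega)
          rwa [Nat.add_sub_cancel' h1] at h3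
        · exact (hconX p.length x hwx).mono fun a ha => ⟨x, ha, hx⟩
      · rw [at_cat]
        have h3 := hfl1' D (by omega)
        rw [e1] at h3
        exact ⟨D * Z + Z - 1, at_univ.2 ⟨by omega, by omega⟩, at_LC.2 ⟨by omega, h3⟩⟩
    · rw [at_pw_LC]
      refine ⟨by omega, by omega, fun u h1 h2 => ?_⟩
      exact hfl0' (D + 1) u (by omega) (by omega) (by omega)
    · rw [at_cat]
      have h3 := hfl1' (D + 1) (by rw [e2] at hbig2; have : (D + 1 + 1) * Z = D * Z + Z + Z := by ring
                                   omega)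
      have e3 : (D + 1 + 1) * Z = D * Z + Z + Z := by ring
      rw [e3] at h3
      exact ⟨D * Z + Z + Z, at_LC.2 ⟨by omega, h3⟩, at_univ.2 ⟨by omega, le_rfl⟩⟩
  exact ⟨⟨at_full.1 A1, at_full.1 A2, A3⟩, at_full.1 A4⟩

end Pool.Agent.H29.CJ
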