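import Pool.Agent.H29.CJ.GridG

/-!
# The product relation

Use only the STATEMENTS of the imported files (`gridG`, `AtL`).

Let `D = t.length + 1`, `n = ω.length = w'.length * D` (`Chk.con_eq`).  The `isX` positions are `i D + t.length` with content `x w'[i]`.
`gridG`: `β > 0, r` with: position `i < n` is flagged iff `β ∣ i + 1 ≤ β r`.  The last position is flagged: `β ∣ n`, `n ≤ β r`; so flagged iff `β ∣ i + 1`; the number of
flagged positions is `n / β` (`wt` of the indicator; induction on initial segments).  `wt wD ω = 0`: `n / β = number of letters with content x sg = w'.count sg`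
(count of the `isX` positions: induction on `w'`, texts contribute nothing since `tok`).  So `n = β * w'.count sg`.
Last factor of `W5`: `Sync ChN (...) (LC ¬ del)` with exponent `k`: `k` consecutive `ChN` from position `0`: each is a chunk: from `i D` to `(i+1) D` with `w'[i]` an `nz`
letter (the next `isX` position after `i D` is `i D + t.length`); then `ChZ`: `w'[k]` is a `z` letter; so `w' = p ++ x :: q` with `p = w'.take k`.  Then `univ`, a flagged letter at
position `s`, then `k` unflagged letters and a flagged one at `s + k + 1`: consecutive flagged positions, so `β = k + 1` (`β ∣ s + 1`, `β ∣ s + k + 2`, none between;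
`s + 1 + β` is the next multiple).  So `n = (k + 1) * w'.count sg`.
-/

set_option autoImplicit false

namespace Pool.Agent.H29.CJ

theorem WrP_len (t : List (Ct Lt)) (w' : List Lt) :
    (w'.flatMap (fun a => t ++ [Ct.x a])).length = w'.length * (t.length + 1) := by
  induction w' with
  | nil => simp
  | cons a w ih =>
    rw [List.flatMap_cons, List.length_append, ih]
    simp only [List.length_append, List.length_cons, List.length_nil]
    ring

theorem WrP_get (t : List (Ct Lt)) (w' : List Lt) (i j : ℕ) (a : Lt) (ha : w'[i]? = some a)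
    (hj : j < t.length + 1) :
    (w'.flatMap (fun a => t ++ [Ct.x a]))[i * (t.length + 1) + j]? = (t ++ [Ct.x a])[j]? := by
  induction w' generalizing i with
  | nil => simp at ha
  | cons b w ih =>
    rw [List.flatMap_cons]
    have hl : (t ++ [Ct.x b]).length = t.length + 1 := by simp
    cases i with
    | zero =>
      have hab : b = a := by simpa using ha
      rw [List.getElem?_append_left (by rw [hl]; omega), hab]
      simp
    | succ i =>
      have ha' : w[i]? = some a := by simpa using ha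
      have e : (i + 1) * (t.length + 1) + j - (t.length + 1) = i * (t.length + 1) + j := by
        rw [Nat.add_mul, Nat.one_mul]
        omega
      rw [List.getElem?_append_right (by rw [hl, Nat.add_mul, Nat.one_mul]; omega), hl, e]
      exact ih i ha'

theorem WrP_con {ω : List Om} {t : List (Ct Lt)} {w' : List Lt} (hc : Chk ω t w') {s i j : ℕ}
    {a : Om} {b : Lt} (ha : ω[s]? = some a) (hb : w'[i]? = some b)
    (hs : s = i * (t.length + 1) + j) (hj : j < t.length + 1) :
    (t ++ [Ct.x b])[j]? = some (con a) := by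
  rw [← WrP_get t w' i j b hb hj, ← hc.con_eq, ← hs, List.getElem?_map, ha]
  rfl

theorem WrP_n {ω : List Om} {t : List (Ct Lt)} {w' : List Lt} (hc : Chk ω t w') :
    ω.length = w'.length * (t.length + 1) := by
  rw [← WrP_len t w', ← hc.con_eq, List.length_map]

/-- positions of the letters `x _` -/
theorem WrP_isx {ω : List Om} {t : List (Ct Lt)} {w' : List Lt} (hc : Chk ω t w') {s : ℕ}
    {P : Lt → Prop} (h : Is ω s (fun a => ∃ y, con a = Ct.x y ∧ P y)) :
    ∃ (i : ℕ) (y : Lt), w'[i]? = some y ∧ P y ∧ s = i * (t.length + 1) + t.length := by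
  obtain ⟨a, ha, y, hy, hP⟩ := h
  have hlt : s < ω.length := (List.getElem?_eq_some_iff.1 ha).1
  rw [WrP_n hc] at hlt
  have hi : s / (t.length + 1) < w'.length := Nat.div_lt_of_lt_mul (by rw [Nat.mul_comm]; exact hlt)
  have hj : s % (t.length + 1) < t.length + 1 := Nat.mod_lt _ (Nat.succ_pos _)
  have hs : s = s / (t.length + 1) * (t.length + 1) + s % (t.length + 1) := by
    rw [Nat.mul_comm]
    exact (Nat.div_add_mod s (t.length + 1)).symm
  have hb : w'[s / (t.length + 1)]? = some (w'[s / (t.length + 1)]) := List.getElem?_eq_getElem hi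
  have h1 := WrP_con hc ha hb hs hj
  rcases Nat.lt_or_ge (s % (t.length + 1)) t.length with h2 | h2
  · exfalso
    rw [List.getElem?_append_left h2] at h1
    have h3 : con a ∈ t := List.mem_of_getElem? h1
    exact hc.tk _ h3 ⟨y, hy⟩
  · have h3 : s % (t.length + 1) = t.length := by omega
    rw [h3, List.getElem?_append_right le_rfl, Nat.sub_self] at h1
    have h4 : Ct.x (w'[s / (t.length + 1)]) = con a := by simpa using h1
    rw [hy] at h4
    have h5 : w'[s / (t.length + 1)] = y := by
      injection h4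
    refine ⟨s / (t.length + 1), y, by rw [hb, h5], hP, ?_⟩
    rw [h3] at hs
    exact hs

theorem WrP_isX {ω : List Om} {t : List (Ct Lt)} {w' : List Lt} (hc : Chk ω t w') {i : ℕ}
    (hi : i < w'.length) : Is ω (i * (t.length + 1) + t.length) isX := by
  have hlt : i * (t.length + 1) + t.length < ω.length := by
    rw [WrP_n hc]
    have h1 : (i + 1) * (t.length + 1) ≤ w'.length * (t.length + 1) :=
      Nat.mul_le_mul_right _ hi
    rw [Nat.add_mul, Nat.one_mul] at h1
    omega
  have ha : ω[i * (t.length + 1) + t.length]? = some (ω[i * (t.length + 1) + t.length]) :=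
    List.getElem?_eq_getElem hlt
  have hb : w'[i]? = some w'[i] := List.getElem?_eq_getElem hi
  have h1 := WrP_con hc ha hb rfl (Nat.lt_succ_self _)
  rw [List.getElem?_append_right le_rfl, Nat.sub_self] at h1
  have h4 : Ct.x w'[i] = con (ω[i * (t.length + 1) + t.length]) := by simpa using h1
  exact ⟨_, ha, w'[i], h4.symm⟩

/-- a chunk starting at a chunk boundary -/
theorem WrP_chunk {ω : List Om} {t : List (Ct Lt)} {w' : List Lt} (hc : Chk ω t w') {i j : ℕ}
    {P : Lt → Prop}
    (h : At ω (cat (ST (fun a => ¬ isX a)) (LC (fun a => ∃ y, con a = Ct.x y ∧ P y)))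
      (i * (t.length + 1)) j) :
    j = (i + 1) * (t.length + 1) ∧ ∃ y, w'[i]? = some y ∧ P y := by
  obtain ⟨e, h1, h2⟩ := at_cat.1 h
  obtain ⟨h3, h4⟩ := at_LC.1 h2
  obtain ⟨h5, _, h6⟩ := at_ST.1 h1
  obtain ⟨i2, y, hy, hP, he⟩ := WrP_isx hc h4
  have hi2 : i2 < w'.length := (List.getElem?_eq_some_iff.1 hy).1
  have hle : i ≤ i2 := by
    by_contra hlt
    rw [not_le] at hlt
    have h7 : (i2 + 1) * (t.length + 1) ≤ i * (t.length + 1) := Nat.mul_le_mul_right _ hlt
    rw [Nat.add_mul, Nat.one_mul] at h7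
    omega
  rcases Nat.eq_or_lt_of_le hle with h8 | h8
  · subst h8
    refine ⟨?_, y, hy, hP⟩
    rw [Nat.add_mul, Nat.one_mul]
    omega
  · exfalso
    have h7 : (i + 1) * (t.length + 1) ≤ i2 * (t.length + 1) := Nat.mul_le_mul_right _ h8
    rw [Nat.add_mul, Nat.one_mul] at h7
    obtain ⟨a, ha, hna⟩ := h6 (i * (t.length + 1) + t.length) (by omega) (by omega)
    obtain ⟨b, hb, hxb⟩ := WrP_isX hc (i := i) (by omega)
    rw [ha] at hb
    obtain rfl : a = b := Option.some.inj hb
    exact hna hxb

theorem WrP_div {ω : List Om} {β : ℕ} (_hβ : 0 < β)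
    (h : ∀ i < ω.length, (Is ω i del ↔ β ∣ i + 1)) (f : Om → ℤ)
    (hf1 : ∀ a, del a → f a = 1) (hf0 : ∀ a, ¬ del a → f a = 0) (m : ℕ) (hm : m ≤ ω.length) :
    pre f ω m = ((m / β : ℕ) : ℤ) := by
  induction m with
  | zero => simp [pre_zero]
  | succ m ih =>
    have ha : ω[m]? = some ω[m] := List.getElem?_eq_getElem (by omega)
    rw [pre_succ ha, ih (by omega), Nat.succ_div]
    by_cases hd : β ∣ m + 1
    · have h1 := (h m (by omega)).2 hd
      obtain ⟨b, hb, hdb⟩ := h1
      rw [ha] at hb
      obtain rfl : ω[m] = b := Option.some.inj hb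
      rw [hf1 _ hdb, if_pos hd]
      push_cast
      ring
    · have h1 : ¬ del ω[m] := fun h2 => hd ((h m (by omega)).1 ⟨_, ha, h2⟩)
      rw [hf0 _ h1, if_neg hd]
      push_cast
      ring

theorem WrP_cnt (t : List (Ct Lt)) (ht : ∀ c ∈ t, tok c) (w' : List Lt) (g : Ct Lt → ℤ)
    (hg1 : g (Ct.x Lt.sg) = 1) (hg0 : ∀ c, c ≠ Ct.x Lt.sg → g c = 0) :
    wt g (w'.flatMap (fun a => t ++ [Ct.x a])) = (w'.count Lt.sg : ℤ) := by
  have h0 : ∀ u : List (Ct Lt), (∀ c ∈ u, tok c) → wt g u = 0 := by
    intro u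
    induction u with
    | nil => intro _; simp [wt]
    | cons c u ih =>
      intro hu
      have h1 : tok c := hu c List.mem_cons_self
      have h2 : c ≠ Ct.x Lt.sg := fun e => h1 ⟨Lt.sg, e⟩
      have h3 := ih (fun d hd => hu d (List.mem_cons_of_mem c hd))
      unfold wt at h3 ⊢
      rw [List.map_cons, List.sum_cons, h3, hg0 c h2]
      rfl
  induction w' with
  | nil => simp [wt]
  | cons a w ih =>
    rw [List.flatMap_cons, atl_wt_append, atl_wt_append, ih, h0 t ht]
    have h1 : wt g [Ct.x a] = g (Ct.x a) := by simp [wt]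
    rw [h1, List.count_cons]
    by_cases ha : a = Lt.sg
    · subst ha
      rw [hg1]
      simp
      ring
    · have h2 : Ct.x a ≠ Ct.x Lt.sg := by
        intro e
        injection e with e
        exact ha e
      rw [hg0 _ h2]
      have h3 : (a == Lt.sg) = false := by
        rw [beq_eq_false_iff_ne]
        exact ha
      rw [h3]
      simp

theorem prod_sound {ω : List Om} {t : List (Ct Lt)} {w' : List Lt} (hc : Chk ω t w')
    (h5 : ω ∈ W5) :
    ∃ p x q, w' = p ++ x :: q ∧ (∀ b ∈ p, Lt.isNZ b) ∧ Lt.isZ x ∧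
      ω.length = (p.length + 1) * w'.count Lt.sg := by
  classical
  obtain ⟨⟨hA, hB, hC⟩, hE⟩ := h5
  obtain ⟨β, r, hβ, hgr⟩ := gridG hA
  -- the last position is flagged
  obtain ⟨e0, _, hB2⟩ := at_cat.1 (at_full.2 hB)
  obtain ⟨hn, hB3⟩ := at_LC.1 hB2
  have hlast := (hgr e0 (by omega)).1 hB3
  rw [← hn] at hlast
  have hfl : ∀ i < ω.length, (Is ω i del ↔ β ∣ i + 1) := by
    intro i hi
    rw [hgr i hi]
    exact ⟨fun h => h.1, fun h => ⟨h, by omega⟩⟩
  -- counting
  obtain ⟨f, hf⟩ : ∃ f : Om → ℤ, f = fun a => if del a then 1 else 0 := ⟨_, rfl⟩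
  obtain ⟨g, hg⟩ : ∃ g : Ct Lt → ℤ, g = fun c => if c = Ct.x Lt.sg then 1 else 0 := ⟨_, rfl⟩
  have hwt : wt wD ω = wt f ω - wt g (ω.map con) := by
    have h1 : ∀ u : List Om, wt wD u = wt f u - wt g (u.map con) := by
      intro u
      induction u with
      | nil => simp [wt]
      | cons a u ih =>
        unfold wt at ih ⊢
        simp only [List.map_cons, List.sum_cons]
        rw [ih]
        have h2 : wD a = f a - g (con a) := by
          rw [hf, hg]
          unfold wD
          congr 1
        rw [h2]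
        ring
    exact h1 ω
  have hC' : wt wD ω = 0 := hC
  have h6 : wt f ω = ((ω.length / β : ℕ) : ℤ) := by
    have h7 := WrP_div hβ hfl f (fun a ha => by rw [hf]; simp only; rw [if_pos ha])
      (fun a ha => by rw [hf]; simp only; rw [if_neg ha]) ω.length le_rfl
    rw [← h7]
    unfold pre
    rw [List.take_length]
  have h8 : wt g (ω.map con) = (w'.count Lt.sg : ℤ) := by
    rw [hc.con_eq]
    exact WrP_cnt t hc.tk w' g (by rw [hg]; simp) (fun c hc' => by rw [hg]; simp only; rw [if_neg hc'])
  have h9 : ω.length / β = w'.count Lt.sg := by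
    rw [hwt, h6, h8] at hC'
    have : ((ω.length / β : ℕ) : ℤ) = (w'.count Lt.sg : ℤ) := by linarith
    exact_mod_cast this
  have h10 : ω.length = β * w'.count Lt.sg := by
    rw [← h9]
    exact (Nat.mul_div_cancel' hlast.1).symm
  -- the last factor
  obtain ⟨m, hE1, hE2⟩ := at_cat.1 (at_full.2 hE)
  obtain ⟨m', hE3, hE4⟩ := at_cat.1 hE2
  obtain ⟨hm', hEm⟩ := at_LC.1 hE3
  obtain ⟨k, i', j', h11, h12, h13⟩ := at_Sync.1 hE1
  obtain ⟨h14, _, h15⟩ := at_pw_LC.1 h13
  obtain ⟨a1, h16, h17⟩ := at_cat.1 h12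
  obtain ⟨a2, h18, h19⟩ := at_cat.1 h17
  obtain ⟨h20, h21⟩ := at_LC.1 h19
  have hd1 : β ∣ j' := by
    have := (hfl a2 h21.lt).1 h21
    rwa [← h20] at this
  have hd2 : β ∣ m + 1 := (hfl m hEm.lt).1 hEm
  have hd3 : β ∣ k + 1 := by
    have e : m + 1 = j' + (k + 1) := by omega
    rw [e] at hd2
    exact (Nat.dvd_add_right hd1).1 hd2
  have hβk : β = k + 1 := by
    have h22 := Nat.le_of_dvd (Nat.succ_pos k) hd3
    rcases Nat.eq_or_lt_of_le h22 with h23 | h23
    · exact h23
    · exfalso
      have h24 := h15 (j' + β - 1) (by omega) (by omega)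
      obtain ⟨a, ha, hna⟩ := h24
      have h25 : β ∣ j' + β - 1 + 1 := by
        have e : j' + β - 1 + 1 = j' + β := by omega
        rw [e]
        exact dvd_add hd1 (dvd_refl _)
      have hlt : j' + β - 1 < ω.length := (List.getElem?_eq_some_iff.1 ha).1
      obtain ⟨b, hb, hdb⟩ := (hfl _ hlt).2 h25
      rw [ha] at hb
      obtain rfl : a = b := Option.some.inj hb
      exact hna hdb
  -- chunks
  obtain ⟨_, p, p0, pk, hp⟩ := at_pw.1 h11
  have hch : ∀ s, s ≤ k → p s = s * (t.length + 1) ∧ ∀ i, i < s → ∃ y, w'[i]? = some y ∧ Lt.isNZ y := by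
    intro s
    induction s with
    | zero => intro _; exact ⟨by rw [p0]; simp, fun i hi => absurd hi (Nat.not_lt_zero i)⟩
    | succ s ih =>
      intro hs
      obtain ⟨ih1, ih2⟩ := ih (by omega)
      have h26 := hp s (by omega)
      rw [ih1] at h26
      obtain ⟨h27, h28⟩ := WrP_chunk hc h26
      refine ⟨h27, fun i hi => ?_⟩
      rcases Nat.lt_or_ge i s with h29 | h29
      · exact ih2 i h29
      · obtain rfl : i = s := by omega
        exact h28
  obtain ⟨hk1, hk2⟩ := hch k le_rfl
  rw [pk] at hk1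
  rw [hk1] at h16
  obtain ⟨_, x, hx, hxZ⟩ := WrP_chunk hc h16
  obtain ⟨hkl, hkx⟩ := List.getElem?_eq_some_iff.1 hx
  refine ⟨w'.take k, x, w'.drop (k + 1), ?_, ?_, hxZ, ?_⟩
  · conv_lhs => rw [← List.take_append_drop k w']
    rw [List.drop_eq_getElem_cons hkl, hkx]
  · intro b hb
    obtain ⟨i, hi⟩ := List.mem_iff_getElem?.1 hb
    rw [List.getElem?_take] at hi
    by_cases hik : i < k
    · rw [if_pos hik] at hi
      obtain ⟨y, hy, hyN⟩ := hk2 i hik
      rw [hi] at hy
      obtain rfl : b = y := Option.some.inj hy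
      exact hyN
    · rw [if_neg hik] at hi
      cases hi
  · rw [List.length_take, min_eq_left hkl.le, h10, hβk]

end Pool.Agent.H29.CJ
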