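import Pool.Agent.H29.CJ.WrD
import Pool.Agent.H29.CJ.AtL

/-!
# Text structure of the words of the diagonal language

Use only the STATEMENTS of `AtL` (or work with lists directly).

`ω ∈ W2`: the last letter is an `isX` letter.  Show by induction on the number of `isX` letters (or strong induction on the length) the following: if `ω` ends
with an `isX` letter and `ω ∈ AllPre isX (...)`, then there are `t, w'` with `Chk ω t w'`.  Write `ω = ω₀ ++ (v ++ [a])` with `isX a`, no `isX` letter in `v`, and `ω₀ = []` or
`ω₀` ends with an `isX` letter (and then `ω₀` satisfies the same hypothesis: initial segments of `ω₀` are initial segments of `ω`).  `a.1 = x y`.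
* `ω₀ = []`: `v ++ [a]` belongs to the first alternative (the second contains two `isX` letters), or in any case `v ∈ PalT`; `t = v.map con`, `w' = [y]`,
  `t.reverse = v.map aux`.
* `ω₀ ≠ []`: `ω ∉ cat PalT (LC isX)` (two `isX` letters), so the second alternative: `ω = r ++ (u ++ a' :: v') ++ [a]` with `r = []` or `r` ending with an
  `isX` letter, `isX a'`, no `isX` in `u, v'`, `u.map con = (v'.map aux).reverse`; comparing the positions of the last two `isX` letters: `v' = v`,
  `ω₀ = r ++ u ++ [a']`, `u` is the last text segment of `ω₀`, so `u.map con = t` (induction; last chunk of `ω₀`); hence `v.map aux = t.reverse`.  And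
  `v ∈ PalT` from the other factor: `v.map con = (v.map aux).reverse = t`.  So the new chunk is `t ++ [x y]`, `w' = w'₀ ++ [y]`.
`aux_eq` for the chunks of `ω₀` by induction, for the last chunk from `v.map aux = t.reverse` (`seg` of a concatenation).
-/

set_option autoImplicit false

namespace Pool.Agent.H29.CJ

def WrT_E (r : List Om) : Prop := r = [] ∨ ∃ g a, r = g ++ [a] ∧ isX a

def WrT_L : Set (List Om) := cat PalT (LC isX) ∪
    (cat ({[]} ∪ cat Set.univ (LC isX)) (cat Adj (LC isX)) ∩
      cat (cat Set.univ (LC isX)) (cat PalT (LC isX)))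

theorem WrT_split (p : List Om) : ∃ r v, p = r ++ v ∧ WrT_E r ∧ ∀ b ∈ v, ¬ isX b := by
  induction p using List.reverseRecOn with
  | nil => exact ⟨[], [], rfl, Or.inl rfl, by simp⟩
  | append_singleton p a ih =>
    by_cases ha : isX a
    · exact ⟨p ++ [a], [], by simp, Or.inr ⟨p, a, rfl, ha⟩, by simp⟩
    · obtain ⟨r, v, rfl, hr, hv⟩ := ih
      refine ⟨r, v ++ [a], by simp, hr, ?_⟩
      intro b hb
      rcases List.mem_append.1 hb with hb | hb
      · exact hv b hb
      · rw [List.mem_singleton] at hb
        subst hb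
        exact ha

theorem WrT_uniq {u v u' v' : List Om} {a a' : Om} (ha : isX a) (ha' : isX a')
    (hv : ∀ b ∈ v, ¬ isX b) (hv' : ∀ b ∈ v', ¬ isX b)
    (h : u ++ a :: v = u' ++ a' :: v') : u = u' ∧ a = a' ∧ v = v' := by
  rcases List.append_eq_append_iff.1 h with ⟨s, h1, h2⟩ | ⟨s, h1, h2⟩
  · cases s with
    | nil =>
      rw [List.append_nil] at h1
      rw [List.nil_append] at h2
      injection h2 with h3 h4
      exact ⟨h1.symm, h3, h4⟩
    | cons c s =>
      rw [List.cons_append] at h2
      injection h2 with h3 h4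
      exact absurd ha' (hv a' (by rw [h4]; simp))
  · cases s with
    | nil =>
      rw [List.append_nil] at h1
      rw [List.nil_append] at h2
      injection h2 with h3 h4
      exact ⟨h1, h3.symm, h4.symm⟩
    | cons c s =>
      rw [List.cons_append] at h2
      injection h2 with h3 h4
      exact absurd ha (hv' a (by rw [h4]; simp))

theorem WrT_uniq2 {r u r' u' : List Om} (hr : WrT_E r) (hr' : WrT_E r') (hu : ∀ b ∈ u, ¬ isX b)
    (hu' : ∀ b ∈ u', ¬ isX b) (h : r ++ u = r' ++ u') : r = r' ∧ u = u' := by
  rcases hr with rfl | ⟨g, a, rfl, ha⟩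
  · rcases hr' with rfl | ⟨g', a', rfl, ha'⟩
    · exact ⟨rfl, h⟩
    · exact absurd ha' (hu a' (by rw [List.nil_append] at h; rw [h]; simp))
  · rcases hr' with rfl | ⟨g', a', rfl, ha'⟩
    · exact absurd ha (hu' a (by rw [List.nil_append] at h; rw [← h]; simp))
    · rw [List.append_assoc, List.append_assoc] at h
      obtain ⟨rfl, rfl, rfl⟩ := WrT_uniq ha ha' hu hu' h
      exact ⟨rfl, rfl⟩

theorem WrT_last {p p' : List Om} {a a' : Om} (h : p ++ [a] = p' ++ [a']) : p = p' ∧ a = a' := by
  have h1 := List.append_inj' h rfl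
  exact ⟨h1.1, by simpa using h1.2⟩

theorem WrT_seg_left {β : Type} {u v : List β} {i j : ℕ} (h : j ≤ u.length) :
    seg (u ++ v) i j = seg u i j := by
  unfold seg
  rw [List.take_append_of_le_length h]

theorem WrT_seg_right {β : Type} (u v w : List β) {i j : ℕ} (h : i = u.length)
    (h' : j = i + v.length) : seg (u ++ (v ++ w)) i j = v := by
  subst h
  subst h'
  unfold seg
  rw [← List.append_assoc, ← List.length_append, List.take_left, List.drop_left]

theorem WrT_main (n : ℕ) : ∀ (p : List Om) (a : Om), p.length < n → isX a →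
    p ++ [a] ∈ AllPre isX WrT_L →
    ∃ (t : List (Ct Lt)) (w' : List Lt), Chk (p ++ [a]) t w' ∧
      ∀ r u, p = r ++ u → WrT_E r → (∀ b ∈ u, ¬ isX b) → u.map con = t := by
  induction n with
  | zero =>
    intro p a h
    exact absurd h (Nat.not_lt_zero _)
  | succ n ih =>
    intro p a hn ha hall
    obtain ⟨r, v, rfl, hr, hv⟩ := WrT_split p
    obtain ⟨y, hy⟩ := id ha
    have hmem : r ++ v ++ [a] ∈ WrT_L := hall (r ++ v) a [] rfl ha
    rcases id hr with rfl | ⟨p', a', rfl, ha'⟩
    · rw [List.nil_append] at hmem
      have hpal : v.map con = (v.map aux).reverse := by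
        rcases hmem with ⟨u, hu, v1, ⟨a1, ha1, rfl⟩, e⟩ | ⟨-, g1, ⟨g, -, v1, ⟨a1, ha1, rfl⟩, rfl⟩, g2,
          ⟨u, hu, v2, ⟨a2, ha2, rfl⟩, rfl⟩, e⟩
        · obtain ⟨rfl, rfl⟩ := WrT_last e
          exact hu.2
        · exfalso
          rw [← List.append_assoc] at e
          obtain ⟨e1, -⟩ := WrT_last e
          exact hv a1 (by rw [e1]; simp) ha1
      refine ⟨v.map con, [y], ⟨by simp, ?_, ?_, ?_⟩, ?_⟩
      · intro c hc
        obtain ⟨b, hb, rfl⟩ := List.mem_map.1 hc
        exact hv b hb
      · simp [con, hy]
      · intro i hi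
        have hi0 : i = 0 := by simpa using hi
        subst hi0
        rw [hpal, List.reverse_reverse, List.nil_append, List.map_append]
        exact WrT_seg_right [] (v.map aux) _ (by simp) (by simp)
      · intro r u e hr' hu
        rw [(WrT_uniq2 hr hr' hv hu e).2]
    · have hall' : p' ++ [a'] ∈ AllPre isX WrT_L := by
        intro p2 b q e hb
        exact hall p2 b (q ++ (v ++ [a])) (by rw [List.append_assoc, e]; simp) hb
      obtain ⟨t, w', hchk, hlast⟩ := ih p' a' (by
        simp only [List.length_append, List.length_singleton] at hn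
        omega) ha' hall'
      rcases hmem with ⟨u, hu, v1, ⟨a1, ha1, rfl⟩, e⟩ | ⟨⟨r', hr', z, ⟨z1, ⟨u', a1, v', rfl, ha1, hu', hv',
          hadj⟩, z2, ⟨a2, ha2, rfl⟩, rfl⟩, e1⟩, g1, ⟨g, -, v1, ⟨a3, ha3, rfl⟩, rfl⟩, g2,
          ⟨u3, hu3, v2, ⟨a4, ha4, rfl⟩, rfl⟩, e2⟩
      · exfalso
        obtain ⟨e1, -⟩ := WrT_last e
        exact hu.1 a' (by rw [← e1]; simp) ha'
      · have hr'E : WrT_E r' := by
          rcases hr' with hr' | ⟨g', -, v3, ⟨a5, ha5, rfl⟩, rfl⟩
          · exact Or.inl hr'
          · exact Or.inr ⟨g', a5, rfl, ha5⟩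
        rw [← List.append_assoc, ← List.append_assoc] at e1
        obtain ⟨e1, -⟩ := WrT_last e1
        rw [List.append_assoc p'] at e1
        obtain ⟨e3, e4, e5⟩ := WrT_uniq ha' ha1 hv hv' e1
        rw [← List.append_assoc] at e2
        obtain ⟨e2, -⟩ := WrT_last e2
        rw [List.append_assoc, List.append_assoc] at e2
        obtain ⟨-, -, e6⟩ := WrT_uniq ha' ha3 hv hu3.1 e2
        have hut : u'.map con = t := hlast r' u' e3 hr'E hu'
        have hva : v.map aux = t.reverse := by
          rw [e5, ← hut, hadj, List.reverse_reverse]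
        have hvc : v.map con = t := by
          have := hu3.2
          rw [← e6] at this
          rw [this, hva, List.reverse_reverse]
        have hvl : v.length = t.length := by rw [← hvc, List.length_map]
        have hlen : (p' ++ [a']).length = w'.length * (t.length + 1) := by
          have := congrArg List.length hchk.con_eq
          rw [List.length_map] at this
          rw [this]
          simp
        refine ⟨t, w' ++ [y], ⟨by simp, hchk.tk, ?_, ?_⟩, ?_⟩
        · rw [List.append_assoc, List.map_append, hchk.con_eq, List.flatMap_append]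
          simp [con, hy]
          exact hvc
        · intro i hi
          have e9 : (p' ++ [a'] ++ v ++ [a]).map aux =
              (p' ++ [a']).map aux ++ (v.map aux ++ [a].map aux) := by simp
          rw [e9]
          rw [List.length_append, List.length_singleton] at hi
          rcases Nat.lt_or_ge i w'.length with h1 | h1
          · rw [WrT_seg_left]
            · exact hchk.aux_eq i h1
            · rw [List.length_map, hlen]
              calc i * (t.length + 1) + t.length ≤ (i + 1) * (t.length + 1) := by ring_nf; omega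
                _ ≤ _ := Nat.mul_le_mul_right _ h1
          · have h2 : i = w'.length := by omega
            subst h2
            rw [← hva]
            exact WrT_seg_right _ _ _ (by rw [List.length_map, hlen]) (by simp [hvl])
        · intro r u e hr' hu
          rw [← (WrT_uniq2 hr hr' hv hu e).2]
          exact hvc

theorem text_struct {ω : List Om} (h : ω ∈ W2) : ∃ (t : List (Ct Lt)) (w' : List Lt), Chk ω t w' := by
  obtain ⟨⟨p, -, v, ⟨a, ha, rfl⟩, rfl⟩, h2⟩ := h
  obtain ⟨t, w', h3, -⟩ := WrT_main (p.length + 1) p a (Nat.lt_succ_self _) ha h2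
  exact ⟨t, w', h3⟩

end Pool.Agent.H29.CJ
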