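import Pool.Agent.H29.CJ.WrC
import Pool.Agent.H29.CJ.WrT
import Pool.Agent.H29.CJ.WrB
import Pool.Agent.H29.CJ.WrA
import Pool.Agent.H29.CJ.WrP
import Pool.Agent.H29.CJ.WrE
import Pool.Agent.H29.CJ.WrG
import Pool.Agent.H29.CJ.WrH
import Pool.Agent.H29.CJ.UnT
import Pool.Agent.H29.CJ.SpF
import Pool.Agent.H29.CJ.SpC
import Pool.Agent.H29.CJ.MnS
import Pool.Agent.H29.CJ.Tab

/-!
# The diagonal argument

Use only the STATEMENTS of the imported files.

Assume `Closed`.  `Closed.len` for `Ldg` (`isConj_Ldg`): `G0` with `G0.T 0 n ↔ ∃ ω ∈ Ldg, ω.length = n` (`n ≥ 1`).  `USys.compl`: `G'` with `G'.T 0 n ↔ ¬ G0.T 0 n`.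
`isConj_WG G'` and `IsConj.bnf`: `H : Gr Lt (k+1)` with `H.D 0 w ↔ w ∈ WG G'` for `w ≠ []`.  Choose `d, pd` with `(txt H pd).length + 1 = 2^d`
(`(txt H pd).length = 2 (sects H).length + 1 + pd`; `d = 2 (sects H).length + 2`, `pd = 2^d - d`, as `d ≤ 2^d`).  `t = txt H pd`: all letters are `tok` (the letters of `sects` and
`m, p` are not `x _`), `1 ≤ t.length`.
`e0` from `WG_speedup G' d`.  `n = valC t * 2^h` with `h` so large that `n ≥ e0`, `h ≥ e0`, `n ≥ valC t + 2 (t.length + 1)` (e.g. `h = e0 + valC t + 2 t.length + 2`, using `h ≤ 2^h`,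
`valC t ≥ 1`).
(1) Suppose `G'.T 0 n`.  `WG_speedup`: `w ∈ WG G'`, `2^d * w.length = n`, `w = p ++ x :: q`, `(p.length+1) * w.count sg = n`, `2 (p.length + 1) ≤ w.length`.  `w ≠ []`.  So `H.D 0 w`
 and `enc H pd w ∈ LU` (`LU_iff`).  `exists_om t w` with marks `mF (t.flatMap codeT)` and flags `decide ((p.length+1) ∣ r + 1)`: `ω` of length `2^d * w.length = n`.
 `ω ∈ W1` (`Chk.con_eq`, `enc` is the same list), `W2_complete`, `W3_complete` (`valC t = val (t.flatMap codeT ++ [true])`), `W4_complete`, `W5_complete`.  So `ω ∈ Ldg`, `G0.T 0 n`,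
 contradiction.
(2) So `¬ G'.T 0 n`, hence `G0.T 0 n`: `ω ∈ Ldg`, `ω.length = n`.  `text_struct`: `Chk ω t' w'`.  `link_sound`, `arith_sound`: `n = val (t'.flatMap codeT ++ [true]) * 2^h'`, so by
 `val_pow_inj`, `codeT_flatMap_inj`: `t' = t`.  `ω ∈ W1`: `enc H pd w' = ω.map con ∈ LU`, so `H.D 0 w'`, `w' ∈ WG G'`.  `prod_sound`: `w' = p ++ x :: q`, `n = (p.length+1) * w'.count sg`.
 `WG_sound`: `G'.T 0 n`, contradiction.
-/

set_option autoImplicit false

namespace Pool.Agent.H29.CJ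

private theorem tok_txt {α : Type} [Fintype α] {K : ℕ} (G : Gr α K) (pd : ℕ) :
    ∀ c ∈ txt G pd, tok c := by
  have hin : ∀ c : Ct α, inner c → tok c := by
    rintro c (rfl | rfl | rfl | rfl | ⟨a, rfl⟩) ⟨b, hb⟩ <;> cases hb
  have hs : ∀ c ∈ sects G, tok c := by
    intro c hc
    unfold sects at hc
    rw [List.mem_flatMap] at hc
    obtain ⟨A, -, hA⟩ := hc
    unfold sect at hA
    simp only [List.mem_cons, List.mem_append, List.mem_replicate, List.not_mem_nil, or_false] at hA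
    rcases hA with rfl | ⟨-, rfl⟩ | rfl | h | rfl | ⟨-, rfl⟩ | rfl
    · rintro ⟨b, hb⟩; cases hb
    · rintro ⟨b, hb⟩; cases hb
    · rintro ⟨b, hb⟩; cases hb
    · exact hin c (UnH_cont G A c h)
    · rintro ⟨b, hb⟩; cases hb
    · rintro ⟨b, hb⟩; cases hb
    · rintro ⟨b, hb⟩; cases hb
  intro c hc
  unfold txt at hc
  rw [List.mem_append, List.mem_cons, List.mem_append, List.mem_replicate] at hc
  rcases hc with h | rfl | h | ⟨-, rfl⟩
  · exact hs c h
  · rintro ⟨b, hb⟩; cases hb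
  · exact hs c h
  · rintro ⟨b, hb⟩; cases hb

theorem not_closed : ¬ Closed := by
  intro hC
  obtain ⟨k0, G0, h0⟩ := hC.len isConj_Ldg
  obtain ⟨k', G', h'⟩ := USys.compl hC G0
  obtain ⟨k1, H, hH⟩ := (isConj_WG G').bnf
  obtain ⟨s, hs⟩ : ∃ s, s = (sects H).length := ⟨_, rfl⟩
  obtain ⟨d, hd⟩ : ∃ d, d = 2 * s + 2 := ⟨_, rfl⟩
  obtain ⟨pd, hpd⟩ : ∃ pd, pd = 2 ^ d - d := ⟨_, rfl⟩
  have hlt : d < 2 ^ d := Nat.lt_two_pow_self
  have htl : (txt H pd).length + 1 = 2 ^ d := by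
    have h1 : (txt H pd).length = s + 1 + (s + pd) := by
      unfold txt
      rw [List.length_append, List.length_cons, List.length_append, List.length_replicate, ← hs]
      omega
    omega
  obtain ⟨t, ht⟩ : ∃ t, t = txt H pd := ⟨_, rfl⟩
  have htok : ∀ c ∈ t, tok c := by
    rw [ht]
    exact tok_txt H pd
  rw [← ht] at htl
  have ht1 : 1 ≤ t.length := by omega
  obtain ⟨e0, he0⟩ := WG_speedup G' d
  obtain ⟨h, hh⟩ : ∃ h, h = e0 + valC t + 2 * t.length + 2 := ⟨_, rfl⟩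
  obtain ⟨n, hn⟩ : ∃ n, n = valC t * 2 ^ h := ⟨_, rfl⟩
  have hv1 : 1 ≤ valC t := val_pos _
  have hh2 : h < 2 ^ h := Nat.lt_two_pow_self
  have hnh : 2 ^ h ≤ n := by
    rw [hn]
    exact Nat.le_mul_of_pos_left _ hv1
  have hn1 : 1 ≤ n := by omega
  by_cases hT : G'.T 0 n
  · obtain ⟨w, hw, hlen, p, x, q, hpq, hp, hx, hcnt, h2⟩ := he0 n (by omega)
      (by
        rw [hn]
        exact Dvd.dvd.mul_left (pow_dvd_pow 2 (by omega)) _) hT
    have hwne : w ≠ [] := by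
      rw [hpq]
      simp
    have hD : H.D 0 w := (hH w hwne).2 hw
    have hLU : enc H pd w ∈ LU := (LU_iff H pd hwne).2 hD
    obtain ⟨ω, hchk, hωl, hωm⟩ := exists_om t w htok hwne (mF (t.flatMap codeT))
      (fun r => decide ((p.length + 1) ∣ r + 1))
    have hωn : ω.length = n := by rw [hωl, htl, hlen]
    have hW1 : ω ∈ W1 := by
      show ω.map con ∈ LU
      rw [hchk.con_eq, ht]
      exact hLU
    have hm : ∀ r a, ω[r]? = some a → mrk a = mF (t.flatMap codeT) r :=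
      fun r a hr => (hωm r a hr).1
    have hW3 : ω ∈ W3 := W3_complete (h := h) (by rw [hωn, hn]; rfl) hm
    have hW4 : ω ∈ W4 := W4_complete hchk hm (by rw [hωn]; omega)
    have hW5 : ω ∈ W5 := W5_complete hchk hpq hp hx
      (by
        intro r a hr
        show a.2.2.2 = true ↔ _
        rw [(hωm r a hr).2, decide_eq_true_eq])
      (by rw [hωn]; exact hcnt.symm) h2 ht1
    have h3 : G0.T 0 n := (h0 n hn1).2 ⟨ω, ⟨hW1, W2_complete hchk, hW3, hW4, hW5⟩, hωn⟩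
    exact (h' n hn1).1 hT h3
  · have hT0 : G0.T 0 n := by
      by_contra hc
      exact hT ((h' n hn1).2 hc)
    obtain ⟨ω, ⟨h1, h2, h3, h4, h5⟩, hωn⟩ := (h0 n hn1).1 hT0
    obtain ⟨t', w', hchk⟩ := text_struct h2
    have hlk := link_sound hchk h3 h4
    obtain ⟨h'', ha⟩ := arith_sound h3
    rw [hlk] at ha
    have h6 : t'.flatMap codeT = t.flatMap codeT := val_pow_inj (h := h'') (h' := h) (by
      rw [← ha, hωn, hn]
      rfl)
    have htt : t' = t := codeT_flatMap_inj h6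
    rw [htt, ht] at hchk
    have h7 : enc H pd w' ∈ LU := by
      have h8 : ω.map con ∈ LU := h1
      rw [hchk.con_eq] at h8
      exact h8
    have hmem : H.D 0 w' := (LU_iff H pd hchk.ne).1 h7
    have hw' : w' ∈ WG G' := (hH w' hchk.ne).1 hmem
    obtain ⟨p, x, q, hpq, hp, hx, hl⟩ := prod_sound hchk h5
    have h9 := WG_sound G' hw' hpq hp hx
    rw [← hl, hωn] at h9
    exact hT h9

end Pool.Agent.H29.CJ
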