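import Pool.Agent.H29.CJ.CpD
import Pool.Agent.H29.CJ.AtL

/-!
# Positions in a `flatMap` over a range

Use only the STATEMENTS of `AtL`.

`List.range n = List.range j ++ j :: (the rest)` for `j < n` (`List.range_eq_append_iff`, or write
`n = j + (1 + t)` and use `List.range_add`, `List.range_succ`, `List.flatMap_append`).  Everything else is
`List.length_append`, `List.getElem?_append`, `pre_append`.
-/

set_option autoImplicit false

namespace Pool.Agent.H29.CJ

variable {β : Type}

theorem range_flatMap_le (f : ℕ → List β) {j n : ℕ} (h : j ≤ n) :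
    ∃ r : List β, (List.range n).flatMap f = (List.range j).flatMap f ++ r := by
  obtain ⟨t, rfl⟩ := Nat.exists_eq_add_of_le h
  rw [List.range_add, List.flatMap_append]
  exact ⟨_, rfl⟩

private theorem flm_succ (f : ℕ → List β) (j : ℕ) :
    (List.range (j + 1)).flatMap f = (List.range j).flatMap f ++ f j := by
  rw [List.range_succ, List.flatMap_append, List.flatMap_cons, List.flatMap_nil, List.append_nil]

theorem range_flatMap_split (f : ℕ → List β) {j n : ℕ} (h : j < n) :
    ∃ r : List β, (List.range n).flatMap f = (List.range j).flatMap f ++ (f j ++ r) := by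
  obtain ⟨r, hr⟩ := range_flatMap_le f (Nat.succ_le_of_lt h)
  refine ⟨r, ?_⟩
  rw [hr, Nat.succ_eq_add_one, flm_succ, List.append_assoc]

theorem length_flatMap_succ (f : ℕ → List β) (j : ℕ) :
    ((List.range (j + 1)).flatMap f).length = ((List.range j).flatMap f).length + (f j).length := by
  rw [flm_succ, List.length_append]

theorem length_flatMap_mono (f : ℕ → List β) {i j : ℕ} (h : i ≤ j) :
    ((List.range i).flatMap f).length ≤ ((List.range j).flatMap f).length := by
  obtain ⟨r, hr⟩ := range_flatMap_le f h
  rw [hr, List.length_append]
  exact Nat.le_add_right _ _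

/-- all pieces of the same length -/
theorem length_flatMap_const (f : ℕ → List β) {c n : ℕ} (h : ∀ j < n, (f j).length = c) :
    ((List.range n).flatMap f).length = n * c := by
  induction n with
  | zero => simp
  | succ n ih =>
    rw [length_flatMap_succ, ih (fun j hj => h j (Nat.lt_succ_of_lt hj)), h n (Nat.lt_succ_self n)]
    ring

/-- letter number `t` of piece `j` -/
theorem getElem?_flatMap (f : ℕ → List β) {j n t : ℕ} (h : j < n) (ht : t < (f j).length)
    (u v : List β) :
    (u ++ ((List.range n).flatMap f ++ v))[u.length + ((List.range j).flatMap f).length + t]? =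
      (f j)[t]? := by
  obtain ⟨r, hr⟩ := range_flatMap_split f h
  rw [hr, List.getElem?_append_right (by omega), List.append_assoc,
    List.getElem?_append_right (by omega), List.append_assoc]
  have e : u.length + ((List.range j).flatMap f).length + t - u.length
      - ((List.range j).flatMap f).length = t := by omega
  rw [e, List.getElem?_append_left ht]

/-- piece `j` as a segment -/
theorem at_flatMap (f : ℕ → List β) {j n : ℕ} (h : j < n) (u v : List β) {L : Set (List β)}
    (hL : f j ∈ L) :
    At (u ++ ((List.range n).flatMap f ++ v)) L (u.length + ((List.range j).flatMap f).length)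
      (u.length + ((List.range (j + 1)).flatMap f).length) := by
  obtain ⟨r, hr⟩ := range_flatMap_split f h
  have h1 := At.mk' (w := u ++ ((List.range n).flatMap f ++ v)) (L := L) (u := f j)
    (u ++ (List.range j).flatMap f) (r ++ v) (by rw [hr]; simp only [List.append_assoc]) hL
  rw [List.length_append] at h1
  rw [length_flatMap_succ, ← Nat.add_assoc]
  exact h1

theorem wt_flatMap_const (g : β → ℤ) (f : ℕ → List β) {c : ℤ} {n : ℕ}
    (h : ∀ j < n, wt g (f j) = c) : wt g ((List.range n).flatMap f) = n * c := by
  induction n with
  | zero => simp [wt]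
  | succ n ih =>
    rw [flm_succ, atl_wt_append, ih (fun j hj => h j (Nat.lt_succ_of_lt hj)),
      h n (Nat.lt_succ_self n)]
    push_cast
    ring

theorem wt_replicate (g : β → ℤ) (n : ℕ) (b : β) : wt g (List.replicate n b) = n * g b := by
  simp [wt]

theorem wt_zero (g : β → ℤ) (u : List β) (h : ∀ b ∈ u, g b = 0) : wt g u = 0 := by
  unfold wt
  apply List.sum_eq_zero
  intro x hx
  obtain ⟨b, hb, rfl⟩ := List.mem_map.1 hx
  exact h b hb

/-- `pre` at a cut of the word -/
theorem pre_cut (g : β → ℤ) (u v : List β) {i : ℕ} (hi : i = u.length) :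
    pre g (u ++ v) i = wt g u := by
  rw [hi]
  exact pre_append g u v

end Pool.Agent.H29.CJ
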