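import Pool.Agent.H29.CJ.Clo

/-!
# From the frozen format to `IsConj`

Use only the STATEMENTS of the imported files.

Given `(p, S, R)` let `Φ A X = {w | ∃ r ∈ R, r.1 = A ∧ ∀ α ∈ r.2, w ∈ cs α X}` with
`cs [] X = {[]}`, `cs (terminal a :: α) X = cat {[a]} (cs α X)`, `cs (nonterminal B :: α) X = cat (X B) (cs α X)`.
`Poly (Φ A)` by `Poly.exL`, `Poly.iteP`, `Poly.allL`, `Poly.cat`, `Poly.cst` (induction on `α` for `cs α`).
`u ∈ cs α X` iff there is `ws` with `u = ws.flatten` and the `Forall₂` condition (induction on `α`).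
Hence a family is closed in the frozen sense iff it is closed for `Φ`, and `L = Lfp Φ S`; `isConj_Lfp`.
-/

set_option autoImplicit false

namespace Pool.Agent.H29.CJ

/-- The language of one conjunct, given the languages of the nonterminals. -/
def FroI_cs {m p : ℕ} : List (Symbol (Fin m) (Fin p)) → (Fin p → Set (List (Fin m))) →
    Set (List (Fin m))
  | [], _ => {[]}
  | (Symbol.terminal a :: l), X => CJ.cat {[a]} (FroI_cs l X)
  | (Symbol.nonterminal B :: l), X => CJ.cat (X B) (FroI_cs l X)

theorem FroI_poly {m p : ℕ} (l : List (Symbol (Fin m) (Fin p))) :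
    Poly (fun X : Fin p → Set (List (Fin m)) => FroI_cs l X) := by
  induction l with
  | nil =>
    have : (fun X : Fin p → Set (List (Fin m)) =>
        FroI_cs ([] : List (Symbol (Fin m) (Fin p))) X) = fun _ => {[]} := by
      funext X
      rfl
    rw [this]
    exact Poly.cst _ isConj_eps
  | cons s l ih =>
    cases s with
    | terminal a =>
      have : (fun X : Fin p → Set (List (Fin m)) =>
          FroI_cs (Symbol.terminal a :: l) X) = fun X => CJ.cat {[a]} (FroI_cs l X) := by
        funext X
        rfl
      rw [this]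
      exact Poly.cat (Poly.cst _ (isConj_sym a)) ih
    | nonterminal B =>
      have : (fun X : Fin p → Set (List (Fin m)) =>
          FroI_cs (Symbol.nonterminal B :: l) X) = fun X => CJ.cat (X B) (FroI_cs l X) := by
        funext X
        rfl
      rw [this]
      exact Poly.cat (Poly.var B) ih

theorem FroI_mem {m p : ℕ} (l : List (Symbol (Fin m) (Fin p)))
    (X : Fin p → Set (List (Fin m))) (u : List (Fin m)) :
    u ∈ FroI_cs l X ↔ ∃ ws : List (List (Fin m)), u = ws.flatten ∧
      List.Forall₂ (fun (s : Symbol (Fin m) (Fin p)) (v : List (Fin m)) =>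
        (∀ t, s = Symbol.terminal t → v = [t]) ∧
        (∀ B, s = Symbol.nonterminal B → v ∈ X B)) l ws := by
  induction l generalizing u with
  | nil =>
    constructor
    · intro h
      have h' : u = [] := h
      exact ⟨[], by simp [h'], List.Forall₂.nil⟩
    · rintro ⟨ws, h1, h2⟩
      cases h2
      show u = []
      simpa using h1
  | cons s l ih =>
    cases s with
    | terminal a =>
      constructor
      · rintro ⟨v, hv, u', hu', rfl⟩
        obtain ⟨ws, h1, h2⟩ := (ih u').1 hu'
        have hv' : v = [a] := hv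
        refine ⟨v :: ws, by simp [h1], List.Forall₂.cons ⟨?_, ?_⟩ h2⟩
        · intro t ht
          cases ht
          exact hv'
        · intro B hB
          cases hB
      · rintro ⟨ws, h1, h2⟩
        cases h2 with
        | cons hs ht =>
          rename_i v ws'
          refine ⟨v, hs.1 a rfl, ws'.flatten, (ih _).2 ⟨ws', rfl, ht⟩, ?_⟩
          simpa using h1
    | nonterminal B =>
      constructor
      · rintro ⟨v, hv, u', hu', rfl⟩
        obtain ⟨ws, h1, h2⟩ := (ih u').1 hu'
        refine ⟨v :: ws, by simp [h1], List.Forall₂.cons ⟨?_, ?_⟩ h2⟩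
        · intro t ht
          cases ht
        · intro C hC
          cases hC
          exact hv
      · rintro ⟨ws, h1, h2⟩
        cases h2 with
        | cons hs ht =>
          rename_i v ws'
          refine ⟨v, hs.2 B rfl, ws'.flatten, (ih _).2 ⟨ws', rfl, ht⟩, ?_⟩
          simpa using h1

/-- The operator of the system. -/
def FroI_op {m p : ℕ} (R : List (Fin p × List (List (Symbol (Fin m) (Fin p)))))
    (A : Fin p) (X : Fin p → Set (List (Fin m))) : Set (List (Fin m)) :=
  {w | ∃ r ∈ R, w ∈ {w | r.1 = A ∧ w ∈ {w | ∀ l ∈ r.2, w ∈ FroI_cs l X}}}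

theorem FroI_op_poly {m p : ℕ} (R : List (Fin p × List (List (Symbol (Fin m) (Fin p)))))
    (A : Fin p) : Poly (FroI_op R A) := by
  have h := Poly.exL (ι := Fin p) (α := Fin m) R
    (Φ := fun r X => {w | r.1 = A ∧ w ∈ {w | ∀ l ∈ r.2, w ∈ FroI_cs l X}})
    (fun r _ => Poly.iteP (Poly.allL r.2 (Φ := fun l X => FroI_cs l X)
      (fun l _ => FroI_poly l)) (r.1 = A))
  exact h

theorem Fro.isConj {m : ℕ} {L : Set (List (Fin m))} (h : Fro L) : IsConj L := by
  obtain ⟨p, S, R, -, hL⟩ := h
  have key : L = Lfp (FroI_op R) S := by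
    ext w
    rw [hL w]
    constructor
    · intro h X hX
      apply h X
      intro r hr u hu
      apply hX r.1
      exact ⟨r, hr, rfl, fun l hl => (FroI_mem l X u).2 (hu l hl)⟩
    · intro h X hX
      apply h X
      rintro A u ⟨r, hr, hA, hu⟩
      have hA' : r.1 = A := hA
      subst hA'
      exact hX r hr u (fun l hl => (FroI_mem l X u).1 (hu l hl))
  rw [key]
  exact isConj_Lfp (FroI_op_poly R) S

end Pool.Agent.H29.CJ
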