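import Pool.Agent.H29.CJ.Bnf

/-!
# From `IsConj` to the frozen format

Use only the STATEMENTS of the imported files.

`IsConj.bnf` gives `k` and `G : Gr (Fin m) (k+1)`.  Take `p = k + 2`, start symbol `0`, the nonterminal `A`
of `G` is `A.succ`.  Rules `R` (a list, use `List.finRange`, classical decidability):
 `(A.succ, [[terminal a]])` for all `A, a` with `G.base A a`;
 `(A.succ, ρ.map (fun q => [nonterminal q.1.succ, nonterminal q.2.succ]))` for `ρ ∈ G.rules A`;
 `(0, [[nonterminal 1]])` (here `1 = Fin.succ 0`); and `(0, [[]])` in case `[] ∈ L`.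
All right sides are nonempty lists (`G.ne`).
(→) Let `w ∈ L` and `X` closed.  If `w = []` use the rule `(0, [[]])` (`ws = []`).  Otherwise `G.D 0 w`, and by
induction on `D`: `G.D A w → w ∈ X A.succ` (`ws = [[a]]`, respectively `ws = [u q, v q]` for each `q ∈ ρ`), then the
rule `(0, [[nonterminal 1]])`, `ws = [w]`.
(←) The family `X 0 = L`, `X A.succ = {w | G.D A w}` is closed (`X 0`: `G.D 0 w` implies `w ≠ []`, see
`Gr.D_ne_nil` below, and then `w ∈ L`); for the rules of `A.succ` choose the parts: from the `Forall₂` with a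
two-element list get `ws = [u, v]`; choose functions `u, v` of `q` (classically, e.g. by
`Classical.choose` under `if h : q ∈ ρ`) and apply `Gr.D.rule`.
-/

set_option autoImplicit false

namespace Pool.Agent.H29.CJ

theorem Gr.D_ne_nil {α : Type} {K : ℕ} {G : Gr α K} {A : Fin K} {w : List α} (h : G.D A w) :
    w ≠ [] := by
  induction h with
  | base h => simp
  | @rule A ρ w u v h hw hu hv ihu ihv =>
    obtain ⟨p, hp⟩ := List.exists_mem_of_ne_nil ρ (G.ne A ρ h)
    rw [hw p hp]
    intro h0
    exact ihu p hp (List.append_eq_nil_iff.1 h0).1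

theorem FroO_list {m k : ℕ} (G : Gr (Fin m) (k + 1)) (c : Prop) :
    ∃ R : List (Fin (k + 2) × List (List (Symbol (Fin m) (Fin (k + 2))))),
      ∀ r, r ∈ R ↔
        (∃ (A : Fin (k + 1)) (a : Fin m), G.base A a ∧
          r = (A.succ, [[Symbol.terminal a]])) ∨
        (∃ (A : Fin (k + 1)) (ρ : List (Fin (k + 1) × Fin (k + 1))), ρ ∈ G.rules A ∧
          r = (A.succ, ρ.map (fun q => [Symbol.nonterminal q.1.succ,
            Symbol.nonterminal q.2.succ]))) ∨
        r = (0, [[Symbol.nonterminal (Fin.succ 0)]]) ∨ (c ∧ r = (0, [[]])) := by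
  classical
  refine ⟨((List.finRange (k + 1)).flatMap (fun A =>
      ((List.finRange m).filter (fun a => decide (G.base A a))).map
        (fun a => (A.succ, [[Symbol.terminal a]])))) ++
    ((List.finRange (k + 1)).flatMap (fun A => (G.rules A).map (fun ρ =>
      (A.succ, ρ.map (fun q => [Symbol.nonterminal q.1.succ,
            Symbol.nonterminal q.2.succ]))))) ++
    [(0, [[Symbol.nonterminal (Fin.succ 0)]])] ++ (if c then [(0, [[]])] else []), ?_⟩
  intro r
  simp only [List.mem_append, List.mem_flatMap, List.mem_map, List.mem_filter, List.mem_finRange,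
    true_and, decide_eq_true_eq, List.mem_singleton]
  constructor
  · rintro (((⟨A, a, h, h'⟩ | ⟨A, ρ, h, h'⟩) | h) | h)
    · exact Or.inl ⟨A, a, h, h'.symm⟩
    · exact Or.inr (Or.inl ⟨A, ρ, h, h'.symm⟩)
    · exact Or.inr (Or.inr (Or.inl h))
    · by_cases hc : c
      · rw [if_pos hc, List.mem_singleton] at h
        exact Or.inr (Or.inr (Or.inr ⟨hc, h⟩))
      · rw [if_neg hc] at h
        simp at h
  · rintro (⟨A, a, h, h'⟩ | ⟨A, ρ, h, h'⟩ | h | ⟨hc, h⟩)
    · exact Or.inl (Or.inl (Or.inl ⟨A, a, h, h'.symm⟩))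
    · exact Or.inl (Or.inl (Or.inr ⟨A, ρ, h, h'.symm⟩))
    · exact Or.inl (Or.inr h)
    · right
      rw [if_pos hc, List.mem_singleton]
      exact h

theorem FroO_D {m k : ℕ} (G : Gr (Fin m) (k + 1))
    (R : List (Fin (k + 2) × List (List (Symbol (Fin m) (Fin (k + 2))))))
    (hb : ∀ (A : Fin (k + 1)) (a : Fin m), G.base A a → (A.succ, [[Symbol.terminal a]]) ∈ R)
    (hr : ∀ (A : Fin (k + 1)) (ρ : List (Fin (k + 1) × Fin (k + 1))), ρ ∈ G.rules A →
      (A.succ, ρ.map (fun q => [Symbol.nonterminal q.1.succ,
            Symbol.nonterminal q.2.succ])) ∈ R)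
    (X : Fin (k + 2) → Set (List (Fin m)))
    (hX : ∀ r ∈ R, ∀ u : List (Fin m),
          (∀ α ∈ r.2, ∃ ws : List (List (Fin m)), u = ws.flatten ∧
            List.Forall₂ (fun (s : Symbol (Fin m) (Fin (k + 2))) (v : List (Fin m)) =>
              (∀ t, s = Symbol.terminal t → v = [t]) ∧
              (∀ B, s = Symbol.nonterminal B → v ∈ X B)) α ws) →
          u ∈ X r.1) (A : Fin (k + 1)) (w : List (Fin m)) (h : G.D A w) : w ∈ X A.succ := by
  induction h with
  | @base A a h =>
    refine hX _ (hb A a h) [a] ?_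
    intro α hα
    simp only [List.mem_singleton] at hα
    subst hα
    refine ⟨[[a]], by simp, ?_⟩
    refine List.Forall₂.cons ⟨?_, ?_⟩ List.Forall₂.nil
    · intro t ht
      injection ht with ht
      rw [ht]
    · intro B hB
      exact absurd hB (by simp)
  | @rule A ρ w u v h hw hu hv ihu ihv =>
    refine hX _ (hr A ρ h) w ?_
    intro α hα
    simp only [List.mem_map] at hα
    obtain ⟨q, hq, rfl⟩ := hα
    refine ⟨[u q, v q], by simpa using hw q hq, ?_⟩
    refine List.Forall₂.cons ⟨?_, ?_⟩ (List.Forall₂.cons ⟨?_, ?_⟩ List.Forall₂.nil)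
    · intro t ht
      exact absurd ht (by simp)
    · intro B hB
      injection hB with hB
      rw [← hB]
      exact ihu q hq
    · intro t ht
      exact absurd ht (by simp)
    · intro B hB
      injection hB with hB
      rw [← hB]
      exact ihv q hq

theorem FroO_two {α β : Type*} {P : α → β → Prop} {a b : α} {ws : List β}
    (h : List.Forall₂ P [a, b] ws) : ∃ x y, ws = [x, y] ∧ P a x ∧ P b y := by
  cases h with
  | cons h1 h2 =>
    cases h2 with
    | cons h3 h4 =>
      cases h4
      exact ⟨_, _, rfl, h1, h3⟩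

theorem FroO_one {α β : Type*} {P : α → β → Prop} {a : α} {ws : List β}
    (h : List.Forall₂ P [a] ws) : ∃ x, ws = [x] ∧ P a x := by
  cases h with
  | cons h1 h2 =>
    cases h2
    exact ⟨_, rfl, h1⟩

theorem IsConj.fro {m : ℕ} {L : Set (List (Fin m))} (h : IsConj L) : Fro L := by
  obtain ⟨k, G, hG⟩ := h.bnf
  obtain ⟨R, hR⟩ := FroO_list G (([] : List (Fin m)) ∈ L)
  refine ⟨k + 2, 0, R, ?_, ?_⟩
  · intro r hr
    rcases (hR r).1 hr with ⟨A, a, h, h'⟩ | ⟨A, ρ, h, h'⟩ | h | ⟨hc, h⟩
    · rw [h']
      simp
    · rw [h']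
      simpa using G.ne A ρ h
    · rw [h]
      simp
    · rw [h]
      simp
  · intro w
    constructor
    · intro hw X hX
      by_cases h0 : w = []
      · subst h0
        refine hX (0, [[]]) ((hR _).2 (Or.inr (Or.inr (Or.inr ⟨hw, rfl⟩)))) [] ?_
        intro α hα
        simp only [List.mem_singleton] at hα
        subst hα
        exact ⟨[], by simp, List.Forall₂.nil⟩
      · have hD := (hG w h0).2 hw
        have h1 := FroO_D G R (fun A a h => (hR _).2 (Or.inl ⟨A, a, h, rfl⟩))
          (fun A ρ h => (hR _).2 (Or.inr (Or.inl ⟨A, ρ, h, rfl⟩))) X hX 0 w hD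
        refine hX (0, [[Symbol.nonterminal (Fin.succ 0)]])
          ((hR _).2 (Or.inr (Or.inr (Or.inl rfl)))) w ?_
        intro α hα
        simp only [List.mem_singleton] at hα
        subst hα
        refine ⟨[w], by simp, ?_⟩
        refine List.Forall₂.cons ⟨?_, ?_⟩ List.Forall₂.nil
        · intro t ht
          exact absurd ht (by simp)
        · intro B hB
          injection hB with hB
          rw [← hB]
          exact h1
    · intro hw
      let X : Fin (k + 2) → Set (List (Fin m)) :=
        Fin.cases (motive := fun _ => Set (List (Fin m))) L (fun A => {w | G.D A w})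
      have hX0 : X 0 = L := rfl
      have hXs : ∀ A : Fin (k + 1), X A.succ = {w | G.D A w} := fun A => rfl
      refine hw X ?_
      intro r hr u hu
      rcases (hR r).1 hr with ⟨A, a, h, rfl⟩ | ⟨A, ρ, h, rfl⟩ | rfl | ⟨hc, rfl⟩
      · obtain ⟨ws, hws, hf⟩ := hu [Symbol.terminal a] (by simp)
        obtain ⟨x, rfl, hx1, -⟩ := FroO_one hf
        have hx := hx1 a rfl
        subst hx
        rw [hXs]
        have : u = [a] := by simpa using hws
        rw [this]
        exact Gr.D.base h
      · rw [hXs]
        have key : ∀ q : Fin (k + 1) × Fin (k + 1), ∃ x y : List (Fin m), q ∈ ρ →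
            (u = x ++ y ∧ G.D q.1 x ∧ G.D q.2 y) := by
          intro q
          by_cases hq : q ∈ ρ
          · obtain ⟨ws, hws, hf⟩ := hu [Symbol.nonterminal q.1.succ, Symbol.nonterminal q.2.succ]
              (by
                simp only [List.mem_map]
                exact ⟨q, hq, rfl⟩)
            obtain ⟨x, y, rfl, hx, hy⟩ := FroO_two hf
            refine ⟨x, y, fun _ => ⟨by simpa using hws, ?_, ?_⟩⟩
            · have := hx.2 _ rfl
              rw [hXs] at this
              exact this
            · have := hy.2 _ rfl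
              rw [hXs] at this
              exact this
          · exact ⟨[], [], fun h => absurd h hq⟩
        choose x y hxy using key
        exact Gr.D.rule x y h (fun q hq => (hxy q hq).1) (fun q hq => (hxy q hq).2.1)
          (fun q hq => (hxy q hq).2.2)
      · obtain ⟨ws, hws, hf⟩ := hu [Symbol.nonterminal (Fin.succ 0)] (by simp)
        obtain ⟨x, rfl, -, hx2⟩ := FroO_one hf
        have hx := hx2 _ rfl
        rw [hXs] at hx
        have hux : u = x := by simpa using hws
        subst hux
        rw [hX0]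
        exact (hG u (Gr.D_ne_nil hx)).1 hx
      · obtain ⟨ws, hws, hf⟩ := hu [] (by simp)
        cases hf
        have : u = [] := by simpa using hws
        rw [this]
        exact hc

end Pool.Agent.H29.CJ
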