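import Pool.Agent.H29.CJ.SpD
import Pool.Agent.H29.CJ.AtL

/-!
# Equidistant flags

Use only the STATEMENTS of the imported files.

Convert `h` to positions: `at_full`, `at_AllPre` with `i = 0`, `j = w.length`: for every `t` with
`Is w t P`: `At w (BlkPair P) 0 (t+1)`, and by `at_cat, at_ST, at_LC, at_eps, at_univ, at_Sync_LC` this means:
either (first) no `s < t` is flagged, or (pair) there are `k` and `q` with `q + 2 (k + 1) = t + 1`, (`q = 0` or
`q - 1` is flagged), position `q + k` is flagged, and no other position of `[q, t)` is flagged.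
If no position is flagged take `β = 1, r = 0`.  Otherwise let `n₁ = β` be the first flagged `t` plus one.
Claim by strong induction on `t` (flagged): `β ∣ t + 1`, and every `s ≤ t` with `β ∣ s + 1` is flagged.
First case: `t + 1 = β`.  Pair case: the flagged `t' = q + k < t` is the last flagged one before `t`; by
induction `t' + 1 = c β`, all multiples below are flagged.  If `q = 0`, then `t'` is the first flagged
position, so `k + 1 = t' + 1 = β`.  If `q > 0`, then `q - 1` is flagged, so `q = c' β`, and there is no
flagged position strictly between `q - 1` and `t'`; the multiple `(c' + 1) β ≤ c β` is flagged by induction, so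
`c = c' + 1` and `k + 1 = β`.  Hence `t + 1 = t' + 1 + (k + 1) = (c + 1) β`.
Take `r = (last flagged t + 1) / β` (the flagged positions are bounded by `w.length`).
-/

set_option autoImplicit false

namespace Pool.Agent.H29.CJ

open Lt

private theorem Grid_comb (F : ℕ → Prop) (N : ℕ) (hN : ∀ t, F t → t < N)
    (h : ∀ t, F t → (∀ s, s < t → ¬ F s) ∨ ∃ k q : ℕ, q + 2 * (k + 1) = t + 1 ∧
      (q = 0 ∨ (0 < q ∧ F (q - 1))) ∧ F (q + k) ∧ (∀ s, q ≤ s → s < q + k → ¬ F s)) :
    ∃ β r : ℕ, 0 < β ∧ ∀ i < N, (F i ↔ β ∣ i + 1 ∧ i + 1 ≤ β * r) := by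
  classical
  by_cases hex : ∃ t, F t
  · set n := Nat.find hex with hn
    have hFn : F n := Nat.find_spec hex
    have hmin : ∀ s, F s → n ≤ s := fun s hs => Nat.find_min' hex hs
    have claim : ∀ t, F t → (n + 1) ∣ t + 1 ∧ ∀ s, s ≤ t → (n + 1) ∣ s + 1 → F s := by
      intro t
      induction t using Nat.strong_induction_on with
      | _ t ih =>
        intro ht
        rcases h t ht with h1 | ⟨k, q, hq, hq0, hk, hno⟩
        · have htn : t = n := by
            have h2 := hmin t ht
            rcases Nat.lt_or_ge n t with h3 | h3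
            · exact absurd hFn (h1 n h3)
            · omega
          subst htn
          refine ⟨dvd_refl _, fun s hs hd => ?_⟩
          have h2 := Nat.le_of_dvd (Nat.succ_pos s) hd
          have h3 : s = n := by omega
          rw [h3]; exact hFn
        · obtain ⟨ih1, ih2⟩ := ih (q + k) (by omega) hk
          have hkb : (n + 1) ∣ q ∧ k = n := by
            rcases hq0 with rfl | ⟨hqpos, hFq⟩
            · refine ⟨dvd_zero _, ?_⟩
              have h2 := hmin _ hk
              rcases Nat.lt_or_ge n k with h3 | h3
              · exact absurd hFn (hno n (by omega) (by omega))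
              · omega
            · obtain ⟨jh1, jh2⟩ := ih (q - 1) (by omega) hFq
              have e1 : q - 1 + 1 = q := by omega
              rw [e1] at jh1
              refine ⟨jh1, ?_⟩
              have hd : (n + 1) ∣ k + 1 := by
                have h2 : q + k + 1 = q + (k + 1) := by ring
                rw [h2] at ih1
                exact (Nat.dvd_add_right jh1).1 ih1
              have h3 := Nat.le_of_dvd (Nat.succ_pos k) hd
              rcases Nat.lt_or_ge n k with h4 | h4
              · exfalso
                refine hno (q + n) (by omega) (by omega) (ih2 (q + n) (by omega) ?_)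
                have h5 : q + n + 1 = q + (n + 1) := by ring
                rw [h5]
                exact dvd_add jh1 (dvd_refl _)
              · omega
          obtain ⟨hdq, rfl⟩ := hkb
          have et : t + 1 = q + (n + 1) * 2 := by omega
          refine ⟨?_, fun s hs hd => ?_⟩
          · rw [et]
            exact dvd_add hdq (Dvd.intro _ rfl)
          · rcases Nat.lt_or_ge (q + n) s with h3 | h3
            · obtain ⟨c, hc⟩ := hdq
              obtain ⟨d, hd'⟩ := hd
              have h4 : (n + 1) * (c + 1) < (n + 1) * d := by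
                rw [← hd', Nat.mul_add, ← hc]
                omega
              have h5 : c + 1 < d := Nat.lt_of_mul_lt_mul_left h4
              have h6 : (n + 1) * (c + 2) ≤ (n + 1) * d := Nat.mul_le_mul_left _ h5
              have h7 : (n + 1) * (c + 2) = q + (n + 1) * 2 := by rw [Nat.mul_add, ← hc]
              have h8 : s = t := by omega
              rw [h8]; exact ht
            · exact ih2 s h3 hd
    set T := Nat.findGreatest F N with hT
    have hFT : F T := Nat.findGreatest_spec (P := F) (hN n hFn).le hFn
    obtain ⟨⟨r, hr⟩, hT2⟩ := claim T hFT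
    refine ⟨n + 1, r, Nat.succ_pos n, fun i hi => ⟨fun hFi => ⟨(claim i hFi).1, ?_⟩, fun hd => ?_⟩⟩
    · rw [← hr]
      have := Nat.le_findGreatest (P := F) hi.le hFi
      omega
    · refine hT2 i ?_ hd.1
      have := hd.2
      rw [← hr] at this
      omega
  · refine ⟨1, 0, one_pos, fun i _ => ⟨fun hi => absurd ⟨i, hi⟩ hex, fun hd => ?_⟩⟩
    have := hd.2
    omega

private theorem Grid_not {P : Lt → Prop} {w : List Lt} {i : ℕ} (h : Is w i (fun x => ¬ P x)) :
    ¬ Is w i P := by
  rintro ⟨a, ha, hP⟩
  obtain ⟨b, hb, hnP⟩ := h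
  rw [ha] at hb
  exact hnP (Option.some.inj hb ▸ hP)

theorem grid_of_AllPre {P : Lt → Prop} {w : List Lt} (h : w ∈ AllPre P (BlkPair P)) :
    ∃ β r : ℕ, 0 < β ∧ ∀ i < w.length, (Is w i P ↔ β ∣ i + 1 ∧ i + 1 ≤ β * r) := by
  have h0 := (at_AllPre.1 (at_full.2 h)).2.2
  apply Grid_comb (fun i => Is w i P) w.length (fun t ht => ht.lt)
  intro t ht
  have h1 := h0 t (Nat.zero_le t) ht.lt ht
  rcases at_union.1 h1 with h2 | h2
  · left
    obtain ⟨k, h3, h4⟩ := at_cat.1 h2
    obtain ⟨h5, _⟩ := at_LC.1 h4
    obtain ⟨_, _, h6⟩ := at_ST.1 h3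
    intro s hs
    exact Grid_not (h6 s (Nat.zero_le s) (by omega))
  · right
    obtain ⟨q, h3, h4⟩ := at_cat.1 h2
    obtain ⟨k2, h5, h6⟩ := at_cat.1 h4
    obtain ⟨h7, _⟩ := at_LC.1 h6
    obtain ⟨k, j', h8, _, h9, h10, h11⟩ := at_Sync_LC.1 h5
    obtain ⟨h12, h13⟩ := at_LC.1 h9
    refine ⟨k, q, by omega, ?_, h13, fun s hs1 hs2 => Grid_not (h10 s hs1 hs2)⟩
    rcases at_union.1 h3 with h14 | h14
    · left
      exact (at_eps.1 h14).1.symm
    · right
      obtain ⟨k3, _, h16⟩ := at_cat.1 h14
      obtain ⟨h17, h18⟩ := at_LC.1 h16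
      subst h17
      exact ⟨Nat.succ_pos _, by simpa using h18⟩

end Pool.Agent.H29.CJ
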