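import Pool.Agent.H29.CJ.MSh

/-!
# Soundness of the menu side

Use only the STATEMENTS of the imported files.

`At w (LII (Sl G) C) x r`: there is `xc` with `At w Load xc r` and `At w (cat (main C) RII) xc r`.
`xc < ln` by `main_shape`.  `Load` at `[xc, r)` (`at_Sync_LC` with `U = LC isNZ`, `V = LC rr`): `k` letters `nz` from `xc`, `k` letters
`rr` before `r`, the middle: `Sync (Tr false) (z univ cc) Rec'`, then `pp` at `yP`, `yP + 1 + k = r`.  The inner `Sync` (`at_Sync`,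
`at_pw` or induction on the number `j` with `at_pw_succ`): `j` translations `Tr false` from `xc + k` to `y₀ = xc + k + 2 b2 j`
(`tr_sound`, no `z` passed: quotients equal), a `z` letter at `y₀`, anything, a `cc` letter at `yc - 1`, and `j` `Rec'`s from `yc`
to `yP`.  The `nz` letters are not `z` letters (`isNZ_iff`, `Nat.succ_div`), so `(xc + k)/Z = xc/Z`, hence `y₀ / Z = xc / Z` and
`Z ∣ y₀ + 1`, `y₀ < ln` (`hz`), so `y₀ + 1 = Z (xc/Z + 1)` and `Lo Z xc = y₀ + 1 - xc = k + 2 b2 j + 1` (`add_Lo`).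
-/

set_option autoImplicit false

namespace Pool.Agent.H29.CJ

open Lt

variable {K : ℕ} (G : USys K) {w : List Lt} {Z b1 b2 ln : ℕ}

private theorem liis_chain (h : FS w Z b1 b2 ln) (j : ℕ) : ∀ {p q : ℕ},
    At w (pw (Tr false) j) p q → q = p + 2 * b2 * j ∧ q / Z = p / Z := by
  induction j with
  | zero =>
    intro p q hs
    obtain ⟨rfl, _⟩ := at_eps.1 hs
    exact ⟨by simp, rfl⟩
  | succ j ih =>
    intro p q hs
    obtain ⟨m, h1, h2⟩ := at_pw_succ.1 hs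
    obtain ⟨-, -, h3, h4⟩ := tr_sound h h1
    obtain ⟨h5, h6⟩ := ih h2
    refine ⟨?_, ?_⟩
    · rw [h5, h3]
      ring
    · rw [h6, h4]
      simp

private theorem liis_div (h : FS w Z b1 b2 ln) {x k : ℕ}
    (hn : ∀ t, x ≤ t → t < x + k → Is w t isNZ) : (x + k) / Z = x / Z := by
  induction k with
  | zero => rfl
  | succ k ih =>
    have h1 := hn (x + k) (by omega) (by omega)
    have h2 : x + k < ln := lt_ln h (h1.mono (by rintro a ⟨t, g, rfl⟩; exact ⟨_, _, _, rfl⟩))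
    have h3 := (isNZ_iff h h2).1 h1
    have h4 : x + (k + 1) = x + k + 1 := rfl
    rw [h4, Nat.succ_div, if_neg h3, add_zero]
    exact ih (fun t h5 h6 => hn t h5 (by omega))

theorem LII_sound (h : FS w Z b1 b2 ln) {C : Fin K} {x r : ℕ} (hL : At w (LII (Sl G) C) x r) :
    ∃ (xc ec k j yc yP : ℕ), x ≤ xc ∧ xc < ln ∧ Lo Z xc = k + 2 * b2 * j + 1 ∧
      At w (Sl G (.main C)) xc ec ∧ At w RII ec r ∧ 0 < yc ∧ Is w (yc - 1) (· = cc) ∧
      At w (pw Rec' j) yc yP ∧ Is w yP (· = pp) ∧ r = yP + 1 + k ∧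
      ∀ t, yP < t → t < r → Is w t (· = rr) := by
  obtain ⟨xc, h1, h2⟩ := at_cat.1 hL
  obtain ⟨hLoad, hcat⟩ := at_inter.1 h2
  obtain ⟨ec, hmain, hRII⟩ := at_cat.1 hcat
  have hxc : xc < ln := (main_shape G h hmain).1
  obtain ⟨k, j', hr, hrw, hmid, hnz, hrr⟩ := at_Sync_LC.1 hLoad
  obtain ⟨yP, hS, hpp⟩ := at_cat.1 hmid
  obtain ⟨rfl, hpp'⟩ := at_LC.1 hpp
  obtain ⟨j, y0, yc, hTr, hM, hRec⟩ := at_Sync.1 hS
  obtain ⟨y1, hz, hM⟩ := at_cat.1 hM
  obtain ⟨rfl, hz'⟩ := at_LC.1 hz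
  obtain ⟨y2, hu, hc⟩ := at_cat.1 hM
  obtain ⟨rfl, hc'⟩ := at_LC.1 hc
  obtain ⟨hy0, hq⟩ := liis_chain h j hTr
  have hq2 := liis_div h hnz
  have hy0ln : y0 < ln := lt_ln h (hz'.mono (by rintro a ⟨t, g, rfl⟩; exact ⟨_, _, _, rfl⟩))
  have hdvd : Z ∣ y0 + 1 := (h.hz y0 hy0ln).1 hz'
  have hLo1 := (CntL_dvd h.Zpos y0).1 hdvd
  have hA1 := add_Lo h.Zpos y0
  have hA2 := add_Lo h.Zpos xc
  rw [hq, hq2, hLo1] at hA1
  refine ⟨xc, ec, k, j, y2 + 1, yP, h1.le, hxc, ?_, hmain, hRII, by omega, by simpa using hc',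
    hRec, hpp', by omega, fun t ht1 ht2 => hrr t (by omega) ht2⟩
  omega

end Pool.Agent.H29.CJ
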