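import Pool.Agent.H29.CJ.Core

/-!
# Least solutions: basic facts
-/

set_option autoImplicit false

namespace Pool.Agent.H29.CJ

variable {α ι : Type}

theorem mem_cat {L M : Set (List α)} {w : List α} :
    w ∈ cat L M ↔ ∃ u ∈ L, ∃ v ∈ M, w = u ++ v := Iff.rfl

theorem cat_mono {L L' M M' : Set (List α)} (h : L ⊆ L') (h' : M ⊆ M') : cat L M ⊆ cat L' M' := by
  rintro w ⟨u, hu, v, hv, rfl⟩
  exact ⟨u, h hu, v, h' hv, rfl⟩

theorem Poly.mono {Φ : (ι → Set (List α)) → Set (List α)} (h : Poly Φ)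
    {X Y : ι → Set (List α)} (hXY : ∀ i, X i ⊆ Y i) : Φ X ⊆ Φ Y := by
  induction h with
  | var i => exact hXY i
  | cst L h => exact subset_rfl
  | cat h h' ih ih' => exact cat_mono ih ih'
  | inter h h' ih ih' => exact Set.inter_subset_inter ih ih'
  | union h h' ih ih' => exact Set.union_subset_union ih ih'

theorem Lfp_least {Φ : ι → (ι → Set (List α)) → Set (List α)} {X : ι → Set (List α)}
    (h : ∀ j, Φ j X ⊆ X j) (i : ι) : Lfp Φ i ⊆ X i := fun _ hw => hw X h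

theorem Lfp_closed {Φ : ι → (ι → Set (List α)) → Set (List α)}
    (hm : ∀ j (X Y : ι → Set (List α)), (∀ i, X i ⊆ Y i) → Φ j X ⊆ Φ j Y) (i : ι) :
    Φ i (Lfp Φ) ⊆ Lfp Φ i := fun _ hw X hX =>
  hX i (hm i (Lfp Φ) X (fun j => Lfp_least hX j) hw)

theorem Lfp_eq {Φ : ι → (ι → Set (List α)) → Set (List α)}
    (hm : ∀ j (X Y : ι → Set (List α)), (∀ i, X i ⊆ Y i) → Φ j X ⊆ Φ j Y) (i : ι) :
    Lfp Φ i = Φ i (Lfp Φ) := by
  apply Set.Subset.antisymm
  · exact Lfp_least (X := fun j => Φ j (Lfp Φ)) (fun j => hm j _ _ (fun k => Lfp_closed hm k)) i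
  · exact Lfp_closed hm i

theorem Poly.Lfp_closed {Φ : ι → (ι → Set (List α)) → Set (List α)} (h : ∀ i, Poly (Φ i)) (i : ι) :
    Φ i (Lfp Φ) ⊆ Lfp Φ i := CJ.Lfp_closed (fun j _ _ hXY => (h j).mono hXY) i

theorem Poly.Lfp_eq {Φ : ι → (ι → Set (List α)) → Set (List α)} (h : ∀ i, Poly (Φ i)) (i : ι) :
    Lfp Φ i = Φ i (Lfp Φ) := CJ.Lfp_eq (fun j _ _ hXY => (h j).mono hXY) i

theorem Ex.ev_mono {X Y : ι → Set (List α)} (hXY : ∀ i, X i ⊆ Y i) (e : Ex α ι) :
    e.ev X ⊆ e.ev Y := by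
  induction e with
  | nil => exact subset_rfl
  | eps => exact subset_rfl
  | sym a => exact subset_rfl
  | var i => exact hXY i
  | cat e f ih ih' => exact cat_mono ih ih'
  | inter e f ih ih' => exact Set.inter_subset_inter ih ih'
  | union e f ih ih' => exact Set.union_subset_union ih ih'

end Pool.Agent.H29.CJ
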