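import Pool.Agent.H29.CJ.QCh
import Pool.Agent.H29.CJ.LIIS

/-!
# Soundness of the large steps

Use only the STATEMENTS of the imported files.

`At w (Lg (Sl G) B C) x e`: there is `r` with `At (q1 B false) x r`, `At (LII (Sl G) C) x r`, an `rr` letter at `r`, then non-`mu` letters
and a `mu` letter at `e - 1`.  Apply `q1_sound` (data `k j xb eb yc yP b`) and `LII_sound` (data `xc ec k' j' yc' yP'`).
(1) `yP = yP'` and `k = k'`: both are the last position before `r` carrying `pp`, all later ones below `r` carry `rr` (if `yP < yP'`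
 then `yP'` carries `rr` and `pp`).
(2) `yc = yc'`, `j = j'`: `Rec'` words have letters in `{ee, pp, rr}` and contain exactly one letter `ee` or `pp`.  `yc - 1` carries `cc`
 (from `RI b ⊆ cat univ (LC cc)`, so `0 < yc`), `yc' - 1` carries `cc`, and there is no `cc` in `[yc, yP)` and `[yc', yP)`; so `yc = yc'`.
 The number of letters `ee/pp` in `[yc, yP)` is `j` and `j'` (weight function; induction on the power).
(3) Weights.  `eb - 1` and `ec - 1` carry `mu` (`main_shape`), so `pre wC w eb = 0`, `pre wC w ec = pre wK w ec = 0` (`FS.cmu`).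
 `RI b`: `pre wRI w yc - pre wRI w eb = [b] - 1`, so `(# mu(yc) - wC(yc)) - # mu(eb) = [b] - 1` (`pre_wRI`).
 `RII`: `pre wRII w r - pre wRII w ec = -1`: `# mu(r) + wC(r) - wK(r) - # mu(ec) = -1`.  `FS.crr` at `r`:
 `pre wKM w (r+1) = 0 = pre wKM w r`, so `wK(r) = # mu(r)`.  Hence `wC(r) = # mu(ec) - 1`.
 Between `yc` and `r` only letters `ee, pp, rr`: `wC(yc) = wC(r)`, `# mu(yc) = # mu(r)`.  `# mu(e) = # mu(r) + 1`.
 So with `n = # mu(e)`, `nb = # mu(eb)`, `nc = # mu(ec)`: `nb + nc = n + 1 - [b]`.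
 `1 ≤ nb, nc` (there is a `mu` letter before), `nb ≤ n`, `nc ≤ n` (`pre_mono`, `eb ≤ e`, `ec ≤ e`).  The counts are natural numbers.
(4) Values.  `xb = x + σ`, `σ = k + 2 b2 j + 1 = Lo Z xc`, `xb / Z = x / Z + [b]` (`Flg` for `f = false`), so by `add_Lo`:
 `Lo Z xb = Z (x/Z + [b] + 1) - x - σ = Lo Z x + Z [b] - σ`.  So
 `Z (nb - 1) + Lo Z xb + Z (nc - 1) + Lo Z xc = Z (n - 1 - [b]) + Lo Z x + Z [b] = Z (n - 1) + Lo Z x`.
-/

set_option autoImplicit false

namespace Pool.Agent.H29.CJ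

open Lt

variable {K : ℕ} (G : USys K) {w : List Lt} {Z b1 b2 ln : ℕ}

/-- number of the letters that start a record -/
private def LgS_f (a : Lt) : ℤ := if a = ee ∨ a = pp then 1 else 0

private theorem LgS_clash {i : ℕ} {a b : Lt} (h1 : Is w i (· = a)) (h2 : Is w i (· = b)) :
    a = b := by
  obtain ⟨c, -, h3, h4⟩ := h1.and h2
  exact h3.symm.trans h4

private theorem LgS_rec {i j : ℕ} (h : At w Rec' i j) :
    pre LgS_f w j = pre LgS_f w i + 1 ∧
      ∀ t, i ≤ t → t < j → Is w t (fun a => a = ee ∨ a = pp ∨ a = rr) := by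
  rcases at_union.1 h with h1 | h1
  · obtain ⟨rfl, h2⟩ := at_LC.1 h1
    obtain ⟨a, ha, rfl⟩ := h2
    refine ⟨?_, fun t ht1 ht2 => ?_⟩
    · rw [pre_succ ha]
      rfl
    · obtain rfl : t = i := by omega
      exact ⟨_, ha, Or.inl rfl⟩
  · obtain ⟨k, h2, h3⟩ := at_cat.1 h1
    obtain ⟨rfl, h4⟩ := at_LC.1 h2
    obtain ⟨h5, h6, h7⟩ := at_ST.1 h3
    obtain ⟨a, ha, rfl⟩ := h4
    refine ⟨?_, fun t ht1 ht2 => ?_⟩
    · rw [pre_eq_of_zero h5 h6 (fun t ht1 ht2 => (h7 t ht1 ht2).mono ?_), pre_succ ha]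
      · rfl
      · rintro a rfl
        rfl
    · rcases Nat.eq_or_lt_of_le ht1 with rfl | hlt
      · exact ⟨_, ha, Or.inr (Or.inl rfl)⟩
      · exact (h7 t hlt ht2).mono fun a e => Or.inr (Or.inr e)

private theorem LgS_pw (n : ℕ) : ∀ {i j : ℕ}, At w (pw Rec' n) i j →
    pre LgS_f w j = pre LgS_f w i + n ∧
      ∀ t, i ≤ t → t < j → Is w t (fun a => a = ee ∨ a = pp ∨ a = rr) := by
  induction n with
  | zero =>
    intro i j h
    obtain ⟨rfl, -⟩ := at_eps.1 h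
    exact ⟨by simp, fun t ht1 ht2 => by omega⟩
  | succ n ih =>
    intro i j h
    obtain ⟨k, h1, h2⟩ := at_pw_succ.1 h
    obtain ⟨e1, e2⟩ := LgS_rec h1
    obtain ⟨e3, e4⟩ := ih h2
    refine ⟨?_, fun t ht1 ht2 => ?_⟩
    · rw [e3, e1]
      push_cast
      ring
    · rcases Nat.lt_or_ge t k with ht | ht
      · exact e2 t ht1 ht
      · exact e4 t ht ht2

private theorem LgS_nocc {i : ℕ} (h : Is w i (fun a => a = ee ∨ a = pp ∨ a = rr))
    (h' : Is w i (· = cc)) : False := by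
  obtain ⟨c, -, h3, h4⟩ := h.and h'
  rcases h3 with h3 | h3 | h3 <;>
  · rw [h3] at h4
    cases h4

private theorem LgS_muPos {e : ℕ} (h : Is w (e - 1) (· = mu)) (he : 0 < e) :
    1 ≤ pre cMu w e := by
  obtain ⟨a, ha, rfl⟩ := h
  obtain ⟨e1, rfl⟩ : ∃ e1, e = e1 + 1 := ⟨e - 1, by omega⟩
  rw [Nat.add_sub_cancel] at ha
  rw [pre_succ ha]
  have h1 : pre cMu w 0 ≤ pre cMu w e1 :=
    pre_mono (fun a => by cases a <;> simp [cMu]) (Nat.zero_le _)
  rw [pre_zero] at h1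
  have h2 : cMu mu = 1 := rfl
  omega

theorem Lg_sound (h : FS w Z b1 b2 ln) {B C : Fin K} {x e : ℕ}
    (hL : At w (Lg (Sl G) B C) x e) :
    ∃ (xb eb xc ec nb nc n : ℕ), At w (Sl G (.main B)) xb eb ∧ At w (Sl G (.main C)) xc ec ∧
      pre cMu w eb = nb ∧ pre cMu w ec = nc ∧ pre cMu w e = n ∧
      1 ≤ nb ∧ nb ≤ n ∧ 1 ≤ nc ∧ nc ≤ n ∧ 0 < e ∧ Is w (e - 1) (· = mu) ∧
      (Z * (nb - 1) + Lo Z xb) + (Z * (nc - 1) + Lo Z xc) = Z * (n - 1) + Lo Z x := by
  obtain ⟨r, h1, h2⟩ := at_cat.1 hL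
  obtain ⟨hq, hl⟩ := at_inter.1 h1
  obtain ⟨r1, h3, h4⟩ := at_cat.1 h2
  obtain ⟨rfl, hrr⟩ := at_LC.1 h3
  obtain ⟨e1, h5, h6⟩ := at_cat.1 h4
  obtain ⟨rfl, hmu⟩ := at_LC.1 h6
  obtain ⟨g1, g2, g3⟩ := at_ST.1 h5
  obtain ⟨k, j, xb, eb, yc, yP, b, exb, hF, hB, hRI, hpw, hpp, hr, hrrs⟩ := q1_sound G h hq
  obtain ⟨xc, ec, k', j', yc', yP', hx, hxc, hLo, hC, hRII, hyc', hcc', hpw', hpp', hr',
    hrrs'⟩ := LII_sound G h hl
  -- the cut positions agree
  have eyP : yP' = yP := by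
    rcases Nat.lt_trichotomy yP' yP with hlt | heq | hlt
    · cases LgS_clash hpp (hrrs' yP hlt (by omega))
    · exact heq
    · cases LgS_clash hpp' (hrrs yP' hlt (by omega))
  subst eyP
  obtain rfl : k' = k := by omega
  obtain ⟨f1, f2⟩ := LgS_pw j hpw
  obtain ⟨f3, f4⟩ := LgS_pw j' hpw'
  obtain ⟨hRI1, hRI2⟩ := at_inter.1 hRI
  obtain ⟨yc0, hRI3, hRI4⟩ := at_cat.1 hRI1
  obtain ⟨hyc, hcc⟩ := at_LC.1 hRI4
  have l1 := hpw.le
  have l2 := hpw'.le
  have eyc : yc' = yc := by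
    rcases Nat.lt_trichotomy yc' yc with hlt | heq | hlt
    · exact (LgS_nocc (f4 yc0 (by omega) (by omega)) hcc).elim
    · exact heq
    · exact (LgS_nocc (f2 (yc' - 1) (by omega) (by omega)) hcc').elim
  subst eyc
  obtain rfl : j' = j := by
    have : (j' : ℤ) = j := by omega
    exact_mod_cast this
  -- shapes
  obtain ⟨sb1, sb2, sb3⟩ := main_shape G h hB
  obtain ⟨sc1, sc2, sc3⟩ := main_shape G h hC
  have heb : eb - 1 + 1 = eb := by omega
  have hec : ec - 1 + 1 = ec := by omega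
  have wb := h.cmu _ sb3
  have wc := h.cmu _ sc3
  rw [heb] at wb
  rw [hec] at wc
  -- weights
  obtain ⟨-, -, v1⟩ := at_WT.1 hRI2
  obtain ⟨-, -, v2⟩ := at_WT.1 hRII
  rw [pre_wRI, pre_wRI] at v1
  rw [pre_wRII, pre_wRII] at v2
  have v3 := h.crr _ hrr
  obtain ⟨a, ha, rfl⟩ := hrr
  rw [pre_succ ha, pre_wKM] at v3
  have v3' : wKM rr = 0 := rfl
  have hlen : r < w.length := CntL_lt ha
  have hlet : ∀ t, yc' ≤ t → t < r → Is w t (fun a => a = ee ∨ a = pp ∨ a = rr) := by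
    intro t ht1 ht2
    rcases Nat.lt_trichotomy t yP' with hlt | heq | hlt
    · exact f2 t ht1 hlt
    · rw [heq]
      exact hpp.mono fun a e => Or.inr (Or.inl e)
    · exact (hrrs t hlt ht2).mono fun a e => Or.inr (Or.inr e)
  have v4 : pre wC w r = pre wC w yc' :=
    pre_eq_of_zero (by omega) hlen.le fun t ht1 ht2 => (hlet t ht1 ht2).mono
      (by rintro a (rfl | rfl | rfl) <;> rfl)
  have v5 : pre cMu w r = pre cMu w yc' :=
    pre_eq_of_zero (by omega) hlen.le fun t ht1 ht2 => (hlet t ht1 ht2).mono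
      (by rintro a (rfl | rfl | rfl) <;> rfl)
  have v6 : pre cMu w e1 = pre cMu w (r + 1) :=
    pre_eq_of_zero g1 g2 fun t ht1 ht2 => (g3 t ht1 ht2).mono
      (by
        intro a ha
        cases a <;> first | rfl | exact absurd rfl ha)
  have v7 : pre cMu w (r + 1) = pre cMu w r := by
    rw [pre_succ ha]
    have : cMu rr = 0 := rfl
    omega
  have v8 : pre cMu w (e1 + 1) = pre cMu w e1 + 1 := by
    obtain ⟨c, hc, rfl⟩ := hmu
    rw [pre_succ hc]
    rfl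
  have mono : ∀ {i l : ℕ}, i ≤ l → pre cMu w i ≤ pre cMu w l := fun hil =>
    pre_mono (fun a => by cases a <;> simp [cMu]) hil
  have l3 := hRI.le
  have l4 := hRII.le
  have nb1 := LgS_muPos sb3 (by omega)
  have nc1 := LgS_muPos sc3 (by omega)
  have nb2 : pre cMu w eb ≤ pre cMu w (e1 + 1) := mono (by omega)
  have nc2 : pre cMu w ec ≤ pre cMu w (e1 + 1) := mono (by omega)
  obtain ⟨nb, hnb⟩ : ∃ nb : ℕ, pre cMu w eb = (nb : ℤ) + 1 :=
    ⟨(pre cMu w eb - 1).toNat, by omega⟩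
  obtain ⟨nc, hnc⟩ : ∃ nc : ℕ, pre cMu w ec = (nc : ℤ) + 1 :=
    ⟨(pre cMu w ec - 1).toNat, by omega⟩
  have hbb : (if b = true then (0 : ℤ) else -1) = (if b = true then 1 else 0 : ℤ) - 1 := by
    cases b <;> simp
  have hn : pre cMu w (e1 + 1) = (nb : ℤ) + nc + 1 + (if b = true then 1 else 0 : ℤ) := by
    rw [hbb] at v1
    omega
  -- values
  have u1 := hF.2 rfl
  have u2 := add_Lo h.Zpos xb
  have u3 := add_Lo h.Zpos x
  refine ⟨xb, eb, xc, ec, nb + 1, nc + 1, nb + nc + 1 + (if b = true then 1 else 0), hB, hC,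
    by rw [hnb]; push_cast; ring, by rw [hnc]; push_cast; ring, ?_, by omega, by omega, by omega,
    by omega, by omega, by simpa using hmu, ?_⟩
  · rw [hn]
    cases b <;> simp
  · rw [u1] at u2
    cases b
    · simp only [Bool.false_eq_true, if_false, Nat.add_zero, Nat.add_sub_cancel] at u2 ⊢
      rw [Nat.mul_add Z nb nc]
      omega
    · simp only [if_true, Nat.add_sub_cancel] at u2 ⊢
      rw [Nat.mul_add] at u2 u3
      rw [Nat.mul_add] at u2
      rw [Nat.mul_add, Nat.mul_add]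
      omega

end Pool.Agent.H29.CJ
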