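import Pool.Agent.H29.CJ.FlM

/-!
# Positions of the certificate word: left region and tables

Use only the STATEMENTS of the imported files (`FlM`, `AtL`).

Write `word P = U ++ ((List.range B).flatMap (tabW P) ++ V)` with `U = leftW ++ nu^Nz ++ fi^F` (reassociate; `U.length =
Nz * Z + Nz + F`).  Table `g` starts at `oTab P g`; inside it, `tabW g = tau :: (flatMap recW)`: write
`word P = U' ++ ((List.range (Z/b1)).flatMap (recW P g) ++ V')` with `U'.length = oTab P g + 1` (use
`range_flatMap_split`), so record `j` starts at `oRec P g j`; in a nonempty record, after `br`, rows are the pieces of a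
`flatMap` over `range b1`, all of length `K + 1` (`length_flatMap_const`), so row `k` starts at `oRow P g j k`, and bit `A`
of it is at `oRow P g j k + 1 + A` (`List.getElem?_map`, `List.getElem?_finRange`).
`row_le`, `rec_le`: everything in table `g < B` is before `oTab P B`, and `oMu P g' - 1 ≥ oZone P g' ≥ oTab P B + B > oTab P B`
(zone `g'` is nonempty, its last letter is `mu`).
-/

set_option autoImplicit false

namespace Pool.Agent.H29.CJ

open Lt Classical

variable {K : ℕ} (P : Prm K)

/-- the part before the tables -/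
private noncomputable def MdA_U : List Lt :=
  leftW P ++ (List.replicate P.Nz nu ++ List.replicate P.F fi)

private noncomputable def MdA_V : List Lt :=
  List.replicate P.B th ++ (mainW P ++ (List.replicate (P.B - 1) tp ++ stW P))

private theorem MdA_word :
    word P = MdA_U P ++ ((List.range P.B).flatMap (tabW P) ++ MdA_V P) := by
  unfold word MdA_U MdA_V cenW
  simp only [List.append_assoc]

private theorem MdA_Ulen : (MdA_U P).length = P.Nz * P.Z + P.Nz + P.F := by
  unfold MdA_U leftW
  simp only [List.length_append, List.length_map, List.length_range, List.length_replicate]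
  omega

private theorem MdA_tab {g : ℕ} (hg : g < P.B) :
    ∃ p q, word P = p ++ (tabW P g ++ q) ∧ p.length = oTab P g := by
  obtain ⟨r, hr⟩ := range_flatMap_split (tabW P) hg
  refine ⟨MdA_U P ++ (List.range g).flatMap (tabW P), r ++ MdA_V P, ?_, ?_⟩
  · rw [MdA_word, hr]
    simp only [List.append_assoc]
  · rw [List.length_append, MdA_Ulen]
    rfl

private theorem MdA_rec {g j : ℕ} (hg : g < P.B) (hj : j < P.Z / P.b1) :
    ∃ p q, word P = p ++ (recW P g j ++ q) ∧ p.length = oRec P g j := by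
  obtain ⟨p, q, h1, h2⟩ := MdA_tab P hg
  obtain ⟨r, hr⟩ := range_flatMap_split (recW P g) hj
  refine ⟨p ++ (tau :: (List.range j).flatMap (recW P g)), r ++ q, ?_, ?_⟩
  · rw [h1, tabW, hr]
    simp only [List.append_assoc, List.cons_append]
  · rw [List.length_append, h2, List.length_cons]
    unfold oRec
    omega

private theorem MdA_rowlen (m : ℕ) : (rowW P m).length = K + 1 := by
  unfold rowW
  rw [List.length_cons, List.length_map, List.length_finRange]

private theorem MdA_recCm {g j : ℕ} (hC : P.Cm g j) :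
    recW P g j = br :: (List.range P.b1).flatMap (fun k => rowW P (P.Z * g + P.b1 * j + k + 1)) := by
  unfold recW
  rw [if_pos hC]

private theorem MdA_recEmp {g j : ℕ} (hC : ¬ P.Cm g j) : recW P g j = [emp] := by
  unfold recW
  rw [if_neg hC]

private theorem MdA_row {g j k : ℕ} (hg : g < P.B) (hj : j < P.Z / P.b1) (hC : P.Cm g j)
    (hk : k < P.b1) :
    ∃ p q, word P = p ++ (rowW P (P.Z * g + P.b1 * j + k + 1) ++ q) ∧ p.length = oRow P g j k := by
  obtain ⟨p, q, h1, h2⟩ := MdA_rec P hg hj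
  obtain ⟨r, hr⟩ := range_flatMap_split (fun k => rowW P (P.Z * g + P.b1 * j + k + 1)) hk
  refine ⟨p ++ (br :: (List.range k).flatMap (fun k => rowW P (P.Z * g + P.b1 * j + k + 1))),
    r ++ q, ?_, ?_⟩
  · rw [h1, MdA_recCm P hC, hr]
    simp only [List.append_assoc, List.cons_append]
  · rw [List.length_append, h2, List.length_cons,
      length_flatMap_const (fun k => rowW P (P.Z * g + P.b1 * j + k + 1)) (c := K + 1)
        (fun i _ => MdA_rowlen P _)]
    unfold oRow
    omega

private theorem MdA_recsucc (g j : ℕ) : oRec P g (j + 1) = oRec P g j + (recW P g j).length := by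
  unfold oRec
  rw [length_flatMap_succ]
  omega

private theorem MdA_rowsucc (g j k : ℕ) : oRow P g j (k + 1) = oRow P g j k + (K + 1) := by
  unfold oRow
  rw [Nat.add_mul, Nat.one_mul]
  omega

private theorem MdA_oTab_succ (g : ℕ) : oTab P (g + 1) = oRec P g (P.Z / P.b1) := by
  unfold oTab oRec
  rw [length_flatMap_succ]
  unfold oTab tabW
  rw [List.length_cons]
  omega

private theorem MdA_oTab_mono {g g' : ℕ} (h : g ≤ g') : oTab P g ≤ oTab P g' := by
  unfold oTab
  have := length_flatMap_mono (tabW P) h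
  omega

private theorem MdA_oRec_mono (g : ℕ) {j j' : ℕ} (h : j ≤ j') : oRec P g j ≤ oRec P g j' := by
  unfold oRec
  have := length_flatMap_mono (recW P g) h
  omega

private theorem MdA_recpos (g j : ℕ) : 0 < (recW P g j).length := by
  by_cases hC : P.Cm g j
  · rw [MdA_recCm P hC]
    simp
  · rw [MdA_recEmp P hC]
    simp

private theorem MdA_le_tab {g j : ℕ} (hg : g < P.B) (hj : j < P.Z / P.b1) :
    oRec P g (j + 1) ≤ oTab P P.B := by
  have h1 := MdA_oRec_mono P g (Nat.succ_le_of_lt hj)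
  have h2 := MdA_oTab_mono P (Nat.succ_le_of_lt hg)
  have h3 := MdA_oTab_succ P g
  have h4 : oRec P g (j + 1) ≤ oRec P g (P.Z / P.b1) := h1
  have h5 : oTab P (g + 1) ≤ oTab P P.B := h2
  omega

private theorem MdA_mu (g' : ℕ) : oTab P P.B ≤ oMu P g' - 1 := by
  unfold oMu oZone
  rw [length_flatMap_succ]
  have h1 : 0 < (zoneW P g').length := by
    unfold zoneW
    simp
  omega

private theorem MdA_at0 {w p q u : List Lt} {x : Lt} {n : ℕ} (h1 : w = p ++ ((x :: u) ++ q))
    (h2 : p.length = n) : w[n]? = some x := by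
  subst h1 h2
  rw [List.getElem?_append_right (le_refl _), Nat.sub_self]
  rfl

private theorem MdA_recmem (g j : ℕ) : recW P g j ∈ Rec := by
  by_cases hC : P.Cm g j
  · rw [MdA_recCm P hC]
    right
    refine ⟨[br], ⟨br, rfl, rfl⟩, _, ?_, rfl⟩
    intro x hx
    obtain ⟨k, _, hx⟩ := List.mem_flatMap.1 hx
    unfold rowW at hx
    rcases List.mem_cons.1 hx with hx | hx
    · exact Or.inl hx
    · obtain ⟨A, _, hA⟩ := List.mem_map.1 hx
      exact Or.inr ⟨_, hA.symm⟩
  · rw [MdA_recEmp P hC]
    exact Or.inl ⟨emp, rfl, rfl⟩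

private theorem MdA_rowmem (m : ℕ) : rowW P m ∈ Row := by
  refine ⟨[row], ⟨row, rfl, rfl⟩, (List.finRange K).map (fun A => bit (decide (P.TT A m))), ?_, rfl⟩
  intro x hx
  obtain ⟨A, _, hA⟩ := List.mem_map.1 hx
  exact ⟨_, hA.symm⟩

theorem mdl_left (hP : P.Good) :
    ∀ i < P.Nz * P.Z, (word P)[i]? = some (lefL P i) := by
  intro i hi
  unfold word
  have h1 : i < (leftW P).length := by
    unfold leftW
    rw [List.length_map, List.length_range]
    exact hi
  rw [List.getElem?_append_left h1]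
  unfold leftW
  rw [List.getElem?_map, List.getElem?_range hi]
  rfl

theorem mdl_tau_at (hP : P.Good) :
    ∀ g < P.B, 0 < oRec P g 0 ∧ Is (word P) (oRec P g 0 - 1) (· = tau) ∧
    P.Nz * P.Z ≤ oRec P g 0 - 1 := by
  intro g hg
  have h0 : oRec P g 0 = oTab P g + 1 := by
    unfold oRec
    simp
  obtain ⟨p, q, h1, h2⟩ := MdA_tab P hg
  rw [h0, Nat.add_sub_cancel]
  refine ⟨Nat.succ_pos _, ⟨tau, ?_, rfl⟩, ?_⟩
  · unfold tabW at h1
    exact MdA_at0 h1 h2
  · unfold oTab
    omega

theorem mdl_rec_step (hP : P.Good) :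
    ∀ g < P.B, ∀ j < P.Z / P.b1, At (word P) Rec (oRec P g j) (oRec P g (j + 1)) := by
  intro g hg j hj
  obtain ⟨p, q, h1, h2⟩ := MdA_rec P hg hj
  have h3 := At.mk' p q (w := word P) (u := recW P g j) (by rw [h1, List.append_assoc])
    (MdA_recmem P g j)
  rw [h2] at h3
  rw [MdA_recsucc]
  exact h3

theorem mdl_rec_emp (hP : P.Good) :
    ∀ g < P.B, ∀ j < P.Z / P.b1, ¬ P.Cm g j → Is (word P) (oRec P g j) (· = emp) := by
  intro g hg j hj hC
  obtain ⟨p, q, h1, h2⟩ := MdA_rec P hg hj
  rw [MdA_recEmp P hC] at h1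
  exact ⟨emp, MdA_at0 h1 h2, rfl⟩

theorem mdl_rec_br (hP : P.Good) :
    ∀ g < P.B, ∀ j < P.Z / P.b1, P.Cm g j → Is (word P) (oRec P g j) (· = br) := by
  intro g hg j hj hC
  obtain ⟨p, q, h1, h2⟩ := MdA_rec P hg hj
  rw [MdA_recCm P hC] at h1
  exact ⟨br, MdA_at0 h1 h2, rfl⟩

theorem mdl_row_step (hP : P.Good) :
    ∀ g < P.B, ∀ j < P.Z / P.b1, P.Cm g j → ∀ k < P.b1,
    At (word P) Row (oRow P g j k) (oRow P g j (k + 1)) ∧ Is (word P) (oRow P g j k) (· = row) := by
  intro g hg j hj hC k hk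
  obtain ⟨p, q, h1, h2⟩ := MdA_row P hg hj hC hk
  constructor
  · have h3 := At.mk' p q (w := word P) (u := rowW P (P.Z * g + P.b1 * j + k + 1))
      (by rw [h1, List.append_assoc]) (MdA_rowmem P _)
    rw [h2, MdA_rowlen] at h3
    rw [MdA_rowsucc]
    exact h3
  · unfold rowW at h1
    exact ⟨row, MdA_at0 h1 h2, rfl⟩

theorem mdl_row_bit (hP : P.Good) :
    ∀ g < P.B, ∀ j < P.Z / P.b1, P.Cm g j → ∀ k < P.b1, ∀ A : Fin K,
    (word P)[oRow P g j k + 1 + A]? = some (bit (decide (P.TT A (P.Z * g + P.b1 * j + k + 1)))) := by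
  intro g hg j hj hC k hk A
  obtain ⟨p, q, h1, h2⟩ := MdA_row P hg hj hC hk
  rw [h1, List.getElem?_append_right (by omega)]
  have h3 : oRow P g j k + 1 + (A : ℕ) - p.length = (A : ℕ) + 1 := by omega
  rw [h3, List.getElem?_append_left (by rw [MdA_rowlen]; have := A.2; omega)]
  unfold rowW
  have h5 : (List.finRange K)[(A : ℕ)]? = some A := by
    have h6 : (A : ℕ) < (List.finRange K).length := by
      rw [List.length_finRange]
      exact A.2
    rw [List.getElem?_eq_getElem h6]
    simp
  rw [List.getElem?_cons_succ, List.getElem?_map, h5]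
  rfl

theorem mdl_row_le (hP : P.Good) :
    ∀ g < P.B, ∀ j < P.Z / P.b1, P.Cm g j → ∀ k < P.b1, ∀ A : Fin K, ∀ g' < P.B,
    oRow P g j k + 1 + A < oMu P g' - 1 := by
  intro g hg j hj hC k hk A g' hg'
  have h1 := MdA_mu P g'
  have h2 := MdA_le_tab P hg hj
  have h3 := MdA_recsucc P g j
  rw [MdA_recCm P hC, List.length_cons,
    length_flatMap_const (fun k => rowW P (P.Z * g + P.b1 * j + k + 1)) (c := K + 1)
      (fun i _ => MdA_rowlen P _)] at h3
  have h4 : oRow P g j k = oRec P g j + 1 + k * (K + 1) := rfl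
  have h5 : (k + 1) * (K + 1) ≤ P.b1 * (K + 1) := Nat.mul_le_mul_right _ hk
  rw [Nat.add_mul, Nat.one_mul] at h5
  have h6 := A.2
  omega

theorem mdl_rec_le (hP : P.Good) :
    ∀ g < P.B, ∀ j < P.Z / P.b1, ∀ g' < P.B, oRec P g j < oMu P g' - 1 := by
  intro g hg j hj g' hg'
  have h1 := MdA_mu P g'
  have h2 := MdA_le_tab P hg hj
  have h3 := MdA_recsucc P g j
  have h4 := MdA_recpos P g j
  omega

end Pool.Agent.H29.CJ
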