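import Pool.Agent.H29.CJ.Core

/-!
# The scale at which few values are in the middle range

Use only `Core` (the structure `USys`).

`sg0 G p m` is the least number occurring as a part in some representation `m = b + c`, `G.T p.1 b`, `G.T p.2 c`.
For fixed `p, m` the sets `[M / N^(2r), M / N^(2r-2))`, `r = 3, ..., Q + 2`, are pairwise disjoint (`M / N^(2r)` is decreasing in `r`, and
`2 (r+1) - 2 = 2 r`), so `Σ_r #{m ∈ [1, M] | ∃ p, Mid ... r ... p m} ≤ Σ_r Σ_p #{m | Mid ... r ... p m} ≤ Σ_p Σ_m 1 ≤ K² M`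
(number of pairs `p : Fin K × Fin K` is `K²`).  The smallest of the `Q` summands is at most `K² M / Q`.
-/

set_option autoImplicit false

namespace Pool.Agent.H29.CJ

variable {K : ℕ}

/-- a representation of `m` for the pair `p` -/
def Rp (G : USys K) (p : Fin K × Fin K) (m b c : ℕ) : Prop := b + c = m ∧ G.T p.1 b ∧ G.T p.2 c

/-- the least part in a representation of `m` -/
noncomputable def sg0 (G : USys K) (p : Fin K × Fin K) (m : ℕ) : ℕ :=
  sInf {s | ∃ b c, Rp G p m b c ∧ (s = b ∨ s = c)}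

/-- the middle range -/
def Mid (G : USys K) (M Y LY : ℕ) (p : Fin K × Fin K) (m : ℕ) : Prop :=
  1 ≤ m ∧ m ≤ M ∧ (∃ b c, Rp G p m b c) ∧ Y ≤ sg0 G p m ∧ sg0 G p m < LY

/-- different levels give disjoint middle ranges -/
private theorem para_disj (G : USys K) {N M : ℕ} (hN : 2 ≤ N) {r r' : ℕ} (hr : r < r')
    (p : Fin K × Fin K) (m : ℕ) (h : Mid G M (M / N ^ (2 * r)) (M / N ^ (2 * r - 2)) p m)
    (h' : Mid G M (M / N ^ (2 * r')) (M / N ^ (2 * r' - 2)) p m) : False := by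
  obtain ⟨_, _, _, h1, _⟩ := h
  obtain ⟨_, _, _, _, h2⟩ := h'
  have h3 : N ^ (2 * r) ≤ N ^ (2 * r' - 2) := Nat.pow_le_pow_right (by omega) (by omega)
  have h4 : M / N ^ (2 * r' - 2) ≤ M / N ^ (2 * r) :=
    Nat.div_le_div_left h3 (pow_pos (by omega) _)
  omega

open Classical in
theorem exists_level (G : USys K) {N Q M : ℕ} (hQ : 0 < Q) (hN : 2 ≤ N) :
    ∃ r, 3 ≤ r ∧ r < Q + 3 ∧
      Q * ((Finset.Icc 1 M).filter
        (fun m => ∃ p, Mid G M (M / N ^ (2 * r)) (M / N ^ (2 * r - 2)) p m)).card ≤ K ^ 2 * M := by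
  by_contra hcon
  push Not at hcon
  let W : ℕ → Fin K × Fin K → Finset ℕ := fun r p => (Finset.Icc 1 M).filter
    (fun m => Mid G M (M / N ^ (2 * r)) (M / N ^ (2 * r - 2)) p m)
  let V : ℕ → Finset ℕ := fun r => (Finset.Icc 1 M).filter
    (fun m => ∃ p, Mid G M (M / N ^ (2 * r)) (M / N ^ (2 * r - 2)) p m)
  have hV : ∀ r, (V r).card ≤ ∑ p, (W r p).card := by
    intro r
    have h1 : V r ⊆ Finset.univ.biUnion (W r) := by
      intro m hm
      obtain ⟨hm1, p, hp⟩ := Finset.mem_filter.1 hm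
      exact Finset.mem_biUnion.2 ⟨p, Finset.mem_univ p, Finset.mem_filter.2 ⟨hm1, hp⟩⟩
    exact (Finset.card_le_card h1).trans Finset.card_biUnion_le
  have hW : ∀ p, ∑ r ∈ Finset.Ico 3 (Q + 3), (W r p).card ≤ M := by
    intro p
    rw [← Finset.card_biUnion]
    · have h1 : (Finset.Ico 3 (Q + 3)).biUnion (fun r => W r p) ⊆ Finset.Icc 1 M := by
        intro m hm
        obtain ⟨r, _, hr⟩ := Finset.mem_biUnion.1 hm
        exact (Finset.mem_filter.1 hr).1
      have h2 := Finset.card_le_card h1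
      rwa [Nat.card_Icc, Nat.add_sub_cancel] at h2
    · intro r _ r' _ hne
      refine Finset.disjoint_left.2 fun m hm hm' => ?_
      have h1 := (Finset.mem_filter.1 hm).2
      have h2 := (Finset.mem_filter.1 hm').2
      rcases lt_or_gt_of_ne hne with h | h
      · exact para_disj G hN h p m h1 h2
      · exact para_disj G hN h p m h2 h1
  have hsum : ∑ r ∈ Finset.Ico 3 (Q + 3), (V r).card ≤ K ^ 2 * M := by
    calc ∑ r ∈ Finset.Ico 3 (Q + 3), (V r).card
        ≤ ∑ r ∈ Finset.Ico 3 (Q + 3), ∑ p, (W r p).card := Finset.sum_le_sum fun r _ => hV r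
      _ = ∑ p, ∑ r ∈ Finset.Ico 3 (Q + 3), (W r p).card := Finset.sum_comm
      _ ≤ ∑ _p : Fin K × Fin K, M := Finset.sum_le_sum fun p _ => hW p
      _ = K ^ 2 * M := by
        rw [Finset.sum_const, Finset.card_univ, Fintype.card_prod, Fintype.card_fin, smul_eq_mul,
          sq]
  have hlt : ∑ _r ∈ Finset.Ico 3 (Q + 3), K ^ 2 * M <
      ∑ r ∈ Finset.Ico 3 (Q + 3), Q * (V r).card := by
    refine Finset.sum_lt_sum_of_nonempty ⟨3, Finset.mem_Ico.2 ⟨le_rfl, by omega⟩⟩ fun r hr => ?_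
    obtain ⟨h1, h2⟩ := Finset.mem_Ico.1 hr
    exact hcon r h1 h2
  rw [Finset.sum_const, Nat.card_Ico, Nat.add_sub_cancel, smul_eq_mul, ← Finset.mul_sum] at hlt
  exact absurd (Nat.mul_le_mul_left Q hsum) (not_le.2 hlt)

end Pool.Agent.H29.CJ
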