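import Pool.Agent.H29.CJ.ParA
import Pool.Agent.H29.CJ.CpLen

/-!
# The parameters of the certificate: selection conditions

Use only definitions.

Write `Y = M / N^(2r)`, `LY = M / N^(2r-2)`, `Z = M / N^(2r-1)`, `B = N^(2r-1)`; by divisibility (`N^(2r) ∣ M`, `0 < M`) these are exact:
`M = N^(2r) Y`, `Z = N Y`, `LY = N Z`, `Z B = M`, all positive; `Y ≤ Z < LY` (`N ≥ 2`).
`mkP_good`: `b1 = N ∣ Z = N Y`; `2 b2 ∣ Z` by hypothesis.
`mkP_sel`: `TTeq` by definition; `hY`: `m` itself is the witness in `Cm`; `hNz`: `LY / Z = N`, `Z B / LY = M / LY = N^(2r-2)`, equality.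
`hsel`: let `m ≤ M` have a representation for `p`.  `m ≥ 1` by `G.T0`.  The set in `sg0` is nonempty; `Nat.sInf_mem` gives a representation with a
part equal to `σ = sg0 G p m`, and all parts of all representations are `≥ σ` (`Nat.sInf_le`).
 `σ < Y`: first alternative.  `Y ≤ σ < LY`: `Mid G M Y LY p m`, so `CmV` (witness `m`), third alternative with the same representation.
 `LY ≤ σ`: by `hS` there is a representation with `b ∈ S` or `c ∈ S`; both parts are `≥ σ ≥ LY`; `MnV` of the part in `S` holds with itself as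
 witness: second alternative.
-/

set_option autoImplicit false

namespace Pool.Agent.H29.CJ

open Classical

variable {K : ℕ}

/-- The parameters of the certificate at level `r`. -/
noncomputable def mkP (G : USys K) (M N r b2 F : ℕ) (S : Finset ℕ) : Prm K where
  Z := M / N ^ (2 * r - 1)
  B := N ^ (2 * r - 1)
  b1 := N
  b2 := b2
  Nz := N + N ^ (2 * r - 2) + 4
  F := F
  TT := G.T
  Cm := fun g j => ∃ m, 1 ≤ m ∧ m ≤ M ∧ (m - 1) / (M / N ^ (2 * r - 1)) = g ∧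
    (m - 1) % (M / N ^ (2 * r - 1)) / N = j ∧
    ((m - 1) % (M / N ^ (2 * r - 1)) + 1 ≤ M / N ^ (2 * r) ∨
      ∃ p, Mid G M (M / N ^ (2 * r)) (M / N ^ (2 * r - 2)) p m)
  Mn := fun i j => ∃ s ∈ S, (s - 1) / (M / N ^ (2 * r - 1)) = i ∧
    (s - 1) % (M / N ^ (2 * r - 1)) / (2 * b2) = j

theorem parB_arith {M N r : ℕ} (hN : 2 ≤ N) (hr : 3 ≤ r) (hM : 0 < M) (hd : N ^ (2 * r) ∣ M) :
    ∃ Y, 0 < Y ∧ M = N ^ (2 * r) * Y ∧ M / N ^ (2 * r) = Y ∧ M / N ^ (2 * r - 1) = N * Y ∧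
      M / N ^ (2 * r - 2) = N * (N * Y) ∧ N * Y * N ^ (2 * r - 1) = M ∧
      N * (N * Y) * N ^ (2 * r - 2) = M := by
  obtain ⟨Y, hY⟩ := hd
  have hNp : ∀ k, 0 < N ^ k := fun k => Nat.pow_pos (by omega)
  have e1 : N ^ (2 * r) = N * N ^ (2 * r - 1) := by
    rw [← pow_succ']
    congr 1
    omega
  have e2 : N ^ (2 * r - 1) = N * N ^ (2 * r - 2) := by
    rw [← pow_succ']
    congr 1
    omega
  have f1 : N * Y * N ^ (2 * r - 1) = M := by
    rw [hY, e1]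
    ring
  have f2 : N * (N * Y) * N ^ (2 * r - 2) = M := by
    rw [hY, e1, e2]
    ring
  refine ⟨Y, ?_, hY, ?_, ?_, ?_, f1, f2⟩
  · rcases Nat.eq_zero_or_pos Y with h | h
    · rw [h, Nat.mul_zero] at hY
      omega
    · exact h
  · rw [hY, Nat.mul_div_cancel_left _ (hNp _)]
  · rw [← f1, Nat.mul_div_cancel _ (hNp _)]
  · rw [← f2, Nat.mul_div_cancel _ (hNp _)]

theorem mkP_good (G : USys K) {M N r b2 F : ℕ} {S : Finset ℕ} (hN : 2 ≤ N) (hr : 3 ≤ r)
    (hM : 0 < M) (hd : N ^ (2 * r) ∣ M) (hb : 0 < b2) (hd' : 2 * b2 ∣ M / N ^ (2 * r - 1)) :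
    (mkP G M N r b2 F S).Good := by
  obtain ⟨Y, y0, y1, y2, y3, y4, y5, y6⟩ := parB_arith hN hr hM hd
  refine ⟨?_, ?_, ?_, ?_, hb, hd', ?_⟩
  · show 0 < M / N ^ (2 * r - 1)
    rw [y3]
    exact Nat.mul_pos (by omega) y0
  · exact Nat.pow_pos (by omega)
  · show 0 < N
    omega
  · show N ∣ M / N ^ (2 * r - 1)
    rw [y3]
    exact Nat.dvd_mul_right N Y
  · show 0 < N + N ^ (2 * r - 2) + 4
    omega

theorem mkP_sel (G : USys K) {M N r b2 F : ℕ} {S : Finset ℕ} (hN : 2 ≤ N) (hr : 3 ≤ r)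
    (hM : 0 < M) (hd : N ^ (2 * r) ∣ M) (hb : 0 < b2) (hd' : 2 * b2 ∣ M / N ^ (2 * r - 1))
    (hS : ∀ p m, m ≤ M → (∃ b c, Rp G p m b c) → ∃ b c, Rp G p m b c ∧ (b ∈ S ∨ c ∈ S)) :
    Sel (mkP G M N r b2 F S) G (M / N ^ (2 * r)) (M / N ^ (2 * r - 2)) ∧
      (mkP G M N r b2 F S).Z * (mkP G M N r b2 F S).B = M := by
  obtain ⟨Y, y0, y1, y2, y3, y4, y5, y6⟩ := parB_arith hN hr hM hd
  have hZB : (mkP G M N r b2 F S).Z * (mkP G M N r b2 F S).B = M := by
    show M / N ^ (2 * r - 1) * N ^ (2 * r - 1) = M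
    rw [y3]
    exact y5
  have hYZ : Y ≤ N * Y := Nat.le_mul_of_pos_left Y (by omega)
  have hZL : N * Y < N * (N * Y) := by
    have h1 : 0 < N * Y := Nat.mul_pos (by omega) y0
    have h2 : 2 * (N * Y) ≤ N * (N * Y) := Nat.mul_le_mul_right _ hN
    omega
  refine ⟨⟨mkP_good G hN hr hM hd hb hd', fun _ _ => Iff.rfl, ?_, ?_, ?_, ?_, ?_, ?_⟩, hZB⟩
  · rw [y2]
    exact y0
  · rw [y2, y4]
    omega
  · show M / N ^ (2 * r - 1) < M / N ^ (2 * r - 2)
    rw [y3, y4]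
    exact hZL
  · intro m h1 h2 h3
    rw [hZB] at h2
    exact ⟨m, h1, h2, rfl, rfl, Or.inl h3⟩
  · intro p m hm hex
    rw [hZB] at hm
    have hex' : ∃ b c, Rp G p m b c := hex
    have hne : {s | ∃ b c, Rp G p m b c ∧ (s = b ∨ s = c)}.Nonempty := by
      obtain ⟨b, c, h⟩ := hex'
      exact ⟨b, b, c, h, Or.inl rfl⟩
    have hmem := Nat.sInf_mem hne
    have hle : ∀ b c, Rp G p m b c → sg0 G p m ≤ b ∧ sg0 G p m ≤ c := fun b c h =>
      ⟨Nat.sInf_le ⟨b, c, h, Or.inl rfl⟩, Nat.sInf_le ⟨b, c, h, Or.inr rfl⟩⟩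
    have hsg : ∃ b c, Rp G p m b c ∧ (sg0 G p m = b ∨ sg0 G p m = c) := hmem
    rcases Nat.lt_or_ge (sg0 G p m) (M / N ^ (2 * r)) with h | h
    · left
      obtain ⟨b, c, ⟨r1, r2, r3⟩, h4⟩ := hsg
      refine ⟨b, c, r1, r2, r3, ?_⟩
      rcases h4 with h4 | h4
      · left
        omega
      · right
        omega
    · right
      rcases Nat.lt_or_ge (sg0 G p m) (M / N ^ (2 * r - 2)) with h' | h'
      · right
        obtain ⟨b, c, ⟨r1, r2, r3⟩, h4⟩ := hsg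
        have hm1 : 1 ≤ m := by
          rcases Nat.eq_zero_or_pos b with hb0 | hb0
          · rw [hb0] at r2
            exact absurd r2 (G.T0 _)
          · omega
        refine ⟨⟨m, hm1, hm, rfl, rfl, Or.inr ⟨p, hm1, hm, hex', h, h'⟩⟩, b, c, r1, r2, r3, ?_⟩
        rcases h4 with h4 | h4
        · left
          omega
        · right
          omega
      · left
        obtain ⟨b, c, hr1, hr2⟩ := hS p m hm hex'
        obtain ⟨l1, l2⟩ := hle b c hr1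
        obtain ⟨r1, r2, r3⟩ := hr1
        refine ⟨b, c, r1, r2, r3, h'.trans l1, h'.trans l2, ?_⟩
        rcases hr2 with h5 | h5
        · exact Or.inl ⟨b, h5, rfl, rfl⟩
        · exact Or.inr ⟨c, h5, rfl, rfl⟩
  · rw [hZB]
    show M / N ^ (2 * r - 2) / (M / N ^ (2 * r - 1)) + M / (M / N ^ (2 * r - 2)) + 4
      ≤ N + N ^ (2 * r - 2) + 4
    have g1 : M / N ^ (2 * r - 2) / (M / N ^ (2 * r - 1)) = N := by
      rw [y3, y4]
      exact Nat.mul_div_cancel N (Nat.mul_pos (by omega) y0)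
    have g2 : M / (M / N ^ (2 * r - 2)) = N ^ (2 * r - 2) := by
      rw [y4]
      conv_lhs => rw [← y6]
      exact Nat.mul_div_cancel_left _ (by omega)
    rw [g1, g2]

end Pool.Agent.H29.CJ
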