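import Pool.Agent.H29.CJ.LfpB

/-!
# Least solutions of polynomial systems with conjunctive constants are conjunctive

Proof.  (1) `Poly.toEx`: for every `Poly Φ` (over `ι`) there are `n`, `F : Fin n → Ex α (Fin n)` and
`e : Ex α (ι ⊕ Fin n)` with `Φ X = e.ev (Sum.elim X (Lfp (fun j Y => (F j).ev Y)))` for all `X`.
Induction on `Poly`: `var i`: `n = 0`, `e = var (inl i)`.  `cst L h`: `h` gives `n, F, i`, take
`e = var (inr i)`.  `cat`, `inter`, `union`: from `(n₁, F₁, e₁)` and `(n₂, F₂, e₂)` take `n₁ + n₂`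
(or first work with an arbitrary finite index type and `Sum`), the system being the disjoint union;
the least solution of a disjoint union is componentwise the least solution of the parts: use
`Lfp_least`, `Lfp_closed` in both directions (for the part-to-whole direction extend a closed family
of the part by the least solution of the other part or by `univ`).
It is convenient to state everything for an arbitrary `Finite` index type `κ : Type` in place of
`Fin n` and to define `Ex.rename (g : κ → κ') : Ex α κ → Ex α κ'` with `(e.rename g).ev X = e.ev (X ∘ g)`;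
at the very end transport along an equivalence `κ ≃ Fin n` (`isConj_of_finite`).
(2) Main theorem.  For `Φ : ι → _` with `∀ i, Poly (Φ i)` choose `κ i, F i, e i` from (1).  The big
system has index type `ι ⊕ (Σ i, κ i)`, with `G (inl i) = (e i)` renamed by
`Sum.elim inl (fun k => inr ⟨i, k⟩)` and `G (inr ⟨i, k⟩) = (F i k)` renamed by `k ↦ inr ⟨i, k⟩`.
Its least solution is `Sum.elim (Lfp Φ) (fun ⟨i, k⟩ => Lfp (F i) k)`:
* `⊆`: this family is closed (by `Lfp_closed` for `Φ`, which is monotone by `Poly.mono`, and for `F i`).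
* `⊇`: let `Y` be closed for `G`.  For each `i` the family `k ↦ Y (inr ⟨i, k⟩)` is closed for `F i`, so
  `Lfp (F i) k ⊆ Y (inr ⟨i, k⟩)`.  Hence `Φ i (Y ∘ inl) = (e i).ev (Sum.elim (Y ∘ inl) (Lfp (F i)))
  ⊆ (e i).ev (Sum.elim (Y ∘ inl) (fun k => Y (inr ⟨i,k⟩))) ⊆ Y (inl i)` (monotonicity `Ex.ev_mono`), so
  `Y ∘ inl` is closed for `Φ` and `Lfp Φ i ⊆ Y (inl i)`.
-/

set_option autoImplicit false

namespace Pool.Agent.H29.CJ

variable {α ι : Type}

/-- Renaming of the variables of an expression. -/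
def PolyC_ren {κ : Type} (g : ι → κ) : Ex α ι → Ex α κ
  | .nil => .nil
  | .eps => .eps
  | .sym a => .sym a
  | .var i => .var (g i)
  | .cat e f => .cat (PolyC_ren g e) (PolyC_ren g f)
  | .inter e f => .inter (PolyC_ren g e) (PolyC_ren g f)
  | .union e f => .union (PolyC_ren g e) (PolyC_ren g f)

theorem PolyC_ren_ev {κ : Type} (g : ι → κ) (X : κ → Set (List α)) (e : Ex α ι) :
    (PolyC_ren g e).ev X = e.ev (fun i => X (g i)) := by
  induction e with
  | nil => rfl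
  | eps => rfl
  | sym a => rfl
  | var i => rfl
  | cat e f ih ih' => simp only [PolyC_ren, Ex.ev, ih, ih']
  | inter e f ih ih' => simp only [PolyC_ren, Ex.ev, ih, ih']
  | union e f ih ih' => simp only [PolyC_ren, Ex.ev, ih, ih']

/-- the operator family of a system -/
def PolyC_op {κ : Type} (F : κ → Ex α κ) : κ → (κ → Set (List α)) → Set (List α) :=
  fun j X => (F j).ev X

theorem PolyC_closed {κ : Type} (F : κ → Ex α κ) (i : κ) :
    PolyC_op F i (Lfp (PolyC_op F)) ⊆ Lfp (PolyC_op F) i :=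
  CJ.Lfp_closed (fun j _ _ hXY => Ex.ev_mono hXY (F j)) i

/-- Any finite index type may be used in the definition of `IsConj`. -/
theorem isConj_of_finite [Finite ι] (F : ι → Ex α ι) (i : ι) :
    IsConj (Lfp (fun j X => (F j).ev X) i) := by
  obtain ⟨n, ⟨σ⟩⟩ := Finite.exists_equiv_fin ι
  refine ⟨n, fun j => PolyC_ren σ (F (σ.symm j)), σ i, ?_⟩
  apply Set.Subset.antisymm
  · intro w hw X hX
    apply hw (fun k => X (σ k))
    intro j
    have h := hX (σ j)
    simp only [Equiv.symm_apply_apply, PolyC_ren_ev] at h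
    exact h
  · intro w hw X hX
    have h := hw (fun k => X (σ.symm k)) (by
      intro j
      simp only [PolyC_ren_ev, Equiv.symm_apply_apply]
      exact hX (σ.symm j))
    simp only [Equiv.symm_apply_apply] at h
    exact h

/-- the disjoint union of two systems -/
def PolyC_sum {κ₁ κ₂ : Type} (F₁ : κ₁ → Ex α κ₁) (F₂ : κ₂ → Ex α κ₂) :
    κ₁ ⊕ κ₂ → Ex α (κ₁ ⊕ κ₂) :=
  Sum.elim (fun j => PolyC_ren Sum.inl (F₁ j)) (fun j => PolyC_ren Sum.inr (F₂ j))

theorem PolyC_sum_Lfp {κ₁ κ₂ : Type} (F₁ : κ₁ → Ex α κ₁) (F₂ : κ₂ → Ex α κ₂) (x : κ₁ ⊕ κ₂) :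
    Lfp (PolyC_op (PolyC_sum F₁ F₂)) x =
      Sum.elim (Lfp (PolyC_op F₁)) (Lfp (PolyC_op F₂)) x := by
  apply Set.Subset.antisymm
  · apply Lfp_least
    rintro (j | j)
    · show (PolyC_ren Sum.inl (F₁ j)).ev _ ⊆ Lfp (PolyC_op F₁) j
      rw [PolyC_ren_ev]
      exact PolyC_closed F₁ j
    · show (PolyC_ren Sum.inr (F₂ j)).ev _ ⊆ Lfp (PolyC_op F₂) j
      rw [PolyC_ren_ev]
      exact PolyC_closed F₂ j
  · rcases x with i | i
    · intro w hw Y hY
      refine hw (fun k => Y (Sum.inl k)) (fun j => ?_)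
      have h := hY (Sum.inl j)
      change (PolyC_ren Sum.inl (F₁ j)).ev Y ⊆ _ at h
      rw [PolyC_ren_ev] at h
      exact h
    · intro w hw Y hY
      refine hw (fun k => Y (Sum.inr k)) (fun j => ?_)
      have h := hY (Sum.inr j)
      change (PolyC_ren Sum.inr (F₂ j)).ev Y ⊆ _ at h
      rw [PolyC_ren_ev] at h
      exact h

/-- two operators with a common system of constants -/
theorem PolyC_join {Φ Ψ : (ι → Set (List α)) → Set (List α)}
    (h : ∃ (κ : Type) (_ : Finite κ) (F : κ → Ex α κ) (e : Ex α (ι ⊕ κ)),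
      ∀ X, Φ X = e.ev (Sum.elim X (Lfp (PolyC_op F))))
    (h' : ∃ (κ : Type) (_ : Finite κ) (F : κ → Ex α κ) (e : Ex α (ι ⊕ κ)),
      ∀ X, Ψ X = e.ev (Sum.elim X (Lfp (PolyC_op F)))) :
    ∃ (κ : Type) (_ : Finite κ) (F : κ → Ex α κ) (e e' : Ex α (ι ⊕ κ)),
      ∀ X, Φ X = e.ev (Sum.elim X (Lfp (PolyC_op F))) ∧
        Ψ X = e'.ev (Sum.elim X (Lfp (PolyC_op F))) := by
  obtain ⟨κ₁, h₁, F₁, e₁, H₁⟩ := h
  obtain ⟨κ₂, h₂, F₂, e₂, H₂⟩ := h'
  refine ⟨κ₁ ⊕ κ₂, inferInstance, PolyC_sum F₁ F₂, PolyC_ren (Sum.map id Sum.inl) e₁,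
    PolyC_ren (Sum.map id Sum.inr) e₂, fun X => ⟨?_, ?_⟩⟩
  · rw [PolyC_ren_ev, H₁ X]
    congr 1
    funext i
    rcases i with i | i
    · rfl
    · exact (PolyC_sum_Lfp F₁ F₂ (Sum.inl i)).symm
  · rw [PolyC_ren_ev, H₂ X]
    congr 1
    funext i
    rcases i with i | i
    · rfl
    · exact (PolyC_sum_Lfp F₁ F₂ (Sum.inr i)).symm

theorem PolyC_toEx {Φ : (ι → Set (List α)) → Set (List α)} (h : Poly Φ) :
    ∃ (κ : Type) (_ : Finite κ) (F : κ → Ex α κ) (e : Ex α (ι ⊕ κ)),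
      ∀ X, Φ X = e.ev (Sum.elim X (Lfp (PolyC_op F))) := by
  induction h with
  | var i => exact ⟨Empty, inferInstance, fun x => x.elim, .var (Sum.inl i), fun X => rfl⟩
  | cst L h =>
    obtain ⟨n, F, i, hL⟩ := h
    exact ⟨Fin n, inferInstance, F, .var (Sum.inr i), fun X => hL⟩
  | cat h h' ih ih' =>
    obtain ⟨κ, hκ, F, e, e', H⟩ := PolyC_join ih ih'
    exact ⟨κ, hκ, F, .cat e e', fun X => by simp only [Ex.ev, ← (H X).1, ← (H X).2]⟩
  | inter h h' ih ih' =>
    obtain ⟨κ, hκ, F, e, e', H⟩ := PolyC_join ih ih'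
    exact ⟨κ, hκ, F, .inter e e', fun X => by simp only [Ex.ev, ← (H X).1, ← (H X).2]⟩
  | union h h' ih ih' =>
    obtain ⟨κ, hκ, F, e, e', H⟩ := PolyC_join ih ih'
    exact ⟨κ, hκ, F, .union e e', fun X => by simp only [Ex.ev, ← (H X).1, ← (H X).2]⟩

/-- Least solutions of polynomial systems with conjunctive constants are conjunctive. -/
theorem isConj_Lfp [Finite ι] {Φ : ι → (ι → Set (List α)) → Set (List α)}
    (h : ∀ i, Poly (Φ i)) (i : ι) : IsConj (Lfp Φ i) := by
  choose κ hκ F e he using fun i => PolyC_toEx (h i)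
  have : ∀ i, Finite (κ i) := hκ
  let G : (ι ⊕ (Σ i, κ i)) → Ex α (ι ⊕ (Σ i, κ i)) :=
    Sum.elim (fun i => PolyC_ren (Sum.elim Sum.inl (fun k => Sum.inr ⟨i, k⟩)) (e i))
      (fun p => PolyC_ren (fun k => Sum.inr ⟨p.1, k⟩) (F p.1 p.2))
  have hG : Lfp (PolyC_op G) (Sum.inl i) = Lfp Φ i := by
    apply Set.Subset.antisymm
    · refine Lfp_least (X := Sum.elim (Lfp Φ) (fun p => Lfp (PolyC_op (F p.1)) p.2)) ?_ (Sum.inl i)
      rintro (j | j)
      · show (PolyC_ren (Sum.elim Sum.inl (fun k => Sum.inr ⟨j, k⟩) : ι ⊕ κ j → ι ⊕ (Σ i, κ i))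
          (e j)).ev _ ⊆ Lfp Φ j
        rw [PolyC_ren_ev]
        have h1 : (fun x : ι ⊕ κ j => (Sum.elim (Lfp Φ) (fun p : (Σ i, κ i) =>
            Lfp (PolyC_op (F p.1)) p.2)) (Sum.elim Sum.inl (fun k => Sum.inr ⟨j, k⟩) x)) =
            Sum.elim (Lfp Φ) (Lfp (PolyC_op (F j))) := by
          funext x
          rcases x with x | x
          · rfl
          · rfl
        rw [h1, ← he j]
        exact Poly.Lfp_closed h j
      · show (PolyC_ren (fun k => Sum.inr ⟨j.1, k⟩ : κ j.1 → ι ⊕ (Σ i, κ i))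
          (F j.1 j.2)).ev _ ⊆ Lfp (PolyC_op (F j.1)) j.2
        rw [PolyC_ren_ev]
        exact PolyC_closed (F j.1) j.2
    · intro w hw Y hY
      refine hw (fun j => Y (Sum.inl j)) (fun j => ?_)
      have h1 : ∀ k : κ j, Lfp (PolyC_op (F j)) k ⊆ Y (Sum.inr ⟨j, k⟩) := by
        intro k
        refine Lfp_least (X := fun k => Y (Sum.inr ⟨j, k⟩)) ?_ k
        intro l
        have h2 := hY (Sum.inr ⟨j, l⟩)
        change (PolyC_ren (fun k => Sum.inr ⟨j, k⟩) (F j l)).ev Y ⊆ _ at h2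
        rw [PolyC_ren_ev] at h2
        exact h2
      have h3 := hY (Sum.inl j)
      change (PolyC_ren (Sum.elim Sum.inl (fun k => Sum.inr ⟨j, k⟩)) (e j)).ev Y ⊆ _ at h3
      rw [PolyC_ren_ev] at h3
      rw [he j]
      refine Set.Subset.trans (Ex.ev_mono ?_ (e j)) h3
      rintro (x | x)
      · exact subset_rfl
      · exact h1 x
  have h4 := isConj_of_finite G (Sum.inl i)
  change IsConj (Lfp (PolyC_op G) (Sum.inl i)) at h4
  rw [hG] at h4
  exact h4

end Pool.Agent.H29.CJ
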