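import Pool.Agent.H29.CJ.MSh

/-!
# Soundness of the peeling nonterminals

Use only the STATEMENTS of the imported files.

Unfold with `sl_eq` and `Phi`; use `at_cat, at_union, at_ite, at_LC`.
`q3 B f` at `[x, y)`: `nz`, `main B`, `RI f`: the `nz` letter at `x < ln` is not a `z` letter, so `(x+1)/Z = x/Z`.  Or `f = false` and
`z`, `main B`, `RI true`: `(x+1)/Z = x/Z + 1` (`Z ∣ x + 1`).  Here `x < ln` (`lt_ln`), `xb = x + 1`.
`q2 B f` at `[x, y)` (strong induction on `y - x`): `Tr false`, `q2 B f`, `Rec'`: `tr_sound` moves `x` to `x + 2 b2` with the same quotient;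
`j` increases by one (`at_pw_succ'` for the chain of `Rec'` at the right end).  `Tr true` (only `f = false`): quotient plus one, and then
`q2 B true`.  Or `q3 B f`.
`q1 B f` at `[x, r)` (strong induction): `nz`, `q1 B f`, `rr`; or `f = false`: `z`, `q1 B true`, `rr`; or `q2 B f`, `pp` (`k = 0`, `r = yP + 1`).
The flag `b`: the index of `RI`.  If `f = true` then `b = true` and no `z` letter is passed; if `f = false` then the number of
passed `z` letters is `[b]`.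
-/

set_option autoImplicit false

namespace Pool.Agent.H29.CJ

open Lt

variable {K : ℕ} (G : USys K) {w : List Lt} {Z b1 b2 ln : ℕ}

/-- what the flag and the number of passed `z` letters say -/
def Flg (Z : ℕ) (f b : Bool) (x xb : ℕ) : Prop :=
  (f = true → b = true ∧ xb / Z = x / Z) ∧ (f = false → xb / Z = x / Z + (if b then 1 else 0))

theorem QCh_same {f b : Bool} {x x1 xb : ℕ} (h : x1 / Z = x / Z) (hF : Flg Z f b x1 xb) :
    Flg Z f b x xb := by
  unfold Flg at hF ⊢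
  rw [← h]
  exact hF

theorem QCh_up {b : Bool} {x x1 xb : ℕ} (h : x1 / Z = x / Z + 1) (hF : Flg Z true b x1 xb) :
    b = true ∧ Flg Z false b x xb := by
  obtain ⟨h1, h2⟩ := hF.1 rfl
  refine ⟨h1, fun hf => ?_, fun _ => ?_⟩
  · cases hf
  · rw [h1, h2, h]
    simp

theorem QCh_refl (f : Bool) (x : ℕ) {x1 : ℕ} (h : x1 / Z = x / Z) : Flg Z f f x x1 := by
  refine ⟨fun hf => ⟨hf, h⟩, fun hf => ?_⟩
  rw [hf, h]
  simp

theorem QCh_nz (h : FS w Z b1 b2 ln) {x : ℕ} (hx : Is w x isNZ) : (x + 1) / Z = x / Z := by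
  have hl : x < ln := lt_ln h (hx.mono fun a ⟨t, g, e⟩ => ⟨false, t, g, e⟩)
  exact Nat.succ_div_of_not_dvd ((isNZ_iff h hl).1 hx)

theorem QCh_z (h : FS w Z b1 b2 ln) {x : ℕ} (hx : Is w x isZ) : (x + 1) / Z = x / Z + 1 := by
  have hl : x < ln := lt_ln h (hx.mono fun a ⟨t, g, e⟩ => ⟨true, t, g, e⟩)
  exact Nat.succ_div_of_dvd ((h.hz x hl).1 hx)

theorem QCh_at_if {f : Bool} {L : Set (List Lt)} {x y : ℕ} (hA : At w {u | f = false ∧ u ∈ L} x y) :
    f = false ∧ At w L x y := (at_ite (f = false) L).1 hA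

theorem q3_sound (h : FS w Z b1 b2 ln) {B : Fin K} {f : Bool} {x y : ℕ}
    (hq : At w (Sl G (.q3 B f)) x y) :
    ∃ (eb : ℕ) (b : Bool), Flg Z f b x (x + 1) ∧ At w (Sl G (.main B)) (x + 1) eb ∧
      At w (RI b) eb y := by
  rw [sl_eq] at hq
  rcases at_union.1 hq with h1 | h1
  · obtain ⟨k, h2, h3⟩ := at_cat.1 h1
    obtain ⟨rfl, h4⟩ := at_LC.1 h2
    obtain ⟨eb, h5, h6⟩ := at_cat.1 h3
    exact ⟨eb, f, QCh_refl f x (QCh_nz h h4), h5, h6⟩
  · obtain ⟨hf, h1⟩ := QCh_at_if h1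
    obtain ⟨k, h2, h3⟩ := at_cat.1 h1
    obtain ⟨rfl, h4⟩ := at_LC.1 h2
    obtain ⟨eb, h5, h6⟩ := at_cat.1 h3
    refine ⟨eb, true, ?_, h5, h6⟩
    rw [hf]
    exact (QCh_up (QCh_z h h4) (QCh_refl true (x + 1) rfl)).2

theorem QCh_q2 (h : FS w Z b1 b2 ln) {B : Fin K} (n : ℕ) : ∀ {f : Bool} {x y : ℕ}, y - x < n →
    At w (Sl G (.q2 B f)) x y →
    ∃ (j xb eb yc : ℕ) (b : Bool), xb = x + 2 * b2 * j + 1 ∧ Flg Z f b x xb ∧
      At w (Sl G (.main B)) xb eb ∧ At w (RI b) eb yc ∧ At w (pw Rec' j) yc y := by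
  induction n with
  | zero => intro f x y hn; omega
  | succ n ih =>
    intro f x y hn hq
    have hxy := hq.le
    rw [sl_eq] at hq
    have hb := h.b2pos
    rcases at_union.1 hq with h0 | h1
    · rcases at_union.1 h0 with h1 | h1
      · obtain ⟨x1, h2, h3⟩ := at_cat.1 h1
        obtain ⟨y1, h4, h5⟩ := at_cat.1 h3
        obtain ⟨g1, g2, g3, g4⟩ := tr_sound h h2
        have l1 := h4.le
        have l2 := h5.le
        obtain ⟨j, xb, eb, yc, b, e1, e2, e3, e4, e5⟩ := ih (by omega) h4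
        refine ⟨j + 1, xb, eb, yc, b, ?_, QCh_same ?_ e2, e3, e4, at_pw_succ'.2 ⟨y1, e5, h5⟩⟩
        · rw [e1, g3]
          ring
        · rw [g4]
          simp
      · obtain ⟨hf, h1⟩ := QCh_at_if h1
        obtain ⟨x1, h2, h3⟩ := at_cat.1 h1
        obtain ⟨y1, h4, h5⟩ := at_cat.1 h3
        obtain ⟨g1, g2, g3, g4⟩ := tr_sound h h2
        have l1 := h4.le
        have l2 := h5.le
        obtain ⟨j, xb, eb, yc, b, e1, e2, e3, e4, e5⟩ := ih (by omega) h4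
        refine ⟨j + 1, xb, eb, yc, b, ?_, ?_, e3, e4, at_pw_succ'.2 ⟨y1, e5, h5⟩⟩
        · rw [e1, g3]
          ring
        · rw [hf]
          exact (QCh_up (by rw [g4]; simp) e2).2
    · obtain ⟨eb, b, h2, h3, h4⟩ := q3_sound G h h1
      exact ⟨0, x + 1, eb, y, b, by omega, h2, h3, h4, at_eps.2 ⟨rfl, h4.le_length⟩⟩

theorem q2_sound (h : FS w Z b1 b2 ln) {B : Fin K} {f : Bool} {x y : ℕ}
    (hq : At w (Sl G (.q2 B f)) x y) :
    ∃ (j xb eb yc : ℕ) (b : Bool), xb = x + 2 * b2 * j + 1 ∧ Flg Z f b x xb ∧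
      At w (Sl G (.main B)) xb eb ∧ At w (RI b) eb yc ∧ At w (pw Rec' j) yc y :=
  QCh_q2 G h (y - x + 1) (by omega) hq

theorem QCh_q1 (h : FS w Z b1 b2 ln) {B : Fin K} (n : ℕ) : ∀ {f : Bool} {x r : ℕ}, r - x < n →
    At w (Sl G (.q1 B f)) x r →
    ∃ (k j xb eb yc yP : ℕ) (b : Bool), xb = x + k + 2 * b2 * j + 1 ∧ Flg Z f b x xb ∧
      At w (Sl G (.main B)) xb eb ∧ At w (RI b) eb yc ∧ At w (pw Rec' j) yc yP ∧
      Is w yP (· = pp) ∧ r = yP + 1 + k ∧ ∀ t, yP < t → t < r → Is w t (· = rr) := by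
  induction n with
  | zero => intro f x y hn; omega
  | succ n ih =>
    intro f x r hn hq
    have hxy := hq.le
    rw [sl_eq] at hq
    rcases at_union.1 hq with h0 | h1
    · rcases at_union.1 h0 with h1 | h1
      · obtain ⟨x1, h2, h3⟩ := at_cat.1 h1
        obtain ⟨rfl, g1⟩ := at_LC.1 h2
        obtain ⟨r1, h4, h5⟩ := at_cat.1 h3
        obtain ⟨rfl, g2⟩ := at_LC.1 h5
        have l1 := h4.le
        obtain ⟨k, j, xb, eb, yc, yP, b, e1, e2, e3, e4, e5, e6, e7, e8⟩ := ih (by omega) h4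
        refine ⟨k + 1, j, xb, eb, yc, yP, b, by omega, QCh_same (QCh_nz h g1) e2, e3, e4, e5, e6,
          by omega, fun t ht1 ht2 => ?_⟩
        rcases Nat.lt_or_ge t r1 with ht | ht
        · exact e8 t ht1 ht
        · obtain rfl : t = r1 := by omega
          exact g2
      · obtain ⟨hf, h1⟩ := QCh_at_if h1
        obtain ⟨x1, h2, h3⟩ := at_cat.1 h1
        obtain ⟨rfl, g1⟩ := at_LC.1 h2
        obtain ⟨r1, h4, h5⟩ := at_cat.1 h3
        obtain ⟨rfl, g2⟩ := at_LC.1 h5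
        have l1 := h4.le
        obtain ⟨k, j, xb, eb, yc, yP, b, e1, e2, e3, e4, e5, e6, e7, e8⟩ := ih (by omega) h4
        refine ⟨k + 1, j, xb, eb, yc, yP, b, by omega, ?_, e3, e4, e5, e6,
          by omega, fun t ht1 ht2 => ?_⟩
        · rw [hf]
          exact (QCh_up (QCh_z h g1) e2).2
        rcases Nat.lt_or_ge t r1 with ht | ht
        · exact e8 t ht1 ht
        · obtain rfl : t = r1 := by omega
          exact g2
    · obtain ⟨y1, h2, h3⟩ := at_cat.1 h1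
      obtain ⟨rfl, g1⟩ := at_LC.1 h3
      obtain ⟨j, xb, eb, yc, b, e1, e2, e3, e4, e5⟩ := q2_sound G h h2
      exact ⟨0, j, xb, eb, yc, y1, b, by omega, e2, e3, e4, e5, g1, by omega,
        fun t ht1 ht2 => by omega⟩

theorem q1_sound (h : FS w Z b1 b2 ln) {B : Fin K} {f : Bool} {x r : ℕ}
    (hq : At w (Sl G (.q1 B f)) x r) :
    ∃ (k j xb eb yc yP : ℕ) (b : Bool), xb = x + k + 2 * b2 * j + 1 ∧ Flg Z f b x xb ∧
      At w (Sl G (.main B)) xb eb ∧ At w (RI b) eb yc ∧ At w (pw Rec' j) yc yP ∧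
      Is w yP (· = pp) ∧ r = yP + 1 + k ∧ ∀ t, yP < t → t < r → Is w t (· = rr) :=
  QCh_q1 G h (r - x + 1) (by omega) hq

end Pool.Agent.H29.CJ
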