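import Pool.Agent.H29.CJ.LfpB

/-!
# The speed-up language: definitions

`G : USys K` is a fixed unary grammar.  The language `WG G` over the fixed alphabet `Lt` consists of
certificates; soundness and completeness are in other files.
-/

set_option autoImplicit false

namespace Pool.Agent.H29.CJ

/-- The content alphabet. -/
inductive Lt : Type
  | a (z t g : Bool)
  | nu | fi | tau | emp | br | row
  | bit (b : Bool)
  | th | ka | kb | cc | cb | ee | pp | rr | mu | tp | io | ib | sg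
  deriving DecidableEq, Fintype

namespace Lt

/-- The region of a letter. -/
def reg : Lt → ℕ
  | a _ _ _ => 0
  | nu => 1
  | fi => 2
  | tau => 3 | emp => 3 | br => 3 | row => 3 | bit _ => 3
  | th => 4
  | ka => 5 | kb => 5 | cc => 5 | cb => 5 | ee => 5 | pp => 5 | rr => 5 | mu => 5
  | tp => 6
  | io => 7 | ib => 7 | sg => 7

def isLeft (x : Lt) : Prop := ∃ z t g, x = a z t g
def isZ (x : Lt) : Prop := ∃ t g, x = a true t g
def isNZ (x : Lt) : Prop := ∃ t g, x = a false t g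
def isT (x : Lt) : Prop := ∃ z g, x = a z true g
def isG (x : Lt) : Prop := ∃ z t, x = a z t true
def isN (x : Lt) : Prop := ∃ g, x = a false false g
def isTT (x : Lt) : Prop := ∃ g, x = a false true g
def isZT (x : Lt) : Prop := ∃ g, x = a true true g
def isBit (x : Lt) : Prop := ∃ b, x = bit b
def isRB (x : Lt) : Prop := x = row ∨ ∃ b, x = bit b
def isIO (x : Lt) : Prop := x = io ∨ x = ib

/-- number of `z` letters -/
def cZ : Lt → ℤ | a true _ _ => 1 | _ => 0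
def cG : Lt → ℤ | a _ _ true => 1 | _ => 0
def cTau : Lt → ℤ | tau => 1 | _ => 0
def cTh : Lt → ℤ | th => 1 | _ => 0
def cMu : Lt → ℤ | mu => 1 | _ => 0
def cSg : Lt → ℤ | sg => 1 | _ => 0
def cTp : Lt → ℤ | tp => 1 | _ => 0
def cNu : Lt → ℤ | nu => 1 | _ => 0
/-- `#cc - #cb` -/
def wC : Lt → ℤ | cc => 1 | cb => -1 | _ => 0
/-- `#ka - #kb` -/
def wK : Lt → ℤ | ka => 1 | kb => -1 | _ => 0
/-- `#io - #ib` -/
def wI : Lt → ℤ | io => 1 | ib => -1 | _ => 0

/-- `#tau + #mu - #th` -/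
def wTM : Lt → ℤ | tau => 1 | mu => 1 | th => -1 | _ => 0
/-- `#tau + #sg - #th` -/
def wTS : Lt → ℤ | tau => 1 | sg => 1 | th => -1 | _ => 0
/-- `#mu - #cc + #cb` -/
def wRI : Lt → ℤ | mu => 1 | cc => -1 | cb => 1 | _ => 0
/-- `#mu + #cc - #cb - #ka + #kb` -/
def wRII : Lt → ℤ | mu => 1 | cc => 1 | cb => -1 | ka => -1 | kb => 1 | _ => 0
/-- `#z + #io - #ib - #nu` -/
def wJ1 : Lt → ℤ | a true _ _ => 1 | io => 1 | ib => -1 | nu => -1 | _ => 0
/-- `#mu + #sg - #io + #ib - #tp` -/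
def wJ2 : Lt → ℤ | mu => 1 | sg => 1 | io => -1 | ib => 1 | tp => -1 | _ => 0
/-- `#mu + #sg - #tp` -/
def wJ3 : Lt → ℤ | mu => 1 | sg => 1 | tp => -1 | _ => 0
/-- `#ka - #kb - #mu` -/
def wKM : Lt → ℤ | ka => 1 | kb => -1 | mu => -1 | _ => 0
/-- `#z - #nu` -/
def wZN : Lt → ℤ | a true _ _ => 1 | nu => -1 | _ => 0
/-- `#mu - #tp` -/
def wMT : Lt → ℤ | mu => 1 | tp => -1 | _ => 0

end Lt

open Lt

/-- one record of a table -/
def Rec : Set (List Lt) := LC (· = emp) ∪ cat (LC (· = br)) (ST isRB)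

/-- one row -/
def Row : Set (List Lt) := cat (LC (· = row)) (ST isBit)

/-- one record of the menu -/
def Rec' : Set (List Lt) := LC (· = ee) ∪ cat (LC (· = pp)) (ST (· = rr))

/-- From a `t` letter to the start of the record of its group, in any table. -/
def LkP : Set (List Lt) :=
  cat (LC isZT) (cat Set.univ (LC (· = tau))) ∪
  cat (LC isTT) (Sync (cat (ST isN) (LC isTT))
    (cat (ST isN) (cat (LC isZT) (cat Set.univ (cat (LC (· = tau)) Rec)))) Rec)

def LkE : Set (List Lt) := cat (ST isN) LkP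

/-- From a left position to its bit number `A`, in any table. -/
def LkA (A : ℕ) : Set (List Lt) :=
  cat (Sync (LC isN) (cat LkP (LC (· = br))) Row) (cat (LC (· = row)) (pw (LC isBit) A))

def MainLk (A : ℕ) : Set (List Lt) :=
  cat (LkA A) ((cat (LC (· = bit true)) Set.univ ∩ cat Set.univ (LC (· = mu))) ∩ WT wTM 0)

def StLk (A : ℕ) : Set (List Lt) :=
  cat (LkA A) ((cat (LC (· = bit false)) Set.univ ∩ cat Set.univ (LC (· = sg))) ∩ WT wTS 0)

def StEm : Set (List Lt) :=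
  cat LkE ((cat (LC (· = emp)) Set.univ ∩ cat Set.univ (LC (· = sg))) ∩ WT wTS 0)

/-- `uv` with `|u| = |v|`, `u` empty or ending with a `g` letter -/
def EqG : Set (List Lt) := {[]} ∪ cat (Sync (LC isLeft) (LC isG) (LC isLeft)) (LC isLeft)

/-- translations by twice the `g` distance, passing one `z` letter (`f = true`) or none -/
def Tr (f : Bool) : Set (List Lt) :=
  (cat EqG EqG ∩ ST isLeft) ∩ (WT cG 2 ∩ WT cZ (if f then 1 else 0))

def RI (b : Bool) : Set (List Lt) := cat Set.univ (LC (· = cc)) ∩ WT wRI (if b then 0 else -1)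
def RII : Set (List Lt) := WT wRII (-1)
def RJ1 : Set (List Lt) := WT wJ1 0
def RJ2 : Set (List Lt) := cat Set.univ (LC isIO) ∩ WT wJ2 0
def RJ3 : Set (List Lt) := cat Set.univ (LC (· = sg)) ∩ WT wJ3 1

def Load : Set (List Lt) :=
  Sync (LC isNZ)
    (cat (Sync (Tr false) (cat (LC isZ) (cat Set.univ (LC (· = cc)))) Rec') (LC (· = pp)))
    (LC (· = rr))

section
variable {K : ℕ} (G : USys K)

/-- left words whose length belongs to the language of `A` -/
def UL (A : Fin K) : Set (List Lt) := {u | (∀ x ∈ u, isLeft x) ∧ G.T A u.length}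

/-- the unknowns of the main system -/
inductive Vr (K : ℕ) : Type
  | main (A : Fin K)
  | q1 (B : Fin K) (f : Bool)
  | q2 (B : Fin K) (f : Bool)
  | q3 (B : Fin K) (f : Bool)

def LII (X : Vr K → Set (List Lt)) (C : Fin K) : Set (List Lt) :=
  cat Set.univ (Load ∩ cat (X (.main C)) RII)

def Lg (X : Vr K → Set (List Lt)) (B C : Fin K) : Set (List Lt) :=
  cat (X (.q1 B false) ∩ LII X C) (cat (LC (· = rr)) (cat (ST (· ≠ mu)) (LC (· = mu))))

def Step (X : Vr K → Set (List Lt)) (p : Fin K × Fin K) : Set (List Lt) :=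
  (cat (UL G p.2 ∩ ST isNZ) (X (.main p.1)) ∪ cat (UL G p.1 ∩ ST isNZ) (X (.main p.2))) ∪
  (Lg X p.1 p.2 ∪ Lg X p.2 p.1)

/-- the right sides of the main system -/
def Phi : Vr K → (Vr K → Set (List Lt)) → Set (List Lt)
  | .main A, X => MainLk A ∪ {w | ∃ ρ ∈ G.rules A, ∀ p ∈ ρ, w ∈ Step G X p}
  | .q1 B f, X =>
    (cat (LC isNZ) (cat (X (.q1 B f)) (LC (· = rr))) ∪
      {w | f = false ∧ w ∈ cat (LC isZ) (cat (X (.q1 B true)) (LC (· = rr)))}) ∪
      cat (X (.q2 B f)) (LC (· = pp))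
  | .q2 B f, X =>
    (cat (Tr false) (cat (X (.q2 B f)) Rec') ∪
      {w | f = false ∧ w ∈ cat (Tr true) (cat (X (.q2 B true)) Rec')}) ∪ X (.q3 B f)
  | .q3 B f, X =>
    cat (LC isNZ) (cat (X (.main B)) (RI f)) ∪
      {w | f = false ∧ w ∈ cat (LC isZ) (cat (X (.main B)) (RI true))}

/-- the least solution -/
def Sl : Vr K → Set (List Lt) := Lfp (Phi G)

def Gam (B : Fin K) : Set (List Lt) :=
  cat (RJ1 ∩ cat (Sl G (.main B)) RJ2) (cat (ST (· ≠ sg)) (LC (· = sg)))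

def StStep (p : Fin K × Fin K) : Set (List Lt) :=
  (cat (UL G p.2) (Gam G p.1) ∪ cat (UL G p.1) (Gam G p.2)) ∪
  cat (Lg (Sl G) p.1 p.2 ∪ Lg (Sl G) p.2 p.1) RJ3

def Sta (A : Fin K) : Set (List Lt) :=
  {w | G.base A ∧ w ∈ cat (LC isZ) (cat (ST (· ≠ sg)) (LC (· = sg)))} ∪
  {w | ∃ ρ ∈ G.rules A, ∀ p ∈ ρ, w ∈ StStep G p}

def OK (A : Fin K) : Set (List Lt) := Sta G A ∪ (StLk A ∪ StEm)

end

/-- flagged letters at distance `β, 2β, ...` from the start (checked at one flagged letter) -/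
def BlkPair (P : Lt → Prop) : Set (List Lt) :=
  cat (ST (fun x => ¬ P x)) (LC P) ∪
  cat ({[]} ∪ cat Set.univ (LC P))
    (cat (Sync (LC (fun x => ¬ P x)) (LC P) (LC (fun x => ¬ P x))) (LC P))

/-- well-formedness: region order -/
def Srt : Set (List Lt) := {w | ∀ r ∈ List.range 8, w ∈ AllPre (fun x => reg x = r) (ST (fun x => reg x ≤ r))}

/-- well-formedness: the left region -/
def LeftOK : Set (List Lt) :=
  cat (cat (ST isLeft) (LC isZ)) (ST (fun x => ¬ isLeft x)) ∩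
  (ST (fun x => isZ x → isT x ∧ isG x) ∩
  (AllPre isZ (BlkPair isZ) ∩ (AllPre isT (BlkPair isT) ∩ AllPre isG (BlkPair isG))))

/-- well-formedness: weights -/
def WtOK : Set (List Lt) :=
  AllPre (· = mu) (WT wC 0 ∩ WT wK 0) ∩ (AllPre (· = rr) (WT wKM 0) ∩
  AllPre (· = sg) (WT wI 0 ∩ (WT wZN 0 ∩ WT wMT 1)))

def Fmt : Set (List Lt) := Srt ∩ (LeftOK ∩ WtOK)

/-- the speed-up language of `G` (start symbol `0`) -/
def WG {k : ℕ} (G : USys (k + 1)) : Set (List Lt) :=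
  Fmt ∩ (AllSuf isNZ (AllPre (· = sg) {w | ∀ A, w ∈ OK G A}) ∩ Sta G 0)

/-- Facts about a well-formed word, as used by the soundness proof.  `Z`, `b1`, `b2` are the distances of
the `z`, `t`, `g` flags, `ln` the length of the left region. -/
structure FS (w : List Lt) (Z b1 b2 ln : ℕ) : Prop where
  lnle : ln ≤ w.length
  left : ∀ i, i < ln → Is w i isLeft
  nleft : ∀ i, ln ≤ i → i < w.length → Is w i (fun x => ¬ isLeft x)
  Zpos : 0 < Z
  Zln : Z ∣ ln
  lnpos : 0 < ln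
  hz : ∀ i, i < ln → (Is w i isZ ↔ Z ∣ i + 1)
  b1pos : 0 < b1
  b1Z : b1 ∣ Z
  ht : ∀ i, i < ln → (Is w i isT ↔ b1 ∣ i + 1)
  b2pos : 0 < b2
  b2Z : b2 ∣ Z
  hg : ∀ i, i < ln → (Is w i isG ↔ b2 ∣ i + 1)
  srt : ∀ (i j : ℕ) (a b : Lt), i ≤ j → w[i]? = some a → w[j]? = some b → reg a ≤ reg b
  cmu : ∀ i, Is w i (· = mu) → pre wC w (i + 1) = 0 ∧ pre wK w (i + 1) = 0
  crr : ∀ i, Is w i (· = rr) → pre wKM w (i + 1) = 0
  csg : ∀ i, Is w i (· = sg) → pre wI w (i + 1) = 0 ∧ pre wZN w (i + 1) = 0 ∧ pre wMT w (i + 1) = 1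

/-- Distance from `x` to the next `z` letter (inclusive). -/
def Lo (Z x : ℕ) : ℕ := Z - x % Z

end Pool.Agent.H29.CJ
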