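import Pool.Agent.H29.CJ.LgS

/-!
# Soundness of the start claims

Use only the STATEMENTS of the imported files.

`MSound w Z G m`: all main claims of value `m` are true.
Given `At w (Sta G A) x e`, `x < Z`, `n = #sg(e)`, `m = Z (n-1) + Lo Z x`.  In all cases `e - 1` carries `sg` (so `n ≥ 1`, `n ≤ wt cSg w` by
`pre_le_wt`).  As `x < Z`: `x / Z = 0`, `x + Lo Z x = Z` (`add_Lo`), so `m + x = Z n`.
* base: `G.base A`, `x` carries a `z` letter, then non-`sg` letters, then `sg` at `e - 1`.  `Z ∣ x + 1`, so `Lo Z x = 1`;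
  no `sg` before `x` (left region) nor up to `e - 1`, so `n = 1`, `m = 1`; `G.Tiff`.
* rule `ρ`: by `G.Tiff` it suffices to find for each `p ∈ ρ` the numbers `m₁, m₂`.  Cases of `StStep`:
 - `cat (UL G p.2) (Gam G p.1)`: `y` with `At w (UL G p.2) x y`: all letters of `[x, y)` left, `G.T p.2 (y - x)` (`length_seg`), so `y > x`
   (`G.T0`).  `Gam`: `q` with `At w RJ1 y q`, `At w (main p.1) y e₁`, `At w RJ2 e₁ q`, then non-`sg` letters and `sg` at `e - 1`.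
   `main_shape`: `y < ln`, `mu` at `e₁ - 1`.  `q - 1` carries `io` or `ib` (region 7).
   `FS.csg` at `e - 1`: `wZN(e) = 0`, `wMT(e) = 1`.  By `pre_tot_of_reg` applied at `q - 1` and `e - 1` (regions 7): `wZN(q) = wZN(e) = 0`,
   `wMT(q) = 1`.  `wZN(y) = y / Z` (`pre_wZN`, `pre_cZ`, `cNu` vanishes on left letters: `pre_left`), `wI(y) = 0` (`pre_left`).
   `RJ1`: `wZN(q) + wI(q) - wZN(y) - wI(y) = 0`, so `wI(q) = y / Z`.
   At `e₁` (letter `mu`, region 5, at `e₁ - 1`): `cTp = cSg = wI = 0` (`pre_zero_of_reg` at `e₁ - 1` and `pre_succ`), so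
   `wJ2(e₁) = #mu(e₁)`.  `RJ2`: `1 + #sg(q) - wI(q) - #mu(e₁) = 0`.  `#sg(e) = #sg(q) + 1 = n`.  So `#mu(e₁) = n - y/Z`.
   `#mu(e₁) ≥ 1`.  Value of the main claim `(y, e₁)`: `m₁ = Z (n - y/Z - 1) + Lo Z y`, and `y + Lo Z y = Z (y/Z + 1)`, so
   `m₁ + y = Z n`, `m₁ = m - (y - x) < m`.  `IH` gives `G.T p.1 m₁`; `m₁ + (y - x) = m`.
 - the symmetric case.
 - `cat (Lg p.1 p.2 ∪ Lg p.2 p.1) RJ3`: `Lg_sound` at `(x, e₁)`: `mu` at `e₁ - 1`, `n' = #mu(e₁)`; `RJ3`: `sg` at `e - 1`,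
   `wMT(e) + #sg(e) - #mu(e₁) = 1` (`cTp = cSg = 0` at `e₁`), so `n' = n`.  The two values are `≥ 1` (`Lo_pos`), so `< m`; apply
   `IH` to both; `nb, nc ≤ n ≤ wt cSg w`.
-/

set_option autoImplicit false

namespace Pool.Agent.H29.CJ

open Lt

variable {K : ℕ} (G : USys K) {w : List Lt} {Z b1 b2 ln : ℕ}

/-- all main claims of value `m` are true -/
def MSound (w : List Lt) (Z : ℕ) (G : USys K) (m : ℕ) : Prop :=
  ∀ (A : Fin K) (x e n : ℕ), At w (Sl G (.main A)) x e → pre cMu w e = n → 1 ≤ n →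
    (n : ℤ) ≤ wt cSg w → Z * (n - 1) + Lo Z x = m → G.T A m

/-- a word of `cat L (LC P)` ends with a `P` letter -/
private theorem sts_end {L : Set (List Lt)} {P : Lt → Prop} {x e : ℕ}
    (hA : At w (cat L (LC P)) x e) : ∃ s, e = s + 1 ∧ At w L x s ∧ Is w s P := by
  obtain ⟨k, h1, h2⟩ := at_cat.1 hA
  obtain ⟨rfl, h3⟩ := at_LC.1 h2
  exact ⟨k, rfl, h1, h3⟩

private theorem sts_end' {L : Set (List Lt)} {P : Lt → Prop} {x e : ℕ}
    (hA : At w (cat L (LC P)) x e) : 0 < e ∧ Is w (e - 1) P := by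
  obtain ⟨s, rfl, _, h⟩ := sts_end hA
  exact ⟨Nat.succ_pos s, h⟩

private theorem sts_gam_end {B : Fin K} {x e : ℕ} (hA : At w (Gam G B) x e) :
    0 < e ∧ Is w (e - 1) (· = sg) := by
  obtain ⟨k, _, h2⟩ := at_cat.1 hA
  exact sts_end' h2

private theorem sts_step_end {p : Fin K × Fin K} {x e : ℕ} (hA : At w (StStep G p) x e) :
    0 < e ∧ Is w (e - 1) (· = sg) := by
  rcases at_union.1 hA with h1 | h1
  · rcases at_union.1 h1 with h2 | h2
    · obtain ⟨k, _, h3⟩ := at_cat.1 h2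
      exact sts_gam_end G h3
    · obtain ⟨k, _, h3⟩ := at_cat.1 h2
      exact sts_gam_end G h3
  · obtain ⟨k, _, h3⟩ := at_cat.1 h1
    exact sts_end' (at_inter.1 h3).1

/-- the facts about an end `s + 1` of a start claim -/
private theorem sts_Zle (h : FS w Z b1 b2 ln) : Z ≤ ln := Nat.le_of_dvd h.lnpos h.Zln

private theorem sts_nonneg {f : Lt → ℤ} (hf : ∀ a, 0 ≤ f a) (i : ℕ) : 0 ≤ pre f w i := by
  have := pre_mono (w := w) hf (Nat.zero_le i)
  rw [pre_zero] at this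
  exact this

private theorem sts_cSg_nonneg : ∀ a, 0 ≤ cSg a := by
  intro a; cases a <;> simp [cSg]

private theorem sts_cMu_nonneg : ∀ a, 0 ≤ cMu a := by
  intro a; cases a <;> simp [cMu]

private theorem sts_succ_of_is {f : Lt → ℤ} {c : Lt} {s : ℕ} (hs : Is w s (· = c)) :
    pre f w (s + 1) = pre f w s + f c := by
  obtain ⟨a, ha, rfl⟩ := hs
  exact pre_succ ha

/-- counts of `sg` after a stretch without `sg` letters followed by `sg` -/
private theorem sts_cnt {q s : ℕ} (h1 : At w (ST (· ≠ sg)) q s) (hs : Is w s (· = sg)) :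
    pre cSg w (s + 1) = pre cSg w q + 1 := by
  obtain ⟨h2, h3, h4⟩ := at_ST.1 h1
  rw [sts_succ_of_is hs]
  have : pre cSg w s = pre cSg w q := by
    refine pre_eq_of_zero h2 h3 (fun t ht1 ht2 => (h4 t ht1 ht2).mono ?_)
    intro a ha
    cases a <;> simp_all [cSg]
  rw [this]
  simp [cSg]

/-- counts at the end of a main claim (position after a `mu` letter) -/
private theorem sts_mu (h : FS w Z b1 b2 ln) {e₁ : ℕ} (he : 0 < e₁) (hmu : Is w (e₁ - 1) (· = mu)) :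
    pre cTp w e₁ = 0 ∧ pre cSg w e₁ = 0 ∧ pre wI w e₁ = 0 ∧ 1 ≤ pre cMu w e₁ := by
  obtain ⟨t, rfl⟩ : ∃ t, e₁ = t + 1 := ⟨e₁ - 1, by omega⟩
  have hmu' : Is w t (· = mu) := hmu
  have hmu2 : w[t]? = some mu := by
    obtain ⟨a, ha, rfl⟩ := hmu'
    exact ha
  refine ⟨?_, ?_, ?_, ?_⟩
  · rw [sts_succ_of_is hmu', pre_zero_of_reg h hmu2]
    · simp [cTp]
    · intro a ha
      cases a <;> simp_all [reg, cTp]
  · rw [sts_succ_of_is hmu', pre_zero_of_reg h hmu2]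
    · simp [cSg]
    · intro a ha
      cases a <;> simp_all [reg, cSg]
  · rw [sts_succ_of_is hmu', pre_zero_of_reg h hmu2]
    · simp [wI]
    · intro a ha
      cases a <;> simp_all [reg, wI]
  · rw [sts_succ_of_is hmu']
    have := sts_nonneg (w := w) sts_cMu_nonneg t
    simp only [cMu]
    omega

/-- the small step -/
private theorem sts_gam (h : FS w Z b1 b2 ln) {m : ℕ} (IH : ∀ m' < m, MSound w Z G m')
    {B C : Fin K} {x e n : ℕ} (hA : At w (cat (UL G C) (Gam G B)) x e) (hx : x < Z)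
    (hn : pre cSg w e = n) (hm : Z * (n - 1) + Lo Z x = m) :
    ∃ m₁ m₂, m₁ + m₂ = m ∧ G.T B m₁ ∧ G.T C m₂ := by
  obtain ⟨y, hU, hG⟩ := at_cat.1 hA
  have hUT : G.T C (y - x) := by
    have h1 := hU.2.2.2
    rw [length_seg hU.1 hU.2.1] at h1
    exact h1
  have hxy : x < y := by
    have h1 := hU.1
    rcases Nat.lt_or_ge x y with h2 | h2
    · exact h2
    · exfalso
      have h3 : y - x = 0 := by omega
      rw [h3] at hUT
      exact G.T0 C hUT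
  obtain ⟨q, hq, hqe⟩ := at_cat.1 hG
  obtain ⟨hJ1, hq2⟩ := at_inter.1 hq
  obtain ⟨e₁, hM, hJ2⟩ := at_cat.1 hq2
  obtain ⟨hyl, hye, hmu⟩ := main_shape G h hM
  obtain ⟨hJ2a, hJ2b⟩ := at_inter.1 hJ2
  obtain ⟨q', rfl, _, hio⟩ := sts_end hJ2a
  obtain ⟨s, rfl, hST, hsg⟩ := sts_end hqe
  have hJ1w := (at_WT.1 hJ1).2.2
  have hJ2w := (at_WT.1 hJ2b).2.2
  obtain ⟨_, c1, c2⟩ := h.csg s hsg
  have hsg2 : w[s]? = some sg := by
    obtain ⟨a, ha, rfl⟩ := hsg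
    exact ha
  obtain ⟨c, hc, hcio⟩ := hio
  have hregc : reg c = 7 := by
    rcases hcio with rfl | rfl <;> rfl
  have f1 : ∀ a, 7 ≤ reg a → wZN a = 0 := by
    intro a ha
    cases a <;> simp_all [reg, wZN]
  have f2 : ∀ a, 7 ≤ reg a → wMT a = 0 := by
    intro a ha
    cases a <;> simp_all [reg, wMT]
  have g1 : pre wZN w (q' + 1) = 0 := by
    rw [(pre_tot_of_reg h hc (f := wZN) (by rw [hregc]; exact f1)).2,
      ← (pre_tot_of_reg h hsg2 (f := wZN) f1).2]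
    exact c1
  have g2 : pre wMT w (q' + 1) = 1 := by
    rw [(pre_tot_of_reg h hc (f := wMT) (by rw [hregc]; exact f2)).2,
      ← (pre_tot_of_reg h hsg2 (f := wMT) f2).2]
    exact c2
  have g3 : pre wZN w y = ((y / Z : ℕ) : ℤ) := by
    rw [pre_wZN, pre_cZ h hyl.le, pre_left h hyl.le (f := cNu)]
    · simp
    · rintro a ⟨z, t, g, rfl⟩
      rfl
  have g4 : pre wI w y = 0 := by
    refine pre_left h hyl.le ?_
    rintro a ⟨z, t, g, rfl⟩
    rfl
  rw [pre_wJ1, pre_wJ1, g1, g3, g4] at hJ1w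
  obtain ⟨k1, k2, k3, k4⟩ := sts_mu h (by omega) hmu
  rw [pre_wJ2, pre_wJ2, g2, pre_wMT w e₁, k1, k2, k3] at hJ2w
  have k5 := sts_cnt hST hsg
  rw [hn] at k5
  have k6 : pre cMu w e₁ = (n : ℤ) - ((y / Z : ℕ) : ℤ) := by linarith
  have k7 : y / Z + 1 ≤ n := by
    have : ((y / Z : ℕ) : ℤ) + 1 ≤ n := by linarith
    exact_mod_cast this
  have k8 : (n : ℤ) ≤ wt cSg w := by
    rw [← hn]
    exact pre_le_wt sts_cSg_nonneg w _
  have hl1 := add_Lo h.Zpos x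
  have hl2 := add_Lo h.Zpos y
  rw [Nat.div_eq_of_lt hx] at hl1
  obtain ⟨d, hd⟩ := Nat.exists_eq_add_of_le k7
  have e1 : n - y / Z - 1 = d := by
    rw [hd]
    generalize y / Z = t
    omega
  have e2 : n - 1 = y / Z + d := by
    rw [hd]
    generalize y / Z = t
    omega
  have key : Z * (n - y / Z - 1) + Lo Z y + (y - x) = m := by
    rw [← hm, e1, e2]
    have h3 : Z * (y / Z + d) = Z * (y / Z) + Z * d := by ring
    have h4 : Z * (y / Z + 1) = Z * (y / Z) + Z := by ring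
    omega
  refine ⟨_, _, key, ?_, hUT⟩
  have hlt : Z * (n - y / Z - 1) + Lo Z y < m := by
    generalize Z * (n - y / Z - 1) + Lo Z y = v at key
    omega
  refine IH _ hlt B y e₁ (n - y / Z) hM ?_ (by omega) ?_ rfl
  · rw [k6]
    push_cast [Nat.cast_sub (show y / Z ≤ n by omega)]
    rfl
  · have : ((n - y / Z : ℕ) : ℤ) ≤ n := by
      exact_mod_cast Nat.sub_le n (y / Z)
    exact this.trans k8

/-- the large step -/
private theorem sts_lg (h : FS w Z b1 b2 ln) {m : ℕ} (IH : ∀ m' < m, MSound w Z G m')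
    {B C : Fin K} {x e₁ e n : ℕ} (hA : At w (Lg (Sl G) B C) x e₁) (hJ : At w RJ3 e₁ e)
    (hn : pre cSg w e = n) (hm : Z * (n - 1) + Lo Z x = m) :
    ∃ m₁ m₂, m₁ + m₂ = m ∧ G.T B m₁ ∧ G.T C m₂ := by
  obtain ⟨xb, eb, xc, ec, nb, nc, n', hB, hC, hnb, hnc, hn', hb1, hb2, hc1, hc2, he, hmu, hv⟩ :=
    Lg_sound G h hA
  obtain ⟨hJa, hJb⟩ := at_inter.1 hJ
  obtain ⟨s, rfl, _, hsg⟩ := sts_end hJa
  have hJw := (at_WT.1 hJb).2.2
  obtain ⟨_, c1, c2⟩ := h.csg s hsg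
  obtain ⟨k1, k2, k3, k4⟩ := sts_mu h he hmu
  rw [pre_wJ3, pre_wJ3, c2, hn, pre_wMT w e₁, k1, k2, hn'] at hJw
  have hnn : n' = n := by
    have : (n' : ℤ) = n := by linarith
    exact_mod_cast this
  subst hnn
  have k8 : (n' : ℤ) ≤ wt cSg w := by
    rw [← hn]
    exact pre_le_wt sts_cSg_nonneg w _
  have l1 := Lo_pos h.Zpos xb
  have l2 := Lo_pos h.Zpos xc
  refine ⟨_, _, hv.trans hm, ?_, ?_⟩
  · refine IH _ (by omega) B xb eb nb hB hnb hb1 ?_ rfl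
    have : (nb : ℤ) ≤ n' := by exact_mod_cast hb2
    exact this.trans k8
  · refine IH _ (by omega) C xc ec nc hC hnc hc1 ?_ rfl
    have : (nc : ℤ) ≤ n' := by exact_mod_cast hc2
    exact this.trans k8

theorem sta_sound (h : FS w Z b1 b2 ln) {m : ℕ} (IH : ∀ m' < m, MSound w Z G m')
    {A : Fin K} {x e n : ℕ} (hA : At w (Sta G A) x e) (hx : x < Z) (hn : pre cSg w e = n)
    (hm : Z * (n - 1) + Lo Z x = m) : G.T A m := by
  have hxl : x < ln := lt_of_lt_of_le hx (sts_Zle h)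
  rcases at_union.1 hA with h1 | h1
  · obtain ⟨hb, h2⟩ := (at_ite _ _).1 h1
    obtain ⟨k, h3, h4⟩ := at_cat.1 h2
    obtain ⟨rfl, h5⟩ := at_LC.1 h3
    obtain ⟨s, rfl, h6, h7⟩ := sts_end h4
    have h8 := (isZ_iff_Lo h hxl).1 h5
    have h9 := sts_cnt h6 h7
    have h10 : pre cSg w (x + 1) = 0 := by
      refine pre_left h (by omega) ?_
      rintro a ⟨z, t, g, rfl⟩
      rfl
    rw [hn, h10] at h9
    have h11 : n = 1 := by
      have : (n : ℤ) = 1 := by linarith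
      exact_mod_cast this
    subst h11
    have h12 : m = 1 := by
      rw [← hm, h8]
      simp
    exact (G.Tiff A m).2 (Or.inl ⟨h12, hb⟩)
  · obtain ⟨h2, h3, ρ, hρ, h4⟩ := h1
    refine (G.Tiff A m).2 (Or.inr ⟨ρ, hρ, fun p hp => ?_⟩)
    have h5 : At w (StStep G p) x e := ⟨h2, h3, h4 p hp⟩
    rcases at_union.1 h5 with h6 | h6
    · rcases at_union.1 h6 with h7 | h7
      · exact sts_gam G h IH h7 hx hn hm
      · obtain ⟨m₁, m₂, a1, a2, a3⟩ := sts_gam G h IH h7 hx hn hm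
        exact ⟨m₂, m₁, by omega, a3, a2⟩
    · obtain ⟨e₁, h7, h8⟩ := at_cat.1 h6
      rcases at_union.1 h7 with h9 | h9
      · exact sts_lg G h IH h9 h8 hn hm
      · obtain ⟨m₁, m₂, a1, a2, a3⟩ := sts_lg G h IH h9 h8 hn hm
        exact ⟨m₂, m₁, by omega, a3, a2⟩

theorem sta_end (h : FS w Z b1 b2 ln) {A : Fin K} {x e : ℕ} (hA : At w (Sta G A) x e) :
    0 < e ∧ Is w (e - 1) (· = sg) := by
  rcases at_union.1 hA with h1 | h1
  · obtain ⟨_, h2⟩ := (at_ite _ _).1 h1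
    obtain ⟨k, h3, h4⟩ := at_cat.1 h2
    exact sts_end' h4
  · obtain ⟨h2, h3, ρ, hρ, h4⟩ := h1
    obtain ⟨p, hp⟩ := List.exists_mem_of_ne_nil ρ (G.ne A ρ hρ)
    exact sts_step_end G ⟨h2, h3, h4 p hp⟩

end Pool.Agent.H29.CJ
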