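import Pool.Agent.H29.CJ.CntL

/-!
# Soundness of the exact translations

Use only the STATEMENTS of the imported files.

`At w (Tr f) x y`: all positions of `[x, y)` are left letters; the number of `g` letters in `[x, y)` is `2`, so
`x < y`, `x < ln`, `y ≤ ln` (`lt_ln`); the number of `z` letters is `[f]`, so `y / Z = x / Z + [f]` by `pre_cZ`.
There is `m` with `At w EqG x m`, `At w EqG m y`.  `At w EqG p q` means: `q = p`, or there is `a` with `q = p + 2 (a + 1)` and
position `p + a` is a `g` letter (`at_Sync_LC`: `a` left letters, a `g` letter, `a` left letters, one left letter).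
Write `β = b2`.  `g` letters below `ln`: the positions `c` with `β ∣ c + 1` (`FS.hg`).  By `pre_cG`: `y/β = x/β + 2`.
Let `r = β - x % β`, `1 ≤ r ≤ β`: the `g` letters after `x` are at `x + r - 1`, `x + r + β - 1`, `x + r + 2β - 1`, ... and
`x + r + β ≤ y < x + r + 2β`.
 Case `m = x` (first part empty): `y = x + 2 (a+1)` (the second part is nonempty), `x + a` is a `g` letter, so
   `a + 1 = r + i β`.  `i = 0`: `y = x + 2 r ≥ x + r + β`, so `r = β` and `y = x + 2β`.  `i ≥ 1`: `y ≥ x + 2r + 2β`, contradiction.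
 Case `m > x`: `m = x + 2 (a + 1)`, `a + 1 = r + i β`; `i ≥ 1` gives `m ≥ x + 2r + 2β > y`, contradiction.  So `m = x + 2r`.
   If `r = β`: `m = x + 2β`; a nonempty second part would contain the `g` letter at `m + a' < y`, `β ∣ m + a' + 1`,
   `m + a' + 1 > x + 2 β`, so `≥ x + r + 2 β = x + 3β` (as `β ∣ x` now), contradiction with `y < x + 3 β`; so `y = m`.
   If `r < β`: `m < x + r + β ≤ y`, so the second part is nonempty, `y = m + 2 (a' + 1)`, `β ∣ m + a' + 1`; the first multiple of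
   `β` after `m` is `x + r + β` (as `x + r ≤ m < x + r + β`), so `a' + 1 = β - r + i β`, and `i ≥ 1` gives `y ≥ x + 4β`,
   contradiction.  So `y = x + 2 r + 2 (β - r) = x + 2β`.
-/

set_option autoImplicit false

namespace Pool.Agent.H29.CJ

open Lt

variable {w : List Lt} {Z b1 b2 ln : ℕ}

private theorem TrS_eqg {p q : ℕ} (h : At w EqG p q) :
    q = p ∨ ∃ a, q = p + 2 * (a + 1) ∧ Is w (p + a) isG := by
  rcases at_union.1 h with h1 | h1
  · left
    exact (at_eps.1 h1).1.symm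
  · right
    obtain ⟨k, h2, h3⟩ := at_cat.1 h1
    obtain ⟨rfl, -⟩ := at_LC.1 h3
    obtain ⟨a, j', h4, -, h5, -, -⟩ := at_Sync_LC.1 h2
    obtain ⟨rfl, h6⟩ := at_LC.1 h5
    exact ⟨a, by omega, h6⟩

private theorem TrS_zero {β e t : ℤ} (h0 : 0 < β) (h : 2 * (β * e) = t) (h1 : -(2 * β) < t)
    (h2 : t < 2 * β) : e = 0 := by
  rcases lt_trichotomy e 0 with h3 | h3 | h3
  · exfalso
    have : β * e ≤ β * (-1) := mul_le_mul_of_nonneg_left (by omega) h0.le
    linarith
  · exact h3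
  · exfalso
    have : β * 1 ≤ β * e := mul_le_mul_of_nonneg_left (by omega) h0.le
    linarith

private theorem TrS_A {β x y c : ℕ} (hβ : 0 < β) (hxy : y / β = x / β + 2)
    (h : y + x = 2 * (β * c)) : y = x + 2 * β := by
  have hx := Nat.div_add_mod x β
  have hx' := Nat.mod_lt x hβ
  have hy := Nat.div_add_mod y β
  have hy' := Nat.mod_lt y hβ
  rw [hxy] at hy
  generalize x / β = X at *
  generalize x % β = ρ at *
  generalize y % β = σ at *
  zify at *
  have h1 : 2 * ((β : ℤ) * (c - X - 1)) = ρ + σ := by linarith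
  have h2 := TrS_zero hβ h1 (by omega) (by omega)
  rw [h2, mul_zero, mul_zero] at h1
  have h3 : (ρ : ℤ) = 0 := by omega
  have h4 : (σ : ℤ) = 0 := by omega
  rw [h3] at hx
  rw [h4] at hy
  linarith

private theorem TrS_B {β x y : ℕ} (hβ : 0 < β) (hxy : y / β = x / β + 2) (e : ℤ)
    (h : (y : ℤ) - x = 2 * (β * e)) : y = x + 2 * β := by
  have hx := Nat.div_add_mod x β
  have hx' := Nat.mod_lt x hβ
  have hy := Nat.div_add_mod y β
  have hy' := Nat.mod_lt y hβ
  rw [hxy] at hy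
  generalize x / β = X at *
  generalize x % β = ρ at *
  generalize y % β = σ at *
  zify at *
  have h1 : 2 * ((β : ℤ) * (e - 1)) = σ - ρ := by linarith
  have h2 := TrS_zero hβ h1 (by omega) (by omega)
  rw [h2, mul_zero, mul_zero] at h1
  linarith

private theorem TrS_arith {β x y m : ℕ} (hβ : 0 < β) (hxy : y / β = x / β + 2)
    (h1 : m = x ∨ ∃ a, m = x + 2 * (a + 1) ∧ β ∣ x + a + 1)
    (h2 : y = m ∨ ∃ a, y = m + 2 * (a + 1) ∧ β ∣ m + a + 1) : y = x + 2 * β := by
  rcases h1 with rfl | ⟨a, h1, c, hc⟩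
  · rcases h2 with rfl | ⟨a', h2, d, hd⟩
    · omega
    · exact TrS_A (c := d) hβ hxy (by omega)
  · rcases h2 with rfl | ⟨a', h2, d, hd⟩
    · exact TrS_A (c := c) hβ hxy (by omega)
    · refine TrS_B hβ hxy ((d : ℤ) - c) ?_
      have e1 : (y : ℤ) + m = 2 * (β * d) := by
        have : y + m = 2 * (β * d) := by omega
        exact_mod_cast this
      have e2 : (m : ℤ) + x = 2 * (β * c) := by
        have : m + x = 2 * (β * c) := by omega
        exact_mod_cast this
      linarith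

theorem tr_sound (h : FS w Z b1 b2 ln) {f : Bool} {x y : ℕ} (hT : At w (Tr f) x y) :
    x < ln ∧ y ≤ ln ∧ y = x + 2 * b2 ∧ y / Z = x / Z + (if f then 1 else 0) := by
  obtain ⟨h1, h2⟩ := at_inter.1 hT
  obtain ⟨h3, h4⟩ := at_inter.1 h1
  obtain ⟨h5, h6⟩ := at_inter.1 h2
  obtain ⟨hxy, hyl, hleft⟩ := at_ST.1 h4
  obtain ⟨-, -, hG⟩ := at_WT.1 h5
  obtain ⟨-, -, hZ⟩ := at_WT.1 h6
  obtain ⟨m, hm1, hm2⟩ := at_cat.1 h3
  have hlt : x < y := by
    rcases Nat.eq_or_lt_of_le hxy with h7 | h7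
    · rw [h7, sub_self] at hG
      omega
    · exact h7
  have hyln : y ≤ ln := by
    have := lt_ln h (hleft (y - 1) (by omega) (by omega))
    omega
  have hxln : x < ln := by omega
  have hG1 := pre_cG h hyln
  have hG2 := pre_cG h hxln.le
  have hZ1 := pre_cZ h hyln
  have hZ2 := pre_cZ h hxln.le
  rw [hG1, hG2] at hG
  rw [hZ1, hZ2] at hZ
  have hGn : y / b2 = x / b2 + 2 := by
    have : ((y / b2 : ℕ) : ℤ) = ((x / b2 : ℕ) : ℤ) + 2 := by linarith
    exact_mod_cast this
  have hZn : y / Z = x / Z + (if f then 1 else 0) := by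
    cases f
    · simp only [Bool.false_eq_true, if_false] at hZ ⊢
      have : ((y / Z : ℕ) : ℤ) = ((x / Z : ℕ) : ℤ) + 0 := by linarith
      exact_mod_cast this
    · simp only [if_true] at hZ ⊢
      have : ((y / Z : ℕ) : ℤ) = ((x / Z : ℕ) : ℤ) + 1 := by linarith
      exact_mod_cast this
  refine ⟨hxln, hyln, ?_, hZn⟩
  have hmy := hm2.le
  refine TrS_arith (m := m) h.b2pos hGn ?_ ?_
  · rcases TrS_eqg hm1 with h7 | ⟨a, ha, hg⟩
    · exact Or.inl h7
    · exact Or.inr ⟨a, ha, (h.hg (x + a) (by omega)).1 hg⟩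
  · rcases TrS_eqg hm2 with h7 | ⟨a, ha, hg⟩
    · exact Or.inl h7
    · exact Or.inr ⟨a, ha, (h.hg (m + a) (by omega)).1 hg⟩

end Pool.Agent.H29.CJ
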