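import Mathlib

/-!
# A removal lemma for sums

Mathlib only: `SimpleGraph.triangle_removal`, `SimpleGraph.triangleRemovalBound_pos`.

Statement: for `ε > 0` there is `δ > 0` such that for all `n ≥ 1` and finite sets `A, B, U` of numbers in `[1, n]` with at most
`δ n²` pairs `(b, c) ∈ A × B` having `b + c ∈ U`, there are sets `SA, SB, SU` of at most `ε n` elements each such that every such pair has
`b ∈ SA` or `c ∈ SB` or `b + c ∈ SU`.

Proof.  `N = 2 n + 1`, vertex set `V = Fin 3 × ZMod N` (or `ZMod N ⊕ ZMod N ⊕ ZMod N`), `|V| = 3 N`.  Graph `G` (use `SimpleGraph.mk`/`fromRel`,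
classical decidability): `(0, x) ~ (1, y)` iff `y = x + b` for some `b ∈ A`; `(1, y) ~ (2, z)` iff `z = y + c` for some `c ∈ B`;
`(0, x) ~ (2, z)` iff `z = x + m` for some `m ∈ U` (casts to `ZMod N`).
Triangles: a 3-clique has one vertex in each class (vertices in the same class are not adjacent), `(0, x), (1, x + b), (2, x + b + c)` with
`b ∈ A`, `c ∈ B` and `b + c ≡ m (mod N)`, `m ∈ U`; as `b + c ≤ 2 n < N` and `m ≤ n < N` we get `b + c = m ∈ U`.  So the number of triangles is at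
most `N · (number of pairs)` `≤ N δ n² ≤ δ N³` (injection of the cliques into `ZMod N × pairs`, or surjection).
Let `ε' = ε / 100` and `δ = triangleRemovalBound ε'` (positive).  If the number of triangles is `< triangleRemovalBound ε' (3 N)³` (true, since
`δ N³ < δ (3N)³`), `triangle_removal` gives `G' ≤ G`, triangle free, with less than `ε' (3N)² = 9 ε' N²` removed edges.
For `b ∈ A` let `r_A(b)` be the number of `x ∈ ZMod N` such that the edge `(0,x) – (1,x+b)` is removed (not in `G'`); similarly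
`r_B(c)` (edges `(1,y) – (2,y+c)`) and `r_U(m)` (edges `(0,x) – (2,x+m)`).  `SA = {b ∈ A | 3 r_A(b) ≥ N}` etc.  The removed edges counted by
`r_A(b)`, `b ∈ A`, are different for different `(b, x)` (`b < N` is determined by `x` and `x + b`), so `|SA| N / 3 ≤ 9 ε' N²`, `|SA| ≤ 27 ε' N ≤ 81 ε' n ≤ ε n`
(`N ≤ 3 n`).  The same for `SB, SU`.
Let `b ∈ A, c ∈ B, m = b + c ∈ U`, and suppose `b ∉ SA, c ∉ SB, m ∉ SU`.  The number of `x` with `(0,x)–(1,x+b)` removed is `< N/3`, with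
`(1,x+b)–(2,x+b+c)` removed `< N/3`, with `(0,x)–(2,x+m)` removed `< N/3`; so some `x` has all three edges in `G'`: a triangle of `G'`, contradiction.
-/

set_option autoImplicit false

namespace Pool.Agent.H29.CJ

section
open Finset SimpleGraph SimpleGraph.TripartiteFromTriangles

private theorem cast_inj {n i j : ℕ} (hi : i ≤ 2 * n) (hj : j ≤ 2 * n)
    (h : (i : ZMod (2 * n + 1)) = (j : ZMod (2 * n + 1))) : i = j := by
  have h1 := (ZMod.natCast_eq_natCast_iff' i j (2 * n + 1)).1 h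
  rwa [Nat.mod_eq_of_lt (by omega), Nat.mod_eq_of_lt (by omega)] at h1

/-- the triangle indices -/
private noncomputable def tri (n : ℕ) (F : Finset (ℕ × ℕ)) :
    Finset (ZMod (2 * n + 1) × ZMod (2 * n + 1) × ZMod (2 * n + 1)) :=
  ((univ : Finset (ZMod (2 * n + 1))) ×ˢ F).image
    (fun q => (q.1, q.1 + (q.2.1 : ZMod (2 * n + 1)),
      q.1 + (q.2.1 : ZMod (2 * n + 1)) + (q.2.2 : ZMod (2 * n + 1))))

private theorem mem_tri {n : ℕ} {F : Finset (ℕ × ℕ)} {x y z : ZMod (2 * n + 1)} :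
    (x, y, z) ∈ tri n F ↔ ∃ p ∈ F, y = x + (p.1 : ZMod (2 * n + 1)) ∧
      z = x + (p.1 : ZMod (2 * n + 1)) + (p.2 : ZMod (2 * n + 1)) := by
  unfold tri
  simp only [mem_image, mem_product, mem_univ, true_and, Prod.exists, Prod.mk.injEq]
  constructor
  · rintro ⟨a, b, c, h, rfl, rfl, rfl⟩
    exact ⟨b, c, h, rfl, rfl⟩
  · rintro ⟨b, c, h, rfl, rfl⟩
    exact ⟨x, b, c, h, rfl, rfl, rfl⟩

private theorem card_tri {n : ℕ} {F : Finset (ℕ × ℕ)}
    (hF : ∀ p ∈ F, p.1 ≤ n ∧ p.2 ≤ n) : (tri n F).card = (2 * n + 1) * F.card := by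
  unfold tri
  rw [card_image_of_injOn, card_product, card_univ, ZMod.card]
  rintro ⟨x, b, c⟩ h1 ⟨x', b', c'⟩ h2 h3
  simp only [coe_product, coe_univ, Set.mem_prod, Set.mem_univ, mem_coe, true_and] at h1 h2
  simp only [Prod.mk.injEq] at h3 ⊢
  obtain ⟨h4, h5, h6⟩ := h3
  have k1 := hF _ h1
  have k2 := hF _ h2
  simp only at k1 k2
  subst h4
  rw [add_right_inj] at h5
  rw [h5, add_right_inj] at h6
  exact ⟨rfl, cast_inj (by omega) (by omega) h5, cast_inj (by omega) (by omega) h6⟩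

/-- at most `ε n` disjoint pairs -/
private theorem main_bound (ε : ℝ) (hε : 0 < ε) : ∃ δ : ℝ, 0 < δ ∧ ∀ n : ℕ, 1 ≤ n →
    ∀ P F : Finset (ℕ × ℕ), ∀ A B U : Finset ℕ, (∀ b ∈ A, b ≤ n) → (∀ b ∈ B, b ≤ n) →
      (∀ b ∈ U, b ≤ n) →
      (∀ b ∈ A, ∀ c ∈ B, b + c ∈ U → (b, c) ∈ P) → (∀ p ∈ F, p.1 ∈ A ∧ p.2 ∈ B ∧ p.1 + p.2 ∈ U) →
      (∀ p ∈ F, ∀ q ∈ F, (p.1 = q.1 ∨ p.2 = q.2 ∨ p.1 + p.2 = q.1 + q.2) → p = q) →
      (P.card : ℝ) ≤ δ * (n : ℝ) ^ 2 → (F.card : ℝ) ≤ ε * n := by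
  have he : 0 < ε / 27 := by positivity
  refine ⟨triangleRemovalBound (ε / 27), triangleRemovalBound_pos he, ?_⟩
  intro n hn P F A B U hA hB hU hP hF hD hc
  by_contra hcon
  rw [not_le] at hcon
  have hFn : ∀ p ∈ F, p.1 ≤ n ∧ p.2 ≤ n := fun p hp => ⟨hA _ (hF p hp).1, hB _ (hF p hp).2.1⟩
  have hFs : ∀ p ∈ F, p.1 + p.2 ≤ n := fun p hp => hU _ (hF p hp).2.2
  have : ExplicitDisjoint (tri n F) := by
    refine ⟨?_, ?_, ?_⟩
    · intro a b c a' h1 h2
      obtain ⟨p, hp, e1, e2⟩ := mem_tri.1 h1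
      obtain ⟨q, hq, e3, e4⟩ := mem_tri.1 h2
      have e5 : (p.2 : ZMod (2 * n + 1)) = (q.2 : ZMod (2 * n + 1)) := by
        rw [← e1] at e2
        rw [← e3] at e4
        exact add_left_cancel (e2.symm.trans e4)
      have e6 : p = q := hD p hp q hq (Or.inr (Or.inl (cast_inj (by linarith [(hFn p hp).2])
        (by linarith [(hFn q hq).2]) e5)))
      rw [← e6] at e3
      exact add_right_cancel (e1.symm.trans e3)
    · intro a b c b' h1 h2
      obtain ⟨p, hp, e1, e2⟩ := mem_tri.1 h1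
      obtain ⟨q, hq, e3, e4⟩ := mem_tri.1 h2
      have e5 : ((p.1 + p.2 : ℕ) : ZMod (2 * n + 1)) = ((q.1 + q.2 : ℕ) : ZMod (2 * n + 1)) := by
        push_cast
        rw [add_assoc] at e2 e4
        exact add_left_cancel (e2.symm.trans e4)
      have e6 : p = q := hD p hp q hq (Or.inr (Or.inr (cast_inj (by linarith [hFs p hp])
        (by linarith [hFs q hq]) e5)))
      rw [← e6] at e3
      exact e1.trans e3.symm
    · intro a b c c' h1 h2
      obtain ⟨p, hp, e1, e2⟩ := mem_tri.1 h1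
      obtain ⟨q, hq, e3, e4⟩ := mem_tri.1 h2
      have e5 : (p.1 : ZMod (2 * n + 1)) = (q.1 : ZMod (2 * n + 1)) :=
        add_left_cancel (e1.symm.trans e3)
      have e6 : p = q := hD p hp q hq (Or.inl (cast_inj (by linarith [(hFn p hp).1])
        (by linarith [(hFn q hq).1]) e5))
      rw [← e6] at e4
      exact e2.trans e4.symm
  have hN : (0 : ℝ) < n := by exact_mod_cast hn
  have hn1 : (1 : ℝ) ≤ n := by exact_mod_cast hn
  have far : (graph (tri n F)).FarFromTriangleFree (ε / 27) := by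
    apply farFromTriangleFree
    rw [card_tri hFn, ZMod.card]
    push_cast
    have h1 : (ε / 27) * (2 * (n : ℝ) + 1 + (2 * n + 1) + (2 * n + 1)) ^ 2
        = (2 * (n : ℝ) + 1) * (ε * ((2 * n + 1) / 3)) := by ring
    rw [h1]
    refine mul_le_mul_of_nonneg_left ?_ (by positivity)
    refine le_trans ?_ hcon.le
    refine mul_le_mul_of_nonneg_left ?_ hε.le
    linarith
  have h2 := far.le_card_cliqueFinset
  have h3 : ((graph (tri n F)).cliqueFinset 3).card ≤ (2 * n + 1) * P.card := by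
    have h4 : (graph (tri n F)).cliqueFinset 3 ⊆
        ((univ : Finset (ZMod (2 * n + 1))) ×ˢ P).image
          (fun q => toTriangle (q.1, q.1 + (q.2.1 : ZMod (2 * n + 1)),
            q.1 + (q.2.1 : ZMod (2 * n + 1)) + (q.2.2 : ZMod (2 * n + 1)))) := by
      intro s hs
      rw [mem_cliqueFinset_iff, SimpleGraph.is3Clique_iff] at hs
      obtain ⟨x, y, z, hxy, hxz, hyz, rfl⟩ := hs
      obtain ⟨a, b, c, habc, hab, hac, hbc⟩ := graph_triple hxy hxz hyz
      obtain ⟨c', hc'⟩ := Graph.in₀₁_iff.1 hab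
      obtain ⟨b', hb'⟩ := Graph.in₀₂_iff.1 hac
      obtain ⟨a', ha'⟩ := Graph.in₁₂_iff.1 hbc
      obtain ⟨p, hp, e1, e2⟩ := mem_tri.1 hc'
      obtain ⟨q, hq, e3, e4⟩ := mem_tri.1 ha'
      obtain ⟨r, hr, e5, e6⟩ := mem_tri.1 hb'
      rw [mem_image]
      have e7 : c = b + (q.2 : ZMod (2 * n + 1)) := by rw [e4, ← e3]
      refine ⟨(a, (p.1, q.2)), ?_, ?_⟩
      · rw [mem_product]
        refine ⟨mem_univ _, hP _ (hF p hp).1 _ (hF q hq).2.1 ?_⟩
        have e8 : ((p.1 + q.2 : ℕ) : ZMod (2 * n + 1)) = ((r.1 + r.2 : ℕ) : ZMod (2 * n + 1)) := by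
          push_cast
          rw [e1, add_assoc] at e7
          rw [add_assoc] at e6
          exact add_left_cancel (e7.symm.trans e6)
        have e9 := cast_inj (by linarith [(hFn p hp).1, (hFn q hq).2]) (by linarith [hFs r hr]) e8
        rw [e9]
        exact (hF r hr).2.2
      · rw [← habc]
        simp only [toTriangle_apply]
        rw [← e1, ← e7]
    refine (card_le_card h4).trans (card_image_le.trans ?_)
    rw [card_product, card_univ, ZMod.card]
  have h5 : (((graph (tri n F)).cliqueFinset 3).card : ℝ) ≤ (2 * n + 1) * P.card := by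
    exact_mod_cast h3
  have hb := triangleRemovalBound_pos he
  have h6 : (Fintype.card (ZMod (2 * n + 1) ⊕ ZMod (2 * n + 1) ⊕ ZMod (2 * n + 1)) : ℝ)
      = 3 * (2 * n + 1) := by
    rw [Fintype.card_sum, Fintype.card_sum, ZMod.card]
    push_cast; ring
  rw [h6] at h2
  have h7 : (2 * (n : ℝ) + 1) * P.card ≤ (2 * n + 1) * (triangleRemovalBound (ε / 27) * (n : ℝ) ^ 2) :=
    mul_le_mul_of_nonneg_left hc (by positivity)
  have h8 := h2.trans (h5.trans h7)
  have h9 : triangleRemovalBound (ε / 27) * ((2 * (n : ℝ) + 1) * (n : ℝ) ^ 2)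
      < triangleRemovalBound (ε / 27) * (3 * (2 * (n : ℝ) + 1)) ^ 3 := by
    refine mul_lt_mul_of_pos_left ?_ hb
    nlinarith [hN, pow_pos hN 2, pow_pos hN 3]
  have h10 : (2 * (n : ℝ) + 1) * (triangleRemovalBound (ε / 27) * (n : ℝ) ^ 2)
      = triangleRemovalBound (ε / 27) * ((2 * (n : ℝ) + 1) * (n : ℝ) ^ 2) := by ring
  rw [h10] at h8
  exact absurd h8 (not_le.2 h9)

end

theorem removal_sums (ε : ℝ) (hε : 0 < ε) : ∃ δ : ℝ, 0 < δ ∧ ∀ n : ℕ, 1 ≤ n →
    ∀ A B U : Finset ℕ, (∀ b ∈ A, 1 ≤ b ∧ b ≤ n) → (∀ c ∈ B, 1 ≤ c ∧ c ≤ n) →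
      (∀ m ∈ U, 1 ≤ m ∧ m ≤ n) →
      (((A ×ˢ B).filter (fun q => q.1 + q.2 ∈ U)).card : ℝ) ≤ δ * (n : ℝ) ^ 2 →
      ∃ SA SB SU : Finset ℕ, (SA.card : ℝ) ≤ ε * n ∧ (SB.card : ℝ) ≤ ε * n ∧
        (SU.card : ℝ) ≤ ε * n ∧
        ∀ b ∈ A, ∀ c ∈ B, b + c ∈ U → b ∈ SA ∨ c ∈ SB ∨ b + c ∈ SU := by
  classical
  obtain ⟨δ, hδ, H⟩ := main_bound ε hε
  refine ⟨δ, hδ, ?_⟩
  intro n hn A B U hA hB hU hc
  set P := (A ×ˢ B).filter (fun q => q.1 + q.2 ∈ U) with hPdef
  let D : Finset (ℕ × ℕ) → Prop := fun F =>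
    ∀ p ∈ F, ∀ q ∈ F, (p.1 = q.1 ∨ p.2 = q.2 ∨ p.1 + p.2 = q.1 + q.2) → p = q
  have hne : (P.powerset.filter D).Nonempty :=
    ⟨∅, by
      rw [Finset.mem_filter, Finset.mem_powerset]
      exact ⟨Finset.empty_subset _, fun p hp => absurd hp (Finset.notMem_empty p)⟩⟩
  obtain ⟨F, hF, hmax⟩ := Finset.exists_max_image (P.powerset.filter D) Finset.card hne
  rw [Finset.mem_filter, Finset.mem_powerset] at hF
  obtain ⟨hFP, hFD⟩ := hF
  have hFm : ∀ p ∈ F, p.1 ∈ A ∧ p.2 ∈ B ∧ p.1 + p.2 ∈ U := by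
    intro p hp
    have h1 := hFP hp
    rw [hPdef, Finset.mem_filter, Finset.mem_product] at h1
    exact ⟨h1.1.1, h1.1.2, h1.2⟩
  have hcard : (F.card : ℝ) ≤ ε * n := by
    refine H n hn P F A B U (fun b hb => (hA b hb).2) (fun b hb => (hB b hb).2)
      (fun b hb => (hU b hb).2) ?_ hFm hFD hc
    intro b hb c hc' hbc
    rw [hPdef, Finset.mem_filter, Finset.mem_product]
    exact ⟨⟨hb, hc'⟩, hbc⟩
  refine ⟨F.image Prod.fst, F.image Prod.snd, F.image (fun p => p.1 + p.2), ?_, ?_, ?_, ?_⟩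
  · exact le_trans (by exact_mod_cast Finset.card_image_le) hcard
  · exact le_trans (by exact_mod_cast Finset.card_image_le) hcard
  · exact le_trans (by exact_mod_cast Finset.card_image_le) hcard
  · intro b hb c hc' hbc
    by_contra hcon
    rw [not_or, not_or] at hcon
    obtain ⟨n1, n2, n3⟩ := hcon
    have hbcF : (b, c) ∉ F := fun h => n1 (Finset.mem_image_of_mem Prod.fst h)
    have hins : insert (b, c) F ∈ P.powerset.filter D := by
      rw [Finset.mem_filter, Finset.mem_powerset]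
      refine ⟨?_, ?_⟩
      · rw [Finset.insert_subset_iff]
        refine ⟨?_, hFP⟩
        rw [hPdef, Finset.mem_filter, Finset.mem_product]
        exact ⟨⟨hb, hc'⟩, hbc⟩
      · have key : ∀ q ∈ F, ¬ (b = q.1 ∨ c = q.2 ∨ b + c = q.1 + q.2) := by
          rintro q hq (h | h | h)
          · exact n1 (Finset.mem_image.2 ⟨q, hq, h.symm⟩)
          · exact n2 (Finset.mem_image.2 ⟨q, hq, h.symm⟩)
          · exact n3 (Finset.mem_image.2 ⟨q, hq, h.symm⟩)
        intro p hp q hq h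
        rw [Finset.mem_insert] at hp hq
        rcases hp with rfl | hp
        · rcases hq with rfl | hq
          · rfl
          · exact absurd h (key q hq)
        · rcases hq with rfl | hq
          · refine absurd ?_ (key p hp)
            rcases h with h | h | h
            · exact Or.inl h.symm
            · exact Or.inr (Or.inl h.symm)
            · exact Or.inr (Or.inr h.symm)
          · exact hFD p hp q hq h
    have h2 := hmax _ hins
    rw [Finset.card_insert_of_notMem hbcF] at h2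
    omega

end Pool.Agent.H29.CJ
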