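import Pool.Agent.H29.CJ.Core

/-!
# The universal language: definitions

Alphabet `Ct α`: text tokens and letters `x a`.  The text `txt G pd` of a grammar `G : Gr α K` is `s m s p^pd`, where `s` is the
concatenation of the sections of the nonterminals; section `A` is `S l^A o (content) o l^A E`, the content lists the letters
`b a` with `G.base A a`, and then the rules `R (I l^B o l^C o)*`.  A word `w` is coded by `enc G pd w`, every letter `a` being replaced by
`txt G pd ++ [x a]`.  The language `LU` (independent of `G`) contains `enc G pd w` iff `G.D 0 w`.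
-/

set_option autoImplicit false

namespace Pool.Agent.H29.CJ

/-- The alphabet of the universal language. -/
inductive Ct (α : Type) : Type
  | S | E | o | l | m | R | I | p
  | b (a : α)
  | x (a : α)

open Ct

variable {α : Type}

def isx (c : Ct α) : Prop := ∃ a, c = x a
def isb (c : Ct α) : Prop := ∃ a, c = b a
def tok (c : Ct α) : Prop := ¬ isx c
def tokm (c : Ct α) : Prop := ¬ isx c ∧ c ≠ m
def inner (c : Ct α) : Prop := c = l ∨ c = o ∨ c = R ∨ c = I ∨ isb c

/-- leading name -/
def nmS : Set (List (Ct α)) := cat (LC (· = S)) (cat (ST (· = l)) (LC (· = o)))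
/-- trailing name -/
def nmE : Set (List (Ct α)) := cat (LC (· = o)) (cat (ST (· = l)) (LC (· = E)))

def BaseL : Set (List (Ct α)) :=
  {w | ∃ a, w ∈ cat (ST isb) (cat (LC (· = b a)) (cat (ST tok) (LC (· = x a))))}
def BaseR : Set (List (Ct α)) :=
  {w | ∃ a, w ∈ cat (LC (· = x a)) (cat (ST tokm) (cat (LC (· = b a)) (ST inner)))}

/-- an item text -/
def ItT : Set (List (Ct α)) :=
  cat (LC (· = I)) (cat (ST (· = l)) (cat (LC (· = o)) (cat (ST (· = l)) (LC (· = o)))))

def MB : Set (List (Ct α)) :=
  cat (LC (· = I)) (cat (Sync (LC (· = l)) (cat (LC (· = o)) (cat Set.univ (LC (· = o))))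
    (LC (· = l))) (LC (· = E)))
def MC : Set (List (Ct α)) :=
  cat (LC (· = I)) (cat (ST (· = l)) (cat (LC (· = o))
    (cat (Sync (LC (· = l)) (cat (LC (· = o)) (cat Set.univ (LC (· = S)))) (LC (· = l)))
      (LC (· = o)))))
def GapL : Set (List (Ct α)) := cat (ST tokm) (cat (LC (· = m)) (cat (ST tokm) nmS))
def GapR : Set (List (Ct α)) := cat (ST tokm) (cat (LC (· = m)) (ST tokm))
def MBR : Set (List (Ct α)) :=
  cat (LC (· = o)) (cat (Sync (LC (· = l)) (cat (LC (· = E)) (cat Set.univ (LC (· = I))))
    (LC (· = l))) (cat (LC (· = o)) (cat (ST (· = l)) (LC (· = o)))))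
def MCR : Set (List (Ct α)) :=
  cat (LC (· = S)) (cat (Sync (LC (· = l)) (cat (LC (· = o)) (cat Set.univ (LC (· = o))))
    (LC (· = l))) (LC (· = o)))

/-- the unknowns -/
inductive Vu : Type
  | LL | RL | IL | IR
  deriving DecidableEq, Fintype

def ItemL (X : Vu → Set (List (Ct α))) : Set (List (Ct α)) :=
  cat (MC ∩ cat (MB ∩ cat (ST tok) (cat (X .RL) nmE)) GapL) (X .LL)

def ItemR (X : Vu → Set (List (Ct α))) : Set (List (Ct α)) :=
  cat (X .RL) (MBR ∩ cat nmE (cat GapR (MCR ∩ cat nmS (cat (X .LL) (ST tokm)))))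

def PhiU : Vu → (Vu → Set (List (Ct α))) → Set (List (Ct α))
  | .LL, X => BaseL ∪ cat (ST inner) (cat (LC (· = R)) (X .IL))
  | .IL, X => cat (LC (· ≠ I)) Set.univ ∪ (ItemL X ∩ cat ItT (X .IL))
  | .RL, X => BaseR ∪ cat (X .IR) ({[]} ∪ cat (LC (· = R)) (ST inner))
  | .IR, X => cat Set.univ (LC (· = R)) ∪ (ItemR X ∩ cat (X .IR) ItT)

def SU : Vu → Set (List (Ct α)) := Lfp PhiU

/-- the universal language -/
def LU : Set (List (Ct α)) :=
  cat (ST tokm) (cat (LC (· = m)) (cat (LC (· = S)) (cat (LC (· = o)) (SU .LL))))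

noncomputable section

open Classical

variable [Fintype α] {K : ℕ} (G : Gr α K) (pd : ℕ) (w : List α)

def itm (q : Fin K × Fin K) : List (Ct α) :=
  I :: (List.replicate q.1 l ++ (o :: (List.replicate q.2 l ++ [o])))

def rul (ρ : List (Fin K × Fin K)) : List (Ct α) := R :: ρ.flatMap itm

def bas (A : Fin K) : List (Ct α) := (Finset.univ.filter (fun a => G.base A a)).toList.map Ct.b

def rls (A : Fin K) : List (Ct α) := (G.rules A).flatMap rul

def cont (A : Fin K) : List (Ct α) := bas G A ++ rls G A

def sect (A : Fin K) : List (Ct α) :=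
  S :: (List.replicate A l ++ (o :: (cont G A ++ (o :: (List.replicate A l ++ [E])))))

def sects : List (Ct α) := (List.finRange K).flatMap (sect G)

/-- the text of the grammar -/
def txt : List (Ct α) := sects G ++ (m :: (sects G ++ List.replicate pd p))

/-- the code of a word -/
def enc : List (Ct α) := w.flatMap (fun a => txt G pd ++ [x a])

/-- chunk length -/
def dD : ℕ := (txt G pd).length + 1

/-- offset of section `A` in `sects` -/
def oS (A : Fin K) : ℕ := (((List.finRange K).take A).flatMap (sect G)).length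

/-- position of the letter `i` -/
def posx (i : ℕ) : ℕ := i * dD G pd + (txt G pd).length

/-- position of the separator `m` of chunk `i` -/
def posm (i : ℕ) : ℕ := i * dD G pd + (sects G).length

/-- position of the `S` of section `A` in copy `c` of chunk `i` -/
def secS (c : Bool) (i : ℕ) (A : Fin K) : ℕ :=
  i * dD G pd + (if c then (sects G).length + 1 else 0) + oS G A

/-- start of the content of section `A` -/
def posC (c : Bool) (i : ℕ) (A : Fin K) : ℕ := secS G pd c i A + A + 2

/-- end of the content of section `A` (start of the trailing name) -/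
def posE (c : Bool) (i : ℕ) (A : Fin K) : ℕ := posC G pd c i A + (cont G A).length

end

/-- `w` reads `v` from position `i`. -/
def Rd {β : Type} (w : List β) (i : ℕ) (v : List β) : Prop := i ≤ w.length ∧ v <+: w.drop i

end Pool.Agent.H29.CJ
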