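import Pool.Agent.H29.CJ.UnD
import Pool.Agent.H29.CJ.AtL

/-!
# Positions in coded words

Use only the STATEMENTS of `AtL`.

`enc G pd w` is a concatenation of `w.length` chunks of the same length `dD`; general lemma: for `i < w.length`, `t < dD`:
`(enc G pd w)[i * dD + t]? = (txt G pd ++ [x w[i]])[t]?` (induction on `w`).  Every position `r < w.length * dD` is `i * dD + t` with
`i = r / dD`, `t = r % dD`.  `txt = sects ++ m :: (sects ++ p^pd)`; the letters of `sects` are not `x _`, not `m` (all letters of `sect G A` are
`S, l, o, E, b _, R, I`).  `sects = ((finRange K).take A).flatMap sect ++ sect G A ++ rest` (`List.take_append_drop`, `List.drop_eq_getElem_cons`,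
`List.getElem_finRange`); `Rd` of a part of the text at the right offset.
Order facts: `oS A + (sect G A).length ≤ (sects G).length`, `(sect G A).length = 2 A + 4 + (cont G A).length`.
-/

set_option autoImplicit false

namespace Pool.Agent.H29.CJ

open Ct

variable {α : Type} [Fintype α] {K : ℕ} (G : Gr α K) (pd : ℕ) (w : List α)

theorem enc_length : (enc G pd w).length = w.length * dD G pd := by
  unfold enc
  induction w with
  | nil => simp
  | cons a w ih =>
    rw [List.flatMap_cons, List.length_append, ih, List.length_append, List.length_singleton,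
      List.length_cons, Nat.succ_mul, Nat.add_comm]
    rfl

private theorem unf_get {w : List α} {i t : ℕ} (hi : i < w.length) (ht : t < dD G pd) :
    (enc G pd w)[i * dD G pd + t]? = (txt G pd ++ [x w[i]])[t]? := by
  induction w generalizing i with
  | nil => simp at hi
  | cons a w ih =>
    have e : enc G pd (a :: w) = (txt G pd ++ [x a]) ++ enc G pd w := by
      unfold enc
      rw [List.flatMap_cons]
    have hl : (txt G pd ++ [x a]).length = dD G pd := by
      rw [List.length_append, List.length_singleton]
      rfl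
    rw [e]
    cases i with
    | zero =>
      rw [Nat.zero_mul, Nat.zero_add, List.getElem?_append_left (by rw [hl]; exact ht)]
      rfl
    | succ i =>
      have hi' : i < w.length := by simpa using hi
      rw [List.getElem?_append_right (by rw [hl, Nat.succ_mul]; omega), hl]
      have e2 : (i + 1) * dD G pd + t - dD G pd = i * dD G pd + t := by
        rw [Nat.succ_mul]
        omega
      rw [e2, ih hi']
      rfl

private theorem unf_txt_length : (txt G pd).length = (sects G).length + 1 + ((sects G).length + pd) := by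
  unfold txt
  simp
  omega

private theorem unf_sect_length (A : Fin K) : (sect G A).length = 2 * (A : ℕ) + 4 + (cont G A).length := by
  unfold sect
  simp
  omega

private theorem unf_cont_mem {A : Fin K} {c : Ct α} (h : c ∈ cont G A) : ¬ isx c ∧ c ≠ m := by
  unfold cont at h
  rcases List.mem_append.1 h with h | h
  · unfold bas at h
    obtain ⟨a, _, rfl⟩ := List.mem_map.1 h
    constructor
    · rintro ⟨b, hb⟩
      cases hb
    · intro hb
      cases hb
  · unfold rls at h
    obtain ⟨ρ, _, h⟩ := List.mem_flatMap.1 h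
    unfold rul at h
    rcases List.mem_cons.1 h with rfl | h
    · constructor
      · rintro ⟨b, hb⟩
        cases hb
      · intro hb
        cases hb
    · obtain ⟨q, _, h⟩ := List.mem_flatMap.1 h
      unfold itm at h
      simp only [List.mem_cons, List.mem_append, List.mem_replicate, List.mem_singleton,
        List.not_mem_nil, or_false] at h
      rcases h with rfl | ⟨_, rfl⟩ | rfl | ⟨_, rfl⟩ | rfl <;>
      · constructor
        · rintro ⟨b, hb⟩
          cases hb
        · intro hb
          cases hb

private theorem unf_sects_mem {c : Ct α} (h : c ∈ sects G) : ¬ isx c ∧ c ≠ m := by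
  unfold sects at h
  obtain ⟨A, _, h⟩ := List.mem_flatMap.1 h
  unfold sect at h
  simp only [List.mem_cons, List.mem_append, List.mem_replicate, List.mem_singleton,
    List.not_mem_nil, or_false] at h
  rcases h with rfl | ⟨_, rfl⟩ | rfl | h | rfl | ⟨_, rfl⟩ | rfl
  · constructor
    · rintro ⟨b, hb⟩
      cases hb
    · intro hb
      cases hb
  · constructor
    · rintro ⟨b, hb⟩
      cases hb
    · intro hb
      cases hb
  · constructor
    · rintro ⟨b, hb⟩
      cases hb
    · intro hb
      cases hb
  · exact unf_cont_mem G h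
  · constructor
    · rintro ⟨b, hb⟩
      cases hb
    · intro hb
      cases hb
  · constructor
    · rintro ⟨b, hb⟩
      cases hb
    · intro hb
      cases hb
  · constructor
    · rintro ⟨b, hb⟩
      cases hb
    · intro hb
      cases hb

/-- letters of the text by position -/
private theorem unf_txt_get {t : ℕ} {c : Ct α} (h : (txt G pd)[t]? = some c) :
    ¬ isx c ∧ (t ≠ (sects G).length → c ≠ m) := by
  unfold txt at h
  rcases lt_trichotomy t (sects G).length with ht | ht | ht
  · rw [List.getElem?_append_left ht] at h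
    have := unf_sects_mem G (List.mem_of_getElem? h)
    exact ⟨this.1, fun _ => this.2⟩
  · subst ht
    rw [List.getElem?_append_right le_rfl, Nat.sub_self] at h
    simp only [List.getElem?_cons_zero, Option.some.injEq] at h
    subst h
    refine ⟨?_, fun h => absurd rfl h⟩
    rintro ⟨b, hb⟩
    cases hb
  · rw [List.getElem?_append_right ht.le] at h
    have h2 : c ∈ sects G ++ List.replicate pd p := by
      obtain ⟨s, hs⟩ : ∃ s, t - (sects G).length = s + 1 := ⟨t - (sects G).length - 1, by omega⟩
      rw [hs, List.getElem?_cons_succ] at h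
      exact List.mem_of_getElem? h
    rcases List.mem_append.1 h2 with h2 | h2
    · have := unf_sects_mem G h2
      exact ⟨this.1, fun _ => this.2⟩
    · obtain ⟨_, rfl⟩ := List.mem_replicate.1 h2
      refine ⟨?_, fun _ => ?_⟩
      · rintro ⟨b, hb⟩
        cases hb
      · intro hb
        cases hb

private theorem unf_dD : dD G pd = (txt G pd).length + 1 := rfl

private theorem unf_pos : 0 < dD G pd := by
  rw [unf_dD]
  omega

/-- decomposition of a position -/
private theorem unf_dec {r : ℕ} (hr : r < w.length * dD G pd) :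
    ∃ i t, i < w.length ∧ t < dD G pd ∧ r = i * dD G pd + t := by
  refine ⟨r / dD G pd, r % dD G pd, ?_, Nat.mod_lt _ (unf_pos G pd), ?_⟩
  · exact (Nat.div_lt_iff_lt_mul (unf_pos G pd)).2 hr
  · rw [Nat.mul_comm]
    exact (Nat.div_add_mod r (dD G pd)).symm

theorem enc_x {i : ℕ} (hi : i < w.length) : (enc G pd w)[posx G pd i]? = some (x w[i]) := by
  have h := unf_get G pd hi (t := (txt G pd).length) (by rw [unf_dD]; omega)
  unfold posx
  rw [h, List.getElem?_append_right le_rfl, Nat.sub_self]
  rfl

/-- the letter at a position -/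
private theorem unf_letter {r : ℕ} {c : Ct α} (h : (enc G pd w)[r]? = some c) :
    ∃ i t, ∃ hi : i < w.length, r = i * dD G pd + t ∧
      ((t < (txt G pd).length ∧ (txt G pd)[t]? = some c) ∨ (t = (txt G pd).length ∧ c = x w[i])) := by
  have hr : r < w.length * dD G pd := by
    rw [← enc_length]
    exact (List.getElem?_eq_some_iff.1 h).1
  obtain ⟨i, t, hi, ht, e⟩ := unf_dec G pd w hr
  refine ⟨i, t, hi, e, ?_⟩
  subst e
  rw [unf_get G pd hi ht] at h
  rw [unf_dD] at ht
  rcases Nat.lt_succ_iff_lt_or_eq.1 ht with ht' | ht'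
  · left
    rw [List.getElem?_append_left ht'] at h
    exact ⟨ht', h⟩
  · right
    refine ⟨ht', ?_⟩
    subst ht'
    rw [List.getElem?_append_right le_rfl, Nat.sub_self] at h
    simp only [List.getElem?_cons_zero, Option.some.injEq] at h
    exact h.symm

theorem enc_isx {r : ℕ} {a : α} (h : (enc G pd w)[r]? = some (x a)) :
    ∃ i, ∃ hi : i < w.length, r = posx G pd i ∧ a = w[i] := by
  obtain ⟨i, t, hi, e, h1 | h1⟩ := unf_letter G pd w h
  · exact absurd ⟨a, rfl⟩ (unf_txt_get G pd h1.2).1
  · refine ⟨i, hi, ?_, ?_⟩
    · rw [e, h1.1]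
      rfl
    · have := h1.2
      injection this

theorem enc_m {i : ℕ} (hi : i < w.length) : Is (enc G pd w) (posm G pd i) (· = m) := by
  have hl := unf_txt_length G pd
  have h := unf_get G pd hi (t := (sects G).length) (by rw [unf_dD]; omega)
  refine ⟨m, ?_, rfl⟩
  unfold posm
  rw [h, List.getElem?_append_left (by omega)]
  unfold txt
  rw [List.getElem?_append_right le_rfl, Nat.sub_self]
  rfl

theorem enc_ism {r : ℕ} (h : Is (enc G pd w) r (· = m)) : ∃ i < w.length, r = posm G pd i := by
  obtain ⟨c, h, rfl⟩ := h
  obtain ⟨i, t, hi, e, h1 | h1⟩ := unf_letter G pd w h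
  · refine ⟨i, hi, ?_⟩
    have h2 := (unf_txt_get G pd h1.2).2
    have h3 : t = (sects G).length := by
      by_contra hne
      exact h2 hne rfl
    rw [e, h3]
    rfl
  · have := h1.2
    cases this

private theorem unf_some {r : ℕ} (hr : r < w.length * dD G pd) : ∃ c, (enc G pd w)[r]? = some c := by
  rw [← enc_length] at hr
  exact ⟨_, List.getElem?_eq_getElem hr⟩

theorem enc_tok {r : ℕ} (hr : r < w.length * dD G pd) (h : ∀ i, r ≠ posx G pd i) :
    Is (enc G pd w) r tok := by
  obtain ⟨c, hc⟩ := unf_some G pd w hr
  refine ⟨c, hc, ?_⟩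
  rintro ⟨a, rfl⟩
  obtain ⟨i, hi, e, _⟩ := enc_isx G pd w hc
  exact h i e

theorem enc_tokm {r : ℕ} (hr : r < w.length * dD G pd) (h : ∀ i, r ≠ posx G pd i)
    (h' : ∀ i, r ≠ posm G pd i) : Is (enc G pd w) r tokm := by
  obtain ⟨c, hc⟩ := unf_some G pd w hr
  refine ⟨c, hc, ?_, ?_⟩
  · rintro ⟨a, rfl⟩
    obtain ⟨i, hi, e, _⟩ := enc_isx G pd w hc
    exact h i e
  · intro hm
    obtain ⟨i, _, e⟩ := enc_ism G pd w ⟨c, hc, hm⟩
    exact h' i e

private theorem unf_Rd {β : Type} {w P v Q : List β} (h : w = P ++ (v ++ Q)) : Rd w P.length v := by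
  subst h
  refine ⟨by simp, ?_⟩
  rw [List.drop_left]
  exact List.prefix_append v Q

private theorem unf_sects_split (A : Fin K) :
    ∃ P Q, sects G = P ++ (sect G A ++ Q) ∧ P.length = oS G A := by
  refine ⟨((List.finRange K).take A).flatMap (sect G), ((List.finRange K).drop (A + 1)).flatMap (sect G), ?_, rfl⟩
  have hA : (A : ℕ) < (List.finRange K).length := by
    rw [List.length_finRange]
    exact A.2
  have e : List.finRange K = (List.finRange K).take A ++ (A :: (List.finRange K).drop (A + 1)) := by
    conv_lhs => rw [← List.take_append_drop A (List.finRange K)]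
    congr 1
    rw [List.drop_eq_getElem_cons hA, List.getElem_finRange]
    rfl
  unfold sects
  conv_lhs => rw [e]
  rw [List.flatMap_append, List.flatMap_cons]

theorem enc_sect {i : ℕ} (hi : i < w.length) (c : Bool) (A : Fin K) :
    Rd (enc G pd w) (secS G pd c i A) (sect G A) := by
  obtain ⟨P3, Q3, e3, l3⟩ := unf_sects_split G A
  -- the text
  obtain ⟨P2, Q2, e2, l2⟩ : ∃ P2 Q2, txt G pd = P2 ++ (sects G ++ Q2) ∧
      P2.length = (if c then (sects G).length + 1 else 0) := by
    cases c with
    | false => exact ⟨[], m :: (sects G ++ List.replicate pd p), by unfold txt; rfl, rfl⟩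
    | true =>
      refine ⟨sects G ++ [m], List.replicate pd p, by unfold txt; simp, ?_⟩
      simp
  obtain ⟨P1, Q1, e1, l1⟩ : ∃ P1 Q1, enc G pd w = P1 ++ (txt G pd ++ Q1) ∧ P1.length = i * dD G pd := by
    refine ⟨enc G pd (w.take i), [x w[i]] ++ enc G pd (w.drop (i + 1)), ?_, ?_⟩
    · have e : w = w.take i ++ (w[i] :: w.drop (i + 1)) := by
        conv_lhs => rw [← List.take_append_drop i w]
        congr 1
        exact List.drop_eq_getElem_cons hi
      have e' : enc G pd w = enc G pd (w.take i ++ (w[i] :: w.drop (i + 1))) := congrArg _ e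
      rw [e']
      unfold enc
      rw [List.flatMap_append, List.flatMap_cons, List.append_assoc]
    · rw [enc_length, List.length_take, min_eq_left hi.le]
  have e : enc G pd w = (P1 ++ P2 ++ P3) ++ (sect G A ++ (Q3 ++ Q2 ++ Q1)) := by
    rw [e1, e2, e3]
    simp only [List.append_assoc]
  have h := unf_Rd e
  have hl : (P1 ++ P2 ++ P3).length = secS G pd c i A := by
    rw [List.length_append, List.length_append, l1, l2, l3]
    rfl
  rwa [hl] at h

private theorem unf_oS (A : Fin K) : oS G A + (sect G A).length ≤ (sects G).length := by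
  obtain ⟨P3, Q3, e3, l3⟩ := unf_sects_split G A
  rw [e3, List.length_append, List.length_append, l3]
  omega

/-- order of the positions in chunk `i` -/
theorem pos_order (i : ℕ) (A : Fin K) :
    i * dD G pd ≤ secS G pd false i A ∧ posE G pd false i A + A + 2 ≤ posm G pd i ∧
    posm G pd i < secS G pd true i A ∧ posE G pd true i A + A + 2 ≤ posx G pd i ∧
    posx G pd i + 1 = (i + 1) * dD G pd ∧ i * dD G pd ≤ posm G pd i ∧
    posm G pd i < posx G pd i := by
  have h1 := unf_oS G A
  have h2 := unf_sect_length G A
  have h3 := unf_txt_length G pd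
  have h4 : (i + 1) * dD G pd = i * dD G pd + ((txt G pd).length + 1) := by
    rw [Nat.succ_mul]
    rfl
  have h5 : secS G pd false i A = i * dD G pd + 0 + oS G A := rfl
  have h6 : secS G pd true i A = i * dD G pd + ((sects G).length + 1) + oS G A := rfl
  unfold posE posC posm posx
  rw [h4, h5, h6]
  refine ⟨?_, ?_, ?_, ?_, ?_, ?_, ?_⟩ <;> omega

theorem dD_pos : 0 < dD G pd := by
  exact unf_pos G pd

/-- between consecutive letters there are only text tokens -/
theorem no_x_between {i r : ℕ} (h1 : i * dD G pd ≤ r) (h2 : r < posx G pd i) (j : ℕ) :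
    r ≠ posx G pd j := by
  rintro rfl
  unfold posx at h1 h2
  have hd : dD G pd = (txt G pd).length + 1 := rfl
  rcases Nat.lt_or_ge j i with hj | hj
  · have h3 := Nat.mul_le_mul_right (dD G pd) (Nat.succ_le_of_lt hj)
    rw [Nat.succ_mul] at h3
    omega
  · have h3 := Nat.mul_le_mul_right (dD G pd) hj
    omega

theorem no_m_first {i r : ℕ} (h1 : i * dD G pd ≤ r) (h2 : r < posm G pd i) (j : ℕ) :
    r ≠ posm G pd j := by
  rintro rfl
  unfold posm at h1 h2
  have hd : dD G pd = (txt G pd).length + 1 := rfl
  have hl := unf_txt_length G pd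
  rcases Nat.lt_or_ge j i with hj | hj
  · have h3 := Nat.mul_le_mul_right (dD G pd) (Nat.succ_le_of_lt hj)
    rw [Nat.succ_mul] at h3
    omega
  · have h3 := Nat.mul_le_mul_right (dD G pd) hj
    omega

theorem no_m_second {i r : ℕ} (h1 : posm G pd i < r) (h2 : r ≤ posx G pd i) (j : ℕ) :
    r ≠ posm G pd j := by
  rintro rfl
  unfold posm at h1 h2
  unfold posx at h2
  have hd : dD G pd = (txt G pd).length + 1 := rfl
  have hl := unf_txt_length G pd
  rcases Nat.lt_or_ge i j with hj | hj
  · have h3 := Nat.mul_le_mul_right (dD G pd) (Nat.succ_le_of_lt hj)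
    rw [Nat.succ_mul] at h3
    omega
  · have h3 := Nat.mul_le_mul_right (dD G pd) hj
    omega

/-- reading: letters of a part that is read -/
theorem Rd.get {β : Type} {w : List β} {i : ℕ} {v : List β} (h : Rd w i v) {t : ℕ}
    (ht : t < v.length) : w[i + t]? = v[t]? := by
  obtain ⟨h1, s, hs⟩ := h
  rw [← List.getElem?_drop, ← hs, List.getElem?_append_left ht]

theorem Rd.append_left {β : Type} {w : List β} {i : ℕ} {u v : List β} (h : Rd w i (u ++ v)) :
    Rd w i u := by
  obtain ⟨h1, s, hs⟩ := h
  exact ⟨h1, v ++ s, by rw [← hs, List.append_assoc]⟩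

theorem Rd.append_right {β : Type} {w : List β} {i : ℕ} {u v : List β} (h : Rd w i (u ++ v)) :
    Rd w (i + u.length) v := by
  obtain ⟨h1, s, hs⟩ := h
  have hl : (w.drop i).length = u.length + v.length + s.length := by
    rw [← hs, List.length_append, List.length_append]
  rw [List.length_drop] at hl
  refine ⟨by omega, s, ?_⟩
  rw [← List.drop_drop, ← hs, List.append_assoc, List.drop_left]

theorem Rd.le {β : Type} {w : List β} {i : ℕ} {v : List β} (h : Rd w i v) :
    i + v.length ≤ w.length := by
  obtain ⟨h1, s, hs⟩ := h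
  have hl : (w.drop i).length = v.length + s.length := by
    rw [← hs, List.length_append]
  rw [List.length_drop] at hl
  omega

theorem Rd.at {β : Type} {w : List β} {i : ℕ} {v : List β} (h : Rd w i v) {L : Set (List β)}
    (hL : v ∈ L) : At w L i (i + v.length) := by
  refine ⟨Nat.le_add_right _ _, h.le, ?_⟩
  obtain ⟨h1, s, hs⟩ := h
  have e : seg w i (i + v.length) = v := by
    unfold seg
    rw [List.drop_take, ← hs, Nat.add_sub_cancel_left, List.take_left]
  rw [e]
  exact hL

end Pool.Agent.H29.CJ
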