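import Pool.Agent.H29.CJ.UnF

/-!
# Inversion of names

Use only the STATEMENTS of the imported files.

(E) An `E` letter of `enc G pd w` at position `r`: it lies in a chunk `j < w.length`, in one of the two copies of `sects`, in the section of some `A`,
and `sect G A = S :: (l^A ++ (o :: (cont ++ (o :: (l^A ++ [E])))))` contains `E` only as its last letter (letters of `cont` are `b, R, I, l, o`), so
`r = posE c j A + A + 1`.  General tool: if a concatenation `(list).flatMap f` has the letter `E` at position `r`, then there is an element of the list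
in whose piece it lies (`enc` is a `flatMap` of chunks; `sects` a `flatMap` of sections over `finRange K`).
Now `At (enc ..) nmE r e`: `e - 1` carries `E`, so `e = posE c j A + A + 2`; between `r` and `e - 1`: `o` at `r`, then `l`s up to `e - 2`.  By
`enc_sect`, the positions `posE c j A + 1, ..., posE c j A + A` carry `l`, and `posE c j A` carries `o`.  If `r < posE` then `posE` is strictly between `r` and
`e - 1` and must carry `l`, contradiction; if `r > posE`, then `r` carries `l` (or `E`), contradiction.  So `r = posE c j A`.
(S) The same with the leading name: `S` occurs in `sect G A` only as its first letter; `At nmS r e`: `S` at `r`, `r = secS c j A`, then `l`s and `o` at `e - 1`;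
positions `r+1..r+A` carry `l`, `r + A + 1` carries `o`; so `e = r + A + 2`.
-/

set_option autoImplicit false

namespace Pool.Agent.H29.CJ

open Ct

variable {α : Type} [Fintype α] {K : ℕ} (G : Gr α K) (pd : ℕ) (w : List α)

private theorem ung_flatMap {β γ : Type} (f : β → List γ) (L : List β) {r : ℕ} {a : γ}
    (h : (L.flatMap f)[r]? = some a) :
    ∃ (t : ℕ) (ht : t < L.length) (q : ℕ), r = ((L.take t).flatMap f).length + q ∧
      (f L[t])[q]? = some a := by
  induction L generalizing r with
  | nil => simp at h
  | cons b L ih =>
    rw [List.flatMap_cons] at h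
    by_cases hr : r < (f b).length
    · rw [List.getElem?_append_left hr] at h
      exact ⟨0, by simp, r, by simp, by simpa using h⟩
    · rw [List.getElem?_append_right (by omega)] at h
      obtain ⟨t, ht, q, e, hq⟩ := ih h
      refine ⟨t + 1, by simpa using ht, q, ?_, by simpa using hq⟩
      rw [List.take_succ_cons, List.flatMap_cons, List.length_append]
      omega

/-- a letter of `l1 ++ l2` that is not in `l2` -/
private theorem ung_left {γ : Type} {l1 l2 : List γ} {a : γ} {q : ℕ} (h2 : a ∉ l2)
    (h : (l1 ++ l2)[q]? = some a) : l1[q]? = some a := by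
  by_cases hq : q < l1.length
  · rwa [List.getElem?_append_left hq] at h
  · rw [List.getElem?_append_right (by omega)] at h
    exact absurd (List.mem_of_getElem? h) h2

/-- a letter of `l1 ++ l2` that is not in `l1` -/
private theorem ung_right {γ : Type} {l1 l2 : List γ} {a : γ} {q : ℕ} (h1 : a ∉ l1)
    (h : (l1 ++ l2)[q]? = some a) : l1.length ≤ q ∧ l2[q - l1.length]? = some a := by
  by_cases hq : q < l1.length
  · rw [List.getElem?_append_left hq] at h
    exact absurd (List.mem_of_getElem? h) h1
  · rw [List.getElem?_append_right (by omega)] at h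
    exact ⟨by omega, h⟩

private theorem ung_cont {A : Fin K} {c : Ct α} (h : c ∈ cont G A) :
    c = l ∨ c = o ∨ c = R ∨ c = I ∨ ∃ a, c = b a := by
  unfold cont at h
  rcases List.mem_append.1 h with h | h
  · unfold bas at h
    obtain ⟨a, -, rfl⟩ := List.mem_map.1 h
    exact Or.inr (Or.inr (Or.inr (Or.inr ⟨a, rfl⟩)))
  · unfold rls at h
    obtain ⟨ρ, -, hρ⟩ := List.mem_flatMap.1 h
    unfold rul at hρ
    rcases List.mem_cons.1 hρ with rfl | hρ
    · simp
    · obtain ⟨q, -, hq⟩ := List.mem_flatMap.1 hρ
      unfold itm at hq
      rcases List.mem_cons.1 hq with rfl | hq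
      · simp
      · rcases List.mem_append.1 hq with hq | hq
        · left
          exact List.eq_of_mem_replicate hq
        · rcases List.mem_cons.1 hq with rfl | hq
          · simp
          · rcases List.mem_append.1 hq with hq | hq
            · left
              exact List.eq_of_mem_replicate hq
            · right
              left
              simpa using hq

private theorem ung_cont_E (A : Fin K) : (E : Ct α) ∉ cont G A := by
  intro h
  rcases ung_cont G h with h | h | h | h | ⟨a, h⟩ <;> cases h

private theorem ung_cont_S (A : Fin K) : (S : Ct α) ∉ cont G A := by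
  intro h
  rcases ung_cont G h with h | h | h | h | ⟨a, h⟩ <;> cases h

private theorem ung_repl {c d : Ct α} (hcd : c ≠ d) (n : ℕ) : c ∉ List.replicate n d := by
  intro h
  exact hcd (List.eq_of_mem_replicate h)

/-- the section as two parts -/
private theorem ung_sect_E (A : Fin K) {q : ℕ} (h : (sect G A)[q]? = some (E : Ct α)) :
    q = A + 2 + (cont G A).length + A + 1 := by
  have e : sect G A = (S :: (List.replicate A l ++ (o :: (cont G A ++
      (o :: List.replicate A l))))) ++ [E] := by
    simp [sect]
  rw [e] at h
  have h1 : (E : Ct α) ∉ (S :: (List.replicate (A : ℕ) l ++ (o :: (cont G A ++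
      (o :: List.replicate (A : ℕ) l))))) := by
    intro hm
    rcases List.mem_cons.1 hm with hm | hm
    · cases hm
    · rcases List.mem_append.1 hm with hm | hm
      · exact ung_repl (by simp) _ hm
      · rcases List.mem_cons.1 hm with hm | hm
        · cases hm
        · rcases List.mem_append.1 hm with hm | hm
          · exact ung_cont_E G A hm
          · rcases List.mem_cons.1 hm with hm | hm
            · cases hm
            · exact ung_repl (by simp) _ hm
  obtain ⟨h2, h3⟩ := ung_right h1 h
  have h4 := (List.getElem?_eq_some_iff.1 h3).1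
  simp only [List.length_cons, List.length_append, List.length_replicate,
    List.length_nil] at h2 h4
  omega

private theorem ung_sect_S (A : Fin K) {q : ℕ} (h : (sect G A)[q]? = some (S : Ct α)) :
    q = 0 := by
  have e : sect G A = [S] ++ (List.replicate A l ++ (o :: (cont G A ++
      (o :: (List.replicate A l ++ [E]))))) := by
    simp [sect]
  rw [e] at h
  have h1 : (S : Ct α) ∉ (List.replicate (A : ℕ) l ++ (o :: (cont G A ++
      (o :: (List.replicate (A : ℕ) l ++ [E]))))) := by
    intro hm
    rcases List.mem_append.1 hm with hm | hm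
    · exact ung_repl (by simp) _ hm
    · rcases List.mem_cons.1 hm with hm | hm
      · cases hm
      · rcases List.mem_append.1 hm with hm | hm
        · exact ung_cont_S G A hm
        · rcases List.mem_cons.1 hm with hm | hm
          · cases hm
          · rcases List.mem_append.1 hm with hm | hm
            · exact ung_repl (by simp) _ hm
            · simp at hm
  have h2 := ung_left h1 h
  have h4 := (List.getElem?_eq_some_iff.1 h2).1
  simp only [List.length_cons, List.length_nil] at h4
  omega

/-- a letter `S` or `E` of the code lies in a section -/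
private theorem ung_enc {r : ℕ} {d : Ct α} (hd : d = S ∨ d = E)
    (h : (enc G pd w)[r]? = some d) :
    ∃ (c : Bool) (j : ℕ) (A : Fin K) (q : ℕ), j < w.length ∧ r = secS G pd c j A + q ∧
      (sect G A)[q]? = some d := by
  have hx : ∀ a, d ≠ x a := by
    intro a
    rcases hd with rfl | rfl <;> simp
  have hm : d ≠ m := by
    rcases hd with rfl | rfl <;> simp
  have hp : d ≠ p := by
    rcases hd with rfl | rfl <;> simp
  obtain ⟨j, hj, q, e, hq⟩ := ung_flatMap _ w h
  have hlen : ((w.take j).flatMap (fun a => txt G pd ++ [x a])).length = j * dD G pd := by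
    have h1 := enc_length G pd (w.take j)
    unfold enc at h1
    rw [h1, List.length_take, min_eq_left hj.le]
  rw [hlen] at e
  have hq1 : (txt G pd)[q]? = some d := by
    apply ung_left _ hq
    intro hmem
    exact hx _ (by simpa using hmem)
  have key : ∀ q' : ℕ, (sects G)[q']? = some d → ∃ (A : Fin K) (q'' : ℕ), q' = oS G A + q'' ∧
      (sect G A)[q'']? = some d := by
    intro q' hq'
    unfold sects at hq'
    obtain ⟨t, ht, q'', e', hq''⟩ := ung_flatMap _ _ hq'
    have ht' : t < K := by simpa using ht
    refine ⟨⟨t, ht'⟩, q'', e', ?_⟩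
    have e2 : (List.finRange K)[t] = ⟨t, ht'⟩ := by simp
    rw [e2] at hq''
    exact hq''
  unfold txt at hq1
  by_cases hs : q < (sects G).length
  · rw [List.getElem?_append_left hs] at hq1
    obtain ⟨A, q'', e', h3⟩ := key q hq1
    refine ⟨false, j, A, q'', hj, ?_, h3⟩
    unfold secS
    simp only [Bool.false_eq_true, if_false]
    omega
  · rw [List.getElem?_append_right (by omega)] at hq1
    rcases Nat.eq_zero_or_pos (q - (sects G).length) with h0 | h0
    · rw [h0] at hq1
      exact absurd (by simpa using hq1.symm) hm
    · obtain ⟨s, hs'⟩ : ∃ s, q - (sects G).length = s + 1 := ⟨_, (Nat.succ_pred_eq_of_pos h0).symm⟩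
      rw [hs', List.getElem?_cons_succ] at hq1
      have hq2 := ung_left (ung_repl hp pd) hq1
      obtain ⟨A, q'', e', h3⟩ := key s hq2
      refine ⟨true, j, A, q'', hj, ?_, h3⟩
      unfold secS
      simp only [if_true]
      omega

private theorem ung_sect_length (A : Fin K) :
    (sect G A).length = A + 2 + (cont G A).length + A + 2 := by
  simp [sect]
  omega

/-- letters of a section -/
private theorem ung_sect_l1 (A : Fin K) {i : ℕ} (hi : i < A) :
    (sect G A)[1 + i]? = some (l : Ct α) := by
  unfold sect
  rw [Nat.add_comm 1 i, List.getElem?_cons_succ, List.getElem?_append_left (by simpa using hi)]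
  rw [List.getElem?_replicate, if_pos hi]

private theorem ung_sect_o1 (A : Fin K) : (sect G A)[(A : ℕ) + 1]? = some (o : Ct α) := by
  unfold sect
  rw [List.getElem?_cons_succ, List.getElem?_append_right (by simp)]
  simp

private theorem ung_sect_tail (A : Fin K) (i : ℕ) :
    (sect G A)[(A : ℕ) + 2 + (cont G A).length + i]? =
      (o :: (List.replicate A l ++ [(E : Ct α)]))[i]? := by
  unfold sect
  have e1 : (A : ℕ) + 2 + (cont G A).length + i = ((A : ℕ) + 1 + (cont G A).length + i) + 1 := by
    omega
  rw [e1, List.getElem?_cons_succ, List.getElem?_append_right (by simp; omega)]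
  rw [List.length_replicate]
  have e2 : (A : ℕ) + 1 + (cont G A).length + i - A = ((cont G A).length + i) + 1 := by omega
  rw [e2, List.getElem?_cons_succ, List.getElem?_append_right (by omega)]
  congr 1
  omega

theorem nmE_inv {r e : ℕ} (h : At (enc G pd w) nmE r e) :
    ∃ (c : Bool) (j : ℕ) (A : Fin K), j < w.length ∧ r = posE G pd c j A ∧ e = r + A + 2 := by
  obtain ⟨k1, h1, h2⟩ := at_cat.1 h
  obtain ⟨k2, h3, h4⟩ := at_cat.1 h2
  obtain ⟨rfl, h1'⟩ := at_LC.1 h1
  obtain ⟨rfl, h4'⟩ := at_LC.1 h4
  obtain ⟨h5, h6, h7⟩ := at_ST.1 h3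
  obtain ⟨d, hd, hdE⟩ := h4'
  have hdE' : d = E := hdE
  subst hdE'
  obtain ⟨c, j, A, q, hj, e1, hq⟩ := ung_enc G pd w (Or.inr rfl) hd
  have hqq := ung_sect_E G A hq
  have hR := enc_sect G pd w hj c A
  have hlen := ung_sect_length G A
  have get : ∀ t < (sect G A).length, (enc G pd w)[secS G pd c j A + t]? = (sect G A)[t]? :=
    fun t ht => hR.get ht
  have hP : posE G pd c j A = secS G pd c j A + (A + 2 + (cont G A).length) := by
    unfold posE posC
    omega
  have g0 : (enc G pd w)[posE G pd c j A]? = some o := by
    rw [hP, get _ (by omega)]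
    have := ung_sect_tail G A 0
    simpa using this
  have gl : ∀ i < (A : ℕ), (enc G pd w)[posE G pd c j A + 1 + i]? = some l := by
    intro i hi
    have e3 : posE G pd c j A + 1 + i = secS G pd c j A + (A + 2 + (cont G A).length + (i + 1)) := by
      omega
    rw [e3, get _ (by omega), ung_sect_tail G A (i + 1), List.getElem?_cons_succ,
      List.getElem?_append_left (by simpa using hi), List.getElem?_replicate, if_pos hi]
  have hr : r = posE G pd c j A := by
    rcases Nat.lt_trichotomy r (posE G pd c j A) with hlt | heq | hgt
    · obtain ⟨a, ha, hal⟩ := h7 (posE G pd c j A) (by omega) (by omega)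
      have hal' : a = l := hal
      rw [g0, hal'] at ha
      cases ha
    · exact heq
    · obtain ⟨a, ha, hao⟩ := h1'
      have hao' : a = o := hao
      have := gl (r - (posE G pd c j A + 1)) (by omega)
      rw [show posE G pd c j A + 1 + (r - (posE G pd c j A + 1)) = r by omega, ha, hao'] at this
      cases this
  exact ⟨c, j, A, hj, hr, by omega⟩

theorem nmS_inv {r e : ℕ} (h : At (enc G pd w) nmS r e) :
    ∃ (c : Bool) (j : ℕ) (A : Fin K), j < w.length ∧ r = secS G pd c j A ∧ e = r + A + 2 := by
  obtain ⟨k1, h1, h2⟩ := at_cat.1 h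
  obtain ⟨k2, h3, h4⟩ := at_cat.1 h2
  obtain ⟨rfl, h1'⟩ := at_LC.1 h1
  obtain ⟨rfl, h4'⟩ := at_LC.1 h4
  obtain ⟨h5, h6, h7⟩ := at_ST.1 h3
  obtain ⟨d, hd, hdS⟩ := h1'
  have hdS' : d = S := hdS
  subst hdS'
  obtain ⟨c, j, A, q, hj, e1, hq⟩ := ung_enc G pd w (Or.inl rfl) hd
  have hqq := ung_sect_S G A hq
  have hR := enc_sect G pd w hj c A
  have hlen := ung_sect_length G A
  have get : ∀ t < (sect G A).length, (enc G pd w)[secS G pd c j A + t]? = (sect G A)[t]? :=
    fun t ht => hR.get ht
  have hr : r = secS G pd c j A := by omega
  have go : (enc G pd w)[r + A + 1]? = some o := by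
    rw [show r + (A : ℕ) + 1 = secS G pd c j A + (A + 1) by omega, get _ (by omega)]
    exact ung_sect_o1 G A
  have gl : ∀ i < (A : ℕ), (enc G pd w)[r + 1 + i]? = some l := by
    intro i hi
    rw [show r + 1 + i = secS G pd c j A + (1 + i) by omega, get _ (by omega)]
    exact ung_sect_l1 G A hi
  have hk : k2 = r + A + 1 := by
    obtain ⟨a, ha, hao⟩ := h4'
    have hao' : a = o := hao
    rw [hao'] at ha
    rcases Nat.lt_trichotomy k2 (r + A + 1) with hlt | heq | hgt
    · have := gl (k2 - (r + 1)) (by omega)
      rw [show r + 1 + (k2 - (r + 1)) = k2 by omega, ha] at this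
      cases this
    · exact heq
    · obtain ⟨a', ha', hal⟩ := h7 (r + A + 1) (by omega) (by omega)
      have hal' : a' = l := hal
      rw [go, hal'] at ha'
      cases ha'
  exact ⟨c, j, A, hj, hr, by omega⟩

end Pool.Agent.H29.CJ
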