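import Pool.Agent.H29.CJ.UnF

/-!
# Items: completeness

Use only the STATEMENTS of the imported files (`enc_sect`, `pos_order`, `enc_tok`, `enc_tokm`, `enc_m`, `Rd.*`, `AtL`).

Write `Tw = enc G pd w`, `D = dD G pd`, `p = (B, C)`, `itm p = I l^B o l^C o` (length `B + C + 3`).
From `enc_sect`: `Tw` reads from `posE c k B`: `o l^B E`, and from `secS c k C`: `S l^C o` (and `posC = secS + C + 2`).
(L) `q` in the second copy of chunk `i`, `Tw` reads `itm p` from `q`; `e1 = posE false k B + B + 2`, `e2 = posC true k C`.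
 `MB` on `[q, e1)`: `I`, then `Sync` with exponent `B`: `l^B` from `q + 1`, then `o` at `q + 1 + B`, `univ`, `o` at `posE false k B`, `l^B`; then `E`.
   (`q + 1 + B < posE false k B` because `q < posx i < k D ≤ posE false k B`.)
 `ST tok` on `[q, posx i)`: `enc_tok`, `no_x_between`.  `RL` on `[posx i, posE false k B)` by hypothesis.  `nmE` on `[posE false k B, e1)`.
 `GapL` on `[e1, e2)`: tokens different from `m` up to `posm k` (`e1 ≤ posm k` by `pos_order`), `m`, tokens up to `secS true k C`, `nmS`.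
 `MC` on `[q, e2)`: `I`, `l^B`, `o`, `Sync` with exponent `C`: `l^C`, `o`, `univ`, `S` at `secS true k C`, `l^C`; then `o`.
 `LL` on `[e2, j D)` by hypothesis.
(R) `z0` in the first copy of chunk `j`, `Tw` reads `itm p` from `z0`, `z = z0 + |itm p|`.
 `RL` on `[posx i, posE false k B)`; `MBR` on `[posE false k B, z)`: `o`, `Sync` with exponent `B`: `l^B`, `E`, `univ`, `I` at `z0`, `l^B`; then `o`, `l^C`, `o`.
 `nmE`, `GapR` up to `secS true k C`; `MCR` on `[secS true k C, z)`: `S`, `Sync` with exponent `C`: `l^C`, `o`, `univ`, `o` (the first `o` of the item), `l^C`;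
 then `o`.  `nmS`, `LL` on `[posC true k C, j D)`, `ST tokm` on `[j D, z)` (`z ≤ posm j`).
-/

set_option autoImplicit false

namespace Pool.Agent.H29.CJ

open Ct

variable {α : Type} [Fintype α] {K : ℕ} (G : Gr α K) (pd : ℕ) (w : List α)

theorem unI_cons {β : Type} {w : List β} {i : ℕ} {a : β} {v : List β} (h : Rd w i (a :: v)) :
    Is w i (· = a) ∧ Rd w (i + 1) v := by
  have h' : Rd w i ([a] ++ v) := h
  have h1 := h'.append_left
  have h2 := h'.append_right
  have h3 := h1.get (t := 0) (by simp)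
  exact ⟨⟨a, by simpa using h3, rfl⟩, h2⟩

theorem unI_rep {β : Type} {w : List β} {a : β} {n i : ℕ} (h : Rd w i (List.replicate n a)) :
    ∀ t, i ≤ t → t < i + n → Is w t (· = a) := by
  intro t h1 h2
  have h3 := h.get (t := t - i) (by simp; omega)
  rw [show i + (t - i) = t by omega, List.getElem?_replicate, if_pos (by omega)] at h3
  exact ⟨a, h3, rfl⟩

theorem unI_sect {i : ℕ} (hi : i < w.length) (c : Bool) (A : Fin K) :
    Is (enc G pd w) (secS G pd c i A) (· = S) ∧
    (∀ t, secS G pd c i A + 1 ≤ t → t < secS G pd c i A + 1 + A → Is (enc G pd w) t (· = l)) ∧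
    Is (enc G pd w) (secS G pd c i A + 1 + A) (· = o) ∧
    Is (enc G pd w) (posE G pd c i A) (· = o) ∧
    (∀ t, posE G pd c i A + 1 ≤ t → t < posE G pd c i A + 1 + A → Is (enc G pd w) t (· = l)) ∧
    Is (enc G pd w) (posE G pd c i A + 1 + A) (· = E) := by
  have h := enc_sect G pd w hi c A
  have h0 : Rd (enc G pd w) (secS G pd c i A) (S :: (List.replicate A l ++ (o ::
    (cont G A ++ (o :: (List.replicate A l ++ [E])))))) := h
  obtain ⟨f1, g1⟩ := unI_cons h0
  have f2 := unI_rep g1.append_left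
  have g2 := g1.append_right
  rw [List.length_replicate] at g2
  obtain ⟨f3, g3⟩ := unI_cons g2
  have g4 := g3.append_right
  have e : secS G pd c i A + 1 + A + 1 + (cont G A).length = posE G pd c i A := by
    unfold posE posC
    omega
  rw [e] at g4
  obtain ⟨f4, g5⟩ := unI_cons g4
  have f5 := unI_rep g5.append_left
  have g6 := g5.append_right
  rw [List.length_replicate] at g6
  obtain ⟨f6, _⟩ := unI_cons g6
  exact ⟨f1, f2, f3, f4, f5, f6⟩

theorem unI_itm {q : ℕ} {B C : Fin K} {Tw : List (Ct α)} (h : Rd Tw q (itm (B, C))) :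
    Is Tw q (· = I) ∧ (∀ t, q + 1 ≤ t → t < q + 1 + B → Is Tw t (· = l)) ∧
    Is Tw (q + 1 + B) (· = o) ∧
    (∀ t, q + 1 + B + 1 ≤ t → t < q + 1 + B + 1 + C → Is Tw t (· = l)) ∧
    Is Tw (q + 1 + B + 1 + C) (· = o) := by
  have h0 : Rd Tw q (I :: (List.replicate B l ++ (o :: (List.replicate C l ++ [o])))) := h
  obtain ⟨f1, g1⟩ := unI_cons h0
  have f2 := unI_rep g1.append_left
  have g2 := g1.append_right
  rw [List.length_replicate] at g2
  obtain ⟨f3, g3⟩ := unI_cons g2
  have f4 := unI_rep g3.append_left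
  have g4 := g3.append_right
  rw [List.length_replicate] at g4
  obtain ⟨f5, _⟩ := unI_cons g4
  exact ⟨f1, f2, f3, f4, f5⟩

theorem unI_one {Tw : List (Ct α)} {i j : ℕ} {a : Ct α} (h : Is Tw i (· = a)) (e : j = i + 1) :
    At Tw (LC (· = a)) i j := at_LC.2 ⟨e, h⟩

theorem unI_star {Tw : List (Ct α)} {i j : ℕ} {P : Ct α → Prop} (h1 : i ≤ j)
    (h2 : j ≤ Tw.length) (h : ∀ t, i ≤ t → t < j → Is Tw t P) : At Tw (ST P) i j :=
  at_ST.2 ⟨h1, h2, h⟩

/-- the order of all the positions -/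
theorem unI_ord (i k j : ℕ) (hik : i < k) (hkj : k < j) (hj : j ≤ w.length) (B C : Fin K) :
    posx G pd i < k * dD G pd ∧ k * dD G pd ≤ posE G pd false k B ∧
    posE G pd false k B + B + 2 ≤ posm G pd k ∧ posm G pd k < secS G pd true k C ∧
    secS G pd true k C + C + 2 ≤ posx G pd k ∧ posx G pd k < j * dD G pd ∧
    j * dD G pd ≤ w.length * dD G pd := by
  obtain ⟨_, _, _, _, a5, _, _⟩ := pos_order G pd i B
  obtain ⟨b1, b2, _, _, b5, _, _⟩ := pos_order G pd k B
  obtain ⟨_, _, c3, c4, _, _, _⟩ := pos_order G pd k C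
  have h1 : (i + 1) * dD G pd ≤ k * dD G pd := Nat.mul_le_mul_right _ hik
  have h2 : (k + 1) * dD G pd ≤ j * dD G pd := Nat.mul_le_mul_right _ hkj
  have h3 : j * dD G pd ≤ w.length * dD G pd := Nat.mul_le_mul_right _ hj
  have e1 : posE G pd false k B = secS G pd false k B + B + 2 + (cont G B).length := rfl
  have e2 : posE G pd true k C = secS G pd true k C + C + 2 + (cont G C).length := rfl
  refine ⟨by omega, by omega, by omega, by omega, by omega, by omega, by omega⟩

theorem unI_tokm {i a b : ℕ} (h1 : i * dD G pd ≤ a) (h2 : b ≤ posx G pd i) (hab : a ≤ b)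
    (hi : i < w.length) (hm : ∀ r, a ≤ r → r < b → ∀ j, r ≠ posm G pd j) :
    At (enc G pd w) (ST tokm) a b := by
  have h3 : (i + 1) * dD G pd ≤ w.length * dD G pd := Nat.mul_le_mul_right _ hi
  have hp : posx G pd i + 1 = (i + 1) * dD G pd := by
    unfold posx dD
    ring
  refine unI_star hab (by rw [enc_length]; omega) ?_
  intro t ht1 ht2
  exact enc_tokm G pd w (by omega)
    (no_x_between G pd (h1.trans ht1) (lt_of_lt_of_le ht2 h2)) (hm t ht1 ht2)

theorem unI_mid {i k j : ℕ} (hik : i < k) (hkj : k < j) (hj : j ≤ w.length) (B C : Fin K) :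
    At (enc G pd w) nmE (posE G pd false k B) (posE G pd false k B + B + 2) ∧
    At (enc G pd w) (ST tokm) (posE G pd false k B + B + 2) (posm G pd k) ∧
    At (enc G pd w) (LC (· = m)) (posm G pd k) (posm G pd k + 1) ∧
    At (enc G pd w) (ST tokm) (posm G pd k + 1) (secS G pd true k C) ∧
    At (enc G pd w) nmS (secS G pd true k C) (posC G pd true k C) := by
  obtain ⟨o1, o2, o3, o4, o5, o6, o7⟩ := unI_ord G pd w i k j hik hkj hj B C
  have hk : k < w.length := by omega
  obtain ⟨_, _, _, s4, s5, s6⟩ := unI_sect G pd w hk false B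
  obtain ⟨t1, t2, t3, _, _, _⟩ := unI_sect G pd w hk true C
  have hl : (enc G pd w).length = w.length * dD G pd := enc_length G pd w
  have eC : posC G pd true k C = secS G pd true k C + C + 2 := rfl
  refine ⟨?_, ?_, ?_, ?_, ?_⟩
  · refine at_cat.2 ⟨posE G pd false k B + 1, unI_one s4 rfl, at_cat.2
      ⟨posE G pd false k B + 1 + B, unI_star (by omega) (by omega) s5, unI_one s6 (by omega)⟩⟩
  · exact unI_tokm G pd w (i := k) (by omega) (by omega) (by omega) hk
      (fun r h1 h2 => no_m_first G pd (i := k) (by omega) h2)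
  · exact at_LC.2 ⟨rfl, enc_m G pd w hk⟩
  · exact unI_tokm G pd w (i := k) (by omega) (by omega) (by omega) hk
      (fun r h1 h2 => no_m_second G pd (i := k) (by omega) (by omega))
  · refine at_cat.2 ⟨secS G pd true k C + 1, unI_one t1 rfl, at_cat.2
      ⟨secS G pd true k C + 1 + C, unI_star (by omega) (by omega) t2, unI_one t3 (by omega)⟩⟩

theorem itemL_complete {i k j q : ℕ} {p : Fin K × Fin K} (hik : i < k) (hkj : k < j)
    (hj : j ≤ w.length) (hq : posm G pd i < q)
    (hq' : q + (itm (α := α) p).length ≤ posx G pd i) (hrd : Rd (enc G pd w) q (itm p))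
    (hR : At (enc G pd w) (SU .RL) (posx G pd i) (posE G pd false k p.1))
    (hL : At (enc G pd w) (SU .LL) (posC G pd true k p.2) (j * dD G pd)) :
    At (enc G pd w) (ItemL SU) q (j * dD G pd) := by
  obtain ⟨B, C⟩ := p
  simp only at hR hL
  have hlen : (itm (α := α) (B, C)).length = B + C + 3 := by
    simp [itm]
    omega
  rw [hlen] at hq'
  obtain ⟨o1, o2, o3, o4, o5, o6, o7⟩ := unI_ord G pd w i k j hik hkj hj B C
  obtain ⟨m1, m2, m3, m4, m5⟩ := unI_mid G pd w hik hkj hj B C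
  have hk : k < w.length := by omega
  have hi : i < w.length := by omega
  obtain ⟨_, _, _, s4, s5, s6⟩ := unI_sect G pd w hk false B
  obtain ⟨t1, t2, t3, _, _, _⟩ := unI_sect G pd w hk true C
  obtain ⟨f1, f2, f3, f4, f5⟩ := unI_itm hrd
  have hl : (enc G pd w).length = w.length * dD G pd := enc_length G pd w
  have eC : posC G pd true k C = secS G pd true k C + C + 2 := rfl
  have oi := pos_order G pd i B
  refine at_cat.2 ⟨posC G pd true k C, at_inter.2 ⟨?_, ?_⟩, hL⟩
  · refine at_cat.2 ⟨q + 1, unI_one f1 rfl, at_cat.2 ⟨q + 1 + B,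
      unI_star (by omega) (by omega) f2, at_cat.2 ⟨q + 1 + B + 1, unI_one f3 rfl,
      at_cat.2 ⟨secS G pd true k C + 1 + C, ?_, unI_one t3 (by omega)⟩⟩⟩⟩
    refine at_Sync_LC.2 ⟨C, secS G pd true k C + 1, rfl, by omega, ?_, f4, t2⟩
    exact at_cat.2 ⟨q + 1 + B + 1 + C + 1, unI_one f5 rfl, at_cat.2 ⟨secS G pd true k C,
      at_univ.2 ⟨by omega, by omega⟩, unI_one t1 rfl⟩⟩
  · refine at_cat.2 ⟨posE G pd false k B + B + 2, at_inter.2 ⟨?_, ?_⟩, ?_⟩
    · refine at_cat.2 ⟨q + 1, unI_one f1 rfl, at_cat.2 ⟨posE G pd false k B + 1 + B, ?_,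
        unI_one s6 (by omega)⟩⟩
      refine at_Sync_LC.2 ⟨B, posE G pd false k B + 1, rfl, by omega, ?_, f2, s5⟩
      exact at_cat.2 ⟨q + 1 + B + 1, unI_one f3 rfl, at_cat.2 ⟨posE G pd false k B,
        at_univ.2 ⟨by omega, by omega⟩, unI_one s4 rfl⟩⟩
    · refine at_cat.2 ⟨posx G pd i, unI_star (by omega) (by omega) ?_, at_cat.2
        ⟨posE G pd false k B, hR, m1⟩⟩
      intro t ht1 ht2
      exact enc_tok G pd w (by omega) (no_x_between G pd (by omega) ht2)
    · exact at_cat.2 ⟨posm G pd k, m2, at_cat.2 ⟨posm G pd k + 1, m3, at_cat.2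
        ⟨secS G pd true k C, m4, m5⟩⟩⟩

theorem itemR_complete {i k j z0 : ℕ} {p : Fin K × Fin K} (hik : i < k) (hkj : k < j)
    (hj : j < w.length) (hz : j * dD G pd ≤ z0)
    (hz' : z0 + (itm (α := α) p).length ≤ posm G pd j) (hrd : Rd (enc G pd w) z0 (itm p))
    (hR : At (enc G pd w) (SU .RL) (posx G pd i) (posE G pd false k p.1))
    (hL : At (enc G pd w) (SU .LL) (posC G pd true k p.2) (j * dD G pd)) :
    At (enc G pd w) (ItemR SU) (posx G pd i) (z0 + (itm (α := α) p).length) := by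
  obtain ⟨B, C⟩ := p
  simp only at hR hL
  have hlen : (itm (α := α) (B, C)).length = B + C + 3 := by
    simp [itm]
    omega
  rw [hlen] at hz' ⊢
  obtain ⟨o1, o2, o3, o4, o5, o6, o7⟩ := unI_ord G pd w i k j hik hkj hj.le B C
  obtain ⟨m1, m2, m3, m4, m5⟩ := unI_mid G pd w hik hkj hj.le B C
  have hk : k < w.length := by omega
  obtain ⟨_, _, _, s4, s5, s6⟩ := unI_sect G pd w hk false B
  obtain ⟨t1, t2, t3, _, _, _⟩ := unI_sect G pd w hk true C
  obtain ⟨f1, f2, f3, f4, f5⟩ := unI_itm hrd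
  have hl : (enc G pd w).length = w.length * dD G pd := enc_length G pd w
  have eC : posC G pd true k C = secS G pd true k C + C + 2 := rfl
  obtain ⟨_, _, _, _, j5, j6, j7⟩ := pos_order G pd j B
  have hjw : (j + 1) * dD G pd ≤ w.length * dD G pd := Nat.mul_le_mul_right _ hj
  refine at_cat.2 ⟨posE G pd false k B, hR, at_inter.2 ⟨?_, ?_⟩⟩
  · refine at_cat.2 ⟨posE G pd false k B + 1, unI_one s4 rfl, at_cat.2 ⟨z0 + 1 + B, ?_,
      at_cat.2 ⟨z0 + 1 + B + 1, unI_one f3 rfl, at_cat.2 ⟨z0 + 1 + B + 1 + C,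
      unI_star (by omega) (by omega) f4, unI_one f5 (by omega)⟩⟩⟩⟩
    refine at_Sync_LC.2 ⟨B, z0 + 1, rfl, by omega, ?_, s5, f2⟩
    exact at_cat.2 ⟨posE G pd false k B + 1 + B + 1, unI_one s6 rfl, at_cat.2 ⟨z0,
      at_univ.2 ⟨by omega, by omega⟩, unI_one f1 rfl⟩⟩
  · refine at_cat.2 ⟨posE G pd false k B + B + 2, m1, at_cat.2 ⟨secS G pd true k C, ?_,
      at_inter.2 ⟨?_, ?_⟩⟩⟩
    · exact at_cat.2 ⟨posm G pd k, m2, at_cat.2 ⟨posm G pd k + 1, m3, m4⟩⟩
    · refine at_cat.2 ⟨secS G pd true k C + 1, unI_one t1 rfl, at_cat.2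
        ⟨z0 + 1 + B + 1 + C, ?_, unI_one f5 (by omega)⟩⟩
      refine at_Sync_LC.2 ⟨C, z0 + 1 + B + 1, rfl, by omega, ?_, t2, f4⟩
      exact at_cat.2 ⟨secS G pd true k C + 1 + C + 1, unI_one t3 rfl, at_cat.2 ⟨z0 + 1 + B,
        at_univ.2 ⟨by omega, by omega⟩, unI_one f3 rfl⟩⟩
    · refine at_cat.2 ⟨posC G pd true k C, m5, at_cat.2 ⟨j * dD G pd, hL, ?_⟩⟩
      exact unI_tokm G pd w (i := j) le_rfl (by omega) (by omega) hj
        (fun r h1 h2 => no_m_first G pd (i := j) (by omega) (by omega))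

end Pool.Agent.H29.CJ
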