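import Pool.Agent.H29.CJ.UnG

/-!
# Items: soundness

Use only the STATEMENTS of the imported files.

Write `Tw = enc G pd w`, `D = dD G pd`, `p = (B, C)`.
(L) `At (ItemL SU) q y`: positions `e1 ≤ e2` with `MC` on `[q, e2)`, `MB` on `[q, e1)`, and `r1 ≤ r2`: `ST tok` on `[q, r1)`, `RL` on `[r1, r2)`, `nmE` on
 `[r2, e1)`; `GapL` on `[e1, e2)`; `LL` on `[e2, y)`.
 `nmE_inv`: `r2 = posE c k A'`, `k < n`, `e1 = r2 + A' + 2`.  `hIR` (the segment `[r1, r2)` is shorter than `[q, y)`: `r2 < e1 ≤ y`): `c = false`, `r1 = posx i'`,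
 `i' < k`, `G.D A' (seg w i' k)`.  No `x` letter in `[q, r1)` (`tok`) and the first `x` letter at or after `q` is `posx i` (`posm i < q ≤ posx i`): `i' = i`
 (if `i' > i` then `posx i` is in `[q, r1)`; `i' < i` is impossible as `q ≤ posx i'`).
 `GapL`: `tokm` up to a position carrying `m` (`enc_ism`: `posm k'`), `tokm`, then `nmS` on `[s, e2)`: `nmS_inv`: `s = secS c' k'' C'`, `e2 = s + C' + 2 =
 posC c' k'' C'`.  `e1 ≤ posm k` and no `m` (and no `x`) between `e1` and `posm k'`, so `k' = k`; between `posm k` and `s` there is no `x`, no `m`; so `s` is in the second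
 copy of chunk `k`: `k'' = k`, `c' = true` (if `k'' > k` then `posx k` is in between; if `k'' = k`, `c' = false` then `s < posm k`).
 `hIL` on `[e2, y)` (shorter, `q < e2`): `y = j D`, `k < j ≤ n`, `G.D C' (seg w k j)`.
 Names: `MB` on `[q, e1)`: `I`, `Sync` exponent `a`: `l^a` from `q + 1`, then `o`; as `Tw` reads `I l^B o` from `q`, `a = B`.  At the right end: `o` at `e1 - 2 - a`,
 `l^a`, `E` at `e1 - 1`; `Tw` reads `o l^{A'} E` from `r2 = e1 - A' - 2`; so `a = A'` (compare the positions of the last `o` before `E`).  So `A' = B`.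
 `MC`: `I l* o` is `I l^B o`, then `Sync` exponent `a'`: `l^{a'}` then `o`: `a' = C`; right end: `S` at `e2 - 2 - a'`, `l^{a'}`, `o` at `e2 - 1`: `Tw` reads `S l^{C'} o` from
 `s = e2 - C' - 2`: `a' = C'`.
(R) `At (ItemR SU) x z`: `RL` on `[x, r2)`, `MBR` on `[r2, z)`, `nmE` on `[r2, e1)`, `GapR` on `[e1, s)`, `MCR` on `[s, z)`, `nmS` on `[s, e2)`, `LL` on `[e2, y)`,
 `ST tokm` on `[y, z)`.  As before: `r2 = posE c k A'`, `hIR`: `c = false`, `x = posx i`, `i < k`, `G.D A' (seg w i k)`; `s = secS true k C'`, `e2 = posC true k C'`;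
 `hIL`: `y = j' D`, `k < j' ≤ n`, `G.D C' (seg w k j')`.  `z ≤ posx j`, `z > j D` and no `x`, no `m` in `[y, z)`: `j' = j` (if `j' < j` then `posx j'` is in `[y, z)`; if
 `j' > j` then `y = j' D > posx j ≥ z`), and `z ≤ posm j` (otherwise `posm j ∈ [y, z)`).
 Names: `Tw` reads `I l^B o l^C o` from `z0` to `z`.  `MBR`: `o l^a E ... I l^a o l* o`: right end: last `o` at `z - 1`, before it `l*` and `o`: this is the `o` at
 `z0 + 1 + B`, before it `l^a` and `I`: `a = B`; left end: `a = A'`.  `MCR`: `S l^a o ... o l^a o`: right: `a = C`; left: `a = C'`.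
-/

set_option autoImplicit false

namespace Pool.Agent.H29.CJ

open Ct

variable {α : Type} [Fintype α] {K : ℕ} (G : Gr α K) (pd : ℕ) (w : List α)

/-- soundness of `RL` segments of length less than `N` -/
def RSound (N : ℕ) : Prop :=
  ∀ x' y', y' - x' < N → ∀ (c : Bool) (j : ℕ) (A : Fin K), j < w.length →
    y' = posE G pd c j A → At (enc G pd w) (SU .RL) x' y' →
      c = false ∧ ∃ i' < j, x' = posx G pd i' ∧ G.D A (seg w i' j)

/-- soundness of `LL` segments of length less than `N` -/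
def LSound (N : ℕ) : Prop :=
  ∀ x' y', y' - x' < N → ∀ (i' : ℕ) (A : Fin K), i' < w.length →
    x' = posC G pd true i' A → At (enc G pd w) (SU .LL) x' y' →
      ∃ j', i' < j' ∧ j' ≤ w.length ∧ y' = j' * dD G pd ∧ G.D A (seg w i' j')

private theorem UnSI_clash {β : Type} {v : List β} {i : ℕ} {a b : β} (h1 : Is v i (· = a))
    (h2 : Is v i (· = b)) : a = b := by
  obtain ⟨c, -, h3, h4⟩ := h1.and h2
  exact h3.symm.trans h4

omit [Fintype α] in
private theorem UnSI_tok {v : List (Ct α)} {i : ℕ} {a : α} (h1 : Is v i tok)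
    (h2 : v[i]? = some (x a)) : False := by
  obtain ⟨c, hc, h3⟩ := h1
  rw [h2] at hc
  obtain rfl := Option.some.inj hc
  exact h3 ⟨a, rfl⟩

omit [Fintype α] in
private theorem UnSI_tokm {v : List (Ct α)} {i : ℕ} (h1 : Is v i tokm)
    (h2 : Is v i (· = m)) : False := by
  obtain ⟨c, -, h3, h4⟩ := h1.and h2
  exact h3.2 h4

omit [Fintype α] in
private theorem UnSI_tt {v : List (Ct α)} {i : ℕ} (h1 : Is v i tokm) : Is v i tok :=
  h1.mono fun _ h => h.1

omit [Fintype α] in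
/-- the end of a run of `l`s is determined -/
private theorem UnSI_fw {v : List (Ct α)} {s a b : ℕ} {c1 c2 : Ct α} (h1 : l ≠ c1) (h2 : l ≠ c2)
    (hsa : s ≤ a) (hsb : s ≤ b)
    (ha : ∀ t, s ≤ t → t < a → Is v t (· = l)) (ha' : Is v a (· = c1))
    (hb : ∀ t, s ≤ t → t < b → Is v t (· = l)) (hb' : Is v b (· = c2)) : a = b := by
  rcases Nat.lt_trichotomy a b with h | h | h
  · exact absurd (UnSI_clash (hb a hsa h) ha') h1
  · exact h
  · exact absurd (UnSI_clash (ha b hsb h) hb') h2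

omit [Fintype α] in
/-- the start of a run of `l`s is determined -/
private theorem UnSI_bw {v : List (Ct α)} {e a b : ℕ} {c1 c2 : Ct α} (h1 : l ≠ c1) (h2 : l ≠ c2)
    (hae : a < e) (hbe : b < e)
    (ha : ∀ t, a < t → t < e → Is v t (· = l)) (ha' : Is v a (· = c1))
    (hb : ∀ t, b < t → t < e → Is v t (· = l)) (hb' : Is v b (· = c2)) : a = b := by
  rcases Nat.lt_trichotomy a b with h | h | h
  · exact absurd (UnSI_clash (ha b h hbe) hb') h2
  · exact h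
  · exact absurd (UnSI_clash (hb a h hae) ha') h1

private theorem UnSI_one {β : Type} {v : List β} {q : ℕ} {c : β} {u : List β}
    (h : Rd v q (c :: u)) : Is v q (· = c) ∧ Rd v (q + 1) u := by
  constructor
  · refine ⟨c, ?_, rfl⟩
    have h1 := h.get (t := 0) (by simp)
    simpa using h1
  · have h2 : Rd v q ([c] ++ u) := h
    have h3 := h2.append_right
    simpa using h3

private theorem UnSI_rep {β : Type} {v : List β} {q n : ℕ} {c : β} {u : List β}
    (h : Rd v q (List.replicate n c ++ u)) :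
    (∀ t, q ≤ t → t < q + n → Is v t (· = c)) ∧ Rd v (q + n) u := by
  constructor
  · intro t h1 h2
    refine ⟨c, ?_, rfl⟩
    have h3 := h.append_left.get (t := t - q) (by rw [List.length_replicate]; omega)
    rw [Nat.add_sub_cancel' h1, List.getElem?_replicate, if_pos (by omega)] at h3
    exact h3
  · have h3 := h.append_right
    rwa [List.length_replicate] at h3

omit [Fintype α] in
private theorem UnSI_len {p : Fin K × Fin K} :
    (itm (α := α) p).length = p.1 + p.2 + 3 := by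
  unfold itm
  simp only [List.length_cons, List.length_append, List.length_replicate, List.length_nil]
  omega

omit [Fintype α] in
private theorem UnSI_itm {v : List (Ct α)} {q : ℕ} {p : Fin K × Fin K} (h : Rd v q (itm p)) :
    Is v q (· = I) ∧ (∀ t, q + 1 ≤ t → t < q + 1 + p.1 → Is v t (· = l)) ∧
      Is v (q + 1 + p.1) (· = o) ∧
      (∀ t, q + 1 + p.1 + 1 ≤ t → t < q + 1 + p.1 + 1 + p.2 → Is v t (· = l)) ∧
      Is v (q + 1 + p.1 + 1 + p.2) (· = o) := by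
  unfold itm at h
  obtain ⟨h1, h2⟩ := UnSI_one h
  obtain ⟨h3, h4⟩ := UnSI_rep h2
  obtain ⟨h5, h6⟩ := UnSI_one h4
  obtain ⟨h7, h8⟩ := UnSI_rep h6
  exact ⟨h1, h3, h5, h7, (UnSI_one h8).1⟩

private theorem UnSI_sect {i : ℕ} (hi : i < w.length) (c : Bool) (A : Fin K) :
    Is (enc G pd w) (secS G pd c i A) (· = S) ∧
    (∀ t, secS G pd c i A + 1 ≤ t → t < secS G pd c i A + 1 + A →
      Is (enc G pd w) t (· = l)) ∧
    Is (enc G pd w) (secS G pd c i A + 1 + A) (· = o) ∧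
    Is (enc G pd w) (posE G pd c i A) (· = o) ∧
    (∀ t, posE G pd c i A + 1 ≤ t → t < posE G pd c i A + 1 + A →
      Is (enc G pd w) t (· = l)) ∧
    Is (enc G pd w) (posE G pd c i A + 1 + A) (· = E) := by
  have h := enc_sect G pd w hi c A
  unfold sect at h
  obtain ⟨h1, h2⟩ := UnSI_one h
  obtain ⟨h3, h4⟩ := UnSI_rep h2
  obtain ⟨h5, h6⟩ := UnSI_one h4
  have h7 := h6.append_right
  have e : secS G pd c i A + 1 + A + 1 + (cont G A).length = posE G pd c i A := by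
    unfold posE posC
    omega
  rw [e] at h7
  obtain ⟨h8, h9⟩ := UnSI_one h7
  obtain ⟨h10, h11⟩ := UnSI_rep h9
  exact ⟨h1, h3, h5, h8, h10, (UnSI_one h11).1⟩

private theorem UnSI_posx (i : ℕ) : posx G pd i + 1 = (i + 1) * dD G pd := by
  unfold posx dD
  ring

private theorem UnSI_lt {i k : ℕ} (h : i < k) : posx G pd i + 1 ≤ k * dD G pd := by
  rw [UnSI_posx]
  exact Nat.mul_le_mul_right _ h

private theorem UnSI_secE (c : Bool) (i : ℕ) (A : Fin K) :
    secS G pd c i A + A + 2 ≤ posE G pd c i A := by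
  unfold posE posC
  omega

private theorem UnSI_sec0 (c : Bool) (i : ℕ) (A : Fin K) :
    i * dD G pd ≤ secS G pd c i A := by
  unfold secS
  omega

private theorem UnSI_sec1 (c : Bool) (i : ℕ) (A : Fin K) :
    posE G pd c i A + A + 2 ≤ posx G pd i := by
  have h := pos_order G pd i A
  cases c
  · omega
  · omega

/-- the gap between the two names -/
private theorem UnSI_mid {k k2 e1 u1 s : ℕ} {c2 : Bool} {A1 C1 : Fin K} (hk : k < w.length)
    (he1 : e1 = posE G pd false k A1 + A1 + 2)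
    (h1 : ∀ t, e1 ≤ t → t < u1 → Is (enc G pd w) t tokm) (hle : e1 ≤ u1)
    (h2 : Is (enc G pd w) u1 (· = m))
    (h3 : ∀ t, u1 + 1 ≤ t → t < s → Is (enc G pd w) t tokm) (hle2 : u1 + 1 ≤ s)
    (hs : s = secS G pd c2 k2 C1) : c2 = true ∧ k2 = k := by
  obtain ⟨k1, hk1, e⟩ := enc_ism G pd w h2
  have o1 := pos_order G pd k A1
  have o2 := pos_order G pd k1 A1
  have o3 := UnSI_secE G pd false k A1
  have o4 := UnSI_sec0 G pd false k A1
  have o5 := UnSI_secE G pd c2 k2 C1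
  have o6 := UnSI_sec0 G pd c2 k2 C1
  have o7 := UnSI_sec1 G pd c2 k2 C1
  have ek : k1 = k := by
    rcases Nat.lt_trichotomy k1 k with h | h | h
    · have := UnSI_lt G pd h
      omega
    · exact h
    · have := UnSI_lt G pd h
      exact (UnSI_tokm (h1 (posm G pd k) (by omega) (by omega)) (enc_m G pd w hk)).elim
  subst ek
  have ek2 : k2 = k1 := by
    rcases Nat.lt_trichotomy k2 k1 with h | h | h
    · have := UnSI_lt G pd h
      omega
    · exact h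
    · have := UnSI_lt G pd h
      have := Nat.mul_le_mul_right (dD G pd) (Nat.succ_le_of_lt h)
      exact (UnSI_tok (UnSI_tt (h3 (posx G pd k1) (by omega) (by omega)))
        (enc_x G pd w hk1)).elim
  subst ek2
  refine ⟨?_, rfl⟩
  cases c2
  · have o8 := pos_order G pd k2 C1
    omega
  · rfl

theorem itemL_sound {i q y : ℕ} {p : Fin K × Fin K} (hi : i < w.length)
    (hq : posm G pd i < q) (hq' : q + (itm (α := α) p).length ≤ posx G pd i)
    (hrd : Rd (enc G pd w) q (itm p)) (hIR : RSound G pd w (y - q)) (hIL : LSound G pd w (y - q))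
    (h : At (enc G pd w) (ItemL SU) q y) :
    ∃ k j, i < k ∧ k < j ∧ j ≤ w.length ∧ y = j * dD G pd ∧ G.D p.1 (seg w i k) ∧
      G.D p.2 (seg w k j) := by
  obtain ⟨e2, g1, g2⟩ := at_cat.1 h
  obtain ⟨gC, g3⟩ := at_inter.1 g1
  obtain ⟨e1, g4, gG⟩ := at_cat.1 g3
  obtain ⟨gB, g5⟩ := at_inter.1 g4
  obtain ⟨r1, g6, g7⟩ := at_cat.1 g5
  obtain ⟨r2, g8, g9⟩ := at_cat.1 g7
  obtain ⟨c, k, A1, hk, er2, ee1⟩ := nmE_inv G pd w g9
  obtain ⟨f1, f2, f3⟩ := at_ST.1 g6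
  obtain ⟨u1, g10, g11⟩ := at_cat.1 gG
  obtain ⟨u2, g12, g13⟩ := at_cat.1 g11
  obtain ⟨s, g14, g15⟩ := at_cat.1 g13
  obtain ⟨rfl, f4⟩ := at_LC.1 g12
  obtain ⟨f5, -, f6⟩ := at_ST.1 g10
  obtain ⟨f7, -, f8⟩ := at_ST.1 g14
  obtain ⟨c2, k2, C1, hk2, es, ee2⟩ := nmS_inv G pd w g15
  have l1 := g8.le
  have l2 := g2.le
  obtain ⟨rfl, i1, hi1, er1, hD1⟩ := hIR r1 r2 (by omega) c k A1 hk er2 g8
  have hlen := UnSI_len (α := α) (p := p)
  have o1 := pos_order G pd i A1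
  have ei : i1 = i := by
    rcases Nat.lt_trichotomy i1 i with h' | h' | h'
    · have := UnSI_lt G pd h'
      omega
    · exact h'
    · have a1 := UnSI_lt G pd h'
      have a2 : i1 * dD G pd ≤ posx G pd i1 := by
        unfold posx
        omega
      exact (UnSI_tok (f3 (posx G pd i) (by omega) (by omega)) (enc_x G pd w hi)).elim
  subst ei
  obtain ⟨rfl, rfl⟩ := UnSI_mid G pd w hk (by rw [ee1, er2]) f6 f5 f4 f8 f7 es
  have ee2' : e2 = posC G pd true k2 C1 := by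
    rw [ee2, es]
    rfl
  obtain ⟨j1, hj1, hj2, ey, hD2⟩ := hIL e2 y (by omega) k2 C1 hk ee2' g2
  -- names
  obtain ⟨t1, t2, t3, t4, t5⟩ := UnSI_itm hrd
  obtain ⟨-, -, -, s4, s5, s6⟩ := UnSI_sect G pd w hk false A1
  obtain ⟨z1, z2, z3, -, -, -⟩ := UnSI_sect G pd w hk true C1
  rw [← er2] at s4 s5 s6
  rw [← es] at z1 z2 z3
  -- `MB`
  obtain ⟨v0, b1, b2⟩ := at_cat.1 gB
  obtain ⟨rfl, -⟩ := at_LC.1 b1
  obtain ⟨v, b3, b4⟩ := at_cat.1 b2
  obtain ⟨b5, -⟩ := at_LC.1 b4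
  obtain ⟨a, j2, b6, -, b7, b8, b9⟩ := at_Sync_LC.1 b3
  obtain ⟨v1, b10, b11⟩ := at_cat.1 b7
  obtain ⟨rfl, b12⟩ := at_LC.1 b10
  obtain ⟨u, b13, b14⟩ := at_cat.1 b11
  obtain ⟨rfl, b15⟩ := at_LC.1 b14
  have l3 := b13.le
  have n1 : q + 1 + a = q + 1 + p.1 :=
    UnSI_fw (s := q + 1) (by simp) (by simp) (by omega) (by omega) b8 b12 t2 t3
  have n2 : u = r2 :=
    UnSI_bw (e := v) (by simp) (by simp) (by omega) (by omega)
      (fun t h1 h2 => b9 t (by omega) h2) b15 (fun t h1 h2 => s5 t (by omega) (by omega)) s4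
  have n3 : A1 = p.1 := Fin.ext (by omega)
  -- `MC`
  obtain ⟨w0, d1, d2⟩ := at_cat.1 gC
  obtain ⟨rfl, -⟩ := at_LC.1 d1
  obtain ⟨w1, d3, d4⟩ := at_cat.1 d2
  obtain ⟨w2, d5, d6⟩ := at_cat.1 d4
  obtain ⟨rfl, d7⟩ := at_LC.1 d5
  obtain ⟨d8, -, d9⟩ := at_ST.1 d3
  obtain ⟨w3, d10, d11⟩ := at_cat.1 d6
  obtain ⟨d12, -⟩ := at_LC.1 d11
  obtain ⟨a', j3, d13, -, d14, d15, d16⟩ := at_Sync_LC.1 d10
  obtain ⟨w4, d17, d18⟩ := at_cat.1 d14
  obtain ⟨rfl, d19⟩ := at_LC.1 d17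
  obtain ⟨u', d20, d21⟩ := at_cat.1 d18
  obtain ⟨rfl, d22⟩ := at_LC.1 d21
  have l4 := d20.le
  have m1 : w1 = q + 1 + p.1 :=
    UnSI_fw (s := q + 1) (by simp) (by simp) d8 (by omega) d9 d7 t2 t3
  subst m1
  have m2 : q + 1 + p.1 + 1 + a' = q + 1 + p.1 + 1 + p.2 :=
    UnSI_fw (s := q + 1 + p.1 + 1) (by simp) (by simp) (by omega) (by omega) d15 d19 t4 t5
  have m3 : u' = s :=
    UnSI_bw (e := w3) (by simp) (by simp) (by omega) (by omega)
      (fun t h1 h2 => d16 t (by omega) h2) d22 (fun t h1 h2 => z2 t (by omega) (by omega)) z1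
  have m4 : C1 = p.2 := Fin.ext (by omega)
  subst n3
  subst m4
  exact ⟨k2, j1, hi1, hj1, hj2, ey, hD1, hD2⟩

theorem itemR_sound {j x z z0 : ℕ} {p : Fin K × Fin K} (hj : j < w.length)
    (hz0 : j * dD G pd ≤ z0) (hz : z = z0 + (itm (α := α) p).length) (hz' : z ≤ posx G pd j)
    (hrd : Rd (enc G pd w) z0 (itm p)) (hIR : RSound G pd w (z - x)) (hIL : LSound G pd w (z - x))
    (h : At (enc G pd w) (ItemR SU) x z) :
    z ≤ posm G pd j ∧ ∃ i k, x = posx G pd i ∧ i < k ∧ k < j ∧ G.D p.1 (seg w i k) ∧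
      G.D p.2 (seg w k j) := by
  obtain ⟨r2, g8, g1⟩ := at_cat.1 h
  obtain ⟨gB, g2⟩ := at_inter.1 g1
  obtain ⟨e1, g9, g3⟩ := at_cat.1 g2
  obtain ⟨s, gG, g4⟩ := at_cat.1 g3
  obtain ⟨gC, g5⟩ := at_inter.1 g4
  obtain ⟨e2, g15, g6⟩ := at_cat.1 g5
  obtain ⟨y, g16, g17⟩ := at_cat.1 g6
  obtain ⟨f1, -, f3⟩ := at_ST.1 g17
  obtain ⟨c, k, A1, hk, er2, ee1⟩ := nmE_inv G pd w g9
  obtain ⟨u1, g10, g11⟩ := at_cat.1 gG
  obtain ⟨u2, g12, g14⟩ := at_cat.1 g11
  obtain ⟨rfl, f4⟩ := at_LC.1 g12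
  obtain ⟨f5, -, f6⟩ := at_ST.1 g10
  obtain ⟨f7, -, f8⟩ := at_ST.1 g14
  obtain ⟨c2, k2, C1, hk2, es, ee2⟩ := nmS_inv G pd w g15
  have l1 := g8.le
  have l2 := g16.le
  obtain ⟨rfl, i1, hi1, er1, hD1⟩ := hIR x r2 (by omega) c k A1 hk er2 g8
  have hlen := UnSI_len (α := α) (p := p)
  obtain ⟨rfl, rfl⟩ := UnSI_mid G pd w hk (by rw [ee1, er2]) f6 f5 f4 f8 f7 es
  have ee2' : e2 = posC G pd true k2 C1 := by
    rw [ee2, es]
    rfl
  obtain ⟨j1, hj1, hj2, ey, hD2⟩ := hIL e2 y (by omega) k2 C1 hk ee2' g16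
  have ej : j1 = j := by
    rcases Nat.lt_trichotomy j1 j with h' | h' | h'
    · have a1 := UnSI_lt G pd h'
      have a2 : j1 * dD G pd ≤ posx G pd j1 := by
        unfold posx
        omega
      exact (UnSI_tok (UnSI_tt (f3 (posx G pd j1) (by omega) (by omega)))
        (enc_x G pd w (h'.trans hj))).elim
    · exact h'
    · have a1 := UnSI_lt G pd h'
      omega
  subst ej
  have hzm : z ≤ posm G pd j1 := by
    by_contra hc
    have a2 : j1 * dD G pd ≤ posm G pd j1 := by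
      unfold posm
      omega
    exact UnSI_tokm (f3 (posm G pd j1) (by omega) (by omega)) (enc_m G pd w hj)
  -- names
  obtain ⟨t1, t2, t3, t4, t5⟩ := UnSI_itm hrd
  obtain ⟨-, -, -, s4, s5, s6⟩ := UnSI_sect G pd w hk false A1
  obtain ⟨z1, z2, z3, -, -, -⟩ := UnSI_sect G pd w hk true C1
  rw [← er2] at s4 s5 s6
  rw [← es] at z1 z2 z3
  -- `MBR`
  obtain ⟨v0, b1, b2⟩ := at_cat.1 gB
  obtain ⟨rfl, -⟩ := at_LC.1 b1
  obtain ⟨v1, b3, b4⟩ := at_cat.1 b2
  obtain ⟨v2, b5, b6⟩ := at_cat.1 b4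
  obtain ⟨rfl, b7⟩ := at_LC.1 b5
  obtain ⟨v3, b8, b9⟩ := at_cat.1 b6
  obtain ⟨b10, b11⟩ := at_LC.1 b9
  obtain ⟨b12, -, b13⟩ := at_ST.1 b8
  obtain ⟨a, j2, b14, -, b15, b16, b17⟩ := at_Sync_LC.1 b3
  obtain ⟨v4, b18, b19⟩ := at_cat.1 b15
  obtain ⟨rfl, b20⟩ := at_LC.1 b18
  obtain ⟨u, b21, b22⟩ := at_cat.1 b19
  obtain ⟨rfl, b23⟩ := at_LC.1 b22
  have l3 := b21.le
  have n1 : r2 + 1 + a = r2 + 1 + A1 :=
    UnSI_fw (s := r2 + 1) (by simp) (by simp) (by omega) (by omega) b16 b20 s5 s6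
  have n2 : v1 = z0 + 1 + p.1 :=
    UnSI_bw (e := v3) (by simp) (by simp) (by omega) (by omega)
      (fun t h1 h2 => b13 t (by omega) h2) b7 (fun t h1 h2 => t4 t (by omega) (by omega)) t3
  have n3 : u = z0 :=
    UnSI_bw (e := v1) (by simp) (by simp) (by omega) (by omega)
      (fun t h1 h2 => b17 t (by omega) h2) b23 (fun t h1 h2 => t2 t (by omega) (by omega)) t1
  have n4 : A1 = p.1 := Fin.ext (by omega)
  -- `MCR`
  obtain ⟨w0, d1, d2⟩ := at_cat.1 gC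
  obtain ⟨rfl, -⟩ := at_LC.1 d1
  obtain ⟨w3, d10, d11⟩ := at_cat.1 d2
  obtain ⟨d12, -⟩ := at_LC.1 d11
  obtain ⟨a', j3, d13, -, d14, d15, d16⟩ := at_Sync_LC.1 d10
  obtain ⟨w4, d17, d18⟩ := at_cat.1 d14
  obtain ⟨rfl, d19⟩ := at_LC.1 d17
  obtain ⟨u', d20, d21⟩ := at_cat.1 d18
  obtain ⟨rfl, d22⟩ := at_LC.1 d21
  have l4 := d20.le
  have m1 : s + 1 + a' = s + 1 + C1 :=
    UnSI_fw (s := s + 1) (by simp) (by simp) (by omega) (by omega) d15 d19 z2 z3
  have m2 : u' = z0 + 1 + p.1 :=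
    UnSI_bw (e := w3) (by simp) (by simp) (by omega) (by omega)
      (fun t h1 h2 => d16 t (by omega) h2) d22 (fun t h1 h2 => t4 t (by omega) (by omega)) t3
  have m4 : C1 = p.2 := Fin.ext (by omega)
  subst n4
  subst m4
  exact ⟨hzm, i1, k2, er1, hi1, hj1, hD1, hD2⟩

end Pool.Agent.H29.CJ
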