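import Pool.Agent.H29.CJ.UnSI
import Pool.Agent.H29.CJ.UnH
import Pool.Agent.H29.CJ.UnCj
import Pool.Agent.H29.CJ.GrU

/-!
# Universal language: soundness

Use only the STATEMENTS of the imported files.

Prove `RSound N ∧ LSound N` by induction on `N`; step: segments of length exactly `N` (unfold by `sU_eq`, `PhiU`).
(LL) `x' = posC true i A`.
 `BaseL`: `a`, `r`, `ST isb` on `[x', r)`, `b a` at `r`, `ST tok` on `[r+1, y'-1)`, `x a` at `y' - 1`.  `cont_b`: `r < posE true i A ≤ posx i`, `G.base A a`.  `enc_isx`: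
  `y' - 1 = posx i'`, `a = w[i']`.  No `x` letter in `[x', y'-1)` and `posm i < x' ≤ posx i`, so `i' = i`, `y' = (i+1) D`, `seg w i (i+1) = [w[i]]`.
 Rule: `ST inner` on `[x', r)`, `R` at `r`, `IL` on `[r+1, y')`.  `cont_R`: `ρ`, `Rd (r+1) (ρ.flatMap itm ++ [ch])`, `ch ≠ I`.
  Claim (induction on a final part `ρ'` of `ρ`, position `q` with `Rd q (ρ'.flatMap itm ++ [ch])`, `posm i < q`, `q + |ρ'.flatMap itm| ≤ posE true i A ≤ posx i`,
  `At IL q y'`): every `p ∈ ρ'` has `k, j` with `i < k < j ≤ n`, `y' = j D`, `G.D p.1 (seg w i k)`, `G.D p.2 (seg w k j)`.  For `ρ' = p :: ρ''` the letter at `q` is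
  `I`, so the first alternative of `IL` is impossible; `itemL_sound` (with `RSound`, `LSound` for `y' - q < N`, monotone in `N`) and `cat ItT IL`: the `ItT` segment
  from `q` is exactly `itm p` (`I`, `l`s up to the first `o`, ...), continue with `q + |itm p|`.
  As `ρ ≠ []` (`G.ne`): `y' = j D`; the `j` is the same for all `p` (`dD_pos`).  `G.D A (seg w i j)` by `Gr.D_iff`, `seg_append`.
(RL) `y' = posE c j A`.
 `BaseR`: `x a` at `x'`, `ST tokm` on `[x'+1, r)`, `b a` at `r`, `ST inner` on `[r+1, y')`.  `back_b`: `posC c j A ≤ r`, `G.base A a`.  `enc_isx`: `x' = posx i`, `a = w[i]`.  No `x`, no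
  `m` in `[x'+1, r)`; `r` lies in chunk `j`, so `i + 1 = j` (if `i + 1 < j` then `posx (i+1)` is in between; `i < j` because `posx i < r ≤ posx j`...), and
  `c = false` (otherwise `posm j` is in between).  `seg w i j = [w[i]]`.
 `IR`: `z` with `At IR x' z`, and `z = y'` or (`R` at `z`, `ST inner` on `[z+1, y')`).  `back_R`: three cases.
  (b) `z - 1` carries a `b` letter: `IR` on `[x', z)` unfolds to: `z - 1` carries `R` (impossible), or `cat IR ItT`, whose last letter is `o` (impossible).
  (c) the word reads `S l^A o` ending at `z`: `z - 1` carries `o`, not `R`; `cat IR ItT`: `I l* o l* o` ends at `z`: the last `o` is at `z - 1`, then going left only `l`s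
   until an `o`; but going left from `z - 1` we meet `A` letters `l` and then `S`: contradiction.
  (a) `ρ ∈ G.rules A`, `Rd z0 (rul ρ)`, `z = z0 + |rul ρ|`, `posC c j A ≤ z0`.  Claim (induction on an initial part `ρ₀` of `ρ`, from the right:
   `List.reverseRecOn`): if `At IR x' (z0 + 1 + |ρ₀.flatMap itm|)` then every `p ∈ ρ₀` satisfies the conclusion of `itemR_sound` (`c = false` follows from
   `z ≤ posm j` when `ρ₀ ≠ []`).  For `ρ₀ ++ [p]` the last letter is `o`, so the first alternative of `IR` is impossible; `itemR_sound`, and the `ItT` segment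
   ending at `z` is exactly `itm p` (read backwards: `o`, `l`s, `o`, `l`s, `I`).
   All `p` have the same `i` (`x' = posx i`, `dD_pos`), `ρ ≠ []`.
-/

set_option autoImplicit false

namespace Pool.Agent.H29.CJ

open Ct

variable {α : Type} [Fintype α] {K : ℕ} (G : Gr α K) (pd : ℕ) (w : List α)

theorem UnSS_get {β : Type} {v : List β} {t : ℕ} {P : β → Prop} {a : β} (h : Is v t P)
    (ha : v[t]? = some a) : P a := by
  obtain ⟨b', hb, hP⟩ := h
  rw [ha] at hb
  obtain rfl := Option.some.inj hb
  exact hP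

theorem UnSS_itm_len (p : Fin K × Fin K) :
    (itm (α := α) p).length = p.1.val + p.2.val + 3 := by
  simp [itm]
  omega

theorem UnSS_itm_facts {v : List (Ct α)} {q : ℕ} {p : Fin K × Fin K} (h : Rd v q (itm p)) :
    v[q]? = some I ∧ (∀ t, q < t → t < q + 1 + p.1.val → v[t]? = some l) ∧
    v[q + 1 + p.1.val]? = some o ∧
    (∀ t, q + 1 + p.1.val < t → t < q + 2 + p.1.val + p.2.val → v[t]? = some l) ∧
    v[q + 2 + p.1.val + p.2.val]? = some o := by
  have g : ∀ t, t < p.1.val + p.2.val + 3 → v[q + t]? = (itm (α := α) p)[t]? :=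
    fun t ht => h.get (by rw [UnSS_itm_len]; exact ht)
  refine ⟨?_, ?_, ?_, ?_, ?_⟩
  · have := g 0 (by omega)
    simpa [itm] using this
  · intro t h1 h2
    obtain ⟨s, rfl⟩ : ∃ s, t = q + (s + 1) := ⟨t - q - 1, by omega⟩
    rw [g (s + 1) (by omega)]
    unfold itm
    rw [List.getElem?_cons_succ, List.getElem?_append_left (by rw [List.length_replicate]; omega),
      List.getElem?_replicate, if_pos (by omega)]
  · have := g (p.1.val + 1) (by omega)
    rw [show q + 1 + p.1.val = q + (p.1.val + 1) by omega, this]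
    unfold itm
    rw [List.getElem?_cons_succ, List.getElem?_append_right (by rw [List.length_replicate]),
      List.length_replicate, Nat.sub_self]
    rfl
  · intro t h1 h2
    obtain ⟨s, rfl⟩ : ∃ s, t = q + (p.1.val + (s + 1) + 1) := ⟨t - q - p.1.val - 2, by omega⟩
    rw [g _ (by omega)]
    unfold itm
    rw [List.getElem?_cons_succ, List.getElem?_append_right (by rw [List.length_replicate]; omega),
      List.length_replicate, Nat.add_sub_cancel_left, List.getElem?_cons_succ,
      List.getElem?_append_left (by rw [List.length_replicate]; omega),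
      List.getElem?_replicate, if_pos (by omega)]
  · have := g (p.1.val + (p.2.val + 1) + 1) (by omega)
    rw [show q + 2 + p.1.val + p.2.val = q + (p.1.val + (p.2.val + 1) + 1) by omega, this]
    unfold itm
    rw [List.getElem?_cons_succ, List.getElem?_append_right (by rw [List.length_replicate]; omega),
      List.length_replicate, Nat.add_sub_cancel_left, List.getElem?_cons_succ,
      List.getElem?_append_right (by rw [List.length_replicate]),
      List.length_replicate, Nat.sub_self]
    rfl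

/-- decomposition of an item segment -/
theorem UnSS_ItT {v : List (Ct α)} {q z : ℕ} (h : At v ItT q z) :
    ∃ k, q < k ∧ k + 2 ≤ z ∧ Is v q (· = I) ∧ (∀ t, q < t → t < k → Is v t (· = l)) ∧
      Is v k (· = o) ∧ (∀ t, k < t → t < z - 1 → Is v t (· = l)) ∧ Is v (z - 1) (· = o) := by
  obtain ⟨k1, h1, h⟩ := at_cat.1 h
  obtain ⟨k2, h2, h⟩ := at_cat.1 h
  obtain ⟨k3, h3, h⟩ := at_cat.1 h
  obtain ⟨k4, h4, h5⟩ := at_cat.1 h
  obtain ⟨rfl, h1'⟩ := at_LC.1 h1
  obtain ⟨h21, h22, h23⟩ := at_ST.1 h2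
  obtain ⟨rfl, h3'⟩ := at_LC.1 h3
  obtain ⟨h41, h42, h43⟩ := at_ST.1 h4
  obtain ⟨rfl, h5'⟩ := at_LC.1 h5
  refine ⟨k2, by omega, by omega, h1', fun t ht1 ht2 => h23 t (by omega) ht2, h3',
    fun t ht1 ht2 => h43 t (by omega) (by omega), ?_⟩
  rw [Nat.add_sub_cancel]
  exact h5'

theorem UnSS_ItT_L {v : List (Ct α)} {q z : ℕ} {p : Fin K × Fin K} (hr : Rd v q (itm p))
    (h : At v ItT q z) : z = q + (itm (α := α) p).length := by
  obtain ⟨f1, f2, f3, f4, f5⟩ := UnSS_itm_facts hr
  obtain ⟨k, g1, g2, g3, g4, g5, g6, g7⟩ := UnSS_ItT h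
  rw [UnSS_itm_len]
  have hk : k = q + 1 + p.1.val := by
    rcases lt_trichotomy k (q + 1 + p.1.val) with hlt | heq | hgt
    · have := UnSS_get g5 (f2 k g1 hlt)
      cases this
    · exact heq
    · have := UnSS_get (g4 _ (by omega) hgt) f3
      cases this
  have hz : z - 1 = q + 2 + p.1.val + p.2.val := by
    rcases lt_trichotomy (z - 1) (q + 2 + p.1.val + p.2.val) with hlt | heq | hgt
    · have := UnSS_get g7 (f4 _ (by omega) hlt)
      cases this
    · exact heq
    · have := UnSS_get (g6 _ (by omega) hgt) f5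
      cases this
  omega

theorem UnSS_ItT_R {v : List (Ct α)} {x' z z0 : ℕ} {p : Fin K × Fin K} (hr : Rd v z0 (itm p))
    (hz : z = z0 + (itm (α := α) p).length) (h : At v ItT x' z) : x' = z0 := by
  obtain ⟨f1, f2, f3, f4, f5⟩ := UnSS_itm_facts hr
  obtain ⟨k, g1, g2, g3, g4, g5, g6, g7⟩ := UnSS_ItT h
  rw [UnSS_itm_len] at hz
  have hk : k = z0 + 1 + p.1.val := by
    rcases lt_trichotomy k (z0 + 1 + p.1.val) with hlt | heq | hgt
    · have := UnSS_get (g6 _ hlt (by omega)) f3
      cases this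
    · exact heq
    · have := UnSS_get g5 (f4 k hgt (by omega))
      cases this
  rcases lt_trichotomy x' z0 with hlt | heq | hgt
  · have := UnSS_get (g4 _ hlt (by omega)) f1
    cases this
  · exact heq
  · have := UnSS_get g3 (f2 x' hgt (by omega))
    cases this

theorem UnSS_LL : (SU .LL : Set (List (Ct α))) =
    BaseL ∪ cat (ST inner) (cat (LC (· = R)) (SU .IL)) := sU_eq _

theorem UnSS_IL : (SU .IL : Set (List (Ct α))) =
    cat (LC (· ≠ I)) Set.univ ∪ (ItemL SU ∩ cat ItT (SU .IL)) := sU_eq _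

theorem UnSS_RL : (SU .RL : Set (List (Ct α))) =
    BaseR ∪ cat (SU .IR) ({[]} ∪ cat (LC (· = R)) (ST inner)) := sU_eq _

theorem UnSS_IR : (SU .IR : Set (List (Ct α))) =
    cat Set.univ (LC (· = R)) ∪ (ItemR SU ∩ cat (SU .IR) ItT) := sU_eq _

variable {G pd w}

theorem UnSS_RSound_mono {M N : ℕ} (h : M ≤ N) (h' : RSound G pd w N) : RSound G pd w M :=
  fun x' y' hxy => h' x' y' (lt_of_lt_of_le hxy h)

theorem UnSS_LSound_mono {M N : ℕ} (h : M ≤ N) (h' : LSound G pd w N) : LSound G pd w M :=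
  fun x' y' hxy => h' x' y' (lt_of_lt_of_le hxy h)

/-- the items of a rule, from left to right -/
theorem UnSS_itemsL {N i : ℕ} (hi : i < w.length) (hR : RSound G pd w N) (hL : LSound G pd w N)
    (ρ : List (Fin K × Fin K)) :
    ∀ q y, posm G pd i < q → q + (ρ.flatMap (itm (α := α))).length ≤ posx G pd i →
      Rd (enc G pd w) q (ρ.flatMap itm) → At (enc G pd w) (SU .IL) q y → y - q ≤ N →
      ∀ p ∈ ρ, ∃ k j, i < k ∧ k < j ∧ j ≤ w.length ∧ y = j * dD G pd ∧ G.D p.1 (seg w i k) ∧
        G.D p.2 (seg w k j) := by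
  induction ρ with
  | nil =>
    intro q y _ _ _ _ _ p hp
    cases hp
  | cons p0 ρ ih =>
    intro q y hq hq' hrd hat hN
    rw [List.flatMap_cons, List.length_append] at hq'
    rw [List.flatMap_cons] at hrd
    have hrd1 := hrd.append_left
    have hrd2 := hrd.append_right
    obtain ⟨f1, -, -, -, -⟩ := UnSS_itm_facts hrd1
    rw [UnSS_IL] at hat
    rcases at_union.1 hat with hat | hat
    · obtain ⟨k, h1, -⟩ := at_cat.1 hat
      obtain ⟨-, h1'⟩ := at_LC.1 h1
      have h1'' := UnSS_get h1' f1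
      exact absurd rfl h1''
    · obtain ⟨h1, h2⟩ := at_inter.1 hat
      obtain ⟨z, h3, h4⟩ := at_cat.1 h2
      have hz := UnSS_ItT_L hrd1 h3
      subst hz
      have key := itemL_sound G pd w hi hq (by omega) hrd1 (UnSS_RSound_mono hN hR)
        (UnSS_LSound_mono hN hL) h1
      have rest := ih (q + (itm (α := α) p0).length) y (by omega) (by omega) hrd2 h4 (by omega)
      intro p hp
      rcases List.mem_cons.1 hp with rfl | hp
      · exact key
      · exact rest p hp

/-- the items of a rule, from right to left -/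
theorem UnSS_itemsR {N j x' z0 : ℕ} (hj : j < w.length) (hR : RSound G pd w N)
    (hL : LSound G pd w N) (hz0 : j * dD G pd ≤ z0) (ρ : List (Fin K × Fin K)) :
    Rd (enc G pd w) (z0 + 1) (ρ.flatMap itm) →
      z0 + 1 + (ρ.flatMap (itm (α := α))).length ≤ posx G pd j →
      At (enc G pd w) (SU .IR) x' (z0 + 1 + (ρ.flatMap (itm (α := α))).length) →
      z0 + 1 + (ρ.flatMap (itm (α := α))).length - x' ≤ N →
      ∀ p ∈ ρ, z0 < posm G pd j ∧ ∃ i k, x' = posx G pd i ∧ i < k ∧ k < j ∧
        G.D p.1 (seg w i k) ∧ G.D p.2 (seg w k j) := by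
  induction ρ using List.reverseRecOn with
  | nil =>
    intro _ _ _ _ p hp
    cases hp
  | append_singleton ρ p0 ih =>
    intro hrd hle hat hN
    have hfl : (ρ ++ [p0]).flatMap (itm (α := α)) = ρ.flatMap itm ++ itm p0 := by
      rw [List.flatMap_append]
      simp
    rw [hfl] at hrd hle hat hN
    rw [List.length_append] at hle hat hN
    have hrd1 := hrd.append_left
    have hrd2 := hrd.append_right
    obtain ⟨-, -, -, -, f5⟩ := UnSS_itm_facts hrd2
    have hlen := UnSS_itm_len (α := α) p0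
    rw [UnSS_IR] at hat
    rcases at_union.1 hat with hat | hat
    · obtain ⟨k, -, h1⟩ := at_cat.1 hat
      obtain ⟨hk, h1'⟩ := at_LC.1 h1
      have hk' : k = z0 + 1 + (ρ.flatMap (itm (α := α))).length + 2 + p0.1.val + p0.2.val := by
        omega
      rw [hk'] at h1'
      have := UnSS_get h1' f5
      cases this
    · obtain ⟨h1, h2⟩ := at_inter.1 hat
      obtain ⟨z, h3, h4⟩ := at_cat.1 h2
      have hz := UnSS_ItT_R hrd2 (by omega) h4
      subst hz
      have key := itemR_sound G pd w (z0 := z0 + 1 + (ρ.flatMap (itm (α := α))).length) hj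
        (by omega) (by omega) hle hrd2 (UnSS_RSound_mono hN hR)
        (UnSS_LSound_mono hN hL) h1
      have rest := ih hrd1 (by omega) h3 (by omega)
      intro p hp
      rcases List.mem_append.1 hp with hp | hp
      · exact rest p hp
      · rw [List.mem_singleton] at hp
        subst hp
        exact ⟨by omega, key.2⟩

theorem UnSS_mul {a b : ℕ} (h : a * dD G pd = b * dD G pd) : a = b :=
  Nat.eq_of_mul_eq_mul_right (dD_pos G pd) h

theorem UnSS_mul_lt {a b : ℕ} (h : a * dD G pd < b * dD G pd) : a < b :=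
  lt_of_mul_lt_mul_right h (Nat.zero_le _)

theorem UnSS_mul_le {a b : ℕ} (h : a ≤ b) : a * dD G pd ≤ b * dD G pd :=
  Nat.mul_le_mul_right _ h

theorem UnSS_posx_succ (i : ℕ) : posx G pd i + 1 = (i + 1) * dD G pd := by
  unfold posx dD
  ring

theorem UnSS_posx_inj {a b : ℕ} (h : posx G pd a = posx G pd b) : a = b := by
  have h1 := UnSS_posx_succ (G := G) (pd := pd) a
  have h2 := UnSS_posx_succ (G := G) (pd := pd) b
  have h3 : (a + 1) * dD G pd = (b + 1) * dD G pd := by omega
  have := UnSS_mul h3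
  omega

theorem UnSS_posx_lt {a b : ℕ} (h : posx G pd a < posx G pd b) : a < b := by
  have h1 := UnSS_posx_succ (G := G) (pd := pd) a
  have h2 := UnSS_posx_succ (G := G) (pd := pd) b
  have h3 : (a + 1) * dD G pd < (b + 1) * dD G pd := by omega
  have := UnSS_mul_lt h3
  omega

theorem UnSS_CE (c : Bool) (i : ℕ) (A : Fin K) :
    posC G pd c i A ≤ posE G pd c i A ∧ secS G pd c i A + 2 ≤ posC G pd c i A := by
  unfold posE posC
  omega

theorem UnSS_seg_one {i : ℕ} (hi : i < w.length) : seg w i (i + 1) = [w[i]] :=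
  atl_seg_one (List.getElem?_eq_getElem hi)

theorem UnSS_stepL {N : ℕ} (hR : RSound G pd w N) (hL : LSound G pd w N) :
    LSound G pd w (N + 1) := by
  intro x' y' hxy i A hi hx' hat
  obtain ⟨hCE, hSC⟩ := UnSS_CE (G := G) (pd := pd) true i A
  obtain ⟨-, -, o3, o4, o5, o6, o7⟩ := pos_order G pd i A
  rw [UnSS_LL] at hat
  rcases at_union.1 hat with hat | hat
  · obtain ⟨g1, g2, a, g3⟩ := hat
    have hat : At (enc G pd w) (cat (ST isb) (cat (LC (· = b a)) (cat (ST tok) (LC (· = x a)))))
      x' y' := ⟨g1, g2, g3⟩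
    obtain ⟨r, h1, hat⟩ := at_cat.1 hat
    obtain ⟨k2, h2, hat⟩ := at_cat.1 hat
    obtain ⟨k3, h3, h4⟩ := at_cat.1 hat
    obtain ⟨h11, h12, h13⟩ := at_ST.1 h1
    obtain ⟨rfl, a2, h2, rfl⟩ := at_LC.1 h2
    obtain ⟨h31, h32, h33⟩ := at_ST.1 h3
    obtain ⟨rfl, a4, h4, rfl⟩ := at_LC.1 h4
    obtain ⟨c1, c2⟩ := cont_b G pd w (c := true) (A := A) hi (by omega)
      (fun t ht1 ht2 => h13 t (by omega) ht2) h2
    obtain ⟨i', hi', e1, e2⟩ := enc_isx G pd w h4
    have hii : i' = i := by
      rcases lt_trichotomy i' i with hlt | heq | hgt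
      · exfalso
        have u1 := UnSS_posx_succ (G := G) (pd := pd) i'
        have u2 : (i' + 1) * dD G pd ≤ i * dD G pd := UnSS_mul_le hlt
        omega
      · exact heq
      · exfalso
        have u1 := UnSS_posx_succ (G := G) (pd := pd) i'
        have u2 := UnSS_posx_succ (G := G) (pd := pd) i
        have u3 : (i + 1) * dD G pd < (i' + 1) * dD G pd :=
          Nat.mul_lt_mul_of_pos_right (by omega) (dD_pos G pd)
        have u4 := h33 (posx G pd i) (by omega) (by omega)
        exact UnSS_get u4 (enc_x G pd w hi) ⟨_, rfl⟩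
    subst hii
    refine ⟨i' + 1, by omega, by omega, by omega, ?_⟩
    rw [UnSS_seg_one hi', ← e2]
    exact Gr.D.base c2
  · obtain ⟨r, h1, hat⟩ := at_cat.1 hat
    obtain ⟨k2, h2, h3⟩ := at_cat.1 hat
    obtain ⟨h11, h12, h13⟩ := at_ST.1 h1
    obtain ⟨rfl, h2'⟩ := at_LC.1 h2
    obtain ⟨c1, ρ, hρ, ch, hch, c2, c3⟩ := cont_R G pd w (c := true) (A := A) hi (by omega)
      (fun t ht1 ht2 => h13 t (by omega) ht2) h2'
    have hle := h3.le
    have key := UnSS_itemsL hi hR hL ρ (r + 1) y' (by omega) (by omega) c3.append_left h3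
      (by omega)
    obtain ⟨p0, hp0⟩ := List.exists_mem_of_ne_nil ρ (G.ne A ρ hρ)
    obtain ⟨k, j, e1, e2, e3, e4, e5, e6⟩ := key p0 hp0
    refine ⟨j, by omega, e3, e4, ?_⟩
    rw [Gr.D_iff]
    refine Or.inr ⟨ρ, hρ, fun p hp => ?_⟩
    obtain ⟨k', j', d1, d2, d3, d4, d5, d6⟩ := key p hp
    have : j' = j := UnSS_mul (by rw [← d4, e4])
    subst this
    exact ⟨seg w i k', seg w k' j', seg_append (by omega) (by omega) w, d5, d6⟩

theorem UnSS_stepR {N : ℕ} (hR : RSound G pd w N) (hL : LSound G pd w N) :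
    RSound G pd w (N + 1) := by
  intro x' y' hxy c j A hj hy' hat
  obtain ⟨hCE, hSC⟩ := UnSS_CE (G := G) (pd := pd) c j A
  obtain ⟨o1, o2, o3, o4, o5, o6, o7⟩ := pos_order G pd j A
  have hsec : j * dD G pd ≤ secS G pd c j A := by
    cases c
    · exact o1
    · omega
  have hEx : posE G pd c j A ≤ posx G pd j := by
    cases c
    · omega
    · omega
  rw [UnSS_RL] at hat
  rcases at_union.1 hat with hat | hat
  · obtain ⟨g1, g2, a, g3⟩ := hat
    have hat : At (enc G pd w) (cat (LC (· = x a)) (cat (ST tokm) (cat (LC (· = b a)) (ST inner))))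
      x' y' := ⟨g1, g2, g3⟩
    obtain ⟨k1, h1, hat⟩ := at_cat.1 hat
    obtain ⟨r, h2, hat⟩ := at_cat.1 hat
    obtain ⟨k3, h3, h4⟩ := at_cat.1 hat
    obtain ⟨rfl, a1, h1, rfl⟩ := at_LC.1 h1
    obtain ⟨h21, h22, h23⟩ := at_ST.1 h2
    obtain ⟨rfl, a3, h3, rfl⟩ := at_LC.1 h3
    obtain ⟨h41, h42, h43⟩ := at_ST.1 h4
    obtain ⟨c1, c2⟩ := back_b G pd w (c := c) (i := j) (A := A) hj (by omega)
      (fun t ht1 ht2 => h43 t (by omega) (by omega)) h3
    obtain ⟨i, hi, e1, e2⟩ := enc_isx G pd w h1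
    have hij : i < j := UnSS_posx_lt (G := G) (pd := pd) (by omega)
    have u1 := UnSS_posx_succ (G := G) (pd := pd) i
    have hij2 : i + 1 = j := by
      by_contra hne
      have u2 := UnSS_posx_succ (G := G) (pd := pd) (i + 1)
      have u3 : (i + 1 + 1) * dD G pd ≤ j * dD G pd := UnSS_mul_le (by omega)
      have u4 : (i + 1) * dD G pd < (i + 1 + 1) * dD G pd :=
        Nat.mul_lt_mul_of_pos_right (by omega) (dD_pos G pd)
      have u5 := h23 (posx G pd (i + 1)) (by omega) (by omega)
      exact (UnSS_get u5 (enc_x G pd w (i := i + 1) (by omega))).1 ⟨_, rfl⟩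
    subst hij2
    refine ⟨?_, i, by omega, e1, ?_⟩
    · cases c
      · rfl
      · exfalso
        have u5 := h23 (posm G pd (i + 1)) (by omega) (by omega)
        obtain ⟨b1, hb1, hb2⟩ := enc_m G pd w hj
        exact (UnSS_get u5 hb1).2 hb2
    · rw [UnSS_seg_one hi, ← e2]
      exact Gr.D.base c2
  · obtain ⟨z, h1, h2⟩ := at_cat.1 hat
    have hb : z = posE G pd c j A ∨ (z < posE G pd c j A ∧ Is (enc G pd w) z (· = R) ∧
        ∀ t, z < t → t < posE G pd c j A → Is (enc G pd w) t inner) := by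
      rcases at_union.1 h2 with h2 | h2
      · left
        rw [(at_eps.1 h2).1, hy']
      · right
        obtain ⟨k, h3, h4⟩ := at_cat.1 h2
        obtain ⟨rfl, h3'⟩ := at_LC.1 h3
        obtain ⟨h41, h42, h43⟩ := at_ST.1 h4
        exact ⟨by omega, h3', fun t ht1 ht2 => h43 t (by omega) (by omega)⟩
    have hzy : z ≤ y' := h2.le
    have hxz : x' ≤ z := h1.le
    rcases back_R G pd w hj hb with ⟨ρ, hρ, z0, b1, b2, b3⟩ | ⟨b1, b2⟩ | ⟨b1, b2⟩
    · have hlen : (rul (α := α) ρ).length = 1 + (ρ.flatMap (itm (α := α))).length := by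
        unfold rul
        rw [List.length_cons]
        omega
      have hrd : Rd (enc G pd w) (z0 + 1) (ρ.flatMap itm) := by
        have b4 : Rd (enc G pd w) z0 ([R] ++ ρ.flatMap itm) := b3
        have := b4.append_right
        exact this
      have hz : z = z0 + 1 + (ρ.flatMap (itm (α := α))).length := by omega
      rw [hz] at h1
      have key := UnSS_itemsR hj hR hL (z0 := z0) (by omega) ρ hrd (by omega) h1 (by omega)
      obtain ⟨p0, hp0⟩ := List.exists_mem_of_ne_nil ρ (G.ne A ρ hρ)
      obtain ⟨e0, i, k, e1, e2, e3, e4, e5⟩ := key p0 hp0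
      refine ⟨?_, i, by omega, e1, ?_⟩
      · cases c
        · rfl
        · exfalso
          omega
      · rw [Gr.D_iff]
        refine Or.inr ⟨ρ, hρ, fun p hp => ?_⟩
        obtain ⟨-, i', k', d1, d2, d3, d4, d5⟩ := key p hp
        have : i' = i := UnSS_posx_inj (G := G) (pd := pd) (by rw [← d1, e1])
        subst this
        exact ⟨seg w i' k', seg w k' j, seg_append (by omega) (by omega) w, d4, d5⟩
    · exfalso
      rw [UnSS_IR] at h1
      rcases at_union.1 h1 with h1 | h1
      · obtain ⟨k, -, h3⟩ := at_cat.1 h1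
        obtain ⟨rfl, a1, h3, rfl⟩ := at_LC.1 h3
        rw [Nat.add_sub_cancel] at b2
        obtain ⟨a2, h4⟩ := UnSS_get b2 h3
        cases h4
      · obtain ⟨-, h3⟩ := at_inter.1 h1
        obtain ⟨k, -, h3⟩ := at_cat.1 h3
        obtain ⟨k2, -, -, -, -, -, -, a1, h4, rfl⟩ := UnSS_ItT h3
        obtain ⟨a2, h4⟩ := UnSS_get b2 h4
        cases h4
    · exfalso
      have f0 : ∀ t, t < A.val + 2 → (enc G pd w)[z - (A.val + 2) + t]? =
          ((S :: (List.replicate A l ++ [o]) : List (Ct α)))[t]? := by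
        intro t ht
        exact b2.get (by simp; omega)
      have f1 : (enc G pd w)[z - (A.val + 2)]? = some S := by
        have := f0 0 (by omega)
        simpa using this
      have f2 : ∀ t, z - (A.val + 2) < t → t < z - 1 → (enc G pd w)[t]? = some l := by
        intro t ht1 ht2
        obtain ⟨s, rfl⟩ : ∃ s, t = z - (A.val + 2) + (s + 1) :=
          ⟨t - (z - (A.val + 2)) - 1, by omega⟩
        rw [f0 (s + 1) (by omega), List.getElem?_cons_succ,
          List.getElem?_append_left (by rw [List.length_replicate]; omega),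
          List.getElem?_replicate, if_pos (by omega)]
      have f3 : (enc G pd w)[z - 1]? = some o := by
        rw [show z - 1 = z - (A.val + 2) + (A.val + 1) by omega, f0 (A.val + 1) (by omega),
          List.getElem?_cons_succ, List.getElem?_append_right (by rw [List.length_replicate]),
          List.length_replicate, Nat.sub_self]
        rfl
      rw [UnSS_IR] at h1
      rcases at_union.1 h1 with h1 | h1
      · obtain ⟨k, -, h3⟩ := at_cat.1 h1
        obtain ⟨rfl, h3'⟩ := at_LC.1 h3
        rw [Nat.add_sub_cancel] at f3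
        have := UnSS_get h3' f3
        cases this
      · obtain ⟨-, h3⟩ := at_inter.1 h1
        obtain ⟨k, -, h3⟩ := at_cat.1 h3
        obtain ⟨k2, q1, q2, q3, q4, q5, q6, q7⟩ := UnSS_ItT h3
        rcases lt_trichotomy k2 (z - (A.val + 2)) with hlt | heq | hgt
        · have := UnSS_get (q6 _ hlt (by omega)) f1
          cases this
        · rw [heq] at q5
          have := UnSS_get q5 f1
          cases this
        · have := UnSS_get q5 (f2 k2 hgt (by omega))
          cases this

variable (G pd w)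

theorem un_sound (N : ℕ) : RSound G pd w N ∧ LSound G pd w N := by
  induction N with
  | zero =>
    constructor
    · intro x' y' h
      exact absurd h (Nat.not_lt_zero _)
    · intro x' y' h
      exact absurd h (Nat.not_lt_zero _)
  | succ N ih => exact ⟨UnSS_stepR ih.1 ih.2, UnSS_stepL ih.1 ih.2⟩

end Pool.Agent.H29.CJ
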