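import Pool.Agent.H29.CJ.WrD
import Pool.Agent.H29.CJ.UnCj
import Pool.Agent.H29.CJ.Wts

/-!
# The diagonal language is conjunctive

Use only the STATEMENTS of the imported files (`Clo`, `Clo2`, `Wts`, `UnCj`).

`Om` is finite.  `W1`: `IsConj.preimage con isConj_LU`.  `PalT`: guarded solution (`isConj_of_sys`, `Unit`, `μ = 0`) of
`X = {[]} ∪ {[a] : ¬ isX a, con a = aux a} ∪ ⋃_{(a,b): ¬ isX a, ¬ isX b, con a = aux b, con b = aux a} {[a]} X {[b]}`
(decompose a word of length `≥ 2` as `a :: (u ++ [b])`).  `Adj`: guarded solution of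
`X = LC isX ∪ ⋃_{(a,b): ¬ isX a, ¬ isX b, con a = aux b} {[a]} X {[b]}`.
`BitsL l`: induction on `l`.  `LnkC`: guarded solution of `X = Core0 ∪ ⋃_σ GpL [σ] · X · LC (aux = σ ∧ ¬ isX)`:
closedness: `g' ∈ GpL [σ]`, `g ∈ GpL s` give `g' ++ g ∈ GpL (σ :: s)` (`BitsL_append`), `(σ :: s).reverse = s.reverse ++ [σ]`; conversely split `v` at its
last letter and `g` at the end of the code of the first `σ`.  The `X`-part is shorter because of the last letter.
Finite unions over `Om × Om` and `Ct Lt` by `Poly.exF`, `Poly.iteP`.  Everything else by the closure lemmas; `wD` has values in `{-1, 0, 1}`.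
-/

set_option autoImplicit false

namespace Pool.Agent.H29.CJ

theorem BitsL_append (l l' : List Bool) : BitsL (l ++ l') = cat (BitsL l) (BitsL l') := by
  induction l with
  | nil =>
    change BitsL l' = cat {[]} (BitsL l')
    rw [Clo2_one_cat]
  | cons b l ih =>
    change cat (ST (fun a => mrk a = .no)) (cat (LC (fun a => mrk a = .b b)) (BitsL (l ++ l')))
      = cat (cat (ST (fun a => mrk a = .no)) (cat (LC (fun a => mrk a = .b b)) (BitsL l))) (BitsL l')
    rw [ih, Clo2_cat_assoc, Clo2_cat_assoc]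

theorem WrC_BitsL (l : List Bool) : IsConj (BitsL l) := by
  induction l with
  | nil => exact isConj_eps
  | cons b l ih => exact (isConj_ST _).cat ((isConj_LC _).cat ih)

theorem WrC_PalT : IsConj PalT := by
  have key := isConj_of_sys (α := Om) (ι := Unit)
    (Φ := fun _ X => ({[]} ∪ LC (fun a => ¬ isX a ∧ con a = aux a)) ∪
      {w | ∃ p : Om × Om, w ∈ {w | (¬ isX p.1 ∧ ¬ isX p.2 ∧ con p.1 = aux p.2 ∧ con p.2 = aux p.1) ∧
        w ∈ cat {[p.1]} (cat (X ()) {[p.2]})}})
    (fun _ => ((Poly.cst _ isConj_eps).union (Poly.cst _ (isConj_LC _))).union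
      (Poly.exF fun p => Poly.iteP ((Poly.cst _ (isConj_sym _)).cat
        ((Poly.var ()).cat (Poly.cst _ (isConj_sym _)))) _))
    (fun _ => PalT) (fun _ => 0) ?_ ?_
  · exact key ()
  · intro _ w hw
    rcases hw with (hw | hw) | hw
    · have h1 : w = [] := hw
      subst h1
      exact ⟨fun a ha => by simp at ha, rfl⟩
    · obtain ⟨a, ⟨ha, ha'⟩, rfl⟩ := hw
      refine ⟨fun b hb => ?_, ?_⟩
      · rw [List.mem_singleton] at hb
        subst hb
        exact ha
      · simp [ha']
    · obtain ⟨⟨a, b⟩, ⟨ha, hb, h1, h2⟩, x, hx, y, ⟨u, hu, z, hz, rfl⟩, rfl⟩ := hw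
      have hx' : x = [a] := hx
      have hz' : z = [b] := hz
      subst hx' hz'
      obtain ⟨hu1, hu2⟩ := hu
      refine ⟨fun c hc => ?_, ?_⟩
      · simp only [List.singleton_append, List.mem_cons, List.mem_append, List.not_mem_nil,
          or_false] at hc
        rcases hc with rfl | hc | rfl
        · exact ha
        · exact hu1 c hc
        · exact hb
      · simp only [List.map_append, List.map_cons, List.map_nil, List.reverse_append,
          List.reverse_cons, List.reverse_nil, List.nil_append, hu2]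
        simp only at h1 h2
        rw [h1, h2]
        simp
  · intro _ w hw
    obtain ⟨hw1, hw2⟩ := hw
    cases w with
    | nil => exact Or.inl (Or.inl rfl)
    | cons a w =>
      rcases List.eq_nil_or_concat w with rfl | ⟨u, b, rfl⟩
      · refine Or.inl (Or.inr ⟨a, ⟨hw1 a (by simp), ?_⟩, rfl⟩)
        simpa using hw2
      · rw [List.concat_eq_append] at *
        have h3 : con a :: (u.map con ++ [con b]) = aux b :: ((u.map aux).reverse ++ [aux a]) := by
          simpa using hw2
        have h4 := List.cons.inj h3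
        have h5 := List.append_inj' h4.2 rfl
        refine Or.inr ⟨(a, b), ⟨hw1 a (by simp), hw1 b (by simp), h4.1, ?_⟩, [a], rfl, u ++ [b],
          ⟨u, ⟨⟨fun c hc => hw1 c (by simp [hc]), h5.1⟩, Or.inl ?_⟩, [b], rfl, rfl⟩, rfl⟩
        · exact List.singleton_inj.1 h5.2
        · simp only [List.length_cons, List.length_append]
          omega

theorem WrC_Adj : IsConj Adj := by
  have key := isConj_of_sys (α := Om) (ι := Unit)
    (Φ := fun _ X => LC isX ∪
      {w | ∃ p : Om × Om, w ∈ {w | (¬ isX p.1 ∧ ¬ isX p.2 ∧ con p.1 = aux p.2) ∧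
        w ∈ cat {[p.1]} (cat (X ()) {[p.2]})}})
    (fun _ => (Poly.cst _ (isConj_LC _)).union
      (Poly.exF fun p => Poly.iteP ((Poly.cst _ (isConj_sym _)).cat
        ((Poly.var ()).cat (Poly.cst _ (isConj_sym _)))) _))
    (fun _ => Adj) (fun _ => 0) ?_ ?_
  · exact key ()
  · intro _ w hw
    rcases hw with hw | hw
    · obtain ⟨a, ha, rfl⟩ := hw
      exact ⟨[], a, [], rfl, ha, fun b hb => by simp at hb, fun b hb => by simp at hb, rfl⟩
    · obtain ⟨⟨b, c⟩, ⟨hb, hc, h1⟩, x, hx, y, ⟨t, ht, z, hz, rfl⟩, rfl⟩ := hw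
      have hx' : x = [b] := hx
      have hz' : z = [c] := hz
      subst hx' hz'
      obtain ⟨u, a, v, rfl, ha, hu, hv, huv⟩ := ht
      refine ⟨b :: u, a, v ++ [c], by simp, ha, ?_, ?_, ?_⟩
      · intro d hd
        rw [List.mem_cons] at hd
        rcases hd with rfl | hd
        · exact hb
        · exact hu d hd
      · intro d hd
        rw [List.mem_append, List.mem_singleton] at hd
        rcases hd with hd | rfl
        · exact hv d hd
        · exact hc
      · simp only at h1
        simp only [List.map_append, List.map_cons, List.map_nil, List.reverse_append,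
          List.reverse_cons, List.reverse_nil, List.nil_append, huv, h1]
        simp
  · intro _ w hw
    obtain ⟨u, a, v, rfl, ha, hu, hv, huv⟩ := hw
    cases u with
    | nil =>
      have h1 : v = [] := by
        rcases List.eq_nil_or_concat v with rfl | ⟨v', c, rfl⟩
        · rfl
        · exfalso
          simp at huv
      subst h1
      exact Or.inl ⟨a, ha, rfl⟩
    | cons b u =>
      rcases List.eq_nil_or_concat v with rfl | ⟨v', c, rfl⟩
      · exfalso
        simp at huv
      · rw [List.concat_eq_append] at *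
        have h3 : con b :: u.map con = aux c :: (v'.map aux).reverse := by simpa using huv
        have h4 := List.cons.inj h3
        refine Or.inr ⟨(b, c), ⟨hu b (by simp), hv c (by simp), h4.1⟩, [b], rfl,
          (u ++ a :: v') ++ [c], ⟨u ++ a :: v', ⟨⟨u, a, v', rfl, ha,
            fun d hd => hu d (by simp [hd]), fun d hd => hv d (by simp [hd]), h4.2⟩, Or.inl ?_⟩,
            [c], rfl, rfl⟩, by simp⟩
        simp only [List.length_cons, List.length_append]
        omega

theorem WrC_Core0 : IsConj Core0 :=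
  (isConj_ST _).cat ((isConj_LC _).cat (isConj_univ.cat (isConj_LC _)))

theorem WrC_GpL (s : List (Ct Lt)) : IsConj (GpL s) := WrC_BitsL _

theorem WrC_GpL_cons (σ : Ct Lt) (s : List (Ct Lt)) : GpL (σ :: s) = cat (GpL [σ]) (GpL s) := by
  unfold GpL
  rw [← BitsL_append]
  simp

theorem WrC_LnkC : IsConj LnkC := by
  have key := isConj_of_sys (α := Om) (ι := Unit)
    (Φ := fun _ X => Core0 ∪
      {w | ∃ σ : Ct Lt, w ∈ cat (GpL [σ]) (cat (X ()) (LC (fun a => aux a = σ ∧ ¬ isX a)))})
    (fun _ => (Poly.cst _ WrC_Core0).union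
      (Poly.exF fun σ => (Poly.cst _ (WrC_GpL _)).cat
        ((Poly.var ()).cat (Poly.cst _ (isConj_LC _)))))
    (fun _ => LnkC) (fun _ => 0) ?_ ?_
  · exact key ()
  · intro _ w hw
    rcases hw with hw | hw
    · exact ⟨[], [], w, [], by simp, rfl, hw, rfl, fun b hb => by simp at hb⟩
    · obtain ⟨σ, g', hg', y, ⟨x, hx, z, ⟨a, ⟨ha1, ha2⟩, rfl⟩, rfl⟩, rfl⟩ := hw
      obtain ⟨s, g, c, v, rfl, hg, hc, hv1, hv2⟩ := hx
      refine ⟨σ :: s, g' ++ g, c, v ++ [a], by simp, ?_, hc, ?_, ?_⟩
      · rw [WrC_GpL_cons]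
        exact ⟨g', hg', g, hg, rfl⟩
      · simp [hv1, ha1]
      · intro b hb
        rw [List.mem_append, List.mem_singleton] at hb
        rcases hb with hb | rfl
        · exact hv2 b hb
        · exact ha2
  · intro _ w hw
    obtain ⟨s, g, c, v, rfl, hg, hc, hv1, hv2⟩ := hw
    cases s with
    | nil =>
      have h1 : g = [] := hg
      have h2 : v = [] := by simpa using hv1
      subst h1 h2
      exact Or.inl (by simpa using hc)
    | cons σ s =>
      rw [WrC_GpL_cons] at hg
      obtain ⟨g1, hg1, g2, hg2, rfl⟩ := hg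
      rcases List.eq_nil_or_concat v with rfl | ⟨v', a, rfl⟩
      · exfalso
        simp at hv1
      · rw [List.concat_eq_append] at *
        rw [List.reverse_cons, List.map_append] at hv1
        have h5 := List.append_inj' hv1 rfl
        have h6 : aux a = σ := List.singleton_inj.1 h5.2
        refine Or.inr ⟨σ, g1, hg1, (g2 ++ (c ++ v')) ++ [a], ⟨g2 ++ (c ++ v'),
          ⟨⟨s, g2, c, v', rfl, hg2, hc, h5.1, fun b hb => hv2 b (by simp [hb])⟩, Or.inl ?_⟩, [a],
          ⟨a, ⟨h6, hv2 a (by simp)⟩, rfl⟩, rfl⟩, by simp⟩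
        simp only [List.length_cons, List.length_append, List.length_nil]
        omega

theorem WrC_wD (a : Om) : wD a = -1 ∨ wD a = 0 ∨ wD a = 1 := by
  unfold wD
  split_ifs <;> simp

theorem WrC_W1 : IsConj W1 := IsConj.preimage con isConj_LU

theorem WrC_W2 : IsConj W2 :=
  (isConj_univ.cat (isConj_LC _)).inter (IsConj.allPre _
    ((WrC_PalT.cat (isConj_LC _)).union
      (((isConj_eps.union (isConj_univ.cat (isConj_LC _))).cat (WrC_Adj.cat (isConj_LC _))).inter
        ((isConj_univ.cat (isConj_LC _)).cat (WrC_PalT.cat (isConj_LC _))))))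

theorem WrC_Dbl0 : IsConj Dbl0 :=
  ((isConj_LC _).sync (isConj_LC _) (isConj_LC _)).cat (isConj_LC _)

theorem WrC_Dbl1 : IsConj Dbl1 :=
  ((isConj_LC _).sync ((isConj_LC _).cat (isConj_LC _)) (isConj_LC _)).cat (isConj_LC _)

theorem WrC_W3 : IsConj W3 :=
  (((isConj_LC _).cat (isConj_ST _)).inter
    (((isConj_ST _).cat ((isConj_LC _).cat (isConj_ST _))).inter
      (isConj_univ.cat (isConj_LC _)))).inter
    ((IsConj.allPre _ WrC_Dbl0).inter (IsConj.allPre _ WrC_Dbl1))

theorem WrC_W4 : IsConj W4 :=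
  (isConj_LC _).cat (WrC_LnkC.cat ((isConj_LC _).cat isConj_univ))

theorem WrC_BlkG (P : Om → Prop) : IsConj (BlkG P) :=
  ((isConj_ST _).cat (isConj_LC _)).union
    ((isConj_eps.union (isConj_univ.cat (isConj_LC _))).cat
      (((isConj_LC _).sync (isConj_LC _) (isConj_LC _)).cat (isConj_LC _)))

theorem WrC_ChN : IsConj ChN := (isConj_ST _).cat (isConj_LC _)

theorem WrC_ChZ : IsConj ChZ := (isConj_ST _).cat (isConj_LC _)

theorem WrC_W5 : IsConj W5 :=
  ((IsConj.allPre _ (WrC_BlkG del)).inter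
    ((isConj_univ.cat (isConj_LC _)).inter (isConj_WT wD WrC_wD 0))).inter
  ((WrC_ChN.sync (WrC_ChZ.cat (isConj_univ.cat (isConj_LC _))) (isConj_LC _)).cat
    ((isConj_LC _).cat isConj_univ))

theorem isConj_Ldg : IsConj Ldg :=
  WrC_W1.inter (WrC_W2.inter (WrC_W3.inter (WrC_W4.inter WrC_W5)))

end Pool.Agent.H29.CJ
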