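import Pool.Agent.H29.CJ.UnD
import Pool.Agent.H29.CJ.SpD

/-!
# The diagonal language: definitions

Letters `Om`: content letter (`Ct Lt`), auxiliary letter (`Ct Lt`), arithmetic mark (`Mk`), flag (`Bool`).
-/

set_option autoImplicit false

namespace Pool.Agent.H29.CJ

/-- arithmetic marks -/
inductive Mk : Type
  | no | st | b (v : Bool) | xx | dd
  deriving DecidableEq, Fintype

abbrev Om : Type := Ct Lt × Ct Lt × Mk × Bool

def con (a : Om) : Ct Lt := a.1
def aux (a : Om) : Ct Lt := a.2.1
def mrk (a : Om) : Mk := a.2.2.1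
def del (a : Om) : Prop := a.2.2.2 = true
/-- positions whose content is a letter `x _` -/
def isX (a : Om) : Prop := isx a.1

noncomputable section

open Classical

noncomputable instance fintype_CtLt : Fintype (Ct Lt) :=
  Fintype.ofSurjective
    (fun s : Fin 8 ⊕ (Lt ⊕ Lt) => match s with
      | .inl 0 => Ct.S | .inl 1 => Ct.E | .inl 2 => Ct.o | .inl 3 => Ct.l
      | .inl 4 => Ct.m | .inl 5 => Ct.R | .inl 6 => Ct.I | .inl 7 => Ct.p
      | .inr (.inl a) => Ct.b a | .inr (.inr a) => Ct.x a)
    (by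
      intro c
      cases c with
      | S => exact ⟨.inl 0, rfl⟩
      | E => exact ⟨.inl 1, rfl⟩
      | o => exact ⟨.inl 2, rfl⟩
      | l => exact ⟨.inl 3, rfl⟩
      | m => exact ⟨.inl 4, rfl⟩
      | R => exact ⟨.inl 5, rfl⟩
      | I => exact ⟨.inl 6, rfl⟩
      | p => exact ⟨.inl 7, rfl⟩
      | b a => exact ⟨.inr (.inl a), rfl⟩
      | x a => exact ⟨.inr (.inr a), rfl⟩)

/-- binary code of a content letter (all codes have the same length) -/
def codeT (c : Ct Lt) : List Bool :=
  (Finset.univ : Finset (Ct Lt)).toList.map (fun d => decide (d = c))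

/-- value of the binary word `1 l` -/
def val (l : List Bool) : ℕ := l.foldl (fun p b => 2 * p + (if b then 1 else 0)) 1

/-- the bits marked in a word -/
def mseq (ω : List Om) : List Bool :=
  ω.filterMap (fun a => match mrk a with | .b v => some v | _ => none)

/-- text segments whose auxiliary track is the reversed content -/
def PalT : Set (List Om) := {u | (∀ a ∈ u, ¬ isX a) ∧ u.map con = (u.map aux).reverse}

/-- consecutive text segments around a letter: the second auxiliary track is the reversed first text -/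
def Adj : Set (List Om) :=
  {w | ∃ u a v, w = u ++ a :: v ∧ isX a ∧ (∀ b ∈ u, ¬ isX b) ∧ (∀ b ∈ v, ¬ isX b) ∧
    u.map con = (v.map aux).reverse}

/-- marks spelling the bits `l`, up to the last of these marks -/
def BitsL : List Bool → Set (List Om)
  | [] => {[]}
  | b :: l => cat (ST (fun a => mrk a = .no)) (cat (LC (fun a => mrk a = .b b)) (BitsL l))

/-- marks spelling the code of a list of content letters -/
def GpL (s : List (Ct Lt)) : Set (List Om) := BitsL (s.flatMap codeT)

/-- core of the link: the last mark before the powers of two, up to some letter `x _` -/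
def Core0 : Set (List Om) :=
  cat (ST (fun a => mrk a = .no)) (cat (LC (fun a => mrk a = .xx)) (cat Set.univ (LC isX)))

/-- the marks spell the code of `s`, and the word ends with a text segment with auxiliary track
`s` reversed -/
def LnkC : Set (List Om) :=
  {w | ∃ (s : List (Ct Lt)) (g c v : List Om), w = g ++ (c ++ v) ∧ g ∈ GpL s ∧ c ∈ Core0 ∧
    v.map aux = s.reverse ∧ ∀ b ∈ v, ¬ isX b}

def Dbl0 : Set (List Om) :=
  cat (Sync (LC (fun _ => True)) (LC (fun a => mrk a ≠ .no)) (LC (fun a => mrk a = .no)))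
    (LC (fun a => mrk a ≠ .no))

def Dbl1 : Set (List Om) :=
  cat (Sync (LC (fun _ => True)) (cat (LC (fun a => mrk a ≠ .no)) (LC (fun a => mrk a = .no)))
    (LC (fun a => mrk a = .no))) (LC (fun a => mrk a ≠ .no))

/-- equidistant flags -/
def BlkG {α : Type} (P : α → Prop) : Set (List α) :=
  cat (ST (fun x => ¬ P x)) (LC P) ∪
  cat ({[]} ∪ cat Set.univ (LC P))
    (cat (Sync (LC (fun x => ¬ P x)) (LC P) (LC (fun x => ¬ P x))) (LC P))

def W1 : Set (List Om) := {ω | ω.map con ∈ LU}

def W2 : Set (List Om) :=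
  cat Set.univ (LC isX) ∩
  AllPre isX (cat PalT (LC isX) ∪
    (cat ({[]} ∪ cat Set.univ (LC isX)) (cat Adj (LC isX)) ∩
      cat (cat Set.univ (LC isX)) (cat PalT (LC isX))))

def W3 : Set (List Om) :=
  (cat (LC (fun a => mrk a = .st)) (ST (fun a => mrk a ≠ .st)) ∩
    (cat (ST (fun a => mrk a ≠ .xx ∧ mrk a ≠ .dd)) (cat (LC (fun a => mrk a = .xx))
      (ST (fun a => mrk a = .no ∨ mrk a = .dd))) ∩
    cat Set.univ (LC (fun a => mrk a ≠ .no)))) ∩
  (AllPre (fun a => mrk a = .b false ∨ mrk a = .dd) Dbl0 ∩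
    AllPre (fun a => mrk a = .b true ∨ mrk a = .xx) Dbl1)

def W4 : Set (List Om) :=
  cat (LC (fun a => mrk a = .st)) (cat LnkC (cat (LC isX) Set.univ))

/-- weight: flags minus letters `sg` -/
def wD (a : Om) : ℤ := (if del a then 1 else 0) - (if con a = Ct.x Lt.sg then 1 else 0)

/-- a chunk whose letter is `nz` -/
def ChN : Set (List Om) :=
  cat (ST (fun a => ¬ isX a)) (LC (fun a => ∃ y, con a = Ct.x y ∧ Lt.isNZ y))
/-- a chunk whose letter is `z` -/
def ChZ : Set (List Om) :=
  cat (ST (fun a => ¬ isX a)) (LC (fun a => ∃ y, con a = Ct.x y ∧ Lt.isZ y))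

def W5 : Set (List Om) :=
  (AllPre del (BlkG del) ∩ (cat Set.univ (LC del) ∩ WT wD 0)) ∩
  cat (Sync ChN (cat ChZ (cat Set.univ (LC del))) (LC (fun a => ¬ del a)))
    (cat (LC del) Set.univ)

/-- the diagonal language -/
def Ldg : Set (List Om) := W1 ∩ (W2 ∩ (W3 ∩ (W4 ∩ W5)))

/-- the value attached to a text -/
def valC (t : List (Ct Lt)) : ℕ := val (t.flatMap codeT ++ [true])

/-- chunk structure: content and auxiliary track of `ω` -/
structure Chk (ω : List Om) (t : List (Ct Lt)) (w' : List Lt) : Prop where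
  ne : w' ≠ []
  tk : ∀ c ∈ t, tok c
  con_eq : ω.map con = w'.flatMap (fun a => t ++ [Ct.x a])
  aux_eq : ∀ i < w'.length,
    seg (ω.map aux) (i * (t.length + 1)) (i * (t.length + 1) + t.length) = t.reverse

end

end Pool.Agent.H29.CJ
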