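import Pool.Agent.H29.CJ.WrV
import Pool.Agent.H29.CJ.AtL

/-!
# Construction of words of the diagonal language: marks

Use only the STATEMENTS of the imported files.

`p i = val (bs.take i)` for `i ≤ bs.length`; `c = val (bs ++ [true])`.  `p 0 = 1`, `p (i+1) = 2 p i + [bs[i]]`, `c = 2 p (bs.length) + 1`; so
`p 0 < p 1 < ... < p (bs.length) < c < 2 c < 4 c < ...`, all cases of `mF` are exclusive, and `i` is determined by `p (i+1)`.
`W3_complete`: position `0` carries `st`, other positions do not (`mF`).  Position `c - 1` carries `xx` (`c ≤ ω.length`, `c - 1 ≠ 0`), positions before it carry neither `xx` nor `dd`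
(`r + 1 < c`), positions after it carry `no` or `dd` (`p i < c`).  The last position `n - 1`, `n = c 2^h`, carries `xx` (`h = 0`) or `dd`.
`AllPre` with `Dbl0`: a position `r` with mark `b false`: `r + 1 = p (i+1) = 2 p i`; the previous marked position is `p i - 1`, nothing marked strictly between (`p i < s < p (i+1)` is
not a `p _`, not `≥ c`); so the initial segment is `any^(p i - 1) marked no^(p i - 1) marked`.  `dd`: `r + 1 = c 2^j`, `j ≥ 1`, previous `c 2^(j-1)`.  `Dbl1`: `b true`: `r + 1 = 2 p i + 1`; `xx`: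
`r + 1 = 2 p (bs.length) + 1`: `any^(p-1) marked (no) no^(p-1) marked`.
`bits_seg`: the segment `[p i, p j)` of `ω` belongs to `BitsL (bs[i..j))`: induction; used with `i = 0`, `j = bs.length` (`p 0 = 1`).  The statement below is for a list `l` of bits
occurring from index `i`: `bs = bs.take i ++ l ++ rest`.
-/

set_option autoImplicit false

namespace Pool.Agent.H29.CJ

open Classical in
/-- the mark at position `r` for the bits `bs` -/
noncomputable def mF (bs : List Bool) (r : ℕ) : Mk :=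
  if r = 0 then .st
  else if h : ∃ i, ∃ hi : i < bs.length, r + 1 = val (bs.take (i + 1)) then
    .b (bs[h.choose]'(h.choose_spec.choose))
  else if r + 1 = val (bs ++ [true]) then .xx
  else if ∃ j, 1 ≤ j ∧ r + 1 = val (bs ++ [true]) * 2 ^ j then .dd
  else .no

private theorem WrF_p0 (bs : List Bool) : val (bs.take 0) = 1 := by simp [val]

private theorem WrF_pl (bs : List Bool) : val (bs.take bs.length) = val bs := by simp

private theorem WrF_ps (bs : List Bool) (i : ℕ) (hi : i < bs.length) :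
    val (bs.take (i + 1)) = 2 * val (bs.take i) + (if bs[i] then 1 else 0) := by
  rw [List.take_succ_eq_append_getElem hi, val_append]

private theorem WrF_c (bs : List Bool) : val (bs ++ [true]) = 2 * val bs + 1 := by
  rw [val_append]
  simp

private theorem WrF_le1 (bs : List Bool) (i : ℕ) : 1 ≤ val (bs.take i) := val_pos _

private theorem WrF_lt1 (bs : List Bool) (i : ℕ) (hi : i < bs.length) :
    val (bs.take i) < val (bs.take (i + 1)) := by
  rw [WrF_ps bs i hi]
  have := WrF_le1 bs i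
  omega

private theorem WrF_lt (bs : List Bool) {i j : ℕ} (hij : i < j) (hj : j ≤ bs.length) :
    val (bs.take i) < val (bs.take j) := by
  induction j, hij using Nat.le_induction with
  | base => exact WrF_lt1 bs i (by omega)
  | succ j hj' ih =>
    exact (ih (by omega)).trans (WrF_lt1 bs j (by omega))

private theorem WrF_le (bs : List Bool) {i j : ℕ} (hij : i ≤ j) (hj : j ≤ bs.length) :
    val (bs.take i) ≤ val (bs.take j) := by
  rcases Nat.eq_or_lt_of_le hij with rfl | h
  · exact le_rfl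
  · exact (WrF_lt bs h hj).le

private theorem WrF_inj (bs : List Bool) {i j : ℕ} (hi : i ≤ bs.length) (hj : j ≤ bs.length)
    (h : val (bs.take i) = val (bs.take j)) : i = j := by
  rcases Nat.lt_trichotomy i j with h1 | h1 | h1
  · have := WrF_lt bs h1 hj
    omega
  · exact h1
  · have := WrF_lt bs h1 hi
    omega

private theorem WrF_ltc (bs : List Bool) {i : ℕ} (hi : i ≤ bs.length) :
    2 * val (bs.take i) < val (bs ++ [true]) := by
  have h := WrF_le bs hi le_rfl
  rw [WrF_pl] at h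
  rw [WrF_c]
  omega

private theorem WrF_cpow (bs : List Bool) (j : ℕ) :
    val (bs ++ [true]) ≤ val (bs ++ [true]) * 2 ^ j :=
  Nat.le_mul_of_pos_right _ (pow_pos (by norm_num) j)

private theorem WrF_cpow1 (bs : List Bool) {j : ℕ} (hj : 1 ≤ j) :
    val (bs ++ [true]) < val (bs ++ [true]) * 2 ^ j := by
  obtain ⟨k, rfl⟩ : ∃ k, j = k + 1 := ⟨j - 1, by omega⟩
  have h1 := WrF_cpow bs k
  have h2 : val (bs ++ [true]) * 2 ^ (k + 1) = 2 * (val (bs ++ [true]) * 2 ^ k) := by ring
  have h3 := val_pos (bs ++ [true])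
  omega

/-- the cases of the definition of `mF` -/
private theorem WrF_cases (bs : List Bool) (r : ℕ) :
    (r = 0 ∧ mF bs r = .st) ∨
    (∃ i, ∃ hi : i < bs.length, r + 1 = val (bs.take (i + 1)) ∧ mF bs r = .b bs[i]) ∨
    (r + 1 = val (bs ++ [true]) ∧ mF bs r = .xx) ∨
    (∃ j, 1 ≤ j ∧ r + 1 = val (bs ++ [true]) * 2 ^ j ∧ mF bs r = .dd) ∨
    (r ≠ 0 ∧ (∀ i, i < bs.length → r + 1 ≠ val (bs.take (i + 1))) ∧
      r + 1 ≠ val (bs ++ [true]) ∧ (∀ j, 1 ≤ j → r + 1 ≠ val (bs ++ [true]) * 2 ^ j) ∧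
      mF bs r = .no) := by
  classical
  by_cases h0 : r = 0
  · left
    exact ⟨h0, by unfold mF; rw [if_pos h0]⟩
  right
  by_cases h1 : ∃ i, ∃ hi : i < bs.length, r + 1 = val (bs.take (i + 1))
  · left
    refine ⟨h1.choose, h1.choose_spec.choose, h1.choose_spec.choose_spec, ?_⟩
    unfold mF
    rw [if_neg h0, dif_pos h1]
  right
  by_cases h2 : r + 1 = val (bs ++ [true])
  · left
    exact ⟨h2, by unfold mF; rw [if_neg h0, dif_neg h1, if_pos h2]⟩
  right
  by_cases h3 : ∃ j, 1 ≤ j ∧ r + 1 = val (bs ++ [true]) * 2 ^ j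
  · left
    obtain ⟨j, hj, hj'⟩ := h3
    exact ⟨j, hj, hj', by unfold mF; rw [if_neg h0, dif_neg h1, if_neg h2, if_pos ⟨j, hj, hj'⟩]⟩
  right
  refine ⟨h0, fun i hi h => h1 ⟨i, hi, h⟩, h2, fun j hj h => h3 ⟨j, hj, h⟩, ?_⟩
  unfold mF
  rw [if_neg h0, dif_neg h1, if_neg h2, if_neg h3]

private theorem WrF_st (bs : List Bool) : mF bs 0 = .st := by
  unfold mF
  rw [if_pos rfl]

private theorem WrF_b (bs : List Bool) (i : ℕ) (hi : i < bs.length) (r : ℕ)
    (hr : r + 1 = val (bs.take (i + 1))) : mF bs r = .b bs[i] := by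
  have h1 := WrF_lt1 bs i hi
  have h2 := WrF_le1 bs i
  have h3 := WrF_ltc bs (Nat.succ_le_of_lt hi)
  rcases WrF_cases bs r with h | ⟨i', hi', h, h'⟩ | h | ⟨j, hj, h, _⟩ | h
  · omega
  · have : i' + 1 = i + 1 := WrF_inj bs hi' hi (by omega)
    obtain rfl : i' = i := by omega
    exact h'
  · have h4 := h.1
    have h5 : i + 1 = i.succ := rfl
    rw [← h5] at h3
    omega
  · have h4 := WrF_cpow bs j
    have h5 : i + 1 = i.succ := rfl
    rw [← h5] at h3
    omega
  · exact absurd hr (h.2.1 i hi)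

private theorem WrF_xx (bs : List Bool) (r : ℕ) (hr : r + 1 = val (bs ++ [true])) :
    mF bs r = .xx := by
  have h1 := WrF_c bs
  have h2 := val_pos bs
  rcases WrF_cases bs r with h | ⟨i', hi', h, h'⟩ | h | ⟨j, hj, h, _⟩ | h
  · omega
  · have h3 := WrF_ltc bs (i := i' + 1) hi'
    omega
  · exact h.2
  · have h4 := WrF_cpow1 bs hj
    omega
  · exact absurd hr h.2.2.1

private theorem WrF_dd (bs : List Bool) (r j : ℕ) (hj : 1 ≤ j)
    (hr : r + 1 = val (bs ++ [true]) * 2 ^ j) : mF bs r = .dd := by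
  have h1 := WrF_c bs
  have h2 := val_pos bs
  have h3 := WrF_cpow1 bs hj
  rcases WrF_cases bs r with h | ⟨i', hi', h, h'⟩ | h | ⟨j', hj', h, h'⟩ | h
  · omega
  · have h3 := WrF_ltc bs (i := i' + 1) hi'
    omega
  · have := h.1
    omega
  · exact h'
  · exact absurd hr (h.2.2.2.1 j hj)

/-- nothing is marked strictly between `p i` and `p (i+1)` -/
private theorem WrF_no1 (bs : List Bool) (i : ℕ) (hi : i < bs.length) (s : ℕ)
    (h1 : val (bs.take i) ≤ s) (h2 : s + 1 < val (bs.take (i + 1))) : mF bs s = .no := by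
  have g1 := WrF_le1 bs i
  have g3 := WrF_ltc bs (i := i + 1) hi
  rcases WrF_cases bs s with h | ⟨i', hi', h, h'⟩ | h | ⟨j', hj', h, h'⟩ | h
  · omega
  · exfalso
    rcases Nat.lt_or_ge i' i with h3 | h3
    · have := WrF_le bs (i := i' + 1) (j := i) h3 hi.le
      omega
    · have := WrF_le bs (i := i + 1) (j := i' + 1) (by omega) hi'
      omega
  · have := h.1
    omega
  · have := WrF_cpow bs j'
    omega
  · exact h.2.2.2.2

/-- nothing is marked strictly between `val bs` and `c` -/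
private theorem WrF_no2 (bs : List Bool) (s : ℕ)
    (h1 : val bs ≤ s) (h2 : s + 1 < val (bs ++ [true])) : mF bs s = .no := by
  have g1 := val_pos bs
  rcases WrF_cases bs s with h | ⟨i', hi', h, h'⟩ | h | ⟨j', hj', h, h'⟩ | h
  · omega
  · exfalso
    have := WrF_le bs (i := i' + 1) (j := bs.length) hi' le_rfl
    rw [WrF_pl] at this
    omega
  · have := h.1
    omega
  · have := WrF_cpow bs j'
    omega
  · exact h.2.2.2.2

/-- nothing is marked strictly between `c 2^j` and `c 2^(j+1)` -/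
private theorem WrF_no3 (bs : List Bool) (j s : ℕ)
    (h1 : val (bs ++ [true]) * 2 ^ j ≤ s) (h2 : s + 1 < val (bs ++ [true]) * 2 ^ (j + 1)) :
    mF bs s = .no := by
  have g1 := val_pos (bs ++ [true])
  have g2 := WrF_cpow bs j
  rcases WrF_cases bs s with h | ⟨i', hi', h, h'⟩ | h | ⟨j', hj', h, h'⟩ | h
  · omega
  · exfalso
    have := WrF_ltc bs (i := i' + 1) hi'
    omega
  · have := h.1
    omega
  · exfalso
    rcases Nat.lt_or_ge j j' with h3 | h3
    · have h4 : val (bs ++ [true]) * 2 ^ (j + 1) ≤ val (bs ++ [true]) * 2 ^ j' :=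
        Nat.mul_le_mul_left _ (Nat.pow_le_pow_right (by norm_num) h3)
      omega
    · have h4 : val (bs ++ [true]) * 2 ^ j' ≤ val (bs ++ [true]) * 2 ^ j :=
        Nat.mul_le_mul_left _ (Nat.pow_le_pow_right (by norm_num) h3)
      omega
  · exact h.2.2.2.2

/-- `p i` is marked -/
private theorem WrF_mk (bs : List Bool) (i : ℕ) (hi : i ≤ bs.length) (r : ℕ)
    (hr : r + 1 = val (bs.take i)) : mF bs r ≠ .no := by
  cases i with
  | zero =>
    rw [WrF_p0] at hr
    obtain rfl : r = 0 := by omega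
    rw [WrF_st]
    intro h
    cases h
  | succ i =>
    rw [WrF_b bs i (by omega) r hr]
    intro h
    cases h

/-- `c 2^j` is marked -/
private theorem WrF_mk2 (bs : List Bool) (j r : ℕ)
    (hr : r + 1 = val (bs ++ [true]) * 2 ^ j) : mF bs r ≠ .no := by
  rcases Nat.eq_zero_or_pos j with rfl | hj
  · rw [WrF_xx bs r (by rw [hr]; simp)]
    intro h
    cases h
  · rw [WrF_dd bs r j hj hr]
    intro h
    cases h

private theorem WrF_Is {ω : List Om} {bs : List Bool}
    (hm : ∀ r a, ω[r]? = some a → mrk a = mF bs r) {s : ℕ} (hs : s < ω.length) (P : Mk → Prop)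
    (hP : P (mF bs s)) : Is ω s (fun a => P (mrk a)) := by
  have h := List.getElem?_eq_getElem hs
  refine ⟨ω[s], h, ?_⟩
  show P (mrk ω[s])
  rw [hm s _ h]
  exact hP

private theorem WrF_D0 {ω : List Om} {m : ℕ} (hm : 1 ≤ m) (hl : 2 * m ≤ ω.length)
    (h1 : Is ω (m - 1) (fun a => mrk a ≠ .no)) (h2 : Is ω (2 * m - 1) (fun a => mrk a ≠ .no))
    (h3 : ∀ s, m ≤ s → s < 2 * m - 1 → Is ω s (fun a => mrk a = .no)) :
    At ω Dbl0 0 (2 * m) := by
  unfold Dbl0
  refine at_cat.2 ⟨2 * m - 1, at_Sync_LC.2 ⟨m - 1, m, by omega, by omega, ?_, ?_, h3⟩,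
    at_LC.2 ⟨by omega, h2⟩⟩
  · exact at_LC.2 ⟨by omega, by rw [Nat.zero_add]; exact h1⟩
  · intro t _ ht
    have : t < ω.length := by omega
    exact ⟨ω[t], List.getElem?_eq_getElem this, trivial⟩

private theorem WrF_D1 {ω : List Om} {m : ℕ} (hm : 1 ≤ m) (hl : 2 * m + 1 ≤ ω.length)
    (h1 : Is ω (m - 1) (fun a => mrk a ≠ .no)) (h2 : Is ω (2 * m) (fun a => mrk a ≠ .no))
    (h3 : ∀ s, m ≤ s → s < 2 * m → Is ω s (fun a => mrk a = .no)) :
    At ω Dbl1 0 (2 * m + 1) := by
  unfold Dbl1
  refine at_cat.2 ⟨2 * m, at_Sync_LC.2 ⟨m - 1, m + 1, by omega, by omega, ?_, ?_, ?_⟩,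
    at_LC.2 ⟨rfl, h2⟩⟩
  · exact at_cat.2 ⟨m, at_LC.2 ⟨by omega, by rw [Nat.zero_add]; exact h1⟩,
      at_LC.2 ⟨rfl, h3 m le_rfl (by omega)⟩⟩
  · intro t _ ht
    have : t < ω.length := by omega
    exact ⟨ω[t], List.getElem?_eq_getElem this, trivial⟩
  · intro s hs1 hs2
    exact h3 s (by omega) hs2

private theorem WrF_bits {ω : List Om} {bs : List Bool} (hlen : val (bs ++ [true]) ≤ ω.length)
    (hm : ∀ r a, ω[r]? = some a → mrk a = mF bs r) (d : ℕ) :
    ∀ k, k + d = bs.length → At ω (BitsL (bs.drop k)) (val (bs.take k)) (val bs) := by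
  have hc := WrF_c bs
  have hpos := val_pos bs
  induction d with
  | zero =>
    intro k hk
    obtain rfl : k = bs.length := by omega
    rw [List.drop_length, WrF_pl]
    exact at_eps.2 ⟨rfl, by omega⟩
  | succ d ih =>
    intro k hk
    have hk' : k < bs.length := by omega
    have h1 := ih (k + 1) (by omega)
    have hle := h1.le
    rw [List.drop_eq_getElem_cons hk']
    have h2 := WrF_le1 bs k
    have h3 := WrF_lt1 bs k hk'
    refine at_cat.2 ⟨val (bs.take (k + 1)) - 1, at_ST.2 ⟨by omega, by omega, ?_⟩,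
      at_cat.2 ⟨val (bs.take (k + 1)), at_LC.2 ⟨by omega, ?_⟩, h1⟩⟩
    · intro t ht1 ht2
      exact WrF_Is hm (by omega) (fun x => x = .no) (WrF_no1 bs k hk' t ht1 (by omega))
    · exact WrF_Is hm (by omega) (fun x => x = .b bs[k]) (WrF_b bs k hk' _ (by omega))

theorem W3_complete {ω : List Om} {bs : List Bool} {h : ℕ}
    (hlen : ω.length = val (bs ++ [true]) * 2 ^ h)
    (hm : ∀ r a, ω[r]? = some a → mrk a = mF bs r) : ω ∈ W3 := by
  have hc := WrF_c bs
  have hpos := val_pos bs
  have hcl := WrF_cpow bs h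
  rw [← hlen] at hcl
  rw [← at_full]
  unfold W3
  refine at_inter.2 ⟨at_inter.2 ⟨?_, at_inter.2 ⟨?_, ?_⟩⟩, at_inter.2 ⟨?_, ?_⟩⟩
  · refine at_cat.2 ⟨1, at_LC.2 ⟨rfl, ?_⟩, at_ST.2 ⟨by omega, le_rfl, ?_⟩⟩
    · exact WrF_Is hm (by omega) (fun x => x = .st) (WrF_st bs)
    · intro t ht1 ht2
      refine WrF_Is hm ht2 (fun x => x ≠ .st) ?_
      rcases WrF_cases bs t with h | ⟨i', hi', h, h'⟩ | h | ⟨j', hj', h, h'⟩ | h
      · omega
      · rw [h']
        intro h4
        cases h4
      · rw [h.2]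
        intro h4
        cases h4
      · rw [h']
        intro h4
        cases h4
      · rw [h.2.2.2.2]
        intro h4
        cases h4
  · refine at_cat.2 ⟨val (bs ++ [true]) - 1, at_ST.2 ⟨by omega, by omega, ?_⟩,
      at_cat.2 ⟨val (bs ++ [true]), at_LC.2 ⟨by omega, ?_⟩, at_ST.2 ⟨hcl, le_rfl, ?_⟩⟩⟩
    · intro t _ ht2
      refine WrF_Is hm (by omega) (fun x => x ≠ .xx ∧ x ≠ .dd) ?_
      rcases WrF_cases bs t with h | ⟨i', hi', h, h'⟩ | h | ⟨j', hj', h, h'⟩ | h
      · rw [h.2]
        exact ⟨(by intro h4; cases h4), (by intro h4; cases h4)⟩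
      · rw [h']
        exact ⟨(by intro h4; cases h4), (by intro h4; cases h4)⟩
      · have := h.1
        omega
      · have := WrF_cpow bs j'
        omega
      · rw [h.2.2.2.2]
        exact ⟨(by intro h4; cases h4), (by intro h4; cases h4)⟩
    · exact WrF_Is hm (by omega) (fun x => x = .xx) (WrF_xx bs _ (by omega))
    · intro t ht1 ht2
      refine WrF_Is hm ht2 (fun x => x = .no ∨ x = .dd) ?_
      rcases WrF_cases bs t with h | ⟨i', hi', h, h'⟩ | h | ⟨j', hj', h, h'⟩ | h
      · omega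
      · have := WrF_ltc bs (i := i' + 1) hi'
        omega
      · have := h.1
        omega
      · exact Or.inr h'
      · exact Or.inl h.2.2.2.2
  · refine at_cat.2 ⟨ω.length - 1, at_univ.2 ⟨by omega, by omega⟩, at_LC.2 ⟨by omega, ?_⟩⟩
    exact WrF_Is hm (by omega) (fun x => x ≠ .no) (WrF_mk2 bs h _ (by omega))
  · refine at_AllPre.2 ⟨by omega, le_rfl, ?_⟩
    intro t _ ht2 hP
    obtain ⟨a, ha, hPa⟩ := hP
    have hPa' : mF bs t = .b false ∨ mF bs t = .dd := by
      rw [← hm t a ha]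
      exact hPa
    rcases WrF_cases bs t with h | ⟨i', hi', h, h'⟩ | h | ⟨j', hj', h, h'⟩ | h
    · rw [h.2] at hPa'
      rcases hPa' with h4 | h4 <;> cases h4
    · rw [h'] at hPa'
      have hb : bs[i'] = false := by
        rcases hPa' with h4 | h4
        · injection h4
        · cases h4
      have hs := WrF_ps bs i' hi'
      rw [hb] at hs
      have hs' : t + 1 = 2 * val (bs.take i') := by
        rw [h, hs]
        simp
      have h5 := WrF_le1 bs i'
      rw [hs']
      refine WrF_D0 h5 (by omega) ?_ ?_ ?_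
      · exact WrF_Is hm (by omega) (fun x => x ≠ .no) (WrF_mk bs i' hi'.le _ (by omega))
      · exact WrF_Is hm (by omega) (fun x => x ≠ .no) (WrF_mk bs (i' + 1) hi' _ (by omega))
      · intro s hs1 hs2
        exact WrF_Is hm (by omega) (fun x => x = .no) (WrF_no1 bs i' hi' s hs1 (by omega))
    · rw [h.2] at hPa'
      rcases hPa' with h4 | h4 <;> cases h4
    · obtain ⟨k, rfl⟩ : ∃ k, j' = k + 1 := ⟨j' - 1, by omega⟩
      have h5 : val (bs ++ [true]) * 2 ^ (k + 1) = 2 * (val (bs ++ [true]) * 2 ^ k) := by ring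
      have h6 := WrF_cpow bs k
      have h7 : t + 1 = 2 * (val (bs ++ [true]) * 2 ^ k) := by rw [h, h5]
      rw [h7]
      refine WrF_D0 (by omega) (by omega) ?_ ?_ ?_
      · exact WrF_Is hm (by omega) (fun x => x ≠ .no) (WrF_mk2 bs k _ (by omega))
      · exact WrF_Is hm (by omega) (fun x => x ≠ .no) (WrF_mk2 bs (k + 1) _ (by omega))
      · intro s hs1 hs2
        exact WrF_Is hm (by omega) (fun x => x = .no) (WrF_no3 bs k s hs1 (by omega))
    · rw [h.2.2.2.2] at hPa'
      rcases hPa' with h4 | h4 <;> cases h4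
  · refine at_AllPre.2 ⟨by omega, le_rfl, ?_⟩
    intro t _ ht2 hP
    obtain ⟨a, ha, hPa⟩ := hP
    have hPa' : mF bs t = .b true ∨ mF bs t = .xx := by
      rw [← hm t a ha]
      exact hPa
    rcases WrF_cases bs t with h | ⟨i', hi', h, h'⟩ | h | ⟨j', hj', h, h'⟩ | h
    · rw [h.2] at hPa'
      rcases hPa' with h4 | h4 <;> cases h4
    · rw [h'] at hPa'
      have hb : bs[i'] = true := by
        rcases hPa' with h4 | h4
        · injection h4
        · cases h4
      have hs := WrF_ps bs i' hi'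
      rw [hb] at hs
      have hs' : t + 1 = 2 * val (bs.take i') + 1 := by
        rw [h, hs]
        simp
      have h5 := WrF_le1 bs i'
      rw [hs']
      refine WrF_D1 h5 (by omega) ?_ ?_ ?_
      · exact WrF_Is hm (by omega) (fun x => x ≠ .no) (WrF_mk bs i' hi'.le _ (by omega))
      · exact WrF_Is hm (by omega) (fun x => x ≠ .no) (WrF_mk bs (i' + 1) hi' _ (by omega))
      · intro s hs1 hs2
        exact WrF_Is hm (by omega) (fun x => x = .no) (WrF_no1 bs i' hi' s hs1 (by omega))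
    · have h1 := h.1
      have h7 : t + 1 = 2 * val bs + 1 := by rw [h1, hc]
      rw [h7]
      refine WrF_D1 hpos (by omega) ?_ ?_ ?_
      · exact WrF_Is hm (by omega) (fun x => x ≠ .no)
          (WrF_mk bs bs.length le_rfl _ (by rw [WrF_pl]; omega))
      · exact WrF_Is hm (by omega) (fun x => x ≠ .no) (by
          rw [WrF_xx bs _ (by omega)]
          intro h4
          cases h4)
      · intro s hs1 hs2
        exact WrF_Is hm (by omega) (fun x => x = .no) (WrF_no2 bs s hs1 (by omega))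
    · rw [h'] at hPa'
      rcases hPa' with h4 | h4 <;> cases h4
    · rw [h.2.2.2.2] at hPa'
      rcases hPa' with h4 | h4 <;> cases h4

/-- the marks from position `1` to `val bs` spell `bs` -/
theorem bits_seg {ω : List Om} {bs : List Bool} (hlen : val (bs ++ [true]) ≤ ω.length)
    (hm : ∀ r a, ω[r]? = some a → mrk a = mF bs r) : At ω (BitsL bs) 1 (val bs) := by
  have h := WrF_bits hlen hm bs.length 0 (by omega)
  rw [WrF_p0, List.drop_zero] at h
  exact h

/-- marks between the last bit and `xx` -/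
theorem marks_tail {ω : List Om} {bs : List Bool} (hlen : val (bs ++ [true]) ≤ ω.length)
    (hm : ∀ r a, ω[r]? = some a → mrk a = mF bs r) :
    (∀ s, val bs ≤ s → s + 1 < val (bs ++ [true]) → Is ω s (fun a => mrk a = .no)) ∧
      Is ω (val (bs ++ [true]) - 1) (fun a => mrk a = .xx) ∧ Is ω 0 (fun a => mrk a = .st) := by
  have hc := WrF_c bs
  have hpos := val_pos bs
  refine ⟨fun s hs1 hs2 => ?_, ?_, ?_⟩
  · exact WrF_Is hm (by omega) (fun x => x = .no) (WrF_no2 bs s hs1 hs2)
  · exact WrF_Is hm (by omega) (fun x => x = .xx) (WrF_xx bs _ (by omega))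
  · exact WrF_Is hm (by omega) (fun x => x = .st) (WrF_st bs)

end Pool.Agent.H29.CJ
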