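import Pool.Agent.H29.CJ.WrD

/-!
# Decoding

* `val (l ++ [v]) = 2 * val l + [v]`, `val l ≥ 1`, `val (l ++ [true])` is odd.  `val` is injective: reverse induction (`List.reverseRecOn`) on both lists:
  `val [] = 1`, `val (l ++ [v]) ≥ 2`; parity gives the last bit.
* `val_pow_inj`: odd parts: `a 2^h = a' 2^h'` with `a, a'` odd implies `a = a'` (if `h < h'` then `a = a' 2^(h'-h)` is even).  Then injectivity of `val`.
* `codeT c` has length `Fintype.card (Ct Lt)` for all `c`; `codeT c = codeT c'` implies `c = c'` (the entry of `c` is `true` exactly at `c`).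
  `codeT_flatMap_inj`: induction on `t`, cutting off the first `card` bits (`List.append_inj`); lengths: a nonempty list has a nonempty code (`card > 0`).
-/

set_option autoImplicit false

namespace Pool.Agent.H29.CJ

theorem val_append (l : List Bool) (v : Bool) :
    val (l ++ [v]) = 2 * val l + (if v then 1 else 0) := by
  simp [val]

theorem val_pos (l : List Bool) : 1 ≤ val l := by
  induction l using List.reverseRecOn with
  | nil => simp [val]
  | append_singleton l v ih =>
    rw [val_append]
    exact le_trans (by omega) (Nat.le_add_right _ _)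

theorem wrV_val_inj (l : List Bool) : ∀ l' : List Bool, val l = val l' → l = l' := by
  induction l using List.reverseRecOn with
  | nil =>
    intro l' e
    rcases l'.eq_nil_or_concat' with h | ⟨L, b, h⟩
    · exact h.symm
    · subst h
      rw [val_append] at e
      have h1 := val_pos L
      have h2 : val [] = 1 := by simp [val]
      exfalso
      omega
  | append_singleton l v ih =>
    intro l' e
    rcases l'.eq_nil_or_concat' with h | ⟨L, b, h⟩
    · subst h
      rw [val_append] at e
      have h1 := val_pos l
      have h2 : val [] = 1 := by simp [val]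
      exfalso
      omega
    · subst h
      rw [val_append, val_append] at e
      cases v <;> cases b <;> simp at e
      · rw [ih L e]
      · exfalso
        omega
      · exfalso
        omega
      · rw [ih L e]

theorem wrV_odd {a a' h h' : ℕ} (ha : a % 2 = 1) (ha' : a' % 2 = 1)
    (e : a * 2 ^ h = a' * 2 ^ h') : a = a' := by
  rcases lt_trichotomy h h' with hl | hl | hl
  · exfalso
    obtain ⟨d, rfl⟩ := Nat.exists_eq_add_of_lt hl
    have h1 : a * 2 ^ h = (2 * (a' * 2 ^ d)) * 2 ^ h := by
      rw [e]
      ring
    have h2 := Nat.eq_of_mul_eq_mul_right (by positivity) h1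
    omega
  · subst hl
    exact Nat.eq_of_mul_eq_mul_right (by positivity) e
  · exfalso
    obtain ⟨d, rfl⟩ := Nat.exists_eq_add_of_lt hl
    have h1 : a' * 2 ^ h' = (2 * (a * 2 ^ d)) * 2 ^ h' := by
      rw [← e]
      ring
    have h2 := Nat.eq_of_mul_eq_mul_right (by positivity) h1
    omega

theorem val_pow_inj {l l' : List Bool} {h h' : ℕ}
    (e : val (l ++ [true]) * 2 ^ h = val (l' ++ [true]) * 2 ^ h') : l = l' := by
  have h1 : val (l ++ [true]) = 2 * val l + 1 := by
    rw [val_append]
    simp
  have h2 : val (l' ++ [true]) = 2 * val l' + 1 := by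
    rw [val_append]
    simp
  have h3 := wrV_odd (by omega) (by omega) e
  exact wrV_val_inj l l' (by omega)

theorem wrV_len (c : Ct Lt) : (codeT c).length = Fintype.card (Ct Lt) := by
  unfold codeT
  rw [List.length_map, Finset.length_toList, Finset.card_univ]

theorem wrV_codeT_inj {c c' : Ct Lt} (h : codeT c = codeT c') : c = c' := by
  unfold codeT at h
  have h1 := List.map_inj_left.1 h c (Finset.mem_toList.2 (Finset.mem_univ c))
  simpa using h1

theorem wrV_ne (c : Ct Lt) (u : List Bool) : codeT c ++ u ≠ [] := by
  intro h
  have h1 := congrArg List.length h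
  rw [List.length_append, wrV_len] at h1
  have h2 : 0 < Fintype.card (Ct Lt) := Fintype.card_pos_iff.2 ⟨c⟩
  simp at h1
  omega

theorem codeT_flatMap_inj {t t' : List (Ct Lt)} (e : t.flatMap codeT = t'.flatMap codeT) :
    t = t' := by
  induction t generalizing t' with
  | nil =>
    cases t' with
    | nil => rfl
    | cons c' s' =>
      rw [List.flatMap_nil, List.flatMap_cons] at e
      exact absurd e.symm (wrV_ne c' _)
  | cons c s ih =>
    cases t' with
    | nil =>
      rw [List.flatMap_nil, List.flatMap_cons] at e
      exact absurd e (wrV_ne c _)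
    | cons c' s' =>
      rw [List.flatMap_cons, List.flatMap_cons] at e
      obtain ⟨h1, h2⟩ := List.append_inj e (by rw [wrV_len, wrV_len])
      rw [wrV_codeT_inj h1, ih h2]

end Pool.Agent.H29.CJ
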